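import Pool.Agent.Lib.MP_1aae89_al.W5.Defs
import Pool.Agent.Lib.MP_1aae89_al.W3.SpecB

/-!
# Specifications, part A: tensor induction and linear constituents

Let `P` be a `p`-group, `P₁` a normal subgroup of index `p`, `ρ` a representation of `P₁` and `r` the
representation of `P` obtained from it by tensor induction (structure `TI`). THEOREM (DLW): modulo `p`,
the number `dl q r k` of the linear constituents `η` of `r` with `η^q = k` is the sum of the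
`dl q ρ κ` over all `κ ∈ Lin P₁` with `κ ∘ Ver = k` (`Vr`), `Ver` the transfer `P → P₁`.

PROOF. (SYI) The representation `ρ` has a system `A` of orthogonal idempotents permuted by `P₁`
(conjugation by `ρ(x)`) such that the fixed ones have rank one. (SYS) Only the fixed idempotents
contribute modulo `p`: `dl q ρ κ` is the number of the fixed `e ∈ A` whose character `ω_e` satisfies
`ω_e^q = κ`. (WSY) The products `∏_i τ^i Φ(s i) τ^(-i)`, `s i ∈ A`, are such a system for `r`; its fixed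
elements are the `w = ∏_i τ^i Φ(e) τ^(-i)`, `e ∈ A` fixed, and (RK1) they have rank one; their character
is `ω_e ∘ Ver` on `P₁`, and its value at `τ` is `ω_e(τ^p)` up to a `p`-th root of unity.
-/

set_option autoImplicit false

namespace Pool.Agent.Lib.MP_1aae89_al.W5

open Pool.Agent.Lib.MP_1aae89_al Pool.Agent.Lib.MP_1aae89_al.BF Pool.Agent.Lib.MP_1aae89_al.W3
  Pool.Agent.Lib.MP_1aae89_al.W4 Finset
open Pool.Agent.Lib.MP1aae89 (Pex)

/-- SPN. Burnside's theorem: an irreducible representation spans the matrix algebra.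
PROOF. Let `S = ∑_g tr(r(g)⁻¹ X) r(g)` (`r g⁻¹` for the inverse). By `orth` (`BF/Mx.lean`)
`tr(B S) = (|G|/n) tr(B X)` for all matrices `B`, so `S = (|G|/n) X`. -/
def SpecSPN : Prop := ∀ {G : Type} [Group G] [Finite G] (n : ℕ)
  (r : G →* Matrix (Fin n) (Fin n) ℂ), Sch r → n ≠ 0 →
  ∀ X : Matrix (Fin n) (Fin n) ℂ, X ∈ Submodule.span ℂ (Set.range r)

/-- SYI. Systems of idempotents.
PROOF. Strong induction on `n`; `n = 0`: `A = ∅`. If `r` is not `Sch`: let `F` be as in `exists_idem`,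
`F = J J'`, `1 - F = J₂ J₂'` (`idem_factor`), `r₁`, `r₂` the compressions (`compr`, `BF/Isot.lean`) of
degrees `k`, `k₂ < n` (traces: `k + k₂ = n`, both are nonzero), `A₁`, `A₂` systems for them;
`A = {J e J' : e ∈ A₁} ∪ {J₂ e J₂' : e ∈ A₂}`. (`r x J = J r₁ x`, `J' r x = r₁ x J'`,
`(J e J')(J₂ e₂ J₂') = J e J' F (1 - F) … = 0`, `tr(J e J') = tr e`, and if `J e J'` commutes with `r x`
then `e` commutes with `r₁ x`.) If `r` is `Sch` and `n = 1`: `A = {1}`. If `r` is `Sch` and `n > 1`: by NLI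
(`W3/NLI.lean`) there is `ω ∈ Lin P`, `ω ≠ 1`, `ω^p = 1`, such that `x ↦ ω(x) r(x)` (`tw`) has the
same trace as `r`; by `equiv_of_trace` there is an invertible `B` with `r(x) B r(x)⁻¹ = ω(x)⁻¹ B`. `B^p`
commutes with `r(P)`, so it is a scalar, not zero; divide `B` by a `p`-th root of it: `B^p = 1`. Let `ζ`
be a primitive `p`-th root of unity, `e_j = (1/p) ∑_{i<p} ζ^(-ij) B^i`, `j < p`: orthogonal idempotents
with sum `1` (`∑_j ζ^(-ij) = 0` for `0 < i < p`), and `r(x) e_j r(x)⁻¹ = e_(j+c)` (indices modulo `p`) if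
`ω(x) = ζ^c`. If one of them is zero then all of them (choose `x` with `ω(x) ≠ 1`), a contradiction. So
`A = {e_j : j < p}` (image); no `e_j` is fixed: if `e_j` commutes with `r x`, `ω(x) ≠ 1`, then
`e_j = e_(j+c)`, `e_j = e_j e_(j+c) = 0`. -/
def SpecSYI : Prop := ∀ (p : ℕ), p.Prime → ∀ {P : Type} [Group P] [Finite P] (e : ℕ),
  Nat.card P = p ^ e → ∀ (n : ℕ) (r : P →* Matrix (Fin n) (Fin n) ℂ),
  ∃ A : Finset (Matrix (Fin n) (Fin n) ℂ), SI r A ∧
    ∀ e ∈ A, (∀ x, r x * e = e * r x) → e.trace = 1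

open Classical in
/-- SYS. Only the fixed idempotents contribute modulo `p`.
PROOF. For a stable subset `O ⊆ A` (`r x e r x⁻¹ ∈ O` for `e ∈ O`) let `F_O = ∑_{e ∈ O} e`, an idempotent
commuting with `r(P)`, and `χ_O(x) = tr(r(x) F_O)`, a character (`idem_factor`, `compr`). Claim:
`dl q χ_O k` is congruent to the number of the fixed `e ∈ O` with `(η e)^q = k`; strong induction on
`|O|`. `O = ∅`: `χ_O = 0`. Let `e ∈ O`, `O₁` the orbit of `e`, `O₂ = O \ O₁`: `χ_O = χ_(O₁) + χ_(O₂)`, and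
`dl` is additive for characters (`ml_spec`). If `e` is fixed then `O₁ = {e}` and `χ_(O₁) = η e`
(`tr(r(x) e) = (η e)(x) tr e`), `dl q (η e) k = [(η e)^q = k]`. If `e` is not fixed, its stabilizer
`Q = {x : r x e = e r x}` is a proper subgroup; let `ε` be as in `exists_eps` (`Deg.lean`): `ε ≠ 1`,
`ε^p = 1`, `ε = 1` on `Q`. If `ε(x) ≠ 1` then `χ_(O₁)(x) = 0`: for `e' = r g e r g⁻¹ ∈ O₁` we have
`tr(r(x) e') = tr(e' r(x) e') = tr(e' (r(x) e' r(x)⁻¹) r(x))`, which is `0` if `r(x) e' r(x)⁻¹ ≠ e'`;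
otherwise `g⁻¹ x g ∈ Q`, `ε(x) = 1`. So `χ_(O₁) ε = χ_(O₁)`, hence
`ml χ_(O₁) (λ ε) = ml χ_(O₁) λ`, and `λ ↦ λ ε` permutes `{λ : λ^q = k}` (`p ∣ q`) without fixed points and
has order `p`: `p ∣ dl q χ_(O₁) k` (`dvd_sum` in `Lin.lean`). -/
def SpecSYS : Prop := ∀ (p : ℕ), p.Prime → ∀ {P : Type} [Group P] [Finite P] (e : ℕ),
  Nat.card P = p ^ e → ∀ (n : ℕ) (r : P →* Matrix (Fin n) (Fin n) ℂ)
  (A : Finset (Matrix (Fin n) (Fin n) ℂ)), SI r A → ∀ η : Matrix (Fin n) (Fin n) ℂ → Lin P,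
  (∀ e ∈ A, (∀ x, r x * e = e * r x) → e.trace = 1 ∧ ∀ x, r x * e = ((η e x : ℂˣ) : ℂ) • e) →
  ∀ q : ℕ, p ∣ q → ∀ k : Lin P, dl q (fun x => (r x).trace) k ≡
    (A.filter fun e => (∀ x, r x * e = e * r x) ∧ (η e) ^ q = k).card [MOD p]

/-- WSY. The system of a tensor induced representation.
PROOF. Write `Ad z X = r z * X * r z⁻¹`. For `h ∈ P₁`: `Ad (z h) (Φ X) = Ad z (Φ (ρ h X ρ h⁻¹))`
(`TI.act`), and for `z`, `z'` in different cosets of `P₁` the matrices `Ad z (Φ X)`, `Ad z' (Φ Y)` commute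
(`TI.com` for `z⁻¹ z'`). For `s : ℕ → A` put `w_s = tp p r τ Φ s`, a product of commuting idempotents, an
idempotent. The cosets of `P₁` are the `τ^i P₁`, `i < p` (`index = p`, `τ ∉ P₁`). For `x ∈ P` write
`x τ^i = τ^(j(i)) h_i`, `j` a permutation of `{0, …, p-1}`: `Ad x w_s = ∏_i Ad (τ^(j(i))) (Φ (ρ h_i (s i)
ρ h_i⁻¹)) = w_(s')`, `s'(j(i)) = ρ h_i (s i) ρ h_i⁻¹` (the factors commute, so they can be reordered; a
product over a `Finset` in the commutative subalgebra generated by the factors, or `List.Perm` with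
pairwise commutation, or `Finset.noncommProd`). If `s`, `s'` differ at some `i < p` then `w_s w_(s') = 0`.
`∑_s w_s = 1`, the sum over all functions `s : {0, …, p-1} → A`: `1 = ∏_i Ad (τ^i) (Φ (∑_{e ∈ A} e))`.
`B = {w_s : s} \ {0}`: `s ↦ w_s` is injective on `{s : w_s ≠ 0}` (`w_s = w_s w_s`), so `∑_{w ∈ B} w = 1`.
Let `w = w_s ∈ B` commute with `r(P)`. For `h ∈ P₁`: `Ad h w_s = w_(s')` with
`s'(i) = ρ(cjt P₁ τ i h) (s i) ρ(…)⁻¹`, so `s' = s` (else `w = w w = 0`), in particular (`i = 0`)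
`ρ h (s 0) = (s 0) ρ h`. For `x = τ`: `s'(i + 1) = s i` for `i + 1 < p`, so `s` is constant on
`{0, …, p-1}`. -/
def SpecWSY : Prop := ∀ (p : ℕ) {P : Type} [Group P] (P₁ : Subgroup P) [P₁.Normal] (τ : P)
  (n m : ℕ) (r : P →* Matrix (Fin n) (Fin n) ℂ) (ρ : P₁ →* Matrix (Fin m) (Fin m) ℂ)
  (Φ : Matrix (Fin m) (Fin m) ℂ →ₐ[ℂ] Matrix (Fin n) (Fin n) ℂ), TI p P₁ τ r ρ Φ →
  ∀ A : Finset (Matrix (Fin m) (Fin m) ℂ), SI ρ A →
  ∃ B : Finset (Matrix (Fin n) (Fin n) ℂ), SI r B ∧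
    (∀ w ∈ B, (∀ x, r x * w = w * r x) →
      ∃ e ∈ A, (∀ x, ρ x * e = e * ρ x) ∧ w = tp p r τ Φ fun _ => e) ∧
    (∀ e ∈ A, (∀ x, ρ x * e = e * ρ x) → tp p r τ Φ (fun _ => e) ≠ 0 →
      tp p r τ Φ (fun _ => e) ∈ B) ∧
    ∀ e ∈ A, (∀ x, ρ x * e = e * ρ x) → ∀ x, r x * tp p r τ Φ (fun _ => e) =
      tp p r τ Φ (fun _ => e) * r x

/-- RK1. `w = ∏_i τ^i Φ(e) τ^(-i)` has rank one if `e` has.
PROOF. An idempotent with trace `1` has the form `e = J J'`, `J' J = 1` of size `1` (`idem_factor`), so for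
each `X` there is `c` with `e X e = c e`. The factors of `w` commute (WSY), so
`w tp(Y) w = tp(e Y e) = c w`, and by `TI.gen` for each `X` there is `c` with `w X w = c w`; `w w = w`. By
`TI.tr`, `TI.trm` `n^(p-1) tr w = (tr Φ(e))^p = (n/m)^p ≠ 0` (`m ≠ 0`, since `n ≠ 0` and
`m tr Φ(1) = n m`; if `m = 0` then `M_m(ℂ)` is zero and `Φ(1) = Φ(0)`), so `w ≠ 0`. `w = J J'`,
`J' J = 1` of size `k ≥ 1`; `J Y J' = w (J Y J') w = c w`, so `Y = c` for all matrices `Y` of size `k`,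
`k = 1`, `tr w = 1`. -/
def SpecRK1 : Prop := ∀ (p : ℕ) {P : Type} [Group P] (P₁ : Subgroup P) [P₁.Normal] (τ : P)
  (n m : ℕ) (r : P →* Matrix (Fin n) (Fin n) ℂ) (ρ : P₁ →* Matrix (Fin m) (Fin m) ℂ)
  (Φ : Matrix (Fin m) (Fin m) ℂ →ₐ[ℂ] Matrix (Fin n) (Fin n) ℂ), TI p P₁ τ r ρ Φ →
  ∀ e : Matrix (Fin m) (Fin m) ℂ, e * e = e → e.trace = 1 →
  (tp p r τ Φ fun _ => e) * (tp p r τ Φ fun _ => e) = (tp p r τ Φ fun _ => e) ∧
    (tp p r τ Φ fun _ => e).trace = 1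

/-- RKC. A rank one idempotent commuting with a representation defines a linear character.
PROOF. `e = J J'`, `J' J = 1` of size `1`; `J' r(x) J` is a number `η(x)`, multiplicative in `x`
(`compr`), and `r(x) e = r(x) J J' = J (J' r(x) J) J'`. -/
def SpecRKC : Prop := ∀ {P : Type} [Group P] (n : ℕ) (r : P →* Matrix (Fin n) (Fin n) ℂ)
  (e : Matrix (Fin n) (Fin n) ℂ), e * e = e → e.trace = 1 → (∀ x, r x * e = e * r x) →
  ∃ η : Lin P, ∀ x, r x * e = ((η x : ℂˣ) : ℂ) • e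

open Classical in
/-- DLW. Linear constituents of a tensor induced representation, modulo `p`.
PROOF. `A` as in SYI for `ρ`; `B` as in WSY. By RKC choose `ω e ∈ Lin P₁` for the fixed `e ∈ A`, and, by
RK1 and RKC, `η w ∈ Lin P` for the fixed `w ∈ B` (`w = tp p r τ Φ (fun _ => e)`). The map `e ↦ w` is a
bijection from the fixed `e ∈ A` onto the fixed `w ∈ B` (`w ≠ 0` as `tr w = 1`; if `e ≠ e'` then
`w w' = 0`, as the factors commute, so `w ≠ w'`). For `x ∈ P₁`: by `TI.res`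
`r(x) w = tp(ρ(cjt i x) e) = (∏_i ω_e(cjt i x)) w`, so `η_w(x) = ∏_i ω_e(cjt i x)`. `τ^p ∈ P₁` (index `p`),
`η_w(τ)^p = η_w(τ^p) = ω_e(τ^p)^p` (`cjt i (τ^p) = τ^p`), so `η_w(τ)^q = ω_e(τ^p)^q`, as `p ∣ q`. `P` is
generated by `P₁` and `τ`, so `η_w^q = k` if and only if `k(x) = ∏_i ω_e^q(cjt i x)` for `x ∈ P₁` and
`k(τ) = ω_e^q(τ^p)`, that is `Vr (ω_e^q) k`. By SYS for `r`, `B` the left side is the number of the fixed
`e` with `Vr (ω_e^q) k`, and by SYS for `ρ`, `A` so is the right side. -/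
def SpecDLW : Prop := ∀ (p : ℕ) {P : Type} [Group P] [Finite P] (e : ℕ), Nat.card P = p ^ e →
  ∀ (P₁ : Subgroup P) [P₁.Normal] (τ : P) (n m : ℕ) (r : P →* Matrix (Fin n) (Fin n) ℂ)
  (ρ : P₁ →* Matrix (Fin m) (Fin m) ℂ)
  (Φ : Matrix (Fin m) (Fin m) ℂ →ₐ[ℂ] Matrix (Fin n) (Fin n) ℂ), TI p P₁ τ r ρ Φ →
  ∀ q : ℕ, p ∣ q → ∀ k : Lin P, dl q (fun x => (r x).trace) k ≡
    ∑ κ ∈ univ.filter (fun κ : Lin P₁ => Vr p P₁ τ κ k),
      dl q (fun x => (ρ x).trace) κ [MOD p]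

end Pool.Agent.Lib.MP_1aae89_al.W5
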