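import Pool.Agent.Lib.MP_1aae89_al.HC.Spec
import Pool.Agent.Lib.MP_1aae89_al.HC.Spec2
import Pool.Agent.Lib.MP_1aae89_al.Gal
import Pool.Agent.Lib.MP_1aae89_al.W.SCA
import Pool.Agent.Lib.MP_1aae89_al.W3.SpecA
import Pool.Agent.Lib.MP_1aae89_al.W3.SpecC
import Pool.Agent.Lib.MP_1aae89_al.W3.SpecB
import Pool.Agent.Lib.MP_1aae89_al.W4.SpecA
import Pool.Agent.Lib.MP_1aae89_al.W5.SpecA

section
/-!
# AGI: the numbers `tr (r(g) N E_η)` are algebraic integers
-/
set_option autoImplicit false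

namespace Pool.Agent.Lib.MP_1aae89_al.HC

open Pool.Agent.Lib.MP_1aae89_al Pool.Agent.Lib.MP_1aae89_al.BF Pool.Agent.Lib.MP_1aae89_al.W3 Finset

namespace AGI_

variable {X : Type} [Group X] [Fintype X] {n : ℕ} (r : X →* Matrix (Fin n) (Fin n) ℂ)

theorem NU_mul (U : Subgroup X) {v : X} (hv : v ∈ U) : NU r U * r v = NU r U := by
  classical
  unfold NU
  rw [Finset.sum_mul]
  refine Fintype.sum_equiv (Equiv.mulRight ⟨v, hv⟩) _ _ fun u => ?_
  rw [← map_mul]
  rfl

theorem mul_NU (U : Subgroup X) {v : X} (hv : v ∈ U) : r v * NU r U = NU r U := by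
  classical
  unfold NU
  rw [Finset.mul_sum]
  refine Fintype.sum_equiv (Equiv.mulLeft ⟨v, hv⟩) _ _ fun u => ?_
  rw [← map_mul]
  rfl

theorem NU_comm (P U : Subgroup X) (h : ∀ x ∈ P, ∀ u ∈ U, x * u * x⁻¹ ∈ U) {x : X} (hx : x ∈ P) :
    r x * NU r U = NU r U * r x := by
  classical
  unfold NU
  rw [Finset.mul_sum, Finset.sum_mul]
  refine Fintype.sum_equiv
    ⟨fun u => ⟨x * u * x⁻¹, h x hx u u.2⟩, fun u => ⟨x⁻¹ * u * x⁻¹⁻¹, h x⁻¹ (P.inv_mem hx) u u.2⟩,
      fun u => Subtype.ext (by change x⁻¹ * (x * (u : X) * x⁻¹) * x⁻¹⁻¹ = u; group),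
      fun u => Subtype.ext (by change x * (x⁻¹ * (u : X) * x⁻¹⁻¹) * x⁻¹ = u; group)⟩ _ _
      fun u => ?_
  rw [← map_mul, ← map_mul]
  congr 1
  change x * (u : X) = x * u * x⁻¹ * x
  group

theorem NU_EE (P U : Subgroup X) (h : ∀ x ∈ P, ∀ u ∈ U, x * u * x⁻¹ ∈ U) (η : Lin P) :
    NU r U * EE r P η = EE r P η * NU r U := by
  unfold EE
  rw [Matrix.mul_smul, Matrix.smul_mul, Finset.mul_sum, Finset.sum_mul]
  congr 1
  refine Finset.sum_congr rfl fun x _ => ?_
  rw [Matrix.mul_smul, Matrix.smul_mul, NU_comm r P U h x.2]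

theorem mul_EE (P : Subgroup X) (η : Lin P) (y : P) :
    r y * EE r P η = ((η y : ℂˣ) : ℂ) • EE r P η := by
  classical
  unfold EE
  rw [Matrix.mul_smul, smul_comm ((η y : ℂˣ) : ℂ) ((Nat.card P : ℂ)⁻¹)]
  refine congrArg (fun T : Matrix (Fin n) (Fin n) ℂ => (Nat.card P : ℂ)⁻¹ • T) ?_
  rw [Finset.mul_sum, Finset.smul_sum]
  refine Fintype.sum_equiv (Equiv.mulLeft y) _ _ fun x => ?_
  change r y * ((((η x)⁻¹ : ℂˣ) : ℂ) • r x) =
    ((η y : ℂˣ) : ℂ) • ((((η (y * x))⁻¹ : ℂˣ) : ℂ) • r ((y * x : P) : X))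
  rw [Matrix.mul_smul, smul_smul, map_mul]
  congr 1
  · have h1 : ((η y : ℂˣ) : ℂ) ≠ 0 := (η y).ne_zero
    rw [mul_inv, Units.val_mul, ← mul_assoc, Units.val_inv_eq_inv_val (η y), mul_inv_cancel₀ h1,
      one_mul]
  · rw [← map_mul]
    rfl

theorem EE_EE (P : Subgroup X) (η θ : Lin P) :
    EE r P θ * EE r P η = (open Classical in if θ = η then EE r P η else 0) := by
  classical
  have h0 : EE r P θ * EE r P η =
      ((Nat.card P : ℂ)⁻¹ * ∑ x : P, ((((θ x)⁻¹ : ℂˣ) : ℂ) * ((η x : ℂˣ) : ℂ))) • EE r P η := by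
    conv_lhs => rw [show EE r P θ = (Nat.card P : ℂ)⁻¹ •
      ∑ x : P, (((θ x)⁻¹ : ℂˣ) : ℂ) • r x from by unfold EE; congr!]
    rw [Matrix.smul_mul, Finset.sum_mul, mul_smul, Finset.sum_smul]
    congr 1
    refine Finset.sum_congr rfl fun x _ => ?_
    rw [Matrix.smul_mul, mul_EE, smul_smul]
  rw [h0]
  split_ifs with h
  · subst h
    have h1 : ∀ x ∈ (univ : Finset P), (((θ x)⁻¹ : ℂˣ) : ℂ) * ((θ x : ℂˣ) : ℂ) = 1 := fun x _ => by
      rw [Units.val_inv_eq_inv_val, inv_mul_cancel₀ (θ x).ne_zero]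
    rw [Finset.sum_congr rfl h1, sum_const, card_univ, nsmul_eq_mul, mul_one, Nat.card_eq_fintype_card,
      inv_mul_cancel₀ (by exact_mod_cast Fintype.card_ne_zero), one_smul]
  · let f : P →* ℂ :=
      { toFun := fun x => (((θ x)⁻¹ : ℂˣ) : ℂ) * ((η x : ℂˣ) : ℂ)
        map_one' := by simp
        map_mul' := fun x y => by
          simp only [map_mul, mul_inv, Units.val_mul]
          ring }
    have hf : f ≠ 1 := by
      intro hf
      apply h
      apply Lin.ext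
      intro x
      have h1 := DFunLike.congr_fun hf x
      have h2 : (((θ x)⁻¹ : ℂˣ) : ℂ) * ((η x : ℂˣ) : ℂ) = 1 := h1
      rw [Units.val_inv_eq_inv_val] at h2
      apply Units.ext
      have h3 : ((θ x : ℂˣ) : ℂ) ≠ 0 := (θ x).ne_zero
      field_simp at h2
      exact h2.symm
    have h2 := sum_hom_units_eq_zero f hf
    have h3 : ∑ x : P, ((((θ x)⁻¹ : ℂˣ) : ℂ) * ((η x : ℂˣ) : ℂ)) = 0 := h2
    rw [h3, mul_zero, zero_smul]

/-- conjugation by an element which normalizes `P` -/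
def cP (P : Subgroup X) (m : X) (hm : ∀ x : X, x ∈ P ↔ m * x * m⁻¹ ∈ P) : P ≃ P where
  toFun x := ⟨m * (x : X) * m⁻¹, (hm x).1 x.2⟩
  invFun x := ⟨m⁻¹ * (x : X) * m, (hm _).2 (by
    have := x.2
    rwa [show m * (m⁻¹ * (x : X) * m) * m⁻¹ = x by group])⟩
  left_inv u := Subtype.ext (by change m⁻¹ * (m * (u : X) * m⁻¹) * m = u; group)
  right_inv u := Subtype.ext (by change m * (m⁻¹ * (u : X) * m) * m⁻¹ = u; group)

/-- the conjugate character -/
def cjL (P : Subgroup X) (m : X) (hm : ∀ x : X, x ∈ P ↔ m * x * m⁻¹ ∈ P) (η : Lin P) : Lin P :=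
  (MonoidHom.comp (show P →* ℂˣ from η)
    { toFun := fun x => ⟨m⁻¹ * x * m, (hm _).2 (by
        have := x.2
        rwa [show m * (m⁻¹ * (x : X) * m) * m⁻¹ = x by group])⟩
      map_one' := Subtype.ext (by simp)
      map_mul' := fun x y => Subtype.ext (by simp [mul_assoc]) } : P →* ℂˣ)

theorem mul_EE_m (P : Subgroup X) (m : X) (hm : ∀ x : X, x ∈ P ↔ m * x * m⁻¹ ∈ P) (η : Lin P) :
    r m * EE r P η = EE r P (cjL P m hm η) * r m := by
  classical
  unfold EE
  rw [Matrix.mul_smul, Matrix.smul_mul, Finset.mul_sum, Finset.sum_mul]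
  congr 1
  refine Fintype.sum_equiv (cP P m hm) _ _ fun x => ?_
  change r m * ((((η x)⁻¹ : ℂˣ) : ℂ) • r x) =
    ((((η ⟨m⁻¹ * (m * x * m⁻¹) * m, _⟩)⁻¹ : ℂˣ) : ℂ) • r (m * x * m⁻¹)) * r m
  have h1 : (⟨m⁻¹ * (m * (x : X) * m⁻¹) * m, (hm _).2 (by
      have := x.2
      rw [show m * (m⁻¹ * (m * (x : X) * m⁻¹) * m) * m⁻¹ = m * x * m⁻¹ by group]
      exact (hm x).1 this)⟩ : P) = x := Subtype.ext (by change m⁻¹ * (m * (x : X) * m⁻¹) * m = x; group)
  rw [Matrix.mul_smul, Matrix.smul_mul, ← map_mul, ← map_mul, h1]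
  congr 2
  group

theorem sumI (U : Subgroup X) (m : X) :
    ∑ x : X, ((open Classical in (if m⁻¹ * x ∈ U then 1 else 0 : ℤ) : ℤ) : ℂ) • r x =
      r m * NU r U := by
  classical
  have h1 : r m * NU r U = ∑ u : U, r (m * u) := by
    unfold NU
    rw [Finset.mul_sum]
    refine Fintype.sum_equiv (Equiv.refl _) _ _ fun u => ?_
    rw [map_mul]
    rfl
  rw [h1]
  have h2 : ∑ x : X, (((if m⁻¹ * x ∈ U then 1 else 0 : ℤ) : ℤ) : ℂ) • r x =
      ∑ y : X, if y ∈ U then r (m * y) else 0 := by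
    refine Fintype.sum_equiv (Equiv.mulLeft m⁻¹) _ _ fun x => ?_
    change _ = if m⁻¹ * x ∈ U then r (m * (m⁻¹ * x)) else 0
    split_ifs <;> simp
  rw [h2, ← Finset.sum_filter]
  exact Finset.sum_subtype (univ.filter (· ∈ U)) (by simp) fun y => r (m * y)

end AGI_

open AGI_ in
theorem specAGI (hTRI : SpecTRI) : SpecAGI := by
  intro p X _ _ P U hS n r η g
  obtain ⟨u, hu, m, hm, v, hv, rfl⟩ := hS.dec g
  have hNE := NU_EE r P U hS.nrm η
  have h1 : (r (u * m * v) * (NU r U * EE r P η)).trace = (r m * (EE r P η * NU r U)).trace := by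
    rw [map_mul, map_mul, Matrix.mul_assoc (r u * r m), ← Matrix.mul_assoc (r v), mul_NU r U hv,
      hNE, Matrix.mul_assoc, Matrix.trace_mul_comm, Matrix.mul_assoc, Matrix.mul_assoc,
      NU_mul r U hu]
  rw [h1]
  have hEE : EE r P η * EE r P η = EE r P η := by
    rw [EE_EE, if_pos rfl]
  by_cases h : cjL P m hm η = η
  · have h2 : r m * EE r P η = EE r P η * r m := by
      have := mul_EE_m r P m hm η
      rwa [h] at this
    have h3 := hTRI r (fun x => open Classical in (if m⁻¹ * x ∈ U then 1 else 0 : ℤ)) (EE r P η) hEE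
      (by rw [sumI, Matrix.mul_assoc, hNE, ← Matrix.mul_assoc, h2, Matrix.mul_assoc])
    rw [sumI, Matrix.mul_assoc, hNE] at h3
    exact h3
  · have h2 : (r m * (EE r P η * NU r U)).trace = 0 := by
      have h3 : r m * (EE r P η * NU r U) =
          EE r P (cjL P m hm η) * (r m * (EE r P η * NU r U)) := by
        conv_lhs => rw [← hEE]
        rw [← Matrix.mul_assoc, ← Matrix.mul_assoc (r m), mul_EE_m r P m hm η]
        simp only [Matrix.mul_assoc]
      have h4 : EE r P (cjL P m hm η) * (r m * (EE r P η * NU r U)) =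
          EE r P (cjL P m hm η) * (r m * NU r U * EE r P η) := by
        rw [← hNE, Matrix.mul_assoc]
      rw [h3, h4, Matrix.trace_mul_comm, Matrix.mul_assoc, EE_EE, if_neg (Ne.symm h), Matrix.mul_zero,
        Matrix.trace_zero]
    rw [h2]
    exact isIntegral_zero

end Pool.Agent.Lib.MP_1aae89_al.HC
end

section
/-!
# The Bruhat decomposition of `GL_n` (BRU)
-/
set_option autoImplicit false

namespace Pool.Agent.Lib.MP_1aae89_al.HC

open Finset
open Matrix (GeneralLinearGroup)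

namespace BRU_

variable {n : ℕ} {F : Type} [Field F]

theorem ut_mul {g h : GL (Fin n) F} (hg : UT g) (hh : UT h) : UT (g * h) := by
  constructor
  · intro i
    rw [Matrix.GeneralLinearGroup.coe_mul, Matrix.mul_apply, Finset.sum_eq_single i]
    · rw [hg.1, hh.1, one_mul]
    · intro k _ hk
      rcases lt_or_gt_of_ne hk with h1 | h1
      · rw [hg.2 i k h1, zero_mul]
      · rw [hh.2 k i h1, mul_zero]
    · intro h1
      exact absurd (Finset.mem_univ _) h1
  · intro i j hij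
    rw [Matrix.GeneralLinearGroup.coe_mul, Matrix.mul_apply]
    apply Finset.sum_eq_zero
    intro k _
    rcases lt_or_ge k i with h1 | h1
    · rw [hg.2 i k h1, zero_mul]
    · rw [hh.2 k j (lt_of_lt_of_le hij h1), mul_zero]

theorem ut_one : UT (1 : GL (Fin n) F) := by
  constructor
  · intro i
    simp
  · intro i j hij
    simp [hij.ne']

/-- a unitriangular matrix as an element of `GL` -/
theorem exists_gl (A : Matrix (Fin n) (Fin n) F) (h1 : ∀ i, A i i = 1)
    (h2 : ∀ i j, j < i → A i j = 0) :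
    ∃ g : GL (Fin n) F, UT g ∧ ∀ a b, (g : Matrix (Fin n) (Fin n) F) a b = A a b := by
  have hdet : A.det = 1 := by
    rw [Matrix.det_of_isUpperTriangular (fun i j hij => h2 i j hij)]
    simp [h1]
  refine ⟨Matrix.GeneralLinearGroup.mkOfDetNeZero A (by rw [hdet]; exact one_ne_zero), ?_,
    fun _ _ => rfl⟩
  exact ⟨h1, h2⟩

/-- column `j` is zero except at one place, and the row of this place is zero elsewhere -/
def Piv (M : Matrix (Fin n) (Fin n) F) (j i : Fin n) : Prop :=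
  M i j ≠ 0 ∧ (∀ i', i' ≠ i → M i' j = 0) ∧ ∀ j', j' ≠ j → M i j' = 0

theorem exists_ne (g : GL (Fin n) F) (j : Fin n) :
    ∃ i, (g : Matrix (Fin n) (Fin n) F) i j ≠ 0 := by
  by_contra h
  push Not at h
  have h1 : ((g⁻¹ * g : GL (Fin n) F) : Matrix (Fin n) (Fin n) F) j j = 0 := by
    rw [Matrix.GeneralLinearGroup.coe_mul, Matrix.mul_apply]
    apply Finset.sum_eq_zero
    intro k _
    rw [h k, mul_zero]
  rw [inv_mul_cancel] at h1
  simp at h1

theorem step (g : GL (Fin n) F) (k : Fin n)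
    (h : ∀ j, j < k → ∃ i, Piv (g : Matrix (Fin n) (Fin n) F) j i) :
    ∃ u v : GL (Fin n) F, UT u ∧ UT v ∧
      ∀ j, j ≤ k → ∃ i, Piv ((u * g * v : GL (Fin n) F) : Matrix (Fin n) (Fin n) F) j i := by
  classical
  set M : Matrix (Fin n) (Fin n) F := (g : Matrix (Fin n) (Fin n) F) with hM
  -- the largest row with a nonzero entry in column `k`
  obtain ⟨i, hi, hmax⟩ : ∃ i, M i k ≠ 0 ∧ ∀ a, i < a → M a k = 0 := by
    obtain ⟨i0, hi0⟩ := exists_ne g k
    have hne : (Finset.univ.filter fun a => M a k ≠ 0).Nonempty :=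
      ⟨i0, Finset.mem_filter.2 ⟨Finset.mem_univ _, hi0⟩⟩
    refine ⟨(Finset.univ.filter fun a => M a k ≠ 0).max' hne, ?_, ?_⟩
    · exact (Finset.mem_filter.1 (Finset.max'_mem _ hne)).2
    · intro a ha
      by_contra hc
      have hmem : a ∈ Finset.univ.filter (fun a => M a k ≠ 0) := by
        rw [Finset.mem_filter]
        exact ⟨Finset.mem_univ _, hc⟩
      exact absurd ha (not_lt.2 (Finset.le_max' _ a hmem))
  -- row `i` is zero to the left of `k`
  have hrow : ∀ j, j < k → M i j = 0 := by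
    intro j hj
    obtain ⟨w, -, hw2, hw3⟩ := h j hj
    by_cases hiw : i = w
    · exfalso
      rw [hiw] at hi
      exact hi (hw3 k hj.ne')
    · exact hw2 i hiw
  -- clear column `k`
  obtain ⟨u, hu, huA⟩ := exists_gl (n := n) (F := F)
    (fun a b => if a = b then 1 else if b = i ∧ a < i then - (M a k / M i k) else 0)
    (fun a => by simp) (fun a b hab => by
      have h1 : ¬ a = b := hab.ne'
      have h2 : ¬ (b = i ∧ a < i) := by
        rintro ⟨rfl, h3⟩
        exact absurd hab (not_lt.2 h3.le)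
      simp only [if_neg h1, if_neg h2])
  have huA' : ∀ a b, (u : Matrix (Fin n) (Fin n) F) a b =
      if a = b then 1 else if b = i ∧ a < i then - (M a k / M i k) else 0 := huA
  have hM1 : ∀ a b, ((u * g : GL (Fin n) F) : Matrix (Fin n) (Fin n) F) a b =
      M a b + if a < i then - (M a k / M i k) * M i b else 0 := by
    intro a b
    rw [Matrix.GeneralLinearGroup.coe_mul, Matrix.mul_apply]
    simp only [huA']
    rw [← Finset.add_sum_erase _ _ (Finset.mem_univ a)]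
    congr 1
    · simp [hM]
    · by_cases hai : a < i
      · rw [if_pos hai, Finset.sum_eq_single i]
        · rw [if_neg hai.ne, if_pos ⟨rfl, hai⟩]
        · intro c hc hci
          have h1 : ¬ a = c := (Finset.ne_of_mem_erase hc).symm
          rw [if_neg h1, if_neg (fun h2 => hci h2.1), zero_mul]
        · intro h1
          exact absurd (Finset.mem_erase.2 ⟨hai.ne', Finset.mem_univ _⟩) h1
      · rw [if_neg hai]
        apply Finset.sum_eq_zero
        intro c hc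
        have h1 : ¬ a = c := (Finset.ne_of_mem_erase hc).symm
        rw [if_neg h1, if_neg (fun h2 => hai h2.2), zero_mul]
  set M1 : Matrix (Fin n) (Fin n) F := ((u * g : GL (Fin n) F) : Matrix (Fin n) (Fin n) F)
    with hM1def
  have hM1i : ∀ b, M1 i b = M i b := by
    intro b
    rw [hM1, if_neg (lt_irrefl i), add_zero]
  have hM1k : ∀ a, a ≠ i → M1 a k = 0 := by
    intro a ha
    rw [hM1]
    rcases lt_or_gt_of_ne ha with h1 | h1
    · rw [if_pos h1]
      field_simp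
      ring
    · rw [if_neg (not_lt.2 h1.le), hmax a h1, add_zero]
  -- clear row `i`
  obtain ⟨v, hv, hvA⟩ := exists_gl (n := n) (F := F)
    (fun a b => if a = b then 1 else if a = k ∧ k < b then - (M i b / M i k) else 0)
    (fun a => by simp) (fun a b hab => by
      have h1 : ¬ a = b := hab.ne'
      have h2 : ¬ (a = k ∧ k < b) := by
        rintro ⟨rfl, h3⟩
        exact absurd hab (not_lt.2 h3.le)
      simp only [if_neg h1, if_neg h2])
  have hvA' : ∀ a b, (v : Matrix (Fin n) (Fin n) F) a b =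
      if a = b then 1 else if a = k ∧ k < b then - (M i b / M i k) else 0 := hvA
  have hM2 : ∀ a b, ((u * g * v : GL (Fin n) F) : Matrix (Fin n) (Fin n) F) a b =
      M1 a b + if k < b then M1 a k * - (M i b / M i k) else 0 := by
    intro a b
    rw [Matrix.GeneralLinearGroup.coe_mul, Matrix.mul_apply]
    simp only [hvA']
    rw [← Finset.add_sum_erase _ _ (Finset.mem_univ b)]
    congr 1
    · simp [hM1def]
    · by_cases hkb : k < b
      · rw [if_pos hkb, Finset.sum_eq_single k]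
        · rw [if_neg hkb.ne, if_pos ⟨rfl, hkb⟩]
        · intro c hc hck
          have h1 : ¬ c = b := Finset.ne_of_mem_erase hc
          rw [if_neg h1, if_neg (fun h2 => hck h2.1), mul_zero]
        · intro h1
          exact absurd (Finset.mem_erase.2 ⟨hkb.ne, Finset.mem_univ _⟩) h1
      · rw [if_neg hkb]
        apply Finset.sum_eq_zero
        intro c hc
        have h1 : ¬ c = b := Finset.ne_of_mem_erase hc
        rw [if_neg h1, if_neg (fun h2 => hkb h2.2), mul_zero]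
  refine ⟨u, v, hu, hv, fun j hj => ?_⟩
  rcases hj.lt_or_eq with hjk | rfl
  · obtain ⟨w, hw1, hw2, hw3⟩ := h j hjk
    have hcol : ∀ a, ((u * g * v : GL (Fin n) F) : Matrix (Fin n) (Fin n) F) a j = M a j := by
      intro a
      rw [hM2, if_neg (not_lt.2 hjk.le), add_zero, hM1, hrow j hjk, mul_zero, ite_self, add_zero]
    have hwk : M w k = 0 := hw3 k hjk.ne'
    have hM1w : ∀ b, M1 w b = M w b := by
      intro b
      rw [hM1, hwk, zero_div, neg_zero, zero_mul, ite_self, add_zero]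
    refine ⟨w, ?_, ?_, ?_⟩
    · rw [hcol]; exact hw1
    · intro a ha
      rw [hcol]; exact hw2 a ha
    · intro b hb
      rw [hM2, hM1w, hM1w, hwk, zero_mul, ite_self, add_zero]
      exact hw3 b hb
  · have hcol : ∀ a, ((u * g * v : GL (Fin n) F) : Matrix (Fin n) (Fin n) F) a j = M1 a j := by
      intro a
      rw [hM2, if_neg (lt_irrefl j), add_zero]
    refine ⟨i, ?_, ?_, ?_⟩
    · rw [hcol, hM1i]; exact hi
    · intro a ha
      rw [hcol]; exact hM1k a ha
    · intro b hb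
      rw [hM2, hM1i, hM1i]
      rcases lt_or_gt_of_ne hb with h1 | h1
      · rw [if_neg (not_lt.2 h1.le), hrow b h1, add_zero]
      · rw [if_pos h1]
        field_simp
        ring

theorem main (g : GL (Fin n) F) : ∀ k : ℕ, k ≤ n → ∃ u v : GL (Fin n) F, UT u ∧ UT v ∧
    ∀ j : Fin n, j.val < k →
      ∃ i, Piv ((u * g * v : GL (Fin n) F) : Matrix (Fin n) (Fin n) F) j i := by
  intro k
  induction k with
  | zero => exact fun _ => ⟨1, 1, ut_one, ut_one, fun j hj => absurd hj (Nat.not_lt_zero _)⟩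
  | succ k ih =>
    intro hk
    obtain ⟨u, v, hu, hv, huv⟩ := ih (by omega)
    obtain ⟨u', v', hu', hv', h'⟩ := step (u * g * v) ⟨k, hk⟩ (fun j hj => huv j hj)
    refine ⟨u' * u, v * v', ut_mul hu' hu, ut_mul hv hv', fun j hj => ?_⟩
    have e : u' * u * g * (v * v') = u' * (u * g * v) * v' := by group
    rw [e]
    exact h' j (Fin.mk_le_mk.2 (Nat.lt_succ_iff.1 hj))

end BRU_

open BRU_ in
/-- BRU -/
theorem specBRU : SpecBRU := by
  intro n F _ g
  obtain ⟨u, v, hu, hv, h⟩ := main g n le_rfl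
  choose w hw using fun j : Fin n => h j j.isLt
  have hinj : Function.Injective w := by
    intro j j' hjj
    by_contra hne
    have h1 := (hw j).2.2 j' (fun h2 => hne h2.symm)
    have h2 := (hw j').1
    rw [← hjj] at h2
    exact h2 h1
  refine ⟨u, v, hu, hv, Equiv.ofBijective w (Finite.injective_iff_bijective.1 hinj), ?_⟩
  intro i j
  rw [Equiv.ofBijective_apply]
  constructor
  · intro hne
    by_contra hi
    exact hne ((hw j).2.1 i hi)
  · rintro rfl
    exact (hw j).1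

end Pool.Agent.Lib.MP_1aae89_al.HC
end

section
/-!
# GCO: Galois congruence in cyclotomic fields
-/
set_option autoImplicit false

namespace Pool.Agent.Lib.MP_1aae89_al.HC

open Pool.Agent.Lib.MP_1aae89_al Pool.Agent.Lib.MP_1aae89_al.BF Pool.Agent.Lib.MP_1aae89_al.W3 Finset

namespace GCO_

open Polynomial

theorem exists_poly (L : ℕ) (hL : L ≠ 0) {a : ℂ} (ha : a ∈ cycField L) (hint : IsIntegral ℤ a) :
    ∃ f : ℤ[X], aeval (zeta L) f = a := by
  have : NeZero L := ⟨hL⟩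
  have hc : IsCyclotomicExtension {L} ℚ (cycField L) := Pool.Agent.Lib.MP1aae89.cyc L
  have hz : IsPrimitiveRoot
      (⟨zeta L, IntermediateField.mem_adjoin_simple_self ℚ (zeta L)⟩ : cycField L) L := by
    refine IsPrimitiveRoot.of_map_of_injective (f := (cycField L).val) ?_ (cycField L).val.injective
    exact zeta_prim hL
  have h1 := IsCyclotomicExtension.Rat.isIntegralClosure_adjoin_singleton (K := cycField L) hz
  have h2 : IsIntegral ℤ (⟨a, ha⟩ : cycField L) := by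
    rw [← isIntegral_algebraMap_iff (A := cycField L) (B := ℂ)
      (algebraMap (cycField L) ℂ).injective]
    exact hint
  obtain ⟨y, hy⟩ := h1.isIntegral_iff.1 h2
  have h3 : (y : cycField L) ∈ (Polynomial.aeval (R := ℤ)
      (⟨zeta L, IntermediateField.mem_adjoin_simple_self ℚ (zeta L)⟩ : cycField L)).range := by
    rw [← Algebra.adjoin_singleton_eq_range_aeval]
    exact y.2
  obtain ⟨f, hf⟩ := h3
  refine ⟨f, ?_⟩
  have h4 := congrArg (fun y : cycField L => (y : ℂ)) (hf.trans hy)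
  have h5 := Polynomial.aeval_algHom_apply ((cycField L).val.restrictScalars ℤ)
    (⟨zeta L, IntermediateField.mem_adjoin_simple_self ℚ (zeta L)⟩ : cycField L) f
  exact h5.trans h4

theorem diff_dvd {z : ℂ} (hz : IsIntegral ℤ z) (k : ℕ) (f : ℤ[X]) :
    ∃ w : ℂ, IsIntegral ℤ w ∧ aeval (z ^ k) f - aeval z f = (z ^ k - z) * w := by
  let z' : integralClosure ℤ ℂ := ⟨z, hz⟩
  obtain ⟨w, hw⟩ := Polynomial.sub_dvd_eval_sub (z' ^ k) z' (f.map (algebraMap ℤ _))
  refine ⟨w, w.2, ?_⟩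
  have h1 : ∀ u : integralClosure ℤ ℂ,
      ((eval u (f.map (algebraMap ℤ (integralClosure ℤ ℂ))) : integralClosure ℤ ℂ) : ℂ) =
        aeval (u : ℂ) f := fun u => by
    rw [← Polynomial.eval₂_eq_eval_map, ← Polynomial.aeval_def]
    exact (Polynomial.aeval_algHom_apply (integralClosure ℤ ℂ).val u f).symm
  have h2 := congrArg (fun y : integralClosure ℤ ℂ => (y : ℂ)) hw
  rw [AddSubgroupClass.coe_sub, h1, h1] at h2
  exact h2

end GCO_

theorem specGCO (hRAD : SpecRAD) : SpecGCO := by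
  intro p hp L hL k hk hdvd σ hσ a ha hint
  obtain ⟨f, hf⟩ := GCO_.exists_poly L hL ha hint
  have hzi : IsIntegral ℤ (zeta L) := (zeta_prim hL).isIntegral (Nat.pos_of_ne_zero hL)
  have hzL : zeta L ^ L = 1 := (zeta_prim hL).pow_eq_one
  have h1 : σ a = Polynomial.aeval (zeta L ^ k) f := by
    rw [← hσ _ hzL, ← hf]
    exact (Polynomial.aeval_algHom_apply σ.toIntAlgHom (zeta L) f).symm
  obtain ⟨w, hw, h2⟩ := GCO_.diff_dvd hzi k f
  obtain ⟨-, hmul, -, -, hroot⟩ := hRAD p hp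
  have h3 : (zeta L ^ (k - 1)) ^ p ^ L.factorization p = 1 := by
    rw [← pow_mul]
    obtain ⟨c, hc⟩ := hdvd
    have h4 : (k - 1) * p ^ L.factorization p = L * c := by
      conv_rhs => rw [← Nat.ordProj_mul_ordCompl_eq_self L p]
      rw [hc]
      ring
    rw [h4, pow_mul, hzL, one_pow]
  have h5 := hroot _ _ h3
  have h6 : σ a - a = (w * zeta L) * (zeta L ^ (k - 1) - 1) := by
    rw [h1, ← hf, h2]
    obtain ⟨m, rfl⟩ : ∃ m, k = m + 1 := ⟨k - 1, by omega⟩
    rw [Nat.add_sub_cancel, pow_succ]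
    ring
  rw [h6]
  exact hmul _ _ (hw.mul hzi) h5

end Pool.Agent.Lib.MP_1aae89_al.HC
end

section
/-!
# Module GLN: `GL_n(q)`, `p ∣ q - 1`, `p > n`
-/
set_option autoImplicit false

namespace Pool.Agent.Lib.MP_1aae89_al.HC

open Pool.Agent.Lib.MP_1aae89_al Pool.Agent.Lib.MP_1aae89_al.BF Pool.Agent.Lib.MP_1aae89_al.W3 Finset
open Matrix (GeneralLinearGroup)

namespace GLN_

/-- the diagonal matrix -/
noncomputable def dg (n : ℕ) (F : Type) [Field F] : (Fin n → Fˣ) →* GL (Fin n) F :=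
  (Units.map (Matrix.diagonalRingHom (Fin n) F).toMonoidHom).comp
    (MulEquiv.piUnits (M := fun _ : Fin n => F)).symm.toMonoidHom

theorem dg_val {n : ℕ} {F : Type} [Field F] (t : Fin n → Fˣ) :
    ((dg n F t : GL (Fin n) F) : Matrix (Fin n) (Fin n) F) =
      Matrix.diagonal (fun i => (t i : F)) := rfl

theorem dg_mul {n : ℕ} {F : Type} [Field F] (t : Fin n → Fˣ) (g : GL (Fin n) F) (i j : Fin n) :
    ((dg n F t * g : GL (Fin n) F) : Matrix (Fin n) (Fin n) F) i j =
      t i * (g : Matrix (Fin n) (Fin n) F) i j := by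
  rw [Units.val_mul, dg_val, Matrix.diagonal_mul]

theorem mul_dg {n : ℕ} {F : Type} [Field F] (t : Fin n → Fˣ) (g : GL (Fin n) F) (i j : Fin n) :
    ((g * dg n F t : GL (Fin n) F) : Matrix (Fin n) (Fin n) F) i j =
      (g : Matrix (Fin n) (Fin n) F) i j * t j := by
  rw [Units.val_mul, dg_val, Matrix.mul_diagonal]

theorem dg_inj {n : ℕ} {F : Type} [Field F] : Function.Injective (dg n F) := by
  intro t s h
  funext i
  have h1 := congrArg (fun g : GL (Fin n) F => (g : Matrix (Fin n) (Fin n) F) i i) h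
  simp only [dg_val, Matrix.diagonal_apply_eq] at h1
  exact Units.ext h1

/-- the units with `x ^ m = 1` -/
def Tm (m : ℕ) (F : Type) [Field F] : Subgroup Fˣ := (powMonoidHom m : Fˣ →* Fˣ).ker

/-- the diagonal matrices with entries in `Tm m F` -/
noncomputable def PP (m n : ℕ) (F : Type) [Field F] : Subgroup (GL (Fin n) F) :=
  (Subgroup.pi Set.univ (fun _ : Fin n => Tm m F)).map (dg n F)

theorem mem_PP {m n : ℕ} {F : Type} [Field F] (g : GL (Fin n) F) :
    g ∈ PP m n F ↔ ∃ t : Fin n → Fˣ, (∀ i, t i ∈ Tm m F) ∧ dg n F t = g := by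
  unfold PP
  rw [Subgroup.mem_map]
  constructor
  · rintro ⟨t, ht, h⟩
    exact ⟨t, fun i => (Subgroup.mem_pi _).1 ht i (Set.mem_univ _), h⟩
  · rintro ⟨t, ht, h⟩
    exact ⟨t, (Subgroup.mem_pi _).2 fun i _ => ht i, h⟩

theorem card_PP {m n : ℕ} {F : Type} [Field F] [Fintype F] (hm : m ∣ Fintype.card F - 1) :
    Nat.card (PP m n F) = m ^ n := by
  have h1 : Nat.card (Tm m F) = m := by
    unfold Tm
    rw [IsCyclic.card_powMonoidHom_ker]
    have h2 : Nat.card Fˣ = Fintype.card F - 1 := by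
      rw [Nat.card_units, Nat.card_eq_fintype_card]
    rw [h2, Nat.gcd_eq_right hm]
  have e1 : Nat.card (PP m n F) = Nat.card (Fin n → Tm m F) := by
    refine (Nat.card_congr (Equiv.ofBijective
      (fun t : Fin n → Tm m F => (⟨dg n F (fun i => (t i : Fˣ)),
        (mem_PP _).2 ⟨_, fun i => (t i).2, rfl⟩⟩ : PP m n F)) ⟨fun t s h => ?_, fun g => ?_⟩)).symm
    · have h2 := dg_inj (congrArg Subtype.val h)
      funext i
      exact Subtype.ext (congrFun h2 i)
    · obtain ⟨t, ht, h⟩ := (mem_PP _).1 g.2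
      exact ⟨fun i => ⟨t i, ht i⟩, Subtype.ext h⟩
  rw [e1, Nat.card_fun, h1, Nat.card_eq_fintype_card, Fintype.card_fin]

theorem mon_comm {n : ℕ} {F : Type} [Field F] {g : GL (Fin n) F} (w : Equiv.Perm (Fin n))
    (hw : ∀ i j, (g : Matrix (Fin n) (Fin n) F) i j ≠ 0 ↔ i = w j) (t : Fin n → Fˣ) :
    g * dg n F t = dg n F (fun i => t (w.symm i)) * g := by
  ext i j
  rw [mul_dg, dg_mul]
  by_cases h : i = w j
  · rw [h, Equiv.symm_apply_apply, mul_comm]
  · have h0 : (g : Matrix (Fin n) (Fin n) F) i j = 0 := by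
      by_contra h1
      exact h ((hw i j).1 h1)
    rw [h0, zero_mul, mul_zero]

theorem mon_norm {m n : ℕ} {F : Type} [Field F] {g : GL (Fin n) F} (hg : Mon g)
    (x : GL (Fin n) F) : x ∈ PP m n F ↔ g * x * g⁻¹ ∈ PP m n F := by
  obtain ⟨w, hw⟩ := hg
  rw [mem_PP, mem_PP]
  constructor
  · rintro ⟨t, ht, rfl⟩
    exact ⟨fun i => t (w.symm i), fun i => ht _, by rw [mon_comm w hw t, mul_inv_cancel_right]⟩
  · rintro ⟨s, hs, h⟩
    refine ⟨fun i => s (w i), fun i => hs _, ?_⟩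
    have h1 := mon_comm w hw (fun i => s (w i))
    simp only [Equiv.apply_symm_apply] at h1
    have h2 : g * x = dg n F s * g := by
      rw [h, inv_mul_cancel_right]
    have h3 : g * dg n F (fun i => s (w i)) = g * x := by
      rw [h1, h2]
    exact mul_left_cancel h3

end GLN_

open GLN_ in
theorem specGLN (hUTG : SpecUTG) (hBRU : SpecBRU) (hGSY : SpecGSY) : SpecGLN := by
  classical
  intro p n hp hn F _ _ hpq
  obtain ⟨U, hU, hUp⟩ := hUTG n F
  have hq1 : Fintype.card F - 1 ≠ 0 := by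
    have := Fintype.one_lt_card (α := F)
    omega
  set a := (Fintype.card F - 1).factorization p with ha
  have hdvd : p ^ a ∣ Fintype.card F - 1 := Nat.ordProj_dvd _ _
  have hpF : (p : F) ≠ 0 := by
    intro h0
    obtain ⟨c, hc⟩ := hpq
    have h1 : (Fintype.card F : F) = 0 := FiniteField.cast_card_eq_zero F
    have h2 : Fintype.card F = p * c + 1 := by omega
    rw [h2] at h1
    push_cast at h1
    rw [h0, zero_mul, zero_add] at h1
    exact one_ne_zero h1
  have hz : ∃ z ∈ Tm (p ^ a) F, z ≠ 1 := by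
    haveI : Fact p.Prime := ⟨hp⟩
    have h1 : p ∣ Nat.card Fˣ := by
      rw [Nat.card_units, Nat.card_eq_fintype_card]
      exact hpq
    obtain ⟨z, hz⟩ := exists_prime_orderOf_dvd_card' p h1
    refine ⟨z, ?_, ?_⟩
    · unfold Tm
      rw [MonoidHom.mem_ker, powMonoidHom_apply, ← orderOf_dvd_iff_pow_eq_one, hz]
      exact dvd_pow_self p (hp.factorization_pos_of_dvd hq1 hpq).ne'
    · intro h2
      rw [h2, orderOf_one] at hz
      exact hp.one_lt.ne hz
  obtain ⟨z, hzT, hz1⟩ := hz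
  refine ⟨PP (p ^ a) n F, U, ?_, ?_⟩
  · rw [card_PP hdvd, hGSY p n hp hn F hpq, ← pow_mul, mul_comm]
  · refine ⟨?_, hUp p hp hpF, ?_, ?_⟩
    · intro x hx u hu
      obtain ⟨t, ht, rfl⟩ := (mem_PP _).1 hx
      rw [hU] at hu ⊢
      rw [← map_inv]
      have h1 : ∀ i j, ((dg n F t * u * dg n F t⁻¹ : GL (Fin n) F) : Matrix (Fin n) (Fin n) F) i j =
          t i * (u : Matrix (Fin n) (Fin n) F) i j * ((t j : F))⁻¹ := by
        intro i j
        rw [mul_dg, dg_mul, Pi.inv_apply, Units.val_inv_eq_inv_val]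
      refine ⟨fun i => ?_, fun i j hij => ?_⟩
      · rw [h1, hu.1, mul_one, mul_inv_cancel₀ (Units.ne_zero _)]
      · rw [h1, hu.2 i j hij, mul_zero, zero_mul]
    · intro u hu hx
      have hu' := (hU u).1 hu
      ext i j
      rcases lt_trichotomy i j with h1 | h1 | h1
      · have h2 := hx (dg n F (fun k => if k = i then z else 1))
          ((mem_PP _).2 ⟨_, fun k => by
            by_cases hk : k = i
            · rw [if_pos hk]; exact hzT
            · rw [if_neg hk]; exact one_mem _, rfl⟩)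
        have h3 := congrArg (fun g : GL (Fin n) F => (g : Matrix (Fin n) (Fin n) F) i j) h2
        simp only [dg_mul, mul_dg, if_true, if_neg h1.ne', Units.val_one, mul_one] at h3
        have h4 : ((z : F) - 1) * (u : Matrix (Fin n) (Fin n) F) i j = 0 := by
          rw [sub_mul, h3, one_mul, sub_self]
        rcases mul_eq_zero.1 h4 with h5 | h5
        · exact absurd (Units.ext (sub_eq_zero.1 h5)) hz1
        · rw [h5, Units.val_one, Matrix.one_apply_ne h1.ne]
      · rw [h1, hu'.1, Units.val_one, Matrix.one_apply_eq]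
      · rw [hu'.2 i j h1, Units.val_one, Matrix.one_apply_ne h1.ne']
    · intro g
      obtain ⟨u, v, hu, hv, hm⟩ := hBRU n F g
      refine ⟨u⁻¹, U.inv_mem ((hU u).2 hu), u * g * v, fun x => mon_norm hm x, v⁻¹,
        U.inv_mem ((hU v).2 hv), ?_⟩
      group

end Pool.Agent.Lib.MP_1aae89_al.HC
end

section
/-!
# The exponent of `p` in `|GL_n(q)|` (MP_1aae89_al, Q1)
-/
set_option autoImplicit false

namespace Pool.Agent.Lib.MP_1aae89_al.HC

open Finset
open Matrix (GeneralLinearGroup)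

namespace GSY_

theorem pow_sub {p q m : ℕ} (hq : 2 ≤ q) (hpq : p ∣ q - 1) (hm : 1 ≤ m) (hmp : m < p) :
    (q ^ m - 1).factorization p = (q - 1).factorization p := by
  have h1 : (q - 1) * ∑ i ∈ range m, q ^ i = q ^ m - 1 := by
    have := Nat.geomSum_eq hq m
    rw [this, Nat.mul_div_cancel']
    exact Nat.sub_one_dvd_pow_sub_one q m
  have hmod : q ≡ 1 [MOD p] := ((Nat.modEq_iff_dvd' (by omega)).2 hpq).symm
  have h2 : (∑ i ∈ range m, q ^ i) ≡ m [MOD p] := by
    have h3 : ∀ k : ℕ, (∑ i ∈ range k, q ^ i) ≡ k [MOD p] := by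
      intro k
      induction k with
      | zero => simp [Nat.ModEq]
      | succ k ih =>
        rw [sum_range_succ]
        refine Nat.ModEq.add ih ?_
        simpa using hmod.pow k
    exact h3 m
  have h3 : ¬ p ∣ ∑ i ∈ range m, q ^ i := by
    intro h
    have h4 : p ∣ m := (h2.dvd_iff dvd_rfl).1 h
    exact absurd (Nat.le_of_dvd (by omega) h4) (by omega)
  have h4 : (∑ i ∈ range m, q ^ i) ≠ 0 := fun h => h3 (h ▸ dvd_zero p)
  rw [← h1, Nat.factorization_mul (by omega) h4, Finsupp.add_apply,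
    Nat.factorization_eq_zero_of_not_dvd h3, add_zero]

end GSY_

open GSY_

theorem specGSY : SpecGSY := by
  intro p n hp hn F _ _ hpq
  have hq : 2 ≤ Fintype.card F := Fintype.one_lt_card
  set q := Fintype.card F with hqd
  rw [Matrix.card_GL_field]
  have hmod : q ≡ 1 [MOD p] := ((Nat.modEq_iff_dvd' (by omega)).2 hpq).symm
  have hpq' : ¬ p ∣ q := by
    intro h
    have h1 : p ∣ 1 := (hmod.dvd_iff dvd_rfl).1 h
    exact hp.one_lt.ne' (Nat.dvd_one.1 h1)
  have hfac : ∀ i : Fin n, q ^ n - q ^ (i : ℕ) = q ^ (i : ℕ) * (q ^ (n - i) - 1) := by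
    intro i
    rw [Nat.mul_sub, mul_one, ← pow_add, Nat.add_sub_cancel' i.2.le]
  have hne : ∀ i : Fin n, q ^ (n - (i : ℕ)) - 1 ≠ 0 := by
    intro i
    have : 1 < q ^ (n - (i : ℕ)) := Nat.one_lt_pow (by have := i.2; omega) (by omega)
    omega
  have h1 : ∀ i : Fin n, (q ^ n - q ^ (i : ℕ)).factorization p = (q - 1).factorization p := by
    intro i
    rw [hfac i, Nat.factorization_mul (pow_ne_zero _ (by omega)) (hne i), Finsupp.add_apply,
      pow_sub hq hpq (by have := i.2; omega) (by omega), Nat.factorization_pow]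
    simp [Nat.factorization_eq_zero_of_not_dvd hpq']
  rw [Nat.factorization_prod_apply]
  · rw [Finset.sum_congr rfl fun i _ => h1 i]
    simp
  · intro i _
    rw [hfac i]
    exact mul_ne_zero (pow_ne_zero _ (by omega)) (hne i)

end Pool.Agent.Lib.MP_1aae89_al.HC
end

section
/-!
# HCI: groups `X = U N_X(P) U`, one Sylow subgroup
-/
set_option autoImplicit false

namespace Pool.Agent.Lib.MP_1aae89_al.HC

open Pool.Agent.Lib.MP_1aae89_al Pool.Agent.Lib.MP_1aae89_al.BF Pool.Agent.Lib.MP_1aae89_al.W3 Finset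
open Pool.Agent.Lib.MP1aae89 (Pex)

namespace HCI_

section alg

variable {X : Type} [Group X] [Fintype X] {n : ℕ} (r : X →* Matrix (Fin n) (Fin n) ℂ)
  (P U : Subgroup X) (η : Lin P)

theorem nu_left (u : U) : r u * NU r U = NU r U := by
  classical
  unfold NU
  rw [Matrix.mul_sum]
  refine Fintype.sum_equiv (Equiv.mulLeft u) _ _ fun v => ?_
  change r u * r v = r ((u * v : U) : X)
  rw [Subgroup.coe_mul, map_mul]

theorem nu_sq : NU r U * NU r U = (Nat.card U : ℂ) • NU r U := by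
  classical
  have h1 : NU r U * NU r U = ∑ u : U, r u * NU r U := by
    conv_lhs => enter [1]; unfold NU
    rw [Matrix.sum_mul]
  rw [h1, sum_congr rfl fun u _ => nu_left r U u, sum_const, card_univ, ← Nat.card_eq_fintype_card,
    ← Nat.cast_smul_eq_nsmul ℂ]

theorem nu_comm (h : ∀ x ∈ P, ∀ u ∈ U, x * u * x⁻¹ ∈ U) (x : P) :
    r x * NU r U = NU r U * r x := by
  classical
  have h1 : ∀ u : U, (x : X)⁻¹ * u * x ∈ U := fun u => by
    have := h (x : X)⁻¹ (P.inv_mem x.2) u u.2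
    rwa [inv_inv] at this
  unfold NU
  rw [Matrix.mul_sum, Matrix.sum_mul]
  refine Fintype.sum_equiv
    (⟨fun u => ⟨x * u * (x : X)⁻¹, h x x.2 u u.2⟩, fun u => ⟨(x : X)⁻¹ * u * x, h1 u⟩,
      fun u => Subtype.ext (by simp [mul_assoc]), fun u => Subtype.ext (by simp [mul_assoc])⟩ :
      U ≃ U) _ _ fun u => ?_
  change r x * r u = r (x * u * (x : X)⁻¹) * r x
  rw [← map_mul, ← map_mul]
  congr 1
  group

theorem ee_left (x : P) : r x * EE r P η = ((η x : ℂˣ) : ℂ) • EE r P η := by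
  classical
  unfold EE
  rw [Matrix.mul_smul, smul_comm]
  congr 1
  rw [Matrix.mul_sum, Finset.smul_sum]
  refine Fintype.sum_equiv (Equiv.mulLeft x) _ _ fun y => ?_
  change r x * (_ • r y) = ((η x : ℂˣ) : ℂ) • ((((η (x * y))⁻¹ : ℂˣ) : ℂ) • r ((x * y : P) : X))
  rw [Matrix.mul_smul, smul_smul, map_mul, mul_inv, Subgroup.coe_mul, map_mul, Units.val_mul,
    ← mul_assoc, Units.mul_inv, one_mul]

theorem ee_right (x : P) : EE r P η * r x = ((η x : ℂˣ) : ℂ) • EE r P η := by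
  classical
  unfold EE
  rw [Matrix.smul_mul, smul_comm]
  congr 1
  rw [Matrix.sum_mul, Finset.smul_sum]
  refine Fintype.sum_equiv (Equiv.mulRight x) _ _ fun y => ?_
  change (_ • r y) * r x = ((η x : ℂˣ) : ℂ) • ((((η (y * x))⁻¹ : ℂˣ) : ℂ) • r ((y * x : P) : X))
  rw [Matrix.smul_mul, smul_smul, map_mul, mul_inv, Subgroup.coe_mul, map_mul, Units.val_mul,
    mul_comm ((((η y)⁻¹ : ℂˣ) : ℂ)), ← mul_assoc, Units.mul_inv, one_mul]

theorem ee_sq : EE r P η * EE r P η = EE r P η := by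
  classical
  have h1 : EE r P η * EE r P η =
      (Nat.card P : ℂ)⁻¹ • ∑ x : P, (((η x)⁻¹ : ℂˣ) : ℂ) • (r x * EE r P η) := by
    conv_lhs => enter [1]; unfold EE
    rw [Matrix.smul_mul, Matrix.sum_mul]
    congr 1
    exact sum_congr rfl fun x _ => by rw [Matrix.smul_mul]
  rw [h1]
  have h2 : ∀ x ∈ (univ : Finset P), (((η x)⁻¹ : ℂˣ) : ℂ) • (r x * EE r P η) = EE r P η := by
    intro x _
    rw [ee_left, smul_smul, Units.inv_mul, one_smul]
  rw [sum_congr rfl h2, sum_const, card_univ, ← Nat.card_eq_fintype_card,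
    ← Nat.cast_smul_eq_nsmul ℂ, smul_smul, inv_mul_cancel₀, one_smul]
  exact_mod_cast Nat.card_pos.ne'

theorem ne_comm (h : ∀ x ∈ P, ∀ u ∈ U, x * u * x⁻¹ ∈ U) :
    NU r U * EE r P η = EE r P η * NU r U := by
  classical
  unfold EE
  rw [Matrix.mul_smul, Matrix.smul_mul, Matrix.mul_sum, Matrix.sum_mul]
  congr 1
  exact sum_congr rfl fun x _ => by rw [Matrix.mul_smul, Matrix.smul_mul, nu_comm r P U h]

/-- `A = N E` -/
noncomputable abbrev AA' : Matrix (Fin n) (Fin n) ℂ := NU r U * EE r P η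

theorem aa_left (h : ∀ x ∈ P, ∀ u ∈ U, x * u * x⁻¹ ∈ U) (x : P) :
    r x * AA' r P U η = ((η x : ℂˣ) : ℂ) • AA' r P U η := by
  unfold AA'
  rw [← Matrix.mul_assoc, nu_comm r P U h, Matrix.mul_assoc, ee_left, Matrix.mul_smul]

theorem aa_right (x : P) : AA' r P U η * r x = ((η x : ℂˣ) : ℂ) • AA' r P U η := by
  unfold AA'
  rw [Matrix.mul_assoc, ee_right, Matrix.mul_smul]

theorem aa_sq (h : ∀ x ∈ P, ∀ u ∈ U, x * u * x⁻¹ ∈ U) :
    AA' r P U η * AA' r P U η = (Nat.card U : ℂ) • AA' r P U η := by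
  unfold AA'
  calc NU r U * EE r P η * (NU r U * EE r P η)
      = NU r U * (EE r P η * NU r U) * EE r P η := by simp only [Matrix.mul_assoc]
    _ = NU r U * (NU r U * EE r P η) * EE r P η := by rw [ne_comm r P U η h]
    _ = (NU r U * NU r U) * (EE r P η * EE r P η) := by simp only [Matrix.mul_assoc]
    _ = _ := by rw [nu_sq, ee_sq, Matrix.smul_mul]

theorem aa_trace (h : ∀ x ∈ P, ∀ u ∈ U, x * u * x⁻¹ ∈ U) :
    ∃ m : ℕ, (AA' r P U η).trace = (Nat.card U : ℂ) * m := by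
  have hU : (Nat.card U : ℂ) ≠ 0 := by exact_mod_cast Nat.card_pos.ne'
  obtain ⟨m, hm⟩ := trace_idem ((Nat.card U : ℂ)⁻¹ • AA' r P U η) (by
    rw [Matrix.smul_mul, Matrix.mul_smul, aa_sq r P U η h, smul_smul _ _ (AA' r P U η),
      inv_mul_cancel₀ hU, one_smul])
  refine ⟨m, ?_⟩
  rw [Matrix.trace_smul, smul_eq_mul] at hm
  rw [← hm, ← mul_assoc, mul_inv_cancel₀ hU, one_mul]

end alg

/-- sums of functions invariant under right multiplication with `P` -/
theorem sum_coset {p : ℕ} (hRAD : SpecRAD) (hp : p.Prime) {X : Type} [Group X] [Fintype X]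
    (P : Subgroup X) (F : X → ℂ) (h1 : ∀ g, ∀ x ∈ P, F (g * x) = F g) (h2 : ∀ g, RadP p (F g)) :
    ∃ J : ℂ, RadP p J ∧ ∑ g, F g = (Nat.card P : ℂ) * J := by
  classical
  obtain ⟨hadd, hmul, hpm, -, -⟩ := hRAD p hp
  have h0 : RadP p 0 := by
    have := hpm 0 isIntegral_zero
    rwa [mul_zero] at this
  have hsum : ∀ s : Finset (X ⧸ P), RadP p (∑ c ∈ s, F c.out) := by
    intro s
    induction s using Finset.induction_on with
    | empty => rw [sum_empty]; exact h0
    | insert c s hc ih => rw [sum_insert hc]; exact hadd _ _ (h2 _) ih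
  refine ⟨∑ c : X ⧸ P, F c.out, hsum _, ?_⟩
  rw [← Finset.sum_fiberwise (univ : Finset X) (fun g => (g : X ⧸ P)) F, mul_sum]
  refine sum_congr rfl fun c _ => ?_
  have h3 : ∀ g ∈ univ.filter (fun g : X => (g : X ⧸ P) = c), F g = F c.out := by
    intro g hg
    rw [mem_filter] at hg
    have h4 : (c.out : X ⧸ P) = (g : X ⧸ P) := by rw [hg.2, QuotientGroup.out_eq']
    have h5 : (c.out)⁻¹ * g ∈ P := QuotientGroup.eq.1 h4
    have h6 := h1 c.out _ h5
    rw [mul_inv_cancel_left] at h6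
    exact h6
  rw [sum_congr rfl h3, sum_const, nsmul_eq_mul]
  congr 1
  norm_cast
  rw [Nat.card_eq_fintype_card, ← Finset.card_univ]
  refine (Finset.card_bij (fun (x : P) _ => c.out * (x : X)) ?_ ?_ ?_).symm
  · intro x _
    rw [mem_filter]
    refine ⟨mem_univ _, ?_⟩
    rw [← QuotientGroup.out_eq' c, QuotientGroup.out_eq' c]
    have h4 : ((c.out * (x : X) : X) : X ⧸ P) = ((c.out : X) : X ⧸ P) := by
      rw [QuotientGroup.eq]
      simp
    rw [h4, QuotientGroup.out_eq']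
  · intro x _ y _ hxy
    exact Subtype.ext (mul_left_cancel hxy)
  · intro g hg
    rw [mem_filter] at hg
    have h4 : (c.out : X ⧸ P) = (g : X ⧸ P) := by rw [hg.2, QuotientGroup.out_eq']
    exact ⟨⟨_, QuotientGroup.eq.1 h4⟩, mem_univ _, mul_inv_cancel_left _ _⟩

end HCI_

open HCI_ in
theorem specHCI (hRAD : SpecRAD) (hGCO : SpecGCO) (hPFX : SpecPFX) (hAGI : SpecAGI)
    (hSCR : SpecSCR) (hPRM : SpecPRM) : SpecHCI := by
  classical
  intro p b hp hb L s0 hL hpex X _ _ hXL P U hPc hSD n r hr hn K hK hne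
  by_contra hdl
  obtain ⟨hadd, hmul, hpm, hint, hroot⟩ := hRAD p hp
  obtain ⟨hcop, hps, -, -, -, -⟩ := hPRM p hp L s0 hL hpex
  set q := p ^ (b - 1) with hq
  have hpq : p ∣ q := dvd_pow_self p (by omega)
  have hyL : ∀ y : X, y ^ L = 1 := fun y => by
    obtain ⟨k, hk⟩ := hXL
    rw [hk, Nat.card_eq_fintype_card, pow_mul, pow_card_eq_one, one_pow]
  -- choice of `η`
  obtain ⟨w, hw, hsum⟩ := hPFX p hp P U _ hPc hSD r q hpq (resL P K)
  obtain ⟨η, hη, m, hm, hpm'⟩ : ∃ η : Lin P, η ^ q = resL P K ∧ ∃ m : ℕ,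
      (AA' r P U η).trace = (Nat.card U : ℂ) * m ∧ ¬ p ∣ m := by
    by_contra hcon
    push Not at hcon
    apply hdl
    have h1 : ∀ η ∈ univ.filter (fun η : Lin P => η ^ q = resL P K), ∃ v : ℂ, IsIntegral ℤ v ∧
        (NU r U * EE r P η).trace = p * v := by
      intro η hη
      rw [mem_filter] at hη
      obtain ⟨m, hm⟩ := aa_trace r P U η hSD.nrm
      obtain ⟨k, hk⟩ := hcon η hη.2 m hm
      refine ⟨((Nat.card U * k : ℕ) : ℂ), ?_, ?_⟩
      · exact isIntegral_algebraMap (R := ℤ) (A := ℂ) (x := ((Nat.card U * k : ℕ) : ℤ)) |> fun h => by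
          simpa using h
      · show (AA' r P U η).trace = _
        rw [hm, hk]
        push_cast
        ring
    choose! v hv1 hv2 using h1
    have h2 : ((dl q (fun x : P => (r x).trace) (resL P K) : ℕ) : ℂ) =
        p * (∑ η ∈ univ.filter (fun η : Lin P => η ^ q = resL P K), v η - w) := by
      rw [sum_congr rfl hv2, ← mul_sum] at hsum
      rw [mul_sub, hsum]
      ring
    have h3 : RadP p (((dl q (fun x : P => (r x).trace) (resL P K) : ℕ) : ℤ) : ℂ) := by
      rw [Int.cast_natCast, h2]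
      exact hpm _ ((IsIntegral.sum _ hv1).sub hw)
    exact_mod_cast hint _ h3
  -- the Galois automorphism
  set κ := 1 + s0 * q with hκ
  have hκc : κ.Coprime L := by
    have := hcop (b - 1) 1 (by omega)
    rwa [mul_one] at this
  obtain ⟨σ, hσ⟩ := Pool.Agent.Lib.MP1aae89.exists_aut L (Nat.pos_of_ne_zero hL) κ hκc
  have hgal : ∀ y : X, σ (r y).trace = (r (y ^ κ)).trace := by
    intro y
    have h1 : (r y) ^ L = 1 := by rw [← map_pow, hyL, map_one]
    rw [gal_trace hL σ hσ (r y) h1, map_pow]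
  -- the representation `s`
  let s : X →* Matrix (Fin n) (Fin n) ℂ :=
    { toFun := fun g => (((K g)⁻¹ : ℂˣ) : ℂ) • W.NRM.galR r σ g
      map_one' := by rw [map_one, map_one, inv_one, Units.val_one, one_smul]
      map_mul' := fun x y => by
        rw [map_mul, map_mul, mul_inv, Units.val_mul, Matrix.smul_mul, Matrix.mul_smul, smul_smul] }
  have hs : ∀ g, s g = (((K g)⁻¹ : ℂˣ) : ℂ) • W.NRM.galR r σ g := fun g => rfl
  have hdiff : ∃ g, (s g).trace ≠ (r g).trace := by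
    obtain ⟨y, hy⟩ := hne
    refine ⟨y, fun h => hy ?_⟩
    rw [hs, Matrix.trace_smul, W.NRM.galR_trace, smul_eq_mul, hgal] at h
    have h2 : ((K y : ℂˣ) : ℂ) * ((((K y)⁻¹ : ℂˣ) : ℂ) * (r (y ^ κ)).trace) =
        ((K y : ℂˣ) : ℂ) * (r y).trace := by rw [h]
    rwa [← mul_assoc, Units.mul_inv, one_mul] at h2
  set A := AA' r P U η with hA
  set a : X → ℂ := fun g => (r g * A).trace with ha
  have haI : ∀ g, IsIntegral ℤ (a g) := fun g => hAGI p P U hSD r η g
  -- Schur relations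
  have hS1 : ∑ g, a g * a g⁻¹ =
      (Fintype.card X : ℂ) / n * ((Nat.card U : ℂ) * ((Nat.card U : ℂ) * m)) := by
    have h1 := orth hr hn A A
    rw [hA, aa_sq r P U η hSD.nrm, Matrix.trace_smul, smul_eq_mul, hm, ← hA] at h1
    rw [← h1]
    exact sum_congr rfl fun g _ => by rw [ha]; simp only; rw [Matrix.trace_mul_comm A (r g)]
  have hS2 : ∑ g, (((K g)⁻¹ : ℂˣ) : ℂ) * σ (a g) * a g⁻¹ = 0 := by
    rw [← hSCR r s hr hn hdiff (A.map σ) A]
    refine sum_congr rfl fun g _ => ?_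
    congr 1
    rw [hs, Matrix.smul_mul, Matrix.trace_smul, smul_eq_mul]
    congr 1
    show σ (r g * A).trace = ((r g).map σ * A.map σ).trace
    rw [← Matrix.map_mul]
    exact AddMonoidHom.map_trace (σ : ℂ →+ ℂ) (r g * A)
  -- the difference
  set F : X → ℂ := fun g => (a g - (((K g)⁻¹ : ℂˣ) : ℂ) * σ (a g)) * a g⁻¹ with hF
  have hFsum : ∑ g, F g =
      (Fintype.card X : ℂ) / n * ((Nat.card U : ℂ) * ((Nat.card U : ℂ) * m)) := by
    rw [← hS1, ← sub_zero (∑ g, a g * a g⁻¹), ← hS2, ← sum_sub_distrib]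
    exact sum_congr rfl fun g _ => by rw [hF]; ring
  -- invariance
  have hax : ∀ g, ∀ x : P, a (g * x) = ((η x : ℂˣ) : ℂ) * a g := by
    intro g x
    rw [ha]
    simp only
    rw [map_mul, Matrix.mul_assoc, hA, aa_left r P U η hSD.nrm, Matrix.mul_smul, Matrix.trace_smul,
      smul_eq_mul]
  have hax' : ∀ g, ∀ x : P, a (g * x)⁻¹ = (((η x)⁻¹ : ℂˣ) : ℂ) * a g⁻¹ := by
    intro g x
    rw [ha]
    simp only
    rw [mul_inv_rev, map_mul, Matrix.mul_assoc, Matrix.trace_mul_comm, Matrix.mul_assoc, hA]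
    have h1 := aa_right r P U η x⁻¹
    rw [Subgroup.coe_inv] at h1
    rw [h1, Matrix.mul_smul, Matrix.trace_smul, smul_eq_mul, map_inv]
  have hηL : ∀ x : P, ((η x : ℂˣ) : ℂ) ^ L = 1 := by
    intro x
    rw [← Units.val_pow_eq_pow_val, ← map_pow]
    have h1 : x ^ L = 1 := Subtype.ext (by rw [Subgroup.coe_pow, hyL]; rfl)
    rw [h1, map_one, Units.val_one]
  have hpelt : ∀ x : P, (x : X) ^ p ^ (Nat.card X).factorization p = 1 := by
    intro x
    rw [← hPc, ← Subgroup.coe_pow, pow_card_eq_one']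
    rfl
  have hηs : ∀ x : P, (η x) ^ s0 = η x := by
    intro x
    rw [← map_pow]
    congr 1
    exact Subtype.ext (by rw [Subgroup.coe_pow]; exact hps _ _ (hyL x) (hpelt x))
  have hηK : ∀ x : P, (η x) ^ q = K x := by
    intro x
    rw [← Lin.pow_apply, hη]
    rfl
  have hση : ∀ x : P, σ ((η x : ℂˣ) : ℂ) = ((η x : ℂˣ) : ℂ) * ((K x : ℂˣ) : ℂ) := by
    intro x
    rw [hσ _ (hηL x), hκ, pow_add, pow_one, pow_mul, ← Units.val_pow_eq_pow_val, hηs,
      ← Units.val_pow_eq_pow_val, hηK]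
  have hinv : ∀ g, ∀ x ∈ P, F (g * x) = F g := by
    intro g x hx
    have e1 := hax g ⟨x, hx⟩
    have e2 := hax' g ⟨x, hx⟩
    have e3 := hση ⟨x, hx⟩
    simp only at e1 e2 e3
    rw [hF]
    simp only
    rw [e1, e2, map_mul σ, e3, map_mul K, mul_inv, Units.val_mul]
    have h4 : ((((K x)⁻¹ : ℂˣ) : ℂ)) * ((K x : ℂˣ) : ℂ) = 1 := Units.inv_mul _
    have h5 : ((η ⟨x, hx⟩ : ℂˣ) : ℂ) * (((η ⟨x, hx⟩)⁻¹ : ℂˣ) : ℂ) = 1 := Units.mul_inv _
    linear_combination (a g * a g⁻¹ - (((K g)⁻¹ : ℂˣ) : ℂ) * σ (a g) * a g⁻¹) * h5 -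
      (((K g)⁻¹ : ℂˣ) : ℂ) * σ (a g) * a g⁻¹ * ((η ⟨x, hx⟩ : ℂˣ) : ℂ) *
        (((η ⟨x, hx⟩)⁻¹ : ℂˣ) : ℂ) * h4
  -- `a g` is cyclotomic
  have hmem : ∀ g, a g ∈ cycField L := by
    intro g
    have hch : ∀ y : X, (r y).trace ∈ cycField L := fun y =>
      cyc_mono (by rw [← Nat.card_eq_fintype_card]; exact hXL) hL
        ((isCharacter_trace r).mem_cyc_card y)
    have h1 : a g = (Nat.card P : ℂ)⁻¹ * ∑ u : U, ∑ x : P,
        (((η x)⁻¹ : ℂˣ) : ℂ) * (r (g * (u * x))).trace := by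
      rw [ha]
      simp only
      rw [hA]
      unfold AA' NU EE
      rw [Matrix.mul_smul, Matrix.mul_smul, Matrix.trace_smul, smul_eq_mul]
      congr 1
      rw [Matrix.sum_mul, Matrix.mul_sum, Matrix.trace_sum]
      refine sum_congr rfl fun u _ => ?_
      rw [Matrix.mul_sum, Matrix.mul_sum, Matrix.trace_sum]
      refine sum_congr rfl fun x _ => ?_
      rw [Matrix.mul_smul, Matrix.mul_smul, Matrix.trace_smul, smul_eq_mul, map_mul, map_mul]
    rw [h1]
    refine mul_mem (inv_mem (natCast_mem _ _)) (sum_mem fun u _ => sum_mem fun x _ => mul_mem ?_ (hch _))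
    rw [Units.val_inv_eq_inv_val]
    exact inv_mem (root_mem hL (hηL x))
  have hdvd : ordCompl[p] L ∣ κ - 1 := by
    rw [hκ, Nat.add_sub_cancel_left]
    exact hpex.zero.mul_right _
  have hKint : ∀ g, IsIntegral ℤ ((((K g)⁻¹ : ℂˣ) : ℂ)) := by
    intro g
    have h1 : ((((K g)⁻¹ : ℂˣ) : ℂ)) ^ p = 1 := by
      rw [← Units.val_pow_eq_pow_val, inv_pow, ← Lin.pow_apply, hK, Lin.one_apply, inv_one,
        Units.val_one]
    exact IsIntegral.of_pow hp.pos (by rw [h1]; exact isIntegral_one)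
  have hFR : ∀ g, RadP p (F g) := by
    intro g
    have h1 := hGCO p hp L hL κ (by omega) hdvd σ hσ (a g) (hmem g) (haI g)
    have h2 : RadP p (((K g : ℂˣ) : ℂ) - 1) := by
      refine hroot _ 1 ?_
      rw [pow_one, ← Units.val_pow_eq_pow_val, ← Lin.pow_apply, hK, Lin.one_apply, Units.val_one]
    have h3 : F g = ((((K g)⁻¹ : ℂˣ) : ℂ) * a g⁻¹ * a g) * (((K g : ℂˣ) : ℂ) - 1) +
        (-((((K g)⁻¹ : ℂˣ) : ℂ) * a g⁻¹)) * (σ (a g) - a g) := by
      rw [hF]
      have h4 : ((((K g)⁻¹ : ℂˣ) : ℂ)) * ((K g : ℂˣ) : ℂ) = 1 := Units.inv_mul _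
      linear_combination (-(a g * a g⁻¹)) * h4
    rw [h3]
    exact hadd _ _ (hmul _ _ (((hKint g).mul (haI _)).mul (haI _)) h2)
      (hmul _ _ ((hKint g).mul (haI _)).neg h1)
  obtain ⟨J, hJ, hJs⟩ := sum_coset hRAD hp P F hinv hFR
  -- conclusion
  have hPne : (Nat.card P : ℂ) ≠ 0 := by exact_mod_cast Nat.card_pos.ne'
  have hnC : (n : ℂ) ≠ 0 := by exact_mod_cast hn
  have hidx : Nat.card P * P.index = Nat.card X := Subgroup.card_mul_index P
  have hfin : (n : ℂ) * J = ((P.index * Nat.card U * Nat.card U * m : ℕ) : ℤ) := by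
    rw [hFsum] at hJs
    have h1 : (Fintype.card X : ℂ) = (Nat.card P : ℂ) * P.index := by
      rw [← Nat.card_eq_fintype_card, ← hidx]
      push_cast
      ring
    rw [h1] at hJs
    apply mul_left_cancel₀ hPne
    rw [← mul_assoc, mul_comm (Nat.card P : ℂ) (n : ℂ), mul_assoc, ← hJs]
    push_cast
    field_simp
  have hrad : RadP p (((P.index * Nat.card U * Nat.card U * m : ℕ) : ℤ) : ℂ) := by
    rw [← hfin]
    refine hmul _ _ ?_ hJ
    exact isIntegral_algebraMap (R := ℤ) (A := ℂ) (x := (n : ℤ)) |> fun h => by simpa using h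
  have h1 := hint _ hrad
  have h2 : p ∣ P.index * Nat.card U * Nat.card U * m := by exact_mod_cast h1
  have hidx' : ¬ p ∣ P.index := by
    intro h
    have h3 : p ^ ((Nat.card X).factorization p + 1) ∣ Nat.card X := by
      have h4 := mul_dvd_mul_left (Nat.card P) h
      rwa [hidx, hPc, ← pow_succ] at h4
    exact (Nat.pow_succ_factorization_not_dvd Nat.card_pos.ne' hp) h3
  rcases hp.dvd_mul.1 h2 with h | h
  · rcases hp.dvd_mul.1 h with h | h
    · rcases hp.dvd_mul.1 h with h | h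
      · exact hidx' h
      · exact hSD.cop h
    · exact hSD.cop h
  · exact hpm' h

end Pool.Agent.Lib.MP_1aae89_al.HC
end

section
/-!
# HCS: groups `X = U N_X(P) U` satisfy `IC`
-/
set_option autoImplicit false

namespace Pool.Agent.Lib.MP_1aae89_al.HC

open Pool.Agent.Lib.MP_1aae89_al Pool.Agent.Lib.MP_1aae89_al.BF Pool.Agent.Lib.MP_1aae89_al.W3 Finset
open Pool.Agent.Lib.MP1aae89 (Pex)

namespace HCS_

theorem map_split {p : ℕ} {X : Type} [Group X] {P U : Subgroup X} (h : SplitDec p P U)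
    (f : X ≃* X) : SplitDec p (P.map f.toMonoidHom) (U.map f.toMonoidHom) where
  nrm := by
    rintro _ ⟨x, hx, rfl⟩ _ ⟨u, hu, rfl⟩
    exact ⟨x * u * x⁻¹, h.nrm x hx u hu, by simp⟩
  cop := by
    have h1 : Nat.card (U.map f.toMonoidHom) = Nat.card U :=
      Nat.card_congr (U.equivMapOfInjective f.toMonoidHom f.injective).symm.toEquiv
    rw [h1]
    exact h.cop
  fix := by
    rintro _ ⟨u, hu, rfl⟩ hc
    have h1 : u = 1 := h.fix u hu fun x hx => by
      have h2 := hc (f x) ⟨x, hx, rfl⟩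
      have h3 : f (x * u) = f (u * x) := by rw [map_mul, map_mul]; exact h2
      exact f.injective h3
    rw [h1]
    exact map_one _
  dec := by
    intro g
    obtain ⟨u, hu, n, hn, v, hv, hg⟩ := h.dec (f.symm g)
    refine ⟨f u, ⟨u, hu, rfl⟩, f n, ?_, f v, ⟨v, hv, rfl⟩, ?_⟩
    · have h1 : ∀ y : X, y ∈ P.map f.toMonoidHom ↔ f.symm y ∈ P := by
        intro y
        constructor
        · rintro ⟨x, hx, rfl⟩
          simpa using hx
        · intro hy
          exact ⟨f.symm y, hy, by simp⟩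
      intro x
      rw [h1, h1, hn (f.symm x)]
      simp
    · rw [← map_mul, ← map_mul, ← hg, MulEquiv.apply_symm_apply]

end HCS_

theorem specHCS (hHCI : SpecHCI) : SpecHCS := by
  intro p b hp hb X _ _ P U hP hSD L s0 hL hXL hpex P' hP' n r hr hpn hFX K hK hne
  have : Fact p.Prime := ⟨hp⟩
  have : Fintype X := Fintype.ofFinite X
  let S : Sylow p X := Sylow.ofCard P hP
  let S' : Sylow p X := Sylow.ofCard P' hP'
  obtain ⟨g, hg⟩ := MulAction.exists_smul_eq X S S'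
  have h1 : P' = P.map (MulAut.conj g).toMonoidHom := by
    have h2 : ((g • S : Sylow p X) : Subgroup X) = (S' : Subgroup X) := by rw [hg]
    exact h2.symm
  subst h1
  have hn : n ≠ 0 := by
    rintro rfl
    exact hpn (dvd_zero p)
  exact hHCI p b hp hb L s0 hL hpex hXL _ (U.map (MulAut.conj g).toMonoidHom) hP'
    (HCS_.map_split hSD (MulAut.conj g)) n r hr hn K hK hne

end Pool.Agent.Lib.MP_1aae89_al.HC
end

section
/-!
# Module ORB: sums over the orbits of a `p`-group acting by conjugation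
-/
set_option autoImplicit false

namespace Pool.Agent.Lib.MP_1aae89_al.HC

open Pool.Agent.Lib.MP_1aae89_al Pool.Agent.Lib.MP_1aae89_al.BF Finset

namespace ORB_

variable {X : Type} [Group X] [Fintype X]

/-- the orbit -/
noncomputable def orbS (P : Subgroup X) (u : X) : Finset X :=
  open Classical in univ.filter fun v => ∃ x ∈ P, v = x * u * x⁻¹

theorem mem_orb (P : Subgroup X) (u v : X) : v ∈ orbS P u ↔ ∃ x ∈ P, v = x * u * x⁻¹ := by
  classical
  simp [orbS]

theorem orb_symm (P : Subgroup X) {u v : X} (h : v ∈ orbS P u) : u ∈ orbS P v := by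
  rw [mem_orb] at h ⊢
  obtain ⟨x, hx, rfl⟩ := h
  exact ⟨x⁻¹, P.inv_mem hx, by group⟩

theorem orb_trans (P : Subgroup X) {u v w : X} (h : v ∈ orbS P u) (h' : w ∈ orbS P v) :
    w ∈ orbS P u := by
  rw [mem_orb] at h h' ⊢
  obtain ⟨x, hx, rfl⟩ := h
  obtain ⟨y, hy, rfl⟩ := h'
  exact ⟨y * x, P.mul_mem hy hx, by group⟩

theorem orb_eq (P : Subgroup X) {u v : X} (h : v ∈ orbS P u) : orbS P v = orbS P u := by
  ext w
  exact ⟨fun hw => orb_trans P h hw, fun hw => orb_trans P (orb_symm P h) hw⟩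

theorem self_mem (P : Subgroup X) (u : X) : u ∈ orbS P u := by
  rw [mem_orb]
  exact ⟨1, P.one_mem, by simp⟩

end ORB_

open ORB_ in
theorem specORB : SpecORB := by
  classical
  intro p X _ _ P U hPU φ hφ hdiv
  set T : Finset X := univ.filter fun u => u ∈ U ∧ u ≠ 1 with hT
  have hsum : (∑ u : X, if u ∈ U then φ u else 0) = φ 1 + ∑ u ∈ T, φ u := by
    rw [← Finset.sum_filter]
    have h1 : univ.filter (fun u : X => u ∈ U) = insert 1 T := by
      ext u
      simp only [hT, mem_filter, mem_univ, true_and, mem_insert]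
      constructor
      · intro h
        by_cases hu : u = 1
        · exact Or.inl hu
        · exact Or.inr ⟨h, hu⟩
      · rintro (rfl | h)
        · exact U.one_mem
        · exact h.1
    rw [h1, Finset.sum_insert]
    simp [hT]
  have hsub : ∀ u ∈ T, ∀ v ∈ orbS P u, v ∈ T := by
    intro u hu v hv
    rw [hT, mem_filter] at hu ⊢
    rw [mem_orb] at hv
    obtain ⟨x, hx, rfl⟩ := hv
    refine ⟨mem_univ _, hPU x hx u hu.2.1, fun h => hu.2.2 ?_⟩
    have h1 : u = x⁻¹ * (x * u * x⁻¹) * x := by group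
    rw [h1, h]
    group
  have hcard : ∀ u, (Nat.card {v : X // ∃ x ∈ P, v = x * u * x⁻¹} : ℂ) = (orbS P u).card := by
    intro u
    rw [Nat.card_eq_fintype_card, Fintype.card_subtype]
    rfl
  -- the sum over the classes
  have hkey : ∑ u ∈ T, φ u = ∑ O ∈ T.image (orbS P), ∑ u ∈ T with orbS P u = O, φ u :=
    (Finset.sum_fiberwise_of_maps_to (fun u hu => mem_image_of_mem _ hu) _).symm
  have hcls : ∀ O ∈ T.image (orbS P), ∃ w : ℂ, IsIntegral ℤ w ∧
      ∑ u ∈ T with orbS P u = O, φ u = p * w := by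
    intro O hO
    rw [mem_image] at hO
    obtain ⟨u, hu, rfl⟩ := hO
    have hu' := hu
    rw [hT, mem_filter] at hu'
    obtain ⟨w, hw, h1⟩ := hdiv u hu'.2.1 hu'.2.2
    refine ⟨w, hw, ?_⟩
    rw [← h1, hcard]
    have h2 : (T.filter fun v => orbS P v = orbS P u) = orbS P u := by
      ext v
      rw [mem_filter]
      constructor
      · rintro ⟨_, h3⟩
        rw [← h3]
        exact self_mem P v
      · intro h3
        exact ⟨hsub u hu v h3, orb_eq P h3⟩
    rw [h2, ← nsmul_eq_mul, ← Finset.sum_const]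
    refine Finset.sum_congr rfl fun v hv => ?_
    rw [mem_orb] at hv
    obtain ⟨x, hx, rfl⟩ := hv
    exact hφ x hx u hu'.2.1
  choose! w hw1 hw2 using hcls
  refine ⟨∑ O ∈ T.image (orbS P), w O, IsIntegral.sum _ fun O hO => hw1 O hO, ?_⟩
  rw [hsum, hkey, Finset.mul_sum, Finset.sum_congr rfl hw2]

end Pool.Agent.Lib.MP_1aae89_al.HC
end

section
/-!
# PFX: the constituents of `r|P` and the space of fixed vectors of `U` (MP_1aae89_al, block HC)
-/
set_option autoImplicit false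

namespace Pool.Agent.Lib.MP_1aae89_al.HC

open Pool.Agent.Lib.MP_1aae89_al Pool.Agent.Lib.MP_1aae89_al.BF Pool.Agent.Lib.MP_1aae89_al.W3 Finset
open Pool.Agent.Lib.MP1aae89 (Pex)

namespace PFXM

section

variable {X : Type} [Group X] [Fintype X] {n : ℕ} (r : X →* Matrix (Fin n) (Fin n) ℂ) (P : Subgroup X)

open Classical in
theorem mul_EE (η : Lin P) (y : P) : r y * EE r P η = ((η y : ℂˣ) : ℂ) • EE r P η := by
  have key : r y * (∑ x : P, (((η x)⁻¹ : ℂˣ) : ℂ) • r x) =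
      ((η y : ℂˣ) : ℂ) • ∑ x : P, (((η x)⁻¹ : ℂˣ) : ℂ) • r x := by
    rw [Finset.mul_sum, Finset.smul_sum]
    refine Fintype.sum_equiv (Equiv.mulLeft y)
      (fun x : P => (r y * ((((η x)⁻¹ : ℂˣ) : ℂ) • r x) : Matrix (Fin n) (Fin n) ℂ))
      (fun x : P => (((η y : ℂˣ) : ℂ) • ((((η x)⁻¹ : ℂˣ) : ℂ) • r x) : Matrix (Fin n) (Fin n) ℂ))
      fun x => ?_
    show (r y * ((((η x)⁻¹ : ℂˣ) : ℂ) • r x) : Matrix (Fin n) (Fin n) ℂ) =
      ((η y : ℂˣ) : ℂ) • ((((η (y * x))⁻¹ : ℂˣ) : ℂ) • r ((y * x : P) : X))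
    rw [mul_smul_comm, smul_smul, map_mul, mul_inv_rev, Units.val_mul,
      Subgroup.coe_mul, map_mul]
    congr 1
    rw [mul_comm (((η x)⁻¹ : ℂˣ) : ℂ), ← mul_assoc, ← Units.val_mul, mul_inv_cancel, Units.val_one, one_mul]
  unfold EE
  rw [mul_smul_comm, key, smul_comm]

open Classical in
theorem EE_mul (η : Lin P) (y : P) : EE r P η * r y = ((η y : ℂˣ) : ℂ) • EE r P η := by
  have key : (∑ x : P, (((η x)⁻¹ : ℂˣ) : ℂ) • r x) * r y =
      ((η y : ℂˣ) : ℂ) • ∑ x : P, (((η x)⁻¹ : ℂˣ) : ℂ) • r x := by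
    rw [Finset.sum_mul, Finset.smul_sum]
    refine Fintype.sum_equiv (Equiv.mulRight y)
      (fun x : P => (((((η x)⁻¹ : ℂˣ) : ℂ) • r x) * r y : Matrix (Fin n) (Fin n) ℂ))
      (fun x : P => (((η y : ℂˣ) : ℂ) • ((((η x)⁻¹ : ℂˣ) : ℂ) • r x) : Matrix (Fin n) (Fin n) ℂ))
      fun x => ?_
    show (((((η x)⁻¹ : ℂˣ) : ℂ) • r x) * r y : Matrix (Fin n) (Fin n) ℂ) =
      ((η y : ℂˣ) : ℂ) • ((((η (x * y))⁻¹ : ℂˣ) : ℂ) • r ((x * y : P) : X))
    rw [smul_mul_assoc, smul_smul, map_mul, mul_inv_rev, Units.val_mul,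
      Subgroup.coe_mul, map_mul]
    congr 1
    rw [← mul_assoc, ← Units.val_mul, mul_inv_cancel, Units.val_one, one_mul]
  unfold EE
  rw [smul_mul_assoc, key, smul_comm]

open Classical in
theorem sum_ne {η η' : Lin P} (h : η ≠ η') :
    ∑ x : P, (((η x)⁻¹ : ℂˣ) : ℂ) * ((η' x : ℂˣ) : ℂ) = 0 := by
  have h1 := sum_hom_units_eq_zero (G := P) (R := ℂ)
    ((Units.coeHom ℂ).comp (η⁻¹ * η' : P →* ℂˣ)) ?_
  · rw [← h1]
    refine sum_congr rfl fun x _ => ?_
    rw [← Units.val_mul]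
    rfl
  · intro h2
    apply h
    apply Lin.ext
    intro x
    have h3 := DFunLike.congr_fun h2 x
    have h4 : (((η x)⁻¹ * η' x : ℂˣ) : ℂ) = ((1 : ℂˣ) : ℂ) := h3
    have h5 := Units.ext h4
    exact inv_mul_eq_one.1 h5

open Classical in
theorem EE_EE (η η' : Lin P) : EE r P η * EE r P η' = if η = η' then EE r P η' else 0 := by
  have h1 : EE r P η * EE r P η' =
      ((Nat.card P : ℂ)⁻¹ * ∑ x : P, (((η x)⁻¹ : ℂˣ) : ℂ) * ((η' x : ℂˣ) : ℂ)) • EE r P η' := by
    rw [mul_smul, sum_smul]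
    conv_lhs => rw [EE]
    rw [smul_mul_assoc, sum_mul]
    congr 1
    refine sum_congr rfl fun x _ => ?_
    rw [smul_mul_assoc, mul_EE, smul_smul]
  rw [h1]
  split_ifs with h
  · subst h
    have h2 : ∑ x : P, (((η x)⁻¹ : ℂˣ) : ℂ) * ((η x : ℂˣ) : ℂ) = (Nat.card P : ℂ) := by
      rw [sum_congr rfl fun x _ => by rw [← Units.val_mul, inv_mul_cancel, Units.val_one]]
      rw [sum_const, card_univ, nsmul_eq_mul, mul_one, Nat.card_eq_fintype_card]
    rw [h2, inv_mul_cancel₀, one_smul]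
    exact_mod_cast Nat.card_pos.ne'
  · rw [sum_ne P h, mul_zero, zero_smul]

open Classical in
theorem trace_EE (η : Lin P) : (EE r P η).trace = ((ml (fun x : P => (r x).trace) η : ℕ) : ℂ) := by
  rw [ml_spec (χ := fun x : P => (r x).trace) ⟨n, r.comp P.subtype, fun g => rfl⟩]
  unfold EE
  rw [Matrix.trace_smul, Matrix.trace_sum, smul_eq_mul, Nat.card_eq_fintype_card]
  congr 1
  refine sum_congr rfl fun x _ => ?_
  rw [Matrix.trace_smul, smul_eq_mul, mul_comm]

/-- the projection to the constituents `η` with `η ^ q = k` -/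
noncomputable def FF (q : ℕ) (k : Lin P) : Matrix (Fin n) (Fin n) ℂ :=
  open Classical in ∑ η ∈ univ.filter (fun η : Lin P => η ^ q = k), EE r P η

open Classical in
theorem FF_eq (q : ℕ) (k : Lin P) :
    FF r P q k = ∑ η ∈ univ.filter (fun η : Lin P => η ^ q = k), EE r P η := by
  unfold FF
  congr

open Classical in
theorem FF_idem (q : ℕ) (k : Lin P) : FF r P q k * FF r P q k = FF r P q k := by
  rw [FF_eq, sum_mul_sum]
  refine sum_congr rfl fun η hη => ?_
  rw [sum_congr rfl fun η' _ => EE_EE r P η η', sum_ite_eq, if_pos hη]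

theorem FF_comm (q : ℕ) (k : Lin P) (y : P) : r y * FF r P q k = FF r P q k * r y := by
  classical
  rw [FF_eq, mul_sum, sum_mul]
  exact sum_congr rfl fun η _ => by rw [mul_EE, EE_mul]

open Classical in
theorem trace_FF (q : ℕ) (k : Lin P) :
    (FF r P q k).trace = ((dl q (fun x : P => (r x).trace) k : ℕ) : ℂ) := by
  have h1 : dl q (fun x : P => (r x).trace) k =
      ∑ η ∈ univ.filter (fun η : Lin P => η ^ q = k), ml (fun x : P => (r x).trace) η := by
    unfold dl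
    congr
  rw [FF_eq, Matrix.trace_sum, h1, Nat.cast_sum]
  exact sum_congr rfl fun η _ => trace_EE r P η

open Classical in
/-- the coefficients of the projection vanish outside the kernel of a character of order `p` -/
theorem Phi_zero {p q : ℕ} (hpq : p ∣ q) (k : Lin P) {ε : Lin P} (hε : ε ^ p = 1) {x : P}
    (hx : ε x ≠ 1) : ∑ η ∈ univ.filter (fun η : Lin P => η ^ q = k), (((η x)⁻¹ : ℂˣ) : ℂ) = 0 := by
  obtain ⟨m, rfl⟩ := hpq
  set S := ∑ η ∈ univ.filter (fun η : Lin P => η ^ (p * m) = k), (((η x)⁻¹ : ℂˣ) : ℂ) with hS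
  have h1 : S = (((ε x)⁻¹ : ℂˣ) : ℂ) * S := by
    rw [hS, mul_sum]
    symm
    refine sum_bij (fun η _ => ε * η) (fun η hη => ?_) (fun a _ b _ h => mul_left_cancel h)
      (fun η hη => ⟨ε⁻¹ * η, ?_, ?_⟩) (fun η _ => ?_)
    · rw [mem_filter] at hη ⊢
      refine ⟨mem_univ _, ?_⟩
      rw [mul_pow, hη.2, pow_mul, hε, one_pow, one_mul]
    · rw [mem_filter] at hη ⊢
      refine ⟨mem_univ _, ?_⟩
      rw [mul_pow, hη.2, inv_pow, pow_mul, hε, one_pow, inv_one, one_mul]
    · rw [mul_inv_cancel_left]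
    · rw [Lin.mul_apply, mul_inv, Units.val_mul]
  have h2 : (1 - (((ε x)⁻¹ : ℂˣ) : ℂ)) * S = 0 := by
    rw [sub_mul, one_mul, ← h1, sub_self]
  rcases mul_eq_zero.1 h2 with h | h
  · exfalso
    apply hx
    have h3 : (((ε x)⁻¹ : ℂˣ) : ℂ) = ((1 : ℂˣ) : ℂ) := by
      rw [Units.val_one]
      exact (sub_eq_zero.1 h).symm
    exact inv_eq_one.1 (Units.ext h3)
  · exact h

open Classical in
theorem FF_eq' (q : ℕ) (k : Lin P) :
    FF r P q k = (Nat.card P : ℂ)⁻¹ • ∑ x : P,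
      (∑ η ∈ univ.filter (fun η : Lin P => η ^ q = k), (((η x)⁻¹ : ℂˣ) : ℂ)) • r x := by
  rw [FF_eq]
  unfold EE
  rw [← smul_sum, sum_comm]
  congr 1
  exact sum_congr rfl fun x _ => (sum_smul).symm

theorem comm_of_ker {p q : ℕ} (hpq : p ∣ q) (k : Lin P) {ε : Lin P} (hε : ε ^ p = 1)
    (V : Matrix (Fin n) (Fin n) ℂ) (hV : ∀ x : P, ε x = 1 → V * r x = r x * V) :
    V * FF r P q k = FF r P q k * V := by
  classical
  rw [FF_eq', mul_smul_comm, smul_mul_assoc, mul_sum, sum_mul]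
  congr 1
  refine sum_congr rfl fun x _ => ?_
  by_cases hx : ε x = 1
  · rw [mul_smul_comm, smul_mul_assoc, hV x hx]
  · rw [Phi_zero P hpq k hε hx, zero_smul, mul_zero, zero_mul]

end

section orbit

variable {X : Type} [Group X] [Fintype X]

omit [Fintype X] in
/-- the orbit formula for the conjugation action of a subgroup -/
theorem orbit_card (S : Subgroup X) (u : X) :
    Nat.card {v : X // ∃ x ∈ S, v = x * u * x⁻¹} * Nat.card {x : X // x ∈ S ∧ x * u = u * x} =
      Nat.card S := by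
  classical
  let inst : MulAction S X := MulAction.compHom X ((MulAut.conj : X →* MulAut X).comp S.subtype)
  have hsm : ∀ (x : S) (v : X), x • v = x * v * (x : X)⁻¹ := fun x v => rfl
  have h1 := MulAction.index_stabilizer S u
  have h2 := (MulAction.stabilizer S u).card_mul_index
  rw [h1] at h2
  rw [← h2, mul_comm]
  congr 1
  · refine Nat.card_congr ⟨fun x => ⟨⟨x.1, x.2.1⟩, ?_⟩, fun x => ⟨x.1.1, x.1.2, ?_⟩, fun x => rfl,
      fun x => rfl⟩
    · rw [MulAction.mem_stabilizer_iff, hsm]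
      show x.1 * u * (x.1)⁻¹ = u
      rw [x.2.2, mul_inv_cancel_right]
    · have h3 := x.2
      rw [MulAction.mem_stabilizer_iff, hsm] at h3
      exact mul_inv_eq_iff_eq_mul.1 h3
  · rw [← Nat.card_coe_set_eq]
    refine Nat.card_congr (Equiv.subtypeEquivRight fun v => ?_)
    constructor
    · rintro ⟨x, hx, rfl⟩
      exact ⟨⟨x, hx⟩, rfl⟩
    · rintro ⟨x, rfl⟩
      exact ⟨x.1, x.2, rfl⟩

end orbit

end PFXM

open PFXM in
open Classical in
theorem specPFX (hTRI : SpecTRI) (hORB : SpecORB) : SpecPFX := by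
  intro p hp X _ _ P U e hPc hS n r q hpq k
  have hpf : Fact p.Prime := ⟨hp⟩
  set F := FF r P q k with hF
  set φ : X → ℂ := fun g => (r g * F).trace with hφ
  have hφc : ∀ x ∈ P, ∀ u : X, φ (x * u * x⁻¹) = φ u := by
    intro x hx u
    have h1 := FF_comm r P q k ⟨x, hx⟩
    have h1' : r x * F = F * r x := h1
    have h2 : r x * r x⁻¹ = 1 := by rw [← map_mul, mul_inv_cancel, map_one]
    have h3 : r x⁻¹ * r x = 1 := by rw [← map_mul, inv_mul_cancel, map_one]
    have h4 : r x⁻¹ * F = F * r x⁻¹ := by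
      calc r x⁻¹ * F = r x⁻¹ * (F * r x) * r x⁻¹ := by rw [mul_assoc, mul_assoc, h2, mul_one]
        _ = r x⁻¹ * (r x * F) * r x⁻¹ := by rw [h1']
        _ = F * r x⁻¹ := by rw [← mul_assoc, h3, one_mul]
    show (r (x * u * x⁻¹) * F).trace = (r u * F).trace
    rw [map_mul, map_mul, mul_assoc, h4, ← mul_assoc, Matrix.trace_mul_comm, ← mul_assoc,
      ← mul_assoc, h3, one_mul]
  have hLHS : (∑ η ∈ univ.filter (fun η : Lin P => η ^ q = k), (NU r U * EE r P η).trace) =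
      ∑ u : X, if u ∈ U then φ u else 0 := by
    rw [← Matrix.trace_sum, ← mul_sum, ← FF_eq]
    unfold NU
    rw [sum_mul, Matrix.trace_sum]
    rw [← sum_filter]
    rw [← sum_subtype (univ.filter fun u => u ∈ U) (fun x => by simp) φ]
  have hone : φ 1 = ((dl q (fun x : P => (r x).trace) k : ℕ) : ℂ) := by
    show (r 1 * F).trace = _
    rw [map_one, one_mul, hF, trace_FF]
  rw [hLHS, ← hone]
  refine hORB p P U hS.nrm φ (fun x hx u _ => hφc x hx u) ?_
  intro u hu hu1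
  -- the centralizer
  let D : Subgroup P := (Subgroup.centralizer {u}).subgroupOf P
  have hDm : ∀ x : P, x ∈ D ↔ (x : X) * u = u * x := by
    intro x
    rw [Subgroup.mem_subgroupOf, Subgroup.mem_centralizer_singleton_iff]
  have hD : D ≠ ⊤ := by
    intro h
    apply hu1
    refine hS.fix u hu fun x hx => ?_
    have h1 : (⟨x, hx⟩ : P) ∈ D := by rw [h]; exact Subgroup.mem_top _
    exact (hDm _).1 h1
  obtain ⟨ε, hε1, hεp, hεD⟩ := exists_eps hPc D hD
  let Q : Subgroup P := MonoidHom.ker (ε : P →* ℂˣ)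
  have hQm : ∀ x : P, x ∈ Q ↔ ε x = 1 := fun x => Iff.rfl
  have hQ : Q ≠ ⊤ := by
    intro h
    apply hε1
    apply Lin.ext
    intro x
    exact (hQm x).1 (by rw [h]; exact Subgroup.mem_top _)
  have hidx : p ∣ Q.index := by
    have h1 : Q.index ∣ p ^ e := by rw [← hPc]; exact Q.index_dvd_card
    obtain ⟨j, _, hj⟩ := (Nat.dvd_prime_pow hp).1 h1
    rcases Nat.eq_zero_or_pos j with rfl | hj0
    · rw [pow_zero] at hj
      exact absurd (Subgroup.index_eq_one.1 hj) hQ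
    · rw [hj]
      exact dvd_pow_self p hj0.ne'
  obtain ⟨m, hm⟩ := hidx
  let Q' : Subgroup X := Q.map P.subtype
  have hQ'm : ∀ x : X, x ∈ Q' ↔ ∃ h : x ∈ P, ε ⟨x, h⟩ = 1 := by
    intro x
    constructor
    · rintro ⟨y, hy, rfl⟩
      exact ⟨y.2, hy⟩
    · rintro ⟨h, hx⟩
      exact ⟨⟨x, h⟩, hx, rfl⟩
  have hQ'c : Nat.card Q' = Nat.card Q :=
    Nat.card_congr (Q.equivMapOfInjective P.subtype P.subtype_injective).symm.toEquiv
  have horb : Nat.card {v : X // ∃ x ∈ P, v = x * u * x⁻¹} =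
      Nat.card {v : X // ∃ x ∈ Q', v = x * u * x⁻¹} * (p * m) := by
    have h1 := orbit_card P u
    have h2 := orbit_card Q' u
    have h3 := Q.card_mul_index
    have h4 : Nat.card {x : X // x ∈ Q' ∧ x * u = u * x} = Nat.card {x : X // x ∈ P ∧ x * u = u * x} := by
      refine Nat.card_congr (Equiv.subtypeEquivRight fun x => ?_)
      constructor
      · rintro ⟨hx, hxu⟩
        exact ⟨((hQ'm x).1 hx).1, hxu⟩
      · rintro ⟨hx, hxu⟩
        refine ⟨(hQ'm x).2 ⟨hx, ?_⟩, hxu⟩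
        exact hεD _ ((hDm _).2 hxu)
    have h5 : 0 < Nat.card {x : X // x ∈ P ∧ x * u = u * x} := by
      have : Nonempty {x : X // x ∈ P ∧ x * u = u * x} := ⟨⟨1, P.one_mem, by simp⟩⟩
      exact Nat.card_pos
    rw [h4, hQ'c] at h2
    rw [hm] at h3
    apply Nat.eq_of_mul_eq_mul_right h5
    rw [h1, ← h3, ← h2]
    ring
  -- the class sum
  set a : X → ℤ := fun x => if ∃ y ∈ Q', x = y * u * y⁻¹ then 1 else 0 with ha
  set V : Matrix (Fin n) (Fin n) ℂ := ∑ x, (a x : ℂ) • r x with hV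
  have hainv : ∀ y ∈ Q', ∀ x, a (y * x * y⁻¹) = a x := by
    intro y hy x
    simp only [ha]
    congr 1
    apply propext
    constructor
    · rintro ⟨z, hz, h⟩
      refine ⟨y⁻¹ * z, Q'.mul_mem (Q'.inv_mem hy) hz, ?_⟩
      have : x = y⁻¹ * (y * x * y⁻¹) * y := by group
      rw [this, h]
      group
    · rintro ⟨z, hz, h⟩
      refine ⟨y * z, Q'.mul_mem hy hz, ?_⟩
      rw [h]
      group
  have hVc : ∀ y ∈ Q', V * r y = r y * V := by
    intro y hy
    rw [hV, sum_mul, mul_sum]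
    symm
    refine Fintype.sum_equiv (MulAut.conj y).toEquiv _ _ fun x => ?_
    show r y * ((a x : ℂ) • r x) = (a (y * x * y⁻¹) : ℂ) • r (y * x * y⁻¹) * r y
    rw [hainv y hy, mul_smul_comm, smul_mul_assoc, ← map_mul, ← map_mul, inv_mul_cancel_right]
  have hVF : V * F = F * V := by
    refine comm_of_ker r P hpq k hεp V fun x hx => ?_
    exact hVc x ((hQ'm x).2 ⟨x.2, hx⟩)
  have hint : IsIntegral ℤ (V * F).trace := hTRI r a F (FF_idem r P q k) hVF
  have htr : (V * F).trace = (Nat.card {v : X // ∃ x ∈ Q', v = x * u * x⁻¹} : ℂ) * φ u := by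
    rw [hV, sum_mul, Matrix.trace_sum]
    have h1 : ∀ x : X, ((a x : ℂ) • r x * F).trace = if ∃ y ∈ Q', x = y * u * y⁻¹ then φ u else 0 := by
      intro x
      rw [smul_mul_assoc, Matrix.trace_smul, smul_eq_mul]
      simp only [ha]
      split_ifs with h
      · obtain ⟨y, hy, rfl⟩ := h
        rw [Int.cast_one, one_mul]
        exact hφc y ((hQ'm y).1 hy).1 u
      · rw [Int.cast_zero, zero_mul]
    rw [sum_congr rfl fun x _ => h1 x, ← sum_filter, sum_const, nsmul_eq_mul,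
      Nat.card_eq_fintype_card, Fintype.card_subtype]
  refine ⟨m * (V * F).trace, ?_, ?_⟩
  · exact (isIntegral_algebraMap (R := ℤ) (A := ℂ) (x := (m : ℤ))).mul hint |> fun h => by
      simpa using h
  · rw [horb, htr]
    push_cast
    ring

end Pool.Agent.Lib.MP_1aae89_al.HC
end

section
/-!
# Schur relations for two different representations (MP_1aae89_al, Q1)
-/
set_option autoImplicit false

namespace Pool.Agent.Lib.MP_1aae89_al.HC

open Pool.Agent.Lib.MP_1aae89_al Pool.Agent.Lib.MP_1aae89_al.BF Finset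

namespace SCR_

variable {G : Type} [Group G] [Fintype G] {n : ℕ}

/-- if some average is not zero, the characters are equal -/
theorem avg_zero {r s : G →* Matrix (Fin n) (Fin n) ℂ} (hr : Sch r) (hn : n ≠ 0)
    (hne : ∃ g, (s g).trace ≠ (r g).trace) (S : Matrix (Fin n) (Fin n) ℂ) :
    ∑ g, s g * S * r g⁻¹ = 0 := by
  by_contra hT
  have hn' : (n : ℂ) ≠ 0 := by exact_mod_cast hn
  have hG : (Fintype.card G : ℂ) ≠ 0 := by exact_mod_cast Fintype.card_ne_zero
  set T := ∑ g, s g * S * r g⁻¹ with hTd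
  have hTi : ∀ g, s g * T = T * r g := fun g => avg2 s r _ g
  have h2 : ∃ a b, T a b ≠ 0 := by
    by_contra hall
    push Not at hall
    exact hT (Matrix.ext hall)
  obtain ⟨a, b, hab⟩ := h2
  set T' := ∑ g, r g * Matrix.single b a (1 : ℂ) * s g⁻¹ with hT'd
  have h3 : T' * T = ((Fintype.card G : ℂ) * T a b / n) • (1 : Matrix (Fin n) (Fin n) ℂ) := by
    have h4 : T' * T = ∑ g, r g * (Matrix.single b a (1 : ℂ) * T) * r g⁻¹ := by
      rw [hT'd, Finset.sum_mul]
      refine sum_congr rfl fun g _ => ?_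
      rw [Matrix.mul_assoc, hTi]
      simp only [Matrix.mul_assoc]
    rw [h4, avg hr hn]
    congr 3
    rw [Matrix.trace, Finset.sum_eq_single b]
    · rw [Matrix.diag_apply, Matrix.single_mul_apply_same, one_mul]
    · intro k _ hk
      rw [Matrix.diag_apply, Matrix.single_mul_apply_of_ne (h := hk)]
    · intro h; exact absurd (mem_univ _) h
  set c := (Fintype.card G : ℂ) * T a b / n with hc
  have hc0 : c ≠ 0 := div_ne_zero (mul_ne_zero hG hab) hn'
  have h4 : (c⁻¹ • T') * T = 1 := by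
    rw [Matrix.smul_mul, h3, smul_smul, inv_mul_cancel₀ hc0, one_smul]
  have h5 : T * (c⁻¹ • T') = 1 := mul_eq_one_comm.1 h4
  obtain ⟨g, hg⟩ := hne
  apply hg
  have h6 : s g = T * r g * (c⁻¹ • T') := by
    rw [← hTi, Matrix.mul_assoc, h5, Matrix.mul_one]
  rw [h6, Matrix.trace_mul_comm, ← Matrix.mul_assoc, h4, Matrix.one_mul]

end SCR_

open SCR_

theorem specSCR : SpecSCR := by
  intro X _ _ n r s hr hn hne A B
  have h1 : ∀ g ∈ univ, (s g * A).trace * (r g⁻¹ * B).trace =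
      ∑ j, ∑ i, ((s g * (A * Matrix.single j i (1 : ℂ)) * r g⁻¹) * B :
        Matrix (Fin n) (Fin n) ℂ) j i := by
    intro g _
    have h2 : ∀ j i : Fin n, ((s g * (A * Matrix.single j i (1 : ℂ)) * r g⁻¹) * B :
        Matrix (Fin n) (Fin n) ℂ) j i = (s g * A) j j * (r g⁻¹ * B) i i := by
      intro j i
      rw [← entry (s g * A) (r g⁻¹ * B) j i]
      simp only [Matrix.mul_assoc]
    simp only [h2]
    rw [Matrix.trace, Matrix.trace, Finset.sum_mul_sum]
    rfl
  rw [sum_congr rfl h1, sum_comm]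
  refine sum_eq_zero fun j _ => ?_
  rw [sum_comm]
  refine sum_eq_zero fun i _ => ?_
  have h5 : ∑ g, ((s g * (A * Matrix.single j i (1 : ℂ)) * r g⁻¹) * B :
        Matrix (Fin n) (Fin n) ℂ) j i =
      ((∑ g, s g * (A * Matrix.single j i (1 : ℂ)) * r g⁻¹) * B :
        Matrix (Fin n) (Fin n) ℂ) j i := by
    rw [Matrix.sum_mul, Matrix.sum_apply]
  rw [h5, avg_zero hr hn hne, Matrix.zero_mul, Matrix.zero_apply]

end Pool.Agent.Lib.MP_1aae89_al.HC
end

section
/-!
# Module TRI: integrality of traces on invariant subspaces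
-/
set_option autoImplicit false

namespace Pool.Agent.Lib.MP_1aae89_al.HC

open Pool.Agent.Lib.MP_1aae89_al Pool.Agent.Lib.MP_1aae89_al.BF Finset

namespace TRI_

theorem trace_int {n : ℕ} (M : Matrix (Fin n) (Fin n) ℂ) (h : IsIntegral ℤ M) :
    IsIntegral ℤ M.trace := by
  obtain ⟨p, hp, h0⟩ := h
  rcases Nat.eq_zero_or_pos n with rfl | hn
  · have : M.trace = 0 := by simp [Matrix.trace]
    rw [this]
    exact isIntegral_zero
  have : Nonempty (Fin n) := ⟨⟨0, hn⟩⟩
  have : Nontrivial (Matrix (Fin n) (Fin n) ℂ) := inferInstance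
  rw [Matrix.trace_eq_sum_roots_charpoly]
  refine IsIntegral.multiset_sum fun μ hμ => ?_
  have h2 : μ ∈ spectrum ℂ M := Matrix.mem_spectrum_of_isRoot_charpoly
    ((Polynomial.mem_roots (Matrix.charpoly_monic _).ne_zero).1 hμ)
  refine ⟨p, hp, ?_⟩
  have h3 := spectrum.subset_polynomial_aeval M (p.map (Int.castRingHom ℂ)) ⟨μ, h2, rfl⟩
  have h4 : Polynomial.aeval M (p.map (Int.castRingHom ℂ)) = 0 := by
    rw [Polynomial.aeval_def, Polynomial.eval₂_map, ← h0]
    congr 1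
  rw [h4, spectrum.zero_eq, Set.mem_singleton_iff] at h3
  have h5 : Polynomial.eval μ (p.map (Int.castRingHom ℂ)) = 0 := h3
  rw [Polynomial.eval_map] at h5
  exact h5

theorem mul_int {n : ℕ} (E F : Matrix (Fin n) (Fin n) ℂ) (hE : IsIntegral ℤ E) (hF : F * F = F)
    (hc : E * F = F * E) : IsIntegral ℤ (E * F) := by
  obtain ⟨p, hp, h0⟩ := hE
  refine ⟨Polynomial.X * p, Polynomial.monic_X.mul hp, ?_⟩
  have hk : ∀ k : ℕ, (E * F) ^ (k + 1) = E ^ (k + 1) * F := by
    intro k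
    rw [Commute.mul_pow hc]
    congr 1
    exact IsIdempotentElem.pow_succ_eq k hF
  have key : ∀ q : Polynomial ℤ, Polynomial.aeval (E * F) (Polynomial.X * q) =
      Polynomial.aeval E (Polynomial.X * q) * F := by
    intro q
    induction q using Polynomial.induction_on' with
    | add a b ha hb => rw [mul_add, map_add, map_add, ha, hb, add_mul]
    | monomial k a =>
      rw [Polynomial.X_mul_monomial, Polynomial.aeval_monomial, Polynomial.aeval_monomial, hk,
        mul_assoc]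
  have h1 := key p
  rw [map_mul, map_mul] at h1
  have h2 : Polynomial.aeval E p = 0 := h0
  rw [h2, mul_zero, zero_mul] at h1
  have h3 : Polynomial.aeval (E * F) (Polynomial.X * p) = 0 := by
    rw [map_mul]
    exact h1
  exact h3

theorem sum_int {X : Type} [Group X] [Fintype X] {n : ℕ}
    (r : X →* Matrix (Fin n) (Fin n) ℂ) (a : X → ℤ) : IsIntegral ℤ (∑ x, (a x : ℂ) • r x) := by
  set S : Subalgebra ℤ (Matrix (Fin n) (Fin n) ℂ) :=
    { carrier := Submodule.span ℤ (Set.range r)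
      mul_mem' := by
        intro u v hu hv
        have h1 : u * v ∈ Submodule.span ℤ (Set.range r) * Submodule.span ℤ (Set.range r) :=
          Submodule.mul_mem_mul hu hv
        rw [Submodule.span_mul_span] at h1
        refine Submodule.span_mono ?_ h1
        rintro w ⟨_, ⟨x, rfl⟩, _, ⟨y, rfl⟩, rfl⟩
        exact ⟨x * y, map_mul r x y⟩
      add_mem' := fun hu hv => Submodule.add_mem _ hu hv
      algebraMap_mem' := by
        intro z
        rw [Algebra.algebraMap_eq_smul_one]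
        exact Submodule.smul_mem _ _ (Submodule.subset_span ⟨1, map_one r⟩) } with hS
  refine IsIntegral.of_mem_of_fg S ?_ _ ?_
  · have : Subalgebra.toSubmodule S = Submodule.span ℤ (Set.range r) := rfl
    rw [this]
    exact Submodule.fg_span (Set.finite_range r)
  · show (∑ x, (a x : ℂ) • r x) ∈ Submodule.span ℤ (Set.range r)
    refine Submodule.sum_mem _ fun x _ => ?_
    have : (a x : ℂ) • r x = a x • r x := by
      rw [Int.cast_smul_eq_zsmul]
    rw [this]
    exact Submodule.smul_mem _ _ (Submodule.subset_span ⟨x, rfl⟩)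

end TRI_

open TRI_ in
theorem specTRI : SpecTRI := by
  intro X _ _ n r a F hF hc
  exact trace_int _ (mul_int _ _ (sum_int r a) hF hc)

end Pool.Agent.Lib.MP_1aae89_al.HC
end

section
/-!
# Module UTG: the group of the upper unitriangular matrices
-/
set_option autoImplicit false

namespace Pool.Agent.Lib.MP_1aae89_al.HC

open Pool.Agent.Lib.MP_1aae89_al Pool.Agent.Lib.MP_1aae89_al.BF Pool.Agent.Lib.MP_1aae89_al.W3 Finset
open Matrix (GeneralLinearGroup)

namespace UTG_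

theorem one {n : ℕ} {F : Type} [Field F] : UT (1 : GL (Fin n) F) := by
  refine ⟨fun i => ?_, fun i j hij => ?_⟩
  · simp
  · simp [Matrix.one_apply, hij.ne']

theorem mul {n : ℕ} {F : Type} [Field F] {g h : GL (Fin n) F} (hg : UT g) (hh : UT h) :
    UT (g * h) := by
  refine ⟨fun i => ?_, fun i j hij => ?_⟩
  · rw [Units.val_mul, Matrix.mul_apply, Finset.sum_eq_single i, hg.1, hh.1, one_mul]
    · intro k _ hk
      rcases lt_or_gt_of_ne hk with h1 | h1
      · rw [hg.2 i k h1, zero_mul]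
      · rw [hh.2 k i h1, mul_zero]
    · intro h1
      exact absurd (Finset.mem_univ i) h1
  · rw [Units.val_mul, Matrix.mul_apply]
    refine Finset.sum_eq_zero fun k _ => ?_
    rcases lt_or_ge k i with h1 | h1
    · rw [hg.2 i k h1, zero_mul]
    · rw [hh.2 k j (lt_of_lt_of_le hij h1), mul_zero]

theorem pow {n : ℕ} {F : Type} [Field F] {g : GL (Fin n) F} (hg : UT g) (k : ℕ) : UT (g ^ k) := by
  induction k with
  | zero => rw [pow_zero]; exact one
  | succ k ih => rw [pow_succ]; exact mul ih hg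

theorem inv {n : ℕ} {F : Type} [Field F] [Finite F] {g : GL (Fin n) F} (hg : UT g) : UT g⁻¹ := by
  have h1 : g⁻¹ = g ^ (Nat.card (GL (Fin n) F) - 1) := by
    have h2 : 0 < Nat.card (GL (Fin n) F) := Nat.card_pos
    have h3 : g ^ (Nat.card (GL (Fin n) F) - 1) * g = 1 := by
      rw [← pow_succ, Nat.sub_add_cancel h2, pow_card_eq_one']
    exact (eq_inv_of_mul_eq_one_left h3).symm
  rw [h1]
  exact pow hg _

theorem nilp {n : ℕ} {F : Type} [Field F] {g : GL (Fin n) F} (hg : UT g) (k : ℕ) :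
    ∀ i j : Fin n, (j : ℕ) < i + k →
      (((g : Matrix (Fin n) (Fin n) F) - 1) ^ k) i j = 0 := by
  induction k with
  | zero =>
    intro i j hij
    have h1 : i ≠ j := by
      rintro rfl
      simp at hij
    rw [pow_zero, Matrix.one_apply_ne h1]
  | succ k ih =>
    intro i j hij
    rw [pow_succ, Matrix.mul_apply]
    refine Finset.sum_eq_zero fun l _ => ?_
    rcases lt_or_ge (l : ℕ) (i + k) with h1 | h1
    · rw [ih i l h1, zero_mul]
    · have h2 : j ≤ l := by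
        rw [Fin.le_def]
        omega
      have h3 : ((g : Matrix (Fin n) (Fin n) F) - 1) l j = 0 := by
        rcases eq_or_lt_of_le h2 with h3 | h3
        · rw [h3, Matrix.sub_apply, hg.1, Matrix.one_apply_eq, sub_self]
        · rw [Matrix.sub_apply, hg.2 l j h3, Matrix.one_apply_ne h3.ne', sub_self]
      rw [h3, mul_zero]

theorem powr {n : ℕ} {F : Type} [Field F] {g : GL (Fin n) F} (hg : UT g) (r : ℕ) [Fact r.Prime]
    [CharP F r] : g ^ r ^ n = 1 := by
  rcases Nat.eq_zero_or_pos n with rfl | hn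
  · exact Subsingleton.elim _ _
  have hne : Nonempty (Fin n) := ⟨⟨0, hn⟩⟩
  have h1 : ((g : Matrix (Fin n) (Fin n) F) - 1) ^ n = 0 := by
    ext i j
    rw [nilp hg n i j (by omega)]
    rfl
  have h2 : ((g : Matrix (Fin n) (Fin n) F) - 1) ^ r ^ n = 0 := by
    have h3 : n ≤ r ^ n := (Nat.lt_pow_self (Fact.out : r.Prime).one_lt).le
    rw [← Nat.add_sub_cancel' h3, pow_add, h1, zero_mul]
  rw [sub_pow_char_pow_of_commute (p := r) (h := Commute.one_right _), one_pow, sub_eq_zero] at h2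
  exact Units.ext (by rw [Units.val_pow_eq_pow_val, h2, Units.val_one])

end UTG_

theorem specUTG : SpecUTG := by
  intro n F _ _
  refine ⟨{ carrier := {g | UT g}
            mul_mem' := fun hg hh => UTG_.mul hg hh
            one_mem' := UTG_.one
            inv_mem' := fun hg => UTG_.inv hg }, fun g => Iff.rfl, fun p hp hpF hdvd => ?_⟩
  obtain ⟨r, hr⟩ := CharP.exists F
  have hr0 : r ≠ 0 := CharP.char_ne_zero_of_finite F r
  have hrp : r.Prime := (CharP.char_is_prime_or_zero F r).resolve_right hr0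
  haveI : Fact r.Prime := ⟨hrp⟩
  haveI : Fact p.Prime := ⟨hp⟩
  obtain ⟨g, hg⟩ := exists_prime_orderOf_dvd_card' p hdvd
  have h1 : (g : GL (Fin n) F) ^ r ^ n = 1 := UTG_.powr g.2 r
  have h2 : g ^ r ^ n = 1 := by
    ext1
    rw [Subgroup.coe_pow, h1, Subgroup.coe_one]
  have h3 : p ∣ r ^ n := hg ▸ orderOf_dvd_of_pow_eq_one h2
  have h4 : p = r := (Nat.prime_dvd_prime_iff_eq hp hrp).1 (hp.dvd_of_dvd_pow h3)
  apply hpF
  rw [h4, CharP.cast_eq_zero]

end Pool.Agent.Lib.MP_1aae89_al.HC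
end

section
/-!
# Module AM1: the Fourier coefficients of `am`
-/
set_option autoImplicit false

namespace Pool.Agent.Lib.MP_1aae89_al.W3

open Pool.Agent.Lib.MP_1aae89_al Pool.Agent.Lib.MP_1aae89_al.BF Finset
open Pool.Agent.Lib.MP_1aae89_al.W (GC LD nR)

namespace AM1

theorem sum_shift (g : ℕ → ℂ) (p : ℕ) (hg : ∀ m, g (m + p) = g m) (i : ℕ) :
    ∑ j ∈ range p, g (i + j) = ∑ j ∈ range p, g j := by
  induction i with
  | zero => exact sum_congr rfl fun j _ => by rw [zero_add]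
  | succ i ih =>
    rw [← ih]
    have h1 := sum_range_succ (fun j => g (i + j)) p
    have h2 := sum_range_succ' (fun j => g (i + j)) p
    rw [h1, add_zero, hg i] at h2
    have h3 := add_right_cancel h2
    rw [h3]
    exact sum_congr rfl fun j _ => by congr 1; ring

/-- `φ(w^(A + p^b j)) = φ(w^A)` for `A` prime to `p` -/
theorem twist {p b : ℕ} {B : Type} [CommGroup B] [Finite B] {m : ℕ} (hB : Nat.card B = p ^ m)
    (φ : B → ℂ) (hφ : ∀ (t : ℕ) (w : B), φ (w ^ (1 + p ^ b * t)) = φ w) (A : ℕ)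
    (hA : A.Coprime p) (j : ℕ) (w : B) : φ (w ^ (A + p ^ b * j)) = φ (w ^ A) := by
  have hc : A.Coprime (Nat.card B) := by rw [hB]; exact Nat.Coprime.pow_right m hA
  have h1 : A ^ Nat.totient (Nat.card B) ≡ 1 [MOD Nat.card B] := Nat.ModEq.pow_totient hc
  have h2 : w ^ (A + p ^ b * j) =
      (w ^ A) ^ (1 + p ^ b * (A ^ (Nat.totient (Nat.card B) - 1) * j)) := by
    rw [← pow_mul]
    refine (pow_eq_pow_iff_modEq).2 (Nat.ModEq.of_dvd (orderOf_dvd_natCard w) ?_)
    have h3 : A * (1 + p ^ b * (A ^ (Nat.totient (Nat.card B) - 1) * j)) =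
        A + A ^ Nat.totient (Nat.card B) * (p ^ b * j) := by
      have : A ^ Nat.totient (Nat.card B) = A * A ^ (Nat.totient (Nat.card B) - 1) := by
        rw [← pow_succ', Nat.sub_add_cancel (Nat.totient_pos.2 Nat.card_pos)]
      rw [this]
      ring
    rw [h3]
    have h4 := (h1.mul_right (p ^ b * j)).add_left A
    rw [one_mul] at h4
    exact h4.symm
  rw [h2, hφ]

theorem fourier {B : Type} [CommGroup B] [Fintype B] (F : B → ℂ) (x : B) :
    F x = ∑ μ : Lin B, ((Fintype.card B : ℂ)⁻¹ * ∑ y, F y * (((μ y)⁻¹ : ℂˣ) : ℂ)) *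
      ((μ x : ℂˣ) : ℂ) := by
  classical
  have hB : (Fintype.card B : ℂ) ≠ 0 := by
    exact_mod_cast Fintype.card_ne_zero
  have h1 : ∑ μ : Lin B, ((Fintype.card B : ℂ)⁻¹ * ∑ y, F y * (((μ y)⁻¹ : ℂˣ) : ℂ)) *
      ((μ x : ℂˣ) : ℂ) =
      (Fintype.card B : ℂ)⁻¹ * ∑ y, F y * ∑ μ : Lin B, ((μ (y⁻¹ * x) : ℂˣ) : ℂ) := by
    calc ∑ μ : Lin B, ((Fintype.card B : ℂ)⁻¹ * ∑ y, F y * (((μ y)⁻¹ : ℂˣ) : ℂ)) *
          ((μ x : ℂˣ) : ℂ)
        = ∑ μ : Lin B, (Fintype.card B : ℂ)⁻¹ * ∑ y, F y * ((μ (y⁻¹ * x) : ℂˣ) : ℂ) := by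
          refine sum_congr rfl fun μ _ => ?_
          rw [mul_assoc, sum_mul]
          congr 1
          refine sum_congr rfl fun y _ => ?_
          rw [map_mul, map_inv, Units.val_mul, mul_assoc]
      _ = (Fintype.card B : ℂ)⁻¹ * ∑ μ : Lin B, ∑ y, F y * ((μ (y⁻¹ * x) : ℂˣ) : ℂ) := by
          rw [mul_sum]
      _ = (Fintype.card B : ℂ)⁻¹ * ∑ y, ∑ μ : Lin B, F y * ((μ (y⁻¹ * x) : ℂˣ) : ℂ) := by
          rw [sum_comm]
      _ = (Fintype.card B : ℂ)⁻¹ * ∑ y, F y * ∑ μ : Lin B, ((μ (y⁻¹ * x) : ℂˣ) : ℂ) := by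
          congr 1
          exact sum_congr rfl fun y _ => (mul_sum _ _ _).symm
  rw [h1]
  have h2 : ∀ y : B, F y * ∑ μ : Lin B, ((μ (y⁻¹ * x) : ℂˣ) : ℂ) =
      if y = x then F x * (Fintype.card B : ℂ) else 0 := by
    intro y
    rw [W.SCAM.sum_lin]
    by_cases h : y = x
    · subst h
      rw [inv_mul_cancel, if_pos rfl, if_pos rfl]
    · rw [if_neg h, if_neg (fun h3 => h (inv_mul_eq_one.1 h3)), mul_zero]
  rw [sum_congr rfl fun y _ => h2 y, sum_ite_eq' univ x, if_pos (mem_univ x)]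
  field_simp

/-- the function `am` in terms of a character of `B` -/
noncomputable def am0 (p b : ℕ) {B : Type} [CommGroup B] (φ : B → ℂ) (k : Lin B) (w : B) : ℂ :=
  ∑ i ∈ range p, (((k w)⁻¹ : ℂˣ) : ℂ) ^ i * φ (w ^ (1 + p ^ (b - 1) * i))

theorem main (hG2 : W.SpecGCA2) {p b : ℕ} (hp : p.Prime) (hb : 2 ≤ b) {B : Type} [CommGroup B]
    [Fintype B] {m : ℕ} (hB : Nat.card B = p ^ m) (φ : B → ℂ) (hG : GC φ)
    (hφ : ∀ (t : ℕ) (w : B), φ (w ^ (1 + p ^ b * t)) = φ w) (k : Lin B) (hk : k ^ p = 1) :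
    ∃ n : Lin B → ℂ, (∀ μ, IsIntegral ℤ (n μ)) ∧
    (∀ (μ : Lin B) (i : ℕ), n (μ ^ (1 + p ^ (b - 1) * i) * (k ^ i)⁻¹) = n μ) ∧
    (∀ μ : Lin B, μ ^ p ^ (b - 1) = k → ∃ c : ℂ, IsIntegral ℤ c ∧ n μ = p * c) ∧
    (∀ w : B, am0 p b φ k w = ∑ μ : Lin B, n μ * ((μ w : ℂˣ) : ℂ)) := by
  obtain ⟨gadd, gmul, gsmul, gcon, gsum, gcomp, gint, gavg⟩ := hG2
  have hkp : ∀ w, k w ^ p = 1 := fun w => by rw [← Lin.pow_apply, hk, Lin.one_apply]
  have hkq : ∀ w, k w ^ p ^ (b - 1) = 1 := fun w => by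
    rw [show b - 1 = (b - 2) + 1 by omega, pow_succ', pow_mul, hkp, one_pow]
  have hcop : ∀ i, (1 + p ^ (b - 1) * i).Coprime p := by
    intro i
    rw [Nat.coprime_comm, Nat.Prime.coprime_iff_not_dvd hp]
    intro h
    rw [Nat.dvd_add_left] at h
    · exact hp.one_lt.ne' (Nat.dvd_one.mp h)
    · exact Dvd.dvd.mul_right (dvd_pow_self p (by omega)) _
  have hcopB : ∀ i, (Nat.card B).Coprime (1 + p ^ (b - 1) * i) := fun i => by
    rw [hB]; exact (Nat.Coprime.pow_right m (hcop i)).symm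
  have hbb : p ^ (b - 1) * p ^ (b - 1) = p ^ b * p ^ (b - 2) := by
    rw [← pow_add, ← pow_add]; congr 1; omega
  have hpb : p ^ (b - 1) * p = p ^ b := by
    rw [← pow_succ]; congr 1; omega
  -- periodicity
  have hper : ∀ (w : B) (j : ℕ), (((k w)⁻¹ : ℂˣ) : ℂ) ^ (j + p) *
      φ (w ^ (1 + p ^ (b - 1) * (j + p))) =
      (((k w)⁻¹ : ℂˣ) : ℂ) ^ j * φ (w ^ (1 + p ^ (b - 1) * j)) := by
    intro w j
    have h1 : (((k w)⁻¹ : ℂˣ) : ℂ) ^ p = 1 := by
      rw [← Units.val_pow_eq_pow_val, inv_pow, hkp, inv_one, Units.val_one]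
    have h2 : 1 + p ^ (b - 1) * (j + p) = (1 + p ^ (b - 1) * j) + p ^ b * 1 := by
      rw [← hpb]; ring
    rw [pow_add, h1, mul_one, h2, twist hB φ hφ _ (hcop j)]
  have hk1 : ∀ (w : B) (i : ℕ), k (w ^ (1 + p ^ (b - 1) * i)) = k w := by
    intro w i
    rw [map_pow, pow_add, pow_one, pow_mul, hkq, one_pow, mul_one]
  have ham : ∀ (w : B) (i : ℕ), (((k w)⁻¹ : ℂˣ) : ℂ) ^ i *
      am0 p b φ k (w ^ (1 + p ^ (b - 1) * i)) = am0 p b φ k w := by
    intro w i
    unfold am0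
    have hs := sum_shift (fun j => (((k w)⁻¹ : ℂˣ) : ℂ) ^ j * φ (w ^ (1 + p ^ (b - 1) * j))) p
      (hper w) i
    rw [hk1, mul_sum, ← hs]
    refine sum_congr rfl fun j _ => ?_
    show _ = (((k w)⁻¹ : ℂˣ) : ℂ) ^ (i + j) * φ (w ^ (1 + p ^ (b - 1) * (i + j)))
    rw [← mul_assoc, ← pow_add, ← pow_mul]
    have h2 : (1 + p ^ (b - 1) * i) * (1 + p ^ (b - 1) * j) =
        (1 + p ^ (b - 1) * (i + j)) + p ^ b * (p ^ (b - 2) * (i * j)) := by
      have : p ^ (b - 1) * i * (p ^ (b - 1) * j) = p ^ b * p ^ (b - 2) * (i * j) := by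
        rw [← hbb]; ring
      calc (1 + p ^ (b - 1) * i) * (1 + p ^ (b - 1) * j)
          = 1 + p ^ (b - 1) * (i + j) + p ^ (b - 1) * i * (p ^ (b - 1) * j) := by ring
        _ = _ := by rw [this]; ring
    rw [h2, twist hB φ hφ _ (hcop _)]
  have hchar : ∀ (μ : Lin B), GC fun w => ((μ w : ℂˣ) : ℂ) := fun μ => by
    refine Submodule.subset_span ?_
    exact isCharacter_linear μ
  have hGam : GC (am0 p b φ k) := by
    unfold am0
    refine gsum (range p) (fun i w => (((k w)⁻¹ : ℂˣ) : ℂ) ^ i *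
      φ (w ^ (1 + p ^ (b - 1) * i))) fun i _ => ?_
    refine gmul _ _ ?_ (gcomp (powMonoidHom (1 + p ^ (b - 1) * i)) φ hG)
    have h1 : (fun w => (((k w)⁻¹ : ℂˣ) : ℂ) ^ i) = fun w => ((((k⁻¹) ^ i) w : ℂˣ) : ℂ) := by
      funext w
      rw [Lin.pow_apply, Lin.inv_apply, Units.val_pow_eq_pow_val]
    rw [h1]
    exact hchar _
  have hreidx : ∀ (F : B → ℂ) (i : ℕ), ∑ w, F (w ^ (1 + p ^ (b - 1) * i)) = ∑ w, F w := by
    intro F i
    refine Fintype.sum_equiv (powCoprime (hcopB i)) _ _ fun x => ?_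
    rw [powCoprime_apply]
  refine ⟨fun μ => (Fintype.card B : ℂ)⁻¹ * ∑ y, am0 p b φ k y * (((μ y)⁻¹ : ℂˣ) : ℂ),
    ?_, ?_, ?_, ?_⟩
  · intro μ
    refine gavg _ (gmul _ _ hGam ?_)
    exact hchar μ⁻¹
  · intro μ i
    show (Fintype.card B : ℂ)⁻¹ * _ = (Fintype.card B : ℂ)⁻¹ * _
    congr 1
    rw [← hreidx (fun y => am0 p b φ k y * (((μ y)⁻¹ : ℂˣ) : ℂ)) i]
    refine sum_congr rfl fun w _ => ?_
    rw [← ham w i, Lin.mul_apply, Lin.pow_apply, Lin.inv_apply, Lin.pow_apply, map_pow]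
    have h1 : (((μ w ^ (1 + p ^ (b - 1) * i) * (k w ^ i)⁻¹)⁻¹ : ℂˣ) : ℂ) =
        ((k w : ℂˣ) : ℂ) ^ i * (((μ w ^ (1 + p ^ (b - 1) * i))⁻¹ : ℂˣ) : ℂ) := by
      rw [mul_inv, inv_inv, Units.val_mul, Units.val_pow_eq_pow_val, mul_comm]
    have h2 : (((k w)⁻¹ : ℂˣ) : ℂ) ^ i * ((k w : ℂˣ) : ℂ) ^ i = 1 := by
      rw [← mul_pow, ← Units.val_mul, inv_mul_cancel, Units.val_one, one_pow]
    rw [h1]
    calc (((k w)⁻¹ : ℂˣ) : ℂ) ^ i * am0 p b φ k (w ^ (1 + p ^ (b - 1) * i)) *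
          (((k w : ℂˣ) : ℂ) ^ i * (((μ w ^ (1 + p ^ (b - 1) * i))⁻¹ : ℂˣ) : ℂ))
        = ((((k w)⁻¹ : ℂˣ) : ℂ) ^ i * ((k w : ℂˣ) : ℂ) ^ i) *
          (am0 p b φ k (w ^ (1 + p ^ (b - 1) * i)) *
            (((μ w ^ (1 + p ^ (b - 1) * i))⁻¹ : ℂˣ) : ℂ)) := by ring
      _ = _ := by rw [h2, one_mul]
  · intro μ hμ
    refine ⟨(Fintype.card B : ℂ)⁻¹ * ∑ y, φ y * (((μ y)⁻¹ : ℂˣ) : ℂ), ?_, ?_⟩
    · exact gavg _ (gmul _ _ hG (hchar μ⁻¹))
    · show (Fintype.card B : ℂ)⁻¹ * ∑ y, am0 p b φ k y * (((μ y)⁻¹ : ℂˣ) : ℂ) = _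
      have h1 : ∑ y, am0 p b φ k y * (((μ y)⁻¹ : ℂˣ) : ℂ) =
          ∑ i ∈ range p, ∑ y, φ (y ^ (1 + p ^ (b - 1) * i)) *
            (((μ (y ^ (1 + p ^ (b - 1) * i)))⁻¹ : ℂˣ) : ℂ) := by
        rw [sum_comm]
        refine sum_congr rfl fun y _ => ?_
        unfold am0
        rw [sum_mul]
        refine sum_congr rfl fun i _ => ?_
        have h2 : μ y ^ p ^ (b - 1) = k y := by rw [← Lin.pow_apply, hμ]
        have h3 : μ (y ^ (1 + p ^ (b - 1) * i)) = μ y * k y ^ i := by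
          rw [map_pow, pow_add, pow_one, pow_mul, h2]
        rw [h3, mul_inv, Units.val_mul, ← inv_pow, Units.val_pow_eq_pow_val]
        ring
      rw [h1, sum_congr rfl fun i _ => hreidx (fun y => φ y * (((μ y)⁻¹ : ℂˣ) : ℂ)) i, sum_const,
        card_range, nsmul_eq_mul]
      ring
  · intro w
    exact fourier _ w

end AM1

theorem specAM1 : SpecAM1 := by
  intro p b hp hb P _ _ hP Q _ φ hG hφ k hk
  have hfact : Fact p.Prime := ⟨hp⟩
  obtain ⟨m, hm⟩ := (IsPGroup.iff_card (p := p) (G := Q)).1 (hP.to_subgroup Q)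
  have hk' : (resL Q k) ^ p = 1 := by
    apply Lin.ext
    intro w
    rw [Lin.pow_apply, Lin.one_apply, resL_apply, ← Lin.pow_apply, hk, Lin.one_apply]
  exact AM1.main (W.specGCA2 W.specGCA1) hp hb hm φ hG hφ (resL Q k) hk'

end Pool.Agent.Lib.MP_1aae89_al.W3
end

section
/-!
# Module BAS: the beginning of the chain
-/
set_option autoImplicit false

namespace Pool.Agent.Lib.MP_1aae89_al.W3

theorem specBAS (hISO : SpecISO) (hGPG : SpecGPG) (hREC : SpecREC) : SpecBAS := by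
  intro p b hp hb M _ _ P hP K hK hFxd
  have hn : (K.subgroupOf (K ⊔ P)).Normal := by
    rw [Subgroup.normal_subgroupOf_iff_le_normalizer le_sup_left]
    exact sup_le Subgroup.le_normalizer (Subgroup.le_normalizer_iff.2 hK)
  refine hREC p b hp hb (K.subgroupOf (K ⊔ P)) ⟨hn, Or.inl ?_, ?_⟩
  · exact (hISO p b (Subgroup.subgroupOfEquivOfLe
      (le_sup_left : K ≤ K ⊔ P)).symm).2.1 hFxd
  · intro _
    have hsup : K.subgroupOf (K ⊔ P) ⊔ P.subgroupOf (K ⊔ P) = ⊤ := by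
      rw [← Subgroup.subgroupOf_sup le_sup_left le_sup_right, Subgroup.subgroupOf_self]
    let f : P.subgroupOf (K ⊔ P) →* (↥(K ⊔ P) ⧸ K.subgroupOf (K ⊔ P)) :=
      (QuotientGroup.mk' (K.subgroupOf (K ⊔ P))).comp (P.subgroupOf (K ⊔ P)).subtype
    have hf : Function.Surjective f := by
      intro z
      obtain ⟨y, rfl⟩ := QuotientGroup.mk'_surjective (K.subgroupOf (K ⊔ P)) z
      have hy : y ∈ K.subgroupOf (K ⊔ P) ⊔ P.subgroupOf (K ⊔ P) := by
        rw [hsup]
        exact Subgroup.mem_top y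
      obtain ⟨k, hk, x, hx, rfl⟩ := Subgroup.mem_sup_of_normal_left.1 hy
      refine ⟨⟨x, hx⟩, ?_⟩
      change (QuotientGroup.mk' (K.subgroupOf (K ⊔ P))) x = _
      have hk1 : (QuotientGroup.mk' (K.subgroupOf (K ⊔ P))) k = 1 :=
        (QuotientGroup.eq_one_iff k).2 hk
      rw [map_mul, hk1, one_mul]
    have hdvd := Subgroup.card_dvd_of_surjective f hf
    have hcard : Nat.card (P.subgroupOf (K ⊔ P)) = p ^ (Nat.card M).factorization p := by
      rw [← hP]
      exact Nat.card_congr (Subgroup.subgroupOfEquivOfLe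
        (le_sup_right : P ≤ K ⊔ P)).toEquiv
    rw [hcard] at hdvd
    obtain ⟨e, -, he⟩ := (Nat.dvd_prime_pow hp).1 hdvd
    exact hGPG p b hp hb e he

end Pool.Agent.Lib.MP_1aae89_al.W3
end

section
/-!
# Module CA1: case I of the reduction
-/
set_option autoImplicit false

namespace Pool.Agent.Lib.MP_1aae89_al.W3

open Pool.Agent.Lib.MP_1aae89_al Pool.Agent.Lib.MP_1aae89_al.BF Finset
open Pool.Agent.Lib.MP1aae89 (Pex)

/-- the image of a Sylow subgroup is a Sylow subgroup -/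
theorem CA1_card {p : ℕ} (hp : p.Prime) {Y : Type} [Group Y] [Finite Y] (H0 P' : Subgroup Y)
    [H0.Normal] (hP : Nat.card P' = p ^ (Nat.card Y).factorization p) :
    Nat.card (P'.map (QuotientGroup.mk' H0)) = p ^ (Nat.card (Y ⧸ H0)).factorization p := by
  have : Fact p.Prime := ⟨hp⟩
  let S : Sylow p Y := Sylow.ofCard P' hP
  let S' : Sylow p (Y ⧸ H0) := S.mapSurjective (QuotientGroup.mk'_surjective H0)
  have h1 := S'.card_eq_multiplicity
  exact h1

theorem specCA1 (hPRM : SpecPRM) (hPWL : SpecPWL) (hCMU : SpecCMU) (hKTR : SpecKTR)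
    (hQDL : SpecQDL) : SpecCA1 := by
  intro p hp L s0 hL hpex b hb Y _ _ hY H0 P' hH0 hP e m he Z A hSch hZ hFZ hFA hA K hK hne hIC
  classical
  have : Fintype Y := Fintype.ofFinite Y
  have : Fintype P' := Fintype.ofFinite P'
  have hYL : ∀ y : Y, y ^ L = 1 := by
    intro y
    obtain ⟨c, hc⟩ := hY
    rw [hc, pow_mul, pow_card_eq_one', one_pow]
  have hPpow : ∀ x : P', (x : Y) ^ p ^ (Nat.card Y).factorization p = 1 := by
    intro x
    have h1 : x ^ Nat.card P' = 1 := pow_card_eq_one'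
    rw [hP] at h1
    have h2 := congrArg (Subtype.val) h1
    rw [Subgroup.coe_pow] at h2
    exact h2
  have hPs0 : ∀ x : P', (x : Y) ^ s0 = x := fun x =>
    (hPRM p hp L s0 hL hpex).2.1 (x : Y) _ (hYL x) (hPpow x)
  have hζ : IsCharacter fun x : P' => (Z x).trace := (isCharacter_trace Z).comp P'.subtype
  have ha : IsCharacter fun x : P' => (A x).trace := (isCharacter_trace A).comp P'.subtype
  have hFA2 := hPWL p hp L s0 hL hpex b hb (fun y => (A y).trace) hYL hFA hA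
  have h1 := hCMU p hp _ hP _ _ hζ ha b hb (by
    intro t x
    have h4 := hFA2 t (x : Y)
    simp only at h4
    have h5 : s0 * p ^ (b - 1) * t = s0 * (p ^ (b - 1) * t) := by ring
    rw [h5, pow_add, pow_mul, hPs0 x, ← pow_add] at h4
    rw [Subgroup.coe_pow]
    exact h4) m (by
      change (A ((1 : P') : Y)).trace = m
      rw [Subgroup.coe_one, map_one, Matrix.trace_one, Fintype.card_fin]) (resL P' K)
  refine (h1.dvd_iff dvd_rfl).2 (dvd_mul_of_dvd_right ?_ _)
  by_contra hdl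
  have hdl0 : dl (p ^ (b - 1)) (fun x : P' => (Z x).trace) (resL P' K) ≠ 0 := by
    intro h
    rw [h] at hdl
    exact hdl (dvd_zero p)
  have hKH : ∀ h ∈ H0, K h = 1 := by
    refine (hKTR p hp H0 P' hP (fun y => (Z y).trace) (isCharacter_trace Z) ?_).1 K hK _ hdl0
    intro x h hh
    rw [map_mul, hZ h hh, mul_one]
  apply hdl
  -- the quotient
  let Zq : Y ⧸ H0 →* Matrix (Fin e) (Fin e) ℂ := QuotientGroup.lift H0 Z fun h hh => hZ h hh
  let Kq : Lin (Y ⧸ H0) := QuotientGroup.lift H0 (K : Y →* ℂˣ) fun h hh => hKH h hh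
  have hZq : ∀ y : Y, Zq (y : Y ⧸ H0) = Z y := fun y => rfl
  have hKq : ∀ y : Y, Kq (y : Y ⧸ H0) = K y := fun y => rfl
  have hcard := CA1_card hp H0 P' hP
  have hSq : Sch Zq := fun T hT => hSch T fun y => hT (y : Y ⧸ H0)
  have hFq : FX p s0 b (fun y => (Zq y).trace) := by
    intro t y
    obtain ⟨y, rfl⟩ := QuotientGroup.mk_surjective y
    exact hFZ t y
  have hKp : Kq ^ p = 1 := by
    refine Lin.ext fun y => ?_
    obtain ⟨y, rfl⟩ := QuotientGroup.mk_surjective y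
    rw [Lin.pow_apply, hKq, ← Lin.pow_apply, hK]
    rfl
  have hneq : ∃ y, (Zq (y ^ (1 + s0 * p ^ (b - 1)))).trace ≠ (Kq y : ℂ) * (Zq y).trace := by
    by_contra hcon
    push Not at hcon
    obtain ⟨y, hy⟩ := hne
    apply hy
    have h2 : (Z (y ^ (1 + s0 * p ^ (b - 1)))).trace = ((K y : ℂˣ) : ℂ) * (Z y).trace :=
      hcon (y : Y ⧸ H0)
    rw [h2, hA y]
    ring
  have h6 := hIC L s0 hL ((Subgroup.card_quotient_dvd_card H0).trans hY) hpex
    (P'.map (QuotientGroup.mk' H0)) hcard e Zq hSq he hFq Kq hKp hneq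
  let π : P' →* P'.map (QuotientGroup.mk' H0) := (QuotientGroup.mk' H0).subgroupMap P'
  have hπ : Function.Surjective π := (QuotientGroup.mk' H0).subgroupMap_surjective P'
  have h7 := hQDL π hπ (p ^ (b - 1))
    (fun z : P'.map (QuotientGroup.mk' H0) => (Zq z).trace)
    ((isCharacter_trace Zq).comp (P'.map (QuotientGroup.mk' H0)).subtype) (resL _ Kq)
  have h8 : pb π (resL (P'.map (QuotientGroup.mk' H0)) Kq) = resL P' K := Lin.ext fun x => rfl
  rw [h8] at h7
  rw [← h7] at h6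
  exact h6

end Pool.Agent.Lib.MP_1aae89_al.W3
end

section
/-!
# Module CA2: case II of the reduction
-/
set_option autoImplicit false

namespace Pool.Agent.Lib.MP_1aae89_al.W3

open Pool.Agent.Lib.MP_1aae89_al Pool.Agent.Lib.MP_1aae89_al.BF Finset
open Pool.Agent.Lib.MP1aae89 (Pex)

/-- an intermediate group of `p'`-index -/
theorem CA2_fac {p : ℕ} (hp : p.Prime) {Y : Type} [Group Y] [Finite Y] (W P' : Subgroup Y)
    (hle : P' ≤ W) (hP : Nat.card P' = p ^ (Nat.card Y).factorization p) :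
    (Nat.card W).factorization p = (Nat.card Y).factorization p := by
  refine le_antisymm ?_ ?_
  · exact (Nat.factorization_le_iff_dvd Nat.card_pos.ne' Nat.card_pos.ne').2
      (Subgroup.card_subgroup_dvd_card W) p
  · have h1 : p ^ (Nat.card Y).factorization p ∣ Nat.card W := by
      rw [← hP]
      exact Subgroup.card_dvd_of_le hle
    exact (hp.pow_dvd_iff_le_factorization Nat.card_pos.ne').1 h1

theorem specCA2 (hMUL : SpecMUL) (hKTR : SpecKTR) (hEXL : SpecEXL) (hDT2 : SpecDT2)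
    (hQDL : SpecQDL) (hSUG : SpecSUG) (hPRM : SpecPRM) : SpecCA2 := by
  intro p hp L s0 hL hpex b hb Y _ _ hY H0 P' hH0 hP e m hm Z A hZ hSch hdet hFX hex K hK hIC
  classical
  have : Fintype Y := Fintype.ofFinite Y
  have : Fintype P' := Fintype.ofFinite P'
  have hYL : ∀ y : Y, y ^ L = 1 := by
    intro y
    obtain ⟨c, hc⟩ := hY
    rw [hc, pow_mul, pow_card_eq_one', one_pow]
  have hPpow : ∀ x : P', (x : Y) ^ p ^ (Nat.card Y).factorization p = 1 := by
    intro x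
    have h1 : x ^ Nat.card P' = 1 := pow_card_eq_one'
    rw [hP] at h1
    have h2 := congrArg (Subtype.val) h1
    rw [Subgroup.coe_pow] at h2
    exact h2
  have hPs0 : ∀ x : P', (x : Y) ^ s0 = x := fun x =>
    (hPRM p hp L s0 hL hpex).2.1 (x : Y) _ (hYL x) (hPpow x)
  have hζ : IsCharacter fun x : P' => (Z x).trace := (isCharacter_trace Z).comp P'.subtype
  have ha : IsCharacter fun x : P' => (A x).trace := (isCharacter_trace A).comp P'.subtype
  have h1 := hMUL p hp _ hP _ _ hζ ha (p ^ (b - 1)) (dvd_pow_self p (by omega)) (resL P' K)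
  refine (h1.dvd_iff dvd_rfl).2 (Finset.dvd_sum fun η _ => ?_)
  by_cases hη : ml (fun x : P' => (Z x).trace) η = 0
  · rw [hη, zero_mul]
    exact dvd_zero p
  refine dvd_mul_of_dvd_right ?_ _
  -- `η` is trivial on `P' ∩ H0`
  have hη2 : ∀ x : P', (x : Y) ∈ H0 → η x = 1 := by
    refine (hKTR p hp H0 P' hP (fun y => (Z y).trace) (isCharacter_trace Z) ?_).2 η hη
    intro x h hh
    change (Z (x * h)).trace = (Z x).trace
    rw [map_mul, hZ h hh, mul_one]
  by_cases hcase : (resL P' K * (η ^ p ^ (b - 1))⁻¹) ^ p = 1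
  · obtain ⟨η', hη'1, hη'2⟩ := hEXL H0 P' η hη2
    have hle : P' ≤ H0 ⊔ P' := le_sup_right
    have hle0 : H0 ≤ H0 ⊔ P' := le_sup_left
    have hfac := CA2_fac hp (H0 ⊔ P') P' hle hP
    set K' : Lin ↥(H0 ⊔ P') := resL (H0 ⊔ P') K * (η' ^ p ^ (b - 1))⁻¹ with hK'
    have hK'P : ∀ (x : P') (z : ↥(H0 ⊔ P')), (z : Y) = x →
        K' z = (resL P' K * (η ^ p ^ (b - 1))⁻¹) x := by
      intro x z hz
      rw [hK', Lin.mul_apply, Lin.mul_apply, Lin.inv_apply, Lin.inv_apply, Lin.pow_apply,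
        Lin.pow_apply, resL_apply, resL_apply, hη'2 x z hz, hz]
    have hK'H : ∀ z : ↥(H0 ⊔ P'), (z : Y) ∈ H0 → K' z = K (z : Y) := by
      intro z hz
      rw [hK', Lin.mul_apply, Lin.inv_apply, Lin.pow_apply, resL_apply, hη'1 z hz, one_pow,
        inv_one, mul_one]
    have hKp : ∀ y : Y, K y ^ p = 1 := by
      intro y
      rw [← Lin.pow_apply, hK]
      rfl
    have hK'p : K' ^ p = 1 := by
      refine Lin.ext fun z => ?_
      rw [Lin.pow_apply, Lin.one_apply]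
      obtain ⟨h, hh, x, hx, hz⟩ := Subgroup.mem_sup_of_normal_left.1 z.2
      have hz' : z = (⟨h, hle0 hh⟩ : ↥(H0 ⊔ P')) * ⟨x, hle hx⟩ := Subtype.ext hz.symm
      rw [hz', map_mul, mul_pow, hK'H _ hh, hK'P ⟨x, hx⟩ _ rfl, hKp, one_mul, ← Lin.pow_apply,
        hcase, Lin.one_apply]
    -- the Sylow subgroup of `H0 P'`
    have hcard : Nat.card (P'.subgroupOf (H0 ⊔ P')) =
        p ^ (Nat.card ↥(H0 ⊔ P')).factorization p := by
      rw [hfac, ← hP]
      exact Nat.card_congr (Subgroup.subgroupOfEquivOfLe hle).toEquiv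
    have hSch2 : Sch (A.comp (H0 ⊔ P').subtype) := fun T hT =>
      hSch T fun h => hT ⟨(h : Y), hle0 h.2⟩
    have hne : ∃ y : ↥(H0 ⊔ P'), ((A.comp (H0 ⊔ P').subtype) (y ^ (1 + s0 * p ^ (b - 1)))).trace ≠
        (K' y : ℂ) * ((A.comp (H0 ⊔ P').subtype) y).trace := by
      by_contra hcon
      push Not at hcon
      have h2 : ∀ h : H0, ((A.comp H0.subtype) (h ^ (1 + s0 * p ^ (b - 1)))).trace =
          ((resL H0 K h : ℂˣ) : ℂ) * ((A.comp H0.subtype) h).trace := by
        intro h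
        have h3 := hcon ⟨(h : Y), hle0 h.2⟩
        rw [hK'H _ h.2] at h3
        exact h3
      have h4 := hDT2 p hp L s0 hL hpex ((Subgroup.card_subgroup_dvd_card H0).trans hY) m
        (A.comp H0.subtype) hm hSch (fun y => hdet y) (resL H0 K)
        (Lin.ext fun y => by
          rw [Lin.pow_apply, resL_apply, hKp]
          rfl) (b - 1) (by omega) h2
      obtain ⟨h, hh, hne⟩ := hex
      apply hne
      have h5 := h2 ⟨h, hh⟩
      rw [h4, Units.val_one, one_mul] at h5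
      exact h5
    have h6 := hIC L s0 hL ((Subgroup.card_subgroup_dvd_card _).trans hY) hpex
      (P'.subgroupOf (H0 ⊔ P')) hcard m (A.comp (H0 ⊔ P').subtype) hSch2 hm
      (fun t y => hFX t (y : Y)) K' hK'p hne
    let π : P' →* P'.subgroupOf (H0 ⊔ P') :=
      (Subgroup.subgroupOfEquivOfLe hle).symm.toMonoidHom
    have hπ : ∀ x : P', ((π x : ↥(H0 ⊔ P')) : Y) = x := fun x => rfl
    have h7 := hQDL π (Subgroup.subgroupOfEquivOfLe hle).symm.surjective (p ^ (b - 1))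
      (fun z : P'.subgroupOf (H0 ⊔ P') => ((A.comp (H0 ⊔ P').subtype) z).trace)
      ((isCharacter_trace (A.comp (H0 ⊔ P').subtype)).comp (P'.subgroupOf (H0 ⊔ P')).subtype)
      (resL _ K')
    have h8 : pb π (resL (P'.subgroupOf (H0 ⊔ P')) K') = resL P' K * (η ^ p ^ (b - 1))⁻¹ := by
      refine Lin.ext fun x => ?_
      rw [pb_apply, resL_apply]
      exact hK'P x _ (hπ x)
    rw [h8] at h7
    rw [← h7] at h6
    exact h6
  · refine hSUG p hp _ hP _ b b hb (by omega) ?_ _ ?_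
    · intro t x
      have h4 := hFX t (x : Y)
      simp only at h4
      have h5 : s0 * p ^ b * t = s0 * (p ^ b * t) := by ring
      rw [h5, pow_add, pow_mul, hPs0 x, ← pow_add] at h4
      rw [Subgroup.coe_pow]
      exact h4
    · have h9 : b + 1 - b = 1 := by omega
      rw [h9, pow_one]
      exact hcase

end Pool.Agent.Lib.MP_1aae89_al.W3
end

section
/-!
# CHN: the chain
-/
set_option autoImplicit false

namespace Pool.Agent.Lib.MP_1aae89_al.W3

open Pool.Agent.Lib.MP_1aae89_al Pool.Agent.Lib.MP_1aae89_al.BF Finset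

theorem specCHN (hBAS : SpecBAS) (hSTE : SpecSTE) (hISO : SpecISO) : SpecCHN := by
  intro p b hp hb M _ _ P hP m K hle hnorm hPn hm h0 hst
  have key : ∀ i ≤ m, ∀ b' : ℕ, b ≤ b' → IC p b' ↥(K i ⊔ P) := by
    intro i
    induction i with
    | zero =>
      intro _
      exact hBAS p b hp hb P hP (K 0) (hPn 0 (Nat.zero_le m)) h0
    | succ i ih =>
      intro hi
      exact hSTE p b hp hb P hP (K i) (K (i + 1)) (hle i (by omega)) (hnorm i (by omega))
        (hPn i (by omega)) (hPn (i + 1) hi) (hst i (by omega)) (ih (by omega))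
  have h1 := key m le_rfl b le_rfl
  have h2 : (K m ⊔ P : Subgroup M) = ⊤ := by rw [hm]; exact top_sup_eq P
  have e : ↥(K m ⊔ P : Subgroup M) ≃* M :=
    (MulEquiv.subgroupCongr h2).trans Subgroup.topEquiv
  exact (hISO p b e).1 h1

end Pool.Agent.Lib.MP_1aae89_al.W3
end

section
/-!
# Module CJ2: complex conjugation
-/
set_option autoImplicit false

namespace Pool.Agent.Lib.MP_1aae89_al.W3

open Pool.Agent.Lib.MP_1aae89_al Pool.Agent.Lib.MP_1aae89_al.BF Finset
open Pool.Agent.Lib.MP1aae89 (Pex)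

theorem specCJ2 : SpecCJ2 := by
  intro p L s0 b X _ _ P χ K h y
  have hp := h.pp
  have : Fintype X := Fintype.ofFinite X
  have hK : ∀ z : X, ((K z : ℂˣ) : ℂ) ^ p = 1 := by
    intro z
    have h1 : (K ^ p) z = 1 := by rw [h.kp]; rfl
    have h2 : (K z) ^ p = 1 := h1
    rw [← Units.val_pow_eq_pow_val, h2, Units.val_one]
  have hconj : (starRingEnd ℂ) ((K y : ℂˣ) : ℂ) = ((K y⁻¹ : ℂˣ) : ℂ) := by
    rw [← Complex.inv_eq_conj (Complex.norm_eq_one_of_pow_eq_one (hK y) hp.ne_zero), map_inv,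
      Units.val_inv_eq_inv_val]
  unfold avK
  rw [map_mul, map_inv₀, map_natCast, map_sum]
  congr 1
  refine Finset.sum_congr rfl fun i _ => ?_
  rw [map_mul, map_pow, ← W.are_conj h.char, ← inv_pow]
  congr 2
  rw [Units.val_inv_eq_inv_val, Units.val_inv_eq_inv_val, map_inv₀, hconj]

end Pool.Agent.Lib.MP_1aae89_al.W3
end

section
/-!
# Module CMU of Theorem W3 (MP_1aae89_al): product with a character of low level
-/
set_option autoImplicit false

namespace Pool.Agent.Lib.MP_1aae89_al.W3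

open Pool.Agent.Lib.MP_1aae89_al Pool.Agent.Lib.MP_1aae89_al.BF Finset
open Pool.Agent.Lib.MP_1aae89_al.W (GC LD nR)
open Pool.Agent.Lib.MP1aae89 (Pex)

/-- CMU. -/
theorem specCMU (hMUL : SpecMUL) (hSUG : SpecSUG) (hSU0 : SpecSU0) : SpecCMU := by
  intro p hp P _ _ e hP ζ a hζ ha b hb hlev n hn k
  classical
  have hq : p ∣ p ^ (b - 1) := dvd_pow_self p (by omega)
  have h1 := hMUL p hp e hP a ζ ha hζ (p ^ (b - 1)) hq k
  have h2 : (fun x => ζ x * a x) = fun x => a x * ζ x := funext fun x => mul_comm _ _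
  rw [h2]
  refine h1.trans ?_
  have h3 : ∑ η : Lin P, ml a η * dl (p ^ (b - 1)) ζ (k * (η ^ p ^ (b - 1))⁻¹) =
      ∑ ω : Lin P, dl (p ^ (b - 1)) a ω * dl (p ^ (b - 1)) ζ (k * ω⁻¹) := by
    have hd : ∀ ω : Lin P, dl (p ^ (b - 1)) a ω =
        ∑ η : Lin P, open Classical in if η ^ p ^ (b - 1) = ω then ml a η else 0 := by
      intro ω
      unfold dl
      rw [Finset.sum_filter]
      refine Finset.sum_congr rfl fun η _ => ?_
      by_cases h : η ^ p ^ (b - 1) = ω
      · rw [if_pos h, if_pos h]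
      · rw [if_neg h, if_neg h]
    have hr : ∀ ω : Lin P, dl (p ^ (b - 1)) a ω * dl (p ^ (b - 1)) ζ (k * ω⁻¹) =
        ∑ η : Lin P, (open Classical in if η ^ p ^ (b - 1) = ω then ml a η else 0) *
          dl (p ^ (b - 1)) ζ (k * ω⁻¹) := by
      intro ω
      rw [hd, sum_mul]
    rw [Finset.sum_congr rfl fun ω _ => hr ω, sum_comm]
    refine Finset.sum_congr rfl fun η _ => ?_
    rw [Finset.sum_eq_single (η ^ p ^ (b - 1)), if_pos rfl]
    · intro ω _ hω
      rw [if_neg (Ne.symm hω), zero_mul]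
    · intro h
      exact absurd (mem_univ _) h
  rw [h3, ← add_sum_erase univ _ (mem_univ (1 : Lin P))]
  have h4 : dl (p ^ (b - 1)) a 1 * dl (p ^ (b - 1)) ζ (k * 1⁻¹) ≡
      n * dl (p ^ (b - 1)) ζ k [MOD p] := by
    rw [inv_one, mul_one]
    exact (hSU0 p hp e hP a ha b hb hlev n hn).mul_right _
  have h5 : ∑ ω ∈ univ.erase (1 : Lin P), dl (p ^ (b - 1)) a ω * dl (p ^ (b - 1)) ζ (k * ω⁻¹) ≡
      0 [MOD p] := by
    rw [Nat.modEq_zero_iff_dvd]
    refine Finset.dvd_sum fun ω hω => Dvd.dvd.mul_right ?_ _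
    refine hSUG p hp e hP a b (b - 1) hb (by omega) hlev ω ?_
    have h6 : b - 1 + 1 - b = 0 := by omega
    rw [h6, pow_zero, pow_one]
    exact (mem_erase.1 hω).1
  have h7 := h4.add h5
  rwa [add_zero] at h7

end Pool.Agent.Lib.MP_1aae89_al.W3
end

section
/-!
# Module EXA: extension of a power of a character to a nontrivial element of `An`
-/
set_option autoImplicit false

namespace Pool.Agent.Lib.MP_1aae89_al.W3

open Pool.Agent.Lib.MP_1aae89_al Pool.Agent.Lib.MP_1aae89_al.BF Finset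
open Pool.Agent.Lib.MP_1aae89_al.W (GC LD nR)
open Pool.Agent.Lib.MP1aae89 (Pex)

/-- kernel and image of `x ↦ x ^ p` on the group of `q`-th powers -/
theorem EXA.card_ker {P : Type} [CommGroup P] [Finite P] (q p : ℕ) :
    Nat.card {z : P // (∃ x : P, x ^ q = z) ∧ z ^ p = 1} *
      Nat.card {z : P // ∃ x : P, x ^ (q * p) = z} = Nat.card {z : P // ∃ x : P, x ^ q = z} := by
  set R : Subgroup P := (powMonoidHom q : P →* P).range with hR
  set f : R →* P := (powMonoidHom p : P →* P).comp R.subtype with hf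
  have h1 := f.ker.card_mul_index
  rw [Subgroup.index_ker] at h1
  have hRm : ∀ z : P, z ∈ R ↔ ∃ x : P, x ^ q = z := fun z => by
    rw [hR, MonoidHom.mem_range]
    exact Iff.rfl
  have h2 : Nat.card f.ker = Nat.card {z : P // (∃ x : P, x ^ q = z) ∧ z ^ p = 1} := by
    refine Nat.card_congr ⟨fun z => ⟨z.1.1, (hRm _).1 z.1.2, z.2⟩,
      fun z => ⟨⟨z.1, (hRm _).2 z.2.1⟩, z.2.2⟩, fun z => rfl, fun z => rfl⟩
  have h3 : Nat.card f.range = Nat.card {z : P // ∃ x : P, x ^ (q * p) = z} := by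
    have h4 : ∀ z : P, z ∈ f.range ↔ ∃ x : P, x ^ (q * p) = z := by
      intro z
      rw [MonoidHom.mem_range]
      constructor
      · rintro ⟨⟨y, hy⟩, rfl⟩
        obtain ⟨x, rfl⟩ := (hRm _).1 hy
        exact ⟨x, pow_mul x q p⟩
      · rintro ⟨x, rfl⟩
        exact ⟨⟨x ^ q, (hRm _).2 ⟨x, rfl⟩⟩, (pow_mul x q p).symm⟩
    exact Nat.card_congr ⟨fun z => ⟨z.1, (h4 _).1 z.2⟩, fun z => ⟨z.1, (h4 _).2 z.2⟩,
      fun z => rfl, fun z => rfl⟩
  have h4 : Nat.card R = Nat.card {z : P // ∃ x : P, x ^ q = z} :=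
    Nat.card_congr ⟨fun z => ⟨z.1, (hRm _).1 z.2⟩, fun z => ⟨z.1, (hRm _).2 z.2⟩,
      fun z => rfl, fun z => rfl⟩
  rw [h2, h3, h4] at h1
  exact h1

/-- the number of elements of `An` -/
theorem EXA.card_An (hDUA : SpecDUA) {p b : ℕ} (hp : p.Prime) (hb : 1 ≤ b) {P : Type} [CommGroup P]
    [Finite P] : (An p b P).card =
      Nat.card {z : P // (∃ x : P, x ^ p ^ (b - 1) = z) ∧ z ^ p = 1} := by
  have h1 := (hDUA p b hp hb (P := P)).2
  have h2 := EXA.card_ker (P := P) (p ^ (b - 1)) p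
  rw [← pow_succ, Nat.sub_add_cancel hb] at h2
  rw [← h2] at h1
  have h3 : 0 < Nat.card {z : P // ∃ x : P, x ^ p ^ b = z} :=
    haveI : Nonempty {z : P // ∃ x : P, x ^ p ^ b = z} := ⟨⟨1, 1, one_pow _⟩⟩
    Nat.card_pos
  exact Nat.eq_of_mul_eq_mul_right h3 h1

theorem EXA.mem_An {p b : ℕ} {P : Type} [Group P] [Finite P] {α : Lin P} :
    α ∈ An p b P ↔ ∀ x : P, (∃ v : P, x ^ p ^ (b - 1) = v ^ p ^ b) → α x = 1 := by
  classical
  unfold An
  rw [mem_filter]
  exact and_iff_right (mem_univ _)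

theorem specEXA (hDUA : SpecDUA) : SpecEXA := by
  classical
  intro p b hp hb P _ _ hP Q a ha ha1
  have : Fact p.Prime := ⟨hp⟩
  by_cases hinj : ∀ α ∈ An p b P, ∀ β ∈ An p b P, (∀ w : Q, α w = β w) → α = β
  · -- restriction is a bijection of `An p b P` onto `An p b Q`
    have hres : ∀ α ∈ An p b P, resL Q α ∈ An p b Q := by
      intro α hα
      rw [EXA.mem_An] at hα ⊢
      rintro w ⟨v, hv⟩
      have h1 : (w : P) ^ p ^ (b - 1) = (v : P) ^ p ^ b := by
        have := congrArg Subtype.val hv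
        simpa using this
      exact hα w ⟨v, h1⟩
    have hcard : (An p b Q).card ≤ (An p b P).card := by
      rw [EXA.card_An hDUA hp hb, EXA.card_An hDUA hp hb]
      refine Nat.card_le_card_of_injective
        (fun z : {z : Q // (∃ x : Q, x ^ p ^ (b - 1) = z) ∧ z ^ p = 1} =>
          (⟨z.1.1, ?_, ?_⟩ : {z : P // (∃ x : P, x ^ p ^ (b - 1) = z) ∧ z ^ p = 1})) ?_
      · obtain ⟨x, hx⟩ := z.2.1
        exact ⟨x, by rw [← hx]; rfl⟩
      · have := congrArg Subtype.val z.2.2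
        simpa using this
      · intro z z' h
        have h1 := congrArg Subtype.val h
        exact Subtype.ext (Subtype.ext h1)
    have himg : (An p b P).image (fun α => resL Q α) = An p b Q := by
      refine Finset.eq_of_subset_of_card_le ?_ ?_
      · intro β hβ
        obtain ⟨α, hα, rfl⟩ := Finset.mem_image.1 hβ
        exact hres α hα
      · rw [Finset.card_image_of_injOn]
        · exact hcard
        · intro α hα β hβ h
          refine hinj α hα β hβ fun w => ?_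
          exact congrArg (fun μ : Lin Q => μ w) h
    -- the power of `a` of order `p`
    have hex : ∃ m : ℕ, a ^ p ^ m = 1 := by
      obtain ⟨k, hk⟩ := (IsPGroup.iff_card).1 (hP.to_subgroup Q)
      refine ⟨k, ?_⟩
      apply Lin.ext
      intro x
      rw [Lin.pow_apply, ← map_pow, ← hk, pow_card_eq_one', map_one, Lin.one_apply]
    set m := Nat.find hex with hm
    have hm1 : a ^ p ^ m = 1 := Nat.find_spec hex
    have hm0 : m ≠ 0 := by
      intro h
      rw [h, pow_zero, pow_one] at hm1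
      exact ha1 hm1
    have hmm : a ^ p ^ (m - 1) ≠ 1 := Nat.find_min hex (by omega)
    have hmem : a ^ p ^ (m - 1) ∈ An p b Q := by
      rw [EXA.mem_An]
      rintro w ⟨v, hv⟩
      have h1 : (w * (v ^ p)⁻¹) ^ p ^ (b - 1) = 1 := by
        rw [mul_pow, hv, inv_pow, ← pow_mul, ← pow_succ', Nat.sub_add_cancel hb, mul_inv_cancel]
      have h2 := ha _ h1
      rw [map_mul, map_inv, map_pow, mul_inv_eq_one] at h2
      rw [Lin.pow_apply, h2, ← pow_mul, ← pow_succ', Nat.sub_add_cancel (by omega),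
        ← Lin.pow_apply, hm1, Lin.one_apply]
    rw [← himg] at hmem
    obtain ⟨α, hα, hαa⟩ := Finset.mem_image.1 hmem
    refine ⟨α, hα, ?_, p ^ (m - 1), ?_⟩
    · rintro rfl
      apply hmm
      rw [← hαa]
      rfl
    · intro w
      rw [← Lin.pow_apply, ← hαa]
      rfl
  · push Not at hinj
    obtain ⟨α, hα, β, hβ, h1, h2⟩ := hinj
    refine ⟨α * β⁻¹, ?_, ?_, 0, ?_⟩
    · rw [EXA.mem_An] at hα hβ ⊢
      intro x hx
      rw [Lin.mul_apply, Lin.inv_apply, hα x hx, hβ x hx, inv_one, mul_one]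
    · intro h
      exact h2 (mul_inv_eq_one.1 h)
    · intro w
      rw [pow_zero, Lin.mul_apply, Lin.inv_apply, h1 w, mul_inv_cancel]

end Pool.Agent.Lib.MP_1aae89_al.W3
end

section
/-!
# Module COR: the core of the integrality
-/
set_option autoImplicit false

namespace Pool.Agent.Lib.MP_1aae89_al.W3

open Pool.Agent.Lib.MP_1aae89_al Pool.Agent.Lib.MP_1aae89_al.BF Finset
open Pool.Agent.Lib.MP_1aae89_al.W (GC LD nR)
open Pool.Agent.Lib.MP1aae89 (Pex)

namespace COR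

/-- orthogonality -/
theorem sum_char {B : Type} [CommGroup B] [Fintype B] (ν : Lin B) :
    ∑ x : B, ((ν x : ℂˣ) : ℂ) = open Classical in if ν = 1 then (Fintype.card B : ℂ) else 0 := by
  classical
  split_ifs with h
  · subst h
    have h1 : ∀ x : B, (((1 : Lin B) x : ℂˣ) : ℂ) = 1 := fun x => by
      rw [Lin.one_apply, Units.val_one]
    rw [sum_congr rfl fun x _ => h1 x, sum_const, nsmul_eq_mul, mul_one, card_univ]
  · obtain ⟨x0, hx0⟩ : ∃ x0 : B, ν x0 ≠ 1 := by
      by_contra hcon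
      push Not at hcon
      exact h (Lin.ext hcon)
    have h1 : ∑ x : B, ((ν x : ℂˣ) : ℂ) = ∑ x : B, ((ν x0 : ℂˣ) : ℂ) * ((ν x : ℂˣ) : ℂ) := by
      refine (Fintype.sum_equiv (Equiv.mulLeft x0) _ _ fun x => ?_).symm
      rw [Equiv.coe_mulLeft, map_mul, Units.val_mul]
    rw [← mul_sum] at h1
    have h2 : (((ν x0 : ℂˣ) : ℂ) - 1) * ∑ x : B, ((ν x : ℂˣ) : ℂ) = 0 := by
      rw [sub_mul, one_mul, ← h1, sub_self]
    rcases mul_eq_zero.1 h2 with h3 | h3
    · exfalso
      apply hx0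
      apply Units.ext
      rw [Units.val_one]
      exact sub_eq_zero.1 h3
    · exact h3

theorem val_pow {B : Type} [Group B] [Fintype B] (ν : Lin B) (x : B) :
    ((ν x : ℂˣ) : ℂ) ^ Fintype.card B = 1 := by
  rw [← Units.val_pow_eq_pow_val, ← map_pow, pow_card_eq_one, map_one, Units.val_one]

theorem val_conj {B : Type} [Group B] [Fintype B] (ν : Lin B) (x : B) :
    (starRingEnd ℂ) ((ν x : ℂˣ) : ℂ) = (((ν x)⁻¹ : ℂˣ) : ℂ) := by
  rw [Units.val_inv_eq_inv_val]
  exact (Complex.inv_eq_conj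
    (Complex.norm_eq_one_of_pow_eq_one (val_pow ν x) Fintype.card_ne_zero)).symm

theorem val_int {B : Type} [Group B] [Fintype B] (ν : Lin B) (x : B) :
    IsIntegral ℤ ((ν x : ℂˣ) : ℂ) :=
  IsIntegral.of_pow Fintype.card_pos (by rw [val_pow]; exact isIntegral_one)

theorem inv_int {B : Type} [Group B] [Fintype B] (ν : Lin B) (x : B) :
    IsIntegral ℤ (((ν x)⁻¹ : ℂˣ) : ℂ) := val_int ν⁻¹ x

theorem conj_int {z : ℂ} (h : IsIntegral ℤ z) : IsIntegral ℤ ((starRingEnd ℂ) z) :=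
  h.map (starRingEnd ℂ).toIntAlgHom

theorem sum4 {W M L : Type} [Fintype W] [Fintype M] (A : Finset L) (a : L → W → ℂ)
    (b c : M → W → ℂ) :
    ∑ w, (∑ α ∈ A, a α w) * ((∑ μ, b μ w) * (∑ l, c l w)) =
      ∑ μ, ∑ α ∈ A, ∑ l, ∑ w, a α w * (b μ w * c l w) := by
  calc ∑ w, (∑ α ∈ A, a α w) * ((∑ μ, b μ w) * (∑ l, c l w))
      = ∑ w, ∑ α ∈ A, ∑ μ, ∑ l, a α w * (b μ w * c l w) := by
        refine sum_congr rfl fun w _ => ?_
        rw [sum_mul_sum, sum_mul_sum]
        refine sum_congr rfl fun α _ => sum_congr rfl fun μ _ => ?_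
        rw [mul_sum]
    _ = ∑ α ∈ A, ∑ w, ∑ μ, ∑ l, a α w * (b μ w * c l w) := sum_comm
    _ = ∑ α ∈ A, ∑ μ, ∑ w, ∑ l, a α w * (b μ w * c l w) :=
        sum_congr rfl fun α _ => sum_comm
    _ = ∑ α ∈ A, ∑ μ, ∑ l, ∑ w, a α w * (b μ w * c l w) :=
        sum_congr rfl fun α _ => sum_congr rfl fun μ _ => sum_comm
    _ = ∑ μ, ∑ α ∈ A, ∑ l, ∑ w, a α w * (b μ w * c l w) := sum_comm

end COR

open COR

theorem specCOR (hDUA : SpecDUA) (hEXA : SpecEXA) (hPSM : SpecPSM) (hAM1 : SpecAM1) :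
    SpecCOR := by
  classical
  intro p b hp hb P _ _ hP Q _ φ hφ hφb k hkp hkq u
  have : Fact p.Prime := ⟨hp⟩
  obtain ⟨n, hn1, hn2, hn3, hn4⟩ := hAM1 p b hp hb hP Q φ hφ hφb k hkp
  set q := p ^ (b - 1) with hq
  set A := An p b P with hA
  set κ := resL Q k with hκ
  have hp0 : (p : ℂ) ≠ 0 := by exact_mod_cast hp.ne_zero
  have hpq : p ∣ q := dvd_pow_self p (by omega)
  have hPSM' : ∀ {X : Type} (S : Finset X) (s : X → X) (k : ℕ),
      (∀ x ∈ S, s x ∈ S) → (∀ x ∈ S, s^[p ^ k] x = x) → (∀ x ∈ S, s x ≠ x) → ∀ F : X → ℂ,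
      (∀ x ∈ S, F (s x) = F x) → (∀ x ∈ S, IsIntegral ℤ (F x)) →
      IsIntegral ℤ ((p : ℂ)⁻¹ * ∑ x ∈ S, F x) := by
    intro X S s k h1 h2 h3 F h4 h5
    obtain ⟨c, hc, h6⟩ := hPSM p hp S s k h1 h2 h3 F h4 h5
    rw [h6, inv_mul_cancel_left₀ hp0]
    exact hc
  -- elements of `A`
  have hAp : ∀ α ∈ A, α ^ p = 1 := by
    intro α hα
    apply Lin.ext
    intro x
    rw [Lin.pow_apply, ← map_pow, Lin.one_apply]
    refine EXA.mem_An.1 hα (x ^ p) ⟨x, ?_⟩
    rw [← pow_mul, ← pow_succ', Nat.sub_add_cancel (by omega)]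
  have hAq : ∀ α ∈ A, α ^ q = 1 := by
    intro α hα
    obtain ⟨m, hm⟩ := hpq
    rw [hm, pow_mul, hAp α hα, one_pow]
  have hAmul : ∀ α ∈ A, ∀ β ∈ A, α * β ∈ A := by
    intro α hα β hβ
    rw [hA, EXA.mem_An] at hα hβ ⊢
    intro x hx
    rw [Lin.mul_apply, hα x hx, hβ x hx, mul_one]
  have hAinv : ∀ α ∈ A, α⁻¹ ∈ A := by
    intro α hα
    rw [hA, EXA.mem_An] at hα ⊢
    intro x hx
    rw [Lin.inv_apply, hα x hx, inv_one]
  have hκp : κ ^ p = 1 := by
    apply Lin.ext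
    intro x
    rw [Lin.pow_apply, hκ, resL_apply, ← Lin.pow_apply, hkp]
    rfl
  have hκq : κ ^ q = 1 := by
    obtain ⟨m, hm⟩ := hpq
    rw [hm, pow_mul, hκp, one_pow]
  obtain ⟨K, hK⟩ := (IsPGroup.iff_card).1 (hP.to_subgroup Q)
  have hpK : ∀ μ : Lin Q, μ ^ p ^ K = 1 := by
    intro μ
    apply Lin.ext
    intro x
    rw [Lin.pow_apply, ← map_pow, ← hK, pow_card_eq_one', map_one, Lin.one_apply]
  have hpow1 : ∀ μ : Lin Q, μ ^ ((1 + q) ^ (p ^ K)) = μ := by
    intro μ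
    have h1 : (1 + q) ^ (p ^ K) ≡ 1 [MOD p ^ K] := by
      have h2 : ((p : ℤ)) ∣ ((1 + q : ℕ) : ℤ) - 1 := by
        obtain ⟨m, hm⟩ := hpq
        exact ⟨m, by rw [hm]; push_cast; ring⟩
      have h3 := dvd_sub_pow_of_dvd_sub h2 K
      have h4 : ((p ^ K : ℕ) : ℤ) ∣ (((1 + q) ^ (p ^ K) : ℕ) : ℤ) - ((1 : ℕ) : ℤ) := by
        refine (dvd_trans ?_ h3).trans (dvd_of_eq ?_)
        · push_cast
          exact pow_dvd_pow _ (by omega)
        · push_cast
          rw [one_pow]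
      exact ((Nat.modEq_iff_dvd).2 h4).symm
    have h5 : 1 ≤ (1 + q) ^ (p ^ K) := Nat.one_le_pow _ _ (by omega)
    obtain ⟨m, hm⟩ := (Nat.modEq_iff_dvd' h5).1 h1.symm
    have h6 : (1 + q) ^ (p ^ K) = 1 + p ^ K * m := by omega
    rw [h6, pow_add, pow_one, pow_mul, hpK, one_pow, mul_one]
  -- the permutation
  let s : Lin Q → Lin Q := fun μ => μ ^ (1 + q) * κ⁻¹
  have hs : ∀ μ, s μ = μ ^ (1 + q) * κ⁻¹ := fun _ => rfl
  have hiter : ∀ (j : ℕ) (μ : Lin Q), s^[j] μ = μ ^ ((1 + q) ^ j) * (κ ^ j)⁻¹ := by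
    intro j μ
    induction j with
    | zero => simp
    | succ j ih =>
      rw [Function.iterate_succ_apply', ih, hs, mul_pow, ← pow_mul, ← pow_succ, inv_pow, ← pow_mul,
        mul_add, mul_one, pow_add κ j, mul_comm j q, pow_mul κ q j, hκq, one_pow, mul_one, pow_succ κ,
        mul_inv, mul_assoc]
  have hper : ∀ μ : Lin Q, s^[p ^ K] μ = μ := by
    intro μ
    rw [hiter, hpow1, hpK, inv_one, mul_one]
  have hsinj : Function.Injective s := by
    intro μ ν h
    have h1 : s^[p ^ K] μ = s^[p ^ K] ν := by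
      obtain ⟨m, hm⟩ := Nat.exists_eq_succ_of_ne_zero (pow_pos hp.pos K).ne'
      rw [hm, Function.iterate_succ_apply, Function.iterate_succ_apply, h]
    rwa [hper, hper] at h1
  have hns : ∀ μ, n (s μ) = n μ := by
    intro μ
    have h1 := hn2 μ 1
    rw [mul_one, pow_one] at h1
    exact h1
  have hrq : ∀ α ∈ A, resL Q α ^ q = 1 := by
    intro α hα
    apply Lin.ext
    intro x
    rw [Lin.pow_apply, resL_apply, ← Lin.pow_apply, hAq α hα]
    rfl
  have hsα : ∀ α ∈ A, ∀ μ, s (resL Q α * μ) = resL Q α * s μ := by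
    intro α hα μ
    rw [hs, hs, mul_pow, pow_add (resL Q α), pow_one, hrq α hα, mul_one, mul_assoc]
  set G : Lin Q → ℂ := fun μ => ∑ α ∈ A, (((α u)⁻¹ : ℂˣ) : ℂ) *
    (starRingEnd ℂ) (n (resL Q α * μ)) with hG
  have hGs : ∀ μ, G (s μ) = G μ := by
    intro μ
    refine sum_congr rfl fun α hα => ?_
    rw [← hsα α hα, hns]
  -- `n` is divisible by `p` at the fixed points
  have hn3' : ∀ μ : Lin Q, μ ^ q = κ → IsIntegral ℤ ((p : ℂ)⁻¹ * n μ) := by
    intro μ hμ
    obtain ⟨c, hc, h1⟩ := hn3 μ hμ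
    rw [h1, inv_mul_cancel_left₀ hp0]
    exact hc
  have hfix : ∀ μ : Lin Q, s μ = μ → μ ^ q = κ := by
    intro μ hμ
    rw [hs, pow_add, pow_one, mul_assoc] at hμ
    exact mul_inv_eq_one.1 (mul_eq_left.1 hμ)
  have hGf : ∀ μ : Lin Q, s μ = μ → IsIntegral ℤ ((p : ℂ)⁻¹ * G μ) := by
    intro μ hμ
    have h1 : (p : ℂ)⁻¹ * G μ = ∑ α ∈ A, (((α u)⁻¹ : ℂˣ) : ℂ) *
        (starRingEnd ℂ) ((p : ℂ)⁻¹ * n (resL Q α * μ)) := by
      rw [hG, mul_sum]
      refine sum_congr rfl fun α _ => ?_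
      rw [map_mul, map_inv₀, Complex.conj_natCast]
      ring
    rw [h1]
    refine IsIntegral.sum _ fun α hα => (inv_int α u).mul (conj_int (hn3' _ ?_))
    rw [mul_pow, hrq α hα, one_mul, hfix μ hμ]
  have hGn : ∀ μ : Lin Q, s μ ≠ μ → IsIntegral ℤ ((p : ℂ)⁻¹ * G μ) := by
    intro μ hμ
    have ha1 : μ ^ q * κ⁻¹ ≠ 1 := by
      intro h
      apply hμ
      rw [hs, pow_add, pow_one, mul_assoc, h, mul_one]
    obtain ⟨α', hα', hα'1, i, hi⟩ := hEXA p b hp (by omega) hP Q (μ ^ q * κ⁻¹) (by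
      intro w hw
      rw [Lin.mul_apply, Lin.pow_apply, ← map_pow, hw, map_one, one_mul, Lin.inv_apply, inv_eq_one,
        hκ, resL_apply]
      refine hkq w ?_
      have h1 := congrArg Subtype.val hw
      simpa using h1) ha1
    have hres : resL Q α' = (μ ^ q * κ⁻¹) ^ i := by
      apply Lin.ext
      intro w
      rw [resL_apply, hi, Lin.pow_apply]
    have hinv : ∀ α ∈ A, n (resL Q (α' * α) * μ) = n (resL Q α * μ) := by
      intro α hα
      have h1 : resL Q (α' * α) * μ = (resL Q α * μ) ^ (1 + q * i) * (κ ^ i)⁻¹ := by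
        have h2 : resL Q (α' * α) = resL Q α' * resL Q α := rfl
        rw [h2, hres, mul_pow, pow_add (resL Q α * μ), pow_one, pow_mul (resL Q α * μ),
          mul_pow (resL Q α) μ q, hrq α hα, one_mul, inv_pow]
        ac_rfl
      rw [h1]
      exact hn2 _ i
    have hreidx : ∀ F : Lin P → ℂ, ∑ α ∈ A, F (α' * α) = ∑ α ∈ A, F α := by
      intro F
      refine Finset.sum_bij' (fun α _ => α' * α) (fun α _ => α'⁻¹ * α) ?_ ?_ ?_ ?_ ?_
      · intro α hα
        exact hAmul _ hα' _ hα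
      · intro α hα
        exact hAmul _ (hAinv _ hα') _ hα
      · intro α _
        exact inv_mul_cancel_left _ _
      · intro α _
        exact mul_inv_cancel_left _ _
      · intro α _
        rfl
    have hterm : ∀ α ∈ A, (((((α' * α) u)⁻¹ : ℂˣ) : ℂ) *
        (starRingEnd ℂ) (n (resL Q (α' * α) * μ))) =
        (((α' u)⁻¹ : ℂˣ) : ℂ) * ((((α u)⁻¹ : ℂˣ) : ℂ) * (starRingEnd ℂ) (n (resL Q α * μ))) := by
      intro α hα
      rw [hinv α hα, Lin.mul_apply, mul_inv, Units.val_mul, mul_assoc]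
    by_cases hu : α' u = 1
    · refine hPSM' A (fun α => α' * α) 1 (fun α hα => hAmul _ hα' _ hα) ?_ ?_ _ ?_ ?_
      · intro α _
        have h1 : ∀ j, (fun α => α' * α)^[j] α = α' ^ j * α := by
          intro j
          induction j with
          | zero => simp
          | succ j ih => rw [Function.iterate_succ_apply', ih, pow_succ', mul_assoc]
        rw [h1, pow_one, hAp α' hα', one_mul]
      · intro α _ h
        exact hα'1 (mul_eq_right.1 h)
      · intro α hα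
        rw [hterm α hα, hu, inv_one, Units.val_one, one_mul]
      · intro α _
        exact (inv_int α u).mul (conj_int (hn1 _))
    · have h1 : G μ = (((α' u)⁻¹ : ℂˣ) : ℂ) * G μ := by
        conv_lhs => rw [hG]
        simp only
        rw [← hreidx, sum_congr rfl hterm, ← mul_sum]
      have h2 : G μ = 0 := by
        by_contra hne
        have h3 : (((α' u)⁻¹ : ℂˣ) : ℂ) = 1 := by
          have h4 : (((α' u)⁻¹ : ℂˣ) : ℂ) * G μ = 1 * G μ := by rw [one_mul]; exact h1.symm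
          exact mul_right_cancel₀ hne h4
        apply hu
        have h5 : (α' u)⁻¹ = 1 := Units.ext h3
        exact inv_eq_one.1 h5
      rw [h2, mul_zero]
      exact isIntegral_zero
  have hGa : ∀ μ : Lin Q, IsIntegral ℤ ((p : ℂ)⁻¹ * G μ) := fun μ =>
    if h : s μ = μ then hGf μ h else hGn μ h
  -- the sum
  have hsum : IsIntegral ℤ ((p : ℂ)⁻¹ * ∑ μ : Lin Q, n μ * ((p : ℂ)⁻¹ * G μ)) := by
    rw [← sum_filter_add_sum_filter_not univ (fun μ : Lin Q => s μ = μ), mul_add]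
    refine IsIntegral.add ?_ ?_
    · rw [mul_sum]
      refine IsIntegral.sum _ fun μ hμ => ?_
      rw [← mul_assoc]
      exact (hn3' μ (hfix μ (mem_filter.1 hμ).2)).mul (hGa μ)
    · refine hPSM' _ s K ?_ (fun μ _ => hper μ) (fun μ hμ => (mem_filter.1 hμ).2) _ ?_ ?_
      · intro μ hμ
        refine mem_filter.2 ⟨mem_univ _, fun h => (mem_filter.1 hμ).2 (hsinj h)⟩
      · intro μ _
        rw [hns, hGs]
      · intro μ _
        exact (hn1 μ).mul (hGa μ)
  -- the identity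
  have hQ0 : (Fintype.card Q : ℂ) ≠ 0 := by exact_mod_cast Fintype.card_ne_zero
  have hcn : ∀ ν : Lin Q, (starRingEnd ℂ) (n ν) = ∑ l : Lin Q, (starRingEnd ℂ) (n l) *
      ((Fintype.card Q : ℂ)⁻¹ * ∑ w : Q, (((ν * l⁻¹) w : ℂˣ) : ℂ)) := by
    intro ν
    have h1 : ∀ l : Lin Q, (starRingEnd ℂ) (n l) *
        ((Fintype.card Q : ℂ)⁻¹ * ∑ w : Q, (((ν * l⁻¹) w : ℂˣ) : ℂ)) =
        if l = ν then (starRingEnd ℂ) (n l) else 0 := by
      intro l
      rw [sum_char]
      by_cases h : l = ν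
      · rw [if_pos h, if_pos (by rw [h, mul_inv_cancel]), inv_mul_cancel₀ hQ0, mul_one]
      · rw [if_neg h, if_neg (fun h2 => h (mul_inv_eq_one.1 h2).symm), mul_zero, mul_zero]
    rw [sum_congr rfl fun l _ => h1 l, sum_ite_eq' univ ν, if_pos (mem_univ ν)]
  have hmain : (A.card : ℂ) * ((Fintype.card Q : ℂ)⁻¹ * ∑ w : Q,
      if (∃ v : P, (w : P) ^ q = u ^ q * v ^ p ^ b) then
        ((p : ℂ)⁻¹ * am p b φ k w) * (starRingEnd ℂ) ((p : ℂ)⁻¹ * am p b φ k w) else 0) =
      (p : ℂ)⁻¹ * ∑ μ : Lin Q, n μ * ((p : ℂ)⁻¹ * G μ) := by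
    have h1 : ∀ w : Q, (A.card : ℂ) * (if (∃ v : P, (w : P) ^ q = u ^ q * v ^ p ^ b) then
        ((p : ℂ)⁻¹ * am p b φ k w) * (starRingEnd ℂ) ((p : ℂ)⁻¹ * am p b φ k w) else 0) =
        (p : ℂ)⁻¹ * (p : ℂ)⁻¹ * ((∑ α ∈ A, (((α u)⁻¹ : ℂˣ) : ℂ) * ((α w : ℂˣ) : ℂ)) *
          ((∑ μ : Lin Q, n μ * ((μ w : ℂˣ) : ℂ)) *
            (∑ l : Lin Q, (starRingEnd ℂ) (n l) * (((l w)⁻¹ : ℂˣ) : ℂ)))) := by
      intro w
      have h2 := (hDUA p b hp (by omega) (P := P)).1 (u⁻¹ * w)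
      have h3 : ∑ α ∈ A, ((α (u⁻¹ * w) : ℂˣ) : ℂ) =
          ∑ α ∈ A, (((α u)⁻¹ : ℂˣ) : ℂ) * ((α w : ℂˣ) : ℂ) := by
        refine sum_congr rfl fun α _ => ?_
        rw [map_mul, map_inv, Units.val_mul]
      rw [h3] at h2
      rw [h2]
      have h4 : (∃ v : P, (u⁻¹ * (w : P)) ^ p ^ (b - 1) = v ^ p ^ b) ↔
          ∃ v : P, (w : P) ^ q = u ^ q * v ^ p ^ b := by
        refine exists_congr fun v => ?_
        rw [mul_pow, inv_pow, inv_mul_eq_iff_eq_mul]
      have h5 : (starRingEnd ℂ) (am p b φ k w) =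
          ∑ l : Lin Q, (starRingEnd ℂ) (n l) * (((l w)⁻¹ : ℂˣ) : ℂ) := by
        rw [hn4, map_sum]
        refine sum_congr rfl fun l _ => ?_
        rw [map_mul, val_conj]
      rw [← h5, ← hn4]
      by_cases h6 : ∃ v : P, (w : P) ^ q = u ^ q * v ^ p ^ b
      · rw [if_pos h6, if_pos (h4.2 h6), map_mul, map_inv₀, Complex.conj_natCast]
        ring
      · rw [if_neg h6, if_neg (fun h => h6 (h4.1 h))]
        ring
    rw [mul_left_comm, mul_sum, sum_congr rfl fun w _ => h1 w, ← mul_sum, sum4]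
    rw [mul_left_comm]
    have h7 : (Fintype.card Q : ℂ)⁻¹ * ∑ μ : Lin Q, ∑ α ∈ A, ∑ l : Lin Q, ∑ w : Q,
        (((α u)⁻¹ : ℂˣ) : ℂ) * ((α w : ℂˣ) : ℂ) * (n μ * ((μ w : ℂˣ) : ℂ) *
          ((starRingEnd ℂ) (n l) * (((l w)⁻¹ : ℂˣ) : ℂ))) = ∑ μ : Lin Q, n μ * G μ := by
      rw [mul_sum]
      refine sum_congr rfl fun μ _ => ?_
      rw [mul_sum, hG]
      simp only
      rw [mul_sum]
      refine sum_congr rfl fun α _ => ?_
      rw [hcn, mul_sum, mul_sum, mul_sum]
      refine sum_congr rfl fun l _ => ?_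
      rw [mul_sum, mul_sum, mul_sum, mul_sum, mul_sum]
      refine sum_congr rfl fun w _ => ?_
      rw [Lin.mul_apply, Lin.mul_apply, Lin.inv_apply, resL_apply, Units.val_mul, Units.val_mul]
      ring
    rw [h7, mul_assoc]
    congr 1
    rw [mul_sum]
    refine sum_congr rfl fun μ _ => ?_
    ring
  have hfinal : IsIntegral ℤ ((A.card : ℂ) * ((Fintype.card Q : ℂ)⁻¹ * ∑ w : Q,
      if (∃ v : P, (w : P) ^ q = u ^ q * v ^ p ^ b) then
        ((p : ℂ)⁻¹ * am p b φ k w) * (starRingEnd ℂ) ((p : ℂ)⁻¹ * am p b φ k w) else 0)) := by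
    rw [hmain]
    exact hsum
  convert hfinal using 6

end Pool.Agent.Lib.MP_1aae89_al.W3
end

section
/-!
# Module CRM of Theorem W3 (MP_1aae89_al): the criterion for larger `b`
-/
set_option autoImplicit false

namespace Pool.Agent.Lib.MP_1aae89_al.W3

open Pool.Agent.Lib.MP_1aae89_al Pool.Agent.Lib.MP_1aae89_al.BF Finset
open Pool.Agent.Lib.MP_1aae89_al.W (nR)

namespace CRM

section

variable {X : Type} [Group X]

theorem mpow {P : Subgroup X} (hc : ∀ x ∈ P, ∀ y ∈ P, x * y = y * x) {x y : X} (hx : x ∈ P)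
    (hy : y ∈ P) (k : ℕ) : (x * y) ^ k = x ^ k * y ^ k :=
  (show Commute x y from hc x hx y hy).mul_pow k

/-- the subgroup `{x ∈ P : x^(p^(b-1)) ∈ P^(p^b)}` -/
def DD (p b : ℕ) (P : Subgroup X) (hc : ∀ x ∈ P, ∀ y ∈ P, x * y = y * x) : Subgroup P where
  carrier := {x | ∃ w ∈ P, (x : X) ^ p ^ (b - 1) = w ^ p ^ b}
  one_mem' := ⟨1, P.one_mem, by rw [P.coe_one, one_pow, one_pow]⟩
  mul_mem' := by
    rintro x y ⟨w, hw, h1⟩ ⟨v, hv, h2⟩
    refine ⟨w * v, P.mul_mem hw hv, ?_⟩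
    rw [P.coe_mul, mpow hc x.2 y.2, mpow hc hw hv, h1, h2]
  inv_mem' := by
    rintro x ⟨w, hw, h1⟩
    refine ⟨w⁻¹, P.inv_mem hw, ?_⟩
    rw [P.coe_inv, inv_pow, inv_pow, h1]

theorem mem_DD {p b : ℕ} {P : Subgroup X} {hc : ∀ x ∈ P, ∀ y ∈ P, x * y = y * x} {x : P} :
    x ∈ DD p b P hc ↔ ∃ w ∈ P, (x : X) ^ p ^ (b - 1) = w ^ p ^ b := Iff.rfl

/-- commutativity as an instance -/
@[reducible] def cG (P : Subgroup X) (hc : ∀ x ∈ P, ∀ y ∈ P, x * y = y * x) : CommGroup P :=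
  { (inferInstance : Group P) with mul_comm := fun x y => Subtype.ext (hc x x.2 y y.2) }

theorem card_nR (P : Subgroup X) (hc : ∀ x ∈ P, ∀ y ∈ P, x * y = y * x) (q : ℕ) :
    nR P q = Nat.card (@powMonoidHom P (cG P hc).toCommMonoid q).range := by
  rw [W.nR_eq]
  rfl

theorem index_gen {C : Type} [CommGroup C] [Finite C] {p b : ℕ} (hb : 1 ≤ b) :
    ((powMonoidHom (p ^ b) : C →* C).range.comap (powMonoidHom (p ^ (b - 1)))).index *
      Nat.card (powMonoidHom (p ^ b) : C →* C).range =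
      Nat.card (powMonoidHom (p ^ (b - 1)) : C →* C).range := by
  set f : C →* C := powMonoidHom (p ^ (b - 1)) with hf
  set R : Subgroup C := (powMonoidHom (p ^ b) : C →* C).range with hR
  have h2 : R ≤ f.range := by
    rintro _ ⟨w, rfl⟩
    refine ⟨w ^ p, ?_⟩
    rw [hf, powMonoidHom_apply, powMonoidHom_apply, ← pow_mul, ← pow_succ', Nat.sub_add_cancel hb]
  have h3 := Subgroup.relIndex_mul_relIndex (⊥ : Subgroup C) R f.range bot_le h2
  rw [Subgroup.relIndex_bot_left, Subgroup.relIndex_bot_left] at h3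
  have h4 : (R.comap f).index = R.relIndex f.range := Subgroup.index_comap R f
  rw [h4, mul_comm]
  exact h3

theorem index_DD [Finite X] {p b : ℕ} (hb : 1 ≤ b) (P : Subgroup X)
    (hc : ∀ x ∈ P, ∀ y ∈ P, x * y = y * x) :
    (DD p b P hc).index * nR P (p ^ b) = nR P (p ^ (b - 1)) := by
  rw [card_nR P hc, card_nR P hc]
  have h0 := @index_gen P (cG P hc) inferInstance p b hb
  have h1 : DD p b P hc = (@powMonoidHom P (cG P hc).toCommMonoid (p ^ b)).range.comap
      (@powMonoidHom P (cG P hc).toCommMonoid (p ^ (b - 1))) := by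
    ext x
    constructor
    · rintro ⟨w, hw, h⟩
      exact ⟨⟨w, hw⟩, Subtype.ext h.symm⟩
    · rintro ⟨w, h⟩
      exact ⟨w, w.2, (congrArg Subtype.val h).symm⟩
  rw [h1]
  exact h0

theorem nR_pos [Finite X] (P : Subgroup X) (q : ℕ) : 0 < nR P q := by
  unfold nR
  have : Nonempty {z : X // ∃ x ∈ P, x ^ q = z} := ⟨⟨1, 1, P.one_mem, one_pow q⟩⟩
  exact Nat.card_pos

/-- the criterion in terms of `DD` -/
theorem crt_iff [Finite X] {p b : ℕ} (hb : 1 ≤ b) {P : Subgroup X}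
    (hc : ∀ x ∈ P, ∀ y ∈ P, x * y = y * x) : Crt p b P ↔
    ∃ A : Finset X, (∀ u ∈ A, u ∈ P) ∧ (∀ u ∈ A, ∀ v ∈ A, Rel p b P u v → u = v) ∧
      (DD p b P hc).index < A.card * p := by
  unfold Crt
  refine exists_congr fun A => and_congr_right fun _ => and_congr_right fun _ => ?_
  rw [← index_DD hb P hc]
  exact Nat.mul_lt_mul_right (nR_pos P _)

/-- equality modulo `DD` -/
theorem mk_iff {p b : ℕ} {P : Subgroup X} (hc : ∀ x ∈ P, ∀ y ∈ P, x * y = y * x) (x y : P) :
    x⁻¹ * y ∈ DD p b P hc ↔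
      ∃ w ∈ P, (y : X) ^ p ^ (b - 1) = (x : X) ^ p ^ (b - 1) * w ^ p ^ b := by
  rw [mem_DD, P.coe_mul, P.coe_inv, mpow hc (P.inv_mem x.2) y.2, inv_pow]
  refine exists_congr fun w => and_congr_right fun _ => ?_
  rw [inv_mul_eq_iff_eq_mul]

end

end CRM

open CRM in
/-- CRM. -/
theorem specCRM (hREL : SpecREL) : SpecCRM := by
  intro p b hp hb X _ _ P _ hc hcrt b' hb'
  induction b', hb' using Nat.le_induction with
  | base => exact hcrt
  | succ b' hb' ih =>
    classical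
    have hb1 : 1 ≤ b' := hb.trans hb'
    obtain ⟨A, hAP, hA, hAc⟩ := (crt_iff hb1 hc).1 ih
    obtain ⟨hrefl, hsymm, htrans, -⟩ := hREL p (b' + 1) P hc
    obtain ⟨hrefl', hsymm', htrans', -⟩ := hREL p b' P hc
    set D := DD p b' P hc with hD
    set D' := DD p (b' + 1) P hc with hD'
    have hDD' : D ≤ D' := by
      rintro x ⟨w, hw, h⟩
      refine ⟨w, hw, ?_⟩
      have h1 : p ^ (b' + 1 - 1) = p ^ (b' - 1) * p := by
        rw [← pow_succ]
        congr 1
        omega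
      rw [h1, pow_mul, h, ← pow_mul, ← pow_succ]
    have hidx : D.relIndex D' * D'.index = D.index := Subgroup.relIndex_mul_index hDD'
    set w := D.relIndex D' with hw
    have hw0 : 0 < w := by
      rw [Nat.pos_iff_ne_zero]
      intro h
      rw [h, zero_mul] at hidx
      exact (Subgroup.index_ne_zero_of_finite (H := D)) hidx.symm
    -- representatives
    let S : Setoid {x : X // x ∈ A} :=
      { r := fun u v => Rel p (b' + 1) P u.1 v.1
        iseqv := ⟨fun u => hrefl u.1 (hAP _ u.2),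
          fun {u v} h => hsymm u.1 (hAP _ u.2) v.1 (hAP _ v.2) h,
          fun {u v z} h h' => htrans u.1 (hAP _ u.2) v.1 (hAP _ v.2) z.1 (hAP _ z.2) h h'⟩ }
    let rep : {x : X // x ∈ A} → X := fun u => ((Quotient.mk S u).out : {x : X // x ∈ A})
    have hrepA : ∀ u, rep u ∈ A := fun u => ((Quotient.mk S u).out).2
    have hrep : ∀ u : {x : X // x ∈ A}, Rel p (b' + 1) P u.1 (rep u) := by
      intro u
      have h1 : S.r ((Quotient.mk S u).out) u := Quotient.exact (Quotient.out_eq (Quotient.mk S u))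
      exact hsymm _ (hAP _ (hrepA u)) _ (hAP _ u.2) h1
    have hrepeq : ∀ u v : {x : X // x ∈ A}, Rel p (b' + 1) P u.1 v.1 → rep u = rep v := by
      intro u v h
      have h1 : Quotient.mk S u = Quotient.mk S v := Quotient.sound h
      show (((Quotient.mk S u).out : {x : X // x ∈ A}) : X) =
        (((Quotient.mk S v).out : {x : X // x ∈ A}) : X)
      rw [h1]
    set A' : Finset X := A.attach.image rep with hA'
    have hcard : A.card ≤ w * A'.card := by
      rw [← card_attach]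
      refine card_le_mul_card_image A.attach w ?_
      intro a ha
      obtain ⟨u0, -, hu0⟩ := mem_image.1 ha
      have haA : a ∈ A := hu0 ▸ hrepA u0
      have haP : a ∈ P := hAP a haA
      -- the elements of the class
      have hg : ∀ u : {x : X // x ∈ A}, rep u = a → ∃ g : X, (∀ x ∈ P, g * x * g⁻¹ ∈ P) ∧
          ∃ z ∈ P, (g * u.1 * g⁻¹) ^ p ^ (b' + 1 - 1) = a ^ p ^ (b' + 1 - 1) * z ^ p ^ (b' + 1) := by
        intro u hu
        have h1 := hrep u
        rw [hu] at h1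
        exact h1
      choose! g hgP hgz using hg
      have hcj : ∀ u : {x : X // x ∈ A}, rep u = a → g u * u.1 * (g u)⁻¹ ∈ P := fun u hu =>
        hgP u hu u.1 (hAP _ u.2)
      let φ : {x : X // x ∈ A} → D' ⧸ D.subgroupOf D' := fun u =>
        if hu : rep u = a then
          QuotientGroup.mk ⟨(⟨a, haP⟩ : P)⁻¹ * ⟨g u * u.1 * (g u)⁻¹, hcj u hu⟩,
            (mk_iff hc _ _).2 (hgz u hu)⟩
        else QuotientGroup.mk 1
      have hφ : Set.InjOn φ (A.attach.filter fun u => rep u = a) := by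
        intro u hu v hv huv
        have hu' : rep u = a := by simpa using hu
        have hv' : rep v = a := by simpa using hv
        simp only [φ, dif_pos hu', dif_pos hv'] at huv
        rw [QuotientGroup.eq, Subgroup.mem_subgroupOf] at huv
        have h1 : ((⟨g u * u.1 * (g u)⁻¹, hcj u hu'⟩ : P))⁻¹ *
            (⟨g v * v.1 * (g v)⁻¹, hcj v hv'⟩ : P) ∈ D := by
          have h2 : ((⟨g u * u.1 * (g u)⁻¹, hcj u hu'⟩ : P))⁻¹ *
              (⟨g v * v.1 * (g v)⁻¹, hcj v hv'⟩ : P) =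
              ((⟨a, haP⟩ : P)⁻¹ * ⟨g u * u.1 * (g u)⁻¹, hcj u hu'⟩)⁻¹ *
                ((⟨a, haP⟩ : P)⁻¹ * ⟨g v * v.1 * (g v)⁻¹, hcj v hv'⟩) := by group
          rw [h2]
          exact huv
        obtain ⟨z, hz, h3⟩ := (mk_iff hc _ _).1 h1
        have r1 : Rel p b' P v.1 (g u * u.1 * (g u)⁻¹) := ⟨g v, hgP v hv', z, hz, h3⟩
        have r2 : Rel p b' P u.1 (g u * u.1 * (g u)⁻¹) :=
          ⟨g u, hgP u hu', 1, P.one_mem, by rw [one_pow, mul_one]⟩
        have r3 := htrans' u.1 (hAP _ u.2) _ (hcj u hu') v.1 (hAP _ v.2) r2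
          (hsymm' _ (hAP _ v.2) _ (hcj u hu') r1)
        exact Subtype.ext (hA u.1 u.2 v.1 v.2 r3)
      have : Finite (D' ⧸ D.subgroupOf D') := inferInstance
      have := Fintype.ofFinite (D' ⧸ D.subgroupOf D')
      have h1 := card_le_card_of_injOn (t := (univ : Finset (D' ⧸ D.subgroupOf D'))) φ
        (fun u _ => mem_coe.2 (mem_univ _)) hφ
      rw [card_univ, ← Nat.card_eq_fintype_card] at h1
      exact h1
    refine (crt_iff (by omega) hc).2 ⟨A', ?_, ?_, ?_⟩
    · intro u hu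
      obtain ⟨u0, -, rfl⟩ := mem_image.1 hu
      exact hAP _ (hrepA u0)
    · intro u hu v hv huv
      obtain ⟨u0, -, rfl⟩ := mem_image.1 hu
      obtain ⟨v0, -, rfl⟩ := mem_image.1 hv
      refine hrepeq u0 v0 ?_
      refine htrans _ (hAP _ u0.2) _ (hAP _ (hrepA u0)) _ (hAP _ v0.2) (hrep u0) ?_
      refine htrans _ (hAP _ (hrepA u0)) _ (hAP _ (hrepA v0)) _ (hAP _ v0.2) huv ?_
      exact hsymm _ (hAP _ v0.2) _ (hAP _ (hrepA v0)) (hrep v0)
    · rw [← hD']
      refine lt_of_mul_lt_mul_left (a := w) ?_ (Nat.zero_le w)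
      calc w * D'.index = D.index := hidx
        _ < A.card * p := hAc
        _ ≤ w * A'.card * p := Nat.mul_le_mul_right p hcard
        _ = w * (A'.card * p) := by ring

end Pool.Agent.Lib.MP_1aae89_al.W3
end

section
/-!
# Module CYF of Theorem W4 (MP_1aae89_al): `BBF u` lies in the cyclotomic field
-/
set_option autoImplicit false

namespace Pool.Agent.Lib.MP_1aae89_al.W4

open Pool.Agent.Lib.MP_1aae89_al Pool.Agent.Lib.MP_1aae89_al.BF Pool.Agent.Lib.MP_1aae89_al.W3 Finset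
open Pool.Agent.Lib.MP_1aae89_al.W (GC LD nR)
open Pool.Agent.Lib.MP1aae89 (Pex)

/-- CYF. -/
theorem specCYF : SpecCYF := by
  intro p L s0 b X _ _ P χ K hy u
  classical
  have hc : ∀ y, χ y ∈ cycField L := fun y => by
    have h1 := hy.char.mem_cyc_card y
    rw [← Nat.card_eq_fintype_card] at h1
    exact cyc_mono hy.card hy.hL h1
  have hK : ∀ y, (((K y)⁻¹ : ℂˣ) : ℂ) ∈ cycField L := fun y => by
    refine root_mem hy.hL ?_
    obtain ⟨m, hm⟩ := hy.card
    have h1 : K y ^ L = 1 := by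
      rw [← map_pow, hm, pow_mul, pow_card_eq_one', one_pow, map_one]
    rw [← Units.val_pow_eq_pow_val, inv_pow, h1, inv_one, Units.val_one]
  have hav : ∀ y, avK p s0 b χ K y ∈ cycField L := fun y => by
    unfold avK
    refine mul_mem (inv_mem (natCast_mem _ _)) (sum_mem fun i _ => ?_)
    exact mul_mem (pow_mem (hK y) i) (hc _)
  unfold BBF
  refine mul_mem (natCast_mem _ _)
    (mul_mem (inv_mem (natCast_mem _ _)) (sum_mem fun y _ => ?_))
  split_ifs
  · exact mul_mem (hav y) (hav y⁻¹)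
  · exact zero_mem _

end Pool.Agent.Lib.MP_1aae89_al.W4
end

section
/-!
# Module UPF of Theorem W4 (MP_1aae89_al): the upper bound for pairwise inequivalent elements
-/
set_option autoImplicit false

namespace Pool.Agent.Lib.MP_1aae89_al.W4

open Pool.Agent.Lib.MP_1aae89_al Pool.Agent.Lib.MP_1aae89_al.BF Pool.Agent.Lib.MP_1aae89_al.W3 Finset
open Pool.Agent.Lib.MP_1aae89_al.W (GC LD nR)
open Pool.Agent.Lib.MP1aae89 (Pex)

/-- UPF. -/
theorem specUPF (hPOF : SpecPOF) (hSEF : SpecSEF) : SpecUPF := by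
  classical
  intro p L s0 b X _ _ P χ K hy A hA hinj
  have hS := (hSEF p hy.pp L s0 hy.hL hy.pex P hy.card hy.syl).2.1
  have h1 : ∀ u ∈ A, (BBF p s0 b P χ K u).re =
      (nF p P : ℝ) * ((Fintype.card X : ℝ)⁻¹ *
      ∑ y : X, (if SecF p s0 P u y then ‖avK p s0 b χ K y‖ ^ 2 else 0)) := by
    intro u _
    rw [hPOF p L s0 b P χ K hy u, Complex.ofReal_re]
  rw [Finset.sum_congr rfl h1, ← Finset.mul_sum, ← Finset.mul_sum, Finset.sum_comm]
  refine mul_le_mul_of_nonneg_left (mul_le_mul_of_nonneg_left ?_ (by positivity)) (by positivity)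
  refine Finset.sum_le_sum fun y _ => ?_
  by_cases hex : ∃ u ∈ A, SecF p s0 P u y
  · obtain ⟨u, hu, huy⟩ := hex
    rw [Finset.sum_eq_single_of_mem u hu, if_pos huy]
    intro v hv hvu
    rw [if_neg]
    intro hvy
    exact hvu (hinj v hv u hu (hS v u y hvy huy))
  · have h0 : ∑ u ∈ A, (if SecF p s0 P u y then ‖avK p s0 b χ K y‖ ^ 2 else 0) = 0 := by
      refine Finset.sum_eq_zero fun u hu => ?_
      rw [if_neg]
      intro huy
      exact hex ⟨u, hu, huy⟩
    rw [h0]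
    positivity

end Pool.Agent.Lib.MP_1aae89_al.W4
end

section
/-!
# SPN: an irreducible representation spans the matrix algebra
-/
set_option autoImplicit false

namespace Pool.Agent.Lib.MP_1aae89_al.W5

open Pool.Agent.Lib.MP_1aae89_al Pool.Agent.Lib.MP_1aae89_al.BF Matrix Finset

theorem specSPN : SpecSPN := by
  intro G _ _ n r hr hn X
  classical
  have hF : Fintype G := Fintype.ofFinite G
  have hn' : (n : ℂ) ≠ 0 := by exact_mod_cast hn
  have hG : (Fintype.card G : ℂ) ≠ 0 := by exact_mod_cast Fintype.card_ne_zero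
  set c : ℂ := (Fintype.card G : ℂ) / n with hc
  have hc0 : c ≠ 0 := div_ne_zero hG hn'
  set S : Matrix (Fin n) (Fin n) ℂ := ∑ g, (r g⁻¹ * X).trace • r g with hS
  have h1 : ∀ B : Matrix (Fin n) (Fin n) ℂ, (B * S).trace = (B * (c • X)).trace := by
    intro B
    rw [hS, Matrix.mul_sum, Matrix.trace_sum, Matrix.mul_smul, Matrix.trace_smul, smul_eq_mul,
      ← orth hr hn B X]
    refine sum_congr rfl fun g _ => ?_
    rw [Matrix.mul_smul, Matrix.trace_smul, smul_eq_mul, mul_comm]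
  have h2 : S = c • X := by
    ext i j
    have h3 := h1 (Matrix.single j i 1)
    rwa [Matrix.trace_single_mul, Matrix.trace_single_mul, one_smul, one_smul] at h3
  have h4 : S ∈ Submodule.span ℂ (Set.range r) :=
    Submodule.sum_mem _ fun g _ =>
      Submodule.smul_mem _ _ (Submodule.subset_span ⟨g, rfl⟩)
  rw [h2] at h4
  have h5 := Submodule.smul_mem _ c⁻¹ h4
  rwa [smul_smul, inv_mul_cancel₀ hc0, one_smul] at h5

end Pool.Agent.Lib.MP_1aae89_al.W5
end
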