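import Pool.Agent.Lib.MP_1aae89_al.W5.SpecA

/-!
# Specifications, part B: the wreath product step

THEOREM (WRS). Let `Y` be a finite group, `Y₁` a normal subgroup of index `p`, `H₀` a normal subgroup of
`Y₁` which commutes with its conjugates by the elements outside `Y₁`, `N` the normal closure of `H₀` in
`Y`, `H'` (`HC Y₁ H₀`) the subgroup generated by the other conjugates, so `N = H₀ H'`, and suppose that
`Y/N` is a `p`-group and that the `K ∈ Lin Y` with `K^p = 1` are trivial on `N`. If `Y₁/H'` is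
`Good p b`, then `ICd p b' Y` holds for all `b' ≥ b`.

PROOF. Let `r` be an irreducible representation of `Y` of degree prime to `p`, with a determinant of order
prime to `p`. (IRH) It is irreducible on `N`; (DEC) it is isotypic on `H₀`, with constituent `r'`, which
extends to a representation `A` of a central `p'`-extension `Yh` of `Y₁` (EXT), with a determinant of
order prime to `p`. Restricted to a Sylow subgroup `P` of `Y`, `r` is tensor induced from the restriction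
of `A` to `P ∩ Y₁` (TIY; structure `TI` of part A; no correction is necessary on `P ∩ Y₁`, as the
determinants have order prime to `p`). So DLW expresses `dl q (r|P) (K|P)` modulo `p` by the
`dl q (A|P ∩ Y₁) κ`, `κ ∘ Ver = K|P`. If `κ^p ≠ 1` this is `0` modulo `p` by Galois invariance (SUG).
Otherwise (KEX) `κ` extends to a character of `Yh` trivial over `N`, and (GCE) `A` is a character of a
central `p'`-extension of `Y₁/H'`, so it is `0` modulo `p` by `Good p b (Y₁/H')`, unless the Galois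
conjugate of `A` is `κ A`, which (NIN) would imply the same for `r` and `K`.
-/

set_option autoImplicit false

namespace Pool.Agent.Lib.MP_1aae89_al.W5

open Pool.Agent.Lib.MP_1aae89_al Pool.Agent.Lib.MP_1aae89_al.BF Pool.Agent.Lib.MP_1aae89_al.W3
  Pool.Agent.Lib.MP_1aae89_al.W4 Finset
open Pool.Agent.Lib.MP1aae89 (Pex)
open scoped Kronecker

/-! ## Group theory -/

/-- PRD. Elementary facts on `WY`.
PROOF. (1), (2): conjugation. (3) `WY.com`. (4), (5): `N` is generated by the `z y z⁻¹`, `y ∈ H₀`, which are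
in `H₀` for `z ∈ Y₁` and in `HC` for `z ∉ Y₁`; `H₀` and `HC` commute. (6) clear. (7) Put
`H_i = τ^i H₀ τ^(-i)`; it depends only on the coset `τ^i Y₁`, and these are all the cosets for `i < p`;
`H_i`, `H_j` commute for `i ≠ j`, `i, j < p`. So the set of the products `∏_{i<p} a_i`, `a_i ∈ H_i`, is a
subgroup which contains all conjugates of the elements of `H₀`. -/
def SpecPRD : Prop := ∀ (p : ℕ), p.Prime → ∀ {Y : Type} [Group Y] [Finite Y] (Y₁ H₀ : Subgroup Y),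
  WY p Y₁ H₀ → HC Y₁ H₀ ≤ Y₁ ∧ (∀ x ∈ Y₁, ∀ y ∈ HC Y₁ H₀, x * y * x⁻¹ ∈ HC Y₁ H₀) ∧
  (∀ x ∈ H₀, ∀ y ∈ HC Y₁ H₀, x * y = y * x) ∧
  Subgroup.normalClosure (H₀ : Set Y) = H₀ ⊔ HC Y₁ H₀ ∧
  (∀ h ∈ Subgroup.normalClosure (H₀ : Set Y), ∃ x ∈ H₀, ∃ y ∈ HC Y₁ H₀, h = x * y) ∧
  Subgroup.normalClosure (H₀ : Set Y) ≤ Y₁ ∧
  ∀ τ ∉ Y₁, ∀ h ∈ Subgroup.normalClosure (H₀ : Set Y), ∃ g : ℕ → Y, (∀ i, g i ∈ H₀) ∧
    h = ((List.range p).map fun i => τ ^ i * g i * (τ ^ i)⁻¹).prod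

/-- PRJ. `P ∩ N = (P ∩ H₀) (P ∩ H')`.
PROOF. `P ∩ Y₁` is a Sylow subgroup of `Y₁` (`Y₁` is normal), and `H₀`, `H' = HC`, `N`, `H₀ ∩ H'` are normal in
`Y₁`, so their intersections with `P` are Sylow subgroups of them. `(P ∩ H₀)(P ∩ H')` is a subgroup of
`P ∩ N` (PRD (3)) of order `|P ∩ H₀| |P ∩ H'| / |P ∩ H₀ ∩ H'|`, the `p`-part of
`|H₀| |H'| / |H₀ ∩ H'| = |N|`. -/
def SpecPRJ : Prop := ∀ (p : ℕ), p.Prime → ∀ {Y : Type} [Group Y] [Finite Y] (Y₁ H₀ P : Subgroup Y),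
  WY p Y₁ H₀ → Nat.card P = p ^ (Nat.card Y).factorization p →
  ∀ x ∈ P, x ∈ Subgroup.normalClosure (H₀ : Set Y) → ∃ a ∈ P ⊓ H₀, ∃ b ∈ P ⊓ HC Y₁ H₀, x = a * b

/-- COM. The situation on a central extension.
PROOF. For `z ∉ Y₁` and `w = z y z⁻¹`, `y ∈ N₀.comap f`, the map `x ↦ x w x⁻¹ w⁻¹` from `N₀.comap f` to
`ker f` is a homomorphism (its values are central), so it is trivial on commutators; it is trivial on
`ker f`; and `N₀.comap f` is generated by its commutators and `ker f`, because `N₀` is generated by its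
commutators (`⁅N₀, N₀⁆ = N₀`). The same argument for `K`: `K` is trivial on commutators and on `ker f`
(order prime to `p`, `K^p = 1`). `(normal closure of N₀).comap f` is the normal closure of
`N₀.comap f`. -/
def SpecCOM : Prop := ∀ (p : ℕ), p.Prime → ∀ {Y Z : Type} [Group Y] [Finite Y] [Group Z] [Finite Z]
  (f : Y →* Z), Function.Surjective f → (∀ y, f y = 1 → ∀ z, y * z = z * y) →
  (Nat.card f.ker).Coprime p → ∀ X₁ N₀ : Subgroup Z, WY p X₁ N₀ → ⁅N₀, N₀⁆ = N₀ →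
  WY p (X₁.comap f) (N₀.comap f) ∧ ∀ K : Lin Y, K ^ p = 1 →
    ∀ h ∈ Subgroup.normalClosure ((N₀.comap f : Subgroup Y) : Set Y), K h = 1

/-- HCF. `Y₁/H' ≅ X₁/N'`, `Y₁ = X₁.comap f`.
PROOF. `HC (X₁.comap f) (N₀.comap f) = (HC X₁ N₀).comap f` (it contains `ker f ≤ z (N₀.comap f) z⁻¹`,
`z ∉ Y₁`); so `f` induces an isomorphism of the quotients (`QuotientGroup.map`, or
`QuotientGroup.quotientKerEquivOfSurjective`); ISO. -/
def SpecHCF : Prop := ∀ (p b : ℕ), p.Prime → ∀ {Y Z : Type} [Group Y] [Finite Y] [Group Z]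
  [Finite Z] (f : Y →* Z), Function.Surjective f → ∀ X₁ N₀ : Subgroup Z, WY p X₁ N₀ →
  ∀ [((HC X₁ N₀).subgroupOf X₁).Normal]
    [((HC (X₁.comap f) (N₀.comap f)).subgroupOf (X₁.comap f)).Normal],
  Good p b (X₁ ⧸ (HC X₁ N₀).subgroupOf X₁) →
  Good p b (↥(X₁.comap f) ⧸ (HC (X₁.comap f) (N₀.comap f)).subgroupOf (X₁.comap f))

/-! ## Clifford theory -/

/-- IR1. Restriction to a normal subgroup of index `p`.
PROOF. Let `T` commute with `r(Y₁)`. A Sylow `p`-subgroup `P` of `Y` is not contained in `Y₁`; let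
`x ∈ P`, `x ∉ Y₁`. `tr r(x) ≠ 0` (`W.SpecNVZ` in `W/NVZ.lean` for `P`: a character of degree prime to `p` of a
`p`-group vanishes nowhere). There is `λ ∈ Lin Y` with kernel `Y₁`, `λ(x) ≠ 1`, `λ(x)^p = 1`. Let
`T_j = ∑_{i<p} λ(x)^(-ij) r(x^i) T r(x^i)⁻¹`; then `r(y) T_j = λ(y)^j T_j r(y)` for `y ∈ Y₁` and `y = x`, so
for all `y`. For `0 < j < p` the irreducible representations `r` and `λ^j r` have different traces at `x`,
so they are not equivalent and `T_j = 0` (Schur; compare `W/ORT.lean`; the average over `y` of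
`λ(y)^(-j) r(y) X r(y)⁻¹` is `0` for all `X`). Hence `p T = ∑_j T_j = T_0`, which commutes with `r(Y)`, is
scalar. -/
def SpecIR1 : Prop := ∀ (p : ℕ), p.Prime → ∀ {Y : Type} [Group Y] [Finite Y] (Y₁ : Subgroup Y)
  [Y₁.Normal], Y₁.index = p → ∀ (n : ℕ) (r : Y →* Matrix (Fin n) (Fin n) ℂ), Sch r → ¬ p ∣ n →
  Sch (r.comp Y₁.subtype)

/-- IRH. Restriction to a normal subgroup `N` with a `p`-group as quotient.
PROOF. Induction on `|Y : N|`: if `N ≠ ⊤` there is a normal subgroup `Y₁ ≥ N` of index `p` (`Y/N` is a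
`p`-group; `exists_normal` in `Deg.lean`); IR1, and the induction hypothesis for `N ≤ Y₁`. -/
def SpecIRH : Prop := ∀ (p : ℕ), p.Prime → ∀ {Y : Type} [Group Y] [Finite Y] (N : Subgroup Y)
  [N.Normal], (∀ y : Y, ∃ j : ℕ, y ^ p ^ j ∈ N) → ∀ (n : ℕ) (r : Y →* Matrix (Fin n) (Fin n) ℂ),
  Sch r → ¬ p ∣ n → Sch (r.comp N.subtype)

/-- DEC. `L` and `D` commute, `r` is irreducible on `L D`: then it is isotypic on `L`.
PROOF. `exists_sub` (`BF/Isot.lean`) for `r|L` gives `r'`; the central idempotent `cen (r|L) r'` is a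
linear combination of the `r l`, `l ∈ L`, and commutes with `r(L)`, so it commutes with `r(L D)` and is
scalar, `1` (`cen_idem`, `cen_mul_J`); `isotypic_of_cen`. Compare the proof of `dicho`. -/
def SpecDEC : Prop := ∀ {G : Type} [Group G] [Finite G] (n : ℕ)
  (r : G →* Matrix (Fin n) (Fin n) ℂ), n ≠ 0 → ∀ L D : Subgroup G,
  (∀ x ∈ L, ∀ y ∈ D, x * y = y * x) → Sch (r.comp (L ⊔ D).subtype) →
  ∃ (e m : ℕ) (r' : L →* Matrix (Fin m) (Fin m) ℂ) (Q : Matrix (Fin n) (Fin e × Fin m) ℂ)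
    (Q' : Matrix (Fin e × Fin m) (Fin n) ℂ), n = e * m ∧ Sch r' ∧ Q * Q' = 1 ∧ Q' * Q = 1 ∧
    ∀ l : L, r l * Q = Q * ((1 : Matrix (Fin e) (Fin e) ℂ) ⊗ₖ r' l)

/-- PHI. `Φ(X) = Q (1 ⊗ X) Q'` (`Matrix.det_kronecker`, `Matrix.det_comm'`, `Matrix.trace_kronecker`). -/
def SpecPHI : Prop := ∀ {L : Type} [Group L] (n e m : ℕ) (s : L →* Matrix (Fin n) (Fin n) ℂ)
  (r' : L →* Matrix (Fin m) (Fin m) ℂ) (Q : Matrix (Fin n) (Fin e × Fin m) ℂ)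
  (Q' : Matrix (Fin e × Fin m) (Fin n) ℂ), Q * Q' = 1 → Q' * Q = 1 →
  (∀ l : L, s l * Q = Q * ((1 : Matrix (Fin e) (Fin e) ℂ) ⊗ₖ r' l)) →
  ∃ Φ : Matrix (Fin m) (Fin m) ℂ →ₐ[ℂ] Matrix (Fin n) (Fin n) ℂ, (∀ l, Φ (r' l) = s l) ∧
    (∀ X, (Φ X).det = X.det ^ e) ∧ ∀ X, (Φ X).trace = e * X.trace

/-- MTR. Multiplicativity of the trace.
PROOF. `A = |L|⁻¹ ∑_{x ∈ L} r(x) a r(x)⁻¹` commutes with `r(L)`; it is in the span of `r(L)`, so it commutes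
with `r(D)`; so it is scalar, `A = (tr a / n) 1`. `tr(a b) = tr(r(x) a r(x)⁻¹ b)` for `x ∈ L`, so
`tr(a b) = tr(A b) = tr a tr b / n`. -/
def SpecMTR : Prop := ∀ {G : Type} [Group G] [Finite G] (n : ℕ)
  (r : G →* Matrix (Fin n) (Fin n) ℂ), n ≠ 0 → ∀ L D : Subgroup G,
  (∀ x ∈ L, ∀ y ∈ D, x * y = y * x) → Sch (r.comp (L ⊔ D).subtype) →
  ∀ a ∈ Submodule.span ℂ (Set.range fun x : L => r x), ∀ c : Matrix (Fin n) (Fin n) ℂ,
  (∀ x ∈ L, r x * c = c * r x) → (n : ℂ) * (a * c).trace = a.trace * c.trace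

/-- ELL. Lifting a Sylow subgroup (from LIF, `W3/LIF.lean`: `f` is injective on the Sylow subgroup of
`Yh` over `ι(S)`, hence an isomorphism onto `ι(S)`). -/
def SpecELL : Prop := ∀ (p : ℕ), p.Prime → ∀ {S G Yh : Type} [Group S] [Finite S] [Group G]
  [Finite G] [Group Yh] [Finite Yh] (ι : S →* G), Function.Injective ι →
  Nat.card S = p ^ (Nat.card G).factorization p → ∀ f : Yh →* G, Function.Surjective f →
  (Nat.card f.ker).Coprime p → ∃ ℓ : S →* Yh, (∀ x, f (ℓ x) = ι x) ∧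
    Nat.card ℓ.range = p ^ (Nat.card Yh).factorization p

/-- GCE. The character of `A` comes from a central `p'`-extension of `G/D`.
PROOF. `R = {y ∈ Y : f y ∈ D, A y = 1}` is normal in `Y`. `A` and `K` define `A'`, `K'` on `Y/R`; `A'` is
`Sch` (`A|H0` is, as `A h = r'(f h)` on `H0` and `f` maps `H0` onto `L`). `f` induces a surjective
homomorphism `g : Y/R → G/D`; its kernel is central of order prime to `p`: let `f y ∈ D`. For `h ∈ H0`: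
`y h y⁻¹ ∈ H0` and `f (y h y⁻¹) = f h` (`L` and `D` commute), so `y h y⁻¹ = h` (`TD.inj`), `A y` commutes
with `A(H0)`, so it is a scalar `a`, `a^(m M) = det(A y)^M = 1`; so `y^(m M) ∈ R` and, for all `z ∈ Y`,
`y z y⁻¹ z⁻¹ ∈ R` (`D` is normal). So `IC p b' (Y/R)` holds by `Good p b (G/D)` (the range of `g` is `⊤`);
apply it to the image of `P` (a Sylow subgroup), `A'`, `K'`, and use QDL for `P →` its image. -/
def SpecGCE : Prop := ∀ (p b : ℕ), p.Prime → 2 ≤ b → ∀ {G : Type} [Group G] [Finite G]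
  (L D : Subgroup G) [L.Normal] [D.Normal], (∀ x ∈ L, ∀ y ∈ D, x * y = y * x) →
  Good p b (G ⧸ D) → ∀ (n : ℕ) (r : G →* Matrix (Fin n) (Fin n) ℂ) (e m : ℕ)
  (r' : L →* Matrix (Fin m) (Fin m) ℂ), Sch r' → ¬ p ∣ m → ∀ M : ℕ, M.Coprime p →
  ∀ {Y : Type} [Group Y] [Finite Y] (f : Y →* G) (H0 : Subgroup Y)
  (Z : Y →* Matrix (Fin e) (Fin e) ℂ) (A : Y →* Matrix (Fin m) (Fin m) ℂ),
  TD p M L r r' f H0 Z A → ∀ b' : ℕ, b ≤ b' → ∀ L' s0 : ℕ, L' ≠ 0 → Nat.card Y ∣ L' →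
  Pex p L' s0 → FX p s0 b' (fun y => (A y).trace) → ∀ K : Lin Y, K ^ p = 1 →
  (∀ y, f y ∈ D → K y = 1) →
  (∃ y, (A (y ^ (1 + s0 * p ^ (b' - 1)))).trace ≠ ((K y : ℂˣ) : ℂ) * (A y).trace) →
  ∀ P : Subgroup Y, Nat.card P = p ^ (Nat.card Y).factorization p →
  p ∣ dl (p ^ (b' - 1)) (fun x : P => (A x).trace) (resL P K)

/-! ## The context `CT` -/

/-- CTA. The actions.
PROOF. (1) Both sides are linear in `X` and by SPN for `r'` we may assume `X = r' l`; let `h ∈ H0`,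
`f h = l` (`TD.map`), `A h = r' l` (`TD.res`); `y h y⁻¹ ∈ H0`, so
`A y A h A y⁻¹ = A (y h y⁻¹) = r'(f (y h y⁻¹))`, whose image under `Φ` is `r (f y) r(l) r(f y)⁻¹` (`phi`).
(2) By SPN for `r'` let `X = r' l`, `X' = r' l'`; `WY.com`. -/
def SpecCTA : Prop := ∀ (p M L : ℕ) {Y : Type} [Group Y] [Finite Y] (Y₁ H₀ : Subgroup Y)
  [Y₁.Normal] [(H₀.subgroupOf Y₁).Normal] (n : ℕ) (r : Y →* Matrix (Fin n) (Fin n) ℂ) (e m : ℕ)
  (r' : H₀.subgroupOf Y₁ →* Matrix (Fin m) (Fin m) ℂ)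
  (Φ : Matrix (Fin m) (Fin m) ℂ →ₐ[ℂ] Matrix (Fin n) (Fin n) ℂ)
  {Yh : Type} [Group Yh] [Finite Yh] (f : Yh →* Y₁) (H0 : Subgroup Yh)
  (Z : Yh →* Matrix (Fin e) (Fin e) ℂ) (A : Yh →* Matrix (Fin m) (Fin m) ℂ) (P : Subgroup Y)
  (ℓ : Y₁.subgroupOf P →* Yh), CT p M L Y₁ H₀ r r' Φ f H0 Z A P ℓ →
  (∀ (y : Yh) (X), r ((f y : Y₁) : Y) * Φ X = Φ (A y * X * A y⁻¹) * r ((f y : Y₁) : Y)) ∧
  ∀ z ∉ Y₁, ∀ X X', Φ X * (r z * Φ X' * r z⁻¹) = r z * Φ X' * r z⁻¹ * Φ X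

/-- CTG. Generation, and traces.
PROOF. (1) By SPN for the restriction of `r` to the normal closure `N` of `H₀` (`schN`), the matrix `X` is in
the span of the `r h`, `h ∈ N`; `h = ∏ τ^i g_i τ^(-i)` (PRD (7)), `r h = tp (r' g_i)` (`phi`). (2) For `k < p`,
`c_i = r(τ^i) Φ(Y i) r(τ^i)⁻¹`, `c = ∏_{i<k} c_i`: MTR for the subgroups `τ^k H₀ τ^(-k)` and
`τ^k (HC) τ^(-k)`, which generate `N`, gives `n tr(c_k c) = tr c_k tr c` (`c_k` is in the span of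
`r(τ^k H₀ τ^(-k))` by SPN for `r'`; `c` commutes with it, CTA (2)); induction on `k`;
`tr c_i = tr Φ(Y i)`. -/
def SpecCTG : Prop := ∀ (p M L : ℕ) {Y : Type} [Group Y] [Finite Y] (Y₁ H₀ : Subgroup Y)
  [Y₁.Normal] [(H₀.subgroupOf Y₁).Normal] (n : ℕ) (r : Y →* Matrix (Fin n) (Fin n) ℂ) (e m : ℕ)
  (r' : H₀.subgroupOf Y₁ →* Matrix (Fin m) (Fin m) ℂ)
  (Φ : Matrix (Fin m) (Fin m) ℂ →ₐ[ℂ] Matrix (Fin n) (Fin n) ℂ)
  {Yh : Type} [Group Yh] [Finite Yh] (f : Yh →* Y₁) (H0 : Subgroup Yh)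
  (Z : Yh →* Matrix (Fin e) (Fin e) ℂ) (A : Yh →* Matrix (Fin m) (Fin m) ℂ) (P : Subgroup Y)
  (ℓ : Y₁.subgroupOf P →* Yh), CT p M L Y₁ H₀ r r' Φ f H0 Z A P ℓ → ∀ τ ∉ Y₁,
  (∀ X, X ∈ Submodule.span ℂ (Set.range (tp p r τ Φ))) ∧
  ∀ X : ℕ → Matrix (Fin m) (Fin m) ℂ,
    (n : ℂ) ^ (p - 1) * (tp p r τ Φ X).trace = ∏ i ∈ range p, (Φ (X i)).trace

/-- TDE. `r` is tensor induced on `P ∩ Y₁`.
PROOF. Put `T(x) = tp p r τ Φ (fun i => A(ℓ(cjt i x)))`; the factors for different `i` commute (CTA (2)), so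
`T` is multiplicative. For `j < p`: `r(x)` and `T(x)` act in the same way by conjugation on the matrices
`r(τ^j) Φ(X) r(τ^j)⁻¹`: `r(x) r(τ^j) Φ(X) r(τ^j)⁻¹ r(x)⁻¹ = r(τ^j) Φ(B X B⁻¹) r(τ^j)⁻¹`,
`B = A(ℓ(cjt j x))` (CTA (1), `lf`). So `T(x)⁻¹ r(x)` commutes with all these matrices, in particular with
`r(τ^j g τ^(-j))`, `g ∈ H₀`, hence with `r(N)` (PRD (7)), so `r(x) = c(x) T(x)` with a number `c(x)`
(`schN`), multiplicative in `x`. Determinants: `det T(x) = ∏_i det(A(ℓ(cjt i x)))^e` (`phd`), so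
`c(x)^(n M) = 1` (`det`, `TD.det`); and `c(x)^(p^k) = 1` for some `k`; so `c(x) = 1` (`p ∤ n`,
`M ∣ ordCompl[p] L`). -/
def SpecTDE : Prop := ∀ (p M L : ℕ) {Y : Type} [Group Y] [Finite Y] (Y₁ H₀ : Subgroup Y)
  [Y₁.Normal] [(H₀.subgroupOf Y₁).Normal] (n : ℕ) (r : Y →* Matrix (Fin n) (Fin n) ℂ) (e m : ℕ)
  (r' : H₀.subgroupOf Y₁ →* Matrix (Fin m) (Fin m) ℂ)
  (Φ : Matrix (Fin m) (Fin m) ℂ →ₐ[ℂ] Matrix (Fin n) (Fin n) ℂ)
  {Yh : Type} [Group Yh] [Finite Yh] (f : Yh →* Y₁) (H0 : Subgroup Yh)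
  (Z : Yh →* Matrix (Fin e) (Fin e) ℂ) (A : Yh →* Matrix (Fin m) (Fin m) ℂ) (P : Subgroup Y)
  (ℓ : Y₁.subgroupOf P →* Yh), CT p M L Y₁ H₀ r r' Φ f H0 Z A P ℓ →
  ∀ τ : P, τ ∉ Y₁.subgroupOf P → ∀ x : Y₁.subgroupOf P, r ((x : P) : Y) =
    tp p (r.comp P.subtype) τ Φ fun i => A (ℓ (cjt (Y₁.subgroupOf P) τ i x))

/-- TIY. The structure `TI`.
PROOF. `idx`: `P` is not contained in `Y₁` (the index `p` of `Y₁` would divide the index of `P`), so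
`P Y₁ = Y`, `|P : P ∩ Y₁| = p`. `act`, `com`: CTA. `res`: TDE. `gen`, `tr`: CTG (`tp` for `r.comp P.subtype`
and `τ` is `tp` for `r` and `(τ : Y)`). `trm`: `pht`, `nem`. -/
def SpecTIY : Prop := ∀ (p M L : ℕ) {Y : Type} [Group Y] [Finite Y] (Y₁ H₀ : Subgroup Y)
  [Y₁.Normal] [(H₀.subgroupOf Y₁).Normal] (n : ℕ) (r : Y →* Matrix (Fin n) (Fin n) ℂ) (e m : ℕ)
  (r' : H₀.subgroupOf Y₁ →* Matrix (Fin m) (Fin m) ℂ)
  (Φ : Matrix (Fin m) (Fin m) ℂ →ₐ[ℂ] Matrix (Fin n) (Fin n) ℂ)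
  {Yh : Type} [Group Yh] [Finite Yh] (f : Yh →* Y₁) (H0 : Subgroup Yh)
  (Z : Yh →* Matrix (Fin e) (Fin e) ℂ) (A : Yh →* Matrix (Fin m) (Fin m) ℂ) (P : Subgroup Y)
  (ℓ : Y₁.subgroupOf P →* Yh), CT p M L Y₁ H₀ r r' Φ f H0 Z A P ℓ →
  ∀ τ : P, τ ∉ Y₁.subgroupOf P →
  TI p (Y₁.subgroupOf P) τ (r.comp P.subtype) (A.comp ℓ) Φ

/-- KEX. Extension of `κ`.
PROOF. `N` the normal closure of `H₀`, `H' = HC`. As `dl ≠ 0` there is `ω` with `ω^q = κ` and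
`ml (tr A ∘ ℓ) ω ≠ 0`. (i) `κ(x) = 1` if `x ∈ P ∩ H'`: for `h ∈ H0` the elements `ℓ(x) h ℓ(x)⁻¹` and `h` of
`H0` have the same image in `Y₁` (PRD (3)), so they are equal (`TD.inj`); so `A(ℓ x)` commutes with
`A(H0)`, which is irreducible, and is a scalar `a`, `a^(m M) = 1`, and the order of `a` is a power of `p`:
`a = 1`. Substituting `z x` for `z` in `∑_z tr A(ℓ z) ω(z)⁻¹` we get `ω(x) = 1`. (ii) `κ(x) = 1` if
`x ∈ P ∩ H₀`: by `Vr` `K(x) = ∏_{i<p} κ(cjt i x)`, and for `0 < i < p` `cjt i x ∈ P ∩ H'`, so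
`κ(x) = K(x) = 1`. (iii) So `κ(x) = 1` for `x ∈ P ∩ N` (PRJ). (iv) `Nh = {y ∈ Yh : f y ∈ N}` is normal in
`Yh`, `Yh/Nh` is a `p`-group (`WY.quo`), `ℓ` is injective (`lf`) and its range is a Sylow subgroup of `Yh`
(`|P ∩ Y₁|` is the `p`-part of `|Y₁|`, and `ker f` has order prime to `p`), so `Nh ⊔ range ℓ = ⊤`. EXL
(`W3/EXL.lean`) for `Nh`, `range ℓ` and `κ ∘ ℓ⁻¹`. -/
def SpecKEX : Prop := ∀ (p M L : ℕ) {Y : Type} [Group Y] [Finite Y] (Y₁ H₀ : Subgroup Y)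
  [Y₁.Normal] [(H₀.subgroupOf Y₁).Normal] (n : ℕ) (r : Y →* Matrix (Fin n) (Fin n) ℂ) (e m : ℕ)
  (r' : H₀.subgroupOf Y₁ →* Matrix (Fin m) (Fin m) ℂ)
  (Φ : Matrix (Fin m) (Fin m) ℂ →ₐ[ℂ] Matrix (Fin n) (Fin n) ℂ)
  {Yh : Type} [Group Yh] [Finite Yh] (f : Yh →* Y₁) (H0 : Subgroup Yh)
  (Z : Yh →* Matrix (Fin e) (Fin e) ℂ) (A : Yh →* Matrix (Fin m) (Fin m) ℂ) (P : Subgroup Y)
  (ℓ : Y₁.subgroupOf P →* Yh), CT p M L Y₁ H₀ r r' Φ f H0 Z A P ℓ →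
  ∀ τ : P, τ ∉ Y₁.subgroupOf P → ∀ K : Lin Y, K ^ p = 1 →
  (∀ h ∈ Subgroup.normalClosure (H₀ : Set Y), K h = 1) → ∀ κ : Lin (Y₁.subgroupOf P), κ ^ p = 1 →
  Vr p (Y₁.subgroupOf P) τ κ (resL P K) → ∀ q : ℕ,
  dl q (fun x : Y₁.subgroupOf P => (A (ℓ x)).trace) κ ≠ 0 →
  ∃ K' : Lin Yh, K' ^ p = 1 ∧
    (∀ y, ((f y : Y₁) : Y) ∈ Subgroup.normalClosure (H₀ : Set Y) → K' y = 1) ∧
    ∀ x, K' (ℓ x) = κ x

/-- NIN. If the Galois conjugate of `A` is `K' A` then the one of `r` is `K r`.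
PROOF. `κ₀ = 1 + s0 p^a`. `K'` is trivial on `H0`, so `tr A(h^κ₀) = tr A(h)` for `h ∈ H0`, and
`tr A(y^κ₀) = tr A(y)` for all `y ∈ Yh` by GLA. For `y ∈ Yh` there is `h ∈ H0` with `tr A(y h) ≠ 0`
(`orth`), so `K'(y) = K'(y h) = 1`: `K' = 1`, so `κ = 1`, and `Vr` gives `K = 1` on `P ∩ Y₁` and
`K(τ) = 1`; so `K = 1` on `P` and, as it is trivial on `N`, `K = 1` (`Y = N P`, because `Y/N` is a
`p`-group). It remains to show that `tr r(y^κ₀) = tr r(y)`; by GLA for `Y` and its normal subgroup `N`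
(`schN`) this is enough for `y ∈ N`. `y = ∏ τ^i g_i τ^(-i)` (PRD (7)), `y^κ₀ = ∏ τ^i g_i^κ₀ τ^(-i)` (the
factors commute), so `n^(p-1) tr r(y) = ∏_i e tr r'(g_i)` (CTG (2), `phi`, `pht`), and
`tr r'(g^κ₀) = tr r'(g)` (`TD.res`, `TD.map`). -/
def SpecNIN : Prop := ∀ (p M L : ℕ) {Y : Type} [Group Y] [Finite Y] (Y₁ H₀ : Subgroup Y)
  [Y₁.Normal] [(H₀.subgroupOf Y₁).Normal] (n : ℕ) (r : Y →* Matrix (Fin n) (Fin n) ℂ) (e m : ℕ)
  (r' : H₀.subgroupOf Y₁ →* Matrix (Fin m) (Fin m) ℂ)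
  (Φ : Matrix (Fin m) (Fin m) ℂ →ₐ[ℂ] Matrix (Fin n) (Fin n) ℂ)
  {Yh : Type} [Group Yh] [Finite Yh] (f : Yh →* Y₁) (H0 : Subgroup Yh)
  (Z : Yh →* Matrix (Fin e) (Fin e) ℂ) (A : Yh →* Matrix (Fin m) (Fin m) ℂ) (P : Subgroup Y)
  (ℓ : Y₁.subgroupOf P →* Yh), CT p M L Y₁ H₀ r r' Φ f H0 Z A P ℓ →
  ∀ τ : P, τ ∉ Y₁.subgroupOf P → ∀ s0 : ℕ, Pex p L s0 → ∀ a : ℕ, 1 ≤ a → ∀ K : Lin Y,
  (∀ h ∈ Subgroup.normalClosure (H₀ : Set Y), K h = 1) → ∀ κ : Lin (Y₁.subgroupOf P),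
  Vr p (Y₁.subgroupOf P) τ κ (resL P K) → ∀ K' : Lin Yh,
  (∀ y, ((f y : Y₁) : Y) ∈ Subgroup.normalClosure (H₀ : Set Y) → K' y = 1) →
  (∀ x, K' (ℓ x) = κ x) →
  (∀ y, (A (y ^ (1 + s0 * p ^ a))).trace = ((K' y : ℂˣ) : ℂ) * (A y).trace) →
  ∀ y, (r (y ^ (1 + s0 * p ^ a))).trace = ((K y : ℂˣ) : ℂ) * (r y).trace

/-- WRT. The wreath product step in the context `CT`.
PROOF. Let `τ ∈ P`, `τ ∉ Y₁` (see TIY). By TIY and DLW it is enough that `p ∣ dl q (tr A ∘ ℓ) κ`,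
`q = p^(b'-1)`, for all `κ` with `Vr κ (K|P)`. By LVL (`W3/LVL.lean`) `FX p s0 b' (tr A)`. If `κ^p ≠ 1`: SUG
with `c = b'` (`ℓ x` is a `p`-element, so `(ℓ x)^(1 + s0 p^b' t) = ℓ (x^(1 + p^b' t))`). If `κ^p = 1` and
`dl ≠ 0`: `K'` as in KEX. By NIN (`a = b' - 1`) there is `y` with `tr A(y^(1 + s0 q)) ≠ K'(y) tr A(y)`; GCE
for `G = Y₁`, `L = H₀`, `D = HC` (as subgroups of `Y₁`; `HC ≤ N`) and the Sylow subgroup `range ℓ` of `Yh`;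
QDL for `ℓ : P ∩ Y₁ → range ℓ`. -/
def SpecWRT : Prop := ∀ (p M L b : ℕ) {Y : Type} [Group Y] [Finite Y] (Y₁ H₀ : Subgroup Y)
  [Y₁.Normal] [(H₀.subgroupOf Y₁).Normal] [((HC Y₁ H₀).subgroupOf Y₁).Normal] (n : ℕ)
  (r : Y →* Matrix (Fin n) (Fin n) ℂ) (e m : ℕ)
  (r' : H₀.subgroupOf Y₁ →* Matrix (Fin m) (Fin m) ℂ)
  (Φ : Matrix (Fin m) (Fin m) ℂ →ₐ[ℂ] Matrix (Fin n) (Fin n) ℂ)
  {Yh : Type} [Group Yh] [Finite Yh] (f : Yh →* Y₁) (H0 : Subgroup Yh)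
  (Z : Yh →* Matrix (Fin e) (Fin e) ℂ) (A : Yh →* Matrix (Fin m) (Fin m) ℂ) (P : Subgroup Y)
  (ℓ : Y₁.subgroupOf P →* Yh), CT p M L Y₁ H₀ r r' Φ f H0 Z A P ℓ → 2 ≤ b →
  Good p b (Y₁ ⧸ (HC Y₁ H₀).subgroupOf Y₁) → ∀ b' : ℕ, b ≤ b' → ∀ s0 : ℕ, Pex p L s0 →
  FX p s0 b' (fun y => (r y).trace) → ∀ K : Lin Y, K ^ p = 1 →
  (∀ h ∈ Subgroup.normalClosure (H₀ : Set Y), K h = 1) →
  (∃ y, (r (y ^ (1 + s0 * p ^ (b' - 1)))).trace ≠ ((K y : ℂˣ) : ℂ) * (r y).trace) →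
  p ∣ dl (p ^ (b' - 1)) (fun x : P => (r x).trace) (resL P K)

/-- WRS. The wreath product step.
PROOF. Let `L`, `s0`, `P`, `r`, `K` be as in `ICd p b' Y`. `N` the normal closure of `H₀`. IRH for `N`
(`WY.quo`), IR1 for `Y₁`. DEC for `G = Y₁`, `L = H₀`, `D = HC` (as subgroups of `Y₁`; `L ⊔ D` corresponds to
`N`, PRD (4)), PHI, EXT (`W3/EXT.lean`) for `X = Y₁`, with `M = ordCompl[p] L`; ELL for
`S = Y₁.subgroupOf P`. Put `L' = L · |Yh|`, `Pex p L' s0'`; on `Y` we have `y^s0 = y^s0'` (PRM (6)), so the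
hypotheses hold for `L'`, `s0'` (compare `W3/RE1.lean`). WRT. -/
def SpecWRS : Prop := ∀ (p b : ℕ), p.Prime → 2 ≤ b → ∀ {Y : Type} [Group Y] [Finite Y]
  (Y₁ H₀ : Subgroup Y) [Y₁.Normal] [((HC Y₁ H₀).subgroupOf Y₁).Normal], WY p Y₁ H₀ →
  (∀ K : Lin Y, K ^ p = 1 → ∀ h ∈ Subgroup.normalClosure (H₀ : Set Y), K h = 1) →
  Good p b (Y₁ ⧸ (HC Y₁ H₀).subgroupOf Y₁) → ∀ b' : ℕ, b ≤ b' → ICd p b' Y

/-- WZS. The wreath product step for central extensions.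
PROOF. Let `f : Y → Z` be as in `Good p b Z`; its range contains a Sylow subgroup. It is surjective here by
assumption. COM, HCF, WRS, TWS (`W3/TWS.lean`). -/
def SpecWZS : Prop := ∀ (p b : ℕ), p.Prime → 2 ≤ b → ∀ {Z : Type} [Group Z] [Finite Z]
  (X₁ N₀ : Subgroup Z) [X₁.Normal] [((HC X₁ N₀).subgroupOf X₁).Normal], WY p X₁ N₀ →
  ⁅N₀, N₀⁆ = N₀ → Good p b (X₁ ⧸ (HC X₁ N₀).subgroupOf X₁) →
  ∀ (Y : Type) [Group Y] [Finite Y] (f : Y →* Z), Function.Surjective f →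
  (∀ y, f y = 1 → ∀ z, y * z = z * y) → (Nat.card f.ker).Coprime p → ∀ b' : ℕ, b ≤ b' → IC p b' Y

end Pool.Agent.Lib.MP_1aae89_al.W5
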