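import Pool.Agent.Lib.MP_1aae89_al.W5.DefsC

/-!
# Specifications, part C: the class of groups, the main induction, series

THEOREM (DGO). Every finite group with a subnormal series whose factors satisfy `CC p b` is
`Good p b`. PROOF. Induction on the order of the group `Z`. Let `f : Y → Z` be as in `Good`. (MI1) If
the range `T` is not `Z` use the induction hypothesis for `T`. (MI2) Let `N` be a minimal normal subgroup
of `Z`, `P` a Sylow `p`-subgroup. If `N P ≠ Z` use REC for `f⁻¹(N)` and the induction hypothesis for `Z/N`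
and `N P`. (MI3) Let `Z = N P`. If `N` is abelian it is a `p`-group or a `p'`-group: GPG, GBD. If `N` is
simple then it satisfies `CC` (DDS): GPG, GBD or CFC and GCF (`W4`). Otherwise `N` is a direct product of
more than one conjugates of a simple group (SPL), and the wreath product step WZS reduces to a factor group
of a normal subgroup of index `p` of `Z`.
-/

set_option autoImplicit false

namespace Pool.Agent.Lib.MP_1aae89_al.W5

open Pool.Agent.Lib.MP_1aae89_al Pool.Agent.Lib.MP_1aae89_al.BF Pool.Agent.Lib.MP_1aae89_al.W3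
  Pool.Agent.Lib.MP_1aae89_al.W4 Finset
open Pool.Agent.Lib.MP1aae89 (Pex)

/-! ## The class of groups -/

/-- CCI. `CC` is invariant under isomorphisms. -/
def SpecCCI : Prop := ∀ (p b : ℕ) {X Y : Type} [Group X] [Finite X] [Group Y] [Finite Y]
  (_ : X ≃* Y), CC p b X → CC p b Y

/-- CCN. Normal subgroups.
PROOF. Third case: `Q₁ = Q ∩ N` is an abelian Sylow `p`-subgroup of `N`. Let `g ∈ N` normalize `Q₁`.
`C = C_X(Q₁)` contains `Q`, a Sylow `p`-subgroup of `C`, and `g` normalizes `C`, so `g Q g⁻¹ = c Q c⁻¹`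
for some `c ∈ C` (Sylow in `C`): `c⁻¹ g` normalizes `Q`, and acts on `Q₁` as `g`. So the number of the
automorphisms of `Q₁` induced by `N_N(Q₁)` is at most the number of the restrictions to `Q₁` of the
automorphisms of `Q` induced by `N_X(Q)` (each of these maps `Q₁` to itself), at most
`|N_X(Q) : C_X(Q)| < p`. -/
def SpecCCN : Prop := ∀ (p b : ℕ), p.Prime → ∀ {X : Type} [Group X] [Finite X] (N : Subgroup X)
  [N.Normal], CC p b X → CC p b N

/-- CCQ. Factor groups.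
PROOF. Second case: let `x^(p^b) ∈ N`. Let `s` be `≡ 1` modulo the `p`-part of `|X|` and `≡ 0` modulo the
`p'`-part (`Pex p |X| s`), `y = x^s`, a `p`-element with `y N = x N` (the order of `x N` is a power of `p`).
From `y^(p^j) = 1`, `j ≥ b`, we get `y^(p^(j-1)) = 1` by the hypothesis for `y^(p^(j-b))`; so
`y^(p^(b-1)) = 1` and `x^(p^(b-1)) ∈ N`. Third case: `Q N/N` is an abelian Sylow `p`-subgroup. If `g N`
normalizes `Q N/N` then `g Q g⁻¹ ≤ Q N`, so `g Q g⁻¹ = c Q c⁻¹` for some `c ∈ Q N` (Sylow in `Q N`), and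
we may take `c ∈ N`; so `g N = (c⁻¹ g) N` with `c⁻¹ g ∈ N_X(Q)`. So `N_X(Q)` maps onto the normalizer,
`C_X(Q)` into the centralizer, and the index is at most `|N_X(Q) : C_X(Q)| < p`. -/
def SpecCCQ : Prop := ∀ (p b : ℕ), p.Prime → ∀ {X : Type} [Group X] [Finite X] (N : Subgroup X)
  [N.Normal], CC p b X → CC p b (X ⧸ N)

/-- CCT. Subgroups of index prime to `p` (third case: a conjugate of `Q` is contained in `T`, and
`|N_T(Q) : C_T(Q)| ≤ |N_X(Q) : C_X(Q)|`). -/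
def SpecCCT : Prop := ∀ (p b : ℕ), p.Prime → ∀ {X : Type} [Group X] [Finite X] (T : Subgroup X),
  ¬ p ∣ T.index → CC p b X → CC p b T

/-- DDI. `DD` is invariant under isomorphisms. -/
def SpecDDI : Prop := ∀ (p b n : ℕ) {X Y : Type} [Group X] [Finite X] [Group Y] [Finite Y]
  (_ : X ≃* Y), DD p b n X → DD p b n Y

/-- DDN. Normal subgroups. PROOF. Induction on `n`: `R ⊓ N ≤ R`, `R ⊓ N` is isomorphic to a normal
subgroup of `N`, and `R/(R ⊓ N)` to a normal subgroup of `X/N`; CCN, CCI, DDI. -/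
def SpecDDN : Prop := ∀ (p b : ℕ), p.Prime → ∀ (n : ℕ) {X : Type} [Group X] [Finite X]
  (R : Subgroup X) [R.Normal], DD p b n X → DD p b n R

/-- DDQ. Factor groups. PROOF. Induction on `n`: the image of `N` in `X/R` is isomorphic to a factor
group of `N`, and `(X/R)/(N R/R)` to a factor group of `X/N`; CCQ, CCI, DDI. -/
def SpecDDQ : Prop := ∀ (p b : ℕ), p.Prime → ∀ (n : ℕ) {X : Type} [Group X] [Finite X]
  (R : Subgroup X) [R.Normal], DD p b n X → DD p b n (X ⧸ R)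

/-- DDT. Subgroups of index prime to `p`. PROOF. Induction on `n`: `T` contains a Sylow `p`-subgroup `P`
of `X`, `P ∩ N` is one of `N`, so `T ⊓ N` has index prime to `p` in `N`, and `T/(T ⊓ N)` is isomorphic to
`T N/N`, of index prime to `p` in `X/N`; CCT, CCI, DDI. -/
def SpecDDT : Prop := ∀ (p b : ℕ), p.Prime → ∀ (n : ℕ) {X : Type} [Group X] [Finite X]
  (T : Subgroup X), ¬ p ∣ T.index → DD p b n X → DD p b n T

/-- DDE. Extensions by `p`-groups (the definition; `CC` in the first case). -/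
def SpecDDE : Prop := ∀ (p b : ℕ), p.Prime → ∀ (n : ℕ) {X : Type} [Group X] [Finite X]
  (N : Subgroup X) [N.Normal], DD p b n N → (∀ x : X, ∃ j : ℕ, x ^ p ^ j ∈ N) → DD p b (n + 1) X

/-- DDS. Simple groups. PROOF. Induction on `n`: `N = ⊥`: `X ≅ X/⊥`; `N = ⊤`: `DD p b n X`. -/
def SpecDDS : Prop := ∀ (p b : ℕ), p.Prime → ∀ (n : ℕ) {X : Type} [Group X] [Finite X],
  Nontrivial X → (∀ R : Subgroup X, R.Normal → R = ⊥ ∨ R = ⊤) → DD p b n X → CC p b X

/-! ## Minimal normal subgroups -/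

/-- SPL. The structure of a minimal normal subgroup which is not simple.
PROOF. `N` is perfect and has trivial centre (`⁅N, N⁆`, `Z(N)` are normal in `Z`, and `N` is not abelian).
Let `S ≠ 1` be a minimal normal subgroup of `N` (`S < N` by the last hypothesis). Its conjugates `z S z⁻¹`
are minimal normal subgroups of `N`, so two different ones intersect trivially and commute elementwise.
`B = N_Z(S) ≥ N` is not `Z` (minimality of `N`), and `Z/N` is a `p`-group, so there is a normal subgroup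
`X₁ ≥ B` of `Z` of index `p` (`exists_normal` in `Deg.lean` for `Z/N`). Let `N₀` be the subgroup generated
by the `x S x⁻¹`, `x ∈ X₁`. It is normalized by `X₁`. For `z ∉ X₁`, `x`, `x' ∈ X₁`: `x S x⁻¹ ≠
z x' S (z x')⁻¹`, otherwise `x⁻¹ z x' ∈ B ≤ X₁`; so `N₀` and `z N₀ z⁻¹` commute. The normal closure of
`N₀` is contained in `N`, so it is `N`. Let `H'` be generated by the `z N₀ z⁻¹`, `z ∉ X₁`: `N = N₀ H'`,
commuting, so `N = ⁅N, N⁆ = ⁅N₀, N₀⁆ ⁅H', H'⁆`. For `x ∈ N₀` write `x = u v` accordingly: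
`v = u⁻¹ x ∈ N₀ ∩ H'`, which is central in `N`, so `v = 1` and `x ∈ ⁅N₀, N₀⁆`. -/
def SpecSPL : Prop := ∀ (p : ℕ), p.Prime → ∀ {Z : Type} [Group Z] [Finite Z] (N : Subgroup Z)
  [N.Normal], (∀ R : Subgroup Z, R.Normal → R ≤ N → R = ⊥ ∨ R = N) →
  (∀ z : Z, ∃ j : ℕ, z ^ p ^ j ∈ N) → (¬ ∀ x ∈ N, ∀ y ∈ N, x * y = y * x) →
  (∃ R : Subgroup N, R.Normal ∧ R ≠ ⊥ ∧ R ≠ ⊤) →
  ∃ X₁ N₀ : Subgroup Z, WY p X₁ N₀ ∧ ⁅N₀, N₀⁆ = N₀

/-- MAB. The abelian case.
PROOF. `{x ∈ N : ∃ j, x^(p^j) = 1}` is a normal subgroup of `Z`. If it is `N` then `Z` is a `p`-group: GPG.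
If it is `⊥`: GBD for `F = N`. -/
def SpecMAB : Prop := ∀ (p b : ℕ), p.Prime → 2 ≤ b → ∀ {Z : Type} [Group Z] [Finite Z]
  (N : Subgroup Z) [N.Normal], (∀ R : Subgroup Z, R.Normal → R ≤ N → R = ⊥ ∨ R = N) →
  (∀ z : Z, ∃ j : ℕ, z ^ p ^ j ∈ N) → (∀ x ∈ N, ∀ y ∈ N, x * y = y * x) → Good p b Z

/-- MCC. The case `CC`.
PROOF. (1) `Z` is a `p`-group: GPG. (2) GBD. (3) Let `P` be a Sylow `p`-subgroup of `Z`; `N ⊔ P = ⊤`
(`Z/N` is a `p`-group), and `P ⊓ N` is a Sylow `p`-subgroup of `N`, conjugate in `N` to `Q`; so it is abelian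
and has the same automizer order. CFC (`W4`) gives `CrtF p P`, and GCF (`W4`). -/
def SpecMCC : Prop := ∀ (p b : ℕ), p.Prime → 2 ≤ b → ∀ {Z : Type} [Group Z] [Finite Z]
  (N : Subgroup Z) [N.Normal], (∀ z : Z, ∃ j : ℕ, z ^ p ^ j ∈ N) → CC p b N → Good p b Z

/-! ## The main induction -/

/-- MI1. Reduction to surjective `f`.
PROOF. Let `f : Y → Z` be as in `Good`, `T = f.range`. If `T ≠ ⊤` then `Good p b T` by `IndG` and DDT; apply
it to `f.rangeRestrict`. -/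
def SpecMI1 : Prop := ∀ (p b : ℕ), p.Prime → 2 ≤ b → ∀ (n : ℕ) {Z : Type} [Group Z] [Finite Z],
  DD p b n Z → IndG p b Z → SurG p b Z → Good p b Z

/-- MI2. A normal subgroup `N ≠ 1` with `N P ≠ Z`.
PROOF. REC for `H = N.comap f` (structure `RH`). `Good p b (Y/H)`: `Y/H ≅ Z/N` (ISO), `IndG`, DDQ. `low`,
right: for a Sylow subgroup `P'` of `Y` the image `f(P')` is a Sylow subgroup of `Z`, conjugate to `P`, so
`N ⊔ f(P')` is conjugate to `N ⊔ P` and is not `⊤`; it satisfies `DD p b (n+1)` by DDN (for `N`), DDI and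
DDE, so it is good by `IndG`; apply this to the restriction `H ⊔ P' → N ⊔ f(P')` of `f`, which is
surjective with kernel isomorphic to `ker f`. -/
def SpecMI2 : Prop := ∀ (p b : ℕ), p.Prime → 2 ≤ b → ∀ (n : ℕ) {Z : Type} [Group Z] [Finite Z],
  DD p b n Z → IndG p b Z → ∀ (N : Subgroup Z) [N.Normal], N ≠ ⊥ → ∀ P : Subgroup Z,
  Nat.card P = p ^ (Nat.card Z).factorization p → N ⊔ P ≠ ⊤ → SurG p b Z

/-- MI3. A minimal normal subgroup `N` such that `Z/N` is a `p`-group.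
PROOF. `N` abelian: MAB (and `Good` for surjective `f`: the index of the range is `1`). `N` simple: DDN,
DDS, MCC. Otherwise SPL gives `X₁`, `N₀` (`X₁` is normal of index `p`); `DD p b n X₁` (DDN),
`DD p b n (X₁ ⧸ HC)` (DDQ; `HC` is normalized by `X₁`, PRD), so `X₁ ⧸ HC` is good by `IndG`; WZS. -/
def SpecMI3 : Prop := ∀ (p b : ℕ), p.Prime → 2 ≤ b → ∀ (n : ℕ) {Z : Type} [Group Z] [Finite Z],
  DD p b n Z → IndG p b Z → ∀ (N : Subgroup Z) [N.Normal], N ≠ ⊥ →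
  (∀ R : Subgroup Z, R.Normal → R ≤ N → R = ⊥ ∨ R = N) → (∀ z : Z, ∃ j : ℕ, z ^ p ^ j ∈ N) →
  SurG p b Z

/-- DGO. The main induction.
PROOF. Strong induction on `|Z|`. If `Z` is trivial: GPG. Otherwise let `N ≠ ⊥` be a minimal normal subgroup,
`P` a Sylow subgroup. `N ⊔ P ≠ ⊤`: MI2, MI1. `N ⊔ P = ⊤`: `Z/N` is a `p`-group, MI3, MI1. -/
def SpecDGO : Prop := ∀ (p b : ℕ), p.Prime → 2 ≤ b → ∀ (n : ℕ) {Z : Type} [Group Z] [Finite Z],
  DD p b n Z → Good p b Z

/-! ## Series in a group -/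

/-- SYN. Sylow subgroups of subnormal subgroups: if `P ⊓ B'` is a Sylow `p`-subgroup of `B'` and `B` is
normal in `B'` then `P ⊓ B` is a Sylow `p`-subgroup of `B`. -/
def SpecSYN : Prop := ∀ (p : ℕ), p.Prime → ∀ {M : Type} [Group M] [Finite M]
  (P B B' : Subgroup M), B ≤ B' → (∀ g ∈ B', ∀ x ∈ B, g * x * g⁻¹ ∈ B) →
  Nat.card ↥(P ⊓ B') = p ^ (Nat.card B').factorization p →
  Nat.card ↥(P ⊓ B) = p ^ (Nat.card B).factorization p

/-- FAC. The conditions `Fac` and `CC`.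
PROOF. (1) the order of `B/A` is a power of `p` (Cauchy). (2) clear. (3) `Q`, the image of `P ⊓ B` in
`F = B/A`, is an abelian Sylow `p`-subgroup of `F`; the two sets in `Fac` are the preimages of
`{g ∈ F : g Q g⁻¹ ≤ Q}` and `{g ∈ F : g x g⁻¹ = x for x ∈ Q}`, so their orders are `|A|` times as large; if
`Q` is cyclic use `W4.SpecCYN` for `X = F`, `P = Q` and the normal subgroup `⊤`. -/
def SpecFAC : Prop := ∀ (p b : ℕ), p.Prime → ∀ {M : Type} [Group M] [Finite M]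
  (P A B : Subgroup M), A ≤ B → Nat.card ↥(P ⊓ B) = p ^ (Nat.card B).factorization p →
  ∀ [(A.subgroupOf B).Normal], Fac p b P A B → CC p b (↥B ⧸ A.subgroupOf B)

/-- SER. Series and `DD`.
PROOF. Let `R` be as in `Ser`. `P ⊓ R j` is a Sylow `p`-subgroup of `R j` for all `j ≤ l` (SYN, downwards from
`R l = B`). By induction on `j ≤ l`: `DD p b j (R j / A)`; `j = 0` is clear. `R j / A` is a normal subgroup
of `R (j+1) / A`, with factor group isomorphic to `R (j+1) / R j` (FAC, CCI, DDI). -/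
def SpecSER : Prop := ∀ (p b : ℕ), p.Prime → ∀ {M : Type} [Group M] [Finite M]
  (P A B : Subgroup M), Nat.card ↥(P ⊓ B) = p ^ (Nat.card B).factorization p → A ≤ B →
  ∀ [(A.subgroupOf B).Normal], Ser p b P A B → ∃ n : ℕ, DD p b n (↥B ⧸ A.subgroupOf B)

/-- SGO. A step of the chain.
PROOF. In `X = K' ⊔ P` let `H = K.subgroupOf X`, `F = K'.subgroupOf X`, both normal. `F/H ≅ K'/K` satisfies
`DD p b n`, and `(X/H)/(F/H) ≅ X/F` is a `p`-group; DDI, DDE, DGO. -/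
def SpecSGO : Prop := ∀ (p b : ℕ), p.Prime → 2 ≤ b → ∀ {M : Type} [Group M] [Finite M]
  (P : Subgroup M), IsPGroup p P → ∀ K K' : Subgroup M, K ≤ K' →
  (∀ g ∈ K', ∀ x ∈ K, g * x * g⁻¹ ∈ K) → (∀ g ∈ P, ∀ x ∈ K, g * x * g⁻¹ ∈ K) →
  (∀ g ∈ P, ∀ x ∈ K', g * x * g⁻¹ ∈ K') → ∀ [(K.subgroupOf K').Normal] (n : ℕ),
  DD p b n (↥K' ⧸ K.subgroupOf K') →
  ∀ [_hN : (K.subgroupOf (K' ⊔ P)).Normal], Good p b (↥(K' ⊔ P) ⧸ K.subgroupOf (K' ⊔ P))

/-- FIN. The theorem for `M`.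
PROOF. CHG (`W4`). `P ⊓ K i` is a Sylow `p`-subgroup of `K i` for all `i ≤ m` (SYN, downwards from
`K m = ⊤`). A step with `Ser`: SER, SGO. The other steps: `Stp' p b P (K i) (K (i+1))` holds, STV (`W4`). -/
def SpecFIN : Prop := ∀ (p b : ℕ), p.Prime → 2 ≤ b → ∀ {M : Type} [Group M] [Finite M]
  (P : Subgroup M), Nat.card P = p ^ (Nat.card M).factorization p → ∀ (m : ℕ) (K : ℕ → Subgroup M),
  (∀ i < m, K i ≤ K (i + 1)) → (∀ i < m, ∀ g ∈ K (i + 1), ∀ x ∈ K i, g * x * g⁻¹ ∈ K i) →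
  (∀ i ≤ m, ∀ g ∈ P, ∀ x ∈ K i, g * x * g⁻¹ ∈ K i) → K m = ⊤ → Fxd p b (K 0) →
  (∀ i < m, Ser p b P (K i) (K (i + 1)) ∨
    ((∀ x ∈ P, ∀ y ∈ P, x * y * x⁻¹ * y⁻¹ ∈ K i) ∧
      ∀ [_hN : ((K i).subgroupOf (K (i + 1) ⊔ P)).Normal], Crt p b ((P.subgroupOf
        (K (i + 1) ⊔ P)).map (QuotientGroup.mk' ((K i).subgroupOf (K (i + 1) ⊔ P))))) ∨
    ∀ [_hN : ((K i).subgroupOf (K (i + 1) ⊔ P)).Normal], CrtF p ((P.subgroupOf
      (K (i + 1) ⊔ P)).map (QuotientGroup.mk' ((K i).subgroupOf (K (i + 1) ⊔ P))))) → IC p b M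

end Pool.Agent.Lib.MP_1aae89_al.W5
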