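import Pool.Agent.Lib.MP_1aae89_al.Cyc
import Pool.Agent.Lib.MP_1aae89_al.Ind

/-!
# Definitions for the statement of the theorem on composition factors (MP_1aae89_al, Q1)
-/

set_option autoImplicit false

namespace Pool.Agent.Lib.MP_1aae89_al

/-- all irreducible complex characters of `H` of degree prime to `p` have level less than `b` -/
def LowLevel (p b : ℕ) (H : Type) [Group H] : Prop :=
  ∀ (U : Type) [AddCommGroup U] [Module ℂ U] [FiniteDimensional ℂ U] (θ : Representation ℂ H U),
    θ.IsIrreducible → ¬ p ∣ Module.finrank ℂ U → lev p θ.character < b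

/-- `LowLevel` for all central extensions `Y`, by a group of order prime to `p`, of the subgroups of `F`
of index prime to `p` -/
def NoHighLevel (p b : ℕ) (F : Type) [Group F] : Prop :=
  ∀ (Y : Type) [Group Y] [Finite Y] (f : Y →* F), f.ker ≤ Subgroup.center Y →
    (Nat.card f.ker).Coprime p → ¬ p ∣ f.range.index → LowLevel p b Y

/-- the conditions on the factors: `F` is a `p`-group, or has no element of order `p ^ b`, or has an
abelian Sylow `p`-subgroup `Q` which is cyclic or satisfies `|N_F(Q) : C_F(Q)| < p`, or is simple and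
satisfies `NoHighLevel` -/
def SmallFactor (p b : ℕ) (F : Type) [Group F] : Prop :=
  IsPGroup p F ∨ (∀ x : F, orderOf x ≠ p ^ b) ∨
  (∃ Q : Sylow p F, (∀ x ∈ Q, ∀ y ∈ Q, x * y = y * x) ∧
    (IsCyclic Q ∨ Nat.card (Subgroup.normalizer (Q : Set F)) <
      p * Nat.card (Subgroup.centralizer (Q : Set F)))) ∨
  (IsSimpleGroup F ∧ NoHighLevel p b F)

end Pool.Agent.Lib.MP_1aae89_al
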