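import Pool.Agent.Lib.MP_1aae89_al.W5.SpecD
import Pool.Agent.Lib.MP_1aae89_al.W5.Stat

/-!
# Specifications, part E: the final form
-/

set_option autoImplicit false

namespace Pool.Agent.Lib.MP_1aae89_al.W5

open Pool.Agent.Lib.MP_1aae89_al Pool.Agent.Lib.MP_1aae89_al.BF Pool.Agent.Lib.MP_1aae89_al.W3
  Pool.Agent.Lib.MP_1aae89_al.W4 Finset
open Pool.Agent.Lib.MP1aae89 (Pex)

/-- CH4. Series and `D4`.
PROOF. By induction on `i ≤ m`: `D4 p b i (K i / K 0)` (`K 0` is normal in `M`, so in `K i`); `i = 0`: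
`K 0 / K 0` is trivial. `K i / K 0` is isomorphic to a normal subgroup of `K (i+1) / K 0`, with factor
group isomorphic to `K (i+1) / K i` (K4I, D4I). `i = m`: `⊤ / K 0 ≅ M / K 0`. -/
def SpecCH4 : Prop := ∀ (p b : ℕ) {M : Type} [Group M] [Finite M] (m : ℕ) (K : ℕ → Subgroup M)
  [(K 0).Normal], (∀ i < m, K i ≤ K (i + 1)) → K m = ⊤ →
  (∀ i < m, ∃ _h : ((K i).subgroupOf (K (i + 1))).Normal,
    CC4 p b (↥(K (i + 1)) ⧸ (K i).subgroupOf (K (i + 1)))) → D4 p b m (M ⧸ K 0)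

/-- FXL. `LowLevel` and `Fxd`.
PROOF. Let `L`, `s0`, `r` be as in `Fxd`; `toRep r` (`BF/Bridge.lean`: `toRep_irr`, `toRep_char`) is
irreducible of dimension prime to `p`, so its character has level at most `b - 1`; LVF (1). (This is
`fxd_of_lev` in `W4/Out.lean`; do not import that file, as it imports all modules of `W3`.) -/
def SpecFXL : Prop := ∀ (p b : ℕ), p.Prime → 2 ≤ b → ∀ {H : Type} [Group H] [Finite H],
  LowLevel p b H → Fxd p b H

/-- FOK. The conditions on the factors.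
PROOF. A `p`-group has order `p^e`. If `x^(p^b) = 1` and `x^(p^(b-1)) ≠ 1` then `x` has order `p^b`. The
order of a Sylow subgroup; the sets in `CC` are the normalizer (for a finite group `g Q g⁻¹ ≤ Q` implies
equality) and the centralizer; cyclic case: `W4.SpecCYN` for `X = F`, `P = Q` and the normal subgroup
`⊤`. Last case: FXL. -/
def SpecFOK : Prop := ∀ (p b : ℕ), p.Prime → 2 ≤ b → ∀ {F : Type} [Group F] [Finite F],
  SmallFactor p b F → CC4 p b F

/-- ICM. The theorem for `M`.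
PROOF. `Good p b (M/K 0)` by CH4 and DG4; REC (`W3`) for `K 0` (structure `RH`; `low`, left). -/
def SpecICM : Prop := ∀ (p b : ℕ), p.Prime → 2 ≤ b → ∀ {M : Type} [Group M] [Finite M] (m : ℕ)
  (K : ℕ → Subgroup M) [(K 0).Normal], (∀ i < m, K i ≤ K (i + 1)) → K m = ⊤ →
  (∀ i < m, ∃ _h : ((K i).subgroupOf (K (i + 1))).Normal,
    CC4 p b (↥(K (i + 1)) ⧸ (K i).subgroupOf (K (i + 1)))) → Fxd p b (K 0) → IC p b M

end Pool.Agent.Lib.MP_1aae89_al.W5
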