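import Pool.Agent.Lib.MP_1aae89_al.W5.SpecD
import Pool.Agent.Lib.MP_1aae89_al.W5.SpecC
import Pool.Agent.Lib.MP_1aae89_al.W5.SpecE
import Pool.Agent.Lib.MP_1aae89_al.W5.SpecB
import Pool.Agent.Lib.MP_1aae89_al.BF.PStep
import Pool.Agent.Lib.MP_1aae89_al.W5.SpecA
import Pool.Agent.Lib.MP_1aae89_al.HC.Top
import Pool.Agent.Lib.MP_1aae89_al.W3.SpecC
import Pool.Agent.Lib.MP_1aae89_al.BF.Top
import Pool.Agent.Lib.MP_1aae89_al.W6.Q1D

section
/-!
# C4D: direct products of groups with `C4`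
-/
set_option autoImplicit false

namespace Pool.Agent.Lib.MP_1aae89_al.W5

open Pool.Agent.Lib.MP_1aae89_al Pool.Agent.Lib.MP_1aae89_al.BF Pool.Agent.Lib.MP_1aae89_al.W3
  Pool.Agent.Lib.MP_1aae89_al.W4 Finset
open Pool.Agent.Lib.MP1aae89 (Pex)
open scoped Kronecker

namespace C4DM

/-- `Fxd` is invariant under isomorphisms -/
theorem fxdE {X Y : Type} [Group X] [Group Y] [Finite X] [Finite Y] (p b : ℕ) (e : X ≃* Y)
    (h : Fxd p b X) : Fxd p b Y := by
  intro L s0 hL hcL hpex n r hr hpn t y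
  have hXY : Nat.card X = Nat.card Y := Nat.card_congr e.toEquiv
  have hs : Sch (r.comp e.toMonoidHom) := by
    intro T hT
    refine hr T fun g => ?_
    have h1 := hT (e.symm g)
    have h2 : (r.comp e.toMonoidHom) (e.symm g) = r g := by
      show r (e (e.symm g)) = r g
      rw [MulEquiv.apply_symm_apply]
    rwa [h2] at h1
  have h1 := h L s0 hL (hXY ▸ hcL) hpex n (r.comp e.toMonoidHom) hs hpn t (e.symm y)
  have h2 : (r (e ((e.symm y) ^ (1 + s0 * p ^ (b - 1) * t)))).trace =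
    (r (e (e.symm y))).trace := h1
  rw [map_pow, MulEquiv.apply_symm_apply] at h2
  exact h2

section cm

variable {G : Type} [Group G] {L D : Subgroup G}

theorem mem_sup_comm (h : ∀ x ∈ L, ∀ y ∈ D, x * y = y * x) {g : G} (hg : g ∈ L ⊔ D) :
    ∃ x ∈ L, ∃ y ∈ D, g = x * y := by
  have h1 := MonoidHom.noncommCoprod_range L.subtype D.subtype (fun x y => h x x.2 y y.2)
  rw [L.range_subtype, D.range_subtype] at h1
  rw [← h1] at hg
  obtain ⟨⟨x, y⟩, hxy⟩ := hg
  exact ⟨x, x.2, y, y.2, hxy.symm⟩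

theorem card_sup_comm (h : ∀ x ∈ L, ∀ y ∈ D, x * y = y * x) (hd : L ⊓ D = ⊥) :
    Nat.card ↥(L ⊔ D) = Nat.card L * Nat.card D := by
  have h1 := MonoidHom.noncommCoprod_range L.subtype D.subtype (fun x y => h x x.2 y y.2)
  rw [L.range_subtype, D.range_subtype] at h1
  have h2 : Function.Injective
      (MonoidHom.noncommCoprod L.subtype D.subtype (fun x y => h x x.2 y y.2)) := by
    rw [MonoidHom.noncommCoprod_injective]
    refine ⟨L.subtype_injective, D.subtype_injective, ?_⟩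
    rw [L.range_subtype, D.range_subtype]
    exact disjoint_iff.mpr hd
  rw [← h1, ← Nat.card_prod]
  exact (Nat.card_congr (MonoidHom.ofInjective h2).toEquiv).symm

theorem relIndex_dvd [Finite G] (A T : Subgroup G) [A.Normal] : T.relIndex A ∣ T.index := by
  have h1 := Subgroup.relIndex_mul_relIndex (A ⊓ T) A (T ⊔ A) inf_le_left le_sup_right
  have h2 := Subgroup.relIndex_mul_relIndex (A ⊓ T) T (T ⊔ A) inf_le_right le_sup_left
  rw [Subgroup.inf_relIndex_left, Subgroup.relIndex_sup_right] at h1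
  rw [Subgroup.inf_relIndex_right, ← h1] at h2
  have h3 : A.relIndex T ≠ 0 := Subgroup.index_ne_zero_of_finite
  have h4 : T.relIndex (T ⊔ A) = T.relIndex A := by
    rw [mul_comm] at h2
    exact Nat.eq_of_mul_eq_mul_right (Nat.pos_of_ne_zero h3) h2
  rw [← h4]
  exact Subgroup.relIndex_dvd_index_of_le le_sup_left

end cm

/-! ## The subgroup generated by the `p`-elements -/

/-- the subgroup generated by the `p`-elements of `V` -/
def EP (p : ℕ) {Y : Type} [Group Y] (V : Subgroup Y) : Subgroup Y :=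
  Subgroup.closure {x | x ∈ V ∧ ∃ k : ℕ, x ^ p ^ k = 1}

section ep

variable {p : ℕ} {Y : Type} [Group Y] {V : Subgroup Y}

theorem EP_le : EP p V ≤ V := (Subgroup.closure_le V).2 fun _ hx => hx.1

theorem mem_EP {x : Y} (hx : x ∈ V) {k : ℕ} (hk : x ^ p ^ k = 1) : x ∈ EP p V :=
  Subgroup.subset_closure ⟨hx, k, hk⟩

theorem EP_normal [hV : V.Normal] : (EP p V).Normal := by
  refine ⟨fun n hn g => ?_⟩
  unfold EP at hn
  induction hn using Subgroup.closure_induction with
  | mem x hx =>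
    obtain ⟨hx1, k, hk⟩ := hx
    exact mem_EP (hV.conj_mem x hx1 g) (k := k) (by rw [conj_pow, hk, mul_one, mul_inv_cancel])
  | one => rw [mul_one, mul_inv_cancel]; exact one_mem _
  | mul x y _ _ hx hy =>
    have h1 : g * (x * y) * g⁻¹ = (g * x * g⁻¹) * (g * y * g⁻¹) := by group
    rw [h1]
    exact mul_mem hx hy
  | inv x _ hx =>
    have h1 : g * x⁻¹ * g⁻¹ = (g * x * g⁻¹)⁻¹ := by group
    rw [h1]
    exact inv_mem hx

theorem EP_relIndex (hp : p.Prime) [Finite Y] : ¬ p ∣ (EP p V).relIndex V := by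
  have : Fact p.Prime := ⟨hp⟩
  intro h
  obtain ⟨P⟩ : Nonempty (Sylow p V) := inferInstance
  have h1 : (P : Subgroup V) ≤ (EP p V).subgroupOf V := by
    intro x hx
    obtain ⟨k, hk⟩ := P.isPGroup' ⟨x, hx⟩
    rw [Subgroup.mem_subgroupOf]
    refine mem_EP x.2 (k := k) ?_
    have h2 := congrArg (fun z : (P : Subgroup V) => ((z : V) : Y)) hk
    simpa using h2
  exact P.not_dvd_index (h.trans (Subgroup.index_dvd_of_le h1))

theorem EP_comm {F : Type} [Group F] (f : Y →* F)
    (hcen : ∀ y, f y = 1 → ∀ z, y * z = z * y) (hker : (Nat.card f.ker).Coprime p)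
    {W : Subgroup Y} (hVW : ∀ x ∈ V, ∀ y ∈ W, f x * f y = f y * f x) :
    ∀ x ∈ EP p V, ∀ y ∈ W, x * y = y * x := by
  intro x hx y hy
  unfold EP at hx
  induction hx using Subgroup.closure_induction with
  | mem x hx =>
    obtain ⟨hx1, k, hk⟩ := hx
    have hc1 : f (x * y * x⁻¹ * y⁻¹) = 1 := by
      rw [map_mul, map_mul, map_mul, hVW x hx1 y hy, map_inv, map_inv]
      group
    obtain ⟨c, hc⟩ : ∃ c, c = x * y * x⁻¹ * y⁻¹ := ⟨_, rfl⟩
    rw [← hc] at hc1
    have hxy : x * y * x⁻¹ = c * y := by rw [hc]; group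
    have hj : ∀ j : ℕ, x ^ j * y * (x ^ j)⁻¹ = c ^ j * y := by
      intro j
      induction j with
      | zero => simp
      | succ j ih =>
        have h1 : x ^ (j + 1) * y * (x ^ (j + 1))⁻¹ = x * (x ^ j * y * (x ^ j)⁻¹) * x⁻¹ := by
          rw [pow_succ']; group
        have hcx : x * c ^ j = c ^ j * x := by
          have h3 : Commute c x := hcen c hc1 x
          exact (h3.pow_left j).symm.eq
        rw [h1, ih, ← mul_assoc, hcx, mul_assoc (c ^ j), mul_assoc (c ^ j), hxy, pow_succ,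
          mul_assoc]
    have h2 := hj (p ^ k)
    rw [hk, one_mul, inv_one, mul_one] at h2
    have h3 : c ^ p ^ k = 1 := by
      have h4 := h2.symm
      rwa [mul_eq_right] at h4
    have h5 : orderOf c ∣ p ^ k := orderOf_dvd_of_pow_eq_one h3
    have h6 : orderOf c ∣ Nat.card f.ker := by
      have h7 := orderOf_dvd_natCard (⟨c, hc1⟩ : f.ker)
      rwa [← Subgroup.orderOf_coe] at h7
    have h8 : orderOf c = 1 := Nat.eq_one_of_dvd_coprimes (hker.pow_right k) h6 h5
    rw [orderOf_eq_one_iff] at h8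
    rw [h8, one_mul, mul_inv_eq_iff_eq_mul] at hxy
    exact hxy
  | one => rw [one_mul, mul_one]
  | mul x z _ _ hx hz => rw [mul_assoc, hz, ← mul_assoc, hx, mul_assoc]
  | inv x _ hx => rw [inv_mul_eq_iff_eq_mul, ← mul_assoc, hx, mul_assoc, mul_inv_cancel, mul_one]

end ep

theorem map_EP {p : ℕ} (hp : p.Prime) {Y F : Type} [Group Y] [Finite Y] [Group F] [Finite F]
    (f : Y →* F) (hidx : ¬ p ∣ f.range.index) (A : Subgroup F) [A.Normal] :
    ¬ p ∣ ((EP p (A.comap f)).map f).relIndex A := by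
  have h1 : (A.comap f).map f = f.range ⊓ A := Subgroup.map_comap_eq f A
  have h2 : (EP p (A.comap f)).map f ≤ f.range ⊓ A := by
    rw [← h1]
    exact Subgroup.map_mono EP_le
  have h3 := Subgroup.relIndex_mul_relIndex _ (f.range ⊓ A) A h2 inf_le_right
  rw [← h3]
  intro h
  rcases (Nat.Prime.dvd_mul hp).1 h with h | h
  · rw [← h1, Subgroup.relIndex_map_map] at h
    have h4 : A.comap f ⊔ f.ker = A.comap f :=
      sup_eq_left.mpr fun x hx => by
        rw [Subgroup.mem_comap, MonoidHom.mem_ker.1 hx]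
        exact one_mem _
    rw [h4] at h
    exact EP_relIndex hp (h.trans (Subgroup.relIndex_dvd_of_le_left _ le_sup_left))
  · rw [Subgroup.inf_relIndex_right] at h
    exact hidx (h.trans (relIndex_dvd A f.range))

theorem fxd_EP {p b : ℕ} (hp : p.Prime) {Y F : Type} [Group Y] [Finite Y] [Group F] [Finite F]
    (f : Y →* F) (hcen : ∀ y, f y = 1 → ∀ z, y * z = z * y) (hker : (Nat.card f.ker).Coprime p)
    (hidx : ¬ p ∣ f.range.index) (A : Subgroup F) [A.Normal] (hA : C4 p b A) :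
    Fxd p b (EP p (A.comap f)) := by
  let g : EP p (A.comap f) →* A :=
    (f.comp (EP p (A.comap f)).subtype).codRestrict A fun x =>
      show f (x : Y) ∈ A from Subgroup.mem_comap.1 (EP_le x.2)
  have hg : ∀ x, g x = 1 → f x = 1 := fun x hx => congrArg Subtype.val hx
  refine hA _ g (fun y hy z => Subtype.ext (hcen y (hg y hy) z)) ?_ ?_
  · have h1 : g.ker.map (EP p (A.comap f)).subtype ≤ f.ker := by
      rintro _ ⟨x, hx, rfl⟩
      exact hg x hx
    have h2 := Subgroup.card_dvd_of_le h1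
    rw [Subgroup.card_map_of_injective (Subgroup.subtype_injective _)] at h2
    exact Nat.Coprime.coprime_dvd_left h2 hker
  · have h1 : g.range = ((EP p (A.comap f)).map f).subgroupOf A := by
      ext a
      rw [Subgroup.mem_subgroupOf, Subgroup.mem_map, MonoidHom.mem_range]
      constructor
      · rintro ⟨x, hx⟩
        exact ⟨x, x.2, congrArg Subtype.val hx⟩
      · rintro ⟨x, hx, hxa⟩
        exact ⟨⟨x, hx⟩, Subtype.ext hxa⟩
    rw [h1]
    exact map_EP hp f hidx A

/-! ## Products of commuting subgroups -/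

theorem iso_tr (hDEC : SpecDEC) {p b : ℕ} {G : Type} [Group G] [Finite G] (L D : Subgroup G)
    (hc : ∀ x ∈ L, ∀ y ∈ D, x * y = y * x) (htop : L ⊔ D = ⊤) (hL : Fxd p b L) {L0 s0 : ℕ}
    (hL0 : L0 ≠ 0) (hcard : Nat.card G ∣ L0) (hpex : Pex p L0 s0) {n : ℕ}
    (r : G →* Matrix (Fin n) (Fin n) ℂ) (hr : Sch r) (hpn : ¬ p ∣ n) (t : ℕ) {x : G}
    (hx : x ∈ L) : (r (x ^ (1 + s0 * p ^ (b - 1) * t))).trace = (r x).trace := by
  have hn : n ≠ 0 := by rintro rfl; exact hpn (dvd_zero _)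
  have hr' : Sch (r.comp (L ⊔ D).subtype) := by
    intro T hT
    refine hr T fun g => ?_
    have hg : g ∈ L ⊔ D := by rw [htop]; trivial
    exact hT ⟨g, hg⟩
  obtain ⟨e, m, r', Q, Q', hnem, hsr', hQQ', hQ'Q, hrl⟩ := hDEC n r hn L D hc hr'
  have htr : ∀ l : L, (r l).trace = e * (r' l).trace := by
    intro l
    have h1 : r l = Q * ((1 : Matrix (Fin e) (Fin e) ℂ) ⊗ₖ r' l) * Q' := by
      rw [← hrl l, Matrix.mul_assoc, hQQ', Matrix.mul_one]
    rw [h1, Matrix.trace_mul_comm, ← Matrix.mul_assoc, hQ'Q, Matrix.one_mul,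
      Matrix.trace_kronecker, Matrix.trace_one, Fintype.card_fin]
  have hpm : ¬ p ∣ m := fun h => hpn (hnem ▸ Dvd.dvd.mul_left h e)
  have h2 := hL L0 s0 hL0 ((Subgroup.card_subgroup_dvd_card L).trans hcard) hpex m r' hsr' hpm t
    ⟨x, hx⟩
  have h2' : (r' (⟨x, hx⟩ ^ (1 + s0 * p ^ (b - 1) * t))).trace = (r' ⟨x, hx⟩).trace := h2
  have h3 := htr (⟨x, hx⟩ ^ (1 + s0 * p ^ (b - 1) * t))
  have h4 := htr ⟨x, hx⟩
  rw [h2', ← h4, Subgroup.coe_pow] at h3
  exact h3

theorem fxd_mul (hDEC : SpecDEC) (hMTR : SpecMTR) {p b : ℕ} {G : Type} [Group G] [Finite G]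
    (L D : Subgroup G) (hc : ∀ x ∈ L, ∀ y ∈ D, x * y = y * x) (htop : L ⊔ D = ⊤)
    (hL : Fxd p b L) (hD : Fxd p b D) : Fxd p b G := by
  intro L0 s0 hL0 hcard hpex n r hr hpn t y
  have hn : n ≠ 0 := by rintro rfl; exact hpn (dvd_zero _)
  have hr' : Sch (r.comp (L ⊔ D).subtype) := by
    intro T hT
    refine hr T fun g => ?_
    have hg : g ∈ L ⊔ D := by rw [htop]; trivial
    exact hT ⟨g, hg⟩
  have hM : ∀ x ∈ L, ∀ z ∈ D, (n : ℂ) * (r (x * z)).trace = (r x).trace * (r z).trace := by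
    intro x hx z hz
    rw [map_mul]
    refine hMTR n r hn L D hc hr' (r x) (Submodule.subset_span ⟨⟨x, hx⟩, rfl⟩) (r z)
      fun w hw => ?_
    rw [← map_mul, ← map_mul, hc w hw z hz]
  have hy : y ∈ L ⊔ D := by rw [htop]; trivial
  obtain ⟨x, hx, z, hz, rfl⟩ := mem_sup_comm hc hy
  have hcx : Commute x z := hc x hx z hz
  have h1 := hM (x ^ (1 + s0 * p ^ (b - 1) * t)) (pow_mem hx _)
    (z ^ (1 + s0 * p ^ (b - 1) * t)) (pow_mem hz _)
  rw [iso_tr hDEC L D hc htop hL hL0 hcard hpex r hr hpn t hx,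
    iso_tr hDEC D L (fun u hu v hv => (hc v hv u hu).symm) (by rw [sup_comm, htop]) hD hL0 hcard
      hpex r hr hpn t hz, ← hM x hx z hz, ← hcx.mul_pow] at h1
  have hn' : (n : ℂ) ≠ 0 := by exact_mod_cast hn
  exact mul_left_cancel₀ hn' h1

theorem fxd_sup (hDEC : SpecDEC) (hMTR : SpecMTR) {p b : ℕ} {Y : Type} [Group Y] [Finite Y]
    (L D : Subgroup Y) (hc : ∀ x ∈ L, ∀ y ∈ D, x * y = y * x)
    (hL : Fxd p b L) (hD : Fxd p b D) : Fxd p b ↥(L ⊔ D) := by
  refine fxd_mul hDEC hMTR (L.subgroupOf (L ⊔ D)) (D.subgroupOf (L ⊔ D)) ?_ ?_ ?_ ?_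
  · intro x hx y hy
    exact Subtype.ext (hc x (Subgroup.mem_subgroupOf.1 hx) y (Subgroup.mem_subgroupOf.1 hy))
  · rw [← Subgroup.subgroupOf_sup le_sup_left le_sup_right, Subgroup.subgroupOf_self]
  · exact fxdE p b (Subgroup.subgroupOfEquivOfLe le_sup_left).symm hL
  · exact fxdE p b (Subgroup.subgroupOfEquivOfLe le_sup_right).symm hD

theorem card_rel {G : Type} [Group G] {A1 A : Subgroup G} (h : A1 ≤ A) :
    Nat.card A1 * A1.relIndex A = Nat.card A := by
  have h1 := Subgroup.relIndex_mul_relIndex ⊥ A1 A bot_le h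
  rwa [Subgroup.relIndex_bot_left, Subgroup.relIndex_bot_left] at h1

theorem index_sup {F : Type} [Group F] [Finite F] {A B A1 B1 : Subgroup F}
    (hc : ∀ x ∈ A, ∀ y ∈ B, x * y = y * x) (hd : A ⊓ B = ⊥) (ht : A ⊔ B = ⊤) (hA : A1 ≤ A)
    (hB : B1 ≤ B) : (A1 ⊔ B1).index = A1.relIndex A * B1.relIndex B := by
  have h1 : Nat.card ↥(A1 ⊔ B1) = Nat.card A1 * Nat.card B1 :=
    card_sup_comm (fun x hx y hy => hc x (hA hx) y (hB hy))
      (le_bot_iff.1 (hd ▸ inf_le_inf hA hB))
  have h2 : Nat.card F = Nat.card A * Nat.card B := by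
    rw [← card_sup_comm hc hd, ht]
    exact (Nat.card_congr Subgroup.topEquiv.toEquiv).symm
  have h3 := Subgroup.card_mul_index (A1 ⊔ B1)
  rw [h1, h2, ← card_rel hA, ← card_rel hB] at h3
  have h4 : 0 < Nat.card A1 * Nat.card B1 := Nat.mul_pos Nat.card_pos Nat.card_pos
  refine Nat.eq_of_mul_eq_mul_left h4 ?_
  rw [h3]
  ring

end C4DM

open C4DM in
theorem specC4D (hDEC : SpecDEC) (hMTR : SpecMTR) (hFXP : SpecFXP) : SpecC4D := by
  intro p b hp hb F _ _ A B hc hd ht hA hB Y _ _ f hcen hker hidx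
  have hAn : A.Normal := by
    refine ⟨fun n hn g => ?_⟩
    have hg : g ∈ A ⊔ B := by rw [ht]; trivial
    obtain ⟨x, hx, y, hy, rfl⟩ := mem_sup_comm hc hg
    have h1 : x * y * n * (x * y)⁻¹ = x * n * x⁻¹ := by
      rw [mul_assoc x y n, ← hc n hn y hy]
      group
    rw [h1]
    exact mul_mem (mul_mem hx hn) (inv_mem hx)
  have hBn : B.Normal := by
    refine ⟨fun n hn g => ?_⟩
    have hg : g ∈ A ⊔ B := by rw [ht]; trivial
    obtain ⟨x, hx, y, hy, rfl⟩ := mem_sup_comm hc hg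
    have h2 : y * n * y⁻¹ ∈ B := mul_mem (mul_mem hy hn) (inv_mem hy)
    have h1 : x * y * n * (x * y)⁻¹ = y * n * y⁻¹ := by
      have h3 := hc x hx _ h2
      calc x * y * n * (x * y)⁻¹ = x * (y * n * y⁻¹) * x⁻¹ := by group
        _ = y * n * y⁻¹ := by rw [h3]; group
    rw [h1]
    exact h2
  have hcE : ∀ x ∈ EP p (A.comap f), ∀ y ∈ EP p (B.comap f), x * y = y * x :=
    fun x hx y hy => EP_comm f hcen hker (V := A.comap f) (W := B.comap f)
      (fun u hu v hv => hc (f u) hu (f v) hv) x hx y (EP_le hy)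
  have hEA : (EP p (A.comap f)).Normal := EP_normal
  have hEB : (EP p (B.comap f)).Normal := EP_normal
  have hfx := fxd_sup hDEC hMTR _ _ hcE (fxd_EP hp f hcen hker hidx A hA)
    (fxd_EP hp f hcen hker hidx B hB)
  refine hFXP p b hp hb (EP p (A.comap f) ⊔ EP p (B.comap f)) ?_ hfx
  have h1 := Subgroup.index_map (EP p (A.comap f) ⊔ EP p (B.comap f)) f
  have h2 := Subgroup.relIndex_mul_index
    (le_sup_left : EP p (A.comap f) ⊔ EP p (B.comap f) ≤
      (EP p (A.comap f) ⊔ EP p (B.comap f)) ⊔ f.ker)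
  rw [← h2]
  intro h
  rcases (Nat.Prime.dvd_mul hp).1 h with h | h
  · rw [Subgroup.relIndex_sup_left] at h
    have h3 := h.trans (Subgroup.relIndex_dvd_card _ _)
    exact (Nat.Prime.coprime_iff_not_dvd hp).1 hker.symm h3
  · have h3 : p ∣ ((EP p (A.comap f) ⊔ EP p (B.comap f)).map f).index := by
      rw [h1]
      exact Dvd.dvd.mul_right h _
    have h4 : (EP p (A.comap f)).map f ≤ A := by
      rintro _ ⟨x, hx, rfl⟩
      exact Subgroup.mem_comap.1 (EP_le hx)
    have h5 : (EP p (B.comap f)).map f ≤ B := by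
      rintro _ ⟨x, hx, rfl⟩
      exact Subgroup.mem_comap.1 (EP_le hx)
    rw [Subgroup.map_sup, index_sup hc hd ht h4 h5] at h3
    rcases (Nat.Prime.dvd_mul hp).1 h3 with h6 | h6
    · exact map_EP hp f hidx A h6
    · exact map_EP hp f hidx B h6

end Pool.Agent.Lib.MP_1aae89_al.W5
end

section
/-!
# Module C4G: a normal subgroup with `C4` with a `p`-group as quotient
-/
set_option autoImplicit false

namespace Pool.Agent.Lib.MP_1aae89_al.W5

open Pool.Agent.Lib.MP_1aae89_al Pool.Agent.Lib.MP_1aae89_al.BF Pool.Agent.Lib.MP_1aae89_al.W3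
  Pool.Agent.Lib.MP_1aae89_al.W4 Finset
open Pool.Agent.Lib.MP1aae89 (Pex)

namespace C4G

/-- the index of `T ∩ F` in `F` -/
theorem relIndex_ndvd {Z : Type} [Group Z] [Finite Z] {p : ℕ} (T F : Subgroup Z) [F.Normal]
    (h : ¬ p ∣ T.index) : ¬ p ∣ T.relIndex F := by
  obtain ⟨k, hk⟩ := Subgroup.relIndex_dvd_index_of_normal F T
  have h1 : (T ⊓ F).relIndex F * F.index = (T ⊓ F).index := Subgroup.relIndex_mul_index inf_le_right
  have h2 : (T ⊓ F).relIndex T * T.index = (T ⊓ F).index := Subgroup.relIndex_mul_index inf_le_left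
  rw [Subgroup.inf_relIndex_right] at h1
  rw [Subgroup.inf_relIndex_left] at h2
  have hpos : 0 < F.relIndex T := Nat.pos_of_ne_zero Subgroup.FiniteIndex.index_ne_zero
  have h3 : T.relIndex F * k = T.index := by
    have h4 : F.relIndex T * (T.relIndex F * k) = F.relIndex T * T.index := by
      rw [h2, ← h1, hk]
      ring
    exact Nat.eq_of_mul_eq_mul_left hpos h4
  intro hp
  exact h (h3 ▸ hp.mul_right k)

end C4G

theorem specC4G (hREC : SpecREC) (hGPG : SpecGPG) : SpecC4G := by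
  intro p b hp hb Z _ _ F hFn hZ hC Y _ _ f hc hker hran b' hb'
  have hFp : Fact p.Prime := ⟨hp⟩
  have hHn : (F.comap f).Normal := hFn.comap f
  refine hREC p b hp hb (F.comap f) ⟨hHn, Or.inl ?_, ?_⟩ b' hb'
  · refine hC ↥(F.comap f) (f.subgroupComap F) ?_ ?_ ?_
    · intro y hy z
      have h1 : f (y : Y) = 1 := congrArg Subtype.val hy
      exact Subtype.ext (hc y h1 z)
    · have hinj : Function.Injective (fun y : (f.subgroupComap F).ker =>
          (⟨((y : ↥(F.comap f)) : Y), by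
            have := y.2
            rw [MonoidHom.mem_ker] at this
            rw [MonoidHom.mem_ker]
            exact congrArg Subtype.val this⟩ : f.ker)) := by
        intro y z hyz
        have h1 := congrArg Subtype.val hyz
        exact Subtype.ext (Subtype.ext h1)
      have hcard : Nat.card (f.subgroupComap F).ker ∣ Nat.card f.ker := by
        let g : (f.subgroupComap F).ker →* f.ker :=
          { toFun := fun y => ⟨((y : ↥(F.comap f)) : Y), by
              have := y.2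
              rw [MonoidHom.mem_ker] at this
              rw [MonoidHom.mem_ker]
              exact congrArg Subtype.val this⟩
            map_one' := rfl
            map_mul' := fun _ _ => rfl }
        exact Subgroup.card_dvd_of_injective g hinj
      exact Nat.Coprime.coprime_dvd_left hcard hker
    · have hr : (f.subgroupComap F).range = f.range.subgroupOf F := by
        ext x
        constructor
        · rintro ⟨y, rfl⟩
          exact ⟨(y : Y), rfl⟩
        · intro hx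
          obtain ⟨y, hy⟩ := (Subgroup.mem_subgroupOf.1 hx)
          refine ⟨⟨y, ?_⟩, ?_⟩
          · rw [Subgroup.mem_comap, hy]
            exact x.2
          · exact Subtype.ext hy
      rw [hr]
      exact C4G.relIndex_ndvd f.range F hran
  · intro hN
    have hpg : IsPGroup p (Y ⧸ F.comap f) := by
      intro z
      obtain ⟨y, rfl⟩ := QuotientGroup.mk_surjective z
      obtain ⟨j, hj⟩ := hZ (f y)
      refine ⟨j, ?_⟩
      rw [← QuotientGroup.mk_pow, QuotientGroup.eq_one_iff, Subgroup.mem_comap, map_pow]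
      exact hj
    obtain ⟨e, he⟩ := IsPGroup.iff_card.1 hpg
    exact hGPG p b hp hb e he

end Pool.Agent.Lib.MP_1aae89_al.W5
end

section
/-!
# C4I: invariance of `C4` under isomorphisms
-/
set_option autoImplicit false

namespace Pool.Agent.Lib.MP_1aae89_al.W5

open Pool.Agent.Lib.MP_1aae89_al Pool.Agent.Lib.MP_1aae89_al.BF Pool.Agent.Lib.MP_1aae89_al.W3
  Pool.Agent.Lib.MP_1aae89_al.W4 Finset

theorem specC4I : SpecC4I := by
  intro p b X Y _ _ _ _ e hX T _ _ f hcen hker hran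
  have hk : (e.symm.toMonoidHom.comp f).ker = f.ker := by
    ext y
    simp only [MonoidHom.mem_ker, MonoidHom.comp_apply]
    constructor
    · intro h
      have h1 : e.symm (f y) = 1 := h
      rwa [map_eq_one_iff e.symm e.symm.injective] at h1
    · intro h
      rw [h]
      exact map_one _
  have hr : (e.symm.toMonoidHom.comp f).range.index = f.range.index := by
    rw [MonoidHom.range_comp]
    exact Subgroup.index_map_equiv f.range e.symm
  refine hX T (e.symm.toMonoidHom.comp f) (fun y hy z => ?_) ?_ ?_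
  · refine hcen y ?_ z
    have h1 : e.symm (f y) = 1 := hy
    rwa [map_eq_one_iff e.symm e.symm.injective] at h1
  · rw [hk]
    exact hker
  · rw [hr]
    exact hran

end Pool.Agent.Lib.MP_1aae89_al.W5
end

section
/-!
# Module CCI: `CC` is invariant under isomorphisms
-/
set_option autoImplicit false

namespace Pool.Agent.Lib.MP_1aae89_al.W5

theorem specCCI : SpecCCI := by
  intro p b X Y _ _ _ _ φ h
  have hcard : Nat.card Y = Nat.card X := (Nat.card_congr φ.toEquiv).symm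
  rcases h with ⟨e, he⟩ | h | ⟨Q, hQ1, hQ2, hQ3⟩
  · exact Or.inl ⟨e, by rw [hcard, he]⟩
  · refine Or.inr (Or.inl fun y hy => ?_)
    have h1 := h (φ.symm y) (by rw [← map_pow, hy, map_one])
    have h2 := congrArg φ h1
    rwa [map_pow, φ.apply_symm_apply, map_one] at h2
  · refine Or.inr (Or.inr ⟨Q.map φ.toMonoidHom, ?_, ?_, ?_⟩)
    · rw [hcard, ← hQ1]
      exact (Nat.card_congr (Q.equivMapOfInjective φ.toMonoidHom φ.injective).toEquiv).symm
    · rintro _ ⟨x, hx, rfl⟩ _ ⟨y, hy, rfl⟩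
      rw [← map_mul, ← map_mul, hQ2 x hx y hy]
    · have hmem : ∀ x : X, φ x ∈ Q.map φ.toMonoidHom ↔ x ∈ Q := fun x => by
        constructor
        · rintro ⟨z, hz, hz'⟩
          have : z = x := φ.injective hz'
          rwa [← this]
        · intro hx
          exact ⟨x, hx, rfl⟩
      have e1 : Nat.card {g : Y // ∀ x ∈ Q.map φ.toMonoidHom, g * x * g⁻¹ ∈ Q.map φ.toMonoidHom} =
          Nat.card {g : X // ∀ x ∈ Q, g * x * g⁻¹ ∈ Q} := by
        refine (Nat.card_congr (φ.toEquiv.subtypeEquiv fun g => ?_)).symm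
        constructor
        · rintro hg _ ⟨x, hx, rfl⟩
          have h1 := (hmem _).2 (hg x hx)
          rwa [map_mul, map_mul, map_inv] at h1
        · intro hg x hx
          have h1 := hg (φ x) ⟨x, hx, rfl⟩
          rw [← hmem, map_mul, map_mul, map_inv]
          exact h1
      have e2 : Nat.card {g : Y // ∀ x ∈ Q.map φ.toMonoidHom, g * x * g⁻¹ = x} =
          Nat.card {g : X // ∀ x ∈ Q, g * x * g⁻¹ = x} := by
        refine (Nat.card_congr (φ.toEquiv.subtypeEquiv fun g => ?_)).symm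
        constructor
        · rintro hg _ ⟨x, hx, rfl⟩
          have h1 := congrArg φ (hg x hx)
          rwa [map_mul, map_mul, map_inv] at h1
        · intro hg x hx
          have h1 := hg (φ x) ⟨x, hx, rfl⟩
          apply φ.injective
          rw [map_mul, map_mul, map_inv]
          exact h1
      rw [e1, e2]
      exact hQ3

end Pool.Agent.Lib.MP_1aae89_al.W5
end

section
/-!
# CH4: series and `D4`
-/
set_option autoImplicit false

namespace Pool.Agent.Lib.MP_1aae89_al.W5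

open Pool.Agent.Lib.MP_1aae89_al Pool.Agent.Lib.MP_1aae89_al.BF Pool.Agent.Lib.MP_1aae89_al.W3
  Pool.Agent.Lib.MP_1aae89_al.W4 Finset

namespace CH4

variable {M : Type} [Group M]

/-- `B / A` as a subgroup of `C / A` -/
noncomputable def equiv1 {A B C : Subgroup M} [A.Normal] (hBC : B ≤ C) :
    ↥B ⧸ A.subgroupOf B ≃*
      ↥((B.subgroupOf C).map (QuotientGroup.mk' (A.subgroupOf C))) := by
  let g : B →* ↥C ⧸ A.subgroupOf C :=
    (QuotientGroup.mk' (A.subgroupOf C)).comp (Subgroup.inclusion hBC)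
  have hk : g.ker = A.subgroupOf B := by
    ext x
    rw [MonoidHom.mem_ker, Subgroup.mem_subgroupOf]
    exact QuotientGroup.eq_one_iff (Subgroup.inclusion hBC x)
  have hr : g.range = (B.subgroupOf C).map (QuotientGroup.mk' (A.subgroupOf C)) := by
    ext y
    constructor
    · rintro ⟨x, rfl⟩
      exact ⟨Subgroup.inclusion hBC x, x.2, rfl⟩
    · rintro ⟨x, hx, rfl⟩
      exact ⟨⟨x.1, hx⟩, rfl⟩
  exact ((QuotientGroup.quotientMulEquivOfEq hk.symm).trans
    (QuotientGroup.quotientKerEquivRange g)).trans (MulEquiv.subgroupCongr hr)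

/-- `⊤ / A` and `M / A` -/
noncomputable def equiv2 {A T : Subgroup M} [A.Normal] (hT : T = ⊤) :
    ↥T ⧸ A.subgroupOf T ≃* M ⧸ A := by
  let g : T →* M ⧸ A := (QuotientGroup.mk' A).comp T.subtype
  have hg : Function.Surjective g := by
    intro y
    obtain ⟨x, rfl⟩ := QuotientGroup.mk'_surjective A y
    exact ⟨⟨x, hT ▸ Subgroup.mem_top x⟩, rfl⟩
  have hk : g.ker = A.subgroupOf T := by
    ext x
    rw [MonoidHom.mem_ker, Subgroup.mem_subgroupOf]
    exact QuotientGroup.eq_one_iff (x : M)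
  exact (QuotientGroup.quotientMulEquivOfEq hk.symm).trans
    (QuotientGroup.quotientKerEquivOfSurjective g hg)

end CH4

theorem specCH4 (hK4I : SpecK4I) (hD4I : SpecD4I) : SpecCH4 := by
  intro p b M _ _ m K _ hle hm hf
  have h0 : ∀ i ≤ m, K 0 ≤ K i := by
    intro i
    induction i with
    | zero => intro _; exact le_rfl
    | succ i ih => intro hi; exact (ih (by omega)).trans (hle i (by omega))
  have key : ∀ i ≤ m, D4 p b i (↥(K i) ⧸ (K 0).subgroupOf (K i)) := by
    intro i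
    induction i with
    | zero =>
      intro _
      show Subsingleton (↥(K 0) ⧸ (K 0).subgroupOf (K 0))
      rw [Subgroup.subgroupOf_self]
      exact QuotientGroup.subsingleton_quotient_top
    | succ i ih =>
      intro hi
      obtain ⟨hN, hC⟩ := hf i (by omega)
      have hA : (K 0).subgroupOf (K (i + 1)) ≤ (K i).subgroupOf (K (i + 1)) :=
        Subgroup.comap_mono (h0 i (by omega))
      have hR : (((K i).subgroupOf (K (i + 1))).map
          (QuotientGroup.mk' ((K 0).subgroupOf (K (i + 1))))).Normal :=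
        Subgroup.Normal.map hN _ (QuotientGroup.mk'_surjective _)
      refine ⟨_, hR, ?_, ?_⟩
      · exact hD4I p b i (CH4.equiv1 (hle i (by omega))) (ih (by omega))
      · exact hK4I p b (QuotientGroup.quotientQuotientEquivQuotient _ _ hA).symm hC
  exact hD4I p b m (CH4.equiv2 hm) (key m le_rfl)

end Pool.Agent.Lib.MP_1aae89_al.W5
end

section
/-!
# COM: the situation on a central extension
-/
set_option autoImplicit false

namespace Pool.Agent.Lib.MP_1aae89_al.W5

open Pool.Agent.Lib.MP_1aae89_al Pool.Agent.Lib.MP_1aae89_al.BF Pool.Agent.Lib.MP_1aae89_al.W3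
  Pool.Agent.Lib.MP_1aae89_al.W4 Finset
open Pool.Agent.Lib.MP1aae89 (Pex)

namespace COM

/-- a commutator of two elements which commute with `w` up to central elements -/
theorem comm_of_central {G : Type} [Group G] {u v w a b : G} (ha : ∀ x, a * x = x * a)
    (hb : ∀ x, b * x = x * b) (hu : u * w * u⁻¹ = a * w) (hv : v * w * v⁻¹ = b * w) :
    (u * v * u⁻¹ * v⁻¹) * w = w * (u * v * u⁻¹ * v⁻¹) := by
  have hai : ∀ x, a⁻¹ * x = x * a⁻¹ := fun x => by
    rw [eq_mul_inv_iff_mul_eq, mul_assoc, ← ha x, inv_mul_cancel_left]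
  have hbi : ∀ x, b⁻¹ * x = x * b⁻¹ := fun x => by
    rw [eq_mul_inv_iff_mul_eq, mul_assoc, ← hb x, inv_mul_cancel_left]
  have hu' : u⁻¹ * w * u = a⁻¹ * w := by
    have h1 : w = u⁻¹ * (a * w) * u := by rw [← hu]; group
    have h2 : u⁻¹ * (a * w) * u = a * (u⁻¹ * w * u) := by
      rw [← mul_assoc, ← ha u⁻¹]; simp only [mul_assoc]
    rw [h2] at h1
    calc u⁻¹ * w * u = a⁻¹ * (a * (u⁻¹ * w * u)) := by group
      _ = a⁻¹ * w := by rw [← h1]
  have hv' : v⁻¹ * w * v = b⁻¹ * w := by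
    have h1 : w = v⁻¹ * (b * w) * v := by rw [← hv]; group
    have h2 : v⁻¹ * (b * w) * v = b * (v⁻¹ * w * v) := by
      rw [← mul_assoc, ← hb v⁻¹]; simp only [mul_assoc]
    rw [h2] at h1
    calc v⁻¹ * w * v = b⁻¹ * (b * (v⁻¹ * w * v)) := by group
      _ = b⁻¹ * w := by rw [← h1]
  have h3 : (u * v * u⁻¹ * v⁻¹) * w * (u * v * u⁻¹ * v⁻¹)⁻¹ = w := by
    calc (u * v * u⁻¹ * v⁻¹) * w * (u * v * u⁻¹ * v⁻¹)⁻¹
        = u * (v * (u⁻¹ * (v⁻¹ * w * v) * u) * v⁻¹) * u⁻¹ := by
          group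
      _ = u * (v * (b⁻¹ * (u⁻¹ * w * u)) * v⁻¹) * u⁻¹ := by
          rw [hv', ← mul_assoc u⁻¹, ← hbi u⁻¹]; simp only [mul_assoc]
      _ = u * (b⁻¹ * (a⁻¹ * (v * w * v⁻¹))) * u⁻¹ := by
          rw [hu', ← mul_assoc v, ← hbi v, mul_assoc b⁻¹ v, ← mul_assoc v, ← hai v]
          simp only [mul_assoc]
      _ = b⁻¹ * (a⁻¹ * (b * (u * w * u⁻¹))) := by
          rw [hv, ← mul_assoc u, ← hbi u, mul_assoc b⁻¹ u, ← mul_assoc u, ← hai u,
            mul_assoc a⁻¹ u, ← mul_assoc u, ← hb u]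
          simp only [mul_assoc]
      _ = w := by
          rw [hu, ← mul_assoc b a w, hb a]
          group
  calc (u * v * u⁻¹ * v⁻¹) * w
      = (u * v * u⁻¹ * v⁻¹) * w * (u * v * u⁻¹ * v⁻¹)⁻¹ * (u * v * u⁻¹ * v⁻¹) := by group
    _ = w * (u * v * u⁻¹ * v⁻¹) := by rw [h3]

section

variable {Y Z : Type} [Group Y] [Group Z] {f : Y →* Z}

/-- the decomposition of the elements of the preimage -/
theorem dec (hf : Function.Surjective f) (N₀ : Subgroup Z) (hN : ⁅N₀, N₀⁆ = N₀) (x : Y)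
    (hx : x ∈ N₀.comap f) :
    ∃ a ∈ ⁅N₀.comap f, N₀.comap f⁆, ∃ b ∈ f.ker, x = a * b := by
  have h1 : (⁅N₀.comap f, N₀.comap f⁆ : Subgroup Y).map f = N₀ := by
    rw [Subgroup.map_commutator, Subgroup.map_comap_eq_self_of_surjective hf, hN]
  have h2 : f x ∈ (⁅N₀.comap f, N₀.comap f⁆ : Subgroup Y).map f := by
    rw [h1]; exact hx
  obtain ⟨a, ha, hax⟩ := Subgroup.mem_map.1 h2
  refine ⟨a, ha, a⁻¹ * x, ?_, by group⟩
  rw [MonoidHom.mem_ker, map_mul, map_inv, hax, inv_mul_cancel]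

theorem ncl (hf : Function.Surjective f) (N₀ : Subgroup Z) (x : Y)
    (hx : f x ∈ Subgroup.normalClosure (N₀ : Set Z)) :
    x ∈ Subgroup.normalClosure ((N₀.comap f : Subgroup Y) : Set Y) := by
  have h1 : (f '' ((N₀.comap f : Subgroup Y) : Set Y)) = (N₀ : Set Z) := by
    ext z
    constructor
    · rintro ⟨y, hy, rfl⟩
      exact hy
    · intro hz
      obtain ⟨y, rfl⟩ := hf z
      exact ⟨y, hz, rfl⟩
  have h2 : f x ∈ (Subgroup.normalClosure ((N₀.comap f : Subgroup Y) : Set Y)).map f := by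
    rw [Subgroup.map_normalClosure _ f hf, h1]
    exact hx
  obtain ⟨a, ha, hax⟩ := Subgroup.mem_map.1 h2
  have h3 : a⁻¹ * x ∈ N₀.comap f := by
    rw [Subgroup.mem_comap, map_mul, map_inv, hax, inv_mul_cancel]
    exact N₀.one_mem
  have h4 : x = a * (a⁻¹ * x) := by group
  rw [h4]
  exact Subgroup.mul_mem _ ha (Subgroup.subset_normalClosure h3)

end

end COM

open COM in
theorem specCOM : SpecCOM := by
  intro p hp Y Z _ _ _ _ f hf hcen hcop X₁ N₀ hW hN
  have hcen' : ∀ y ∈ f.ker, ∀ z, y * z = z * y := fun y hy => hcen y hy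
  have hcomap : ∀ x : Y, x ∈ N₀.comap f ↔ f x ∈ N₀ := fun x => Iff.rfl
  refine ⟨⟨?_, ?_, ?_, ?_, ?_, ?_⟩, ?_⟩
  · have := hW.norm
    exact Subgroup.Normal.comap this f
  · rw [Subgroup.index_comap_of_surjective _ hf]
    exact hW.idx
  · exact Subgroup.comap_mono hW.le
  · intro x hx y hy
    rw [hcomap, map_mul, map_mul, map_inv]
    exact hW.n0 _ hx _ hy
  · intro z hz x hx y hy
    set w := z * y * z⁻¹ with hw
    have hk : ∀ u ∈ N₀.comap f, u * w * u⁻¹ * w⁻¹ ∈ f.ker := by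
      intro u hu
      have h1 := hW.com (f z) hz (f u) hu (f y) hy
      rw [MonoidHom.mem_ker]
      simp only [hw, map_mul, map_inv]
      rw [h1]
      group
    have hcomm : (⁅N₀.comap f, N₀.comap f⁆ : Subgroup Y) ≤ Subgroup.centralizer {w} := by
      rw [Subgroup.commutator_le]
      intro u hu v hv
      rw [Subgroup.mem_centralizer_iff]
      intro h hh
      rw [Set.mem_singleton_iff.1 hh]
      exact (comm_of_central (hcen' _ (hk u hu)) (hcen' _ (hk v hv)) (by group) (by group)).symm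
    obtain ⟨a, ha, b, hb, rfl⟩ := dec hf N₀ hN x hx
    have h1 := Subgroup.mem_centralizer_iff.1 (hcomm ha) w rfl
    rw [mul_assoc, hcen' b hb, ← mul_assoc, ← h1, mul_assoc]
  · intro y
    obtain ⟨j, hj⟩ := hW.quo (f y)
    refine ⟨j, ncl hf N₀ _ ?_⟩
    rw [map_pow]
    exact hj
  · intro K hK h hh
    have hker : ∀ x ∈ N₀.comap f, K x = 1 := by
      intro x hx
      obtain ⟨a, ha, b, hb, rfl⟩ := dec hf N₀ hN x hx
      let K' : Y →* ℂˣ := K
      have h1 : (⁅N₀.comap f, N₀.comap f⁆ : Subgroup Y) ≤ K'.ker := by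
        rw [Subgroup.commutator_le]
        intro u _ v _
        rw [MonoidHom.mem_ker, map_commutatorElement, commutatorElement_eq_one_iff_mul_comm]
        exact mul_comm _ _
      have h2 : K' a = 1 := h1 ha
      have h3 : K' b ^ p = 1 := by
        have := Lin.pow_apply K p b
        rw [hK] at this
        exact this.symm
      have h4 : K' b ^ Nat.card f.ker = 1 := by
        have h5 : (⟨b, hb⟩ : f.ker) ^ Nat.card f.ker = 1 := pow_card_eq_one'
        have h6 : b ^ Nat.card f.ker = 1 := congrArg Subtype.val h5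
        rw [← map_pow, h6, map_one]
      have h7 : K' b = 1 := by
        have h8 : orderOf (K' b) ∣ 1 := by
          rw [← Nat.Coprime.gcd_eq_one hcop]
          exact Nat.dvd_gcd (orderOf_dvd_of_pow_eq_one h4) (orderOf_dvd_of_pow_eq_one h3)
        exact orderOf_eq_one_iff.1 (Nat.dvd_one.1 h8)
      show K' (a * b) = 1
      rw [map_mul, h2, h7, mul_one]
    let K' : Y →* ℂˣ := K
    have h9 : Subgroup.normalClosure ((N₀.comap f : Subgroup Y) : Set Y) ≤ K'.ker :=
      Subgroup.normalClosure_le_normal fun x hx => hker x hx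
    exact h9 hh

end Pool.Agent.Lib.MP_1aae89_al.W5
end

section
/-!
# CTA: the actions on the first tensor factor
-/
set_option autoImplicit false

namespace Pool.Agent.Lib.MP_1aae89_al.W5

open Pool.Agent.Lib.MP_1aae89_al Pool.Agent.Lib.MP_1aae89_al.BF Pool.Agent.Lib.MP_1aae89_al.W3
  Pool.Agent.Lib.MP_1aae89_al.W4 Finset

theorem specCTA (hSPN : SpecSPN) : SpecCTA := by
  intro p M L Y _ _ Y₁ H₀ _ _ n r e m r' Φ Yh _ _ f H0 Z A P ℓ h
  have hm : m ≠ 0 := by
    intro h0
    apply h.deg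
    rw [h.nem, h0, mul_zero]
    exact dvd_zero p
  have hspan : ∀ X : Matrix (Fin m) (Fin m) ℂ, X ∈ Submodule.span ℂ (Set.range r') :=
    hSPN m r' h.sch' hm
  refine ⟨fun y X => ?_, fun z hz X X' => ?_⟩
  · induction hspan X using Submodule.span_induction with
    | mem X hX =>
      obtain ⟨l, rfl⟩ := hX
      have hl : (l : Y₁) ∈ H0.map f := by rw [h.td.map]; exact l.2
      obtain ⟨g, hg, hgl⟩ := hl
      have hfg : f g ∈ H₀.subgroupOf Y₁ := by rw [hgl]; exact l.2
      have hA : A g = r' l := by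
        rw [h.td.res g hg hfg]
        congr 1
        exact Subtype.ext hgl
      have hc : y * g * y⁻¹ ∈ H0 := h.td.norm.conj_mem g hg y
      have hfc : f (y * g * y⁻¹) ∈ H₀.subgroupOf Y₁ := by
        rw [← h.td.map]
        exact ⟨_, hc, rfl⟩
      have e1 : A y * r' l * A y⁻¹ = r' ⟨f (y * g * y⁻¹), hfc⟩ := by
        rw [← hA, ← map_mul, ← map_mul, h.td.res _ hc hfc]
      rw [e1, h.phi, h.phi, ← map_mul, ← map_mul]
      congr 1
      show ((f y : Y₁) : Y) * ((l : Y₁) : Y) = ((f (y * g * y⁻¹) : Y₁) : Y) * ((f y : Y₁) : Y)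
      rw [← hgl, map_mul, map_mul, map_inv]
      push_cast
      group
    | zero => simp only [map_zero, Matrix.mul_zero, Matrix.zero_mul]
    | add a b _ _ ha hb =>
      rw [map_add, Matrix.mul_add, ha, hb, Matrix.mul_add, Matrix.add_mul, map_add,
        Matrix.add_mul]
    | smul c a _ ha =>
      rw [map_smul, Matrix.mul_smul, ha, Matrix.mul_smul, Matrix.smul_mul, map_smul,
        Matrix.smul_mul]
  · induction hspan X using Submodule.span_induction with
    | mem X hX =>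
      obtain ⟨l, rfl⟩ := hX
      induction hspan X' using Submodule.span_induction with
      | mem X' hX' =>
        obtain ⟨l', rfl⟩ := hX'
        rw [h.phi, h.phi, ← map_mul, ← map_mul, ← map_mul, ← map_mul]
        congr 1
        exact h.wy.com z hz _ l.2 _ l'.2
      | zero => simp only [map_zero, Matrix.mul_zero, Matrix.zero_mul]
      | add a b _ _ ha hb =>
        rw [map_add, Matrix.mul_add, Matrix.add_mul, Matrix.mul_add, ha, hb, Matrix.add_mul]
      | smul c a _ ha =>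
        rw [map_smul, Matrix.mul_smul, Matrix.smul_mul, Matrix.mul_smul, ha, Matrix.smul_mul]
    | zero => simp only [map_zero, Matrix.mul_zero, Matrix.zero_mul]
    | add a b _ _ ha hb => rw [map_add, Matrix.add_mul, ha, hb, Matrix.mul_add]
    | smul c a _ ha => rw [map_smul, Matrix.smul_mul, ha, Matrix.mul_smul]

end Pool.Agent.Lib.MP_1aae89_al.W5
end

section
/-!
# Module CTG: generation, and traces
-/
set_option autoImplicit false

namespace Pool.Agent.Lib.MP_1aae89_al.W5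

open Pool.Agent.Lib.MP_1aae89_al Pool.Agent.Lib.MP_1aae89_al.BF Pool.Agent.Lib.MP_1aae89_al.W3
  Pool.Agent.Lib.MP_1aae89_al.W4 Finset
open Pool.Agent.Lib.MP1aae89 (Pex)

namespace CTG

theorem pow_not_mem {p : ℕ} (hp : p.Prime) {Y : Type} [Group Y] [Finite Y] (Y₁ : Subgroup Y)
    [Y₁.Normal] (hi : Y₁.index = p) {x : Y} (hx : x ∉ Y₁) {j : ℕ} (h0 : 0 < j) (hj : j < p) :
    x ^ j ∉ Y₁ := by
  have hfact : Fact p.Prime := ⟨hp⟩
  have hcard : Nat.card (Y ⧸ Y₁) = p := by
    rw [← Subgroup.index_eq_card]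
    exact hi
  have hx1 : (QuotientGroup.mk' Y₁ x) ≠ 1 := by
    intro h
    exact hx ((QuotientGroup.eq_one_iff x).1 h)
  have h1 : (QuotientGroup.mk' Y₁ x) ^ p = 1 := by
    rw [← hcard]
    exact pow_card_eq_one'
  have hord : orderOf (QuotientGroup.mk' Y₁ x) = p := orderOf_eq_prime h1 hx1
  intro h
  have h2 : (QuotientGroup.mk' Y₁ x) ^ j = 1 := by
    rw [← map_pow]
    exact (QuotientGroup.eq_one_iff _).2 h
  have h3 := orderOf_dvd_of_pow_eq_one h2
  rw [hord] at h3
  exact absurd (Nat.le_of_dvd h0 h3) (by omega)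

theorem map_conj {Y : Type} [Group Y] (N : Subgroup Y) (hN : N.Normal) (g : Y) :
    N.map (MulAut.conj g).toMonoidHom = N := by
  refine le_antisymm ?_ fun x hx => ?_
  · rintro _ ⟨y, hy, rfl⟩
    exact hN.conj_mem y hy g
  · refine ⟨g⁻¹ * x * g, ?_, ?_⟩
    · have := hN.conj_mem x hx g⁻¹
      rwa [inv_inv] at this
    · show g * (g⁻¹ * x * g) * g⁻¹ = x
      group

end CTG

open CTG in
theorem specCTG (hSPN : SpecSPN) (hPRD : SpecPRD) (hCTA : SpecCTA) (hMTR : SpecMTR) : SpecCTG := by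
  intro p M L Y _ _ Y₁ H₀ _ _ n r e m r' Φ Yh _ _ f H0 Z A P ℓ ct τ hτ
  obtain ⟨ha1, ha2⟩ := hCTA p M L Y₁ H₀ n r e m r' Φ f H0 Z A P ℓ ct
  obtain ⟨-, -, hcomm, hsup, -, -, hdec⟩ := hPRD p ct.pp Y₁ H₀ ct.wy
  have hn0 : n ≠ 0 := by
    rintro rfl
    exact ct.deg (dvd_zero p)
  have hm0 : m ≠ 0 := by
    intro h
    apply hn0
    rw [ct.nem, h, mul_zero]
  have hnc : (n : ℂ) ≠ 0 := by exact_mod_cast hn0
  set N : Subgroup Y := Subgroup.normalClosure (H₀ : Set Y) with hN
  have hNn : N.Normal := Subgroup.normalClosure_normal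
  have hinv' : ∀ g : Y, r g⁻¹ * r g = 1 := fun g => by rw [← map_mul, inv_mul_cancel, map_one]
  have hphi : ∀ g (hg : g ∈ H₀), Φ (r' ⟨⟨g, ct.wy.le hg⟩, hg⟩) = r g := fun g hg =>
    ct.phi ⟨⟨g, ct.wy.le hg⟩, hg⟩
  refine ⟨fun X => ?_, fun X => ?_⟩
  · have h1 := hSPN n (r.comp N.subtype) ct.schN hn0 X
    refine Submodule.span_mono ?_ h1
    rintro _ ⟨h, rfl⟩
    obtain ⟨g, hg, hh⟩ := hdec τ hτ h h.2
    refine ⟨fun i => r' ⟨⟨g i, ct.wy.le (hg i)⟩, hg i⟩, ?_⟩
    show tp p r τ Φ _ = r (h : Y)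
    unfold tp
    rw [hh, map_list_prod, List.map_map]
    congr 1
    refine List.map_congr_left fun i _ => ?_
    rw [Function.comp_apply, map_mul, map_mul, hphi (g i) (hg i)]
  · -- the factors
    set c : ℕ → Matrix (Fin n) (Fin n) ℂ := fun i => r (τ ^ i) * Φ (X i) * r (τ ^ i)⁻¹ with hc
    have htrc : ∀ i, (c i).trace = (Φ (X i)).trace := by
      intro i
      show (r (τ ^ i) * Φ (X i) * r (τ ^ i)⁻¹).trace = _
      rw [Matrix.trace_mul_comm, ← mul_assoc, hinv', one_mul]
    have hmain : ∀ k, k ≤ p → (n : ℂ) ^ k * (((List.range k).map c).prod).trace =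
        n * ∏ i ∈ range k, (Φ (X i)).trace := by
      intro k
      induction k with
      | zero =>
        intro _
        rw [List.range_zero, List.map_nil, List.prod_nil, Matrix.trace_one, Fintype.card_fin,
          pow_zero, range_zero, prod_empty, one_mul, mul_one]
      | succ k ih =>
        intro hk
        have ihk := ih (by omega)
        rw [List.range_succ, List.map_append, List.prod_append, List.map_singleton,
          List.prod_singleton, Matrix.trace_mul_comm, prod_range_succ]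
        set C : Matrix (Fin n) (Fin n) ℂ := ((List.range k).map c).prod with hC
        -- the subgroups
        set g : Y := τ ^ k with hg
        set LL : Subgroup Y := H₀.map (MulAut.conj g).toMonoidHom with hLL
        set DD' : Subgroup Y := (HC Y₁ H₀).map (MulAut.conj g).toMonoidHom with hDD
        have hLD : LL ⊔ DD' = N := by
          rw [hLL, hDD, ← Subgroup.map_sup, ← hsup]
          exact map_conj N hNn g
        have hcom1 : ∀ x ∈ LL, ∀ y ∈ DD', x * y = y * x := by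
          rintro _ ⟨x, hx, rfl⟩ _ ⟨y, hy, rfl⟩
          rw [← map_mul, hcomm x hx y hy, map_mul]
        have hsch : Sch (r.comp (LL ⊔ DD').subtype) := by
          rw [hLD]
          exact ct.schN
        have hspan : c k ∈ Submodule.span ℂ (Set.range fun x : LL => r x) := by
          have h1 := hSPN m r' ct.sch' hm0 (X k)
          have h2 : ∀ B ∈ Submodule.span ℂ (Set.range r'),
              r (τ ^ k) * Φ B * r (τ ^ k)⁻¹ ∈ Submodule.span ℂ (Set.range fun x : LL => r x) := by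
            intro B hB
            induction hB using Submodule.span_induction with
            | mem B hB =>
              obtain ⟨l, rfl⟩ := hB
              refine Submodule.subset_span ?_
              have hl : ((l : Y₁) : Y) ∈ H₀ := l.2
              refine ⟨⟨g * ((l : Y₁) : Y) * g⁻¹, ⟨_, hl, rfl⟩⟩, ?_⟩
              show r (g * ((l : Y₁) : Y) * g⁻¹) = r (τ ^ k) * Φ (r' l) * r (τ ^ k)⁻¹
              rw [map_mul, map_mul, ct.phi]
            | zero =>
              rw [map_zero, mul_zero, zero_mul]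
              exact Submodule.zero_mem _
            | add B B' _ _ hB hB' =>
              rw [map_add, mul_add, add_mul]
              exact Submodule.add_mem _ hB hB'
            | smul a B _ hB =>
              rw [map_smul, mul_smul_comm, smul_mul_assoc]
              exact Submodule.smul_mem _ _ hB
          exact h2 _ h1
        have hcc : ∀ x ∈ LL, ∀ i, i < k → r x * c i = c i * r x := by
          rintro _ ⟨l, hl, rfl⟩ i hi
          show r (g * l * g⁻¹) * (r (τ ^ i) * Φ (X i) * r (τ ^ i)⁻¹) =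
            r (τ ^ i) * Φ (X i) * r (τ ^ i)⁻¹ * r (g * l * g⁻¹)
          have hz : τ ^ (k - i) ∉ Y₁ := pow_not_mem ct.pp Y₁ ct.wy.idx hτ (by omega) (by omega)
          have h3 := ha2 (τ ^ (k - i)) hz (X i) (r' ⟨⟨l, ct.wy.le hl⟩, hl⟩)
          rw [hphi l hl] at h3
          have h4 : g = τ ^ i * τ ^ (k - i) := by
            rw [hg, ← pow_add]
            congr 1
            omega
          have h5 : r (g * l * g⁻¹) = r (τ ^ i) *
              (r (τ ^ (k - i)) * r l * r (τ ^ (k - i))⁻¹) * r (τ ^ i)⁻¹ := by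
            rw [h4, ← map_mul, ← map_mul, ← map_mul, ← map_mul]
            congr 1
            group
          rw [h5]
          set W := r (τ ^ (k - i)) * r l * r (τ ^ (k - i))⁻¹ with hW
          set V := Φ (X i) with hV
          calc r (τ ^ i) * W * r (τ ^ i)⁻¹ * (r (τ ^ i) * V * r (τ ^ i)⁻¹)
              = r (τ ^ i) * W * (r (τ ^ i)⁻¹ * r (τ ^ i)) * V * r (τ ^ i)⁻¹ := by
                simp only [mul_assoc]
            _ = r (τ ^ i) * (W * V) * r (τ ^ i)⁻¹ := by
                rw [hinv', mul_one]; simp only [mul_assoc]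
            _ = r (τ ^ i) * (V * W) * r (τ ^ i)⁻¹ := by rw [h3]
            _ = r (τ ^ i) * V * (r (τ ^ i)⁻¹ * r (τ ^ i)) * W * r (τ ^ i)⁻¹ := by
                rw [hinv', mul_one]; simp only [mul_assoc]
            _ = r (τ ^ i) * V * r (τ ^ i)⁻¹ * (r (τ ^ i) * W * r (τ ^ i)⁻¹) := by
                simp only [mul_assoc]
        have hCC : ∀ x ∈ LL, r x * C = C * r x := by
          intro x hx
          have h6 : ∀ j, j ≤ k → Commute (r x) (((List.range j).map c).prod) := by
            intro j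
            induction j with
            | zero =>
              intro _
              rw [List.range_zero, List.map_nil, List.prod_nil]
              exact Commute.one_right _
            | succ j ihj =>
              intro hj
              rw [List.range_succ, List.map_append, List.prod_append, List.map_singleton,
                List.prod_singleton]
              exact (ihj (by omega)).mul_right (hcc x hx j (by omega))
          exact h6 k le_rfl
        have h7 := hMTR n r hn0 LL DD' hcom1 hsch (c k) hspan C hCC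
        calc (n : ℂ) ^ (k + 1) * (c k * C).trace = (n : ℂ) ^ k * (n * (c k * C).trace) := by ring
          _ = (n : ℂ) ^ k * ((c k).trace * C.trace) := by rw [h7]
          _ = (n : ℂ) ^ k * C.trace * (c k).trace := by ring
          _ = n * ((∏ i ∈ range k, (Φ (X i)).trace) * (Φ (X k)).trace) := by
              rw [ihk, htrc]; ring
    have h8 := hmain p le_rfl
    have h9 : (n : ℂ) ^ p = n * (n : ℂ) ^ (p - 1) := by
      rw [← pow_succ']
      congr 1
      have := ct.pp.pos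
      omega
    rw [h9, mul_assoc] at h8
    exact mul_left_cancel₀ hnc h8

end Pool.Agent.Lib.MP_1aae89_al.W5
end

section
/-!
# DDE: extensions by `p`-groups
-/
set_option autoImplicit false

namespace Pool.Agent.Lib.MP_1aae89_al.W5

open Pool.Agent.Lib.MP_1aae89_al Pool.Agent.Lib.MP_1aae89_al.BF Pool.Agent.Lib.MP_1aae89_al.W3
  Pool.Agent.Lib.MP_1aae89_al.W4 Finset

namespace DDE

/-- the factor group is a `p`-group -/
theorem card_quot {p : ℕ} (hp : p.Prime) {X : Type} [Group X] [Finite X] (N : Subgroup X)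
    [N.Normal] (h : ∀ x : X, ∃ j : ℕ, x ^ p ^ j ∈ N) : ∃ e : ℕ, Nat.card (X ⧸ N) = p ^ e := by
  have : Fact p.Prime := ⟨hp⟩
  have hq : IsPGroup p (X ⧸ N) := by
    intro x
    obtain ⟨y, rfl⟩ := QuotientGroup.mk'_surjective N x
    obtain ⟨j, hj⟩ := h y
    refine ⟨j, ?_⟩
    rw [← map_pow]
    exact (QuotientGroup.eq_one_iff _).2 hj
  exact IsPGroup.iff_card.1 hq

end DDE

theorem specDDE : SpecDDE := fun _ _ hp _ _ _ _ N hN h1 h2 =>
  ⟨N, hN, h1, Or.inl (DDE.card_quot hp N h2)⟩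

end Pool.Agent.Lib.MP_1aae89_al.W5
end

section
/-!
# D4E: extensions by `p`-groups
-/
set_option autoImplicit false

namespace Pool.Agent.Lib.MP_1aae89_al.W5

open Pool.Agent.Lib.MP_1aae89_al Pool.Agent.Lib.MP_1aae89_al.BF Pool.Agent.Lib.MP_1aae89_al.W3
  Pool.Agent.Lib.MP_1aae89_al.W4 Finset

theorem specD4E : SpecD4E := fun _ _ hp _ _ _ _ N hN h1 h2 =>
  ⟨N, hN, h1, Or.inl (Or.inl (DDE.card_quot hp N h2))⟩

end Pool.Agent.Lib.MP_1aae89_al.W5
end

section
/-!
# D4I: `D4` is invariant under isomorphisms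
-/
set_option autoImplicit false

namespace Pool.Agent.Lib.MP_1aae89_al.W5

theorem specD4I (hK4I : SpecK4I) : SpecD4I := by
  intro p b n
  induction n with
  | zero =>
    intro X Y _ _ _ _ φ h
    have : Subsingleton X := h
    exact φ.surjective.subsingleton
  | succ n ih =>
    intro X Y _ _ _ _ φ h
    obtain ⟨N, hN, h1, h2⟩ := h
    have hN' : (N.map φ.toMonoidHom).Normal := hN.map _ φ.surjective
    refine ⟨N.map φ.toMonoidHom, hN', ?_, ?_⟩
    · exact ih (N.equivMapOfInjective φ.toMonoidHom φ.injective) h1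
    · exact hK4I p b (QuotientGroup.congr N (N.map φ.toMonoidHom) φ rfl) h2

end Pool.Agent.Lib.MP_1aae89_al.W5
end

section
/-!
# D4N: normal subgroups of the groups in the class `D4`
-/
set_option autoImplicit false

namespace Pool.Agent.Lib.MP_1aae89_al.W5

namespace D4N

theorem cc4_inj (hK4N : SpecK4N) (hK4I : SpecK4I) (p b : ℕ) (hp : p.Prime) {X Y : Type}
    [Group X] [Finite X] [Group Y] [Finite Y] (f : X →* Y) (hf : Function.Injective f)
    (hn : f.range.Normal) (h : CC4 p b Y) : CC4 p b X :=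
  hK4I p b (MonoidHom.ofInjective hf).symm (hK4N p b hp f.range h)

theorem d4_inj (hK4N : SpecK4N) (hK4I : SpecK4I) (p b : ℕ) (hp : p.Prime) :
    ∀ (n : ℕ) {X Y : Type} [Group X] [Finite X] [Group Y] [Finite Y] (f : X →* Y),
      Function.Injective f → f.range.Normal → D4 p b n Y → D4 p b n X := by
  intro n
  induction n with
  | zero =>
    intro X Y _ _ _ _ f hf _ h
    have : Subsingleton Y := h
    exact hf.subsingleton
  | succ n ih =>
    intro X Y _ _ _ _ f hf hn h
    obtain ⟨N, hN, h1, h2⟩ := h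
    have hN' : (N.comap f).Normal := hN.comap f
    refine ⟨N.comap f, hN', ?_, ?_⟩
    · refine ih (f.subgroupComap N) ?_ ?_ h1
      · intro x y hxy
        have h3 := congrArg (Subtype.val) hxy
        exact Subtype.ext (hf h3)
      · constructor
        rintro ⟨y, hy⟩ ⟨x, hx⟩ ⟨g, hg⟩
        have hx2 : f x.1 = y := congrArg Subtype.val hx
        have h3 : g * y * g⁻¹ ∈ f.range := hn.conj_mem y ⟨x.1, hx2⟩ g
        obtain ⟨z, hz⟩ := h3
        have hz2 : f z ∈ N := by
          rw [hz]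
          exact hN.conj_mem y hy g
        refine ⟨⟨z, hz2⟩, ?_⟩
        apply Subtype.ext
        exact hz
    · refine cc4_inj hK4N hK4I p b hp
        (QuotientGroup.map (N.comap f) N f le_rfl) ?_ ?_ h2
      · rw [injective_iff_map_eq_one]
        intro a
        induction a using QuotientGroup.induction_on with
        | H x =>
          intro hx
          have hx2 : ((f x : Y) : Y ⧸ N) = 1 := hx
          rw [QuotientGroup.eq_one_iff] at hx2
          exact (QuotientGroup.eq_one_iff x).2 hx2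
      · constructor
        rintro y ⟨x, hx⟩ g
        induction x using QuotientGroup.induction_on with
        | H x =>
          induction g using QuotientGroup.induction_on with
          | H g =>
            have hx2 : ((f x : Y) : Y ⧸ N) = y := hx
            obtain ⟨z, hz⟩ := hn.conj_mem (f x) ⟨x, rfl⟩ g
            refine ⟨(z : X ⧸ N.comap f), ?_⟩
            have h5 : (QuotientGroup.map (N.comap f) N f le_rfl) (z : X ⧸ N.comap f) =
              ((f z : Y) : Y ⧸ N) := rfl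
            rw [h5, hz, ← hx2]
            rfl

end D4N

theorem specD4N (hK4N : SpecK4N) (hK4I : SpecK4I) : SpecD4N := by
  intro p b hp n X _ _ R hR h
  refine D4N.d4_inj hK4N hK4I p b hp n R.subtype R.subtype_injective ?_ h
  rw [Subgroup.range_subtype]
  exact hR

end Pool.Agent.Lib.MP_1aae89_al.W5
end

section
/-!
# D4Q: factor groups of the groups in the class `D4`
-/
set_option autoImplicit false

namespace Pool.Agent.Lib.MP_1aae89_al.W5

namespace D4Q

theorem cc4_surj (hK4Q : SpecK4Q) (hK4I : SpecK4I) (p b : ℕ) (hp : p.Prime) {X Y : Type}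
    [Group X] [Finite X] [Group Y] [Finite Y] (f : X →* Y) (hf : Function.Surjective f)
    (h : CC4 p b X) : CC4 p b Y :=
  hK4I p b (QuotientGroup.quotientKerEquivOfSurjective f hf) (hK4Q p b hp f.ker h)

theorem d4_surj (hK4Q : SpecK4Q) (hK4I : SpecK4I) (p b : ℕ) (hp : p.Prime) :
    ∀ (n : ℕ) {X Y : Type} [Group X] [Finite X] [Group Y] [Finite Y] (f : X →* Y),
      Function.Surjective f → D4 p b n X → D4 p b n Y := by
  intro n
  induction n with
  | zero =>
    intro X Y _ _ _ _ f hf h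
    have : Subsingleton X := h
    exact hf.subsingleton
  | succ n ih =>
    intro X Y _ _ _ _ f hf h
    obtain ⟨N, hN, h1, h2⟩ := h
    have hN' : (N.map f).Normal := hN.map f hf
    refine ⟨N.map f, hN', ?_, ?_⟩
    · exact ih (f.subgroupMap N) (f.subgroupMap_surjective N) h1
    · refine cc4_surj hK4Q hK4I p b hp
        (QuotientGroup.map N (N.map f) f (Subgroup.le_comap_map f N)) ?_ h2
      intro y
      induction y using QuotientGroup.induction_on with
      | H y =>
        obtain ⟨x, rfl⟩ := hf y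
        exact ⟨(x : X ⧸ N), rfl⟩

end D4Q

theorem specD4Q (hK4Q : SpecK4Q) (hK4I : SpecK4I) : SpecD4Q := by
  intro p b hp n X _ _ R _ h
  exact D4Q.d4_surj hK4Q hK4I p b hp n (QuotientGroup.mk' R) (QuotientGroup.mk'_surjective R) h

end Pool.Agent.Lib.MP_1aae89_al.W5
end

section
/-!
# D4S: simple groups with a series
-/
set_option autoImplicit false

namespace Pool.Agent.Lib.MP_1aae89_al.W5

theorem specD4S (hK4I : SpecK4I) (hD4I : SpecD4I) : SpecD4S := by
  intro p b hp n
  induction n with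
  | zero =>
    intro X _ _ hX _ hD
    have h1 : Subsingleton X := hD
    exact (not_subsingleton X h1).elim
  | succ n ih =>
    intro X _ _ hX hR hD
    obtain ⟨N, hN, h1, h2⟩ := hD
    rcases hR N hN with h | h
    · subst h
      exact hK4I p b (QuotientGroup.quotientBot : X ⧸ (⊥ : Subgroup X) ≃* X) h2
    · subst h
      exact ih hX hR (hD4I p b n (Subgroup.topEquiv : (⊤ : Subgroup X) ≃* X) h1)

end Pool.Agent.Lib.MP_1aae89_al.W5
end

section
/-!
# DDI: the class `DD` is invariant under isomorphisms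
-/
set_option autoImplicit false

namespace Pool.Agent.Lib.MP_1aae89_al.W5

namespace DDI

theorem main (hCCI : SpecCCI) (p b : ℕ) :
    ∀ (n : ℕ) {X Y : Type} [Group X] [Finite X] [Group Y] [Finite Y] (_ : X ≃* Y),
      DD p b n X → DD p b n Y := by
  intro n
  induction n with
  | zero =>
    intro X Y _ _ _ _ φ h
    have : Subsingleton X := h
    exact φ.symm.toEquiv.subsingleton
  | succ n ih =>
    intro X Y _ _ _ _ φ h
    obtain ⟨N, hN, h1, h2⟩ := h
    have hN' : (N.map φ.toMonoidHom).Normal := hN.map φ.toMonoidHom φ.surjective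
    refine ⟨N.map φ.toMonoidHom, hN', ?_, ?_⟩
    · exact ih (N.equivMapOfInjective φ.toMonoidHom φ.injective) h1
    · exact hCCI p b (QuotientGroup.congr N (N.map φ.toMonoidHom) φ rfl) h2

end DDI

theorem specDDI (hCCI : SpecCCI) : SpecDDI := by
  intro p b n X Y _ _ _ _ φ h
  exact DDI.main hCCI p b n φ h

end Pool.Agent.Lib.MP_1aae89_al.W5
end

section
/-!
# DDT: subgroups of index prime to `p` of the groups in the class `DD`
-/
set_option autoImplicit false

namespace Pool.Agent.Lib.MP_1aae89_al.W5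

namespace DDT

theorem index_eq {X : Type} [Group X] [Finite X] (T N : Subgroup X) [N.Normal] :
    T.index = T.relIndex N * (T ⊔ N).index := by
  have h1 : (T ⊓ N).relIndex T * T.index = (T ⊓ N).index :=
    Subgroup.relIndex_mul_index inf_le_left
  have h2 : (T ⊓ N).relIndex N * N.index = (T ⊓ N).index :=
    Subgroup.relIndex_mul_index inf_le_right
  have h3 : N.relIndex (T ⊔ N) * (T ⊔ N).index = N.index :=
    Subgroup.relIndex_mul_index le_sup_right
  rw [Subgroup.inf_relIndex_left] at h1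
  rw [Subgroup.inf_relIndex_right, ← h3, Subgroup.relIndex_sup_right] at h2
  have h4 : N.relIndex T ≠ 0 := Subgroup.index_ne_zero_of_finite
  apply Nat.eq_of_mul_eq_mul_left (Nat.pos_of_ne_zero h4)
  rw [h1, ← h2]
  ring

/-- the two forms of the intersection -/
noncomputable def inter {X : Type} [Group X] (T N : Subgroup X) :
    T.subgroupOf N ≃* N.subgroupOf T :=
  (MulEquiv.subgroupCongr (Subgroup.inf_subgroupOf_right T N).symm).trans
    ((Subgroup.subgroupOfEquivOfLe inf_le_right).trans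
      ((Subgroup.subgroupOfEquivOfLe inf_le_left).symm.trans
        (MulEquiv.subgroupCongr (Subgroup.inf_subgroupOf_left N T))))

theorem main (hCCT : SpecCCT) (hCCI : SpecCCI) (hDDI : SpecDDI) (p b : ℕ) (hp : p.Prime) :
    ∀ (n : ℕ) {X : Type} [Group X] [Finite X] (T : Subgroup X), ¬ p ∣ T.index →
      DD p b n X → DD p b n T := by
  intro n
  induction n with
  | zero =>
    intro X _ _ T _ h
    have : Subsingleton X := h
    exact (inferInstance : Subsingleton T)
  | succ n ih =>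
    intro X _ _ T hT h
    obtain ⟨N, hN, h1, h2⟩ := h
    refine ⟨N.subgroupOf T, inferInstance, ?_, ?_⟩
    · have h3 : ¬ p ∣ (T.subgroupOf N).index := by
        intro h4
        exact hT (h4.trans (Dvd.intro _ (index_eq T N).symm))
      exact hDDI p b n (inter T N) (ih (T.subgroupOf N) h3 h1)
    · have h3 : ¬ p ∣ (T.map (QuotientGroup.mk' N)).index := fun h4 =>
        hT (h4.trans (Subgroup.index_map_dvd T (QuotientGroup.mk'_surjective N)))
      have h5 := hCCT p b hp (T.map (QuotientGroup.mk' N)) h3 h2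
      set φ : T →* T.map (QuotientGroup.mk' N) := (QuotientGroup.mk' N).subgroupMap T with hφ
      have hφs : Function.Surjective φ := (QuotientGroup.mk' N).subgroupMap_surjective T
      have hk : φ.ker = N.subgroupOf T := by
        ext x
        rw [MonoidHom.mem_ker, Subgroup.mem_subgroupOf, ← Subtype.coe_inj]
        change ((x : X) : X ⧸ N) = 1 ↔ _
        exact QuotientGroup.eq_one_iff (x : X)
      exact hCCI p b ((QuotientGroup.quotientKerEquivOfSurjective φ hφs).symm.trans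
        (QuotientGroup.quotientMulEquivOfEq hk)) h5

end DDT

theorem specDDT (hCCT : SpecCCT) (hCCI : SpecCCI) (hDDI : SpecDDI) : SpecDDT := by
  intro p b hp n X _ _ T hT h
  exact DDT.main hCCT hCCI hDDI p b hp n T hT h

end Pool.Agent.Lib.MP_1aae89_al.W5
end

section
/-!
# DDN: normal subgroups of the groups in the class `DD`
-/
set_option autoImplicit false

namespace Pool.Agent.Lib.MP_1aae89_al.W5

namespace DDN

theorem main (hCCN : SpecCCN) (hCCI : SpecCCI) (hDDI : SpecDDI) (p b : ℕ) (hp : p.Prime) :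
    ∀ (n : ℕ) {X : Type} [Group X] [Finite X] (R : Subgroup X), R.Normal →
      DD p b n X → DD p b n R := by
  intro n
  induction n with
  | zero =>
    intro X _ _ R _ h
    have : Subsingleton X := h
    exact (inferInstance : Subsingleton R)
  | succ n ih =>
    intro X _ _ R hR h
    obtain ⟨N, hN, h1, h2⟩ := h
    refine ⟨N.subgroupOf R, inferInstance, ?_, ?_⟩
    · exact hDDI p b n (DDT.inter R N) (ih (R.subgroupOf N) inferInstance h1)
    · have h3 : (R.map (QuotientGroup.mk' N)).Normal :=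
        hR.map (QuotientGroup.mk' N) (QuotientGroup.mk'_surjective N)
      have h5 := hCCN p b hp (R.map (QuotientGroup.mk' N)) h2
      set φ : R →* R.map (QuotientGroup.mk' N) := (QuotientGroup.mk' N).subgroupMap R with hφ
      have hφs : Function.Surjective φ := (QuotientGroup.mk' N).subgroupMap_surjective R
      have hk : φ.ker = N.subgroupOf R := by
        ext x
        rw [MonoidHom.mem_ker, Subgroup.mem_subgroupOf, ← Subtype.coe_inj]
        change ((x : X) : X ⧸ N) = 1 ↔ _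
        exact QuotientGroup.eq_one_iff (x : X)
      exact hCCI p b ((QuotientGroup.quotientKerEquivOfSurjective φ hφs).symm.trans
        (QuotientGroup.quotientMulEquivOfEq hk)) h5

end DDN

theorem specDDN (hCCN : SpecCCN) (hCCI : SpecCCI) (hDDI : SpecDDI) : SpecDDN := by
  intro p b hp n X _ _ R hR h
  exact DDN.main hCCN hCCI hDDI p b hp n R hR h

end Pool.Agent.Lib.MP_1aae89_al.W5
end

section
/-!
# DDQ: factor groups of the groups in the class `DD`
-/
set_option autoImplicit false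

namespace Pool.Agent.Lib.MP_1aae89_al.W5

namespace DDQ

theorem cc_surj (hCCQ : SpecCCQ) (hCCI : SpecCCI) (p b : ℕ) (hp : p.Prime) {X Y : Type}
    [Group X] [Finite X] [Group Y] [Finite Y] (f : X →* Y) (hf : Function.Surjective f)
    (h : CC p b X) : CC p b Y :=
  hCCI p b (QuotientGroup.quotientKerEquivOfSurjective f hf) (hCCQ p b hp f.ker h)

theorem dd_surj (hCCQ : SpecCCQ) (hCCI : SpecCCI) (p b : ℕ) (hp : p.Prime) :
    ∀ (n : ℕ) {X Y : Type} [Group X] [Finite X] [Group Y] [Finite Y] (f : X →* Y),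
      Function.Surjective f → DD p b n X → DD p b n Y := by
  intro n
  induction n with
  | zero =>
    intro X Y _ _ _ _ f hf h
    have : Subsingleton X := h
    exact hf.subsingleton
  | succ n ih =>
    intro X Y _ _ _ _ f hf h
    obtain ⟨N, hN, h1, h2⟩ := h
    have hN' : (N.map f).Normal := hN.map f hf
    refine ⟨N.map f, hN', ?_, ?_⟩
    · exact ih (f.subgroupMap N) (f.subgroupMap_surjective N) h1
    · refine cc_surj hCCQ hCCI p b hp
        (QuotientGroup.map N (N.map f) f (Subgroup.le_comap_map f N)) ?_ h2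
      intro y
      induction y using QuotientGroup.induction_on with
      | H y =>
        obtain ⟨x, rfl⟩ := hf y
        exact ⟨(x : X ⧸ N), rfl⟩

end DDQ

theorem specDDQ (hCCQ : SpecCCQ) (hCCI : SpecCCI) : SpecDDQ := by
  intro p b hp n X _ _ R _ h
  exact DDQ.dd_surj hCCQ hCCI p b hp n (QuotientGroup.mk' R) (QuotientGroup.mk'_surjective R) h

end Pool.Agent.Lib.MP_1aae89_al.W5
end

section
/-!
# DDS: simple groups with a series
-/
set_option autoImplicit false

namespace Pool.Agent.Lib.MP_1aae89_al.W5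

open Pool.Agent.Lib.MP_1aae89_al Pool.Agent.Lib.MP_1aae89_al.BF Pool.Agent.Lib.MP_1aae89_al.W3
  Pool.Agent.Lib.MP_1aae89_al.W4 Finset

theorem specDDS (hCCI : SpecCCI) (hDDI : SpecDDI) : SpecDDS := by
  intro p b hp n
  induction n with
  | zero =>
    intro X _ _ hX _ hD
    have h1 : Subsingleton X := hD
    exact (not_subsingleton X h1).elim
  | succ n ih =>
    intro X _ _ hX hR hD
    obtain ⟨N, hN, h1, h2⟩ := hD
    rcases hR N hN with h | h
    · subst h
      exact hCCI p b (QuotientGroup.quotientBot : X ⧸ (⊥ : Subgroup X) ≃* X) h2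
    · subst h
      exact ih hX hR (hDDI p b n (Subgroup.topEquiv : (⊤ : Subgroup X) ≃* X) h1)

end Pool.Agent.Lib.MP_1aae89_al.W5
end

section
/-!
# DDX: extensions for `DD`
-/
set_option autoImplicit false

namespace Pool.Agent.Lib.MP_1aae89_al.W5

open Pool.Agent.Lib.MP_1aae89_al Pool.Agent.Lib.MP_1aae89_al.BF Pool.Agent.Lib.MP_1aae89_al.W3
  Pool.Agent.Lib.MP_1aae89_al.W4 Finset

namespace DDX

variable {F : Type} [Group F]

/-- `F / R ≅ (F / A) / N'` -/
noncomputable def equiv1 (A : Subgroup F) [A.Normal] (N' : Subgroup (F ⧸ A)) [N'.Normal]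
    [(N'.comap (QuotientGroup.mk' A)).Normal] :
    (F ⧸ A) ⧸ N' ≃* F ⧸ N'.comap (QuotientGroup.mk' A) := by
  let g : F →* (F ⧸ A) ⧸ N' := (QuotientGroup.mk' N').comp (QuotientGroup.mk' A)
  have hg : Function.Surjective g :=
    (QuotientGroup.mk'_surjective N').comp (QuotientGroup.mk'_surjective A)
  have hk : g.ker = N'.comap (QuotientGroup.mk' A) := by
    ext x
    rw [MonoidHom.mem_ker, Subgroup.mem_comap]
    exact QuotientGroup.eq_one_iff ((x : F) : F ⧸ A)
  exact ((QuotientGroup.quotientMulEquivOfEq hk.symm).trans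
    (QuotientGroup.quotientKerEquivOfSurjective g hg)).symm

/-- `N' ≅ R / A` -/
noncomputable def equiv2 (A : Subgroup F) [A.Normal] (N' : Subgroup (F ⧸ A))
    [(A.subgroupOf (N'.comap (QuotientGroup.mk' A))).Normal] :
    N' ≃* ↥(N'.comap (QuotientGroup.mk' A)) ⧸ A.subgroupOf (N'.comap (QuotientGroup.mk' A)) := by
  let g : ↥(N'.comap (QuotientGroup.mk' A)) →* N' :=
    ((QuotientGroup.mk' A).comp (N'.comap (QuotientGroup.mk' A)).subtype).codRestrict N'
      fun x => x.2
  have hg : Function.Surjective g := by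
    rintro ⟨y, hy⟩
    obtain ⟨x, rfl⟩ := QuotientGroup.mk'_surjective A y
    exact ⟨⟨x, hy⟩, rfl⟩
  have hk : g.ker = A.subgroupOf (N'.comap (QuotientGroup.mk' A)) := by
    ext x
    rw [MonoidHom.mem_ker, Subgroup.mem_subgroupOf, ← QuotientGroup.eq_one_iff (x : F),
      ← OneMemClass.coe_eq_one]
    rfl
  exact ((QuotientGroup.quotientMulEquivOfEq hk.symm).trans
    (QuotientGroup.quotientKerEquivOfSurjective g hg)).symm

end DDX

theorem specDDX (hCCI : SpecCCI) (hDDI : SpecDDI) : SpecDDX := by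
  intro p b n m
  induction m with
  | zero =>
    intro F _ _ A _ hA hq
    have h1 : A = ⊤ := by
      have h2 : Subsingleton (F ⧸ A) := hq
      rw [eq_top_iff]
      intro x _
      rw [← QuotientGroup.eq_one_iff]
      exact Subsingleton.elim _ _
    subst h1
    exact hDDI p b n Subgroup.topEquiv hA
  | succ m ih =>
    intro F _ _ A _ hA hq
    obtain ⟨N', hN', h1, h2⟩ := hq
    have hR : (N'.comap (QuotientGroup.mk' A)).Normal := Subgroup.Normal.comap hN' _
    have hAR : A ≤ N'.comap (QuotientGroup.mk' A) := by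
      intro x hx
      have h3 : QuotientGroup.mk' A x = 1 := (QuotientGroup.eq_one_iff x).2 hx
      rw [Subgroup.mem_comap, h3]
      exact N'.one_mem
    refine ⟨N'.comap (QuotientGroup.mk' A), hR, ?_, ?_⟩
    · apply ih (A.subgroupOf (N'.comap (QuotientGroup.mk' A)))
      · exact hDDI p b n (Subgroup.subgroupOfEquivOfLe hAR).symm hA
      · exact hDDI p b m (DDX.equiv2 A N') h1
    · exact hCCI p b (DDX.equiv1 A N') h2

end Pool.Agent.Lib.MP_1aae89_al.W5
end

section
/-!
# DEC: isotypic restriction to a factor of a product of commuting subgroups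
-/
set_option autoImplicit false

namespace Pool.Agent.Lib.MP_1aae89_al.W5

open Pool.Agent.Lib.MP_1aae89_al Pool.Agent.Lib.MP_1aae89_al.BF
open scoped Kronecker

theorem specDEC : SpecDEC := by
  intro G _ _ n r hn L D hLD hS
  classical
  have : Fintype L := Fintype.ofFinite L
  obtain ⟨m, r', J, J', hm, hr', hJ'J, hrJ, -⟩ := exists_sub n hn (r.comp L.subtype)
  have hCL : ∀ x ∈ L, cen (r.comp L.subtype) r' * r x = r x * cen (r.comp L.subtype) r' :=
    fun x hx => cen_comm (r.comp L.subtype) r' ⟨x, hx⟩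
  have hCD : ∀ y ∈ D, cen (r.comp L.subtype) r' * r y = r y * cen (r.comp L.subtype) r' := by
    intro y hy
    refine (cen_comm2 (r.comp L.subtype) r' (T := r y) fun g => ?_).symm
    change r y * r g.1 = r g.1 * r y
    rw [← map_mul, ← map_mul, hLD g.1 g.2 y hy]
  have hall : ∀ g ∈ L ⊔ D, cen (r.comp L.subtype) r' * r g =
      r g * cen (r.comp L.subtype) r' := by
    intro g hg
    let T : Subgroup G :=
      { carrier := {g | cen (r.comp L.subtype) r' * r g = r g * cen (r.comp L.subtype) r'}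
        mul_mem' := by
          intro a b ha hb
          have ha' : cen (r.comp L.subtype) r' * r a = r a * cen (r.comp L.subtype) r' := ha
          have hb' : cen (r.comp L.subtype) r' * r b = r b * cen (r.comp L.subtype) r' := hb
          change cen (r.comp L.subtype) r' * r (a * b) = r (a * b) * cen (r.comp L.subtype) r'
          rw [map_mul, ← Matrix.mul_assoc, ha', Matrix.mul_assoc, hb', Matrix.mul_assoc]
        one_mem' := by
          change cen (r.comp L.subtype) r' * r 1 = r 1 * cen (r.comp L.subtype) r'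
          rw [map_one, Matrix.one_mul, Matrix.mul_one]
        inv_mem' := by
          intro a ha
          have ha' : cen (r.comp L.subtype) r' * r a = r a * cen (r.comp L.subtype) r' := ha
          change cen (r.comp L.subtype) r' * r a⁻¹ = r a⁻¹ * cen (r.comp L.subtype) r'
          have h1 : r a * r a⁻¹ = 1 := by rw [← map_mul, mul_inv_cancel, map_one]
          have h2 : r a⁻¹ * r a = 1 := by rw [← map_mul, inv_mul_cancel, map_one]
          calc cen (r.comp L.subtype) r' * r a⁻¹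
              = r a⁻¹ * r a * cen (r.comp L.subtype) r' * r a⁻¹ := by rw [h2, Matrix.one_mul]
            _ = r a⁻¹ * (cen (r.comp L.subtype) r' * r a) * r a⁻¹ := by
                rw [ha']; simp only [Matrix.mul_assoc]
            _ = r a⁻¹ * cen (r.comp L.subtype) r' * (r a * r a⁻¹) := by
                simp only [Matrix.mul_assoc]
            _ = r a⁻¹ * cen (r.comp L.subtype) r' := by rw [h1, Matrix.mul_one] }
    have h1 : L ⊔ D ≤ T := sup_le (fun x hx => hCL x hx) (fun y hy => hCD y hy)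
    exact h1 hg
  obtain ⟨c, hc⟩ := hS (cen (r.comp L.subtype) r') (fun g => hall g.1 g.2)
  have hJ := cen_mul_J (r.comp L.subtype) hr' hm hrJ
  have hc1 : c = 1 := by
    rw [hc, Matrix.smul_mul, Matrix.one_mul] at hJ
    have h1 : c • (J' * J) = J' * J := by
      rw [← Matrix.mul_smul, hJ]
    rw [hJ'J] at h1
    have h2 := congrFun (congrFun h1 ⟨0, Nat.pos_of_ne_zero hm⟩) ⟨0, Nat.pos_of_ne_zero hm⟩
    rw [Matrix.smul_apply, Matrix.one_apply_eq, smul_eq_mul, mul_one] at h2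
    exact h2
  have hC : cen (r.comp L.subtype) r' = 1 := by rw [hc, hc1, one_smul]
  obtain ⟨e, Q, Q', h1, h2, h3⟩ := isotypic_of_cen (r.comp L.subtype) hr' hm hC
  refine ⟨e, m, r', Q, Q', ?_, hr', h1, h2, h3⟩
  have h4 : (Q * Q').trace = (Q' * Q).trace := Matrix.trace_mul_comm _ _
  rw [h1, h2, Matrix.trace_one, Matrix.trace_one, Fintype.card_prod, Fintype.card_fin,
    Fintype.card_fin, Fintype.card_fin] at h4
  exact_mod_cast h4

end Pool.Agent.Lib.MP_1aae89_al.W5
end

section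
/-!
# DG4: the main induction for `D4`
-/
set_option autoImplicit false

namespace Pool.Agent.Lib.MP_1aae89_al.W5

open Pool.Agent.Lib.MP_1aae89_al Pool.Agent.Lib.MP_1aae89_al.BF Pool.Agent.Lib.MP_1aae89_al.W3
  Pool.Agent.Lib.MP_1aae89_al.W4 Finset
open Pool.Agent.Lib.MP1aae89 (Pex)

namespace DG4M

/-- a minimal normal subgroup -/
theorem exists_min {Z : Type} [Group Z] [Finite Z] (h : Nontrivial Z) :
    ∃ N : Subgroup Z, N.Normal ∧ N ≠ ⊥ ∧
      ∀ R : Subgroup Z, R.Normal → R ≤ N → R = ⊥ ∨ R = N := by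
  classical
  have hex : ∃ k : ℕ, ∃ N : Subgroup Z, N.Normal ∧ N ≠ ⊥ ∧ Nat.card N = k :=
    ⟨_, ⊤, inferInstance, top_ne_bot, rfl⟩
  obtain ⟨N, hN, hne, hc⟩ := Nat.find_spec hex
  refine ⟨N, hN, hne, fun R hR hle => ?_⟩
  by_cases hR0 : R = ⊥
  · exact Or.inl hR0
  · right
    have h1 : Nat.find hex ≤ Nat.card R := Nat.find_min' hex ⟨R, hR, hR0, rfl⟩
    rw [← hc] at h1
    exact Subgroup.eq_of_le_of_card_ge hle h1

/-- a minimal normal subgroup of a subgroup -/
theorem exists_min' {Z : Type} [Group Z] [Finite Z] (N : Subgroup Z) (h : N ≠ ⊥) :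
    ∃ (R₀ : Subgroup N) (S : Subgroup Z), R₀.Normal ∧ S = R₀.map N.subtype ∧ S ≤ N ∧ S ≠ ⊥ ∧
      (∀ g ∈ N, ∀ x ∈ S, g * x * g⁻¹ ∈ S) ∧
      ∀ R : Subgroup Z, R ≤ S → (∀ g ∈ N, ∀ x ∈ R, g * x * g⁻¹ ∈ R) → R = ⊥ ∨ R = S := by
  have hnt : Nontrivial N := (Subgroup.nontrivial_iff_ne_bot N).2 h
  obtain ⟨R₀, hR, hne, hmin⟩ := exists_min hnt
  have hinj := N.subtype_injective
  refine ⟨R₀, R₀.map N.subtype, hR, rfl, Subgroup.map_subtype_le R₀, ?_, ?_, ?_⟩
  · intro h0
    exact hne ((Subgroup.map_eq_bot_iff_of_injective R₀ hinj).1 h0)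
  · rintro g hg _ ⟨x, hx, rfl⟩
    exact ⟨⟨g, hg⟩ * x * ⟨g, hg⟩⁻¹, hR.conj_mem x hx ⟨g, hg⟩, rfl⟩
  · intro R hRS hRn
    have hRN : R ≤ N := hRS.trans (Subgroup.map_subtype_le R₀)
    have h1 : (R.subgroupOf N).Normal := by
      refine ⟨fun x hx g => ?_⟩
      exact hRn g g.2 x hx
    have h2 : R.subgroupOf N ≤ R₀ := by
      intro x hx
      obtain ⟨y, hy, hyx⟩ := hRS (Subgroup.mem_subgroupOf.1 hx)
      rw [← hinj hyx]
      exact hy
    have h3 : (R.subgroupOf N).map N.subtype = R := Subgroup.map_subgroupOf_eq_of_le hRN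
    rcases hmin _ h1 h2 with h4 | h4
    · left
      rw [← h3, h4, Subgroup.map_bot]
    · right
      rw [← h3, h4]

/-- the trivial group satisfies `C4` -/
theorem c4_triv {p b : ℕ} {X : Type} [Group X] [Finite X] (hs : Subsingleton X) :
    C4 p b X := by
  intro Y _ _ f _ hker _ L s0 hL hcard hpex n r _ _ t y
  have h1 : y ^ s0 = 1 := by
    have h2 : f.ker = ⊤ := by
      ext x
      rw [MonoidHom.mem_ker]
      exact ⟨fun _ => Subgroup.mem_top x, fun _ => Subsingleton.elim _ _⟩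
    rw [h2, Subgroup.card_top] at hker
    have h3 : Nat.card Y ∣ ordProj[p] L * ordCompl[p] L := by
      rw [Nat.ordProj_mul_ordCompl_eq_self]
      exact hcard
    have h4 : Nat.card Y ∣ ordCompl[p] L :=
      (hker.pow_right (L.factorization p)).dvd_of_dvd_mul_left h3
    obtain ⟨c, hc⟩ := h4.trans hpex.zero
    rw [hc, pow_mul, pow_card_eq_one', one_pow]
  show (r (y ^ (1 + s0 * p ^ (b - 1) * t))).trace = (r y).trace
  rw [pow_add, pow_one, mul_assoc, pow_mul, h1, one_pow, mul_one]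

/-- complements of a normal subgroup are isomorphic to the factor group -/
noncomputable def eqv {F : Type} [Group F] (A B : Subgroup F) [A.Normal] (hd : A ⊓ B = ⊥)
    (ht : A ⊔ B = ⊤) : B ≃* F ⧸ A :=
  MulEquiv.ofBijective ((QuotientGroup.mk' A).comp B.subtype) (by
    constructor
    · rw [injective_iff_map_eq_one]
      intro x hx
      have h1 : (x : F) ∈ A := (QuotientGroup.eq_one_iff (x : F)).1 hx
      have h2 : (x : F) ∈ A ⊓ B := ⟨h1, x.2⟩
      rw [hd, Subgroup.mem_bot] at h2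
      exact Subtype.ext h2
    · intro q
      obtain ⟨g, rfl⟩ := QuotientGroup.mk'_surjective A q
      have hg : g ∈ A ⊔ B := by rw [ht]; exact Subgroup.mem_top g
      obtain ⟨a, ha, x, hx, rfl⟩ := Subgroup.mem_sup_of_normal_left.1 hg
      refine ⟨⟨x, hx⟩, ?_⟩
      rw [map_mul]
      have h1 : QuotientGroup.mk' A a = 1 := (QuotientGroup.eq_one_iff a).2 ha
      rw [h1, one_mul]
      rfl)

theorem normal_left {F : Type} [Group F] (A B : Subgroup F)
    (hc : ∀ x ∈ A, ∀ y ∈ B, x * y = y * x) (ht : A ⊔ B = ⊤) : A.Normal := by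
  rw [← Subgroup.normalizer_eq_top_iff, eq_top_iff, ← ht, sup_le_iff]
  refine ⟨Subgroup.le_normalizer, fun y hy => ?_⟩
  rw [Subgroup.mem_normalizer_iff]
  have key : ∀ y ∈ B, ∀ x ∈ A, y * x * y⁻¹ ∈ A := by
    intro y hy x hx
    rw [← hc x hx y hy, mul_assoc, mul_inv_cancel, mul_one]
    exact hx
  intro x
  refine ⟨fun hx => key y hy x hx, fun hx => ?_⟩
  have h1 := key y⁻¹ (inv_mem hy) _ hx
  have h2 : y⁻¹ * (y * x * y⁻¹) * y⁻¹⁻¹ = x := by group
  rwa [h2] at h1

theorem dd_one (hCCI : SpecCCI) {p b : ℕ} {X : Type} [Group X] [Finite X] (h : CC p b X) :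
    DD p b 1 X := by
  refine ⟨⊥, inferInstance, ?_, ?_⟩
  · show Subsingleton (⊥ : Subgroup X)
    infer_instance
  · exact hCCI p b (QuotientGroup.quotientBot (G := X)).symm h

end DG4M

open DG4M in
theorem specDG4 (hGPG : SpecGPG) (hGEX : SpecGEX) (hD4Q : SpecD4Q) (hD4N : SpecD4N)
    (hD4I : SpecD4I) (hD4E : SpecD4E) (hMAB : SpecMAB) (hSDC : SpecSDC) (hSSM : SpecSSM)
    (hD4S : SpecD4S) (hC4I : SpecC4I) (hC4D : SpecC4D) (hC4G : SpecC4G) (hCCI : SpecCCI)
    (hDDI : SpecDDI) (hDDX : SpecDDX) (hDDE : SpecDDE) (hDGO : SpecDGO) : SpecDG4 := by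
  intro p b hp hb n Z _ _ hD
  have key : ∀ k : ℕ, ∀ (n : ℕ) (Z : Type) [Group Z] [Finite Z], Nat.card Z = k →
      D4 p b n Z → Good p b Z := by
    intro k
    induction k using Nat.strong_induction_on with
    | _ k ih =>
      intro n Z _ _ hk hD
      rcases subsingleton_or_nontrivial Z with hs | hnt
      · exact hGPG p b hp hb 0 (by rw [pow_zero]; exact Nat.card_unique)
      obtain ⟨N, hN, hne, hmin⟩ := exists_min hnt
      have : Fact p.Prime := ⟨hp⟩
      obtain ⟨S⟩ : Nonempty (Sylow p Z) := inferInstance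
      have hP : Nat.card (S : Subgroup Z) = p ^ (Nat.card Z).factorization p :=
        S.card_eq_multiplicity
      have hpow : ∀ z ∈ N ⊔ (S : Subgroup Z), ∃ j : ℕ, z ^ p ^ j ∈ N := by
        intro z hz
        obtain ⟨a, ha, x, hx, rfl⟩ := Subgroup.mem_sup_of_normal_left.1 hz
        refine ⟨(Nat.card Z).factorization p, ?_⟩
        rw [← QuotientGroup.eq_one_iff, QuotientGroup.mk_pow, QuotientGroup.mk_mul,
          (QuotientGroup.eq_one_iff a).2 ha, one_mul, ← QuotientGroup.mk_pow, ← hP]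
        have h1 : (⟨x, hx⟩ : (S : Subgroup Z)) ^ Nat.card (S : Subgroup Z) = 1 :=
          pow_card_eq_one'
        have h2 : x ^ Nat.card (S : Subgroup Z) = 1 := congrArg Subtype.val h1
        rw [h2, QuotientGroup.mk_one]
      have hDN : D4 p b n N := hD4N p b hp n N hD
      by_cases htop : N ⊔ (S : Subgroup Z) = ⊤
      · have hq : ∀ z : Z, ∃ j : ℕ, z ^ p ^ j ∈ N :=
          fun z => hpow z (by rw [htop]; exact Subgroup.mem_top z)
        by_cases hab : ∀ x ∈ N, ∀ y ∈ N, x * y = y * x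
        · exact hMAB p b hp hb N hmin hq hab
        obtain ⟨R₀, T, hR₀, hT, hTN, hTne, hTn, hTmin⟩ := exists_min' N hne
        have hsm : Smp T := hSSM N hmin T hTN hTne hTn hTmin
        have hDR : D4 p b n R₀ := hD4N p b hp n R₀ hDN
        have hDT : D4 p b n T := by
          subst hT
          exact hD4I p b n (R₀.equivMapOfInjective N.subtype N.subtype_injective) hDR
        have hTnt : Nontrivial T := (Subgroup.nontrivial_iff_ne_bot T).2 hTne
        rcases hD4S p b hp n hTnt hsm hDT with hcc | ⟨-, hc4⟩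
        · have h1 : ∃ m : ℕ, DD p b m N := by
            refine hSDC (fun F _ _ => ∃ m : ℕ, DD p b m F) ?_ ?_ ?_ N hmin T hTN hTne hTn hTmin
              ⟨1, dd_one hCCI hcc⟩
            · intro X Y _ _ _ _ e ⟨m, hm⟩
              exact ⟨m, hDDI p b m e hm⟩
            · intro X _ _ hs
              exact ⟨0, hs⟩
            · intro F _ _ A B hc hd ht ⟨m₁, h1⟩ ⟨m₂, h2⟩
              have hA : A.Normal := normal_left A B hc ht
              exact ⟨m₁ + m₂, hDDX p b m₁ m₂ A h1 (hDDI p b m₂ (eqv A B hd ht) h2)⟩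
          obtain ⟨m, hm⟩ := h1
          exact hDGO p b hp hb (m + 1) (hDDE p b hp m N hm hq)
        · have h1 : C4 p b N := by
            refine hSDC (fun F _ _ => C4 p b F) ?_ ?_ ?_ N hmin T hTN hTne hTn hTmin hc4
            · intro X Y _ _ _ _ e h
              exact hC4I p b e h
            · intro X _ _ hs
              exact c4_triv hs
            · intro F _ _ A B hc hd ht h1 h2
              exact hC4D p b hp hb A B hc hd ht h1 h2
          exact hC4G p b hp hb N hq h1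
      · have hcN : 1 < Nat.card N := by
          rw [Subgroup.one_lt_card_iff_ne_bot]
          exact hne
        have hcQ : Nat.card (Z ⧸ N) < k := by
          have h1 := N.card_eq_card_quotient_mul_card_subgroup
          rw [hk] at h1
          have h2 : 0 < Nat.card (Z ⧸ N) := Nat.card_pos
          rw [h1]
          exact lt_mul_of_one_lt_right h2 hcN
        have hcP : Nat.card ↥(N ⊔ (S : Subgroup Z)) < k := by
          rw [← hk]
          refine lt_of_le_of_ne (Subgroup.card_le_card_group _) fun h => htop ?_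
          exact Subgroup.eq_top_of_card_eq _ h
        refine hGEX p b hp hb N (S : Subgroup Z) hP (ih _ hcQ n _ rfl (hD4Q p b hp n N hD))
          (ih _ hcP (n + 1) _ rfl ?_)
        have h1 : D4 p b n (N.subgroupOf (N ⊔ (S : Subgroup Z))) :=
          hD4I p b n (Subgroup.subgroupOfEquivOfLe le_sup_left).symm hDN
        refine hD4E p b hp n (N.subgroupOf (N ⊔ (S : Subgroup Z))) h1 fun x => ?_
        obtain ⟨j, hj⟩ := hpow x x.2
        exact ⟨j, Subgroup.mem_subgroupOf.2 (by rw [Subgroup.coe_pow]; exact hj)⟩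
  exact key _ n Z rfl hD

end Pool.Agent.Lib.MP_1aae89_al.W5
end

section
/-!
# DGO: the main induction
-/
set_option autoImplicit false

namespace Pool.Agent.Lib.MP_1aae89_al.W5

open Pool.Agent.Lib.MP_1aae89_al Pool.Agent.Lib.MP_1aae89_al.BF Pool.Agent.Lib.MP_1aae89_al.W3
  Pool.Agent.Lib.MP_1aae89_al.W4 Finset

namespace DGO

/-- a minimal normal subgroup -/
theorem exists_min {Z : Type} [Group Z] [Finite Z] (h : Nontrivial Z) :
    ∃ N : Subgroup Z, N.Normal ∧ N ≠ ⊥ ∧
      ∀ R : Subgroup Z, R.Normal → R ≤ N → R = ⊥ ∨ R = N := by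
  classical
  have hex : ∃ k : ℕ, ∃ N : Subgroup Z, N.Normal ∧ N ≠ ⊥ ∧ Nat.card N = k :=
    ⟨_, ⊤, inferInstance, top_ne_bot, rfl⟩
  obtain ⟨N, hN, hne, hc⟩ := Nat.find_spec hex
  refine ⟨N, hN, hne, fun R hR hle => ?_⟩
  by_cases hR0 : R = ⊥
  · exact Or.inl hR0
  · right
    have h1 : Nat.find hex ≤ Nat.card R := Nat.find_min' hex ⟨R, hR, hR0, rfl⟩
    rw [← hc] at h1
    exact Subgroup.eq_of_le_of_card_ge hle h1

end DGO

open DGO in
theorem specDGO (hGPG : SpecGPG) (hMI1 : SpecMI1) (hMI2 : SpecMI2) (hMI3 : SpecMI3) :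
    SpecDGO := by
  intro p b hp hb n Z _ _ hD
  have key : ∀ k : ℕ, ∀ (n : ℕ) (Z : Type) [Group Z] [Finite Z], Nat.card Z = k →
      DD p b n Z → Good p b Z := by
    intro k
    induction k using Nat.strong_induction_on with
    | _ k ih =>
      intro n Z _ _ hk hD
      have hI : IndG p b Z := by
        intro Z' _ _ hlt n' hD'
        exact ih (Nat.card Z') (by rw [← hk]; exact hlt) n' Z' rfl hD'
      rcases subsingleton_or_nontrivial Z with hs | hnt
      · exact hGPG p b hp hb 0 (by rw [pow_zero]; exact Nat.card_unique)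
      · obtain ⟨N, hN, hne, hmin⟩ := exists_min hnt
        have : Fact p.Prime := ⟨hp⟩
        obtain ⟨S⟩ : Nonempty (Sylow p Z) := inferInstance
        have hP : Nat.card (S : Subgroup Z) = p ^ (Nat.card Z).factorization p :=
          S.card_eq_multiplicity
        by_cases htop : N ⊔ (S : Subgroup Z) = ⊤
        · have hq : ∀ z : Z, ∃ j : ℕ, z ^ p ^ j ∈ N := by
            intro z
            have hz : z ∈ N ⊔ (S : Subgroup Z) := by rw [htop]; exact Subgroup.mem_top z
            obtain ⟨a, ha, x, hx, rfl⟩ := Subgroup.mem_sup_of_normal_left.1 hz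
            refine ⟨(Nat.card Z).factorization p, ?_⟩
            rw [← QuotientGroup.eq_one_iff, QuotientGroup.mk_pow, QuotientGroup.mk_mul,
              (QuotientGroup.eq_one_iff a).2 ha, one_mul, ← QuotientGroup.mk_pow, ← hP]
            have h1 : (⟨x, hx⟩ : (S : Subgroup Z)) ^ Nat.card (S : Subgroup Z) = 1 :=
              pow_card_eq_one'
            have h2 : x ^ Nat.card (S : Subgroup Z) = 1 := congrArg Subtype.val h1
            rw [h2, QuotientGroup.mk_one]
          exact hMI1 p b hp hb n hD hI (hMI3 p b hp hb n hD hI N hne hmin hq)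
        · exact hMI1 p b hp hb n hD hI (hMI2 p b hp hb n hD hI N hne S hP htop)
  exact key _ n Z rfl hD

end Pool.Agent.Lib.MP_1aae89_al.W5
end

section
/-!
# WSY: the system of a tensor induced representation
-/
set_option autoImplicit false

namespace Pool.Agent.Lib.MP_1aae89_al.W5

open Pool.Agent.Lib.MP_1aae89_al Pool.Agent.Lib.MP_1aae89_al.BF Matrix Finset

namespace WSY

/-- commuting elements of a ring come from a commutative ring -/
theorem exists_comm {M ι α : Type} [Ring M] (x : ι → α → M)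
    (h : ∀ i a j b, x i a * x j b = x j b * x i a) :
    ∃ (R : Type) (_ : CommRing R) (φ : R →+* M) (y : ι → α → R), Function.Injective φ ∧
      ∀ i a, φ (y i a) = x i a := by
  have hc : ∀ a ∈ Set.range (fun q : ι × α => x q.1 q.2),
      ∀ b ∈ Set.range (fun q : ι × α => x q.1 q.2), a * b = b * a := by
    rintro _ ⟨q, rfl⟩ _ ⟨q', rfl⟩
    exact h _ _ _ _
  have := Algebra.isMulCommutative_adjoin ℤ hc
  open scoped IsMulCommutative in
  exact ⟨Algebra.adjoin ℤ (Set.range (fun q : ι × α => x q.1 q.2)), inferInstance,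
    (Algebra.adjoin ℤ (Set.range (fun q : ι × α => x q.1 q.2))).val.toRingHom,
    fun i a => ⟨x i a, Algebra.subset_adjoin ⟨(i, a), rfl⟩⟩, Subtype.val_injective,
    fun i a => rfl⟩

/-- products of commuting elements, one from each of `p` families -/
theorem wprod {M α : Type} [Ring M] [Fintype α] [DecidableEq α] (p : ℕ) (x : Fin p → α → M)
    (hcomm : ∀ i a j b, x i a * x j b = x j b * x i a)
    (hid : ∀ i a, x i a * x i a = x i a) (horth : ∀ i a b, a ≠ b → x i a * x i b = 0)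
    (hsum : ∀ i, ∑ a, x i a = 1) (W : (Fin p → α) → M)
    (hW : ∀ s, W s = (List.ofFn fun i => x i (s i)).prod) :
    (∀ s, W s * W s = W s) ∧ (∀ s s', s ≠ s' → W s * W s' = 0) ∧ ∑ s, W s = 1 ∧
      ∀ (T : M →+* M) (σ : Equiv.Perm (Fin p)) (s s' : Fin p → α),
        (∀ i, T (x i (s i)) = x (σ i) (s' (σ i))) → T (W s) = W s' := by
  obtain ⟨R, _, φ, y, hφ, hy⟩ := exists_comm x hcomm
  have h0 : ∀ z : Fin p → R, (List.ofFn fun i => φ (z i)).prod = φ (∏ i, z i) := by
    intro z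
    rw [← List.prod_ofFn, map_list_prod, List.map_ofFn]
    rfl
  have h1 : ∀ s, W s = φ (∏ i, y i (s i)) := by
    intro s
    rw [hW, ← h0]
    simp only [hy]
  refine ⟨fun s => ?_, fun s s' hs => ?_, ?_, fun T σ s s' h => ?_⟩
  · rw [h1, ← map_mul, ← Finset.prod_mul_distrib]
    congr 1
    refine Finset.prod_congr rfl fun i _ => hφ ?_
    rw [map_mul, hy, hid]
  · obtain ⟨i, hi⟩ := Function.ne_iff.1 hs
    rw [h1, h1, ← map_mul, ← Finset.prod_mul_distrib]
    rw [Finset.prod_eq_zero (mem_univ i), map_zero]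
    apply hφ
    rw [map_mul, hy, hy, horth _ _ _ hi, map_zero]
  · have h2 : ∀ i, ∑ a, y i a = 1 := by
      intro i
      apply hφ
      rw [map_sum, map_one, ← hsum i]
      simp only [hy]
    have h3 := Finset.prod_univ_sum (fun _ : Fin p => (univ : Finset α)) y
    rw [Finset.prod_congr rfl fun i _ => h2 i, Finset.prod_const_one, Fintype.piFinset_univ] at h3
    rw [← map_one φ, h3, map_sum]
    exact Finset.sum_congr rfl fun s _ => h1 s
  · rw [hW s, h1 s', map_list_prod, List.map_ofFn]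
    have h2 : (T ∘ fun i => x i (s i)) = fun i => φ (y (σ i) (s' (σ i))) := by
      funext i
      rw [Function.comp_apply, h, hy]
    rw [h2, h0, Equiv.prod_comp σ fun i => y i (s' i)]

/-- conjugation by `r z` -/
def Ad {P : Type} [Group P] {n : ℕ} (r : P →* Matrix (Fin n) (Fin n) ℂ) (z : P) :
    Matrix (Fin n) (Fin n) ℂ →+* Matrix (Fin n) (Fin n) ℂ where
  toFun X := r z * X * r z⁻¹
  map_one' := by rw [Matrix.mul_one, mul_inv_r]
  map_mul' X Y := by
    calc r z * (X * Y) * r z⁻¹ = r z * X * 1 * Y * r z⁻¹ := by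
          rw [Matrix.mul_one]; simp only [Matrix.mul_assoc]
      _ = r z * X * (r z⁻¹ * r z) * Y * r z⁻¹ := by rw [inv_mul_r]
      _ = r z * X * r z⁻¹ * (r z * Y * r z⁻¹) := by simp only [Matrix.mul_assoc]
  map_zero' := by rw [Matrix.mul_zero, Matrix.zero_mul]
  map_add' X Y := by rw [Matrix.mul_add, Matrix.add_mul]

theorem Ad_apply {P : Type} [Group P] {n : ℕ} (r : P →* Matrix (Fin n) (Fin n) ℂ) (z : P)
    (X : Matrix (Fin n) (Fin n) ℂ) : Ad r z X = r z * X * r z⁻¹ := rfl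

theorem Ad_mul {P : Type} [Group P] {n : ℕ} (r : P →* Matrix (Fin n) (Fin n) ℂ) (z z' : P)
    (X : Matrix (Fin n) (Fin n) ℂ) : Ad r (z * z') X = Ad r z (Ad r z' X) := by
  rw [Ad_apply, Ad_apply, Ad_apply, _root_.mul_inv_rev, map_mul, map_mul]
  simp only [Matrix.mul_assoc]

theorem Ad_fix {P : Type} [Group P] {n : ℕ} (r : P →* Matrix (Fin n) (Fin n) ℂ) (z : P)
    (X : Matrix (Fin n) (Fin n) ℂ) : Ad r z X = X ↔ r z * X = X * r z := by
  rw [Ad_apply]
  constructor
  · intro h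
    calc r z * X = r z * X * (r z⁻¹ * r z) := by rw [inv_mul_r, Matrix.mul_one]
      _ = r z * X * r z⁻¹ * r z := by simp only [Matrix.mul_assoc]
      _ = X * r z := by rw [h]
  · intro h
    rw [h, Matrix.mul_assoc, mul_inv_r, Matrix.mul_one]

/-- the powers `τ^i`, `i < p`, represent the cosets of `P₁` -/
theorem cosets {p : ℕ} {P : Type} [Group P] {P₁ : Subgroup P} [P₁.Normal] {τ : P}
    (hp : p.Prime) (hidx : P₁.index = p) (hτ : τ ∉ P₁) :
    (∀ i j : Fin p, (τ ^ (i : ℕ))⁻¹ * τ ^ (j : ℕ) ∈ P₁ → i = j) ∧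
      ∀ x : P, ∃ i : Fin p, (τ ^ (i : ℕ))⁻¹ * x ∈ P₁ := by
  have hcard : Nat.card (P ⧸ P₁) = p := hidx
  have : Finite (P ⧸ P₁) := Nat.finite_of_card_ne_zero (by rw [hcard]; exact hp.ne_zero)
  have hord : orderOf (τ : P ⧸ P₁) = p := by
    have h1 := orderOf_dvd_natCard (τ : P ⧸ P₁)
    rw [hcard] at h1
    rcases (Nat.dvd_prime hp).1 h1 with h2 | h2
    · exact absurd ((QuotientGroup.eq_one_iff τ).1 (orderOf_eq_one_iff.1 h2)) hτ
    · exact h2
  have hinj : ∀ i j : Fin p, (τ ^ (i : ℕ))⁻¹ * τ ^ (j : ℕ) ∈ P₁ → i = j := by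
    intro i j hij
    have h1 : ((τ ^ (i : ℕ) : P) : P ⧸ P₁) = ((τ ^ (j : ℕ) : P) : P ⧸ P₁) :=
      QuotientGroup.eq.2 hij
    rw [QuotientGroup.mk_pow, QuotientGroup.mk_pow] at h1
    apply Fin.ext
    exact pow_injOn_Iio_orderOf (by rw [hord]; exact i.2) (by rw [hord]; exact j.2) h1
  refine ⟨hinj, fun x => ?_⟩
  let f : Fin p → P ⧸ P₁ := fun i => ((τ ^ (i : ℕ) : P) : P ⧸ P₁)
  have hf : Function.Bijective f := by
    apply Function.Injective.bijective_of_nat_card_le
    · intro i j h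
      exact hinj i j (QuotientGroup.eq.1 h)
    · rw [hcard, Nat.card_fin]
  obtain ⟨i, hi⟩ := hf.2 (x : P ⧸ P₁)
  exact ⟨i, QuotientGroup.eq.1 hi⟩

/-- the action of `x` on the cosets -/
theorem perm {p : ℕ} {P : Type} [Group P] {P₁ : Subgroup P} [P₁.Normal] {τ : P}
    (hp : p.Prime) (hidx : P₁.index = p) (hτ : τ ∉ P₁) (x : P) :
    ∃ (σ : Equiv.Perm (Fin p)) (h : Fin p → P₁),
      ∀ i : Fin p, x * τ ^ (i : ℕ) = τ ^ (σ i : ℕ) * h i := by
  obtain ⟨h1, h2⟩ := cosets hp hidx hτ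
  choose j hj using fun i : Fin p => h2 (x * τ ^ (i : ℕ))
  have hinj : Function.Injective j := by
    intro i i' hii
    apply h1
    have h3 := P₁.mul_mem (P₁.inv_mem (hj i)) (hj i')
    rw [hii] at h3
    have h4 : ((τ ^ (j i' : ℕ))⁻¹ * (x * τ ^ (i : ℕ)))⁻¹ * ((τ ^ (j i' : ℕ))⁻¹ * (x * τ ^ (i' : ℕ)))
        = (τ ^ (i : ℕ))⁻¹ * τ ^ (i' : ℕ) := by group
    rwa [h4] at h3
  refine ⟨Equiv.ofBijective j (Finite.injective_iff_bijective.1 hinj), fun i => ⟨_, hj i⟩,
    fun i => ?_⟩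
  rw [Equiv.ofBijective_apply]
  group

end WSY

open WSY in
theorem specWSY : SpecWSY := by
  intro p P _ P₁ _ τ n m r ρ Φ hT A hA
  classical
  obtain ⟨hcos, -⟩ := cosets hT.pp hT.idx hT.tau
  have hAdΦ : ∀ (h : P₁) (X : Matrix (Fin m) (Fin m) ℂ),
      Ad r (h : P) (Φ X) = Φ (ρ h * X * ρ h⁻¹) := by
    intro h X
    rw [Ad_apply, hT.act, Matrix.mul_assoc, mul_inv_r, Matrix.mul_one]
  have hAc : ∀ e ∈ A, ∀ e' ∈ A, e * e' = e' * e := by
    intro e he e' he'
    by_cases h : e = e'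
    · rw [h]
    · rw [hA.orth e he e' he' h, hA.orth e' he' e he (Ne.symm h)]
  -- the factors
  let x : Fin p → A → Matrix (Fin n) (Fin n) ℂ := fun i e => Ad r (τ ^ (i : ℕ)) (Φ e.1)
  have hx : ∀ i e, x i e = Ad r (τ ^ (i : ℕ)) (Φ e.1) := fun i e => rfl
  have hcomm : ∀ i a j b, x i a * x j b = x j b * x i a := by
    intro i a j b
    by_cases hij : i = j
    · subst hij
      rw [hx, hx, ← map_mul, ← map_mul, ← map_mul, ← map_mul, hAc a.1 a.2 b.1 b.2]
    · have h1 : (τ ^ (i : ℕ))⁻¹ * τ ^ (j : ℕ) ∉ P₁ := fun h => hij (hcos i j h)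
      have h2 := hT.com _ h1 a.1 b.1
      rw [← Ad_apply] at h2
      have h3 : x j b = Ad r (τ ^ (i : ℕ)) (Ad r ((τ ^ (i : ℕ))⁻¹ * τ ^ (j : ℕ)) (Φ b.1)) := by
        rw [hx, ← Ad_mul]
        congr 1
        group
      rw [h3, hx, ← map_mul, ← map_mul, h2]
  have hid : ∀ i a, x i a * x i a = x i a := by
    intro i a
    rw [hx, ← map_mul, ← map_mul, hA.idem a.1 a.2]
  have horth : ∀ i a b, a ≠ b → x i a * x i b = 0 := by
    intro i a b hab
    rw [hx, hx, ← map_mul, ← map_mul, hA.orth a.1 a.2 b.1 b.2 fun h => hab (Subtype.ext h),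
      map_zero, map_zero]
  have hsum : ∀ i, ∑ a, x i a = 1 := by
    intro i
    have h1 : ∑ a : A, (a : Matrix (Fin m) (Fin m) ℂ) = 1 := by
      rw [← hA.sum]
      exact Finset.sum_coe_sort A fun e => e
    rw [← map_one (Ad r (τ ^ (i : ℕ))), ← map_one Φ, ← h1, map_sum, map_sum]
  let W : (Fin p → A) → Matrix (Fin n) (Fin n) ℂ := fun s => (List.ofFn fun i => x i (s i)).prod
  obtain ⟨w1, w2, w3, w4⟩ := wprod p x hcomm hid horth hsum W fun s => rfl
  have hWtp : ∀ (s : Fin p → A) (Y : ℕ → Matrix (Fin m) (Fin m) ℂ), (∀ i : Fin p, Y i = (s i).1) →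
      tp p r τ Φ Y = W s := by
    intro s Y hY
    show _ = (List.ofFn fun i => x i (s i)).prod
    rw [tp, List.ofFn_eq_map, ← List.map_coe_finRange_eq_range, List.map_map]
    congr 1
    refine List.map_congr_left fun i _ => ?_
    rw [Function.comp_apply, hY, hx, Ad_apply]
  -- conjugation
  have hmove : ∀ (z : P) (σ : Equiv.Perm (Fin p)) (h : Fin p → P₁),
      (∀ i : Fin p, z * τ ^ (i : ℕ) = τ ^ (σ i : ℕ) * h i) → ∀ s s' : Fin p → A,
      (∀ i, (s' (σ i)).1 = ρ (h i) * (s i).1 * ρ (h i)⁻¹) → Ad r z (W s) = W s' := by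
    intro z σ h hz s s' hs
    refine w4 (Ad r z) σ s s' fun i => ?_
    rw [hx, hx, ← Ad_mul, hz, Ad_mul, hAdΦ, hs]
  have hex : ∀ (z : P) (s : Fin p → A), ∃ (σ : Equiv.Perm (Fin p)) (h : Fin p → P₁)
      (s' : Fin p → A), (∀ i : Fin p, z * τ ^ (i : ℕ) = τ ^ (σ i : ℕ) * h i) ∧
      (∀ i, (s' (σ i)).1 = ρ (h i) * (s i).1 * ρ (h i)⁻¹) ∧ Ad r z (W s) = W s' := by
    intro z s
    obtain ⟨σ, h, hz⟩ := perm hT.pp hT.idx hT.tau z
    let s' : Fin p → A := fun j => ⟨ρ (h (σ.symm j)) * (s (σ.symm j)).1 * ρ (h (σ.symm j))⁻¹,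
      hA.conj _ _ (s (σ.symm j)).2⟩
    have hs : ∀ i, (s' (σ i)).1 = ρ (h i) * (s i).1 * ρ (h i)⁻¹ := by
      intro i
      show ρ (h (σ.symm (σ i))) * (s (σ.symm (σ i))).1 * ρ (h (σ.symm (σ i)))⁻¹ = _
      rw [Equiv.symm_apply_apply]
    exact ⟨σ, h, s', hz, hs, hmove z σ h hz s s' hs⟩
  have hinj : ∀ s s', W s ≠ 0 → W s = W s' → s = s' := by
    intro s s' h0 h
    by_contra hne
    have h1 := w2 s s' hne
    rw [← h, w1] at h1
    exact h0 h1
  have hfix : ∀ e ∈ A, (∀ x, ρ x * e = e * ρ x) → ∀ z, r z * tp p r τ Φ (fun _ => e) =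
      tp p r τ Φ (fun _ => e) * r z := by
    intro e he hc z
    rw [hWtp (fun _ => ⟨e, he⟩) (fun _ => e) fun _ => rfl, ← Ad_fix]
    obtain ⟨σ, h, hz⟩ := perm hT.pp hT.idx hT.tau z
    refine hmove z σ h hz _ _ fun i => ?_
    show e = ρ (h i) * e * ρ (h i)⁻¹
    rw [hc, Matrix.mul_assoc, mul_inv_r, Matrix.mul_one]
  refine ⟨(univ.filter fun s => W s ≠ 0).image W, ⟨?_, ?_, ?_, ?_, ?_⟩, ?_, ?_, hfix⟩
  · intro e he
    obtain ⟨s, hs, rfl⟩ := Finset.mem_image.1 he
    exact (Finset.mem_filter.1 hs).2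
  · intro e he
    obtain ⟨s, hs, rfl⟩ := Finset.mem_image.1 he
    exact w1 s
  · intro e he e' he' hne
    obtain ⟨s, hs, rfl⟩ := Finset.mem_image.1 he
    obtain ⟨s', hs', rfl⟩ := Finset.mem_image.1 he'
    exact w2 s s' fun h => hne (by rw [h])
  · rw [Finset.sum_image, Finset.sum_filter_ne_zero, w3]
    intro s hs s' hs' h
    exact hinj s s' (Finset.mem_filter.1 hs).2 h
  · intro z e he
    obtain ⟨s, hs, rfl⟩ := Finset.mem_image.1 he
    obtain ⟨σ, h, s', hz, hs', hW⟩ := hex z s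
    rw [← Ad_apply, hW]
    refine Finset.mem_image.2 ⟨s', Finset.mem_filter.2 ⟨mem_univ _, fun h0 => ?_⟩, rfl⟩
    rw [h0] at hW
    apply (Finset.mem_filter.1 hs).2
    have h1 : Ad r z⁻¹ (Ad r z (W s)) = W s := by
      rw [← Ad_mul, inv_mul_cancel, Ad_apply, inv_one, map_one, Matrix.one_mul, Matrix.mul_one]
    rw [← h1, hW, map_zero]
  · intro w hw hc
    obtain ⟨s, hs, rfl⟩ := Finset.mem_image.1 hw
    have hs0 := (Finset.mem_filter.1 hs).2
    have key : ∀ (z : P), ∃ (σ : Equiv.Perm (Fin p)) (h : Fin p → P₁),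
        (∀ i : Fin p, z * τ ^ (i : ℕ) = τ ^ (σ i : ℕ) * h i) ∧
        ∀ i, (s (σ i)).1 = ρ (h i) * (s i).1 * ρ (h i)⁻¹ := by
      intro z
      obtain ⟨σ, h, s', hz, hs', hW⟩ := hex z s
      rw [(Ad_fix r z (W s)).2 (hc z)] at hW
      have h1 := hinj s s' hs0 hW
      rw [← h1] at hs'
      exact ⟨σ, h, hz, hs'⟩
    have hp0 : 0 < p := hT.pp.pos
    have hconst : ∀ (i : ℕ) (hi : i < p), s ⟨i, hi⟩ = s ⟨0, hp0⟩ := by
      intro i
      induction i with
      | zero => intro hi; rfl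
      | succ i ih =>
        intro hi
        rw [← ih (by omega)]
        obtain ⟨σ, h, hz, hs'⟩ := key τ
        have h1 := hz ⟨i, by omega⟩
        have h2 : (⟨i + 1, hi⟩ : Fin p) = σ ⟨i, by omega⟩ := by
          symm
          apply hcos
          have h3 : (τ ^ ((σ ⟨i, by omega⟩ : Fin p) : ℕ))⁻¹ * τ ^ (i + 1) = h ⟨i, by omega⟩ := by
            rw [pow_succ', h1, inv_mul_cancel_left]
          show (τ ^ ((σ ⟨i, by omega⟩ : Fin p) : ℕ))⁻¹ * τ ^ (i + 1) ∈ P₁
          rw [h3]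
          exact (h ⟨i, by omega⟩).2
        have h3 : h ⟨i, by omega⟩ = 1 := by
          rw [← h2] at h1
          have h4 : τ * τ ^ i = τ ^ (i + 1) * (h ⟨i, by omega⟩ : P) := h1
          rw [← pow_succ'] at h4
          exact Subtype.ext (mul_eq_left.1 h4.symm)
        have h4 := hs' ⟨i, by omega⟩
        rw [← h2, h3, inv_one, map_one, Matrix.one_mul, Matrix.mul_one] at h4
        exact Subtype.ext h4
    refine ⟨(s ⟨0, hp0⟩).1, (s ⟨0, hp0⟩).2, fun y => ?_, ?_⟩
    · obtain ⟨σ, h, hz, hs'⟩ := key y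
      have h1 := hz ⟨0, hp0⟩
      have h1' : (y : P) = τ ^ ((σ ⟨0, hp0⟩ : Fin p) : ℕ) * (h ⟨0, hp0⟩ : P) := by
        rw [← h1, pow_zero, mul_one]
      have h2 : σ ⟨0, hp0⟩ = ⟨0, hp0⟩ := by
        symm
        apply hcos
        show (τ ^ 0)⁻¹ * τ ^ ((σ ⟨0, hp0⟩ : Fin p) : ℕ) ∈ P₁
        rw [pow_zero, inv_one, one_mul]
        have h3 : τ ^ ((σ ⟨0, hp0⟩ : Fin p) : ℕ) = (y : P) * (h ⟨0, hp0⟩ : P)⁻¹ := by
          rw [h1', mul_inv_cancel_right]
        rw [h3]
        exact P₁.mul_mem y.2 (P₁.inv_mem (h ⟨0, hp0⟩).2)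
      rw [h2] at h1'
      have h3 : h ⟨0, hp0⟩ = y := by
        apply Subtype.ext
        rw [h1']
        show _ = τ ^ 0 * _
        rw [pow_zero, one_mul]
      have h4 := hs' ⟨0, hp0⟩
      rw [h2, h3] at h4
      calc ρ y * (s ⟨0, hp0⟩).1 = ρ y * (s ⟨0, hp0⟩).1 * (ρ y⁻¹ * ρ y) := by
            rw [inv_mul_r, Matrix.mul_one]
        _ = ρ y * (s ⟨0, hp0⟩).1 * ρ y⁻¹ * ρ y := by simp only [Matrix.mul_assoc]
        _ = (s ⟨0, hp0⟩).1 * ρ y := by rw [← h4]
    · rw [hWtp s _ fun i => ?_]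
      rw [hconst i.1 i.2]
  · intro e he hc h0
    rw [hWtp (fun _ => ⟨e, he⟩) (fun _ => e) fun _ => rfl] at h0 ⊢
    exact Finset.mem_image.2 ⟨_, Finset.mem_filter.2 ⟨mem_univ _, h0⟩, rfl⟩

end Pool.Agent.Lib.MP_1aae89_al.W5
end

section
/-!
# DLW: linear constituents of a tensor induced representation, modulo `p`
-/
set_option autoImplicit false

namespace Pool.Agent.Lib.MP_1aae89_al.W5

open Pool.Agent.Lib.MP_1aae89_al Pool.Agent.Lib.MP_1aae89_al.BF Pool.Agent.Lib.MP_1aae89_al.W3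
  Pool.Agent.Lib.MP_1aae89_al.W4 Finset
open Pool.Agent.Lib.MP1aae89 (Pex)

namespace DLW

/-- the product of the products of two commuting families -/
theorem prod_mul {M : Type} [Monoid M] (f g : ℕ → M) :
    ∀ l : List ℕ, l.Nodup → (∀ i ∈ l, ∀ j ∈ l, i ≠ j → f i * g j = g j * f i) →
      (l.map f).prod * (l.map g).prod = (l.map fun i => f i * g i).prod := by
  intro l
  induction l with
  | nil => intro _ _; simp
  | cons a l ih =>
    intro hn hc
    have hn' := List.nodup_cons.1 hn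
    have h1 : ∀ l' : List ℕ, (∀ j ∈ l', f j * g a = g a * f j) →
        (l'.map f).prod * g a = g a * (l'.map f).prod := by
      intro l'
      induction l' with
      | nil => intro _; simp
      | cons b l' ih' =>
        intro h
        rw [List.map_cons, List.prod_cons, mul_assoc, ih' fun j hj => h j (List.mem_cons_of_mem _ hj),
          ← mul_assoc, h b List.mem_cons_self, mul_assoc]
    have h2 := h1 l fun j hj => hc j (List.mem_cons_of_mem _ hj) a List.mem_cons_self
      fun h => hn'.1 (h ▸ hj)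
    rw [List.map_cons, List.map_cons, List.map_cons, List.prod_cons, List.prod_cons, List.prod_cons,
      ← ih hn'.2 fun i hi j hj hij => hc i (List.mem_cons_of_mem _ hi) j (List.mem_cons_of_mem _ hj) hij]
    calc f a * (l.map f).prod * (g a * (l.map g).prod)
        = f a * ((l.map f).prod * g a) * (l.map g).prod := by simp only [mul_assoc]
      _ = f a * (g a * (l.map f).prod) * (l.map g).prod := by rw [h2]
      _ = f a * g a * ((l.map f).prod * (l.map g).prod) := by simp only [mul_assoc]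

/-- scalars in a product -/
theorem prod_smul {n : ℕ} (c : ℕ → ℂ) (f : ℕ → Matrix (Fin n) (Fin n) ℂ) (l : List ℕ) :
    (l.map fun i => c i • f i).prod = (l.map c).prod • (l.map f).prod := by
  induction l with
  | nil => simp
  | cons a l ih =>
    rw [List.map_cons, List.map_cons, List.map_cons, List.prod_cons, List.prod_cons, List.prod_cons,
      ih, Matrix.smul_mul, Matrix.mul_smul, smul_smul]

section

variable {p : ℕ} {P : Type} [Group P] {P₁ : Subgroup P} [P₁.Normal] {τ : P} {n m : ℕ}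
  {r : P →* Matrix (Fin n) (Fin n) ℂ} {ρ : P₁ →* Matrix (Fin m) (Fin m) ℂ}
  {Φ : Matrix (Fin m) (Fin m) ℂ →ₐ[ℂ] Matrix (Fin n) (Fin n) ℂ}

/-- `tp` is multiplicative -/
theorem tp_mul (hT : TI p P₁ τ r ρ Φ) (Y Y' : ℕ → Matrix (Fin m) (Fin m) ℂ) :
    tp p r τ Φ Y * tp p r τ Φ Y' = tp p r τ Φ fun i => Y i * Y' i := by
  obtain ⟨hcos, -⟩ := WSY.cosets hT.pp hT.idx hT.tau
  unfold tp
  rw [prod_mul _ _ _ List.nodup_range]
  · congr 1
    refine List.map_congr_left fun i _ => ?_
    rw [← WSY.Ad_apply, ← WSY.Ad_apply, ← WSY.Ad_apply, ← map_mul, ← map_mul]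
  · intro i hi j hj hij
    rw [List.mem_range] at hi hj
    have h1 : (τ ^ i)⁻¹ * τ ^ j ∉ P₁ := fun h =>
      hij (congrArg Fin.val (hcos ⟨i, hi⟩ ⟨j, hj⟩ h))
    have h2 := hT.com _ h1 (Y i) (Y' j)
    rw [← WSY.Ad_apply] at h2
    have h3 : WSY.Ad r (τ ^ j) (Φ (Y' j)) = WSY.Ad r (τ ^ i) (WSY.Ad r ((τ ^ i)⁻¹ * τ ^ j) (Φ (Y' j))) := by
      rw [← WSY.Ad_mul]
      congr 1
      group
    rw [← WSY.Ad_apply, ← WSY.Ad_apply, h3, ← map_mul, ← map_mul, h2]

/-- scalars in `tp` -/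
theorem tp_smul (c : ℕ → ℂ) (Y : ℕ → Matrix (Fin m) (Fin m) ℂ) :
    tp p r τ Φ (fun i => c i • Y i) = (∏ i ∈ range p, c i) • tp p r τ Φ Y := by
  have h0 : ∏ i ∈ range p, c i = ((List.range p).map c).prod := rfl
  rw [h0, tp, tp, ← prod_smul]
  congr 1
  refine List.map_congr_left fun i _ => ?_
  rw [map_smul, Matrix.mul_smul, Matrix.smul_mul]

/-- the first factor -/
theorem tp_head (hp : 0 < p) (Y : ℕ → Matrix (Fin m) (Fin m) ℂ) :
    ∃ Q, tp p r τ Φ Y = Φ (Y 0) * Q := by
  obtain ⟨q, rfl⟩ : ∃ q, p = q + 1 := ⟨p - 1, by omega⟩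
  unfold tp
  rw [List.range_succ_eq_map, List.map_cons, List.prod_cons, pow_zero, inv_one, map_one,
    Matrix.one_mul, Matrix.mul_one]
  exact ⟨_, rfl⟩

end

end DLW

open DLW in
theorem specDLW (hSYI : SpecSYI) (hSYS : SpecSYS) (hWSY : SpecWSY) (hRK1 : SpecRK1)
    (hRKC : SpecRKC) : SpecDLW := by
  intro p P _ _ e hPe P₁ _ τ n m r ρ Φ hT q hpq k
  classical
  have hp := hT.pp
  obtain ⟨-, hcos⟩ := WSY.cosets hT.pp hT.idx hT.tau
  obtain ⟨e₁, -, hPe₁⟩ : ∃ e₁ ≤ e, Nat.card P₁ = p ^ e₁ :=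
    (Nat.dvd_prime_pow hp).1 (hPe ▸ Subgroup.card_subgroup_dvd_card P₁)
  obtain ⟨A, hA, hA1⟩ := hSYI p hp e₁ hPe₁ m ρ
  obtain ⟨B, hB, b1, b2, b3⟩ := hWSY p P₁ τ n m r ρ Φ hT A hA
  -- the linear characters
  have hω : ∀ a : Matrix (Fin m) (Fin m) ℂ, ∃ ω : Lin P₁, a ∈ A → (∀ x, ρ x * a = a * ρ x) →
      ∀ x, ρ x * a = ((ω x : ℂˣ) : ℂ) • a := by
    intro a
    by_cases h : a ∈ A ∧ ∀ x, ρ x * a = a * ρ x
    · obtain ⟨ω, hω⟩ := hRKC m ρ a (hA.idem a h.1) (hA1 a h.1 h.2) h.2
      exact ⟨ω, fun _ _ => hω⟩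
    · exact ⟨1, fun h1 h2 => absurd ⟨h1, h2⟩ h⟩
  choose ω hω using hω
  let W : Matrix (Fin m) (Fin m) ℂ → Matrix (Fin n) (Fin n) ℂ := fun a => tp p r τ Φ fun _ => a
  have hW : ∀ a, W a = tp p r τ Φ fun _ => a := fun a => rfl
  have hWtr : ∀ a ∈ A, (∀ x, ρ x * a = a * ρ x) → (W a).trace = 1 := fun a ha hc =>
    (hRK1 p P₁ τ n m r ρ Φ hT a (hA.idem a ha) (hA1 a ha hc)).2
  have hW0 : ∀ a ∈ A, (∀ x, ρ x * a = a * ρ x) → W a ≠ 0 := by
    intro a ha hc h0
    have h1 := hWtr a ha hc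
    rw [h0, Matrix.trace_zero] at h1
    exact zero_ne_one h1
  have hWB : ∀ a ∈ A, (∀ x, ρ x * a = a * ρ x) → W a ∈ B := fun a ha hc =>
    b2 a ha hc (hW0 a ha hc)
  have htr : ∀ w ∈ B, (∀ x, r x * w = w * r x) → w.trace = 1 := by
    intro w hw hc
    obtain ⟨a, ha, hac, rfl⟩ := b1 w hw hc
    exact hWtr a ha hac
  have hη : ∀ w : Matrix (Fin n) (Fin n) ℂ, ∃ η : Lin P, w ∈ B → (∀ x, r x * w = w * r x) →
      ∀ x, r x * w = ((η x : ℂˣ) : ℂ) • w := by
    intro w
    by_cases h : w ∈ B ∧ ∀ x, r x * w = w * r x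
    · obtain ⟨η, hη⟩ := hRKC n r w (hB.idem w h.1) (htr w h.1 h.2) h.2
      exact ⟨η, fun _ _ => hη⟩
    · exact ⟨1, fun h1 h2 => absurd ⟨h1, h2⟩ h⟩
  choose η hη using hη
  -- injectivity
  have hinj : ∀ a ∈ A, (∀ x, ρ x * a = a * ρ x) → ∀ a' ∈ A, W a = W a' → a = a' := by
    intro a ha hc a' ha' h
    by_contra hne
    obtain ⟨Q, hQ⟩ := tp_head (r := r) (τ := τ) (Φ := Φ) hp.pos fun _ => a
    obtain ⟨Q', hQ'⟩ := tp_head (r := r) (τ := τ) (Φ := Φ) hp.pos fun _ => a'
    have h1 : Φ a * W a = W a := by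
      rw [hW, hQ, ← Matrix.mul_assoc, ← map_mul, hA.idem a ha]
    have h2 : Φ a * W a' = 0 := by
      rw [hW, hQ', ← Matrix.mul_assoc, ← map_mul, hA.orth a ha a' ha' hne, map_zero,
        Matrix.zero_mul]
    rw [← h, h1] at h2
    exact hW0 a ha hc h2
  -- the values
  have hval : ∀ a ∈ A, (∀ x, ρ x * a = a * ρ x) → ∀ x : P₁,
      η (W a) x = ∏ i ∈ range p, ω a (cjt P₁ τ i x) := by
    intro a ha hc x
    have h1 := hη (W a) (hWB a ha hc) (b3 a ha hc) x
    have h2 : r x * W a = (∏ i ∈ range p, ((ω a (cjt P₁ τ i x) : ℂˣ) : ℂ)) • W a := by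
      rw [hT.res, hW, tp_mul hT, ← tp_smul]
      congr 1
      funext i
      exact hω a ha hc _
    have h3 : (((η (W a) x : ℂˣ) : ℂ) - ∏ i ∈ range p, ((ω a (cjt P₁ τ i x) : ℂˣ) : ℂ)) • W a = 0 := by
      rw [sub_smul, ← h1, ← h2, sub_self]
    have h4 := (smul_eq_zero.1 h3).resolve_right (hW0 a ha hc)
    apply Units.ext
    rw [sub_eq_zero.1 h4, Units.coe_prod]
  have hτp : τ ^ p ∈ P₁ := by
    have h1 := Subgroup.pow_index_mem P₁ τ
    rwa [hT.idx] at h1
  have hvτ : ∀ a ∈ A, (∀ x, ρ x * a = a * ρ x) → (η (W a) τ) ^ q = (ω a ⟨τ ^ p, hτp⟩) ^ q := by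
    intro a ha hc
    have h1 := hval a ha hc ⟨τ ^ p, hτp⟩
    have h2 : ∀ i, cjt P₁ τ i ⟨τ ^ p, hτp⟩ = ⟨τ ^ p, hτp⟩ := by
      intro i
      apply Subtype.ext
      unfold cjt
      rw [MulAut.conjNormal_apply]
      show (τ ^ i)⁻¹ * τ ^ p * ((τ ^ i)⁻¹)⁻¹ = τ ^ p
      rw [inv_inv, mul_assoc, ← pow_add, add_comm, pow_add, inv_mul_cancel_left]
    simp only [h2, prod_const, card_range] at h1
    rw [map_pow] at h1
    obtain ⟨q', rfl⟩ := hpq
    rw [pow_mul, h1, ← pow_mul]
  have hiff : ∀ a ∈ A, (∀ x, ρ x * a = a * ρ x) →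
      (Vr p P₁ τ (ω a ^ q) k ↔ η (W a) ^ q = k) := by
    intro a ha hc
    have hx : ∀ x : P₁, ∏ i ∈ range p, (ω a ^ q) (cjt P₁ τ i x) = (η (W a) ^ q) x := by
      intro x
      rw [Lin.pow_apply, hval a ha hc, ← Finset.prod_pow]
      exact Finset.prod_congr rfl fun i _ => Lin.pow_apply _ _ _
    constructor
    · rintro ⟨h1, h2⟩
      apply Lin.ext
      intro x
      obtain ⟨i, hi⟩ := hcos x
      obtain ⟨y, hy⟩ : ∃ y : P₁, x = τ ^ (i : ℕ) * y := ⟨⟨_, hi⟩, by
        show x = τ ^ (i : ℕ) * ((τ ^ (i : ℕ))⁻¹ * x)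
        rw [mul_inv_cancel_left]⟩
      rw [hy, map_mul, map_mul, map_pow, map_pow, h1, hx, h2 hτp, Lin.pow_apply, Lin.pow_apply,
        Lin.pow_apply, hvτ a ha hc]
    · rintro rfl
      refine ⟨fun x => (hx x).symm, fun h => ?_⟩
      rw [Lin.pow_apply, Lin.pow_apply, hvτ a ha hc]
  -- the counts
  have c1 := hSYS p hp e hPe n r B hB η (fun w hw hc => ⟨htr w hw hc, hη w hw hc⟩) q hpq k
  have c2 : ∀ κ : Lin P₁, dl q (fun x => (ρ x).trace) κ ≡
      (A.filter fun a => (∀ x, ρ x * a = a * ρ x) ∧ (ω a) ^ q = κ).card [MOD p] := fun κ =>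
    hSYS p hp e₁ hPe₁ m ρ A hA ω (fun a ha hc => ⟨hA1 a ha hc, hω a ha hc⟩) q hpq κ
  have c3 : (B.filter fun w => (∀ x, r x * w = w * r x) ∧ (η w) ^ q = k).card =
      (A.filter fun a => (∀ x, ρ x * a = a * ρ x) ∧ Vr p P₁ τ (ω a ^ q) k).card := by
    symm
    refine Finset.card_bij (fun a _ => W a) ?_ ?_ ?_
    · intro a ha
      obtain ⟨h1, h2, h3⟩ := Finset.mem_filter.1 ha
      exact Finset.mem_filter.2 ⟨hWB a h1 h2, b3 a h1 h2, (hiff a h1 h2).1 h3⟩
    · intro a ha a' ha' h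
      obtain ⟨h1, h2, -⟩ := Finset.mem_filter.1 ha
      exact hinj a h1 h2 a' (Finset.mem_filter.1 ha').1 h
    · intro w hw
      obtain ⟨h1, h2, h3⟩ := Finset.mem_filter.1 hw
      obtain ⟨a, ha, hac, rfl⟩ := b1 w h1 h2
      exact ⟨a, Finset.mem_filter.2 ⟨ha, hac, (hiff a ha hac).2 h3⟩, rfl⟩
  have c4 : (A.filter fun a => (∀ x, ρ x * a = a * ρ x) ∧ Vr p P₁ τ (ω a ^ q) k).card =
      ∑ κ ∈ univ.filter (fun κ : Lin P₁ => Vr p P₁ τ κ k),
        (A.filter fun a => (∀ x, ρ x * a = a * ρ x) ∧ (ω a) ^ q = κ).card := by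
    rw [Finset.card_eq_sum_card_fiberwise (f := fun a => ω a ^ q)
      (t := univ.filter (fun κ : Lin P₁ => Vr p P₁ τ κ k))]
    · refine Finset.sum_congr rfl fun κ hκ => ?_
      congr 1
      ext a
      rw [Finset.mem_filter, Finset.mem_filter, Finset.mem_filter]
      constructor
      · rintro ⟨⟨h1, h2, -⟩, h3⟩
        exact ⟨h1, h2, h3⟩
      · rintro ⟨h1, h2, h3⟩
        exact ⟨⟨h1, h2, by rw [h3]; exact (Finset.mem_filter.1 hκ).2⟩, h3⟩
    · intro a ha
      exact Finset.mem_filter.2 ⟨mem_univ _, (Finset.mem_filter.1 ha).2.2⟩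
  rw [c3, c4] at c1
  exact c1.trans (Nat.ModEq.sum fun κ _ => (c2 κ).symm)

end Pool.Agent.Lib.MP_1aae89_al.W5
end

section
/-!
# ELL: lifting a Sylow subgroup
-/
set_option autoImplicit false

namespace Pool.Agent.Lib.MP_1aae89_al.W5

open Pool.Agent.Lib.MP_1aae89_al Pool.Agent.Lib.MP_1aae89_al.BF Pool.Agent.Lib.MP_1aae89_al.W3
  Pool.Agent.Lib.MP_1aae89_al.W4 Finset

theorem specELL (hLIF : W3.SpecLIF) : SpecELL := by
  intro p hp S G Yh _ _ _ _ _ _ ι hι hS f hf hker
  have hcS : Nat.card ι.range = Nat.card S :=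
    (Nat.card_congr (MonoidHom.ofInjective hι).toEquiv).symm
  obtain ⟨P', hP', hmap, htriv⟩ := hLIF p hp f hf hker ι.range (hcS.trans hS)
  have hinj : Function.Injective (f.subgroupMap P') := by
    rw [← MonoidHom.ker_eq_bot_iff, eq_bot_iff]
    rintro ⟨x, hx⟩ h1
    rw [MonoidHom.mem_ker] at h1
    have h2 : f x = 1 := congrArg Subtype.val h1
    rw [Subgroup.mem_bot]
    exact Subtype.ext (htriv x hx h2)
  let e : P' ≃* P'.map f :=
    MulEquiv.ofBijective (f.subgroupMap P') ⟨hinj, f.subgroupMap_surjective P'⟩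
  have hmem : ∀ x, ι x ∈ P'.map f := by
    intro x
    rw [hmap]
    exact ⟨x, rfl⟩
  let ℓ : S →* Yh := P'.subtype.comp (e.symm.toMonoidHom.comp (ι.codRestrict (P'.map f) hmem))
  have hℓ : ∀ x, f (ℓ x) = ι x := by
    intro x
    have h1 : e (e.symm ⟨ι x, hmem x⟩) = ⟨ι x, hmem x⟩ := e.apply_symm_apply _
    exact congrArg Subtype.val h1
  refine ⟨ℓ, hℓ, ?_⟩
  have hℓi : Function.Injective ℓ := by
    intro x y hxy
    apply hι
    rw [← hℓ x, ← hℓ y, hxy]
  have h1 : Nat.card ℓ.range = Nat.card S :=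
    (Nat.card_congr (MonoidHom.ofInjective hℓi).toEquiv).symm
  have h2 : Nat.card P' = Nat.card S := by
    rw [Nat.card_congr e.toEquiv, hmap, hcS]
  rw [h1, ← h2, hP']

end Pool.Agent.Lib.MP_1aae89_al.W5
end

section
/-!
# FAC: the conditions `Fac` and `CC`
-/
set_option autoImplicit false

namespace Pool.Agent.Lib.MP_1aae89_al.W5

open Pool.Agent.Lib.MP_1aae89_al Pool.Agent.Lib.MP_1aae89_al.BF Pool.Agent.Lib.MP_1aae89_al.W3
  Pool.Agent.Lib.MP_1aae89_al.W4 Finset

open Pool.Agent.Lib.MP_1aae89_al.W3.GQU in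
theorem specFAC (hCYN : W4.SpecCYN) : SpecFAC := by
  classical
  intro p b hp M _ _ P A B hAB hP hN hF
  have : Fact p.Prime := ⟨hp⟩
  set H : Subgroup B := A.subgroupOf B with hH
  set S : Subgroup B := P.subgroupOf B with hS
  have hScard : Nat.card S = p ^ (Nat.card B).factorization p := by
    rw [← hP, ← Subgroup.subgroupOf_map_subtype]
    exact (Subgroup.card_map_of_injective (f := B.subtype) B.subtype_injective).symm
  obtain ⟨hP1, hP2⟩ := card_map hp (H := H) hScard
  rcases hF with h1 | h1 | ⟨hab, h1⟩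
  · left
    have hq : IsPGroup p (B ⧸ H) := by
      intro x
      obtain ⟨y, rfl⟩ := QuotientGroup.mk'_surjective H x
      obtain ⟨j, hj⟩ := h1 y y.2
      refine ⟨j, ?_⟩
      rw [← map_pow]
      exact mk_eq_one.2 (Subgroup.mem_subgroupOf.2 (by rw [Subgroup.coe_pow]; exact hj))
    exact IsPGroup.iff_card.1 hq
  · right
    left
    intro x hx
    obtain ⟨y, rfl⟩ := QuotientGroup.mk'_surjective H x
    rw [← map_pow, mk_eq_one, Subgroup.mem_subgroupOf, Subgroup.coe_pow] at hx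
    rw [← map_pow, mk_eq_one, Subgroup.mem_subgroupOf, Subgroup.coe_pow]
    exact h1 y y.2 hx
  · right
    right
    have hmS : ∀ z : B, z ∈ S ↔ (z : M) ∈ P ⊓ B := fun z =>
      ⟨fun hz => ⟨hz, z.2⟩, fun hz => hz.1⟩
    have hmH : ∀ z : B, z ∈ H ↔ (z : M) ∈ A := fun z => Iff.rfl
    refine ⟨S.map (QuotientGroup.mk' H), hP2, ?_, ?_⟩
    · rintro _ ⟨x, hx, rfl⟩ _ ⟨y, hy, rfl⟩
      rw [← map_mul, ← map_mul, mk_eq, hmH]
      have h2 := hab x ((hmS x).1 hx) y ((hmS y).1 hy)
      have h3 : ((x * y * (y * x)⁻¹ : B) : M) = (x : M) * y * (x : M)⁻¹ * (y : M)⁻¹ := by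
        push_cast
        group
      rw [h3]
      exact h2
    · rcases h1 with ⟨x₀, hx₀, h1⟩ | h1
      · have h2 := hCYN p hp (S.map (QuotientGroup.mk' H)) ⊤ hP2 ?_
        · have f1 : Nat.card {g : B ⧸ H // g ∈ (⊤ : Subgroup (B ⧸ H)) ∧
              ∀ x ∈ S.map (QuotientGroup.mk' H) ⊓ ⊤, g * x * g⁻¹ ∈
                S.map (QuotientGroup.mk' H) ⊓ ⊤} =
              Nat.card {g : B ⧸ H // ∀ x ∈ S.map (QuotientGroup.mk' H), g * x * g⁻¹ ∈
                S.map (QuotientGroup.mk' H)} := by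
            refine Nat.card_congr (Equiv.subtypeEquivRight fun g => ?_)
            rw [inf_top_eq]
            exact ⟨fun h => h.2, fun h => ⟨Subgroup.mem_top _, h⟩⟩
          have f2 : Nat.card {g : B ⧸ H // g ∈ (⊤ : Subgroup (B ⧸ H)) ∧
              ∀ x ∈ S.map (QuotientGroup.mk' H) ⊓ ⊤, g * x * g⁻¹ = x} =
              Nat.card {g : B ⧸ H // ∀ x ∈ S.map (QuotientGroup.mk' H), g * x * g⁻¹ = x} := by
            refine Nat.card_congr (Equiv.subtypeEquivRight fun g => ?_)
            rw [inf_top_eq]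
            exact ⟨fun h => h.2, fun h => ⟨Subgroup.mem_top _, h⟩⟩
          rw [f1, f2] at h2
          exact h2
        · refine ⟨QuotientGroup.mk' H ⟨x₀, hx₀.2⟩, ?_, ?_⟩
          · rw [inf_top_eq]
            exact ⟨⟨x₀, hx₀.2⟩, hx₀.1, rfl⟩
          · intro y hy
            rw [inf_top_eq] at hy
            obtain ⟨y, hy, rfl⟩ := hy
            obtain ⟨j, hj⟩ := h1 y ((hmS y).1 hy)
            refine ⟨j, ?_⟩
            rw [← map_pow, mk_eq, hmH]
            push_cast
            exact hj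
      · have e1 := card_preimage H fun z => ∀ x ∈ S.map (QuotientGroup.mk' H),
          z * x * z⁻¹ ∈ S.map (QuotientGroup.mk' H)
        have e2 := card_preimage H fun z => ∀ x ∈ S.map (QuotientGroup.mk' H), z * x * z⁻¹ = x
        have f1 : Nat.card {g : B // ∀ x ∈ S.map (QuotientGroup.mk' H),
              QuotientGroup.mk' H g * x * (QuotientGroup.mk' H g)⁻¹ ∈
                S.map (QuotientGroup.mk' H)} =
            Nat.card {g : M // g ∈ B ∧ ∀ x ∈ P ⊓ B, ∃ y ∈ P ⊓ B, g * x * g⁻¹ * y⁻¹ ∈ A} := by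
          refine Nat.card_congr
            { toFun := fun g => ⟨g.1, g.1.2, fun x hx => ?_⟩
              invFun := fun g => ⟨⟨g.1, g.2.1⟩, ?_⟩
              left_inv := fun g => rfl
              right_inv := fun g => rfl }
          · obtain ⟨y, hy, hyx⟩ := g.2 (QuotientGroup.mk' H ⟨x, hx.2⟩)
              ⟨⟨x, hx.2⟩, hx.1, rfl⟩
            refine ⟨y, (hmS y).1 hy, ?_⟩
            rw [← map_mul, ← map_inv, ← map_mul, eq_comm, mk_eq, hmH] at hyx
            exact hyx
          · rintro _ ⟨x, hx, rfl⟩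
            obtain ⟨y, hy, hyx⟩ := g.2.2 x ((hmS x).1 hx)
            refine ⟨⟨y, hy.2⟩, hy.1, ?_⟩
            rw [← map_mul, ← map_inv, ← map_mul, eq_comm, mk_eq, hmH]
            exact hyx
        have f2 : Nat.card {g : B // ∀ x ∈ S.map (QuotientGroup.mk' H),
              QuotientGroup.mk' H g * x * (QuotientGroup.mk' H g)⁻¹ = x} =
            Nat.card {g : M // g ∈ B ∧ ∀ x ∈ P ⊓ B, g * x * g⁻¹ * x⁻¹ ∈ A} := by
          refine Nat.card_congr
            { toFun := fun g => ⟨g.1, g.1.2, fun x hx => ?_⟩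
              invFun := fun g => ⟨⟨g.1, g.2.1⟩, ?_⟩
              left_inv := fun g => rfl
              right_inv := fun g => rfl }
          · have hyx := g.2 (QuotientGroup.mk' H ⟨x, hx.2⟩) ⟨⟨x, hx.2⟩, hx.1, rfl⟩
            rw [← map_mul, ← map_inv, ← map_mul, mk_eq, hmH] at hyx
            exact hyx
          · rintro _ ⟨x, hx, rfl⟩
            have hyx := g.2.2 x ((hmS x).1 hx)
            rw [← map_mul, ← map_inv, ← map_mul, mk_eq, hmH]
            exact hyx
        rw [f1] at e1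
        rw [f2] at e2
        rw [e1, e2, ← mul_assoc] at h1
        exact lt_of_mul_lt_mul_right h1 (Nat.zero_le _)

end Pool.Agent.Lib.MP_1aae89_al.W5
end

section
/-!
# Module FI4: the theorem for `M`
-/
set_option autoImplicit false

namespace Pool.Agent.Lib.MP_1aae89_al.W5

open Pool.Agent.Lib.MP_1aae89_al Pool.Agent.Lib.MP_1aae89_al.BF Pool.Agent.Lib.MP_1aae89_al.W3
  Pool.Agent.Lib.MP_1aae89_al.W4 Finset
open Pool.Agent.Lib.MP1aae89 (Pex)

namespace FI4

/-- normality inside a subgroup, from the elementwise condition -/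
theorem norm_of {M : Type} [Group M] (A B : Subgroup M)
    (h : ∀ g ∈ B, ∀ x ∈ A, g * x * g⁻¹ ∈ A) : (A.subgroupOf B).Normal :=
  ⟨fun x hx g => h g g.2 x hx⟩

/-- Sylow subgroups of the members of the chain -/
theorem syl (hSYN : SpecSYN) {p : ℕ} (hp : p.Prime) {M : Type} [Group M] [Finite M]
    (P : Subgroup M) (hP : Nat.card P = p ^ (Nat.card M).factorization p) (m : ℕ)
    (K : ℕ → Subgroup M) (h1 : ∀ i < m, K i ≤ K (i + 1))
    (h2 : ∀ i < m, ∀ g ∈ K (i + 1), ∀ x ∈ K i, g * x * g⁻¹ ∈ K i) (h4 : K m = ⊤) :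
    ∀ j : ℕ, j ≤ m → Nat.card ↥(P ⊓ K (m - j)) = p ^ (Nat.card (K (m - j))).factorization p := by
  intro j
  induction j with
  | zero =>
    intro _
    rw [Nat.sub_zero, h4, inf_top_eq, Subgroup.card_top]
    exact hP
  | succ j ih =>
    intro hj
    have h5 := ih (by omega)
    have h6 : m - j = m - (j + 1) + 1 := by omega
    rw [h6] at h5
    exact hSYN p hp P (K (m - (j + 1))) (K (m - (j + 1) + 1)) (h1 _ (by omega))
      (h2 _ (by omega)) h5

end FI4

theorem specFI4 (hCHG : SpecCHG) (hSYN : SpecSYN) (hSE4 : SpecSE4) (hSG4 : SpecSG4)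
    (hSC4 : SpecSC4) (hSTV : SpecSTV) : SpecFI4 := by
  intro p b hp hb M _ _ P hP m K h1 h2 h3 h4 h5 h6
  have hFp : Fact p.Prime := ⟨hp⟩
  have hPg : IsPGroup p P := IsPGroup.iff_card.2 ⟨_, hP⟩
  refine hCHG p b hp hb P hP m K h1 h2 h3 h4 h5 ?_
  intro i hi hN
  have hn : ((K i).subgroupOf (K (i + 1))).Normal := FI4.norm_of _ _ (h2 i hi)
  have hsyl : Nat.card ↥(P ⊓ K (i + 1)) = p ^ (Nat.card (K (i + 1))).factorization p := by
    have h7 := FI4.syl hSYN hp P hP m K h1 h2 h4 (m - (i + 1)) (by omega)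
    have h8 : m - (m - (i + 1)) = i + 1 := by omega
    rwa [h8] at h7
  rcases h6 i hi with h | h | h | h
  · obtain ⟨n, hn4⟩ := hSE4 p b hp P (K i) (K (i + 1)) hsyl (h1 i hi) h
    exact hSG4 p b hp hb P hPg (K i) (K (i + 1)) (h1 i hi) (h2 i hi) (h3 i (by omega))
      (h3 (i + 1) (by omega)) n hn4
  · exact hSC4 p b hp hb P hPg (K i) (K (i + 1)) (h1 i hi) (h2 i hi) (h3 i (by omega))
      (h3 (i + 1) (by omega)) h
  · exact hSTV p b hp hb P hP (K i) (K (i + 1)) (h1 i hi) (h2 i hi) (h3 i (by omega))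
      (h3 (i + 1) (by omega)) (Or.inr (Or.inr (Or.inr (Or.inl h))))
  · exact hSTV p b hp hb P hP (K i) (K (i + 1)) (h1 i hi) (h2 i hi) (h3 i (by omega))
      (h3 (i + 1) (by omega)) (Or.inr (Or.inr (Or.inr (Or.inr h))))

end Pool.Agent.Lib.MP_1aae89_al.W5
end

section
/-!
# FIN: the theorem for `M`
-/
set_option autoImplicit false

namespace Pool.Agent.Lib.MP_1aae89_al.W5

open Pool.Agent.Lib.MP_1aae89_al Pool.Agent.Lib.MP_1aae89_al.BF Pool.Agent.Lib.MP_1aae89_al.W3
  Pool.Agent.Lib.MP_1aae89_al.W4 Finset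

/-- the intersections of `P` with the terms of the chain are Sylow subgroups of them -/
theorem FIN.syl (hSYN : SpecSYN) {p : ℕ} (hp : p.Prime) {M : Type} [Group M] [Finite M]
    (P : Subgroup M) (hP : Nat.card P = p ^ (Nat.card M).factorization p) (m : ℕ)
    (K : ℕ → Subgroup M) (hle : ∀ i < m, K i ≤ K (i + 1))
    (hnorm : ∀ i < m, ∀ g ∈ K (i + 1), ∀ x ∈ K i, g * x * g⁻¹ ∈ K i) (hm : K m = ⊤) :
    ∀ i ≤ m, Nat.card ↥(P ⊓ K i) = p ^ (Nat.card (K i)).factorization p := by
  have key : ∀ j ≤ m, Nat.card ↥(P ⊓ K (m - j)) =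
      p ^ (Nat.card (K (m - j))).factorization p := by
    intro j
    induction j with
    | zero =>
      intro _
      rw [Nat.sub_zero, hm, inf_top_eq, Subgroup.card_top]
      exact hP
    | succ j ih =>
      intro hj
      have h1 : m - j = m - (j + 1) + 1 := by omega
      have h2 := ih (by omega)
      rw [h1] at h2
      exact hSYN p hp P (K (m - (j + 1))) (K (m - (j + 1) + 1)) (hle _ (by omega))
        (hnorm _ (by omega)) h2
  intro i hi
  have h := key (m - i) (Nat.sub_le m i)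
  rwa [Nat.sub_sub_self hi] at h

theorem specFIN (hCHG : SpecCHG) (hSTV : SpecSTV) (hSYN : SpecSYN) (hSER : SpecSER)
    (hSGO : SpecSGO) : SpecFIN := by
  intro p b hp hb M _ _ P hP m K hle hnorm hPn hm h0 hst
  have hsyl := FIN.syl hSYN hp P hP m K hle hnorm hm
  have hPp : IsPGroup p P := IsPGroup.of_card hP
  refine hCHG p b hp hb P hP m K hle hnorm hPn hm h0 ?_
  intro i hi
  rcases hst i hi with h | h
  · intro _
    have hn : ((K i).subgroupOf (K (i + 1))).Normal :=
      ⟨fun x hx g => hnorm i hi (g : M) g.2 (x : M) hx⟩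
    obtain ⟨n, hn⟩ := hSER p b hp P (K i) (K (i + 1)) (hsyl (i + 1) (by omega)) (hle i hi) h
    exact hSGO p b hp hb P hPp (K i) (K (i + 1)) (hle i hi) (hnorm i hi) (hPn i (by omega))
      (hPn (i + 1) (by omega)) n hn
  · exact hSTV p b hp hb P hP (K i) (K (i + 1)) (hle i hi) (hnorm i hi) (hPn i (by omega))
      (hPn (i + 1) (by omega)) (Or.inr (Or.inr (Or.inr h)))

end Pool.Agent.Lib.MP_1aae89_al.W5
end

section
/-!
# FOK: the conditions on the factors
-/
set_option autoImplicit false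

namespace Pool.Agent.Lib.MP_1aae89_al.W5

open Pool.Agent.Lib.MP_1aae89_al Pool.Agent.Lib.MP_1aae89_al.BF Pool.Agent.Lib.MP_1aae89_al.W3
  Pool.Agent.Lib.MP_1aae89_al.W4 Finset
open Pool.Agent.Lib.MP1aae89 (Pex)

namespace FOK

theorem norm_iff {F : Type} [Group F] [Finite F] (Q : Subgroup F) (g : F) :
    (∀ x ∈ Q, g * x * g⁻¹ ∈ Q) ↔ g ∈ Subgroup.normalizer (Q : Set F) := by
  constructor
  · intro h
    rw [Subgroup.mem_normalizer_iff]
    intro x
    refine ⟨h x, fun hx => ?_⟩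
    -- conjugation by `g` is an injective map from `Q` to `Q`
    let c : Q → Q := fun x => ⟨g * x * g⁻¹, h x x.2⟩
    have hc : Function.Injective c := by
      intro a b hab
      have h1 : g * (a : F) * g⁻¹ = g * b * g⁻¹ := congrArg Subtype.val hab
      exact Subtype.ext (by simpa using h1)
    obtain ⟨y, hy⟩ := (Finite.injective_iff_surjective.1 hc) ⟨g * x * g⁻¹, hx⟩
    have h2 : g * (y : F) * g⁻¹ = g * x * g⁻¹ := congrArg Subtype.val hy
    have h3 : (y : F) = x := by simpa using h2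
    rw [← h3]
    exact y.2
  · intro h x hx
    exact ((Subgroup.mem_normalizer_iff.1 h) x).1 hx

theorem cen_iff {F : Type} [Group F] (Q : Subgroup F) (g : F) :
    (∀ x ∈ Q, g * x * g⁻¹ = x) ↔ g ∈ Subgroup.centralizer (Q : Set F) := by
  rw [Subgroup.mem_centralizer_iff]
  constructor
  · intro h x hx
    have h1 := h x hx
    calc x * g = g * x * g⁻¹ * g := by rw [h1]
      _ = g * x := by group
  · intro h x hx
    rw [← h x hx]
    group

end FOK

theorem specFOK (hFXL : SpecFXL) (hCYN : W4.SpecCYN) : SpecFOK := by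
  intro p b hp hb F _ _ h
  have hF : Fact p.Prime := ⟨hp⟩
  rcases h with h | h | ⟨Q, hab, h⟩ | ⟨h1, h2⟩
  · obtain ⟨e, he⟩ := (IsPGroup.iff_card (p := p)).1 h
    exact Or.inl (Or.inl ⟨e, he⟩)
  · refine Or.inl (Or.inr (Or.inl fun x hx => ?_))
    obtain ⟨k, hk, hxk⟩ := (Nat.dvd_prime_pow hp).1 (orderOf_dvd_of_pow_eq_one hx)
    have hkb : k ≠ b := by
      rintro rfl
      exact h x hxk
    exact orderOf_dvd_iff_pow_eq_one.1 (hxk ▸ pow_dvd_pow p (by omega))
  · have hQ : Nat.card (Q : Subgroup F) = p ^ (Nat.card F).factorization p := Q.card_eq_multiplicity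
    refine Or.inl (Or.inr (Or.inr ⟨Q, hQ, hab, ?_⟩))
    rcases h with h | h
    · have h3 := hCYN p hp (Q : Subgroup F) ⊤ hQ (by
        obtain ⟨x₀, hx₀⟩ := h.exists_generator
        refine ⟨x₀, ⟨x₀.2, Subgroup.mem_top _⟩, fun y hy => ?_⟩
        obtain ⟨j, hj⟩ := (Submonoid.mem_powers_iff (⟨y, hy.1⟩ : Q) x₀).1
          ((mem_powers_iff_mem_zpowers (x := x₀)).2 (hx₀ ⟨y, hy.1⟩))
        exact ⟨j, (congrArg Subtype.val hj).symm⟩)
      refine (Nat.card_le_card_of_injective
        (fun g : {g : F // ∀ x ∈ (Q : Subgroup F), g * x * g⁻¹ ∈ (Q : Subgroup F)} =>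
        (⟨g.1, Subgroup.mem_top _, fun x hx => ⟨g.2 x hx.1, Subgroup.mem_top _⟩⟩ :
          {g : F // g ∈ (⊤ : Subgroup F) ∧ ∀ x ∈ (Q : Subgroup F) ⊓ ⊤,
            g * x * g⁻¹ ∈ (Q : Subgroup F) ⊓ ⊤})) ?_).trans_lt (h3.trans_le ?_)
      · intro a b hab
        exact Subtype.ext (Subtype.mk.inj hab)
      · refine Nat.mul_le_mul_left _ (Nat.card_le_card_of_injective
          (fun g : {g : F // g ∈ (⊤ : Subgroup F) ∧ ∀ x ∈ (Q : Subgroup F) ⊓ ⊤,
            g * x * g⁻¹ = x} => (⟨g.1, fun x hx => g.2.2 x ⟨hx, Subgroup.mem_top _⟩⟩ :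
            {g : F // ∀ x ∈ (Q : Subgroup F), g * x * g⁻¹ = x})) ?_)
        intro a b hab
        exact Subtype.ext (Subtype.mk.inj hab)
    · refine lt_of_eq_of_lt (Nat.card_congr (Equiv.subtypeEquivRight fun g =>
        FOK.norm_iff (Q : Subgroup F) g)) (h.trans_le (Nat.mul_le_mul_left _ (le_of_eq ?_)))
      exact (Nat.card_congr (Equiv.subtypeEquivRight fun g => FOK.cen_iff (Q : Subgroup F) g)).symm
  · refine Or.inr ⟨fun R hR => h1.eq_bot_or_eq_top_of_normal R hR, ?_⟩
    intro Y _ _ f hc hk hi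
    refine hFXL p b hp hb (h2 Y f (fun y hy => ?_) hk hi)
    rw [Subgroup.mem_center_iff]
    intro g
    exact (hc y ((MonoidHom.mem_ker).1 hy) g).symm

end Pool.Agent.Lib.MP_1aae89_al.W5
end

section
/-!
# FXL and ICM
-/
set_option autoImplicit false

namespace Pool.Agent.Lib.MP_1aae89_al.W5

open Pool.Agent.Lib.MP_1aae89_al Pool.Agent.Lib.MP_1aae89_al.BF Pool.Agent.Lib.MP_1aae89_al.W3
  Pool.Agent.Lib.MP_1aae89_al.W4 Finset
open Pool.Agent.Lib.MP1aae89 (Pex)

theorem specFXL (hLVF : SpecLVF) : SpecFXL := by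
  intro p b hp hb H _ _ h L s0 hL hH hs n r hr hn
  have : Fintype H := Fintype.ofFinite H
  have hn0 : n ≠ 0 := by rintro rfl; exact hn (dvd_zero _)
  have h1 := h (Fin n → ℂ) (toRep r) (toRep_irr hn0 hr) (by rw [Module.finrank_fin_fun]; exact hn)
  have h2 : (toRep r).character = fun l => (r l).trace := funext fun l => toRep_char r l
  rw [h2] at h1
  exact (hLVF p hp L s0 hL hs hH _ (isCharacter_trace r)).1 (b - 1) (by omega) (by omega)

theorem specICM (hCH4 : SpecCH4) (hDG4 : SpecDG4) (hREC : SpecREC) : SpecICM := by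
  intro p b hp hb M _ _ m K _ hmono htop hstep hbase
  have h1 : D4 p b m (M ⧸ K 0) := hCH4 p b m K hmono htop hstep
  have h2 : Good p b (M ⧸ K 0) := hDG4 p b hp hb m h1
  exact hREC p b hp hb (K 0) ⟨inferInstance, Or.inl hbase, fun {_} => h2⟩ b le_rfl

end Pool.Agent.Lib.MP_1aae89_al.W5
end

section
/-!
# FXP: extensions by `p'`-groups
-/
set_option autoImplicit false

namespace Pool.Agent.Lib.MP_1aae89_al.W5

open Pool.Agent.Lib.MP_1aae89_al Pool.Agent.Lib.MP_1aae89_al.BF Pool.Agent.Lib.MP_1aae89_al.W3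
  Pool.Agent.Lib.MP_1aae89_al.W4 Finset
open Pool.Agent.Lib.MP1aae89 (Pex)

namespace FXP

/-- a normal subgroup of index prime to `p` contains the `p`-subgroups -/
theorem le_of_index {p : ℕ} (hp : p.Prime) {Y : Type} [Group Y] [Finite Y] (E P : Subgroup Y)
    [E.Normal] (hE : ¬ p ∣ E.index) {k : ℕ} (hP : Nat.card P = p ^ k) : P ≤ E := by
  intro x hx
  have h1 : orderOf x ∣ p ^ k := by
    rw [← hP]
    have := orderOf_dvd_natCard (⟨x, hx⟩ : P)
    rwa [← Subgroup.orderOf_coe] at this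
  have h2 : orderOf (x : Y ⧸ E) ∣ p ^ k :=
    (orderOf_map_dvd (QuotientGroup.mk' E) x).trans h1
  have h3 : orderOf (x : Y ⧸ E) ∣ Nat.card (Y ⧸ E) := orderOf_dvd_natCard _
  have h4 : (Nat.card (Y ⧸ E)).Coprime (p ^ k) := by
    refine Nat.Coprime.pow_right k ?_
    exact ((Nat.Prime.coprime_iff_not_dvd hp).2 hE).symm
  have h5 : orderOf (x : Y ⧸ E) = 1 := by
    apply Nat.dvd_one.1
    rw [← h4.gcd_eq_one]
    exact Nat.dvd_gcd h3 h2
  rw [orderOf_eq_one_iff, QuotientGroup.eq_one_iff] at h5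
  exact h5

end FXP

open FXP in
theorem specFXP (hFXR : SpecFXR) (hGBD : W3.SpecGBD) (hREC : W3.SpecREC) (hPWL : W3.SpecPWL)
    (hPRM : W3.SpecPRM) (hSU0 : W3.SpecSU0) : SpecFXP := by
  intro p b hp hb Y _ _ E _ hidx hE
  have hpf : Fact p.Prime := ⟨hp⟩
  have hgood : Good p b (Y ⧸ E) := by
    refine hGBD p b hp hb (⊤ : Subgroup (Y ⧸ E)) (fun x _ hx => ?_) fun z =>
      ⟨0, Subgroup.mem_top _⟩
    have h1 : orderOf x ∣ p ^ b := orderOf_dvd_of_pow_eq_one hx
    have h2 : orderOf x ∣ Nat.card (Y ⧸ E) := orderOf_dvd_natCard _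
    have h4 : (Nat.card (Y ⧸ E)).Coprime (p ^ b) :=
      Nat.Coprime.pow_right b ((Nat.Prime.coprime_iff_not_dvd hp).2 hidx).symm
    have h5 : orderOf x = 1 := by
      apply Nat.dvd_one.1
      rw [← h4.gcd_eq_one]
      exact Nat.dvd_gcd h2 h1
    rw [orderOf_eq_one_iff.1 h5, one_pow]
  have hIC : ∀ b' : ℕ, b ≤ b' → IC p b' Y := hREC p b hp hb E ⟨inferInstance, Or.inl hE, hgood⟩
  intro L s0 hL hYL hs n r hr hpn
  classical
  let _ : Fintype Y := Fintype.ofFinite Y
  have hpow : ∀ y : Y, y ^ L = 1 := by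
    intro y
    obtain ⟨c, hc⟩ := hYL
    rw [hc, pow_mul, pow_card_eq_one', one_pow]
  set χ : Y → ℂ := fun y => (r y).trace with hχ
  have hex : ∃ b₀ : ℕ, FX p s0 b₀ χ :=
    ⟨L.factorization p, INR_level hs hpow χ le_rfl⟩
  have hb₀ := Nat.find_spec hex
  have hmin := fun m => Nat.find_min hex (m := m)
  set b₀ := Nat.find hex with hb₀d
  -- `FX` is monotone
  have hmono : b₀ ≤ b - 1 → FX p s0 (b - 1) χ := by
    intro hle t y
    have h1 := hb₀ (p ^ (b - 1 - b₀) * t) y
    have h2 : s0 * p ^ b₀ * (p ^ (b - 1 - b₀) * t) = s0 * p ^ (b - 1) * t := by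
      have h3 : p ^ (b - 1) = p ^ b₀ * p ^ (b - 1 - b₀) := by
        rw [← pow_add]
        congr 1
        omega
      rw [h3]
      ring
    rw [h2] at h1
    exact h1
  apply hmono
  by_contra hcon
  have hbb : b ≤ b₀ := by omega
  have hy : ∃ y, χ (y ^ (1 + s0 * p ^ (b₀ - 1))) ≠ χ y := by
    by_contra h1
    push Not at h1
    exact hmin (b₀ - 1) (by omega) (hPWL p hp L s0 hL hs b₀ (by omega) χ hpow hb₀ h1)
  obtain ⟨S⟩ : Nonempty (Sylow p Y) := inferInstance
  have hP : Nat.card (S : Subgroup Y) = p ^ (Nat.card Y).factorization p := S.card_eq_multiplicity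
  set P : Subgroup Y := (S : Subgroup Y) with hPd
  let _ : Fintype P := Fintype.ofFinite P
  have hPE : P ≤ E := le_of_index hp E P hidx hP
  have hPpow : ∀ x : P, (x : Y) ^ p ^ (Nat.card Y).factorization p = 1 := by
    intro x
    have h1 : x ^ Nat.card P = 1 := pow_card_eq_one'
    rw [hP] at h1
    have h2 := congrArg (Subtype.val) h1
    rw [Subgroup.coe_pow] at h2
    exact h2
  have hPs0 : ∀ x : P, (x : Y) ^ s0 = x := fun x =>
    (hPRM p hp L s0 hL hs).2.1 (x : Y) _ (hpow x) (hPpow x)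
  have h3 : ∀ (t : ℕ) (x : P), (r ((x ^ (1 + p ^ (b₀ - 1) * t) : P) : Y)).trace =
      (r (x : Y)).trace := by
    intro t x
    have h4 := hFXR p b hp L s0 hL hs hYL E hE n r hr hpn (p ^ (b₀ - b) * t) (x : Y) (hPE x.2)
    have h5 : s0 * p ^ (b - 1) * (p ^ (b₀ - b) * t) = s0 * (p ^ (b₀ - 1) * t) := by
      have h6 : p ^ (b₀ - 1) = p ^ (b - 1) * p ^ (b₀ - b) := by
        rw [← pow_add]
        congr 1
        omega
      rw [h6]
      ring
    rw [h5, pow_add, pow_mul, hPs0 x, ← pow_add] at h4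
    rw [Subgroup.coe_pow]
    exact h4
  have h7 : dl (p ^ (b₀ - 1)) (fun x : P => (r x).trace) 1 ≡ n [MOD p] :=
    hSU0 p hp _ hP (fun x : P => (r x).trace) ((isCharacter_trace r).comp P.subtype) b₀
      (by omega) h3 n (by
        change (r ((1 : P) : Y)).trace = n
        rw [Subgroup.coe_one, map_one, Matrix.trace_one, Fintype.card_fin])
  have h8 : p ∣ dl (p ^ (b₀ - 1)) (fun x : P => (r x).trace) (resL P (1 : Lin Y)) := by
    refine hIC b₀ hbb L s0 hL hYL hs P hP n r hr hpn hb₀ 1 (one_pow p) ?_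
    obtain ⟨y, hy⟩ := hy
    refine ⟨y, ?_⟩
    rw [Lin.one_apply, Units.val_one, one_mul]
    exact hy
  exact hpn ((h7.dvd_iff dvd_rfl).1 h8)

end Pool.Agent.Lib.MP_1aae89_al.W5
end

section
/-!
# FXR: restriction to a normal subgroup without characters of high level
-/
set_option autoImplicit false

namespace Pool.Agent.Lib.MP_1aae89_al.W5

open Pool.Agent.Lib.MP_1aae89_al Pool.Agent.Lib.MP_1aae89_al.BF Pool.Agent.Lib.MP_1aae89_al.W3
  Pool.Agent.Lib.MP_1aae89_al.W4 Finset
open Pool.Agent.Lib.MP1aae89 (Pex)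
open scoped Kronecker

theorem specFXR (hISO : W3.SpecISO) : SpecFXR := by
  intro p b hp L s0 hL hs
  suffices H : ∀ (N : ℕ) {Y : Type} [Group Y] [Finite Y], Nat.card Y = N → Nat.card Y ∣ L →
      ∀ (E : Subgroup Y) [E.Normal], Fxd p b E →
      ∀ (n : ℕ) (r : Y →* Matrix (Fin n) (Fin n) ℂ), Sch r → ¬ p ∣ n → ∀ (t : ℕ), ∀ x ∈ E,
      (r (x ^ (1 + s0 * p ^ (b - 1) * t))).trace = (r x).trace by
    intro Y _ _ hYL E _ hE n r hr hpn t x hx
    exact H _ rfl hYL E hE n r hr hpn t x hx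
  intro N
  induction N using Nat.strong_induction_on with
  | _ N ih =>
    intro Y _ _ hYN hYL E _ hE n r hr hpn t x hx
    classical
    let _ : Fintype Y := Fintype.ofFinite Y
    have hn : n ≠ 0 := by rintro rfl; exact hpn (dvd_zero _)
    rcases dicho r E hn with ⟨e, m, r', Q, Q', hn', hr', h1, h2, h3⟩ |
      ⟨T, F, hET, hF, hF0, hF1, hTc, hTg⟩
    · have hpm : ¬ p ∣ m := fun h => hpn (hn' ▸ h.mul_left _)
      have hEL : Nat.card E ∣ L := (Subgroup.card_subgroup_dvd_card E).trans hYL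
      have htr : ∀ l : E, (r l).trace = e * (r' l).trace := by
        intro l
        calc (r (l : Y)).trace = (r l * (Q * Q')).trace := by rw [h1, Matrix.mul_one]
          _ = (Q * ((1 : Matrix (Fin e) (Fin e) ℂ) ⊗ₖ r' l) * Q').trace := by
              rw [← Matrix.mul_assoc, h3]
          _ = ((1 : Matrix (Fin e) (Fin e) ℂ) ⊗ₖ r' l).trace := by
              rw [Matrix.mul_assoc, Matrix.trace_mul_comm, Matrix.mul_assoc, h2, Matrix.mul_one]
          _ = e * (r' l).trace := by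
              rw [Matrix.trace_kronecker, Matrix.trace_one, Fintype.card_fin]
      have h4 := hE L s0 hL hEL hs m r' hr' hpm t ⟨x, hx⟩
      have h5 := htr (⟨x, hx⟩ ^ (1 + s0 * p ^ (b - 1) * t))
      have h6 := htr ⟨x, hx⟩
      rw [Subgroup.coe_pow] at h5
      simp only at h4 h5 h6
      rw [h5, h6, h4]
    · have hTtop : T ≠ ⊤ := by
        rintro rfl
        rcases idem_trivial hr hF (fun g => (hTc g trivial).symm) with h5 | h5
        · exact hF0 h5
        · exact hF1 h5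
      obtain ⟨k, J, J', hJ, hJ'⟩ := idem_factor F hF
      have hpr : Pr r ⊥ T k J J' := by
        refine ⟨bot_le, ?_, hJ', ?_, ?_⟩
        · rintro rfl
          apply hF0
          rw [← hJ]
          ext i j
          rw [Matrix.mul_apply]
          simp
        · intro w hw
          rw [hJ]
          exact (hTc w hw).symm
        · intro g hg
          rw [hJ]
          exact hTg g hg
      have hsch : Sch hpr.rep := hpr.sch hr hn
      have hidx : n = T.index * k := hpr.index hr hn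
      have hk : ¬ p ∣ k := fun h => hpn (hidx ▸ dvd_mul_of_dvd_right h T.index)
      have hTL : Nat.card T ∣ L := (Subgroup.card_subgroup_dvd_card T).trans hYL
      have hlt : Nat.card T < N := by
        rw [← hYN]
        refine lt_of_le_of_ne (Subgroup.card_le_card_group T) fun h => hTtop ?_
        exact Subgroup.eq_top_of_card_eq T h
      have hET' : Fxd p b (E.subgroupOf T) :=
        (hISO p b (Subgroup.subgroupOfEquivOfLe hET).symm).2.1 hE
      have hIH : ∀ z : T, (z : Y) ∈ E →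
          (hpr.rep (z ^ (1 + s0 * p ^ (b - 1) * t))).trace = (hpr.rep z).trace := fun z hz =>
        ih (Nat.card T) hlt rfl hTL (E.subgroupOf T) hET' k hpr.rep hsch hk t z
          (Subgroup.mem_subgroupOf.2 hz)
      rw [hpr.trace_ind hr hn, hpr.trace_ind hr hn]
      unfold ind
      congr 1
      refine Finset.sum_congr rfl fun g _ => ?_
      have hgE : g⁻¹ * x * g ∈ E := by
        have := (inferInstance : E.Normal).conj_mem x hx g⁻¹
        rwa [inv_inv] at this
      have hgT : g⁻¹ * x * g ∈ T := hET hgE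
      have hpow : g⁻¹ * x ^ (1 + s0 * p ^ (b - 1) * t) * g =
          (g⁻¹ * x * g) ^ (1 + s0 * p ^ (b - 1) * t) := by
        have := (conj_pow (a := g⁻¹) (b := x) (i := 1 + s0 * p ^ (b - 1) * t)).symm
        rw [inv_inv] at this
        exact this
      have hgT' : g⁻¹ * x ^ (1 + s0 * p ^ (b - 1) * t) * g ∈ T := by
        rw [hpow]
        exact T.pow_mem hgT _
      rw [dif_pos hgT, dif_pos hgT']
      have h7 := hIH ⟨g⁻¹ * x * g, hgT⟩ hgE
      have h8 : (⟨g⁻¹ * x ^ (1 + s0 * p ^ (b - 1) * t) * g, hgT'⟩ : T) =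
          (⟨g⁻¹ * x * g, hgT⟩ : T) ^ (1 + s0 * p ^ (b - 1) * t) := by
        apply Subtype.ext
        rw [Subgroup.coe_pow]
        exact hpow
      rw [h8]
      exact h7

end Pool.Agent.Lib.MP_1aae89_al.W5
end

section
/-!
# MCC: the case `CC`
-/
set_option autoImplicit false

namespace Pool.Agent.Lib.MP_1aae89_al.W5

open Pool.Agent.Lib.MP_1aae89_al Pool.Agent.Lib.MP_1aae89_al.BF Pool.Agent.Lib.MP_1aae89_al.W3
  Pool.Agent.Lib.MP_1aae89_al.W4 Finset

theorem specMCC (hGPG : W3.SpecGPG) (hGBD : W3.SpecGBD) (hCFC : W4.SpecCFC)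
    (hGCF : W4.SpecGCF) : SpecMCC := by
  classical
  intro p b hp hb Z _ _ N hN hquo hCC
  have : Fact p.Prime := ⟨hp⟩
  obtain ⟨e', he'⟩ := DDE.card_quot hp N hquo
  rcases hCC with ⟨e, he⟩ | h1 | ⟨Q, hQ, hab, hlt⟩
  · refine hGPG p b hp hb (e' + e) ?_
    rw [Subgroup.card_eq_card_quotient_mul_card_subgroup N, he, he', pow_add]
  · refine hGBD p b hp hb N (fun x hx h2 => ?_) hquo
    have h3 := h1 ⟨x, hx⟩ (Subtype.ext (by simpa using h2))
    simpa using congrArg Subtype.val h3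
  · have hQp : IsPGroup p Q := IsPGroup.of_card hQ
    obtain ⟨S, hS⟩ := (hQp.map N.subtype).exists_le_sylow
    have hinf : (S : Subgroup Z) ⊓ N = Q.map N.subtype := by
      symm
      refine Subgroup.eq_of_le_of_card_ge (le_inf hS ?_) ?_
      · rintro _ ⟨x, -, rfl⟩
        exact x.2
      · -- `S ⊓ N` is a `p`-subgroup of `N`
        have h2 : IsPGroup p ↥((S : Subgroup Z).subgroupOf N) :=
          S.isPGroup'.comap_of_injective N.subtype N.subtype_injective
        obtain ⟨k, hk⟩ := IsPGroup.iff_card.1 h2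
        have h3 : p ^ k ∣ Nat.card N := by
          rw [← hk]
          exact Subgroup.card_subgroup_dvd_card _
        have h4 : k ≤ (Nat.card N).factorization p :=
          (hp.pow_dvd_iff_le_factorization Nat.card_pos.ne').1 h3
        have h5 : Nat.card ↥((S : Subgroup Z) ⊓ N) =
            Nat.card ↥((S : Subgroup Z).subgroupOf N) := by
          rw [← Subgroup.subgroupOf_map_subtype]
          exact Subgroup.card_map_of_injective (f := N.subtype) N.subtype_injective
        have h6 : Nat.card ↥(Q.map N.subtype) = Nat.card Q :=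
          Subgroup.card_map_of_injective (f := N.subtype) N.subtype_injective
        rw [h5, hk, h6, hQ]
        exact Nat.pow_le_pow_right hp.pos h4
    have hmem : ∀ x, x ∈ (S : Subgroup Z) ⊓ N ↔ ∃ y ∈ Q, (y : Z) = x := by
      intro x
      rw [hinf, Subgroup.mem_map]
      rfl
    have htop : N ⊔ (S : Subgroup Z) = ⊤ := by
      rw [← Subgroup.index_eq_one]
      have h2 : (N ⊔ (S : Subgroup Z)).index ∣ p ^ e' := by
        rw [← he']
        exact Subgroup.index_dvd_of_le le_sup_left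
      obtain ⟨k, -, hk⟩ := (Nat.dvd_prime_pow hp).1 h2
      rcases Nat.eq_zero_or_pos k with rfl | hk0
      · rw [hk, pow_zero]
      · exfalso
        refine S.not_dvd_index ((dvd_pow_self p hk0.ne').trans ?_)
        rw [← hk]
        exact Subgroup.index_dvd_of_le le_sup_right
    refine hGCF p b hp hb (S : Subgroup Z) S.card_eq_multiplicity ?_
    refine hCFC p hp (S : Subgroup Z) N S.card_eq_multiplicity htop ?_ ?_
    · intro x hx y hy
      obtain ⟨x', hx', rfl⟩ := (hmem x).1 hx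
      obtain ⟨y', hy', rfl⟩ := (hmem y).1 hy
      exact congrArg Subtype.val (hab x' hx' y' hy')
    · have f1 : Nat.card {g : Z // g ∈ N ∧ ∀ x ∈ (S : Subgroup Z) ⊓ N,
          g * x * g⁻¹ ∈ (S : Subgroup Z) ⊓ N} = Nat.card {g : N // ∀ x ∈ Q, g * x * g⁻¹ ∈ Q} := by
        refine Nat.card_congr
          { toFun := fun g => ⟨⟨g.1, g.2.1⟩, fun x hx => ?_⟩
            invFun := fun g => ⟨g.1, g.1.2, fun x hx => ?_⟩
            left_inv := fun g => rfl
            right_inv := fun g => rfl }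
        · obtain ⟨y, hy, hyx⟩ := (hmem _).1 (g.2.2 _ ((hmem _).2 ⟨x, hx, rfl⟩))
          have h2 : y = ⟨g.1, g.2.1⟩ * x * ⟨g.1, g.2.1⟩⁻¹ := Subtype.ext hyx
          rw [← h2]
          exact hy
        · obtain ⟨x', hx', rfl⟩ := (hmem x).1 hx
          exact (hmem _).2 ⟨_, g.2 x' hx', rfl⟩
      have f2 : Nat.card {g : Z // g ∈ N ∧ ∀ x ∈ (S : Subgroup Z) ⊓ N, g * x * g⁻¹ = x} =
          Nat.card {g : N // ∀ x ∈ Q, g * x * g⁻¹ = x} := by
        refine Nat.card_congr
          { toFun := fun g => ⟨⟨g.1, g.2.1⟩, fun x hx => ?_⟩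
            invFun := fun g => ⟨g.1, g.1.2, fun x hx => ?_⟩
            left_inv := fun g => rfl
            right_inv := fun g => rfl }
        · exact Subtype.ext (g.2.2 _ ((hmem _).2 ⟨x, hx, rfl⟩))
        · obtain ⟨x', hx', rfl⟩ := (hmem x).1 hx
          exact congrArg Subtype.val (g.2 x' hx')
      rw [f1, f2]
      exact hlt

end Pool.Agent.Lib.MP_1aae89_al.W5
end

section
/-!
# RK1: the rank of `∏_i τ^i Φ(e) τ^(-i)`
-/
set_option autoImplicit false

namespace Pool.Agent.Lib.MP_1aae89_al.W5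

open Pool.Agent.Lib.MP_1aae89_al Pool.Agent.Lib.MP_1aae89_al.BF Pool.Agent.Lib.MP_1aae89_al.W3
  Pool.Agent.Lib.MP_1aae89_al.W4 Finset
open Pool.Agent.Lib.MP1aae89 (Pex)

namespace RK1

theorem trace_fac {n k : ℕ} {e : Matrix (Fin n) (Fin n) ℂ} {J : Matrix (Fin n) (Fin k) ℂ}
    {J' : Matrix (Fin k) (Fin n) ℂ} (h1 : J * J' = e) (h2 : J' * J = 1) : e.trace = k := by
  rw [← h1, Matrix.trace_mul_comm, h2, Matrix.trace_one, Fintype.card_fin]

/-- an idempotent of trace one -/
theorem rank_one {n : ℕ} (e : Matrix (Fin n) (Fin n) ℂ) (he : e * e = e) (ht : e.trace = 1)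
    (X : Matrix (Fin n) (Fin n) ℂ) : ∃ c : ℂ, e * X * e = c • e := by
  obtain ⟨k, J, J', h1, h2⟩ := idem_factor e he
  have h3 := trace_fac h1 h2
  have hk : k = 1 := by
    rw [ht] at h3
    exact_mod_cast h3.symm
  subst hk
  refine ⟨(J' * X * J) 0 0, ?_⟩
  have h4 : J' * X * J = ((J' * X * J) 0 0) • (1 : Matrix (Fin 1) (Fin 1) ℂ) := by
    ext i j
    rw [Subsingleton.elim i 0, Subsingleton.elim j 0, Matrix.smul_apply, Matrix.one_apply_eq,
      smul_eq_mul, mul_one]
  calc e * X * e = J * (J' * X * J) * J' := by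
        rw [← h1]; simp only [Matrix.mul_assoc]
    _ = ((J' * X * J) 0 0) • e := by
        conv_lhs => rw [h4]
        rw [Matrix.mul_smul, Matrix.smul_mul, Matrix.mul_one, h1]

/-- conversely -/
theorem trace_one_of {n : ℕ} (w : Matrix (Fin n) (Fin n) ℂ) (hw : w * w = w) (ht : w.trace ≠ 0)
    (h : ∀ X, ∃ c : ℂ, w * X * w = c • w) : w.trace = 1 := by
  obtain ⟨k, J, J', h1, h2⟩ := idem_factor w hw
  have h3 := trace_fac h1 h2
  have hs : ∀ Y : Matrix (Fin k) (Fin k) ℂ, ∃ c : ℂ, Y = c • 1 := by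
    intro Y
    obtain ⟨c, hc⟩ := h (J * Y * J')
    refine ⟨c, ?_⟩
    calc Y = J' * J * (J' * J) * Y * (J' * J) * (J' * J) := by rw [h2]; simp
      _ = J' * (w * (J * Y * J') * w) * J := by
          rw [← h1]; simp only [Matrix.mul_assoc]
      _ = c • (J' * J * (J' * J)) := by
          rw [hc, ← h1, Matrix.mul_smul, Matrix.smul_mul]; simp only [Matrix.mul_assoc]
      _ = c • 1 := by rw [h2, Matrix.mul_one]
  have hk0 : k ≠ 0 := by
    rintro rfl
    exact ht (by rw [h3]; simp)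
  have hk1 : k = 1 := by
    by_contra hne
    have h0 : 0 < k := Nat.pos_of_ne_zero hk0
    have h1' : 1 < k := by omega
    obtain ⟨c, hc⟩ := hs (Matrix.single ⟨0, h0⟩ ⟨0, h0⟩ 1)
    have e1 := congrFun (congrFun hc ⟨0, h0⟩) ⟨0, h0⟩
    have e2 := congrFun (congrFun hc ⟨1, h1'⟩) ⟨1, h1'⟩
    simp [Matrix.single_apply, Matrix.one_apply] at e1 e2
    rw [← e1] at e2
    exact one_ne_zero e2.symm
  rw [h3, hk1, Nat.cast_one]

end RK1

open RK1 in
theorem specRK1 : SpecRK1 := by
  intro p P _ P₁ _ τ n m r ρ Φ hT e he htr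
  have hww : (tp p r τ Φ fun _ => e) * (tp p r τ Φ fun _ => e) = tp p r τ Φ fun _ => e := by
    rw [DLW.tp_mul hT]
    simp only [he]
  refine ⟨hww, trace_one_of _ hww ?_ ?_⟩
  · intro h0
    have hn : (n : ℂ) ≠ 0 := Nat.cast_ne_zero.2 hT.n0
    have h1 := hT.tr fun _ => e
    rw [h0, mul_zero, prod_const, card_range] at h1
    have h2 : (Φ e).trace = 0 := pow_eq_zero_iff (hT.pp.ne_zero) |>.1 h1.symm
    have h3 := hT.trm e
    rw [h2, mul_zero, htr, mul_one] at h3
    exact hn h3.symm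
  · intro X
    refine Submodule.span_induction (p := fun X _ => ∃ c : ℂ, (tp p r τ Φ fun _ => e) * X *
      (tp p r τ Φ fun _ => e) = c • tp p r τ Φ fun _ => e) ?_ ?_ ?_ ?_ (hT.gen X)
    · rintro _ ⟨Y, rfl⟩
      choose c hc using fun i => rank_one e he htr (Y i)
      refine ⟨∏ i ∈ range p, c i, ?_⟩
      rw [DLW.tp_mul hT, DLW.tp_mul hT, ← DLW.tp_smul]
      simp only [hc]
    · exact ⟨0, by rw [Matrix.mul_zero, Matrix.zero_mul, zero_smul]⟩
    · rintro A B _ _ ⟨a, ha⟩ ⟨b, hb⟩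
      exact ⟨a + b, by rw [Matrix.mul_add, Matrix.add_mul, ha, hb, add_smul]⟩
    · rintro a A _ ⟨c, hc⟩
      exact ⟨a * c, by rw [Matrix.mul_smul, Matrix.smul_mul, hc, smul_smul]⟩

end Pool.Agent.Lib.MP_1aae89_al.W5
end

section
/-!
# SGO: a step of the chain
-/
set_option autoImplicit false

namespace Pool.Agent.Lib.MP_1aae89_al.W5

open Pool.Agent.Lib.MP_1aae89_al Pool.Agent.Lib.MP_1aae89_al.BF Pool.Agent.Lib.MP_1aae89_al.W3
  Pool.Agent.Lib.MP_1aae89_al.W4 Finset

namespace SGO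

/-- `K' / K` is isomorphic to its image in `X / K`, `X = K' P` -/
theorem iso {M : Type} [Group M] (K K' X : Subgroup M) (hX : K' ≤ X)
    [hK : (K.subgroupOf K').Normal] [hN : (K.subgroupOf X).Normal] :
    Nonempty (↥K' ⧸ K.subgroupOf K' ≃*
      ↥((K'.subgroupOf X).map (QuotientGroup.mk' (K.subgroupOf X)))) := by
  let φ : K' →* ↥((K'.subgroupOf X).map (QuotientGroup.mk' (K.subgroupOf X))) :=
    { toFun := fun k => ⟨QuotientGroup.mk' (K.subgroupOf X) ⟨k, hX k.2⟩, ⟨k, hX k.2⟩, k.2, rfl⟩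
      map_one' := rfl
      map_mul' := fun _ _ => rfl }
  have hφ : Function.Surjective φ := by
    rintro ⟨_, x, hx, rfl⟩
    exact ⟨⟨x, hx⟩, rfl⟩
  have hker : K.subgroupOf K' = φ.ker := by
    ext k
    rw [MonoidHom.mem_ker, Subgroup.mem_subgroupOf]
    constructor
    · intro hk
      refine Subtype.ext ?_
      exact (QuotientGroup.eq_one_iff _).2 (Subgroup.mem_subgroupOf.2 hk)
    · intro hk
      have h1 : QuotientGroup.mk' (K.subgroupOf X) ⟨k, hX k.2⟩ = 1 := congrArg Subtype.val hk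
      exact Subgroup.mem_subgroupOf.1 ((QuotientGroup.eq_one_iff (⟨k, hX k.2⟩ : X)).1 h1)
  exact ⟨(QuotientGroup.quotientMulEquivOfEq hker).trans
    (QuotientGroup.quotientKerEquivOfSurjective φ hφ)⟩

end SGO

theorem specSGO (hDDI : SpecDDI) (hDGO : SpecDGO) : SpecSGO := by
  intro p b hp hb M _ _ P hP K K' hKK' hK1 hK2 hK3 _ n hDD hN
  have : Fact p.Prime := ⟨hp⟩
  have hF : (K'.subgroupOf (K' ⊔ P)).Normal := by
    have h1 : K' ⊔ P ≤ Subgroup.normalizer (K' : Set M) := by
      refine sup_le Subgroup.le_normalizer fun g hg => ?_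
      rw [Subgroup.mem_normalizer_iff]
      intro x
      refine ⟨fun hx => hK3 g hg x hx, fun hx => ?_⟩
      have h2 := hK3 g⁻¹ (P.inv_mem hg) _ hx
      rwa [show g⁻¹ * (g * x * g⁻¹) * g⁻¹⁻¹ = x by group] at h2
    exact (Subgroup.normal_subgroupOf_iff_le_normalizer le_sup_left).2 h1
  obtain ⟨e⟩ := SGO.iso K K' (K' ⊔ P) le_sup_left
  have hNm : ((K'.subgroupOf (K' ⊔ P)).map (QuotientGroup.mk' (K.subgroupOf (K' ⊔ P)))).Normal :=
    hF.map _ (QuotientGroup.mk'_surjective _)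
  have h1 := hDDI p b n e hDD
  refine hDGO p b hp hb (n + 1) (specDDE p b hp n _ h1 ?_)
  intro x
  obtain ⟨⟨x, hx⟩, rfl⟩ := QuotientGroup.mk'_surjective _ x
  have h2 : (⟨x, hx⟩ : ↥(K' ⊔ P)) ∈ K'.subgroupOf (K' ⊔ P) ⊔ P.subgroupOf (K' ⊔ P) := by
    rw [← Subgroup.subgroupOf_sup le_sup_left le_sup_right, Subgroup.subgroupOf_self]
    exact Subgroup.mem_top _
  rw [Subgroup.mem_sup_of_normal_left] at h2
  obtain ⟨f, hf, y, hy, hfy⟩ := h2
  obtain ⟨j, hj⟩ := hP ⟨(y : M), hy⟩
  have hj' : y ^ p ^ j = 1 := by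
    apply Subtype.ext
    have := congrArg Subtype.val hj
    simpa using this
  refine ⟨j, ?_⟩
  have h3 : (⟨x, hx⟩ : ↥(K' ⊔ P)) ^ p ^ j ∈ K'.subgroupOf (K' ⊔ P) := by
    rw [← QuotientGroup.eq_one_iff, ← hfy]
    have h4 : ((f * y : ↥(K' ⊔ P)) : ↥(K' ⊔ P) ⧸ K'.subgroupOf (K' ⊔ P)) =
        ((y : ↥(K' ⊔ P)) : ↥(K' ⊔ P) ⧸ K'.subgroupOf (K' ⊔ P)) := by
      rw [QuotientGroup.mk_mul, (QuotientGroup.eq_one_iff f).2 hf, one_mul]
    rw [QuotientGroup.mk_pow, h4, ← QuotientGroup.mk_pow, hj', QuotientGroup.mk_one]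
  exact ⟨_, h3, map_pow _ _ _⟩

end Pool.Agent.Lib.MP_1aae89_al.W5
end

section
/-!
# SC4: a step of the chain with `C4`
-/
set_option autoImplicit false

namespace Pool.Agent.Lib.MP_1aae89_al.W5

open Pool.Agent.Lib.MP_1aae89_al Pool.Agent.Lib.MP_1aae89_al.BF Pool.Agent.Lib.MP_1aae89_al.W3
  Pool.Agent.Lib.MP_1aae89_al.W4 Finset

theorem specSC4 (hC4I : SpecC4I) (hC4G : SpecC4G) : SpecSC4 := by
  intro p b hp hb M _ _ P hP K K' hKK' hK1 hK2 hK3 _ hC4 hN
  have : Fact p.Prime := ⟨hp⟩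
  have hF : (K'.subgroupOf (K' ⊔ P)).Normal := by
    have h1 : K' ⊔ P ≤ Subgroup.normalizer (K' : Set M) := by
      refine sup_le Subgroup.le_normalizer fun g hg => ?_
      rw [Subgroup.mem_normalizer_iff]
      intro x
      refine ⟨fun hx => hK3 g hg x hx, fun hx => ?_⟩
      have h2 := hK3 g⁻¹ (P.inv_mem hg) _ hx
      rwa [show g⁻¹ * (g * x * g⁻¹) * g⁻¹⁻¹ = x by group] at h2
    exact (Subgroup.normal_subgroupOf_iff_le_normalizer le_sup_left).2 h1
  obtain ⟨e⟩ := SGO.iso K K' (K' ⊔ P) le_sup_left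
  have hNm : ((K'.subgroupOf (K' ⊔ P)).map (QuotientGroup.mk' (K.subgroupOf (K' ⊔ P)))).Normal :=
    hF.map _ (QuotientGroup.mk'_surjective _)
  have h1 := hC4I p b e hC4
  refine hC4G p b hp hb _ ?_ h1
  intro x
  obtain ⟨⟨x, hx⟩, rfl⟩ := QuotientGroup.mk'_surjective _ x
  have h2 : (⟨x, hx⟩ : ↥(K' ⊔ P)) ∈ K'.subgroupOf (K' ⊔ P) ⊔ P.subgroupOf (K' ⊔ P) := by
    rw [← Subgroup.subgroupOf_sup le_sup_left le_sup_right, Subgroup.subgroupOf_self]
    exact Subgroup.mem_top _
  rw [Subgroup.mem_sup_of_normal_left] at h2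
  obtain ⟨f, hf, y, hy, hfy⟩ := h2
  obtain ⟨j, hj⟩ := hP ⟨(y : M), hy⟩
  have hj' : y ^ p ^ j = 1 := by
    apply Subtype.ext
    have := congrArg Subtype.val hj
    simpa using this
  refine ⟨j, ?_⟩
  have h3 : (⟨x, hx⟩ : ↥(K' ⊔ P)) ^ p ^ j ∈ K'.subgroupOf (K' ⊔ P) := by
    rw [← QuotientGroup.eq_one_iff, ← hfy]
    have h4 : ((f * y : ↥(K' ⊔ P)) : ↥(K' ⊔ P) ⧸ K'.subgroupOf (K' ⊔ P)) =
        ((y : ↥(K' ⊔ P)) : ↥(K' ⊔ P) ⧸ K'.subgroupOf (K' ⊔ P)) := by
      rw [QuotientGroup.mk_mul, (QuotientGroup.eq_one_iff f).2 hf, one_mul]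
    rw [QuotientGroup.mk_pow, h4, ← QuotientGroup.mk_pow, hj', QuotientGroup.mk_one]
  exact ⟨_, h3, map_pow _ _ _⟩

end Pool.Agent.Lib.MP_1aae89_al.W5
end
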