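import Pool.Agent.Lib.MP_1aae89_al.W5.DefsD

/-!
# Specifications, part D: factors without characters of high level

THEOREM (DG4). Every finite group with a subnormal series whose factors satisfy `CC4 p b` (that is `CC`,
or simple with `C4`) is `Good p b`. PROOF. Induction on the order of the group `Z`. Let `N` be a minimal
normal subgroup of `Z`, `P` a Sylow `p`-subgroup. (GEX) If `N P ≠ Z` use `Z/N` and `N P`. Let `Z = N P`. If
`N` is abelian: MAB. Otherwise `N` is a direct product of conjugates of a simple group `S` (SDC), which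
satisfies `CC` or `C4`. In the first case `Z` satisfies `DD p b n` for some `n` and DGO applies. In the
second case `N` satisfies `C4` (C4D), and C4G applies.
-/

set_option autoImplicit false

namespace Pool.Agent.Lib.MP_1aae89_al.W5

open Pool.Agent.Lib.MP_1aae89_al Pool.Agent.Lib.MP_1aae89_al.BF Pool.Agent.Lib.MP_1aae89_al.W3
  Pool.Agent.Lib.MP_1aae89_al.W4 Finset
open Pool.Agent.Lib.MP1aae89 (Pex)

/-! ## Good groups -/

/-- GEX. Extensions of good groups.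
PROOF. Let `f : Y → Z` be as in `Good`, `T = f.range`. REC for `H = N.comap f` (structure `RH`).
`Good p b (Y/H)`: `f` induces an injective homomorphism `Y/H → Z/N` whose range `T N/N` has index prime to
`p`; compose with it (as in `W3/RHT.lean`). `low`, right: let `P'` be a Sylow subgroup of `Y`; `f(P')` is a
Sylow subgroup of `Z` (orders: `p ∤ |Z : T|`, `p ∤ |ker f|`), conjugate to `P`, so
`N ⊔ f(P') ≅ N ⊔ P` is good (ISO); the restriction `H ⊔ P' → N ⊔ f(P')` of `f` has a central kernel of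
order prime to `p`, and its range contains the Sylow subgroup `f(P')` of `Z`, so its index is prime to
`p`. -/
def SpecGEX : Prop := ∀ (p b : ℕ), p.Prime → 2 ≤ b → ∀ {Z : Type} [Group Z] [Finite Z]
  (N : Subgroup Z) [N.Normal] (P : Subgroup Z), Nat.card P = p ^ (Nat.card Z).factorization p →
  Good p b (Z ⧸ N) → Good p b ↥(N ⊔ P) → Good p b Z

/-! ## Levels of the irreducible characters of degree prime to `p` -/

/-- FXR. Restriction to a normal subgroup `E` with `Fxd p b E`.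
PROOF. Strong induction on `|Y|` (with `E` and `r` arbitrary). `dicho` (`BF/Isot.lean`) for `E`. Isotypic
case: `tr r(l) = e tr r'(l)` for `l ∈ E`, `n = e m`, `p ∤ m`, and `Fxd p b E` for `r'`. Otherwise there are
`T ≥ E`, `T ≠ ⊤` (`idem_trivial`), and `r` is induced from a representation `s` of `T`, `Sch`, of degree
`k`, `n = |Y : T| k` (`Pr` in `BF/Cliff.lean`, as in the proof of INR, `W3/INR.lean`); for `x ∈ E`:
`tr r(x) = |T|⁻¹ ∑_g tr s(g⁻¹ x g)`, `g⁻¹ x g ∈ E`, and the induction hypothesis for `T` and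
`E.subgroupOf T` (ISO). -/
def SpecFXR : Prop := ∀ (p b : ℕ), p.Prime → ∀ (L s0 : ℕ), L ≠ 0 → Pex p L s0 →
  ∀ {Y : Type} [Group Y] [Finite Y], Nat.card Y ∣ L → ∀ (E : Subgroup Y) [E.Normal], Fxd p b E →
  ∀ (n : ℕ) (r : Y →* Matrix (Fin n) (Fin n) ℂ), Sch r → ¬ p ∣ n → ∀ (t : ℕ), ∀ x ∈ E,
  (r (x ^ (1 + s0 * p ^ (b - 1) * t))).trace = (r x).trace

/-- FXP. Extensions by `p'`-groups.
PROOF. `Y/E` is a `p'`-group, so it is `Good p b` (GBD for `F = ⊤`), and REC (`low`, left) gives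
`IC p b' Y` for all `b' ≥ b`. Let `r` be `Sch` of degree `n`, `p ∤ n`, `χ = tr r`. Let `b₀` be minimal with
`FX p s0 b₀ χ` (it exists: for `b₀ = v_p L` the exponents `1 + s0 p^b₀ t` are `≡ 1` modulo `L`). Suppose
`b₀ ≥ b`. By PWL there is `y` with `χ(y^(1 + s0 p^(b₀-1))) ≠ χ(y)`, so `IC p b₀ Y` for `K = 1` gives
`p ∣ dl (p^(b₀-1)) (χ|P) 1` for a Sylow subgroup `P` of `Y`. `P ≤ E` (`E` is normal of index prime to
`p`), so by FXR `χ(x^(1 + p^(b₀-1) t)) = χ(x)` for `x ∈ P` (`b₀ - 1 ≥ b - 1`, `x^s0 = x`), and SU0 gives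
`dl (p^(b₀-1)) (χ|P) 1 ≡ n`, a contradiction. So `b₀ ≤ b - 1`. -/
def SpecFXP : Prop := ∀ (p b : ℕ), p.Prime → 2 ≤ b → ∀ {Y : Type} [Group Y] [Finite Y]
  (E : Subgroup Y) [E.Normal], ¬ p ∣ E.index → Fxd p b E → Fxd p b Y

/-- C4I. `C4` is invariant under isomorphisms. -/
def SpecC4I : Prop := ∀ (p b : ℕ) {X Y : Type} [Group X] [Finite X] [Group Y] [Finite Y]
  (_ : X ≃* Y), C4 p b X → C4 p b Y

/-- C4D. Direct products.
PROOF. Let `f : Y → F` be as in `C4`, `C = ker f`, `T = f.range`. `T` contains a Sylow `p`-subgroup of `F`,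
which is of the form `P_A P_B` with Sylow subgroups of `A`, `B`. Let `Y_A = A.comap f`,
`Y_B = B.comap f`, and `E_A`, `E_B` the subgroups generated by the `p`-elements of `Y_A`, `Y_B`; they are
normal in `Y`. `E_A` and `E_B` commute: for `x ∈ Y_A`, `y ∈ Y_B` the commutator `[x, y]` is in `C`, central,
so it is multiplicative in `x` and in `y`; if `x` is a `p`-element then its order is a power of `p`, and it
divides `|C|`, so it is `1`. `E_A → A` (restriction of `f`) has a central kernel of order prime to `p`, and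
its range contains `P_A` (`E_A` contains a Sylow subgroup of `Y_A`, and `f(Y_A) = T ∩ A ≥ P_A`), so
`Fxd p b E_A`, in the same way `Fxd p b E_B`. `Fxd p b (E_A E_B)`: let `r` be `Sch` of degree `n`, `p ∤ n`,
on `E_A E_B`; by DEC `r|E_A` is isotypic, `tr r(x) = e tr r'(x)`, `n = e m`, so
`tr r(x^κ) = tr r(x)` for `x ∈ E_A`, `κ = 1 + s0 p^(b-1) t`, the same for `E_B`, and by MTR
`n tr r(x y) = tr r(x) tr r(y)` for `x ∈ E_A`, `y ∈ E_B`, `(x y)^κ = x^κ y^κ`. Finally `E_A E_B` is normal in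
`Y` of index prime to `p`: its order is divisible by the `p`-part of `|Y|`, because `f(E_A E_B)` contains
`P_A P_B`. FXP. -/
def SpecC4D : Prop := ∀ (p b : ℕ), p.Prime → 2 ≤ b → ∀ {F : Type} [Group F] [Finite F]
  (A B : Subgroup F), (∀ x ∈ A, ∀ y ∈ B, x * y = y * x) → A ⊓ B = ⊥ → A ⊔ B = ⊤ →
  C4 p b A → C4 p b B → C4 p b F

/-- C4G. `F` normal in `Z`, `Z/F` a `p`-group.
PROOF. Let `f : Y → Z` be as in `Good`, `H = F.comap f`. REC for `H`, `low`, left: the restriction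
`H → F` of `f` has a central kernel of order prime to `p`, and its range `F ∩ f.range` has index prime to
`p` in `F` (it contains `F ∩ P`, `P ≤ f.range` a Sylow subgroup of `Z`), so `Fxd p b H` by `C4`. `Y/H` is a
`p`-group: GPG. -/
def SpecC4G : Prop := ∀ (p b : ℕ), p.Prime → 2 ≤ b → ∀ {Z : Type} [Group Z] [Finite Z]
  (F : Subgroup Z) [F.Normal], (∀ z : Z, ∃ j : ℕ, z ^ p ^ j ∈ F) → C4 p b F → Good p b Z

/-! ## The structure of minimal normal subgroups -/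

/-- SDC. Properties of a minimal normal subgroup.
PROOF. The conjugates `z S z⁻¹` are minimal normal subgroups of `N`; the subgroup generated by them is normal
in `Z`, so it is `N`. Let `V ≤ N` be normal in `N`, with `Pr V`, of maximal order (`V = ⊥` is possible). If
`V ≠ N` there is `z` with `z S z⁻¹ ≰ V`; `z S z⁻¹ ∩ V = 1` (minimality), so `V` and `z S z⁻¹` commute, and
`V ⊔ z S z⁻¹` is normal in `N`, with `Pr` (isomorphism invariance for `S ≅ z S z⁻¹`, and the closure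
under direct products inside the group `V ⊔ z S z⁻¹`), larger than `V`, a contradiction. -/
def SpecSDC : Prop := ∀ (Pr : (F : Type) → [Group F] → [Finite F] → Prop),
  (∀ {X Y : Type} [Group X] [Finite X] [Group Y] [Finite Y] (_ : X ≃* Y), Pr X → Pr Y) →
  (∀ {X : Type} [Group X] [Finite X], Subsingleton X → Pr X) →
  (∀ {F : Type} [Group F] [Finite F] (A B : Subgroup F), (∀ x ∈ A, ∀ y ∈ B, x * y = y * x) →
    A ⊓ B = ⊥ → A ⊔ B = ⊤ → Pr A → Pr B → Pr F) →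
  ∀ {Z : Type} [Group Z] [Finite Z] (N : Subgroup Z) [N.Normal],
  (∀ R : Subgroup Z, R.Normal → R ≤ N → R = ⊥ ∨ R = N) → ∀ S : Subgroup Z, S ≤ N → S ≠ ⊥ →
  (∀ g ∈ N, ∀ x ∈ S, g * x * g⁻¹ ∈ S) →
  (∀ R : Subgroup Z, R ≤ S → (∀ g ∈ N, ∀ x ∈ R, g * x * g⁻¹ ∈ R) → R = ⊥ ∨ R = S) →
  Pr S → Pr N

/-- SSM. A minimal normal subgroup `S` of a minimal normal subgroup `N` is simple, if `N` is not abelian.
PROOF. `N` is generated by the conjugates `z S z⁻¹`, and those different from `S` commute with `S` (they are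
minimal normal subgroups of `N`, so they intersect `S` trivially). So a normal subgroup of `S` is
normalized by `N`. -/
def SpecSSM : Prop := ∀ {Z : Type} [Group Z] [Finite Z] (N : Subgroup Z) [N.Normal],
  (∀ R : Subgroup Z, R.Normal → R ≤ N → R = ⊥ ∨ R = N) → ∀ S : Subgroup Z, S ≤ N → S ≠ ⊥ →
  (∀ g ∈ N, ∀ x ∈ S, g * x * g⁻¹ ∈ S) →
  (∀ R : Subgroup Z, R ≤ S → (∀ g ∈ N, ∀ x ∈ R, g * x * g⁻¹ ∈ R) → R = ⊥ ∨ R = S) → Smp S

/-- DDX. Extensions for `DD`.
PROOF. Induction on `m`: `m = 0`: `A = ⊤` (DDI). Otherwise let `R/A` be the normal subgroup of `F/A` in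
`DD p b (m+1) (F/A)`, `R ≥ A`: `DD p b (n+m) R` by the induction hypothesis (`A` as a subgroup of `R`,
`R/A ≅` the subgroup; DDI), and `F/R ≅ (F/A)/(R/A)` (CCI). -/
def SpecDDX : Prop := ∀ (p b n m : ℕ) {F : Type} [Group F] [Finite F] (A : Subgroup F) [A.Normal],
  DD p b n A → DD p b m (F ⧸ A) → DD p b (n + m) F

/-! ## The class `D4` -/

/-- K4I. `CC4` is invariant under isomorphisms. -/
def SpecK4I : Prop := ∀ (p b : ℕ) {X Y : Type} [Group X] [Finite X] [Group Y] [Finite Y]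
  (_ : X ≃* Y), CC4 p b X → CC4 p b Y

/-- K4N. Normal subgroups (CCN; a normal subgroup of a simple group is `⊥` or `⊤`; the trivial group
satisfies `CC`). -/
def SpecK4N : Prop := ∀ (p b : ℕ), p.Prime → ∀ {X : Type} [Group X] [Finite X] (N : Subgroup X)
  [N.Normal], CC4 p b X → CC4 p b N

/-- K4Q. Factor groups (CCQ). -/
def SpecK4Q : Prop := ∀ (p b : ℕ), p.Prime → ∀ {X : Type} [Group X] [Finite X] (N : Subgroup X)
  [N.Normal], CC4 p b X → CC4 p b (X ⧸ N)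

/-- D4I. `D4` is invariant under isomorphisms (copy of DDI). -/
def SpecD4I : Prop := ∀ (p b n : ℕ) {X Y : Type} [Group X] [Finite X] [Group Y] [Finite Y]
  (_ : X ≃* Y), D4 p b n X → D4 p b n Y

/-- D4N. Normal subgroups (copy of DDN). -/
def SpecD4N : Prop := ∀ (p b : ℕ), p.Prime → ∀ (n : ℕ) {X : Type} [Group X] [Finite X]
  (R : Subgroup X) [R.Normal], D4 p b n X → D4 p b n R

/-- D4Q. Factor groups (copy of DDQ). -/
def SpecD4Q : Prop := ∀ (p b : ℕ), p.Prime → ∀ (n : ℕ) {X : Type} [Group X] [Finite X]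
  (R : Subgroup X) [R.Normal], D4 p b n X → D4 p b n (X ⧸ R)

/-- D4E. Extensions by `p`-groups. -/
def SpecD4E : Prop := ∀ (p b : ℕ), p.Prime → ∀ (n : ℕ) {X : Type} [Group X] [Finite X]
  (N : Subgroup X) [N.Normal], D4 p b n N → (∀ x : X, ∃ j : ℕ, x ^ p ^ j ∈ N) → D4 p b (n + 1) X

/-- D4S. Simple groups (copy of DDS). -/
def SpecD4S : Prop := ∀ (p b : ℕ), p.Prime → ∀ (n : ℕ) {X : Type} [Group X] [Finite X],
  Nontrivial X → Smp X → D4 p b n X → CC4 p b X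

/-- DG4. The main induction.
PROOF. Strong induction on `|Z|`. `Z` trivial: GPG. Otherwise let `N ≠ ⊥` be a minimal normal subgroup, `P` a
Sylow subgroup. `N ⊔ P ≠ ⊤`: `Good p b (Z/N)` by D4Q and the induction hypothesis, `Good p b ↥(N ⊔ P)`
by D4N (for `N`), D4I, D4E and the induction hypothesis; GEX. `N ⊔ P = ⊤`: `Z/N` is a `p`-group. `N` abelian:
MAB. Otherwise let `S` be a minimal normal subgroup of `N`; it is simple (SSM), `D4 p b n S` (D4N twice,
D4I), so `CC4 p b S` (D4S). If `C4 p b S`: `C4 p b N` by SDC for `Pr = C4 p b` (C4I, C4D; for a trivial group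
`F` the group `Y` in `C4` is a `p'`-group, and `y^(1 + s0 …) = y`), C4G. If `CC p b S`: `DD p b n N` for some
`n` by SDC for `Pr F = ∃ n, DD p b n F` (DDI, DDX with `F ⧸ A ≅ B`; `DD p b 1 S`), DDE, DGO. -/
def SpecDG4 : Prop := ∀ (p b : ℕ), p.Prime → 2 ≤ b → ∀ (n : ℕ) {Z : Type} [Group Z] [Finite Z],
  D4 p b n Z → Good p b Z

/-! ## Series in a group -/

/-- SE4. Series and `D4` (copy of SER, with FAC; K4I, D4I). -/
def SpecSE4 : Prop := ∀ (p b : ℕ), p.Prime → ∀ {M : Type} [Group M] [Finite M]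
  (P A B : Subgroup M), Nat.card ↥(P ⊓ B) = p ^ (Nat.card B).factorization p → A ≤ B →
  ∀ [(A.subgroupOf B).Normal], Ser4 p b P A B → ∃ n : ℕ, D4 p b n (↥B ⧸ A.subgroupOf B)

/-- SG4. A step of the chain (copy of SGO, with DG4). -/
def SpecSG4 : Prop := ∀ (p b : ℕ), p.Prime → 2 ≤ b → ∀ {M : Type} [Group M] [Finite M]
  (P : Subgroup M), IsPGroup p P → ∀ K K' : Subgroup M, K ≤ K' →
  (∀ g ∈ K', ∀ x ∈ K, g * x * g⁻¹ ∈ K) → (∀ g ∈ P, ∀ x ∈ K, g * x * g⁻¹ ∈ K) →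
  (∀ g ∈ P, ∀ x ∈ K', g * x * g⁻¹ ∈ K') → ∀ [(K.subgroupOf K').Normal] (n : ℕ),
  D4 p b n (↥K' ⧸ K.subgroupOf K') →
  ∀ [_hN : (K.subgroupOf (K' ⊔ P)).Normal], Good p b (↥(K' ⊔ P) ⧸ K.subgroupOf (K' ⊔ P))

/-- SC4. A step of the chain with `C4`.
PROOF. As SG4: `F/H ≅ K'/K` satisfies `C4` (C4I), it is normal in `X/H` with a `p`-group as quotient: C4G. -/
def SpecSC4 : Prop := ∀ (p b : ℕ), p.Prime → 2 ≤ b → ∀ {M : Type} [Group M] [Finite M]
  (P : Subgroup M), IsPGroup p P → ∀ K K' : Subgroup M, K ≤ K' →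
  (∀ g ∈ K', ∀ x ∈ K, g * x * g⁻¹ ∈ K) → (∀ g ∈ P, ∀ x ∈ K, g * x * g⁻¹ ∈ K) →
  (∀ g ∈ P, ∀ x ∈ K', g * x * g⁻¹ ∈ K') → ∀ [(K.subgroupOf K').Normal],
  C4 p b (↥K' ⧸ K.subgroupOf K') →
  ∀ [_hN : (K.subgroupOf (K' ⊔ P)).Normal], Good p b (↥(K' ⊔ P) ⧸ K.subgroupOf (K' ⊔ P))

/-- FI4. The theorem for `M` (copy of FIN, with SE4, SG4, SC4, STV). -/
def SpecFI4 : Prop := ∀ (p b : ℕ), p.Prime → 2 ≤ b → ∀ {M : Type} [Group M] [Finite M]
  (P : Subgroup M), Nat.card P = p ^ (Nat.card M).factorization p → ∀ (m : ℕ) (K : ℕ → Subgroup M),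
  (∀ i < m, K i ≤ K (i + 1)) → (∀ i < m, ∀ g ∈ K (i + 1), ∀ x ∈ K i, g * x * g⁻¹ ∈ K i) →
  (∀ i ≤ m, ∀ g ∈ P, ∀ x ∈ K i, g * x * g⁻¹ ∈ K i) → K m = ⊤ → Fxd p b (K 0) →
  (∀ i < m, Ser4 p b P (K i) (K (i + 1)) ∨
    (∀ [_hN : ((K i).subgroupOf (K (i + 1))).Normal],
      C4 p b (↥(K (i + 1)) ⧸ (K i).subgroupOf (K (i + 1)))) ∨
    ((∀ x ∈ P, ∀ y ∈ P, x * y * x⁻¹ * y⁻¹ ∈ K i) ∧
      ∀ [_hN : ((K i).subgroupOf (K (i + 1) ⊔ P)).Normal], Crt p b ((P.subgroupOf
        (K (i + 1) ⊔ P)).map (QuotientGroup.mk' ((K i).subgroupOf (K (i + 1) ⊔ P))))) ∨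
    ∀ [_hN : ((K i).subgroupOf (K (i + 1) ⊔ P)).Normal], CrtF p ((P.subgroupOf
      (K (i + 1) ⊔ P)).map (QuotientGroup.mk' ((K i).subgroupOf (K (i + 1) ⊔ P))))) → IC p b M

end Pool.Agent.Lib.MP_1aae89_al.W5
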