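import Pool.Agent.Lib.MP_1aae89_al.W5.SpecB
import Pool.Agent.Lib.MP_1aae89_al.W5.SPN
import Pool.Agent.Lib.MP_1aae89_al.W6.Q1D
import Pool.Agent.Lib.MP_1aae89_al.W5.SpecD
import Pool.Agent.Lib.MP_1aae89_al.W.SCA
import Pool.Agent.Lib.MP_1aae89_al.BF.PStep
import Pool.Agent.Lib.MP_1aae89_al.HC.Top
import Pool.Agent.Lib.MP_1aae89_al.W5.SpecC
import Pool.Agent.Lib.MP_1aae89_al.W.All
import Pool.Agent.Lib.MP_1aae89_al.W5.SC4
import Pool.Agent.Lib.MP_1aae89_al.Grp2

section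
/-!
# GCE: the character of `A` comes from a central `p'`-extension of `G/D`
-/
set_option autoImplicit false

namespace Pool.Agent.Lib.MP_1aae89_al.W5

open Pool.Agent.Lib.MP_1aae89_al Pool.Agent.Lib.MP_1aae89_al.BF Pool.Agent.Lib.MP_1aae89_al.W3
  Pool.Agent.Lib.MP_1aae89_al.W4 Finset
open Pool.Agent.Lib.MP1aae89 (Pex)

namespace GCE

section

variable {p M : ℕ} {G : Type} [Group G] [Finite G] {L D : Subgroup G} {n e m : ℕ}
  {r : G →* Matrix (Fin n) (Fin n) ℂ} {r' : L →* Matrix (Fin m) (Fin m) ℂ}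
  {Y : Type} [Group Y] [Finite Y] {f : Y →* G} {H0 : Subgroup Y}
  {Z : Y →* Matrix (Fin e) (Fin e) ℂ} {A : Y →* Matrix (Fin m) (Fin m) ℂ}

/-- a matrix which commutes with `A(H0)` is scalar -/
theorem scalar (hS : Sch r') (hT : TD p M L r r' f H0 Z A) (T : Matrix (Fin m) (Fin m) ℂ)
    (h : ∀ y ∈ H0, T * A y = A y * T) : ∃ c : ℂ, T = c • (1 : Matrix (Fin m) (Fin m) ℂ) := by
  refine hS T fun l => ?_
  have h1 : (l : G) ∈ H0.map f := by
    rw [hT.map]
    exact l.2
  obtain ⟨y, hy, hyl⟩ := h1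
  have hf : f y ∈ L := by
    rw [hyl]
    exact l.2
  have h2 := hT.res y hy hf
  have h3 : (⟨f y, hf⟩ : L) = l := Subtype.ext hyl
  rw [h3] at h2
  rw [← h2]
  exact h y hy

/-- the elements over `D` commute with `H0` -/
theorem comm (hcom : ∀ x ∈ L, ∀ y ∈ D, x * y = y * x) (hT : TD p M L r r' f H0 Z A) {y : Y}
    (hy : f y ∈ D) {h : Y} (hh : h ∈ H0) : y * h = h * y := by
  have h1 : y * h * y⁻¹ * h⁻¹ ∈ H0 := H0.mul_mem (hT.norm.conj_mem h hh y) (H0.inv_mem hh)
  have h2 : f h ∈ L := by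
    rw [← hT.map]
    exact ⟨h, hh, rfl⟩
  have h3 : f (y * h * y⁻¹ * h⁻¹) = 1 := by
    rw [map_mul, map_mul, map_mul, map_inv, map_inv, ← hcom _ h2 _ hy, mul_inv_cancel_right,
      mul_inv_cancel]
  have h4 := hT.inj _ h1 h3
  rw [mul_inv_eq_one, mul_inv_eq_iff_eq_mul] at h4
  exact h4

theorem scal (hcom : ∀ x ∈ L, ∀ y ∈ D, x * y = y * x) (hS : Sch r')
    (hT : TD p M L r r' f H0 Z A) {y : Y} (hy : f y ∈ D) :
    ∃ c : ℂ, A y = c • (1 : Matrix (Fin m) (Fin m) ℂ) :=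
  scalar hS hT _ fun h hh => by rw [← map_mul, comm hcom hT hy hh, map_mul]

end

end GCE

open GCE in
theorem specGCE : SpecGCE := by
  intro p b hp hb G _ _ L D _ _ hcom hgood n r e m r' hS hm M hM Y _ _ f H0 Z A hT b' hbb L' s0 hL'
    hY hpex hFA K hK hKD hne P hP
  have : Fact p.Prime := ⟨hp⟩
  let R : Subgroup Y := D.comap f ⊓ A.ker
  have hR : ∀ y, y ∈ R ↔ f y ∈ D ∧ A y = 1 := fun y => Iff.rfl
  -- the quotient
  let Aq : Y ⧸ R →* Matrix (Fin m) (Fin m) ℂ := QuotientGroup.lift R A fun y hy => ((hR y).1 hy).2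
  let Kq : Lin (Y ⧸ R) := QuotientGroup.lift R (K : Y →* ℂˣ) fun y hy => hKD y ((hR y).1 hy).1
  have hAq : ∀ y : Y, Aq (y : Y ⧸ R) = A y := fun y => rfl
  have hKq : ∀ y : Y, Kq (y : Y ⧸ R) = K y := fun y => rfl
  let g : Y ⧸ R →* G ⧸ D := QuotientGroup.map R D f fun y hy => ((hR y).1 hy).1
  have hg : ∀ y : Y, g (y : Y ⧸ R) = (f y : G ⧸ D) := fun y => rfl
  have hg1 : ∀ y : Y, g (y : Y ⧸ R) = 1 → f y ∈ D := fun y h => by
    rw [hg] at h
    exact (QuotientGroup.eq_one_iff _).1 h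
  -- the kernel is central
  have hcen : ∀ y, g y = 1 → ∀ z, y * z = z * y := by
    intro y hy z
    obtain ⟨y, rfl⟩ := QuotientGroup.mk_surjective y
    obtain ⟨z, rfl⟩ := QuotientGroup.mk_surjective z
    have h1 := hg1 y hy
    obtain ⟨c, hc⟩ := scal hcom hS hT h1
    have h2 : y * z * (z * y)⁻¹ ∈ R := by
      rw [hR]
      constructor
      · rw [map_mul, map_mul, map_inv, map_mul, _root_.mul_inv_rev]
        have h3 := D.mul_mem h1 ((inferInstance : D.Normal).conj_mem _ (D.inv_mem h1) (f z))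
        have h4 : f y * f z * ((f y)⁻¹ * (f z)⁻¹) = f y * (f z * (f y)⁻¹ * (f z)⁻¹) := by group
        rw [h4]
        exact h3
      · have h3 : A (y * z) = A (z * y) := by
          rw [map_mul, map_mul, hc, Matrix.smul_mul, Matrix.mul_smul, Matrix.one_mul,
            Matrix.mul_one]
        rw [map_mul, h3, ← map_mul, mul_inv_cancel, map_one]
    have h5 := (QuotientGroup.eq_one_iff (N := R) _).2 h2
    rw [QuotientGroup.mk_mul, QuotientGroup.mk_inv, mul_inv_eq_one] at h5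
    exact h5
  -- the order of the kernel
  have hker : (Nat.card g.ker).Coprime p := by
    rw [Nat.coprime_comm, hp.coprime_iff_not_dvd]
    intro hdvd
    obtain ⟨x, hx⟩ := exists_prime_orderOf_dvd_card' (G := g.ker) p hdvd
    obtain ⟨y, hy⟩ := QuotientGroup.mk_surjective x.1
    have h1 : f y ∈ D := hg1 y (by rw [hy]; exact x.2)
    obtain ⟨c, hc⟩ := scal hcom hS hT h1
    have h2 : (A y).det ^ M = 1 := hT.det y
    rw [hc, Matrix.det_smul, Matrix.det_one, mul_one, Fintype.card_fin, ← pow_mul] at h2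
    have h3 : y ^ (m * M) ∈ R := by
      rw [hR, map_pow, map_pow, hc, smul_pow, one_pow, h2, one_smul]
      exact ⟨D.pow_mem h1 _, rfl⟩
    have h4 : x ^ (m * M) = 1 := by
      apply Subtype.ext
      rw [Subgroup.coe_pow, ← hy, ← QuotientGroup.mk_pow]
      exact (QuotientGroup.eq_one_iff _).2 h3
    have h5 : p ∣ m * M := by
      rw [← hx]
      exact orderOf_dvd_of_pow_eq_one h4
    rcases hp.dvd_mul.1 h5 with h | h
    · exact hm h
    · exact (hp.coprime_iff_not_dvd.1 hM.symm) h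
  have hrange : ¬ p ∣ g.range.index := by
    have h1 : Function.Surjective g := by
      intro z
      obtain ⟨z, rfl⟩ := QuotientGroup.mk_surjective z
      obtain ⟨y, rfl⟩ := hT.surj z
      exact ⟨(y : Y ⧸ R), hg y⟩
    rw [MonoidHom.range_eq_top.2 h1, Subgroup.index_top]
    exact hp.one_lt.ne' ∘ Nat.dvd_one.1
  have hIC := hgood (Y ⧸ R) g hcen hker hrange b' hbb
  have hSq : Sch Aq := fun T hT' => scalar hS hT T fun h _ => hT' (h : Y ⧸ R)
  have hFq : FX p s0 b' (fun y => (Aq y).trace) := by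
    intro t y
    obtain ⟨y, rfl⟩ := QuotientGroup.mk_surjective y
    exact hFA t y
  have hKp : Kq ^ p = 1 := by
    refine Lin.ext fun y => ?_
    obtain ⟨y, rfl⟩ := QuotientGroup.mk_surjective y
    rw [Lin.pow_apply, hKq, ← Lin.pow_apply, hK]
    rfl
  have hneq : ∃ y, (Aq (y ^ (1 + s0 * p ^ (b' - 1)))).trace ≠ (Kq y : ℂ) * (Aq y).trace := by
    obtain ⟨y, hy⟩ := hne
    exact ⟨(y : Y ⧸ R), hy⟩
  have h6 := hIC L' s0 hL' ((Subgroup.card_quotient_dvd_card R).trans hY) hpex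
    (P.map (QuotientGroup.mk' R)) (CA1_card hp R P hP) m Aq hSq hm hFq Kq hKp hneq
  let π : P →* P.map (QuotientGroup.mk' R) := (QuotientGroup.mk' R).subgroupMap P
  have hπ : Function.Surjective π := (QuotientGroup.mk' R).subgroupMap_surjective P
  have h7 := specQDL π hπ (p ^ (b' - 1))
    (fun z : P.map (QuotientGroup.mk' R) => (Aq z).trace)
    ((isCharacter_trace Aq).comp (P.map (QuotientGroup.mk' R)).subtype) (resL _ Kq)
  have h8 : pb π (resL (P.map (QuotientGroup.mk' R)) Kq) = resL P K := Lin.ext fun x => rfl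
  rw [h8] at h7
  rw [← h7] at h6
  exact h6

end Pool.Agent.Lib.MP_1aae89_al.W5
end

section
/-!
# GEX: extensions of good groups
-/
set_option autoImplicit false

namespace Pool.Agent.Lib.MP_1aae89_al.W5

open Pool.Agent.Lib.MP_1aae89_al Pool.Agent.Lib.MP_1aae89_al.BF Pool.Agent.Lib.MP_1aae89_al.W3
  Pool.Agent.Lib.MP_1aae89_al.W4 Finset

namespace GEX

/-- the `p`-part of the order of `Y` -/
theorem fac_eq {p : ℕ} (hp : p.Prime) {Y Z : Type} [Group Y] [Finite Y] [Group Z] [Finite Z]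
    (f : Y →* Z) (hker : (Nat.card f.ker).Coprime p) (hran : ¬ p ∣ f.range.index) :
    (Nat.card Y).factorization p = (Nat.card Z).factorization p := by
  have h1 : Nat.card Y = Nat.card f.ker * Nat.card f.range := by
    rw [← Nat.card_congr (QuotientGroup.quotientKerEquivRange f).toEquiv, mul_comm]
    exact Subgroup.card_eq_card_quotient_mul_card_subgroup f.ker
  have h2 : Nat.card Z = Nat.card f.range * f.range.index := (f.range.card_mul_index).symm
  have h3 : ¬ p ∣ Nat.card f.ker := fun h => by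
    have := Nat.dvd_gcd h dvd_rfl
    rw [hker] at this
    exact hp.one_lt.ne' (Nat.dvd_one.1 this)
  rw [h1, h2, Nat.factorization_mul Nat.card_pos.ne' Nat.card_pos.ne',
    Nat.factorization_mul Nat.card_pos.ne' Subgroup.index_ne_zero_of_finite, Finsupp.add_apply,
    Finsupp.add_apply, Nat.factorization_eq_zero_of_not_dvd h3,
    Nat.factorization_eq_zero_of_not_dvd hran, zero_add, add_zero]

/-- `f` is injective on `p`-subgroups -/
theorem inj_p {p : ℕ} {Y Z : Type} [Group Y] [Finite Y] [Group Z]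
    (f : Y →* Z) (hker : (Nat.card f.ker).Coprime p) (P' : Subgroup Y) {k : ℕ}
    (hP' : Nat.card P' = p ^ k) : ∀ x ∈ P', f x = 1 → x = 1 := by
  intro x hx hfx
  have h1 : orderOf x ∣ p ^ k := by
    rw [← hP']
    have := orderOf_dvd_natCard (⟨x, hx⟩ : P')
    rwa [← Subgroup.orderOf_coe] at this
  have h2 : orderOf x ∣ Nat.card f.ker := by
    have := orderOf_dvd_natCard (⟨x, hfx⟩ : f.ker)
    rwa [← Subgroup.orderOf_coe] at this
  have h3 : orderOf x ∣ 1 := by
    rw [← Nat.Coprime.gcd_eq_one (hker.pow_right k)]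
    exact Nat.dvd_gcd h2 h1
  exact orderOf_eq_one_iff.1 (Nat.dvd_one.1 h3)

/-- the order of the image of a Sylow subgroup -/
theorem card_map {p : ℕ} (hp : p.Prime) {Y Z : Type} [Group Y] [Finite Y] [Group Z] [Finite Z]
    (f : Y →* Z) (hker : (Nat.card f.ker).Coprime p) (hran : ¬ p ∣ f.range.index)
    (P' : Subgroup Y) (hP' : Nat.card P' = p ^ (Nat.card Y).factorization p) :
    Nat.card (P'.map f) = p ^ (Nat.card Z).factorization p := by
  rw [← fac_eq hp f hker hran, ← hP']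
  have hi : Function.Injective (f.comp P'.subtype) := by
    rw [injective_iff_map_eq_one]
    intro x hx
    exact Subtype.ext (inj_p f hker P' hP' x x.2 hx)
  have h1 : (f.comp P'.subtype).range = P'.map f := by
    rw [MonoidHom.range_comp, Subgroup.range_subtype]
  rw [← h1]
  exact (Nat.card_congr (MonoidHom.ofInjective hi).toEquiv).symm

/-- Sylow subgroups are conjugate -/
theorem conj_syl {p : ℕ} (hp : p.Prime) {Z : Type} [Group Z] [Finite Z] (P Q : Subgroup Z)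
    (hP : Nat.card P = p ^ (Nat.card Z).factorization p)
    (hQ : Nat.card Q = p ^ (Nat.card Z).factorization p) :
    ∃ g : Z, P.map (MulAut.conj g).toMonoidHom = Q := by
  have hpf : Fact p.Prime := ⟨hp⟩
  obtain ⟨g, hg⟩ := MulAction.exists_smul_eq Z (Sylow.ofCard P hP) (Sylow.ofCard Q hQ)
  refine ⟨g, ?_⟩
  have h1 := congrArg (fun S : Sylow p Z => (S : Subgroup Z)) hg
  exact h1

end GEX

open GEX in
theorem specGEX (hISO : W3.SpecISO) (hREC : W3.SpecREC) : SpecGEX := by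
  intro p b hp hb Z _ _ N _ P hP hq hNP Y _ _ f hcen hker hran b' hb'
  refine hREC p b hp hb (N.comap f) ⟨inferInstance, ?_, ?_⟩ b' hb'
  · right
    intro P' hP' b'' hb''
    have hfP := card_map hp f hker hran P' hP'
    obtain ⟨g, hg⟩ := conj_syl hp P (P'.map f) hP hfP
    have hg2 : (N ⊔ P).map (MulAut.conj g).toMonoidHom = N ⊔ P'.map f := by
      rw [Subgroup.map_sup, hg]
      congr 1
      apply le_antisymm
      · rintro _ ⟨x, hx, rfl⟩
        exact (inferInstance : N.Normal).conj_mem x hx g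
      · intro x hx
        refine ⟨g⁻¹ * x * g, ?_, ?_⟩
        · have := (inferInstance : N.Normal).conj_mem x hx g⁻¹
          rwa [inv_inv] at this
        · change g * (g⁻¹ * x * g) * g⁻¹ = x
          group
    have hgood : Good p b ↥(N ⊔ P'.map f) := by
      refine (hISO p b (((N ⊔ P).equivMapOfInjective (MulAut.conj g).toMonoidHom
        (MulAut.conj g).injective).trans (MulEquiv.subgroupCongr hg2))).2.2 hNP
    -- the restriction of `f`
    have hle : ∀ y : ↥(N.comap f ⊔ P'), f y ∈ N ⊔ P'.map f := by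
      rintro ⟨y, hy⟩
      have h1 : f y ∈ (N.comap f ⊔ P').map f := ⟨y, hy, rfl⟩
      rw [Subgroup.map_sup] at h1
      have h2 : (N.comap f).map f ⊔ P'.map f ≤ N ⊔ P'.map f :=
        sup_le_sup_right (Subgroup.map_comap_le f N) _
      exact h2 h1
    let φ : ↥(N.comap f ⊔ P') →* ↥(N ⊔ P'.map f) :=
      (f.comp (N.comap f ⊔ P').subtype).codRestrict _ hle
    have hφ : ∀ y, φ y = 1 ↔ f (y : Y) = 1 := by
      intro y
      constructor
      · intro h
        have := congrArg Subtype.val h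
        exact this
      · intro h
        exact Subtype.ext h
    refine hgood _ φ (fun y hy z => Subtype.ext (hcen y ((hφ y).1 hy) z)) ?_ ?_ b'' hb''
    · refine Nat.Coprime.coprime_dvd_left ?_ hker
      have h1 : ∀ y : φ.ker, ((y : ↥(N.comap f ⊔ P')) : Y) ∈ f.ker := fun y => (hφ y).1 y.2
      refine Subgroup.card_dvd_of_injective
        (((N.comap f ⊔ P').subtype.comp φ.ker.subtype).codRestrict f.ker h1) ?_
      intro x y hxy
      have h2 := congrArg Subtype.val hxy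
      exact Subtype.ext (Subtype.ext h2)
    · intro hdvd
      -- the index of the range divides that of `P'.map f`
      have h1 : (P'.map f).subgroupOf (N ⊔ P'.map f) ≤ φ.range := by
        rintro ⟨z, hz⟩ hz2
        obtain ⟨y, hy, hyz⟩ := (Subgroup.mem_subgroupOf.1 hz2 : z ∈ P'.map f)
        exact ⟨⟨y, (le_sup_right : P' ≤ N.comap f ⊔ P') hy⟩, Subtype.ext hyz⟩
      have h2 : φ.range.index ∣ (P'.map f).relIndex (N ⊔ P'.map f) :=
        Subgroup.index_dvd_of_le h1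
      have h3 : (P'.map f).relIndex (N ⊔ P'.map f) ∣ (P'.map f).index :=
        Subgroup.relIndex_dvd_index_of_le le_sup_right
      have h4 : ¬ p ∣ (P'.map f).index := by
        have h5 : Nat.card Z = Nat.card (P'.map f) * (P'.map f).index :=
          ((P'.map f).card_mul_index).symm
        rw [hfP] at h5
        have h6 : (P'.map f).index = ordCompl[p] (Nat.card Z) := by
          have h7 := Nat.ordProj_mul_ordCompl_eq_self (Nat.card Z) p
          have h8 : 0 < p ^ (Nat.card Z).factorization p := pow_pos hp.pos _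
          exact Nat.eq_of_mul_eq_mul_left h8 (h5.symm.trans h7.symm)
        rw [h6]
        exact Nat.not_dvd_ordCompl hp Nat.card_pos.ne'
      exact h4 ((hdvd.trans h2).trans h3)
  · intro _ W _ _ g hgc hgk hgr b'' hb''
    let ψ : (Y ⧸ N.comap f) →* (Z ⧸ N) := QuotientGroup.map (N.comap f) N f le_rfl
    have hψ : Function.Injective ψ := by
      rw [injective_iff_map_eq_one]
      intro a
      induction a using QuotientGroup.induction_on with
      | H y =>
        intro h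
        rw [QuotientGroup.eq_one_iff]
        have h1 : ((f y : Z) : Z ⧸ N) = 1 := h
        rw [QuotientGroup.eq_one_iff] at h1
        exact h1
    have h1 : ∀ y, (ψ.comp g) y = 1 ↔ g y = 1 := fun y =>
      ⟨fun h2 => hψ (by rw [map_one]; exact h2), fun h2 => by
        rw [MonoidHom.comp_apply, h2, map_one]⟩
    have hk : (ψ.comp g).ker = g.ker := by
      ext y
      exact h1 y
    refine hq W (ψ.comp g) (fun y hy => hgc y ((h1 y).1 hy)) (by rw [hk]; exact hgk) ?_ b'' hb''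
    rw [MonoidHom.range_comp, Subgroup.index_map_of_injective _ hψ]
    intro h2
    rcases (Nat.Prime.dvd_mul hp).1 h2 with h3 | h3
    · exact hgr h3
    · apply hran
      have h4 : ψ.range = (f.range.map (QuotientGroup.mk' N)) := by
        ext z
        constructor
        · rintro ⟨a, rfl⟩
          induction a using QuotientGroup.induction_on with
          | H y => exact ⟨f y, ⟨y, rfl⟩, rfl⟩
        · rintro ⟨_, ⟨y, rfl⟩, rfl⟩
          exact ⟨(y : Y ⧸ N.comap f), rfl⟩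
      rw [h4] at h3
      exact h3.trans (Subgroup.index_map_dvd _ (QuotientGroup.mk'_surjective N))

end Pool.Agent.Lib.MP_1aae89_al.W5
end

section
/-!
# W5, module HCF: the quotient by `HC` on a central extension
-/
set_option autoImplicit false

namespace Pool.Agent.Lib.MP_1aae89_al.W5

open Pool.Agent.Lib.MP_1aae89_al Pool.Agent.Lib.MP_1aae89_al.BF Pool.Agent.Lib.MP_1aae89_al.W3
  Pool.Agent.Lib.MP_1aae89_al.W4 Finset

namespace HCF

theorem hc_comap {Y Z : Type} [Group Y] [Group Z] (f : Y →* Z) (hf : Function.Surjective f)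
    (X₁ N₀ : Subgroup Z) (hz : ∃ z : Z, z ∉ X₁) :
    HC (X₁.comap f) (N₀.comap f) = (HC X₁ N₀).comap f := by
  apply le_antisymm
  · unfold HC
    rw [Subgroup.closure_le]
    rintro w ⟨z, hz, y, hy, rfl⟩
    show f (z * y * z⁻¹) ∈ Subgroup.closure {w | ∃ z ∉ X₁, ∃ y ∈ N₀, w = z * y * z⁻¹}
    refine Subgroup.subset_closure ⟨f z, hz, f y, hy, ?_⟩
    rw [map_mul, map_mul, map_inv]
  · -- preimages of generators
    have hgen : ∀ (z : Z), z ∉ X₁ → ∀ y ∈ N₀, ∀ x : Y, f x = z * y * z⁻¹ →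
        x ∈ HC (X₁.comap f) (N₀.comap f) := by
      intro z hz y hy x hx
      obtain ⟨z', rfl⟩ := hf z
      refine Subgroup.subset_closure ⟨z', hz, z'⁻¹ * x * z', ?_, by group⟩
      show f (z'⁻¹ * x * z') ∈ N₀
      have : f (z'⁻¹ * x * z') = y := by
        rw [map_mul, map_mul, map_inv, hx]
        group
      rw [this]
      exact hy
    have hall : ∀ u ∈ HC X₁ N₀, ∀ x : Y, f x = u → x ∈ HC (X₁.comap f) (N₀.comap f) := by
      intro u hu
      refine Subgroup.closure_induction (p := fun u _ => ∀ x : Y, f x = u →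
        x ∈ HC (X₁.comap f) (N₀.comap f)) ?_ ?_ ?_ ?_ hu
      · rintro w ⟨z, hz, y, hy, rfl⟩ x hx
        exact hgen z hz y hy x hx
      · intro x hx
        obtain ⟨z, hz⟩ := hz
        refine hgen z hz 1 N₀.one_mem x ?_
        rw [hx]
        group
      · intro u v _ _ ihu ihv x hx
        obtain ⟨a, ha⟩ := hf u
        have h1 := ihu a ha
        have h2 := ihv (a⁻¹ * x) (by rw [map_mul, map_inv, ha, hx]; group)
        have h3 : x = a * (a⁻¹ * x) := by group
        rw [h3]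
        exact Subgroup.mul_mem _ h1 h2
      · intro u _ ihu x hx
        have h1 := ihu x⁻¹ (by rw [map_inv, hx, inv_inv])
        have h2 := Subgroup.inv_mem _ h1
        rwa [inv_inv] at h2
    intro x hx
    exact hall (f x) hx x rfl

end HCF

open HCF in
theorem specHCF (hISO : W3.SpecISO) : SpecHCF := by
  intro p b hp Y Z _ _ _ _ f hf X₁ N₀ wy i1 i2 hG
  have hz : ∃ z : Z, z ∉ X₁ := by
    by_contra h
    push Not at h
    have h1 : X₁ = ⊤ := by
      rw [eq_top_iff]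
      intro x _
      exact h x
    have h2 := wy.idx
    rw [h1, Subgroup.index_top] at h2
    exact hp.one_lt.ne h2
  have hC := hc_comap f hf X₁ N₀ hz
  -- the map to the quotient
  let φ : ↥(X₁.comap f) →* (X₁ ⧸ (HC X₁ N₀).subgroupOf X₁) :=
    (QuotientGroup.mk' ((HC X₁ N₀).subgroupOf X₁)).comp (f.subgroupComap X₁)
  have hφs : Function.Surjective φ := by
    intro q
    obtain ⟨x, rfl⟩ := QuotientGroup.mk'_surjective ((HC X₁ N₀).subgroupOf X₁) q
    obtain ⟨y, hy⟩ := hf (x : Z)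
    refine ⟨⟨y, ?_⟩, ?_⟩
    · show f y ∈ X₁
      rw [hy]
      exact x.2
    · show QuotientGroup.mk' ((HC X₁ N₀).subgroupOf X₁) _ = _
      congr 1
      exact Subtype.ext hy
  have hker : φ.ker = (HC (X₁.comap f) (N₀.comap f)).subgroupOf (X₁.comap f) := by
    ext x
    rw [MonoidHom.mem_ker]
    show QuotientGroup.mk' ((HC X₁ N₀).subgroupOf X₁) (f.subgroupComap X₁ x) = 1 ↔ _
    rw [← MonoidHom.mem_ker, QuotientGroup.ker_mk', Subgroup.mem_subgroupOf, Subgroup.mem_subgroupOf,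
      hC]
    rfl
  have e1 : (↥(X₁.comap f) ⧸ φ.ker) ≃* (X₁ ⧸ (HC X₁ N₀).subgroupOf X₁) :=
    QuotientGroup.quotientKerEquivOfSurjective φ hφs
  have e2 : (↥(X₁.comap f) ⧸ φ.ker) ≃*
      (↥(X₁.comap f) ⧸ (HC (X₁.comap f) (N₀.comap f)).subgroupOf (X₁.comap f)) :=
    QuotientGroup.quotientMulEquivOfEq hker
  exact (hISO p b (e1.symm.trans e2)).2.2 hG

end Pool.Agent.Lib.MP_1aae89_al.W5
end

section
/-!
# Module IR1: restriction to a normal subgroup of index `p`
-/
set_option autoImplicit false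

namespace Pool.Agent.Lib.MP_1aae89_al.W5

open Pool.Agent.Lib.MP_1aae89_al Pool.Agent.Lib.MP_1aae89_al.BF Pool.Agent.Lib.MP_1aae89_al.W3
  Pool.Agent.Lib.MP_1aae89_al.W4 Finset
open Pool.Agent.Lib.MP1aae89 (Pex)

namespace IR1

/-- the twist of a representation by a linear character -/
noncomputable def tw {Y : Type} [Group Y] {n : ℕ} (l : Y →* ℂˣ)
    (r : Y →* Matrix (Fin n) (Fin n) ℂ) : Y →* Matrix (Fin n) (Fin n) ℂ where
  toFun g := ((l g : ℂˣ) : ℂ) • r g
  map_one' := by rw [map_one, map_one, Units.val_one, one_smul]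
  map_mul' a b := by
    rw [map_mul, map_mul, Units.val_mul, Matrix.smul_mul, Matrix.mul_smul, smul_smul]

theorem tw_sch {Y : Type} [Group Y] {n : ℕ} (l : Y →* ℂˣ)
    {r : Y →* Matrix (Fin n) (Fin n) ℂ} (h : Sch r) : Sch (tw l r) := by
  intro T hT
  refine h T fun g => ?_
  have h1 := hT g
  change T * (((l g : ℂˣ) : ℂ) • r g) = (((l g : ℂˣ) : ℂ) • r g) * T at h1
  rw [Matrix.mul_smul, Matrix.smul_mul] at h1
  have h2 := congrArg (fun A => (((l g)⁻¹ : ℂˣ) : ℂ) • A) h1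
  simpa [smul_smul] using h2

/-- a linear character with values `1` on `Y₁` and `≠ 1` at `x` -/
theorem exists_lin {p : ℕ} (hp : p.Prime) {Y : Type} [Group Y] [Finite Y] (Y₁ : Subgroup Y)
    [Y₁.Normal] (hi : Y₁.index = p) {x : Y} (hx : x ∉ Y₁) :
    ∃ l : Y →* ℂˣ, (∀ y ∈ Y₁, l y = 1) ∧ l x ≠ 1 := by
  have hfact : Fact p.Prime := ⟨hp⟩
  have hcard : Nat.card (Y ⧸ Y₁) = p := by
    rw [← Subgroup.index_eq_card]
    exact hi
  have hcyc : IsCyclic (Y ⧸ Y₁) := isCyclic_of_prime_card hcard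
  let _ : CommGroup (Y ⧸ Y₁) := IsCyclic.commGroup
  have hx1 : (QuotientGroup.mk' Y₁ x) ≠ 1 := by
    intro h
    exact hx ((QuotientGroup.eq_one_iff x).1 h)
  obtain ⟨φ, hφ⟩ := CommGroup.exists_apply_ne_one_of_hasEnoughRootsOfUnity (Y ⧸ Y₁) ℂ hx1
  refine ⟨φ.comp (QuotientGroup.mk' Y₁), fun y hy => ?_, hφ⟩
  have : QuotientGroup.mk' Y₁ y = 1 := (QuotientGroup.eq_one_iff y).2 hy
  rw [MonoidHom.comp_apply, this, map_one]

end IR1

open IR1 in
theorem specIR1 : SpecIR1 := by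
  classical
  intro p hp Y _ _ Y₁ _ hidx n r hr hn T hT
  have hfact : Fact p.Prime := ⟨hp⟩
  have : Fintype Y := Fintype.ofFinite Y
  have hn0 : n ≠ 0 := by
    rintro rfl
    exact hn (dvd_zero p)
  -- the element `x`
  obtain ⟨x, k, hxk, hx⟩ : ∃ (x : Y) (k : ℕ), x ^ p ^ k = 1 ∧ x ∉ Y₁ := by
    obtain ⟨P⟩ : Nonempty (Sylow p Y) := inferInstance
    by_contra hcon
    push Not at hcon
    have hle : (P : Subgroup Y) ≤ Y₁ := by
      intro y hy
      obtain ⟨k, hk⟩ := P.2 ⟨y, hy⟩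
      exact hcon y k (congrArg Subtype.val hk)
    have h1 := Subgroup.index_dvd_of_le hle
    rw [hidx] at h1
    exact P.not_dvd_index h1
  have htr : (r x).trace ≠ 0 := by
    intro h0
    refine hn (W.specNVZ p hp (fun y => (r y).trace) ⟨n, r, fun _ => rfl⟩ x k hxk h0 n ?_)
    rw [map_one, Matrix.trace_one, Fintype.card_fin]
  obtain ⟨l, hl1, hlx⟩ := exists_lin hp Y₁ hidx hx
  have hxp : x ^ p ∈ Y₁ := by
    have h1 : (QuotientGroup.mk' Y₁ x) ^ p = 1 := by
      have h2 : Nat.card (Y ⧸ Y₁) = p := by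
        rw [← Subgroup.index_eq_card]
        exact hidx
      rw [← h2]
      exact pow_card_eq_one'
    rw [← map_pow] at h1
    exact (QuotientGroup.eq_one_iff _).1 h1
  have hlp : (l x) ^ p = 1 := by rw [← map_pow, hl1 _ hxp]
  have hord : orderOf (l x) = p := orderOf_eq_prime hlp hlx
  -- every element is `x ^ i * y`
  have hdec : ∀ g : Y, ∃ (i : ℕ) (y : Y), y ∈ Y₁ ∧ g = x ^ i * y := by
    intro g
    have hcard : Nat.card (Y ⧸ Y₁) = p := by
      rw [← Subgroup.index_eq_card]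
      exact hidx
    have hx1 : (QuotientGroup.mk' Y₁ x) ≠ 1 := by
      intro h
      exact hx ((QuotientGroup.eq_one_iff x).1 h)
    have h2 : QuotientGroup.mk' Y₁ g ∈ Submonoid.powers (QuotientGroup.mk' Y₁ x) :=
      mem_powers_of_prime_card hcard hx1
    obtain ⟨i, hi⟩ := h2
    refine ⟨i, (x ^ i)⁻¹ * g, ?_, by group⟩
    have h3 : QuotientGroup.mk' Y₁ ((x ^ i)⁻¹ * g) = 1 := by
      rw [map_mul, map_inv, map_pow]
      simp only at hi
      rw [hi, inv_mul_cancel]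
    exact (QuotientGroup.eq_one_iff _).1 h3
  have hinv : ∀ g : Y, r g * r g⁻¹ = 1 := fun g => by rw [← map_mul, mul_inv_cancel, map_one]
  have hinv' : ∀ g : Y, r g⁻¹ * r g = 1 := fun g => by rw [← map_mul, inv_mul_cancel, map_one]
  set w : ℂ := (((l x)⁻¹ : ℂˣ) : ℂ) with hw
  set cT : ℕ → Matrix (Fin n) (Fin n) ℂ := fun i => r (x ^ i) * T * r (x ^ i)⁻¹ with hcT
  have hcT0 : cT 0 = T := by
    rw [hcT]
    simp
  have hcTp : cT p = T := by
    have h1 := hT ⟨x ^ p, hxp⟩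
    change T * r (x ^ p) = r (x ^ p) * T at h1
    show r (x ^ p) * T * r (x ^ p)⁻¹ = T
    rw [← h1, mul_assoc, hinv, mul_one]
  have hcTs : ∀ i, r x * cT i = cT (i + 1) * r x := by
    intro i
    show r x * (r (x ^ i) * T * r (x ^ i)⁻¹) = r (x ^ (i + 1)) * T * r (x ^ (i + 1))⁻¹ * r x
    have h1 : r (x ^ (i + 1)) = r x * r (x ^ i) := by rw [← map_mul, pow_succ']
    have h2 : r (x ^ (i + 1))⁻¹ * r x = r (x ^ i)⁻¹ := by
      rw [← map_mul, pow_succ', mul_inv_rev, inv_mul_cancel_right]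
    rw [mul_assoc (r (x ^ (i + 1)) * T), h2, h1]
    simp only [mul_assoc]
  have hcTy : ∀ i, ∀ y ∈ Y₁, r y * cT i = cT i * r y := by
    intro i y hy
    have h1 : (x ^ i)⁻¹ * y * x ^ i ∈ Y₁ := by
      have := (inferInstance : Y₁.Normal).conj_mem y hy (x ^ i)⁻¹
      rwa [inv_inv] at this
    have h2 := hT ⟨_, h1⟩
    change T * r ((x ^ i)⁻¹ * y * x ^ i) = r ((x ^ i)⁻¹ * y * x ^ i) * T at h2
    show r y * (r (x ^ i) * T * r (x ^ i)⁻¹) = r (x ^ i) * T * r (x ^ i)⁻¹ * r y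
    have h3 : r y * r (x ^ i) = r (x ^ i) * r ((x ^ i)⁻¹ * y * x ^ i) := by
      rw [← map_mul, ← map_mul]
      congr 1
      group
    have h4 : r ((x ^ i)⁻¹ * y * x ^ i) * r (x ^ i)⁻¹ = r (x ^ i)⁻¹ * r y := by
      rw [← map_mul, ← map_mul]
      congr 1
      group
    calc r y * (r (x ^ i) * T * r (x ^ i)⁻¹) = r y * r (x ^ i) * T * r (x ^ i)⁻¹ := by
          simp only [mul_assoc]
      _ = r (x ^ i) * (r ((x ^ i)⁻¹ * y * x ^ i) * T) * r (x ^ i)⁻¹ := by
          rw [h3]; simp only [mul_assoc]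
      _ = r (x ^ i) * T * (r ((x ^ i)⁻¹ * y * x ^ i) * r (x ^ i)⁻¹) := by
          rw [← h2]; simp only [mul_assoc]
      _ = r (x ^ i) * T * r (x ^ i)⁻¹ * r y := by
          rw [h4]; simp only [mul_assoc]
  set Tj : ℕ → Matrix (Fin n) (Fin n) ℂ := fun j => ∑ i ∈ range p, w ^ (i * j) • cT i with hTj
  have hTy : ∀ j, ∀ y ∈ Y₁, r y * Tj j = Tj j * r y := by
    intro j y hy
    rw [hTj]
    simp only
    rw [mul_sum, sum_mul]
    refine sum_congr rfl fun i _ => ?_
    rw [mul_smul_comm, smul_mul_assoc, hcTy i y hy]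
  have hwp : w ^ p = 1 := by
    rw [hw, ← Units.val_pow_eq_pow_val, inv_pow, hlp, inv_one, Units.val_one]
  have hTx : ∀ j, w ^ j • (r x * Tj j) = Tj j * r x := by
    intro j
    have h1 : w ^ j • (r x * Tj j) = ∑ i ∈ range p, w ^ ((i + 1) * j) • (cT (i + 1) * r x) := by
      rw [hTj]
      simp only
      rw [mul_sum, smul_sum]
      refine sum_congr rfl fun i _ => ?_
      rw [mul_smul_comm, smul_smul, hcTs, ← pow_add]
      congr 2
      ring
    have h2 : ∑ i ∈ range p, w ^ ((i + 1) * j) • (cT (i + 1) * r x) =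
        ∑ i ∈ range p, w ^ (i * j) • (cT i * r x) := by
      have h3 := sum_range_succ (fun i => w ^ (i * j) • (cT i * r x)) p
      have h4 := sum_range_succ' (fun i => w ^ (i * j) • (cT i * r x)) p
      rw [h3] at h4
      have h5 : w ^ (p * j) • (cT p * r x) = w ^ (0 * j) • (cT 0 * r x) := by
        rw [hcTp, hcT0, pow_mul, hwp, one_pow, zero_mul, pow_zero]
      rw [h5] at h4
      exact (add_right_cancel h4).symm
    rw [h1, h2, hTj]
    simp only
    rw [sum_mul]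
    refine sum_congr rfl fun i _ => ?_
    rw [smul_mul_assoc]
  -- the intertwining relation
  have hint : ∀ j (g : Y), (tw ((l⁻¹) ^ j) r) g * Tj j = Tj j * r g := by
    intro j
    have hmul : ∀ a b : Y, (tw ((l⁻¹) ^ j) r) a * Tj j = Tj j * r a →
        (tw ((l⁻¹) ^ j) r) b * Tj j = Tj j * r b →
        (tw ((l⁻¹) ^ j) r) (a * b) * Tj j = Tj j * r (a * b) := by
      intro a b ha hb
      rw [map_mul, map_mul, mul_assoc, hb, ← mul_assoc, ha, mul_assoc]
    have hxx : (tw ((l⁻¹) ^ j) r) x * Tj j = Tj j * r x := by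
      show ((((l⁻¹) ^ j) x : ℂˣ) : ℂ) • r x * Tj j = Tj j * r x
      rw [smul_mul_assoc, ← hTx j]
      congr 1
    have hyy : ∀ y ∈ Y₁, (tw ((l⁻¹) ^ j) r) y * Tj j = Tj j * r y := by
      intro y hy
      show ((((l⁻¹) ^ j) y : ℂˣ) : ℂ) • r y * Tj j = Tj j * r y
      rw [smul_mul_assoc, MonoidHom.pow_apply, MonoidHom.inv_apply, hl1 y hy, inv_one, one_pow,
        Units.val_one, one_smul, hTy j y hy]
    have hpow : ∀ i : ℕ, (tw ((l⁻¹) ^ j) r) (x ^ i) * Tj j = Tj j * r (x ^ i) := by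
      intro i
      induction i with
      | zero => rw [pow_zero, map_one, map_one, one_mul, mul_one]
      | succ i ih =>
        rw [pow_succ]
        exact hmul _ _ ih hxx
    intro g
    obtain ⟨i, y, hy, rfl⟩ := hdec g
    exact hmul _ _ (hpow i) (hyy y hy)
  have hzero : ∀ j, 0 < j → j < p → Tj j = 0 := by
    intro j hj0 hjp
    by_contra hne
    have h1 : ∃ a b, Tj j a b ≠ 0 := by
      by_contra hall
      push Not at hall
      exact hne (Matrix.ext hall)
    obtain ⟨a, b, hab⟩ := h1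
    have h2 := W.ort_aux hr (tw_sch ((l⁻¹) ^ j) hr) hn0 hn0 (Tj j) (hint j) a b hab x
    have h3 : ((tw ((l⁻¹) ^ j) r) x).trace = w ^ j * (r x).trace := by
      show (((((l⁻¹) ^ j) x : ℂˣ) : ℂ) • r x).trace = w ^ j * (r x).trace
      rw [Matrix.trace_smul, smul_eq_mul, MonoidHom.pow_apply, MonoidHom.inv_apply,
        Units.val_pow_eq_pow_val]
    rw [h3] at h2
    have h4 : w ^ j = 1 := by
      have h5 : w ^ j * (r x).trace = 1 * (r x).trace := by rw [h2, one_mul]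
      exact mul_right_cancel₀ htr h5
    have h5 : ((l x)⁻¹) ^ j = 1 := by
      apply Units.ext
      rw [Units.val_pow_eq_pow_val, Units.val_one]
      exact h4
    rw [inv_pow, inv_eq_one] at h5
    have h6 := orderOf_dvd_of_pow_eq_one h5
    rw [hord] at h6
    exact absurd (Nat.le_of_dvd hj0 h6) (by omega)
  -- the sum
  have hp0 : (p : ℂ) ≠ 0 := by exact_mod_cast hp.ne_zero
  have hsum : ∑ j ∈ range p, Tj j = (p : ℂ) • T := by
    rw [hTj]
    simp only
    rw [sum_comm]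
    have h1 : ∀ i ∈ range p, (∑ j ∈ range p, w ^ (i * j) • cT i) =
        if i = 0 then (p : ℂ) • T else 0 := by
      intro i hi
      rw [← sum_smul]
      split_ifs with h0
      · subst h0
        rw [hcT0]
        simp
      · have h2 : w ^ i ≠ 1 := by
          intro h3
          have h5 : ((l x)⁻¹) ^ i = 1 := by
            apply Units.ext
            rw [Units.val_pow_eq_pow_val, Units.val_one]
            exact h3
          rw [inv_pow, inv_eq_one] at h5
          have h6 := orderOf_dvd_of_pow_eq_one h5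
          rw [hord] at h6
          exact absurd (Nat.le_of_dvd (Nat.pos_of_ne_zero h0) h6) (by have := mem_range.1 hi; omega)
        have h3 : ∑ j ∈ range p, w ^ (i * j) = 0 := by
          have h4 : ∀ j ∈ range p, w ^ (i * j) = (w ^ i) ^ j := fun j _ => pow_mul w i j
          rw [sum_congr rfl h4]
          have h5 := mul_geom_sum (w ^ i) p
          rw [← pow_mul, mul_comm i p, pow_mul, hwp, one_pow, sub_self] at h5
          exact (mul_eq_zero.1 h5).resolve_left (sub_ne_zero.2 h2)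
        rw [h3, zero_smul]
    rw [sum_congr rfl h1, sum_ite_eq' (range p) 0]
    rw [if_pos (mem_range.2 hp.pos)]
  have hT0 : Tj 0 = (p : ℂ) • T := by
    rw [← hsum]
    refine (sum_eq_single 0 (fun j hj hj0 => ?_) fun h => ?_).symm
    · exact hzero j (Nat.pos_of_ne_zero hj0) (mem_range.1 hj)
    · exact absurd (mem_range.2 hp.pos) h
  have hcomm : ∀ g, T * r g = r g * T := by
    intro g
    have h1 := hint 0 g
    rw [hT0] at h1
    have h2 : (tw ((l⁻¹) ^ 0) r) g = r g := by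
      show ((((l⁻¹) ^ 0) g : ℂˣ) : ℂ) • r g = r g
      rw [MonoidHom.pow_apply, pow_zero, Units.val_one, one_smul]
    rw [h2, mul_smul_comm, smul_mul_assoc] at h1
    exact (smul_right_injective _ hp0 h1).symm
  exact hr T hcomm

end Pool.Agent.Lib.MP_1aae89_al.W5
end

section
/-!
# Module IRH: restriction to a normal subgroup with a `p`-group as quotient
-/
set_option autoImplicit false

namespace Pool.Agent.Lib.MP_1aae89_al.W5

open Pool.Agent.Lib.MP_1aae89_al Pool.Agent.Lib.MP_1aae89_al.BF Pool.Agent.Lib.MP_1aae89_al.W3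
  Pool.Agent.Lib.MP_1aae89_al.W4 Finset

theorem specIRH (hIR1 : SpecIR1) : SpecIRH := by
  intro p hp
  have hfact : Fact p.Prime := ⟨hp⟩
  suffices H : ∀ k : ℕ, ∀ {Y : Type} [Group Y] [Finite Y], Nat.card Y = k → ∀ (N : Subgroup Y)
      [N.Normal], (∀ y : Y, ∃ j : ℕ, y ^ p ^ j ∈ N) → ∀ (n : ℕ)
      (r : Y →* Matrix (Fin n) (Fin n) ℂ), Sch r → ¬ p ∣ n → Sch (r.comp N.subtype) by
    intro Y _ _ N _ hN n r hr hn
    exact H _ rfl N hN n r hr hn
  intro k
  induction k using Nat.strong_induction_on with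
  | _ k ih =>
    intro Y _ _ hk N _ hN n r hr hn
    by_cases htop : N = ⊤
    · intro T hT
      exact hr T fun g => hT ⟨g, by rw [htop]; exact Subgroup.mem_top g⟩
    · have hpg : IsPGroup p (Y ⧸ N) := by
        intro z
        obtain ⟨y, rfl⟩ := QuotientGroup.mk_surjective z
        obtain ⟨j, hj⟩ := hN y
        exact ⟨j, by rw [← QuotientGroup.mk_pow, QuotientGroup.eq_one_iff]; exact hj⟩
      obtain ⟨e, he⟩ := IsPGroup.iff_card.1 hpg
      have hbot : (⊥ : Subgroup (Y ⧸ N)) ≠ ⊤ := by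
        intro h
        apply htop
        rw [Subgroup.eq_top_iff']
        intro y
        have h1 : (QuotientGroup.mk y : Y ⧸ N) ∈ (⊥ : Subgroup (Y ⧸ N)) := by
          rw [h]; exact Subgroup.mem_top _
        rw [Subgroup.mem_bot, QuotientGroup.eq_one_iff] at h1
        exact h1
      have hfin : Fintype (Y ⧸ N) := Fintype.ofFinite _
      obtain ⟨R, hRn, hRi, -⟩ := exists_normal he ⊥ hbot
      set Y₁ : Subgroup Y := R.comap (QuotientGroup.mk' N) with hY₁
      have hY₁n : Y₁.Normal := hRn.comap _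
      have hidx : Y₁.index = p := by
        rw [hY₁, Subgroup.index_comap_of_surjective _ (QuotientGroup.mk'_surjective N), hRi]
      have hNY : N ≤ Y₁ := by
        intro y hy
        show QuotientGroup.mk' N y ∈ R
        have h1 : QuotientGroup.mk' N y = 1 := (QuotientGroup.eq_one_iff y).2 hy
        rw [h1]
        exact R.one_mem
      have h1 := hIR1 p hp Y₁ hidx n r hr hn
      have hlt : Nat.card Y₁ < k := by
        have h2 := Y₁.card_mul_index
        rw [hidx, hk] at h2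
        have h3 : 0 < Nat.card Y₁ := Nat.card_pos
        have h4 := hp.two_le
        nlinarith
      have h2 := ih _ hlt rfl (N.subgroupOf Y₁) (fun y => by
        obtain ⟨j, hj⟩ := hN y
        exact ⟨j, hj⟩) n (r.comp Y₁.subtype) h1 hn
      intro T hT
      exact h2 T fun g => hT ⟨g.1.1, g.2⟩

end Pool.Agent.Lib.MP_1aae89_al.W5
end

section
/-!
# K4I: invariance of `CC4` under isomorphisms
-/
set_option autoImplicit false

namespace Pool.Agent.Lib.MP_1aae89_al.W5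

open Pool.Agent.Lib.MP_1aae89_al Pool.Agent.Lib.MP_1aae89_al.BF Pool.Agent.Lib.MP_1aae89_al.W3
  Pool.Agent.Lib.MP_1aae89_al.W4 Finset

theorem specK4I (hCCI : SpecCCI) (hC4I : SpecC4I) : SpecK4I := by
  intro p b X Y _ _ _ _ e h
  rcases h with h | ⟨h1, h2⟩
  · exact Or.inl (hCCI p b e h)
  · refine Or.inr ⟨fun R hR => ?_, hC4I p b e h2⟩
    have h3 : (R.comap e.toMonoidHom).Normal := hR.comap _
    rcases h1 _ h3 with h4 | h4
    · left
      rw [eq_bot_iff]
      intro x hx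
      have h5 : e.symm x ∈ R.comap e.toMonoidHom := by
        change e (e.symm x) ∈ R
        rwa [e.apply_symm_apply]
      rw [h4, Subgroup.mem_bot] at h5
      rw [Subgroup.mem_bot]
      rwa [map_eq_one_iff e.symm e.symm.injective] at h5
    · right
      rw [eq_top_iff]
      intro x _
      have h5 : e.symm x ∈ R.comap e.toMonoidHom := by
        rw [h4]
        exact Subgroup.mem_top _
      have h6 : e (e.symm x) ∈ R := h5
      rwa [e.apply_symm_apply] at h6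

end Pool.Agent.Lib.MP_1aae89_al.W5
end

section
/-!
# Module K4N: `CC4` for normal subgroups
-/
set_option autoImplicit false

namespace Pool.Agent.Lib.MP_1aae89_al.W5

namespace K4NM

/-- a trivial group satisfies `CC` -/
theorem cc_triv (p b : ℕ) {X : Type} [Group X] [Finite X] (h : Subsingleton X) : CC p b X :=
  Or.inl ⟨0, by rw [pow_zero]; exact Nat.card_eq_one_iff_unique.2 ⟨h, ⟨1⟩⟩⟩

end K4NM

theorem specK4N (hCCN : SpecCCN) (hK4I : SpecK4I) : SpecK4N := by
  intro p b hp X _ _ N _ h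
  rcases h with h | ⟨hs, hc⟩
  · exact Or.inl (hCCN p b hp N h)
  · rcases hs N inferInstance with rfl | rfl
    · exact Or.inl (K4NM.cc_triv p b inferInstance)
    · exact hK4I p b (Subgroup.topEquiv (G := X)).symm (Or.inr ⟨hs, hc⟩)

end Pool.Agent.Lib.MP_1aae89_al.W5
end

section
/-!
# Module K4Q: `CC4` for factor groups
-/
set_option autoImplicit false

namespace Pool.Agent.Lib.MP_1aae89_al.W5

theorem specK4Q (hCCQ : SpecCCQ) (hK4I : SpecK4I) : SpecK4Q := by
  intro p b hp X _ _ N _ h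
  rcases h with h | ⟨hs, hc⟩
  · exact Or.inl (hCCQ p b hp N h)
  · rcases hs N inferInstance with rfl | rfl
    · exact hK4I p b (QuotientGroup.quotientBot (G := X)).symm (Or.inr ⟨hs, hc⟩)
    · exact Or.inl (K4NM.cc_triv p b QuotientGroup.subsingleton_quotient_top)

end Pool.Agent.Lib.MP_1aae89_al.W5
end

section
/-!
# PRD: elementary facts on `WY`
-/
set_option autoImplicit false

namespace Pool.Agent.Lib.MP_1aae89_al.W5

open Pool.Agent.Lib.MP_1aae89_al Pool.Agent.Lib.MP_1aae89_al.BF Pool.Agent.Lib.MP_1aae89_al.W3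
  Pool.Agent.Lib.MP_1aae89_al.W4 Finset

namespace PRD

variable {Y : Type} [Group Y]

/-- products of commuting families -/
theorem prod_mul (a b : ℕ → Y) (k : ℕ) (h : ∀ i < k, ∀ j < k, i ≠ j → Commute (a i) (b j)) :
    ((List.range k).map fun i => a i * b i).prod =
      ((List.range k).map a).prod * ((List.range k).map b).prod := by
  induction k with
  | zero => simp
  | succ k ih =>
    have ih' := ih fun i hi j hj hij => h i (Nat.lt_succ_of_lt hi) j (Nat.lt_succ_of_lt hj) hij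
    have hc : Commute (a k) ((List.range k).map b).prod := by
      apply Commute.list_prod_right
      intro x hx
      obtain ⟨j, hj, rfl⟩ := List.mem_map.1 hx
      have hj' : j < k := List.mem_range.1 hj
      exact h k (Nat.lt_succ_self k) j (Nat.lt_succ_of_lt hj') (ne_of_gt hj')
    rw [List.range_succ, List.map_append, List.map_append, List.map_append, List.prod_append,
      List.prod_append, List.prod_append, ih']
    simp only [List.map_cons, List.map_nil, List.prod_cons, List.prod_nil, mul_one]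
    calc _ = ((List.range k).map a).prod * (((List.range k).map b).prod * a k) * b k := by
          simp only [mul_assoc]
      _ = ((List.range k).map a).prod * (a k * ((List.range k).map b).prod) * b k := by
          rw [hc.eq]
      _ = _ := by simp only [mul_assoc]

/-- a product with one nontrivial factor -/
theorem prod_single (k i : ℕ) (hi : i < k) (F : ℕ → Y) (h : ∀ j, j ≠ i → F j = 1) :
    ((List.range k).map F).prod = F i := by
  induction k with
  | zero => omega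
  | succ k ih =>
    rw [List.range_succ, List.map_append, List.prod_append]
    simp only [List.map_cons, List.map_nil, List.prod_cons, List.prod_nil, mul_one]
    by_cases hk : i = k
    · subst hk
      have h1 : ((List.range i).map F).prod = 1 := by
        apply List.prod_eq_one
        intro x hx
        obtain ⟨j, hj, rfl⟩ := List.mem_map.1 hx
        exact h j (ne_of_lt (List.mem_range.1 hj))
      rw [h1, one_mul]
    · rw [ih (by omega), h k (fun e => hk e.symm), mul_one]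

section cosets

variable {p : ℕ} (hp : p.Prime) (Y₁ : Subgroup Y) [Y₁.Normal] (hi : Y₁.index = p) {τ : Y}
  (ht : τ ∉ Y₁)
include hp hi ht

theorem ord : orderOf (τ : Y ⧸ Y₁) = p := by
  have := Fact.mk hp
  have hc : Nat.card (Y ⧸ Y₁) = p := hi
  apply orderOf_eq_prime
  · rw [← hc]; exact pow_card_eq_one'
  · intro h
    exact ht ((QuotientGroup.eq_one_iff τ).1 h)

theorem rep (z : Y) : ∃ i < p, (τ ^ i)⁻¹ * z ∈ Y₁ := by
  have := Fact.mk hp
  have hc : Nat.card (Y ⧸ Y₁) = p := hi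
  have : Finite (Y ⧸ Y₁) := Nat.finite_of_card_ne_zero (by rw [hc]; exact hp.ne_zero)
  have h1 : (z : Y ⧸ Y₁) ∈ Submonoid.powers (τ : Y ⧸ Y₁) := by
    apply mem_powers_of_prime_card hc
    intro h
    exact ht ((QuotientGroup.eq_one_iff τ).1 h)
  obtain ⟨i, hi'⟩ := h1
  refine ⟨i % p, Nat.mod_lt _ hp.pos, ?_⟩
  have h2 : (τ : Y ⧸ Y₁) ^ (i % p) = (z : Y ⧸ Y₁) := by
    rw [← hi', ← ord hp Y₁ hi ht]
    exact pow_mod_orderOf _ _
  rw [← QuotientGroup.eq, ← h2]
  rfl

theorem ne {i j : ℕ} (h1 : i < p) (h2 : j < p) (hij : i ≠ j) : (τ ^ i)⁻¹ * τ ^ j ∉ Y₁ := by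
  intro h
  rw [← QuotientGroup.eq] at h
  apply hij
  have h3 : (τ : Y ⧸ Y₁) ^ i = (τ : Y ⧸ Y₁) ^ j := h
  apply pow_injOn_Iio_orderOf _ _ h3
  · rw [ord hp Y₁ hi ht]; exact h1
  · rw [ord hp Y₁ hi ht]; exact h2

end cosets

/-- the conjugates commute -/
theorem comm {p : ℕ} (hp : p.Prime) (Y₁ H₀ : Subgroup Y) [Y₁.Normal] (h : WY p Y₁ H₀) {τ : Y}
    (ht : τ ∉ Y₁) {i j : ℕ} (h1 : i < p) (h2 : j < p) (hij : i ≠ j) {x y : Y} (hx : x ∈ H₀)
    (hy : y ∈ H₀) : Commute (τ ^ i * x * (τ ^ i)⁻¹) (τ ^ j * y * (τ ^ j)⁻¹) := by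
  have h3 := h.com _ (ne hp Y₁ h.idx ht h1 h2 hij) x hx y hy
  have h4 : Commute x (((τ ^ i)⁻¹ * τ ^ j) * y * ((τ ^ i)⁻¹ * τ ^ j)⁻¹) := h3
  have h5 := h4.map (MulAut.conj (τ ^ i)).toMonoidHom
  have e1 : (MulAut.conj (τ ^ i)).toMonoidHom x = τ ^ i * x * (τ ^ i)⁻¹ := rfl
  have e2 : (MulAut.conj (τ ^ i)).toMonoidHom (((τ ^ i)⁻¹ * τ ^ j) * y * ((τ ^ i)⁻¹ * τ ^ j)⁻¹) =
      τ ^ j * y * (τ ^ j)⁻¹ := by
    show τ ^ i * (((τ ^ i)⁻¹ * τ ^ j) * y * ((τ ^ i)⁻¹ * τ ^ j)⁻¹) * (τ ^ i)⁻¹ = _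
    group
  rw [e1, e2] at h5
  exact h5

/-- the subgroup of the products -/
theorem repN {p : ℕ} (hp : p.Prime) (Y₁ H₀ : Subgroup Y) [Y₁.Normal] (h : WY p Y₁ H₀) {τ : Y}
    (ht : τ ∉ Y₁) (y : Y) (hy : y ∈ Subgroup.normalClosure (H₀ : Set Y)) :
    ∃ g : ℕ → Y, (∀ i, g i ∈ H₀) ∧
      y = ((List.range p).map fun i => τ ^ i * g i * (τ ^ i)⁻¹).prod := by
  have hmul : ∀ g g' : ℕ → Y, (∀ i, g i ∈ H₀) → (∀ i, g' i ∈ H₀) →
      ((List.range p).map fun i => τ ^ i * (g i * g' i) * (τ ^ i)⁻¹).prod =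
      ((List.range p).map fun i => τ ^ i * g i * (τ ^ i)⁻¹).prod *
      ((List.range p).map fun i => τ ^ i * g' i * (τ ^ i)⁻¹).prod := by
    intro g g' hg hg'
    rw [← prod_mul _ _ p fun i hi j hj hij => comm hp Y₁ H₀ h ht hi hj hij (hg i) (hg' j)]
    congr 1
    apply List.map_congr_left
    intro i _
    group
  refine Subgroup.closure_induction
    (p := fun y _ => ∃ g : ℕ → Y, (∀ i, g i ∈ H₀) ∧
      y = ((List.range p).map fun i => τ ^ i * g i * (τ ^ i)⁻¹).prod) ?_ ?_ ?_ ?_ hy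
  · intro x hx
    rw [Group.mem_conjugatesOfSet_iff] at hx
    obtain ⟨a, ha, hax⟩ := hx
    obtain ⟨z, hz⟩ := isConj_iff.1 hax
    obtain ⟨i, hi, hzi⟩ := rep hp Y₁ h.idx ht z
    refine ⟨fun j => if j = i then ((τ ^ i)⁻¹ * z) * a * ((τ ^ i)⁻¹ * z)⁻¹ else 1, ?_, ?_⟩
    · intro j
      dsimp only
      split_ifs
      · exact h.n0 _ hzi a ha
      · exact H₀.one_mem
    · rw [prod_single p i hi]
      · simp only [if_true]
        rw [← hz]
        group
      · intro j hj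
        simp only [if_neg hj, mul_one, mul_inv_cancel]
  · refine ⟨fun _ => 1, fun _ => H₀.one_mem, ?_⟩
    symm
    apply List.prod_eq_one
    intro x hx
    obtain ⟨j, _, rfl⟩ := List.mem_map.1 hx
    simp
  · rintro x y _ _ ⟨g, hg, rfl⟩ ⟨g', hg', rfl⟩
    exact ⟨fun i => g i * g' i, fun i => H₀.mul_mem (hg i) (hg' i), (hmul g g' hg hg').symm⟩
  · rintro x _ ⟨g, hg, rfl⟩
    refine ⟨fun i => (g i)⁻¹, fun i => H₀.inv_mem (hg i), ?_⟩
    rw [inv_eq_iff_mul_eq_one, ← hmul g _ hg fun i => H₀.inv_mem (hg i)]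
    apply List.prod_eq_one
    intro x hx
    obtain ⟨j, _, rfl⟩ := List.mem_map.1 hx
    simp

end PRD

theorem specPRD : SpecPRD := by
  intro p hp Y _ _ Y₁ H₀ h
  have := h.norm
  have h1 : HC Y₁ H₀ ≤ Y₁ := by
    rw [HC, Subgroup.closure_le]
    rintro w ⟨z, _, y, hy, rfl⟩
    exact h.norm.conj_mem y (h.le hy) z
  have h2 : ∀ x ∈ Y₁, ∀ y ∈ HC Y₁ H₀, x * y * x⁻¹ ∈ HC Y₁ H₀ := by
    intro x hx y hy
    refine Subgroup.closure_induction (p := fun y _ => x * y * x⁻¹ ∈ HC Y₁ H₀) ?_ ?_ ?_ ?_ hy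
    · rintro w ⟨z, hz, y, hy, rfl⟩
      apply Subgroup.subset_closure
      refine ⟨x * z, fun h' => hz ?_, y, hy, by group⟩
      have := Y₁.mul_mem (Y₁.inv_mem hx) h'
      rwa [inv_mul_cancel_left] at this
    · simp
    · intro a b _ _ ha hb
      have := (HC Y₁ H₀).mul_mem ha hb
      rwa [show x * a * x⁻¹ * (x * b * x⁻¹) = x * (a * b) * x⁻¹ by group] at this
    · intro a _ ha
      have := (HC Y₁ H₀).inv_mem ha
      rwa [show (x * a * x⁻¹)⁻¹ = x * a⁻¹ * x⁻¹ by group] at this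
  have h3 : ∀ x ∈ H₀, ∀ y ∈ HC Y₁ H₀, x * y = y * x := by
    intro x hx y hy
    refine Subgroup.closure_induction (p := fun y _ => x * y = y * x) ?_ ?_ ?_ ?_ hy
    · rintro w ⟨z, hz, y, hy, rfl⟩
      exact h.com z hz x hx y hy
    · simp
    · intro a b _ _ ha hb
      have ha' : Commute x a := ha
      have hb' : Commute x b := hb
      exact (ha'.mul_right hb').eq
    · intro a _ ha
      have ha' : Commute x a := ha
      exact ha'.inv_right.eq
  have hHN : H₀ ≤ Subgroup.normalClosure (H₀ : Set Y) := Subgroup.subset_normalClosure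
  have hCN : HC Y₁ H₀ ≤ Subgroup.normalClosure (H₀ : Set Y) := by
    rw [HC, Subgroup.closure_le]
    rintro w ⟨z, _, y, hy, rfl⟩
    exact Subgroup.normalClosure_normal.conj_mem y (hHN hy) z
  have h5 : ∀ h ∈ Subgroup.normalClosure (H₀ : Set Y), ∃ x ∈ H₀, ∃ y ∈ HC Y₁ H₀, h = x * y := by
    intro y hy
    refine Subgroup.closure_induction
      (p := fun w _ => ∃ x ∈ H₀, ∃ y ∈ HC Y₁ H₀, w = x * y) ?_ ?_ ?_ ?_ hy
    · intro x hx
      rw [Group.mem_conjugatesOfSet_iff] at hx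
      obtain ⟨a, ha, hax⟩ := hx
      obtain ⟨z, hz⟩ := isConj_iff.1 hax
      by_cases hzY : z ∈ Y₁
      · refine ⟨x, ?_, 1, (HC Y₁ H₀).one_mem, (mul_one x).symm⟩
        rw [← hz]
        exact h.n0 z hzY a ha
      · refine ⟨1, H₀.one_mem, x, ?_, (one_mul x).symm⟩
        exact Subgroup.subset_closure ⟨z, hzY, a, ha, hz.symm⟩
    · exact ⟨1, H₀.one_mem, 1, (HC Y₁ H₀).one_mem, (one_mul 1).symm⟩
    · rintro _ _ _ _ ⟨x, hx, y, hy, rfl⟩ ⟨x', hx', y', hy', rfl⟩
      refine ⟨x * x', H₀.mul_mem hx hx', y * y', (HC Y₁ H₀).mul_mem hy hy', ?_⟩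
      calc x * y * (x' * y') = x * (y * x') * y' := by group
        _ = x * (x' * y) * y' := by rw [h3 x' hx' y hy]
        _ = _ := by group
    · rintro _ _ ⟨x, hx, y, hy, rfl⟩
      refine ⟨x⁻¹, H₀.inv_mem hx, y⁻¹, (HC Y₁ H₀).inv_mem hy, ?_⟩
      rw [mul_inv_rev, h3 _ (H₀.inv_mem hx) _ ((HC Y₁ H₀).inv_mem hy)]
  refine ⟨h1, h2, h3, le_antisymm ?_ (sup_le hHN hCN), h5, ?_, ?_⟩
  · intro w hw
    obtain ⟨x, hx, y, hy, rfl⟩ := h5 w hw
    exact Subgroup.mul_mem_sup hx hy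
  · exact Subgroup.normalClosure_le_normal h.le
  · intro τ ht y hy
    exact PRD.repN hp Y₁ H₀ h ht y hy

end Pool.Agent.Lib.MP_1aae89_al.W5
end

section
/-!
# Auxiliary facts for KEX, NIN
-/
set_option autoImplicit false

namespace Pool.Agent.Lib.MP_1aae89_al.W5

open Pool.Agent.Lib.MP_1aae89_al Pool.Agent.Lib.MP_1aae89_al.BF Pool.Agent.Lib.MP_1aae89_al.W3
  Pool.Agent.Lib.MP_1aae89_al.W4 Finset

namespace CT0

/-- a Sylow subgroup has index prime to `p` -/
theorem not_dvd_index {p : ℕ} (hp : p.Prime) {G : Type} [Group G] [Finite G] (P : Subgroup G)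
    (h : (Nat.card G).factorization p ≤ (Nat.card P).factorization p) : ¬ p ∣ P.index := by
  intro hd
  have h1 : Nat.card P * P.index = Nat.card G := P.card_mul_index
  have h2 : Nat.card P ≠ 0 := Nat.card_pos.ne'
  have h3 : P.index ≠ 0 := P.index_ne_zero_of_finite
  rw [← h1, Nat.factorization_mul h2 h3, Finsupp.add_apply] at h
  have h4 := hp.factorization_pos_of_dvd h3 hd
  omega

/-- `N P = G` if `G/N` is a `p`-group and the index of `P` is prime to `p` -/
theorem sup_top {p : ℕ} (hp : p.Prime) {G : Type} [Group G] [Finite G] (N P : Subgroup G)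
    [N.Normal] (hq : ∀ y : G, ∃ j : ℕ, y ^ p ^ j ∈ N) (hP : ¬ p ∣ P.index) : N ⊔ P = ⊤ := by
  have := Fact.mk hp
  have h1 : IsPGroup p (G ⧸ N) := by
    intro z
    obtain ⟨y, rfl⟩ := QuotientGroup.mk_surjective z
    obtain ⟨j, hj⟩ := hq y
    exact ⟨j, (QuotientGroup.eq_one_iff _).2 hj⟩
  obtain ⟨k, hk⟩ := IsPGroup.iff_card.1 h1
  have h2 : (N ⊔ P).index ∣ p ^ k := by
    have h3 : (N ⊔ P).index ∣ N.index := Subgroup.index_dvd_of_le le_sup_left
    have h4 : N.index = p ^ k := hk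
    rwa [h4] at h3
  have h5 : (N ⊔ P).index ∣ P.index := Subgroup.index_dvd_of_le le_sup_right
  obtain ⟨i, _, hi⟩ := (Nat.dvd_prime_pow hp).1 h2
  rw [← Subgroup.index_eq_one]
  rcases Nat.eq_zero_or_pos i with h0 | h0
  · rw [hi, h0, pow_zero]
  · exfalso
    apply hP
    refine Dvd.dvd.trans ?_ h5
    rw [hi]
    exact dvd_pow_self p h0.ne'

/-- `P ∩ Y₁` is a Sylow subgroup of `Y₁` -/
theorem fac_le {p : ℕ} (hp : p.Prime) {Y : Type} [Group Y] [Finite Y] (Y₁ P : Subgroup Y)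
    [Y₁.Normal] (hi : Y₁.index = p) (hP : Nat.card P = p ^ (Nat.card Y).factorization p) :
    (Nat.card Y₁).factorization p ≤ (Nat.card (Y₁.subgroupOf P)).factorization p := by
  have h1 : Nat.card Y₁ * Y₁.index = Nat.card Y := Y₁.card_mul_index
  have h2 : Nat.card (Y₁.subgroupOf P) * (Y₁.subgroupOf P).index = Nat.card P :=
    Subgroup.card_mul_index _
  have h3 : (Y₁.subgroupOf P).index ∣ p := by
    have := Subgroup.relIndex_dvd_index_of_normal Y₁ P
    rw [hi] at this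
    exact this
  have h4 : Nat.card Y₁ ≠ 0 := Nat.card_pos.ne'
  have h5 : Nat.card (Y₁.subgroupOf P) ≠ 0 := Nat.card_pos.ne'
  have h6 : (Y₁.subgroupOf P).index ≠ 0 := Subgroup.index_ne_zero_of_finite
  have h7 : (Nat.card Y).factorization p = (Nat.card Y₁).factorization p + 1 := by
    rw [← h1, hi, Nat.factorization_mul h4 hp.ne_zero, Finsupp.add_apply, hp.factorization_self]
  have h8 : (Nat.card P).factorization p = (Nat.card Y₁).factorization p + 1 := by
    rw [hP, hp.factorization_pow, Finsupp.single_eq_same, h7]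
  have h9 : (Nat.card (Y₁.subgroupOf P)).factorization p +
      ((Y₁.subgroupOf P).index).factorization p = (Nat.card Y₁).factorization p + 1 := by
    rw [← h8, ← h2, Nat.factorization_mul h5 h6, Finsupp.add_apply]
  have h10 : ((Y₁.subgroupOf P).index).factorization p ≤ 1 := by
    have := (Nat.factorization_le_iff_dvd h6 hp.ne_zero).2 h3 p
    rwa [hp.factorization_self] at this
  omega

section

variable {p M L : ℕ} {Y : Type} [Group Y] [Finite Y] {Y₁ H₀ : Subgroup Y} [Y₁.Normal]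
  [(H₀.subgroupOf Y₁).Normal] {n : ℕ} {r : Y →* Matrix (Fin n) (Fin n) ℂ} {e m : ℕ}
  {r' : H₀.subgroupOf Y₁ →* Matrix (Fin m) (Fin m) ℂ}
  {Φ : Matrix (Fin m) (Fin m) ℂ →ₐ[ℂ] Matrix (Fin n) (Fin n) ℂ}
  {Yh : Type} [Group Yh] [Finite Yh] {f : Yh →* Y₁} {H0 : Subgroup Yh}
  {Z : Yh →* Matrix (Fin e) (Fin e) ℂ} {A : Yh →* Matrix (Fin m) (Fin m) ℂ} {P : Subgroup Y}
  {ℓ : Y₁.subgroupOf P →* Yh} (h : CT p M L Y₁ H₀ r r' Φ f H0 Z A P ℓ)
include h

theorem pm : ¬ p ∣ m := by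
  intro hd
  apply h.deg
  rw [h.nem]
  exact Dvd.dvd.mul_left hd e

theorem m0 : m ≠ 0 := by
  rintro rfl
  exact pm h (dvd_zero p)

theorem n0 : n ≠ 0 := by
  rintro rfl
  exact h.deg (dvd_zero p)

theorem copM : M.Coprime p := by
  have h1 := h.mL
  have h2 : (ordCompl[p] L).Coprime p := (Nat.coprime_ordCompl h.pp h.hL).symm
  exact Nat.Coprime.of_dvd_left h1 h2

theorem fH (x : Yh) (hx : x ∈ H0) : ((f x : Y₁) : Y) ∈ H₀ := by
  have h1 : f x ∈ H0.map f := Subgroup.mem_map_of_mem f hx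
  rw [h.td.map] at h1
  exact h1

theorem exH (x : Y) (hx : x ∈ H₀) : ∃ y ∈ H0, ((f y : Y₁) : Y) = x := by
  have h1 : (⟨x, h.wy.le hx⟩ : Y₁) ∈ H0.map f := by
    rw [h.td.map]
    exact hx
  obtain ⟨y, hy, hf⟩ := h1
  exact ⟨y, hy, by rw [hf]⟩

/-- `A` is irreducible on `H0` -/
theorem schA : Sch (A.comp H0.subtype) := by
  intro T hT
  refine h.sch' T fun h' => ?_
  obtain ⟨y, hy, hf⟩ := exH h ((h' : Y₁) : Y) h'.2
  have hf2 : f y ∈ H₀.subgroupOf Y₁ := by
    have h1 : f y = (h' : Y₁) := Subtype.ext hf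
    rw [h1]
    exact h'.2
  have h2 := h.td.res y hy hf2
  have h3 : (⟨f y, hf2⟩ : H₀.subgroupOf Y₁) = h' := Subtype.ext (Subtype.ext hf)
  rw [h3] at h2
  rw [← h2]
  exact hT ⟨y, hy⟩

/-- `ℓ` is injective -/
theorem inj : Function.Injective ℓ := by
  intro x y hxy
  apply Subtype.ext
  apply Subtype.ext
  rw [← h.lf x, ← h.lf y, hxy]

/-- the range of `ℓ` is a Sylow subgroup -/
theorem range_index : ¬ p ∣ ℓ.range.index := by
  apply not_dvd_index h.pp
  have h1 := fac_le h.pp Y₁ P h.wy.idx h.syl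
  have h2 : Nat.card ℓ.range = Nat.card (Y₁.subgroupOf P) :=
    (Nat.card_congr (MonoidHom.ofInjective (inj h)).toEquiv).symm
  have h3 : Nat.card f.ker * Nat.card Y₁ = Nat.card Yh := by
    have h4 := f.ker.card_mul_index
    rw [Subgroup.index_ker, MonoidHom.range_eq_top.2 h.td.surj, Subgroup.card_top] at h4
    exact h4
  have h5 : Nat.card f.ker ≠ 0 := Nat.card_pos.ne'
  have h6 : Nat.card Y₁ ≠ 0 := Nat.card_pos.ne'
  rw [h2, ← h3, Nat.factorization_mul h5 h6, Finsupp.add_apply]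
  have h7 : (Nat.card f.ker).factorization p = 0 := by
    apply Nat.factorization_eq_zero_of_not_dvd
    rw [← h.pp.coprime_iff_not_dvd]
    exact h.td.ker.symm
  omega

end

end CT0

end Pool.Agent.Lib.MP_1aae89_al.W5
end

section
/-!
# KEX: the extension of `κ`
-/
set_option autoImplicit false

namespace Pool.Agent.Lib.MP_1aae89_al.W5

open Pool.Agent.Lib.MP_1aae89_al Pool.Agent.Lib.MP_1aae89_al.BF Pool.Agent.Lib.MP_1aae89_al.W3
  Pool.Agent.Lib.MP_1aae89_al.W4 Finset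

namespace KEX

/-- a constituent is trivial where the character is invariant under translation -/
theorem tri {S : Type} [Group S] [Finite S] (χ : S → ℂ) (hχ : IsCharacter χ) (η : Lin S)
    (hη : ml χ η ≠ 0) (x0 : S) (hx0 : ∀ x, χ (x * x0) = χ x) : η x0 = 1 := by
  classical
  have : Fintype S := Fintype.ofFinite S
  have h1 := ml_spec hχ η
  set T : ℂ := ∑ x : S, χ x * (((η x)⁻¹ : ℂˣ) : ℂ) with hT
  have hT0 : T ≠ 0 := by
    intro h
    rw [h, mul_zero] at h1
    exact hη (by exact_mod_cast h1)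
  have h2 : T = (((η x0)⁻¹ : ℂˣ) : ℂ) * T := by
    have h3 : T = ∑ x : S, χ (x * x0) * (((η (x * x0))⁻¹ : ℂˣ) : ℂ) :=
      (Equiv.sum_comp (Equiv.mulRight x0) fun x : S => χ x * (((η x)⁻¹ : ℂˣ) : ℂ)).symm
    conv_lhs => rw [h3]
    rw [hT, mul_sum]
    refine sum_congr rfl fun x _ => ?_
    rw [hx0 x, map_mul, mul_inv, Units.val_mul]
    ring
  have h5 : (((η x0)⁻¹ : ℂˣ) : ℂ) = 1 := by
    have h6 : (1 - (((η x0)⁻¹ : ℂˣ) : ℂ)) * T = 0 := by
      rw [sub_mul, one_mul, ← h2, sub_self]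
    rcases mul_eq_zero.1 h6 with h7 | h7
    · exact (sub_eq_zero.1 h7).symm
    · exact absurd h7 hT0
  have h6 : (η x0)⁻¹ = 1 := Units.ext h5
  exact inv_eq_one.1 h6

section

open CT0

variable {p M L : ℕ} {Y : Type} [Group Y] [Finite Y] {Y₁ H₀ : Subgroup Y} [Y₁.Normal]
  [(H₀.subgroupOf Y₁).Normal] {n : ℕ} {r : Y →* Matrix (Fin n) (Fin n) ℂ} {e m : ℕ}
  {r' : H₀.subgroupOf Y₁ →* Matrix (Fin m) (Fin m) ℂ}
  {Φ : Matrix (Fin m) (Fin m) ℂ →ₐ[ℂ] Matrix (Fin n) (Fin n) ℂ}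
  {Yh : Type} [Group Yh] [Finite Yh] {f : Yh →* Y₁} {H0 : Subgroup Yh}
  {Z : Yh →* Matrix (Fin e) (Fin e) ℂ} {A : Yh →* Matrix (Fin m) (Fin m) ℂ} {P : Subgroup Y}
  {ℓ : Y₁.subgroupOf P →* Yh} (h : CT p M L Y₁ H₀ r r' Φ f H0 Z A P ℓ)
include h

/-- `P ∩ Y₁` is a `p`-group -/
theorem cardS : ∃ k, Nat.card (Y₁.subgroupOf P) = p ^ k := by
  have h1 : Nat.card (Y₁.subgroupOf P) ∣ Nat.card P := Subgroup.card_subgroup_dvd_card _
  rw [h.syl] at h1
  obtain ⟨k, _, hk⟩ := (Nat.dvd_prime_pow h.pp).1 h1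
  exact ⟨k, hk⟩

/-- `A (ℓ x) = 1` for `x ∈ P ∩ H'` -/
theorem Aone (x : Y₁.subgroupOf P) (hx : ((x : P) : Y) ∈ HC Y₁ H₀) : A (ℓ x) = 1 := by
  have hPRD := specPRD p h.pp Y₁ H₀ h.wy
  have h1 : ∀ y : H0, A (ℓ x) * (A.comp H0.subtype) y = (A.comp H0.subtype) y * A (ℓ x) := by
    intro y
    have h2 : ℓ x * (y : Yh) * (ℓ x)⁻¹ * (y : Yh)⁻¹ = 1 := by
      have := h.td.norm
      apply h.td.inj
      · exact H0.mul_mem (this.conj_mem _ y.2 _) (H0.inv_mem y.2)
      · apply Subtype.ext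
        have h3 := hPRD.2.2.1 _ (fH h y y.2) _ hx
        have e1 : ((f (ℓ x * (y : Yh) * (ℓ x)⁻¹ * (y : Yh)⁻¹) : Y₁) : Y) =
            ((x : P) : Y) * ((f y : Y₁) : Y) * ((x : P) : Y)⁻¹ * ((f y : Y₁) : Y)⁻¹ := by
          rw [map_mul, map_mul, map_mul, map_inv, map_inv]
          simp only [Subgroup.coe_mul, Subgroup.coe_inv]
          rw [h.lf x]
        rw [e1, ← h3]
        simp
    have h3 : ℓ x * (y : Yh) = (y : Yh) * ℓ x := by
      have h4 : ℓ x * (y : Yh) * (ℓ x)⁻¹ = y := by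
        rw [mul_inv_eq_one] at h2
        exact h2
      rw [← h4, inv_mul_cancel_right]
      rw [h4]
    show A (ℓ x) * A y = A y * A (ℓ x)
    rw [← map_mul, h3, map_mul]
  obtain ⟨a, ha⟩ := schA h (A (ℓ x)) h1
  have hm0 := m0 h
  have hmp : 0 < m := Nat.pos_of_ne_zero hm0
  have i0 : Fin m := ⟨0, hmp⟩
  -- the determinant
  have h2 : a ^ (m * M) = 1 := by
    have h3 := h.td.det (ℓ x)
    rw [ha, Matrix.det_smul, Matrix.det_one, mul_one, Fintype.card_fin, ← pow_mul] at h3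
    exact h3
  obtain ⟨k, hk⟩ := cardS h
  have h4 : a ^ p ^ k = 1 := by
    have h5 : A (ℓ x) ^ p ^ k = 1 := by
      rw [← map_pow, ← map_pow, ← hk, pow_card_eq_one', map_one, map_one]
    rw [ha, smul_pow, one_pow] at h5
    have h6 := congrFun (congrFun h5 i0) i0
    rw [Matrix.smul_apply, Matrix.one_apply_eq, smul_eq_mul, mul_one] at h6
    exact h6
  have h5 : (p ^ k).Coprime (m * M) := by
    apply Nat.Coprime.pow_left
    apply Nat.Coprime.mul_right
    · exact (h.pp.coprime_iff_not_dvd).2 (pm h)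
    · exact (copM h).symm
  have h6 : a = 1 := by
    have h7 := pow_gcd_eq_one.2 ⟨h4, h2⟩
    rw [h5.gcd_eq_one, pow_one] at h7
    exact h7
  rw [ha, h6, one_smul]

end

end KEX

theorem specKEX (hPRJ : SpecPRJ) : SpecKEX := by
  intro p M L Y _ _ Y₁ H₀ _ _ n r e m r' Φ Yh _ _ f H0 Z A P ℓ h τ hτ K hK hKN κ hκ hV q hdl
  classical
  have hPRD := specPRD p h.pp Y₁ H₀ h.wy
  have hNn : (Subgroup.normalClosure (H₀ : Set Y)).Normal := Subgroup.normalClosure_normal
  set N := Subgroup.normalClosure (H₀ : Set Y) with hN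
  have hHN : H₀ ≤ N := Subgroup.subset_normalClosure
  -- a constituent
  obtain ⟨ω, hω1, hω2⟩ : ∃ ω : Lin (Y₁.subgroupOf P), ω ^ q = κ ∧
      ml (fun x : Y₁.subgroupOf P => (A (ℓ x)).trace) ω ≠ 0 := by
    by_contra hcon
    apply hdl
    unfold dl
    refine sum_eq_zero fun η hη => ?_
    rw [mem_filter] at hη
    by_contra h2
    exact hcon ⟨η, hη.2, h2⟩
  have hchar : IsCharacter (fun x : Y₁.subgroupOf P => (A (ℓ x)).trace) :=
    ⟨m, A.comp ℓ, fun x => rfl⟩
  -- (i)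
  have hi : ∀ x : Y₁.subgroupOf P, ((x : P) : Y) ∈ HC Y₁ H₀ → κ x = 1 := by
    intro x hx
    have h1 : ω x = 1 := by
      apply KEX.tri _ hchar ω hω2
      intro z
      show (A (ℓ (z * x))).trace = (A (ℓ z)).trace
      rw [map_mul, map_mul, KEX.Aone h x hx, mul_one]
    rw [← hω1, Lin.pow_apply, h1, one_pow]
  -- (ii)
  have hii : ∀ x : Y₁.subgroupOf P, ((x : P) : Y) ∈ H₀ → κ x = 1 := by
    intro x hx
    have h1 := hV.1 x
    rw [resL_apply] at h1
    have h2 : K ((x : P) : Y) = 1 := hKN _ (hHN hx)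
    rw [h2, prod_range_eq_mul_Ico _ h.pp.pos] at h1
    have h3 : ∏ i ∈ Ico 1 p, κ (cjt (Y₁.subgroupOf P) τ i x) = 1 := by
      refine prod_eq_one fun i hi' => ?_
      rw [mem_Ico] at hi'
      apply hi
      have e1 : (((cjt (Y₁.subgroupOf P) τ i x : Y₁.subgroupOf P) : P) : Y) =
          ((τ : Y) ^ i)⁻¹ * ((x : P) : Y) * (((τ : Y) ^ i)⁻¹)⁻¹ := rfl
      rw [e1]
      apply Subgroup.subset_closure
      refine ⟨((τ : Y) ^ i)⁻¹, ?_, _, hx, rfl⟩
      have hτ' : (τ : Y) ∉ Y₁ := hτ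
      have h4 := PRD.ne h.pp Y₁ h.wy.idx hτ' (i := i) (j := 0) hi'.2 h.pp.pos (by omega)
      rw [pow_zero, mul_one] at h4
      exact h4
    rw [h3, mul_one] at h1
    have e2 : cjt (Y₁.subgroupOf P) τ 0 x = x := by
      apply Subtype.ext
      show (τ ^ 0)⁻¹ * (x : P) * ((τ ^ 0)⁻¹)⁻¹ = x
      simp
    rw [e2] at h1
    exact h1.symm
  -- (iii)
  have hiii : ∀ x : Y₁.subgroupOf P, ((x : P) : Y) ∈ N → κ x = 1 := by
    intro x hx
    obtain ⟨a, ha, b, hb, hab⟩ := hPRJ p h.pp Y₁ H₀ P h.wy h.syl _ (x : P).2 hx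
    have ha1 : a ∈ P := ha.1
    have hb1 : b ∈ P := hb.1
    let a' : Y₁.subgroupOf P := ⟨⟨a, ha1⟩, h.wy.le ha.2⟩
    let b' : Y₁.subgroupOf P := ⟨⟨b, hb1⟩, hPRD.1 hb.2⟩
    have h1 : x = a' * b' := Subtype.ext (Subtype.ext hab)
    rw [h1, map_mul, hii a' ha.2, hi b' hb.2, one_mul]
  -- (iv)
  let Nh : Subgroup Yh := N.comap (Y₁.subtype.comp f)
  have hNh : Nh.Normal := Subgroup.Normal.comap hNn _
  have hmem : ∀ y, y ∈ Nh ↔ ((f y : Y₁) : Y) ∈ N := fun y => Iff.rfl
  have htop : Nh ⊔ ℓ.range = ⊤ := by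
    apply CT0.sup_top h.pp Nh ℓ.range _ (CT0.range_index h)
    intro y
    obtain ⟨j, hj⟩ := h.wy.quo ((f y : Y₁) : Y)
    refine ⟨j, ?_⟩
    rw [hmem, map_pow, Subgroup.coe_pow]
    exact hj
  let E := MonoidHom.ofInjective (CT0.inj h)
  let η : Lin ℓ.range := ((κ : Y₁.subgroupOf P →* ℂˣ).comp E.symm.toMonoidHom : ℓ.range →* ℂˣ)
  have hη : ∀ x, ∀ hx : ℓ x ∈ ℓ.range, η ⟨ℓ x, hx⟩ = κ x := by
    intro x hx
    show κ (E.symm ⟨ℓ x, hx⟩) = κ x
    congr 1
    rw [MulEquiv.symm_apply_eq]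
    apply Subtype.ext
    rfl
  obtain ⟨η', hη1, hη2⟩ := specEXL Nh ℓ.range η (by
    rintro ⟨_, x, rfl⟩ hx
    rw [hη]
    apply hiii
    have h1 : ((f (ℓ x) : Y₁) : Y) ∈ N := hx
    rwa [h.lf] at h1)
  have ht : ∀ y : Yh, y ∈ Nh ⊔ ℓ.range := fun y => by rw [htop]; exact Subgroup.mem_top y
  let K' : Lin Yh := MonoidHom.mk' (fun y => η' ⟨y, ht y⟩) (by
    intro y z
    rw [← map_mul]
    rfl)
  have hK'a : ∀ y, K' y = η' ⟨y, ht y⟩ := fun y => rfl
  have hK'1 : ∀ y, y ∈ Nh → K' y = 1 := fun y hy => hη1 ⟨y, ht y⟩ hy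
  have hK'2 : ∀ x, K' (ℓ x) = κ x := by
    intro x
    rw [hK'a, hη2 ⟨ℓ x, ⟨x, rfl⟩⟩ ⟨ℓ x, ht _⟩ rfl, hη]
  refine ⟨K', ?_, hK'1, hK'2⟩
  apply Lin.ext
  intro y
  rw [Lin.pow_apply, Lin.one_apply]
  have h1 : y ∈ ((Nh ⊔ ℓ.range : Subgroup Yh) : Set Yh) := ht y
  rw [Subgroup.normal_mul] at h1
  obtain ⟨u, hu, v, ⟨x, rfl⟩, rfl⟩ := h1
  show K' (u * ℓ x) ^ p = 1
  rw [map_mul, hK'1 u hu, one_mul, hK'2]
  have h2 : (κ ^ p) x = (1 : Lin (Y₁.subgroupOf P)) x := by rw [hκ]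
  rw [Lin.pow_apply, Lin.one_apply] at h2
  exact h2

end Pool.Agent.Lib.MP_1aae89_al.W5
end

section
/-!
# MAB: an abelian minimal normal subgroup
-/
set_option autoImplicit false

namespace Pool.Agent.Lib.MP_1aae89_al.W5

open Pool.Agent.Lib.MP_1aae89_al Pool.Agent.Lib.MP_1aae89_al.BF Pool.Agent.Lib.MP_1aae89_al.W3
  Pool.Agent.Lib.MP_1aae89_al.W4 Finset

namespace MAB

/-- the `p`-elements of an abelian subgroup -/
def pel (p : ℕ) {Z : Type} [Group Z] (N : Subgroup Z) (hab : ∀ x ∈ N, ∀ y ∈ N, x * y = y * x) :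
    Subgroup Z where
  carrier := {x | x ∈ N ∧ ∃ j : ℕ, x ^ p ^ j = 1}
  mul_mem' := by
    rintro x y ⟨hx, i, hi⟩ ⟨hy, j, hj⟩
    refine ⟨N.mul_mem hx hy, i + j, ?_⟩
    have hc : Commute x y := hab x hx y hy
    rw [hc.mul_pow]
    have h1 : x ^ p ^ (i + j) = 1 := by rw [pow_add, pow_mul, hi, one_pow]
    have h2 : y ^ p ^ (i + j) = 1 := by rw [pow_add, mul_comm, pow_mul, hj, one_pow]
    rw [h1, h2, one_mul]
  one_mem' := ⟨N.one_mem, 0, one_pow _⟩
  inv_mem' := by
    rintro x ⟨hx, i, hi⟩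
    exact ⟨N.inv_mem hx, i, by rw [inv_pow, hi, inv_one]⟩

theorem mem_pel {p : ℕ} {Z : Type} [Group Z] {N : Subgroup Z}
    {hab : ∀ x ∈ N, ∀ y ∈ N, x * y = y * x} {x : Z} :
    x ∈ pel p N hab ↔ x ∈ N ∧ ∃ j : ℕ, x ^ p ^ j = 1 := Iff.rfl

end MAB

open MAB in
theorem specMAB (hGPG : W3.SpecGPG) (hGBD : W3.SpecGBD) : SpecMAB := by
  intro p b hp hb Z _ _ N hN hmin hq hab
  have hpf : Fact p.Prime := ⟨hp⟩
  have hnorm : (pel p N hab).Normal := by
    refine ⟨fun x hx g => ?_⟩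
    obtain ⟨h1, j, h2⟩ := mem_pel.1 hx
    refine mem_pel.2 ⟨hN.conj_mem x h1 g, j, ?_⟩
    rw [conj_pow, h2, mul_one, mul_inv_cancel]
  have hle : pel p N hab ≤ N := fun x hx => (mem_pel.1 hx).1
  rcases hmin _ hnorm hle with h | h
  · refine hGBD p b hp hb N (fun x hx hxb => ?_) hq
    have h1 : x ∈ pel p N hab := mem_pel.2 ⟨hx, b, hxb⟩
    rw [h, Subgroup.mem_bot] at h1
    rw [h1, one_pow]
  · have hpg : IsPGroup p Z := by
      intro z
      obtain ⟨i, hi⟩ := hq z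
      rw [← h] at hi
      obtain ⟨_, j, hj⟩ := mem_pel.1 hi
      exact ⟨i + j, by rw [pow_add, pow_mul, hj]⟩
    obtain ⟨e, he⟩ := IsPGroup.iff_card.1 hpg
    exact hGPG p b hp hb e he

end Pool.Agent.Lib.MP_1aae89_al.W5
end

section
/-!
# MI1: reduction to surjective homomorphisms
-/
set_option autoImplicit false

namespace Pool.Agent.Lib.MP_1aae89_al.W5

open Pool.Agent.Lib.MP_1aae89_al Pool.Agent.Lib.MP_1aae89_al.BF Pool.Agent.Lib.MP_1aae89_al.W3
  Pool.Agent.Lib.MP_1aae89_al.W4 Finset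

theorem specMI1 (hDDT : SpecDDT) : SpecMI1 := by
  intro p b hp hb n Z _ _ hD hI hS Y _ _ f hc hker hran b' hb'
  by_cases hT : f.range = ⊤
  · exact hS Y f (MonoidHom.range_eq_top.1 hT) hc hker b' hb'
  · have hcard : Nat.card f.range < Nat.card Z := by
      refine lt_of_le_of_ne (Subgroup.card_le_card_group f.range) fun h => hT ?_
      exact Subgroup.eq_top_of_card_eq f.range h
    have hG : Good p b f.range := hI f.range hcard n (hDDT p b hp n f.range hran hD)
    have hk : f.rangeRestrict.ker = f.ker := f.ker_rangeRestrict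
    refine hG Y f.rangeRestrict (fun y hy z => ?_) ?_ ?_ b' hb'
    · exact hc y (congrArg Subtype.val hy) z
    · rw [hk]
      exact hker
    · rw [MonoidHom.range_eq_top.2 f.rangeRestrict_surjective, Subgroup.index_top]
      exact fun h => hp.one_lt.ne' (Nat.dvd_one.1 h)

end Pool.Agent.Lib.MP_1aae89_al.W5
end

section
/-!
# MI2: a normal subgroup `N ≠ 1` with `N P ≠ Z`
-/
set_option autoImplicit false

namespace Pool.Agent.Lib.MP_1aae89_al.W5

open Pool.Agent.Lib.MP_1aae89_al Pool.Agent.Lib.MP_1aae89_al.BF Pool.Agent.Lib.MP_1aae89_al.W3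
  Pool.Agent.Lib.MP_1aae89_al.W4 Finset

namespace MI2

/-- modulo `N`, the elements of `N ⊔ P` have `p`-power order, `P` a `p`-group -/
theorem pow_mem_of_sup {p : ℕ} {Z : Type} [Group Z] (N : Subgroup Z) [N.Normal] (P : Subgroup Z)
    (e : ℕ) (hP : ∀ x ∈ P, x ^ p ^ e = 1) (z : Z) (hz : z ∈ N ⊔ P) : z ^ p ^ e ∈ N := by
  obtain ⟨a, ha, x, hx, rfl⟩ := Subgroup.mem_sup_of_normal_left.1 hz
  rw [← QuotientGroup.eq_one_iff, QuotientGroup.mk_pow, QuotientGroup.mk_mul,
    (QuotientGroup.eq_one_iff a).2 ha, one_mul, ← QuotientGroup.mk_pow, hP x hx,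
    QuotientGroup.mk_one]

/-- a subgroup with two coprime indices above subgroups is `⊤` -/
theorem sup_eq_top {p : ℕ} (hp : p.Prime) {Z : Type} [Group Z] [Finite Z] (N : Subgroup Z)
    [N.Normal] (P : Subgroup Z) (hP : Nat.card P = p ^ (Nat.card Z).factorization p) (e : ℕ)
    (hN : ∀ z : Z, z ^ p ^ e ∈ N) : N ⊔ P = ⊤ := by
  have : Fact p.Prime := ⟨hp⟩
  have hq : IsPGroup p (Z ⧸ N) := by
    intro x
    obtain ⟨y, rfl⟩ := QuotientGroup.mk'_surjective N x
    refine ⟨e, ?_⟩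
    rw [← map_pow]
    exact (QuotientGroup.eq_one_iff _).2 (hN y)
  obtain ⟨k, hk⟩ := IsPGroup.iff_card.1 hq
  have h1 : (N ⊔ P).index ∣ p ^ k := by
    rw [← hk]
    exact Subgroup.index_dvd_of_le le_sup_left
  have h2 : (N ⊔ P).index ∣ P.index := Subgroup.index_dvd_of_le le_sup_right
  have h3 : ¬ p ∣ P.index := by
    intro h4
    have h5 := P.card_mul_index
    have h6 : p ^ ((Nat.card Z).factorization p + 1) ∣ Nat.card Z := by
      rw [pow_succ]
      have h7 : p ^ (Nat.card Z).factorization p * p ∣ Nat.card P * P.index := by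
        rw [hP]
        exact mul_dvd_mul_left _ h4
      rwa [h5] at h7
    exact Nat.pow_succ_factorization_not_dvd Nat.card_pos.ne' hp h6
  have h4 : (N ⊔ P).index = 1 := by
    obtain ⟨j, -, hj⟩ := (Nat.dvd_prime_pow hp).1 h1
    rcases Nat.eq_zero_or_pos j with h | h
    · rw [hj, h, pow_zero]
    · exfalso
      apply h3
      refine dvd_trans ?_ h2
      rw [hj]
      exact dvd_pow_self p h.ne'
  exact Subgroup.index_eq_one.1 h4

end MI2

open MI2 in
theorem specMI2 (hREC : W3.SpecREC) (hISO : W3.SpecISO) (hDDN : SpecDDN) (hDDI : SpecDDI)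
    (hDDE : SpecDDE) (hDDQ : SpecDDQ) : SpecMI2 := by
  intro p b hp hb n Z _ _ hD hI N _ hN P hP hNP Y _ _ f hs hc hk b' hb'
  have hHn : (N.comap f).Normal := inferInstance
  refine hREC p b hp hb (N.comap f) ⟨hHn, Or.inr ?_, ?_⟩ b' hb'
  · intro P' hP' b'' hb''
    set P1 : Subgroup Z := P'.map f with hP1
    set e : ℕ := (Nat.card Y).factorization p with he
    have hpow : ∀ x ∈ P1, x ^ p ^ e = 1 := by
      rintro _ ⟨y, hy, rfl⟩
      have h1 : (⟨y, hy⟩ : P') ^ Nat.card P' = 1 := pow_card_eq_one'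
      have h2 : y ^ p ^ e = 1 := by
        rw [← hP']
        exact congrArg Subtype.val h1
      rw [← map_pow, h2, map_one]
    have hT : N ⊔ P1 ≠ ⊤ := by
      intro h
      apply hNP
      refine sup_eq_top hp N P hP e fun z => ?_
      exact pow_mem_of_sup N P1 e hpow z (h ▸ Subgroup.mem_top z)
    have hcard : Nat.card ↥(N ⊔ P1) < Nat.card Z := by
      refine lt_of_le_of_ne (Subgroup.card_le_card_group _) fun h => hT ?_
      exact Subgroup.eq_top_of_card_eq _ h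
    have hle : N ≤ N ⊔ P1 := le_sup_left
    have hD1 : DD p b n (N.subgroupOf (N ⊔ P1)) :=
      hDDI p b n (Subgroup.subgroupOfEquivOfLe hle).symm (hDDN p b hp n N hD)
    have hG : Good p b ↥(N ⊔ P1) := by
      refine hI _ hcard (n + 1) (hDDE p b hp n (N.subgroupOf (N ⊔ P1)) hD1 fun x => ⟨e, ?_⟩)
      exact pow_mem_of_sup N P1 e hpow (x : Z) x.2
    have hmap : (N.comap f ⊔ P').map f = N ⊔ P1 := by
      rw [Subgroup.map_sup, Subgroup.map_comap_eq_self_of_surjective hs]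
    let g : ↥(N.comap f ⊔ P') →* ↥(N ⊔ P1) :=
      (f.comp (N.comap f ⊔ P').subtype).codRestrict (N ⊔ P1) fun x => by
        rw [← hmap]
        exact ⟨x, x.2, rfl⟩
    have hg : ∀ y, g y = 1 ↔ f y = 1 := by
      intro y
      rw [← Subtype.coe_inj]
      exact Iff.rfl
    have hgs : Function.Surjective g := by
      rintro ⟨x, hx⟩
      have hx' := hx
      rw [← hmap] at hx'
      obtain ⟨y, hy1, hy2⟩ := hx'
      exact ⟨⟨y, hy1⟩, Subtype.ext hy2⟩
    refine hG _ g (fun y hy z => ?_) ?_ ?_ b'' hb''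
    · exact Subtype.ext (hc y ((hg y).1 hy) z)
    · refine Nat.Coprime.coprime_dvd_left ?_ hk
      let j : g.ker →* f.ker :=
        ((N.comap f ⊔ P').subtype.comp g.ker.subtype).codRestrict f.ker fun y =>
          (hg y).1 y.2
      have hj : Function.Injective j := by
        intro y z h
        have h1 : (((y : ↥(N.comap f ⊔ P')) : Y)) = ((z : ↥(N.comap f ⊔ P')) : Y) :=
          congrArg (fun w : f.ker => (w : Y)) h
        exact Subtype.ext (Subtype.ext h1)
      exact Subgroup.card_dvd_of_injective j hj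
    · rw [MonoidHom.range_eq_top.2 hgs, Subgroup.index_top]
      exact fun h => hp.one_lt.ne' (Nat.dvd_one.1 h)
  · intro _
    have hcard : Nat.card (Z ⧸ N) < Nat.card Z := by
      have h1 := N.card_mul_index
      have h2 : 1 < Nat.card N := (Subgroup.one_lt_card_iff_ne_bot N).2 hN
      have h3 : 0 < N.index := Nat.pos_of_ne_zero Subgroup.index_ne_zero_of_finite
      have h4 : Nat.card (Z ⧸ N) = N.index := rfl
      rw [h4, ← h1]
      nlinarith
    have hG : Good p b (Z ⧸ N) := hI _ hcard n (hDDQ p b hp n N hD)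
    have hs' : Function.Surjective ((QuotientGroup.mk' N).comp f) :=
      (QuotientGroup.mk'_surjective N).comp hs
    have hk' : ((QuotientGroup.mk' N).comp f).ker = N.comap f := by
      rw [← MonoidHom.comap_ker, QuotientGroup.ker_mk']
    have e1 : (Y ⧸ N.comap f) ≃* (Z ⧸ N) :=
      (QuotientGroup.quotientMulEquivOfEq hk'.symm).trans
        (QuotientGroup.quotientKerEquivOfSurjective _ hs')
    exact (hISO p b e1.symm).2.2 hG

end Pool.Agent.Lib.MP_1aae89_al.W5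
end

section
/-!
# MI3: a minimal normal subgroup with a `p`-group as factor group
-/
set_option autoImplicit false

namespace Pool.Agent.Lib.MP_1aae89_al.W5

open Pool.Agent.Lib.MP_1aae89_al Pool.Agent.Lib.MP_1aae89_al.BF Pool.Agent.Lib.MP_1aae89_al.W3
  Pool.Agent.Lib.MP_1aae89_al.W4 Finset

namespace MI3

theorem surG_of_good {p b : ℕ} (hp : p.Prime) {Z : Type} [Group Z] [Finite Z] (h : Good p b Z) :
    SurG p b Z := by
  intro Y _ _ f hs hc hk b' hb'
  refine h Y f hc hk ?_ b' hb'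
  rw [MonoidHom.range_eq_top.2 hs, Subgroup.index_top]
  intro h1
  exact hp.one_lt.ne' (Nat.dvd_one.1 h1)

end MI3

open MI3 in
theorem specMI3 (hMAB : SpecMAB) (hDDN : SpecDDN) (hDDS : SpecDDS) (hMCC : SpecMCC)
    (hSPL : SpecSPL) (hDDQ : SpecDDQ) (hPRD : SpecPRD) (hWZS : SpecWZS) : SpecMI3 := by
  intro p b hp hb n Z _ _ hD hI N hN hne hmin hq
  by_cases hab : ∀ x ∈ N, ∀ y ∈ N, x * y = y * x
  · exact surG_of_good hp (hMAB p b hp hb N hmin hq hab)
  by_cases hs : ∃ R : Subgroup N, R.Normal ∧ R ≠ ⊥ ∧ R ≠ ⊤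
  · obtain ⟨X₁, N₀, hW, hcm⟩ := hSPL p hp N hmin hq hab hs
    have hX : X₁.Normal := hW.norm
    obtain ⟨-, hHC, -⟩ := hPRD p hp X₁ N₀ hW
    have hHn : ((HC X₁ N₀).subgroupOf X₁).Normal := by
      refine ⟨fun x hx g => ?_⟩
      exact hHC g g.2 x hx
    have h1 : DD p b n X₁ := hDDN p b hp n X₁ hD
    have h2 : DD p b n (X₁ ⧸ (HC X₁ N₀).subgroupOf X₁) := hDDQ p b hp n _ h1
    have hlt : Nat.card (X₁ ⧸ (HC X₁ N₀).subgroupOf X₁) < Nat.card Z := by
      have h3 : Nat.card (X₁ ⧸ (HC X₁ N₀).subgroupOf X₁) ≤ Nat.card X₁ :=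
        Nat.le_of_dvd Nat.card_pos (Subgroup.card_quotient_dvd_card _)
      have h4 := X₁.card_mul_index
      rw [hW.idx] at h4
      have h5 : 0 < Nat.card X₁ := Nat.card_pos
      have h6 := hp.two_le
      nlinarith
    exact hWZS p b hp hb X₁ N₀ hW hcm (hI _ hlt n h2)
  · have hsimple : ∀ R : Subgroup N, R.Normal → R = ⊥ ∨ R = ⊤ := by
      intro R hR
      by_contra hcon
      rw [not_or] at hcon
      exact hs ⟨R, hR, hcon.1, hcon.2⟩
    have hnt : Nontrivial N := (Subgroup.nontrivial_iff_ne_bot N).2 hne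
    exact surG_of_good hp (hMCC p b hp hb N hq
      (hDDS p b hp n hnt hsimple (hDDN p b hp n N hD)))

end Pool.Agent.Lib.MP_1aae89_al.W5
end

section
/-!
# Module MTR: multiplicativity of the trace
-/
set_option autoImplicit false

namespace Pool.Agent.Lib.MP_1aae89_al.W5

open Pool.Agent.Lib.MP_1aae89_al Pool.Agent.Lib.MP_1aae89_al.BF Pool.Agent.Lib.MP_1aae89_al.W3
  Pool.Agent.Lib.MP_1aae89_al.W4 Finset

theorem specMTR : SpecMTR := by
  intro G _ _ n r hn L D hLD hS a ha c hc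
  have hfin : Fintype L := Fintype.ofFinite L
  -- `a` commutes with `r(D)`
  have haD : ∀ y ∈ D, a * r y = r y * a := by
    intro y hy
    refine Submodule.span_induction (p := fun a _ => a * r y = r y * a) ?_ ?_ ?_ ?_ ha
    · rintro _ ⟨x, rfl⟩
      show r x * r y = r y * r x
      rw [← map_mul, ← map_mul, hLD x x.2 y hy]
    · rw [zero_mul, mul_zero]
    · intro b d _ _ hb hd
      rw [add_mul, mul_add, hb, hd]
    · intro t b _ hb
      rw [Matrix.smul_mul, Matrix.mul_smul, hb]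
  -- the average
  set T : Matrix (Fin n) (Fin n) ℂ := ∑ x : L, r x * a * r (x : G)⁻¹ with hT
  have hTL : ∀ y ∈ L, r y * T = T * r y := by
    intro y hy
    have h1 := avg2 (r.comp L.subtype) (r.comp L.subtype) a ⟨y, hy⟩
    exact h1
  have hTD : ∀ y ∈ D, r y * T = T * r y := by
    intro y hy
    rw [hT, Matrix.mul_sum, Matrix.sum_mul]
    refine sum_congr rfl fun x _ => ?_
    have h1 : r y * r (x : G) = r (x : G) * r y := by
      rw [← map_mul, ← map_mul, hLD x x.2 y hy]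
    have h2 : r y * r (x : G)⁻¹ = r (x : G)⁻¹ * r y := by
      rw [← map_mul, ← map_mul, hLD (x : G)⁻¹ (L.inv_mem x.2) y hy]
    calc r y * (r (x : G) * a * r (x : G)⁻¹) = (r y * r (x : G)) * a * r (x : G)⁻¹ := by
          simp only [Matrix.mul_assoc]
      _ = r (x : G) * (r y * a) * r (x : G)⁻¹ := by rw [h1]; simp only [Matrix.mul_assoc]
      _ = r (x : G) * a * (r y * r (x : G)⁻¹) := by
          rw [← haD y hy]; simp only [Matrix.mul_assoc]
      _ = r (x : G) * a * r (x : G)⁻¹ * r y := by rw [h2]; simp only [Matrix.mul_assoc]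
  have hTC : ∀ y ∈ L ⊔ D, T * r y = r y * T := by
    intro y hy
    rw [← Subgroup.closure_eq L, ← Subgroup.closure_eq D, ← Subgroup.closure_union] at hy
    refine Subgroup.closure_induction (p := fun y _ => T * r y = r y * T) ?_ ?_ ?_ ?_ hy
    · rintro z (hz | hz)
      · exact (hTL z hz).symm
      · exact (hTD z hz).symm
    · rw [map_one, mul_one, one_mul]
    · intro z w _ _ hz hw
      rw [map_mul, ← Matrix.mul_assoc, hz, Matrix.mul_assoc, hw, Matrix.mul_assoc]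
    · intro z _ hz
      calc T * r z⁻¹ = (r z⁻¹ * r z) * T * r z⁻¹ := by rw [inv_mul_r, Matrix.one_mul]
        _ = r z⁻¹ * (r z * T) * r z⁻¹ := by simp only [Matrix.mul_assoc]
        _ = r z⁻¹ * T * (r z * r z⁻¹) := by rw [← hz]; simp only [Matrix.mul_assoc]
        _ = r z⁻¹ * T := by rw [mul_inv_r, Matrix.mul_one]
  obtain ⟨α, hα⟩ := hS T fun g => hTC g g.2
  have hn' : (n : ℂ) ≠ 0 := by exact_mod_cast hn
  have hL : (Fintype.card L : ℂ) ≠ 0 := by exact_mod_cast Fintype.card_ne_zero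
  -- the traces
  have h1 : T.trace = (Fintype.card L : ℂ) * a.trace := by
    rw [hT, Matrix.trace_sum]
    have h2 : ∀ x ∈ (univ : Finset L), (r (x : G) * a * r (x : G)⁻¹).trace = a.trace :=
      fun x _ => by
        rw [Matrix.trace_mul_comm, ← Matrix.mul_assoc, inv_mul_r, Matrix.one_mul]
    rw [sum_congr rfl h2, sum_const, card_univ, nsmul_eq_mul]
  have h2 : (T * c).trace = (Fintype.card L : ℂ) * (a * c).trace := by
    rw [hT, Matrix.sum_mul, Matrix.trace_sum]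
    have h3 : ∀ x ∈ (univ : Finset L), (r (x : G) * a * r (x : G)⁻¹ * c).trace =
        (a * c).trace := fun x _ => by
      have h4 : r (x : G)⁻¹ * c = c * r (x : G)⁻¹ := hc _ (L.inv_mem x.2)
      rw [Matrix.mul_assoc, h4, ← Matrix.mul_assoc, Matrix.trace_mul_comm, ← Matrix.mul_assoc,
        ← Matrix.mul_assoc, inv_mul_r, Matrix.one_mul]
    rw [sum_congr rfl h3, sum_const, card_univ, nsmul_eq_mul]
  rw [hα, Matrix.trace_smul, Matrix.trace_one, Fintype.card_fin, smul_eq_mul] at h1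
  rw [hα, Matrix.smul_mul, Matrix.one_mul, Matrix.trace_smul, smul_eq_mul] at h2
  have h3 : (Fintype.card L : ℂ) * ((n : ℂ) * (a * c).trace) =
      (Fintype.card L : ℂ) * (a.trace * c.trace) := by
    calc (Fintype.card L : ℂ) * ((n : ℂ) * (a * c).trace)
        = n * ((Fintype.card L : ℂ) * (a * c).trace) := by ring
      _ = n * (α * c.trace) := by rw [h2]
      _ = (α * n) * c.trace := by ring
      _ = (Fintype.card L : ℂ) * (a.trace * c.trace) := by rw [h1]; ring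
  exact mul_left_cancel₀ hL h3

end Pool.Agent.Lib.MP_1aae89_al.W5
end

section
/-!
# NIN: if the Galois conjugate of `A` is `K' A` then the one of `r` is `K r`
-/
set_option autoImplicit false

namespace Pool.Agent.Lib.MP_1aae89_al.W5

open Pool.Agent.Lib.MP_1aae89_al Pool.Agent.Lib.MP_1aae89_al.BF Pool.Agent.Lib.MP_1aae89_al.W3
  Pool.Agent.Lib.MP_1aae89_al.W4 Finset
open Pool.Agent.Lib.MP1aae89 (Pex)

namespace NIN

/-- powers of the products -/
theorem prod_pow {Y : Type} [Group Y] (a : ℕ → Y) (p : ℕ)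
    (h : ∀ i < p, ∀ j < p, i ≠ j → Commute (a i) (a j)) (k : ℕ) :
    ((List.range p).map a).prod ^ k = ((List.range p).map fun i => a i ^ k).prod := by
  induction k with
  | zero =>
    rw [pow_zero]
    symm
    apply List.prod_eq_one
    intro x hx
    obtain ⟨j, _, rfl⟩ := List.mem_map.1 hx
    exact pow_zero _
  | succ k ih =>
    rw [pow_succ, ih, ← PRD.prod_mul _ _ p fun i hi j hj hij => (h i hi j hj hij).pow_left k]
    congr 1
    apply List.map_congr_left
    intro i _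
    exact (pow_succ _ _).symm

section

open CT0

variable {p M L : ℕ} {Y : Type} [Group Y] [Finite Y] {Y₁ H₀ : Subgroup Y} [Y₁.Normal]
  [(H₀.subgroupOf Y₁).Normal] {n : ℕ} {r : Y →* Matrix (Fin n) (Fin n) ℂ} {e m : ℕ}
  {r' : H₀.subgroupOf Y₁ →* Matrix (Fin m) (Fin m) ℂ}
  {Φ : Matrix (Fin m) (Fin m) ℂ →ₐ[ℂ] Matrix (Fin n) (Fin n) ℂ}
  {Yh : Type} [Group Yh] [Finite Yh] {f : Yh →* Y₁} {H0 : Subgroup Yh}
  {Z : Yh →* Matrix (Fin e) (Fin e) ℂ} {A : Yh →* Matrix (Fin m) (Fin m) ℂ} {P : Subgroup Y}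
  {ℓ : Y₁.subgroupOf P →* Yh} (h : CT p M L Y₁ H₀ r r' Φ f H0 Z A P ℓ)
include h

/-- `r` on a product -/
theorem rtp (τ : Y) (g : ℕ → Y) (hg : ∀ i, g i ∈ H₀) :
    r (((List.range p).map fun i => τ ^ i * g i * (τ ^ i)⁻¹).prod) =
      tp p r τ Φ fun i => r' ⟨⟨g i, h.wy.le (hg i)⟩, hg i⟩ := by
  unfold tp
  rw [map_list_prod, List.map_map]
  congr 1
  apply List.map_congr_left
  intro i _
  show r (τ ^ i * g i * (τ ^ i)⁻¹) = _
  rw [map_mul, map_mul, h.phi]

/-- the trace of `r` on a product -/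
theorem trr (hCTG : SpecCTG) {τ : Y} (ht : τ ∉ Y₁) (g : ℕ → Y) (hg : ∀ i, g i ∈ H₀) :
    (n : ℂ) ^ (p - 1) * (r (((List.range p).map fun i => τ ^ i * g i * (τ ^ i)⁻¹).prod)).trace =
      ∏ i ∈ range p, ((e : ℂ) * (r' ⟨⟨g i, h.wy.le (hg i)⟩, hg i⟩).trace) := by
  rw [rtp h τ g hg, (hCTG p M L Y₁ H₀ n r e m r' Φ f H0 Z A P ℓ h τ ht).2]
  exact prod_congr rfl fun i _ => h.pht _

end

end NIN

theorem specNIN (hCTG : SpecCTG) (hGLA : SpecGLA) : SpecNIN := by
  intro p M L Y _ _ Y₁ H₀ _ _ n r e m r' Φ Yh _ _ f H0 Z A P ℓ h τ hτ s0 hs a ha K hKN κ hV K'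
    hK'N hK'κ hA
  classical
  have hp := h.pp
  have hPRD := specPRD p hp Y₁ H₀ h.wy
  have hNn : (Subgroup.normalClosure (H₀ : Set Y)).Normal := Subgroup.normalClosure_normal
  set N := Subgroup.normalClosure (H₀ : Set Y) with hN
  have hHN : H₀ ≤ N := Subgroup.subset_normalClosure
  have hH0n := h.td.norm
  have hτ' : (τ : Y) ∉ Y₁ := hτ
  have hdetA : ∀ y, (A y).det ^ ordCompl[p] L = 1 := by
    intro y
    obtain ⟨c, hc⟩ := h.mL
    rw [hc, pow_mul, h.td.det, one_pow]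
  have hdetr : ∀ y, (r y).det ^ ordCompl[p] L = 1 := by
    intro y
    obtain ⟨c, hc⟩ := h.mL
    rw [hc, pow_mul, h.det, one_pow]
  -- on `H0`
  have hA0 : ∀ y ∈ H0, (A (y ^ (1 + s0 * p ^ a))).trace = (A y).trace := by
    intro y hy
    have h1 : K' y = 1 := hK'N y (hHN (CT0.fH h y hy))
    rw [hA, h1, Units.val_one, one_mul]
  -- everywhere
  have hA1 : ∀ y, (A (y ^ (1 + s0 * p ^ a))).trace = (A y).trace := by
    intro y
    have h1 := hGLA p hp L s0 h.hL hs h.cardh H0 m A (CT0.pm h) (CT0.schA h) hdetA a 1 ha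
      (by rw [mul_one]; exact hA0) y
    rwa [mul_one] at h1
  -- `K' = 1`
  have hK'1 : ∀ y, K' y = 1 := by
    intro y
    obtain ⟨x, hx, hne⟩ : ∃ x ∈ H0, (A (y * x)).trace ≠ 0 := by
      have : Fintype H0 := Fintype.ofFinite _
      have hm0 := CT0.m0 h
      by_contra hcon
      push Not at hcon
      have h1 := orth (CT0.schA h) hm0 (A y) (A y⁻¹)
      rw [sum_eq_zero, mul_inv_r, Matrix.trace_one, Fintype.card_fin] at h1
      · have hm' : (m : ℂ) ≠ 0 := by exact_mod_cast hm0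
        rw [div_mul_cancel₀ _ hm'] at h1
        have h2 : (Fintype.card H0 : ℂ) ≠ 0 := by exact_mod_cast Fintype.card_ne_zero
        exact h2 h1.symm
      · intro g _
        have h3 : A y * (A.comp H0.subtype) g = A (y * (g : Yh)) := (map_mul A y g).symm
        rw [h3, hcon (g : Yh) g.2, zero_mul]
    have h1 : K' (y * x) = 1 := by
      have h2 := hA (y * x)
      rw [hA1] at h2
      have h3 : ((K' (y * x) : ℂˣ) : ℂ) = 1 := by
        apply mul_right_cancel₀ hne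
        rw [← h2, one_mul]
      exact Units.ext h3
    have h2 : K' x = 1 := hK'N x (hHN (CT0.fH h x hx))
    rw [map_mul, h2, mul_one] at h1
    exact h1
  have hκ1 : ∀ x, κ x = 1 := fun x => by rw [← hK'κ, hK'1]
  -- `K = 1` on `P`
  have hK1 : ∀ x : Y₁.subgroupOf P, K ((x : P) : Y) = 1 := by
    intro x
    have h1 := hV.1 x
    rw [resL_apply, prod_eq_one fun i _ => hκ1 _] at h1
    exact h1
  have hKτ : K (τ : Y) = 1 := by
    have h1 : (τ : Y) ^ p ∈ Y₁ := by
      have h2 : ((τ : Y) : Y ⧸ Y₁) ^ p = 1 := by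
        have h3 : Nat.card (Y ⧸ Y₁) = p := h.wy.idx
        rw [← h3]
        exact pow_card_eq_one'
      exact (QuotientGroup.eq_one_iff ((τ : Y) ^ p)).1 h2
    have h2 := hV.2 h1
    rw [hκ1] at h2
    exact h2
  have hKP : ∀ z ∈ P, K z = 1 := by
    intro z hz
    obtain ⟨i, _, hi⟩ := PRD.rep hp Y₁ h.wy.idx hτ' z
    have h1 : ((τ : Y) ^ i)⁻¹ * z ∈ P := P.mul_mem (P.inv_mem (P.pow_mem τ.2 i)) hz
    have h2 : K (((τ : Y) ^ i)⁻¹ * z) = 1 := hK1 ⟨⟨_, h1⟩, hi⟩
    rw [map_mul, map_inv, map_pow, hKτ, one_pow, inv_one, one_mul] at h2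
    exact h2
  have hKall : ∀ y, K y = 1 := by
    intro y
    have htop : N ⊔ P = ⊤ := by
      apply CT0.sup_top hp N P h.wy.quo
      apply CT0.not_dvd_index hp
      rw [h.syl, hp.factorization_pow, Finsupp.single_eq_same]
    have h1 : y ∈ ((N ⊔ P : Subgroup Y) : Set Y) := by
      rw [htop]
      exact Subgroup.mem_top y
    rw [Subgroup.normal_mul] at h1
    obtain ⟨u, hu, v, hv, rfl⟩ := h1
    show K (u * v) = 1
    rw [map_mul, hKN u hu, hKP v hv, one_mul]
  -- the traces of `r'`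
  have hr' : ∀ g, ∀ hg : g ∈ H₀, ∀ hg' : g ^ (1 + s0 * p ^ a) ∈ H₀,
      (r' ⟨⟨g ^ (1 + s0 * p ^ a), h.wy.le hg'⟩, hg'⟩).trace = (r' ⟨⟨g, h.wy.le hg⟩, hg⟩).trace := by
    intro g hg hg'
    obtain ⟨y, hy, hf⟩ := CT0.exH h g hg
    have hf1 : f y ∈ H₀.subgroupOf Y₁ := by
      show ((f y : Y₁) : Y) ∈ H₀
      rw [hf]
      exact hg
    have h1 := h.td.res y hy hf1
    have hf2 : f (y ^ (1 + s0 * p ^ a)) ∈ H₀.subgroupOf Y₁ := by
      rw [map_pow]
      exact (H₀.subgroupOf Y₁).pow_mem hf1 _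
    have h2 := h.td.res _ (H0.pow_mem hy (1 + s0 * p ^ a)) hf2
    have h3 := hA0 y hy
    rw [h1, h2] at h3
    have e1 : (⟨f (y ^ (1 + s0 * p ^ a)), hf2⟩ : H₀.subgroupOf Y₁) =
        ⟨⟨g ^ (1 + s0 * p ^ a), h.wy.le hg'⟩, hg'⟩ := by
      apply Subtype.ext
      apply Subtype.ext
      show ((f (y ^ (1 + s0 * p ^ a)) : Y₁) : Y) = g ^ (1 + s0 * p ^ a)
      rw [map_pow, Subgroup.coe_pow, hf]
    have e2 : (⟨f y, hf1⟩ : H₀.subgroupOf Y₁) = ⟨⟨g, h.wy.le hg⟩, hg⟩ := by
      apply Subtype.ext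
      apply Subtype.ext
      exact hf
    rw [e1, e2] at h3
    exact h3
  -- `r` on `N`
  have hn0 : (n : ℂ) ^ (p - 1) ≠ 0 := pow_ne_zero _ (by exact_mod_cast CT0.n0 h)
  have hrN : ∀ y ∈ N, (r (y ^ (1 + s0 * p ^ a))).trace = (r y).trace := by
    intro y hy
    obtain ⟨g, hg, rfl⟩ := hPRD.2.2.2.2.2.2 _ hτ' y hy
    have h1 : (((List.range p).map fun i => (τ : Y) ^ i * g i * ((τ : Y) ^ i)⁻¹).prod) ^
        (1 + s0 * p ^ a) = ((List.range p).map fun i =>
          (τ : Y) ^ i * g i ^ (1 + s0 * p ^ a) * ((τ : Y) ^ i)⁻¹).prod := by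
      rw [NIN.prod_pow _ p fun i hi j hj hij =>
        PRD.comm hp Y₁ H₀ h.wy hτ' hi hj hij (hg i) (hg j)]
      congr 1
      apply List.map_congr_left
      intro i _
      exact conj_pow
    apply mul_left_cancel₀ hn0
    rw [h1, NIN.trr h hCTG hτ' _ fun i => H₀.pow_mem (hg i) _, NIN.trr h hCTG hτ' _ hg]
    refine prod_congr rfl fun i _ => ?_
    rw [hr' (g i) (hg i)]
  intro y
  rw [hKall y, Units.val_one, one_mul]
  have h1 := hGLA p hp L s0 h.hL hs h.card N n r h.deg h.schN hdetr a 1 ha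
    (by rw [mul_one]; exact hrN) y
  rwa [mul_one] at h1

end Pool.Agent.Lib.MP_1aae89_al.W5
end

section
/-!
# PHI: the homomorphism `X ↦ Q (1 ⊗ X) Q'`
-/
set_option autoImplicit false

namespace Pool.Agent.Lib.MP_1aae89_al.W5

open Pool.Agent.Lib.MP_1aae89_al Pool.Agent.Lib.MP_1aae89_al.BF Pool.Agent.Lib.MP_1aae89_al.W3
  Pool.Agent.Lib.MP_1aae89_al.W4 Finset
open scoped Kronecker

namespace PHI

variable {n e m : ℕ}

/-- the homomorphism -/
noncomputable def hom (Q : Matrix (Fin n) (Fin e × Fin m) ℂ)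
    (Q' : Matrix (Fin e × Fin m) (Fin n) ℂ) (h1 : Q * Q' = 1) (h2 : Q' * Q = 1) :
    Matrix (Fin m) (Fin m) ℂ →ₐ[ℂ] Matrix (Fin n) (Fin n) ℂ where
  toFun X := Q * (((1 : Matrix (Fin e) (Fin e) ℂ) ⊗ₖ X) * Q')
  map_one' := by rw [Matrix.one_kronecker_one, Matrix.one_mul, h1]
  map_mul' X Y := by
    have h3 : (1 : Matrix (Fin e) (Fin e) ℂ) ⊗ₖ (X * Y)
        = ((1 : Matrix (Fin e) (Fin e) ℂ) ⊗ₖ X) * ((1 : Matrix (Fin e) (Fin e) ℂ) ⊗ₖ Y) := by
      rw [← Matrix.mul_kronecker_mul, Matrix.one_mul]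
    have h4 : ((1 : Matrix (Fin e) (Fin e) ℂ) ⊗ₖ Y) * Q'
        = Q' * (Q * (((1 : Matrix (Fin e) (Fin e) ℂ) ⊗ₖ Y) * Q')) := by
      rw [← Matrix.mul_assoc Q' Q, h2, Matrix.one_mul]
    rw [h3]
    simp only [Matrix.mul_assoc]
    rw [← h4]
  map_zero' := by rw [Matrix.kronecker_zero, Matrix.zero_mul, Matrix.mul_zero]
  map_add' X Y := by rw [Matrix.kronecker_add, Matrix.add_mul, Matrix.mul_add]
  commutes' c := by
    rw [Algebra.algebraMap_eq_smul_one, Matrix.kronecker_smul, Matrix.one_kronecker_one,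
      Matrix.smul_mul, Matrix.one_mul, Matrix.mul_smul, h1, Algebra.algebraMap_eq_smul_one]

end PHI

open PHI in
theorem specPHI : SpecPHI := by
  intro L _ n e m s r' Q Q' h1 h2 hQ
  refine ⟨hom Q Q' h1 h2, fun l => ?_, fun X => ?_, fun X => ?_⟩
  · show Q * (((1 : Matrix (Fin e) (Fin e) ℂ) ⊗ₖ r' l) * Q') = s l
    rw [← Matrix.mul_assoc, ← hQ l, Matrix.mul_assoc, h1, Matrix.mul_one]
  · show (Q * (((1 : Matrix (Fin e) (Fin e) ℂ) ⊗ₖ X) * Q')).det = X.det ^ e
    rw [Matrix.det_comm' h1 h2, Matrix.mul_assoc, h2, Matrix.mul_one, Matrix.det_kronecker,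
      Matrix.det_one, one_pow, one_mul, Fintype.card_fin]
  · show (Q * (((1 : Matrix (Fin e) (Fin e) ℂ) ⊗ₖ X) * Q')).trace = e * X.trace
    rw [Matrix.trace_mul_comm, Matrix.mul_assoc, h2, Matrix.mul_one, Matrix.trace_kronecker,
      Matrix.trace_one, Fintype.card_fin]

end Pool.Agent.Lib.MP_1aae89_al.W5
end

section
/-!
# SDC: properties of a minimal normal subgroup
-/
set_option autoImplicit false

namespace Pool.Agent.Lib.MP_1aae89_al.W5

open Pool.Agent.Lib.MP_1aae89_al Pool.Agent.Lib.MP_1aae89_al.BF Pool.Agent.Lib.MP_1aae89_al.W3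
  Pool.Agent.Lib.MP_1aae89_al.W4 Finset

namespace SDC

variable {Z : Type} [Group Z]

/-- the conjugate of a subgroup -/
def cj (S : Subgroup Z) (z : Z) : Subgroup Z := S.map (MulAut.conj z).toMonoidHom

theorem mem_cj {S : Subgroup Z} {z w : Z} : w ∈ cj S z ↔ ∃ x ∈ S, z * x * z⁻¹ = w := Iff.rfl

theorem cj_le {N S : Subgroup Z} [N.Normal] (h : S ≤ N) (z : Z) : cj S z ≤ N := by
  rintro _ ⟨x, hx, rfl⟩
  exact Subgroup.Normal.conj_mem inferInstance x (h hx) z

theorem cj_norm {N S : Subgroup Z} [N.Normal] (h : ∀ g ∈ N, ∀ x ∈ S, g * x * g⁻¹ ∈ S) (z : Z) :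
    ∀ g ∈ N, ∀ x ∈ cj S z, g * x * g⁻¹ ∈ cj S z := by
  rintro g hg _ ⟨x, hx, rfl⟩
  have h1 : z⁻¹ * g * z ∈ N := by
    have := Subgroup.Normal.conj_mem (inferInstance : N.Normal) g hg z⁻¹
    rwa [inv_inv] at this
  refine ⟨(z⁻¹ * g * z) * x * (z⁻¹ * g * z)⁻¹, h _ h1 x hx, ?_⟩
  show z * ((z⁻¹ * g * z) * x * (z⁻¹ * g * z)⁻¹) * z⁻¹ = g * (z * x * z⁻¹) * g⁻¹
  group

theorem cj_min {N S : Subgroup Z} [N.Normal]
    (h : ∀ R : Subgroup Z, R ≤ S → (∀ g ∈ N, ∀ x ∈ R, g * x * g⁻¹ ∈ R) → R = ⊥ ∨ R = S) (z : Z) :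
    ∀ R : Subgroup Z, R ≤ cj S z → (∀ g ∈ N, ∀ x ∈ R, g * x * g⁻¹ ∈ R) → R = ⊥ ∨ R = cj S z := by
  intro R hR hRn
  have h1 : cj R z⁻¹ ≤ S := by
    rintro _ ⟨x, hx, rfl⟩
    obtain ⟨y, hy, rfl⟩ := hR hx
    show z⁻¹ * (z * y * z⁻¹) * z⁻¹⁻¹ ∈ S
    rwa [show z⁻¹ * (z * y * z⁻¹) * z⁻¹⁻¹ = y by group]
  have h2 := cj_norm hRn z⁻¹
  have h3 : cj (cj R z⁻¹) z = R := by
    ext w
    constructor
    · rintro ⟨_, ⟨x, hx, rfl⟩, rfl⟩
      show z * (z⁻¹ * x * z⁻¹⁻¹) * z⁻¹ ∈ R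
      rwa [show z * (z⁻¹ * x * z⁻¹⁻¹) * z⁻¹ = x by group]
    · intro hw
      refine ⟨z⁻¹ * w * z⁻¹⁻¹, ⟨w, hw, rfl⟩, ?_⟩
      show z * (z⁻¹ * w * z⁻¹⁻¹) * z⁻¹ = w
      group
  rcases h _ h1 h2 with h4 | h4
  · left
    rw [← h3, h4]
    exact Subgroup.map_bot _
  · right
    rw [← h3, h4]

/-- normalized subgroups of `N` with trivial intersection commute -/
theorem comm {N V C : Subgroup Z} (hV : V ≤ N) (hC : C ≤ N)
    (hVn : ∀ g ∈ N, ∀ x ∈ V, g * x * g⁻¹ ∈ V) (hCn : ∀ g ∈ N, ∀ x ∈ C, g * x * g⁻¹ ∈ C)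
    (h : V ⊓ C = ⊥) : ∀ x ∈ V, ∀ y ∈ C, x * y = y * x := by
  intro x hx y hy
  have h1 : x * y * x⁻¹ * y⁻¹ ∈ V ⊓ C := by
    refine ⟨?_, ?_⟩
    · have := V.mul_mem hx (hVn y (hC hy) _ (V.inv_mem hx))
      rwa [show x * (y * x⁻¹ * y⁻¹) = x * y * x⁻¹ * y⁻¹ by group] at this
    · exact C.mul_mem (hCn x (hV hx) y hy) (C.inv_mem hy)
  rw [h, Subgroup.mem_bot] at h1
  have h2 := mul_inv_eq_one.1 h1
  exact mul_inv_eq_iff_eq_mul.1 h2

theorem sup_norm {N V C : Subgroup Z} (hVn : ∀ g ∈ N, ∀ x ∈ V, g * x * g⁻¹ ∈ V)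
    (hCn : ∀ g ∈ N, ∀ x ∈ C, g * x * g⁻¹ ∈ C) :
    ∀ g ∈ N, ∀ x ∈ V ⊔ C, g * x * g⁻¹ ∈ V ⊔ C := by
  intro g hg x hx
  have h1 : (V ⊔ C).map (MulAut.conj g).toMonoidHom ≤ V ⊔ C := by
    rw [Subgroup.map_sup]
    apply sup_le_sup
    · rintro _ ⟨y, hy, rfl⟩
      exact hVn g hg y hy
    · rintro _ ⟨y, hy, rfl⟩
      exact hCn g hg y hy
  exact h1 ⟨x, hx, rfl⟩

end SDC

theorem specSDC : SpecSDC := by
  intro Pr hiso htriv hprod Z _ _ N _ hmin S hSN hS0 hSn hSmin hPS
  set T : Set (Subgroup Z) := {V | V ≤ N ∧ (∀ g ∈ N, ∀ x ∈ V, g * x * g⁻¹ ∈ V) ∧ Pr V} with hT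
  have hTn : T.Nonempty := by
    refine ⟨⊥, bot_le, ?_, htriv inferInstance⟩
    intro g _ x hx
    rw [Subgroup.mem_bot] at hx ⊢
    rw [hx]
    simp
  obtain ⟨V, ⟨hVN, hVn, hPV⟩, hmax⟩ := Set.exists_max_image T (fun V => Nat.card V)
    (Set.toFinite T) hTn
  by_cases hall : ∀ z, SDC.cj S z ≤ V
  · have h1 : Subgroup.normalClosure (S : Set Z) ≤ V := by
      unfold Subgroup.normalClosure
      rw [Subgroup.closure_le]
      intro x hx
      rw [Group.mem_conjugatesOfSet_iff] at hx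
      obtain ⟨a, ha, hax⟩ := hx
      obtain ⟨z, hz⟩ := isConj_iff.1 hax
      exact hall z ⟨a, ha, hz⟩
    have h2 : Subgroup.normalClosure (S : Set Z) = N := by
      rcases hmin _ Subgroup.normalClosure_normal (Subgroup.normalClosure_le_normal hSN) with h | h
      · exfalso
        apply hS0
        rw [eq_bot_iff, ← h]
        exact Subgroup.subset_normalClosure
      · exact h
    have h3 : V = N := le_antisymm hVN (h2 ▸ h1)
    rw [← h3]
    exact hPV
  · exfalso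
    push Not at hall
    obtain ⟨z, hz⟩ := hall
    set C := SDC.cj S z with hC
    have hCN : C ≤ N := SDC.cj_le hSN z
    have hCn := SDC.cj_norm (N := N) hSn z
    have hVC : V ⊓ C = ⊥ := by
      rcases SDC.cj_min (N := N) hSmin z (V ⊓ C) inf_le_right (by
        intro g hg x hx
        exact ⟨hVn g hg x hx.1, hCn g hg x hx.2⟩) with h | h
      · exact h
      · exact absurd (inf_eq_right.1 h) hz
    have hcomm := SDC.comm hVN hCN hVn hCn hVC
    have hW : V ⊔ C ∈ T := by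
      refine ⟨sup_le hVN hCN, SDC.sup_norm hVn hCn, ?_⟩
      apply hprod (V.subgroupOf (V ⊔ C)) (C.subgroupOf (V ⊔ C))
      · intro x hx y hy
        exact Subtype.ext (hcomm x.1 hx y.1 hy)
      · rw [eq_bot_iff]
        intro x hx
        have h1 : (x : Z) ∈ V ⊓ C := ⟨hx.1, hx.2⟩
        rw [hVC, Subgroup.mem_bot] at h1
        exact Subgroup.mem_bot.2 (Subtype.ext h1)
      · rw [← Subgroup.subgroupOf_sup le_sup_left le_sup_right, Subgroup.subgroupOf_self]
      · exact hiso (Subgroup.subgroupOfEquivOfLe le_sup_left).symm hPV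
      · refine hiso (Subgroup.subgroupOfEquivOfLe le_sup_right).symm ?_
        exact hiso (S.equivMapOfInjective (MulAut.conj z).toMonoidHom (MulAut.conj z).injective)
          hPS
    have h1 := hmax _ hW
    have h2 : V < V ⊔ C := by
      rw [left_lt_sup]
      exact hz
    have h3 : Nat.card V < Nat.card ↥(V ⊔ C) := by
      apply lt_of_le_of_ne (Subgroup.card_le_of_le le_sup_left)
      intro h
      apply h2.ne
      exact Subgroup.eq_of_le_of_card_ge le_sup_left h.symm.le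
    exact absurd h1 (not_le.2 h3)

end Pool.Agent.Lib.MP_1aae89_al.W5
end

section
/-!
# SYN: Sylow subgroups of subnormal subgroups
-/
set_option autoImplicit false

namespace Pool.Agent.Lib.MP_1aae89_al.W5

open Pool.Agent.Lib.MP_1aae89_al Pool.Agent.Lib.MP_1aae89_al.BF Pool.Agent.Lib.MP_1aae89_al.W3
  Pool.Agent.Lib.MP_1aae89_al.W4 Finset

namespace SYN

/-- the intersection of a Sylow subgroup with a normal subgroup -/
theorem card_inf {p : ℕ} (hp : p.Prime) {X : Type} [Group X] [Finite X] (Q N : Subgroup X)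
    [N.Normal] (hQ : Nat.card Q = p ^ (Nat.card X).factorization p) :
    Nat.card ↥(Q ⊓ N) = p ^ (Nat.card N).factorization p := by
  have h1 := W.SCB.card_sup Q N
  have h3 : Nat.card ↥(Q ⊓ N) ∣ Nat.card Q := Subgroup.card_dvd_of_le inf_le_left
  rw [hQ] at h3
  obtain ⟨j, -, hj⟩ := (Nat.dvd_prime_pow hp).1 h3
  have hX0 : Nat.card X ≠ 0 := Nat.card_pos.ne'
  have hN0 : Nat.card N ≠ 0 := Nat.card_pos.ne'
  have hS0 : Nat.card ↥(Q ⊔ N) ≠ 0 := Nat.card_pos.ne'
  have h5 : Nat.card ↥(Q ⊓ N) ∣ Nat.card N := Subgroup.card_dvd_of_le inf_le_right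
  have h6 : j ≤ (Nat.card N).factorization p := by
    rw [hj] at h5
    exact (hp.pow_dvd_iff_le_factorization hN0).1 h5
  have h7 : (Nat.card ↥(Q ⊔ N)).factorization p ≤ (Nat.card X).factorization p :=
    (Nat.factorization_le_iff_dvd hS0 hX0).2 (Subgroup.card_subgroup_dvd_card (Q ⊔ N)) p
  rw [hj, hQ] at h1
  have h4 := congrArg (fun n : ℕ => n.factorization p) h1
  rw [Nat.factorization_mul hS0 (pow_ne_zero _ hp.ne_zero),
    Nat.factorization_mul (pow_ne_zero _ hp.ne_zero) hN0, Finsupp.add_apply, Finsupp.add_apply,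
    Nat.factorization_pow, Nat.factorization_pow, Finsupp.smul_apply, Finsupp.smul_apply,
    hp.factorization_self] at h4
  simp only [smul_eq_mul, mul_one] at h4
  rw [hj]
  congr 1
  omega

theorem card_subgroupOf {X : Type} [Group X] (A B : Subgroup X) :
    Nat.card (A.subgroupOf B) = Nat.card ↥(A ⊓ B) := by
  rw [← Subgroup.inf_subgroupOf_right]
  exact Nat.card_congr (Subgroup.subgroupOfEquivOfLe inf_le_right).toEquiv

end SYN

open SYN in
theorem specSYN : SpecSYN := by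
  intro p hp M _ _ P B B' hle hn hP
  have hnorm : (B.subgroupOf B').Normal := by
    refine ⟨fun x hx g => ?_⟩
    exact hn g g.2 x hx
  have h1 : Nat.card (P.subgroupOf B') = p ^ (Nat.card B').factorization p := by
    rw [card_subgroupOf, hP]
  have h2 := card_inf hp (P.subgroupOf B') (B.subgroupOf B') h1
  have h3 : P.subgroupOf B' ⊓ B.subgroupOf B' = (P ⊓ B).subgroupOf B' := rfl
  rw [h3, card_subgroupOf, card_subgroupOf, inf_assoc, inf_eq_left.2 hle] at h2
  exact h2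

end Pool.Agent.Lib.MP_1aae89_al.W5
end

section
/-!
# SE4: series in a group and `D4`
-/
set_option autoImplicit false

namespace Pool.Agent.Lib.MP_1aae89_al.W5

open Pool.Agent.Lib.MP_1aae89_al Pool.Agent.Lib.MP_1aae89_al.BF Pool.Agent.Lib.MP_1aae89_al.W3
  Pool.Agent.Lib.MP_1aae89_al.W4 Finset

theorem specSE4 (hFAC : SpecFAC) (hK4I : SpecK4I) (hD4I : SpecD4I) : SpecSE4 := by
  intro p b hp M _ _ P A B hP hAB hnAB hS
  obtain ⟨l, R, hR0, hRl, hR⟩ := hS
  -- monotonicity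
  have hmono : ∀ j, j ≤ l → A ≤ R j := by
    intro j
    induction j with
    | zero => intro _; exact hR0.ge
    | succ j ih => intro hj; exact (ih (by omega)).trans (hR j (by omega)).1
  have hle : ∀ i, i ≤ l → R (l - i) ≤ B := by
    intro i
    induction i with
    | zero => intro _; rw [Nat.sub_zero]; exact hRl.le
    | succ i ih =>
      intro hi
      have h1 := (hR (l - (i + 1)) (by omega)).1
      rw [show l - (i + 1) + 1 = l - i by omega] at h1
      exact h1.trans (ih (by omega))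
  have hle' : ∀ j, j ≤ l → R j ≤ B := by
    intro j hj
    have := hle (l - j) (by omega)
    rwa [show l - (l - j) = j by omega] at this
  -- Sylow subgroups
  have hsyl : ∀ i, i ≤ l → Nat.card ↥(P ⊓ R (l - i)) =
      p ^ (Nat.card (R (l - i))).factorization p := by
    intro i
    induction i with
    | zero => intro _; rw [Nat.sub_zero, hRl]; exact hP
    | succ i ih =>
      intro hi
      have h1 := hR (l - (i + 1)) (by omega)
      rw [show l - (i + 1) + 1 = l - i by omega] at h1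
      exact specSYN p hp P _ _ h1.1 h1.2.1 (ih (by omega))
  have hsyl' : ∀ j, j ≤ l → Nat.card ↥(P ⊓ R j) = p ^ (Nat.card (R j)).factorization p := by
    intro j hj
    have := hsyl (l - j) (by omega)
    rwa [show l - (l - j) = j by omega] at this
  have hnB : ∀ g ∈ B, ∀ x ∈ A, g * x * g⁻¹ ∈ A := by
    intro g hg x hx
    have h1 := hnAB.conj_mem ⟨x, hAB hx⟩ (Subgroup.mem_subgroupOf.2 hx) ⟨g, hg⟩
    exact Subgroup.mem_subgroupOf.1 h1
  have hnA : ∀ j, j ≤ l → (A.subgroupOf (R j)).Normal := by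
    intro j hj
    refine ⟨fun x hx g => ?_⟩
    rw [Subgroup.mem_subgroupOf] at hx ⊢
    exact hnB g (hle' j hj g.2) x hx
  have key : ∀ j, j ≤ l → ∀ [(A.subgroupOf (R j)).Normal],
      D4 p b j (↥(R j) ⧸ A.subgroupOf (R j)) := by
    intro j
    induction j with
    | zero =>
      intro _ hn
      have h1 : A.subgroupOf (R 0) = ⊤ := by
        rw [hR0]
        exact Subgroup.subgroupOf_self A
      show Subsingleton (↥(R 0) ⧸ A.subgroupOf (R 0))
      refine ⟨fun x y => ?_⟩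
      obtain ⟨x, rfl⟩ := QuotientGroup.mk'_surjective _ x
      obtain ⟨y, rfl⟩ := QuotientGroup.mk'_surjective _ y
      refine QuotientGroup.eq.2 ?_
      rw [h1]
      exact Subgroup.mem_top _
    | succ j ih =>
      intro hj hn
      obtain ⟨hjj, hnj, hfj⟩ := hR j (by omega)
      have hnA' : (A.subgroupOf (R j)).Normal := hnA j (by omega)
      have hD := ih (by omega)
      obtain ⟨e⟩ := SGO.iso A (R j) (R (j + 1)) hjj
      have hNj : ((R j).subgroupOf (R (j + 1))).Normal := by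
        refine ⟨fun x hx g => ?_⟩
        rw [Subgroup.mem_subgroupOf] at hx ⊢
        exact hnj g g.2 x hx
      have hNm : (((R j).subgroupOf (R (j + 1))).map
          (QuotientGroup.mk' (A.subgroupOf (R (j + 1))))).Normal :=
        hNj.map _ (QuotientGroup.mk'_surjective _)
      refine ⟨((R j).subgroupOf (R (j + 1))).map
          (QuotientGroup.mk' (A.subgroupOf (R (j + 1)))), hNm, hD4I p b j e hD, ?_⟩
      have hsub : A.subgroupOf (R (j + 1)) ≤ (R j).subgroupOf (R (j + 1)) := by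
        intro x hx
        rw [Subgroup.mem_subgroupOf] at hx ⊢
        exact hmono j (by omega) hx
      have e2 := QuotientGroup.quotientQuotientEquivQuotient (A.subgroupOf (R (j + 1)))
        ((R j).subgroupOf (R (j + 1))) hsub
      refine hK4I p b e2.symm ?_
      rcases hfj with hf | hf
      · exact Or.inl (hFAC p b hp P (R j) (R (j + 1)) hjj (hsyl' (j + 1) hj) hf)
      · exact Or.inr hf
  have hnl : (A.subgroupOf (R l)).Normal := hnA l le_rfl
  have hfin := key l le_rfl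
  subst hRl
  exact ⟨l, hfin⟩

end Pool.Agent.Lib.MP_1aae89_al.W5
end

section
/-!
# SER: series in a group and the class `DD`
-/
set_option autoImplicit false

namespace Pool.Agent.Lib.MP_1aae89_al.W5

open Pool.Agent.Lib.MP_1aae89_al Pool.Agent.Lib.MP_1aae89_al.BF Pool.Agent.Lib.MP_1aae89_al.W3
  Pool.Agent.Lib.MP_1aae89_al.W4 Finset

namespace SER

/-- the series is ascending -/
theorem mono {M : Type} [Group M] (l : ℕ) (R : ℕ → Subgroup M)
    (h : ∀ j < l, R j ≤ R (j + 1)) (i j : ℕ) (hij : i ≤ j) (hj : j ≤ l) : R i ≤ R j := by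
  induction j, hij using Nat.le_induction with
  | base => exact le_rfl
  | succ k _ ih => exact (ih (by omega)).trans (h k (by omega))

/-- `P ⊓ R j` is a Sylow subgroup of `R j` -/
theorem syl (hSYN : SpecSYN) {p : ℕ} (hp : p.Prime) {M : Type} [Group M] [Finite M]
    (P : Subgroup M) (l : ℕ) (R : ℕ → Subgroup M) (h : ∀ j < l, R j ≤ R (j + 1))
    (hn : ∀ j < l, ∀ g ∈ R (j + 1), ∀ x ∈ R j, g * x * g⁻¹ ∈ R j)
    (hP : Nat.card ↥(P ⊓ R l) = p ^ (Nat.card (R l)).factorization p) (k : ℕ) :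
    ∀ j, j + k = l → Nat.card ↥(P ⊓ R j) = p ^ (Nat.card (R j)).factorization p := by
  induction k with
  | zero =>
    intro j hj
    rw [add_zero] at hj
    rw [hj]
    exact hP
  | succ k ih =>
    intro j hj
    have h1 : j < l := by omega
    exact hSYN p hp P (R j) (R (j + 1)) (h j h1) (hn j h1) (ih (j + 1) (by omega))

/-- `A` is normal in the terms of the series -/
theorem norm {M : Type} [Group M] {A B C : Subgroup M} (hCB : C ≤ B)
    (hAB : (A.subgroupOf B).Normal) : (A.subgroupOf C).Normal := by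
  refine ⟨fun x hx g => ?_⟩
  have h1 : (⟨(x : M), hCB x.2⟩ : B) ∈ A.subgroupOf B := hx
  exact hAB.conj_mem _ h1 ⟨(g : M), hCB g.2⟩

end SER

open SER in
theorem specSER (hSYN : SpecSYN) (hFAC : SpecFAC) (hCCI : SpecCCI) (hDDI : SpecDDI) :
    SpecSER := by
  intro p b hp M _ _ P A B hP hAB hN ⟨l, R, hR0, hRl, hR⟩
  have hle : ∀ j < l, R j ≤ R (j + 1) := fun j hj => (hR j hj).1
  have hsyl : ∀ j ≤ l, Nat.card ↥(P ⊓ R j) = p ^ (Nat.card (R j)).factorization p :=
    fun j hj => syl hSYN hp P l R hle (fun j hj => (hR j hj).2.1) (by rw [hRl]; exact hP) (l - j) j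
      (by omega)
  have hnor : ∀ j ≤ l, (A.subgroupOf (R j)).Normal := fun j hj =>
    norm (by rw [← hRl]; exact mono l R hle j l hj le_rfl) hN
  have main : ∀ j, j ≤ l → ∀ [(A.subgroupOf (R j)).Normal], DD p b j (R j ⧸ A.subgroupOf (R j)) := by
    intro j
    induction j with
    | zero =>
      intro _ _
      have h1 : A.subgroupOf (R 0) = ⊤ := by
        rw [hR0]
        exact Subgroup.subgroupOf_self A
      have h2 : Subsingleton (R 0 ⧸ A.subgroupOf (R 0)) := by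
        refine ⟨fun x y => ?_⟩
        induction x using QuotientGroup.induction_on with
        | H x =>
          induction y using QuotientGroup.induction_on with
          | H y =>
            rw [QuotientGroup.eq, h1]
            exact Subgroup.mem_top _
      exact h2
    | succ j ih =>
      intro hj _
      have hN' := hnor j (by omega)
      have h1 : DD p b j (R j ⧸ A.subgroupOf (R j)) := ih (by omega)
      obtain ⟨hjle, hjn, hF⟩ := hR j (by omega)
      have hRn : ((R j).subgroupOf (R (j + 1))).Normal :=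
        ⟨fun x hx g => hjn g g.2 x hx⟩
      have hAR : A ≤ R j := by
        rw [← hR0]
        exact mono l R hle 0 j (Nat.zero_le _) (by omega)
      obtain ⟨e⟩ := SGO.iso A (R j) (R (j + 1)) hjle
      have hNm : (((R j).subgroupOf (R (j + 1))).map
          (QuotientGroup.mk' (A.subgroupOf (R (j + 1))))).Normal :=
        hRn.map _ (QuotientGroup.mk'_surjective _)
      refine ⟨((R j).subgroupOf (R (j + 1))).map (QuotientGroup.mk' (A.subgroupOf (R (j + 1)))),
        hNm, hDDI p b j e h1, ?_⟩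
      have h2 : CC p b (R (j + 1) ⧸ (R j).subgroupOf (R (j + 1))) :=
        hFAC p b hp P (R j) (R (j + 1)) hjle (hsyl (j + 1) hj) hF
      have hle' : A.subgroupOf (R (j + 1)) ≤ (R j).subgroupOf (R (j + 1)) := fun x hx => hAR hx
      exact hCCI p b (QuotientGroup.quotientQuotientEquivQuotient _ _ hle').symm h2
  subst hRl
  exact ⟨l, main l le_rfl⟩

end Pool.Agent.Lib.MP_1aae89_al.W5
end

section
/-!
# SG4: a step of the chain, factors as in `D4`
-/
set_option autoImplicit false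

namespace Pool.Agent.Lib.MP_1aae89_al.W5

open Pool.Agent.Lib.MP_1aae89_al Pool.Agent.Lib.MP_1aae89_al.BF Pool.Agent.Lib.MP_1aae89_al.W3
  Pool.Agent.Lib.MP_1aae89_al.W4 Finset

theorem specSG4 (hD4I : SpecD4I) (hD4E : SpecD4E) (hDG4 : SpecDG4) : SpecSG4 := by
  intro p b hp hb M _ _ P hP K K' hKK' hK1 hK2 hK3 _ n hDD hN
  have : Fact p.Prime := ⟨hp⟩
  have hF : (K'.subgroupOf (K' ⊔ P)).Normal := by
    have h1 : K' ⊔ P ≤ Subgroup.normalizer (K' : Set M) := by
      refine sup_le Subgroup.le_normalizer fun g hg => ?_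
      rw [Subgroup.mem_normalizer_iff]
      intro x
      refine ⟨fun hx => hK3 g hg x hx, fun hx => ?_⟩
      have h2 := hK3 g⁻¹ (P.inv_mem hg) _ hx
      rwa [show g⁻¹ * (g * x * g⁻¹) * g⁻¹⁻¹ = x by group] at h2
    exact (Subgroup.normal_subgroupOf_iff_le_normalizer le_sup_left).2 h1
  obtain ⟨e⟩ := SGO.iso K K' (K' ⊔ P) le_sup_left
  have hNm : ((K'.subgroupOf (K' ⊔ P)).map (QuotientGroup.mk' (K.subgroupOf (K' ⊔ P)))).Normal :=
    hF.map _ (QuotientGroup.mk'_surjective _)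
  have h1 := hD4I p b n e hDD
  refine hDG4 p b hp hb (n + 1) (hD4E p b hp n _ h1 ?_)
  intro x
  obtain ⟨⟨x, hx⟩, rfl⟩ := QuotientGroup.mk'_surjective _ x
  have h2 : (⟨x, hx⟩ : ↥(K' ⊔ P)) ∈ K'.subgroupOf (K' ⊔ P) ⊔ P.subgroupOf (K' ⊔ P) := by
    rw [← Subgroup.subgroupOf_sup le_sup_left le_sup_right, Subgroup.subgroupOf_self]
    exact Subgroup.mem_top _
  rw [Subgroup.mem_sup_of_normal_left] at h2
  obtain ⟨f, hf, y, hy, hfy⟩ := h2
  obtain ⟨j, hj⟩ := hP ⟨(y : M), hy⟩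
  have hj' : y ^ p ^ j = 1 := by
    apply Subtype.ext
    have := congrArg Subtype.val hj
    simpa using this
  refine ⟨j, ?_⟩
  have h3 : (⟨x, hx⟩ : ↥(K' ⊔ P)) ^ p ^ j ∈ K'.subgroupOf (K' ⊔ P) := by
    rw [← QuotientGroup.eq_one_iff, ← hfy]
    have h4 : ((f * y : ↥(K' ⊔ P)) : ↥(K' ⊔ P) ⧸ K'.subgroupOf (K' ⊔ P)) =
        ((y : ↥(K' ⊔ P)) : ↥(K' ⊔ P) ⧸ K'.subgroupOf (K' ⊔ P)) := by
      rw [QuotientGroup.mk_mul, (QuotientGroup.eq_one_iff f).2 hf, one_mul]
    rw [QuotientGroup.mk_pow, h4, ← QuotientGroup.mk_pow, hj', QuotientGroup.mk_one]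
  exact ⟨_, h3, map_pow _ _ _⟩

end Pool.Agent.Lib.MP_1aae89_al.W5
end

section
/-!
# Module SPL: minimal normal subgroups which are not simple
-/
set_option autoImplicit false

namespace Pool.Agent.Lib.MP_1aae89_al.W5

open Pool.Agent.Lib.MP_1aae89_al Pool.Agent.Lib.MP_1aae89_al.BF Pool.Agent.Lib.MP_1aae89_al.W3
  Pool.Agent.Lib.MP_1aae89_al.W4 Finset
open Pool.Agent.Lib.MP1aae89 (Pex)
open scoped commutatorElement

namespace SPL

variable {Z : Type} [Group Z]

/-- the conjugate subgroup -/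
def cjs (z : Z) (S : Subgroup Z) : Subgroup Z := S.map (MulAut.conj z).toMonoidHom

theorem mem_cjs {z : Z} {S : Subgroup Z} {x : Z} : x ∈ cjs z S ↔ z⁻¹ * x * z ∈ S := by
  unfold cjs
  rw [Subgroup.mem_map]
  constructor
  · rintro ⟨s, hs, rfl⟩
    have : z⁻¹ * ((MulAut.conj z).toMonoidHom s) * z = s := by
      show z⁻¹ * (z * s * z⁻¹) * z = s
      group
    rwa [this]
  · intro h
    refine ⟨_, h, ?_⟩
    show z * (z⁻¹ * x * z) * z⁻¹ = x
    group

theorem card_cjs (z : Z) (S : Subgroup Z) : Nat.card (cjs z S) = Nat.card S :=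
  (Nat.card_congr (S.equivMapOfInjective _ (MulAut.conj z).injective).toEquiv).symm

/-- nontrivial subgroups of `N` normalized by `N` -/
structure NSub (N S : Subgroup Z) : Prop where
  le : S ≤ N
  nb : S ≠ ⊥
  cn : ∀ x ∈ N, ∀ y ∈ S, x * y * x⁻¹ ∈ S

theorem NSub.conj {N S : Subgroup Z} [hN : N.Normal] (h : NSub N S) (z : Z) : NSub N (cjs z S) where
  le := by
    intro x hx
    have h1 := hN.conj_mem _ (h.le (mem_cjs.1 hx)) z
    rwa [show z * (z⁻¹ * x * z) * z⁻¹ = x by group] at h1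
  nb := by
    intro hb
    apply h.nb
    rw [Subgroup.eq_bot_iff_forall]
    intro s hs
    have h1 : z * s * z⁻¹ ∈ cjs z S := by
      rw [mem_cjs, show z⁻¹ * (z * s * z⁻¹) * z = s by group]
      exact hs
    rw [hb, Subgroup.mem_bot, mul_inv_eq_one, mul_eq_left] at h1
    exact h1
  cn := by
    intro x hx y hy
    rw [mem_cjs] at hy ⊢
    have h1 := h.cn _ (hN.conj_mem _ hx z⁻¹) _ hy
    rwa [show z⁻¹ * x * z⁻¹⁻¹ * (z⁻¹ * y * z) * (z⁻¹ * x * z⁻¹⁻¹)⁻¹ = z⁻¹ * (x * y * x⁻¹) * z by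
      group] at h1

theorem exists_min {N : Subgroup Z} (h : ∃ S, NSub N S) :
    ∃ S, NSub N S ∧ ∀ T, NSub N T → Nat.card S ≤ Nat.card T := by
  classical
  have h1 : ∃ k : ℕ, ∃ S, NSub N S ∧ Nat.card S = k := by
    obtain ⟨S, hS⟩ := h
    exact ⟨_, S, hS, rfl⟩
  obtain ⟨S, hS, hk⟩ := Nat.find_spec h1
  refine ⟨S, hS, fun T hT => ?_⟩
  rw [hk]
  exact Nat.find_min' h1 ⟨T, hT, rfl⟩

theorem comm_of_ne [Finite Z] {N : Subgroup Z} {c : ℕ} (hc : ∀ T, NSub N T → c ≤ Nat.card T)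
    {T T' : Subgroup Z} (hT : NSub N T) (hT' : NSub N T') (h1 : Nat.card T = c)
    (h2 : Nat.card T' = c) (hne : T ≠ T') : ∀ x ∈ T, ∀ y ∈ T', x * y = y * x := by
  have h3 : T ⊓ T' = ⊥ := by
    by_contra hb
    have h4 : NSub N (T ⊓ T') := ⟨inf_le_left.trans hT.le, hb,
      fun x hx y hy => ⟨hT.cn x hx y hy.1, hT'.cn x hx y hy.2⟩⟩
    have h5 := hc _ h4
    have h6 : T ⊓ T' = T := Subgroup.eq_of_le_of_card_ge inf_le_left (by rw [h1]; exact h5)
    have h7 : T ⊓ T' = T' := Subgroup.eq_of_le_of_card_ge inf_le_right (by rw [h2]; exact h5)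
    exact hne (h6.symm.trans h7)
  intro x hx y hy
  have h4 : x * y * x⁻¹ * y⁻¹ ∈ T ⊓ T' := by
    refine ⟨?_, ?_⟩
    · have h5 := hT.cn y (hT'.le hy) _ (T.inv_mem hx)
      have h6 := T.mul_mem hx h5
      rwa [show x * (y * x⁻¹ * y⁻¹) = x * y * x⁻¹ * y⁻¹ by group] at h6
    · exact T'.mul_mem (hT'.cn x (hT.le hx) y hy) (T'.inv_mem hy)
  rw [h3, Subgroup.mem_bot] at h4
  have h5 : x * y * (y * x)⁻¹ = 1 := by
    rw [show x * y * (y * x)⁻¹ = x * y * x⁻¹ * y⁻¹ by group]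
    exact h4
  exact mul_inv_eq_one.1 h5

/-- the stabilizer of `S` -/
def sta (S : Subgroup Z) : Subgroup Z where
  carrier := {z | cjs z S = S}
  mul_mem' := by
    intro a b ha hb
    show cjs (a * b) S = S
    have h1 : cjs a S = S := ha
    have h2 : cjs b S = S := hb
    ext x
    rw [mem_cjs]
    conv_rhs => rw [← h1, mem_cjs, ← h2, mem_cjs]
    rw [show (a * b)⁻¹ * x * (a * b) = b⁻¹ * (a⁻¹ * x * a) * b by group]
  one_mem' := by
    show cjs 1 S = S
    ext x
    rw [mem_cjs, inv_one, one_mul, mul_one]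
  inv_mem' := by
    intro a ha
    show cjs a⁻¹ S = S
    have h1 : cjs a S = S := ha
    ext x
    rw [mem_cjs]
    conv_lhs => rw [← h1, mem_cjs]
    rw [show a⁻¹ * (a⁻¹⁻¹ * x * a⁻¹) * a = x by group]

theorem mem_sta {S : Subgroup Z} {z : Z} : z ∈ sta S ↔ cjs z S = S := Iff.rfl

theorem cjs_mul_inv {S : Subgroup Z} {x z : Z} (h : cjs x S = cjs z S) : x⁻¹ * z ∈ sta S := by
  rw [mem_sta]
  ext y
  rw [mem_cjs, show (x⁻¹ * z)⁻¹ * y * (x⁻¹ * z) = z⁻¹ * (x * y * x⁻¹) * z by group, ← mem_cjs, ← h,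
    mem_cjs, show x⁻¹ * (x * y * x⁻¹) * x = y by group]

/-- commutators in a product of commuting subgroups -/
theorem comm_prod {u v u' v' : Z} (h11 : Commute u v) (h12 : Commute u v') (h21 : Commute u' v)
    (h22 : Commute u' v') : ⁅u * v, u' * v'⁆ = ⁅u, u'⁆ * ⁅v, v'⁆ := by
  rw [commutatorElement_def, commutatorElement_def, commutatorElement_def]
  have e1 : u * v * (u' * v') = (u * u') * (v * v') := h21.symm.mul_mul_mul_comm _ _
  have e2 : (u * v)⁻¹ = u⁻¹ * v⁻¹ := by rw [mul_inv_rev, (h11.inv_inv).eq]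
  have e3 : (u' * v')⁻¹ = u'⁻¹ * v'⁻¹ := by rw [mul_inv_rev, (h22.inv_inv).eq]
  have e4 : u⁻¹ * v⁻¹ * (u'⁻¹ * v'⁻¹) = (u⁻¹ * u'⁻¹) * (v⁻¹ * v'⁻¹) :=
    (h21.symm.inv_inv).mul_mul_mul_comm _ _
  have e5 : Commute (v * v') (u⁻¹ * u'⁻¹) := by
    refine Commute.mul_right ?_ ?_
    · exact Commute.mul_left h11.symm.inv_right h12.symm.inv_right
    · exact Commute.mul_left h21.symm.inv_right h22.symm.inv_right
  calc u * v * (u' * v') * (u * v)⁻¹ * (u' * v')⁻¹
      = (u * u') * (v * v') * ((u⁻¹ * u'⁻¹) * (v⁻¹ * v'⁻¹)) := by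
        rw [e1, e2, e3, mul_assoc ((u * u') * (v * v')), e4]
    _ = (u * u') * (u⁻¹ * u'⁻¹) * ((v * v') * (v⁻¹ * v'⁻¹)) := e5.mul_mul_mul_comm _ _
    _ = _ := by group

end SPL

open SPL in
theorem specSPL : SpecSPL := by
  intro p hp Z _ _ N hN hmin hq hnab ⟨R, hR, hRb, hRt⟩
  classical
  have hfp : Fact p.Prime := ⟨hp⟩
  have hR' : NSub N (R.map N.subtype) := by
    refine ⟨?_, fun h => hRb ((Subgroup.map_eq_bot_iff_of_injective R N.subtype_injective).1 h), ?_⟩
    · rintro _ ⟨x, _, rfl⟩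
      exact x.2
    · rintro x hx _ ⟨y, hy, rfl⟩
      exact ⟨⟨x, hx⟩ * y * ⟨x, hx⟩⁻¹, hR.conj_mem y hy _, rfl⟩
  obtain ⟨S, hS, hSm⟩ := exists_min ⟨_, hR'⟩
  have hSN : S ≠ N := by
    intro h
    have h1 := hSm _ hR'
    rw [h] at h1
    have h2 : R.map N.subtype = N := Subgroup.eq_of_le_of_card_ge hR'.le h1
    apply hRt
    rw [eq_top_iff]
    intro x _
    have h3 : (x : Z) ∈ R.map N.subtype := by
      rw [h2]
      exact x.2
    obtain ⟨y, hy, hyx⟩ := h3
    have h4 : y = x := Subtype.ext hyx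
    rw [← h4]
    exact hy
  have hcj : ∀ z : Z, NSub N (cjs z S) := fun z => hS.conj z
  have hcomm : ∀ z z' : Z, cjs z S ≠ cjs z' S → ∀ x ∈ cjs z S, ∀ y ∈ cjs z' S, x * y = y * x :=
    fun z z' h => comm_of_ne hSm (hcj z) (hcj z') (card_cjs z S) (card_cjs z' S) h
  -- the stabilizer
  have hNB : N ≤ sta S := by
    intro x hx
    rw [mem_sta]
    ext y
    rw [mem_cjs]
    constructor
    · intro h
      have h1 := hS.cn x hx _ h
      rwa [show x * (x⁻¹ * y * x) * x⁻¹ = y by group] at h1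
    · intro h
      have h1 := hS.cn _ (N.inv_mem hx) _ h
      rwa [inv_inv] at h1
  have hBt : sta S ≠ ⊤ := by
    intro h
    have h1 : S.Normal := by
      refine ⟨fun s hs z => ?_⟩
      have h2 : z ∈ sta S := by
        rw [h]
        exact Subgroup.mem_top z
      rw [mem_sta] at h2
      rw [← h2, mem_cjs, show z⁻¹ * (z * s * z⁻¹) * z = s by group]
      exact hs
    rcases hmin S h1 hS.le with h2 | h2
    · exact hS.nb h2
    · exact hSN h2
  have hpg : IsPGroup p (Z ⧸ N) := by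
    intro g
    obtain ⟨z, rfl⟩ := QuotientGroup.mk'_surjective N g
    obtain ⟨j, hj⟩ := hq z
    refine ⟨j, ?_⟩
    rw [← map_pow]
    exact (QuotientGroup.eq_one_iff _).2 hj
  obtain ⟨e, he⟩ := IsPGroup.iff_card.1 hpg
  have hB' : (sta S).map (QuotientGroup.mk' N) ≠ ⊤ := by
    intro h
    apply hBt
    have h1 : ((sta S).map (QuotientGroup.mk' N)).comap (QuotientGroup.mk' N) = sta S :=
      Subgroup.comap_map_eq_self (by rw [QuotientGroup.ker_mk']; exact hNB)
    rw [← h1, h, Subgroup.comap_top]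
  have hft : Fintype (Z ⧸ N) := Fintype.ofFinite _
  obtain ⟨X, hXn, hXi, hBX⟩ := exists_normal he _ hB'
  set X₁ : Subgroup Z := X.comap (QuotientGroup.mk' N) with hX₁
  have hX₁n : X₁.Normal := hXn.comap _
  have hX₁i : X₁.index = p := by
    rw [hX₁, Subgroup.index_comap_of_surjective _ (QuotientGroup.mk'_surjective N), hXi]
  have hBX₁ : sta S ≤ X₁ := Subgroup.map_le_iff_le_comap.1 hBX
  have hNX : N ≤ X₁ := hNB.trans hBX₁
  set G : Set Z := {w | ∃ x ∈ X₁, ∃ s ∈ S, w = x * s * x⁻¹} with hG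
  set N₀ : Subgroup Z := Subgroup.closure G with hN₀
  have hN₀N : N₀ ≤ N := by
    rw [hN₀, Subgroup.closure_le]
    rintro w ⟨x, _, s, hs, rfl⟩
    exact hN.conj_mem s (hS.le hs) x
  have hSN₀ : S ≤ N₀ := by
    intro s hs
    apply Subgroup.subset_closure
    exact ⟨1, X₁.one_mem, s, hs, by group⟩
  have hn0 : ∀ x ∈ X₁, ∀ y ∈ N₀, x * y * x⁻¹ ∈ N₀ := by
    intro x hx y hy
    have h1 : N₀ ≤ N₀.comap (MulAut.conj x).toMonoidHom := by
      conv_lhs => rw [hN₀]
      rw [Subgroup.closure_le]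
      rintro w ⟨x', hx', s, hs, rfl⟩
      show x * (x' * s * x'⁻¹) * x⁻¹ ∈ N₀
      apply Subgroup.subset_closure
      exact ⟨x * x', X₁.mul_mem hx hx', s, hs, by group⟩
    exact h1 hy
  have hcom : ∀ z ∉ X₁, ∀ x ∈ N₀, ∀ y ∈ N₀, x * (z * y * z⁻¹) = z * y * z⁻¹ * x := by
    intro z hz
    have h1 : ∀ a ∈ G, ∀ b ∈ G, a * (z * b * z⁻¹) = z * b * z⁻¹ * a := by
      rintro _ ⟨x, hx, s, hs, rfl⟩ _ ⟨x', hx', s', hs', rfl⟩
      apply hcomm x (z * x')
      · intro h
        have h2 := hBX₁ (cjs_mul_inv h)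
        apply hz
        have h3 := X₁.mul_mem (X₁.mul_mem hx h2) (X₁.inv_mem hx')
        rwa [show x * (x⁻¹ * (z * x')) * x'⁻¹ = z by group] at h3
      · rw [mem_cjs, show x⁻¹ * (x * s * x⁻¹) * x = s by group]
        exact hs
      · rw [mem_cjs, show (z * x')⁻¹ * (z * (x' * s' * x'⁻¹) * z⁻¹) * (z * x') = s' by group]
        exact hs'
    have h2 : ∀ a ∈ G, ∀ y ∈ N₀, a * (z * y * z⁻¹) = z * y * z⁻¹ * a := by
      intro a ha y hy
      have h3 : N₀ ≤ (Subgroup.centralizer {a}).comap (MulAut.conj z).toMonoidHom := by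
        rw [hN₀, Subgroup.closure_le]
        intro b hb
        show z * b * z⁻¹ ∈ Subgroup.centralizer {a}
        rw [Subgroup.mem_centralizer_singleton_iff]
        exact (h1 a ha b hb).symm
      have h4 : z * y * z⁻¹ ∈ Subgroup.centralizer {a} := h3 hy
      rw [Subgroup.mem_centralizer_singleton_iff] at h4
      exact h4.symm
    intro x hx y hy
    have h3 : N₀ ≤ Subgroup.centralizer {z * y * z⁻¹} := by
      rw [hN₀, Subgroup.closure_le]
      intro a ha
      show a ∈ Subgroup.centralizer {z * y * z⁻¹}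
      rw [Subgroup.mem_centralizer_singleton_iff]
      exact h2 a ha y hy
    have h4 := h3 hx
    rw [Subgroup.mem_centralizer_singleton_iff] at h4
    exact h4
  have hnc : Subgroup.normalClosure (N₀ : Set Z) = N := by
    have h1 : Subgroup.normalClosure (N₀ : Set Z) ≤ N := Subgroup.normalClosure_le_normal hN₀N
    rcases hmin _ Subgroup.normalClosure_normal h1 with h2 | h2
    · exfalso
      apply hS.nb
      rw [eq_bot_iff, ← h2]
      exact hSN₀.trans (Subgroup.le_normalClosure)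
    · exact h2
  have hWY : WY p X₁ N₀ := ⟨hX₁n, hX₁i, hN₀N.trans hNX, hn0, hcom, by
    intro y
    rw [hnc]
    exact hq y⟩
  have hcl : ⁅N₀, N₀⁆ ≤ N₀ := by
    rw [Subgroup.commutator_le]
    intro a ha b hb
    rw [commutatorElement_def]
    exact N₀.mul_mem (N₀.mul_mem (N₀.mul_mem ha hb) (N₀.inv_mem ha)) (N₀.inv_mem hb)
  refine ⟨X₁, N₀, hWY, le_antisymm hcl ?_⟩
  · obtain ⟨-, -, h3, -, h5, -, -⟩ := specPRD p hp X₁ N₀ hWY
    rw [hnc] at h5
    -- `N` is perfect
    have hperf : ⁅N, N⁆ = N := by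
      have h1 : ⁅N, N⁆ ≤ N := Subgroup.commutator_le_left N N
      rcases hmin ⁅N, N⁆ inferInstance h1 with h2 | h2
      · exfalso
        apply hnab
        intro x hx y hy
        have h6 : ⁅x, y⁆ ∈ ⁅N, N⁆ := Subgroup.commutator_mem_commutator hx hy
        rw [h2, Subgroup.mem_bot] at h6
        exact commutatorElement_eq_one_iff_mul_comm.1 h6
      · exact h2
    -- the centre of `N` is trivial
    have hcen : ∀ c ∈ N, (∀ y ∈ N, c * y = y * c) → c = 1 := by
      let C : Subgroup Z :=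
        { carrier := {c | c ∈ N ∧ ∀ y ∈ N, c * y = y * c}
          mul_mem' := by
            rintro a b ⟨ha, ha'⟩ ⟨hb, hb'⟩
            refine ⟨N.mul_mem ha hb, fun y hy => ?_⟩
            rw [mul_assoc, hb' y hy, ← mul_assoc, ha' y hy, mul_assoc]
          one_mem' := ⟨N.one_mem, fun y _ => by rw [one_mul, mul_one]⟩
          inv_mem' := by
            rintro a ⟨ha, ha'⟩
            refine ⟨N.inv_mem ha, fun y hy => ?_⟩
            have := ha' y hy
            rw [inv_mul_eq_iff_eq_mul, ← mul_assoc, this, mul_assoc, mul_inv_cancel, mul_one] }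
      have hCn : C.Normal := by
        refine ⟨?_⟩
        rintro c ⟨hc, hc'⟩ z
        refine ⟨hN.conj_mem c hc z, fun y hy => ?_⟩
        have h6 := hc' (z⁻¹ * y * z) (by
          have := hN.conj_mem y hy z⁻¹
          rwa [inv_inv] at this)
        calc z * c * z⁻¹ * y = z * (c * (z⁻¹ * y * z)) * z⁻¹ := by group
          _ = z * (z⁻¹ * y * z * c) * z⁻¹ := by rw [h6]
          _ = y * (z * c * z⁻¹) := by group
      rcases hmin C hCn (fun c hc => hc.1) with h6 | h6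
      · intro c hc hc'
        have h7 : c ∈ C := ⟨hc, hc'⟩
        rw [h6, Subgroup.mem_bot] at h7
        exact h7
      · exfalso
        apply hnab
        intro x hx y hy
        have h7 : x ∈ C := by
          rw [h6]
          exact hx
        exact h7.2 y hy
    -- products
    let M : Subgroup Z :=
      { carrier := {w | ∃ u ∈ ⁅N₀, N₀⁆, ∃ v ∈ HC X₁ N₀, w = u * v}
        mul_mem' := by
          rintro _ _ ⟨u, hu, v, hv, rfl⟩ ⟨u', hu', v', hv', rfl⟩
          refine ⟨u * u', Subgroup.mul_mem _ hu hu', v * v', Subgroup.mul_mem _ hv hv', ?_⟩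
          have h6 : Commute v u' := (h3 u' (hcl hu') v hv).symm
          exact h6.symm.symm.mul_mul_mul_comm _ _
        one_mem' := ⟨1, Subgroup.one_mem _, 1, Subgroup.one_mem _, by rw [one_mul]⟩
        inv_mem' := by
          rintro _ ⟨u, hu, v, hv, rfl⟩
          refine ⟨u⁻¹, Subgroup.inv_mem _ hu, v⁻¹, Subgroup.inv_mem _ hv, ?_⟩
          rw [mul_inv_rev]
          have h6 : Commute u v := h3 u (hcl hu) v hv
          exact h6.symm.inv_inv.eq }
    have hNM : N ≤ M := by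
      rw [← hperf, Subgroup.commutator_le]
      intro a ha b hb
      obtain ⟨u, hu, v, hv, rfl⟩ := h5 a ha
      obtain ⟨u', hu', v', hv', rfl⟩ := h5 b hb
      have h6 : ⁅u * v, u' * v'⁆ = ⁅u, u'⁆ * ⁅v, v'⁆ :=
        comm_prod (h3 u hu v hv) (h3 u hu v' hv') (h3 u' hu' v hv) (h3 u' hu' v' hv')
      rw [h6]
      refine ⟨_, Subgroup.commutator_mem_commutator hu hu', _, ?_, rfl⟩
      rw [commutatorElement_def]
      exact Subgroup.mul_mem _ (Subgroup.mul_mem _ (Subgroup.mul_mem _ hv hv')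
        (Subgroup.inv_mem _ hv)) (Subgroup.inv_mem _ hv')
    intro x hx
    obtain ⟨u, hu, v, hv, hxv⟩ := hNM (hN₀N hx)
    have hv0 : v ∈ N₀ := by
      have h6 := N₀.mul_mem (N₀.inv_mem (hcl hu)) hx
      rwa [hxv, inv_mul_cancel_left] at h6
    have hv1 : v = 1 := by
      apply hcen v (hN₀N hv0)
      intro y hy
      obtain ⟨a, ha, b, hb, rfl⟩ := h5 y hy
      have h6 : Commute v a := (h3 a ha v hv).symm
      have h7 : Commute v b := h3 v hv0 b hb
      exact (h6.mul_right h7).eq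
    rw [hxv, hv1, mul_one]
    exact hu

end Pool.Agent.Lib.MP_1aae89_al.W5
end

section
/-!
# Module SSM: minimal normal subgroups of minimal normal subgroups
-/
set_option autoImplicit false

namespace Pool.Agent.Lib.MP_1aae89_al.W5

open Pool.Agent.Lib.MP_1aae89_al Pool.Agent.Lib.MP_1aae89_al.BF Pool.Agent.Lib.MP_1aae89_al.W3
  Pool.Agent.Lib.MP_1aae89_al.W4 Finset
open Pool.Agent.Lib.MP1aae89 (Pex)

namespace SSM

/-- a conjugate of `S` is `S` or commutes with `S` -/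
theorem conj_cases {Z : Type} [Group Z] [Finite Z] (N : Subgroup Z) [hNn : N.Normal]
    (S : Subgroup Z) (hSN : S ≤ N) (hSn : ∀ g ∈ N, ∀ x ∈ S, g * x * g⁻¹ ∈ S)
    (hmin : ∀ R : Subgroup Z, R ≤ S → (∀ g ∈ N, ∀ x ∈ R, g * x * g⁻¹ ∈ R) → R = ⊥ ∨ R = S)
    (z s : Z) (hs : s ∈ S) :
    z * s * z⁻¹ ∈ S ∨ ∀ x ∈ S, (z * s * z⁻¹) * x * (z * s * z⁻¹)⁻¹ = x := by
  have hmem : ∀ y : Z, y ∈ S.map (MulAut.conj z).toMonoidHom ↔ ∃ x ∈ S, z * x * z⁻¹ = y := by
    intro y
    rfl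
  have hinv : ∀ g ∈ N, ∀ x ∈ S.map (MulAut.conj z).toMonoidHom,
      g * x * g⁻¹ ∈ S.map (MulAut.conj z).toMonoidHom := by
    intro g hg x hx
    obtain ⟨y, hy, rfl⟩ := (hmem x).1 hx
    rw [hmem]
    refine ⟨(z⁻¹ * g * z) * y * (z⁻¹ * g * z)⁻¹, hSn _ ?_ y hy, by group⟩
    have := hNn.conj_mem g hg z⁻¹
    simpa using this
  rcases hmin (S.map (MulAut.conj z).toMonoidHom ⊓ S) inf_le_right
    (fun g hg x hx => ⟨hinv g hg x hx.1, hSn g hg x hx.2⟩) with h | h
  · right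
    intro x hx
    have hc : z * s * z⁻¹ ∈ S.map (MulAut.conj z).toMonoidHom := (hmem _).2 ⟨s, hs, rfl⟩
    have hcN : z * s * z⁻¹ ∈ N := hNn.conj_mem s (hSN hs) z
    have h1 : (z * s * z⁻¹) * x * (z * s * z⁻¹)⁻¹ * x⁻¹ ∈ S :=
      S.mul_mem (hSn _ hcN x hx) (S.inv_mem hx)
    have h2 : (z * s * z⁻¹) * x * (z * s * z⁻¹)⁻¹ * x⁻¹ ∈ S.map (MulAut.conj z).toMonoidHom := by
      have h3 := hinv x (hSN hx) _ (Subgroup.inv_mem _ hc)
      have h4 := Subgroup.mul_mem _ hc h3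
      simpa [mul_assoc] using h4
    have h5 : (z * s * z⁻¹) * x * (z * s * z⁻¹)⁻¹ * x⁻¹ ∈
        (S.map (MulAut.conj z).toMonoidHom ⊓ S) := ⟨h2, h1⟩
    rw [h, Subgroup.mem_bot] at h5
    exact mul_inv_eq_one.1 h5
  · left
    have hle : S ≤ S.map (MulAut.conj z).toMonoidHom := inf_eq_right.1 h
    have hcard : Nat.card ↥(S.map (MulAut.conj z).toMonoidHom) = Nat.card S :=
      Subgroup.card_map_of_injective (MulAut.conj z).injective
    have heq : S = S.map (MulAut.conj z).toMonoidHom :=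
      Subgroup.eq_of_le_of_card_ge hle hcard.le
    rw [heq]
    exact (hmem _).2 ⟨s, hs, rfl⟩

end SSM

theorem specSSM : SpecSSM := by
  intro Z _ _ N hNn hN S hSN hS hSn hmin R hR
  have hle : R.map S.subtype ≤ S := Subgroup.map_subtype_le R
  have hQ : ∀ z s : Z, s ∈ S → ∀ x ∈ R.map S.subtype,
      (z * s * z⁻¹) * x * (z * s * z⁻¹)⁻¹ ∈ R.map S.subtype := by
    intro z s hs x hx
    rcases SSM.conj_cases N S hSN hSn hmin z s hs with h | h
    · obtain ⟨r, hr, rfl⟩ := hx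
      exact ⟨⟨_, h⟩ * r * ⟨_, h⟩⁻¹, hR.conj_mem r hr ⟨_, h⟩, rfl⟩
    · rw [h x (hle hx)]
      exact hx
  have hW : Subgroup.normalClosure (S : Set Z) = N := by
    rcases hN (Subgroup.normalClosure (S : Set Z)) Subgroup.normalClosure_normal
      (Subgroup.normalClosure_le_normal hSN) with h | h
    · exfalso
      apply hS
      rw [eq_bot_iff, ← h]
      exact Subgroup.subset_normalClosure
    · exact h
  have hNR : N ≤ Subgroup.normalizer (R.map S.subtype : Set Z) := by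
    rw [← hW, Subgroup.normalClosure, Subgroup.closure_le]
    intro c hc
    obtain ⟨s, hs, hc⟩ := Group.mem_conjugatesOfSet_iff.1 hc
    obtain ⟨z, rfl⟩ := isConj_iff.1 hc
    rw [SetLike.mem_coe, Subgroup.mem_normalizer_iff]
    intro x
    constructor
    · intro hx
      exact hQ z s hs x hx
    · intro hx
      have h1 := hQ z s⁻¹ (S.inv_mem hs) _ hx
      have h2 : z * s⁻¹ * z⁻¹ * (z * s * z⁻¹ * x * (z * s * z⁻¹)⁻¹) * (z * s⁻¹ * z⁻¹)⁻¹ = x := by
        group
      rwa [h2] at h1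
  rcases hmin (R.map S.subtype) hle (fun g hg x hx =>
    (Subgroup.mem_normalizer_iff.1 (hNR hg) x).1 hx) with h | h
  · left
    exact (Subgroup.map_eq_bot_iff_of_injective R S.subtype_injective).1 h
  · right
    apply Subgroup.map_injective S.subtype_injective
    rw [h, ← MonoidHom.range_eq_map, Subgroup.range_subtype]

end Pool.Agent.Lib.MP_1aae89_al.W5
end

section
/-!
# Module TDE: `r` is tensor induced on `P ∩ Y₁`
-/
set_option autoImplicit false

namespace Pool.Agent.Lib.MP_1aae89_al.W5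

open Pool.Agent.Lib.MP_1aae89_al Pool.Agent.Lib.MP_1aae89_al.BF Pool.Agent.Lib.MP_1aae89_al.W3
  Pool.Agent.Lib.MP_1aae89_al.W4 Finset
open Pool.Agent.Lib.MP1aae89 (Pex)

namespace TDE

section monoid

variable {R : Type} [Monoid R]

/-- the product `c 0 * ⋯ * c (k-1)` -/
def pr (c : ℕ → R) (k : ℕ) : R := ((List.range k).map c).prod

theorem pr_zero (c : ℕ → R) : pr c 0 = 1 := by
  unfold pr
  rw [List.range_zero, List.map_nil, List.prod_nil]

theorem pr_succ (c : ℕ → R) (k : ℕ) : pr c (k + 1) = pr c k * c k := by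
  unfold pr
  rw [List.range_succ, List.map_append, List.prod_append, List.map_singleton, List.prod_singleton]

theorem pr_comm (c : ℕ → R) (x : R) (k : ℕ) (h : ∀ i, i < k → c i * x = x * c i) :
    pr c k * x = x * pr c k := by
  induction k with
  | zero => rw [pr_zero, one_mul, mul_one]
  | succ k ih =>
    rw [pr_succ, mul_assoc, h k (Nat.lt_succ_self k), ← mul_assoc,
      ih fun i hi => h i (by omega), mul_assoc]

theorem pr_mul (a b : ℕ → R) (k : ℕ)
    (h : ∀ i j, i < k → j < k → i ≠ j → a i * b j = b j * a i) :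
    pr (fun i => a i * b i) k = pr a k * pr b k := by
  induction k with
  | zero => rw [pr_zero, pr_zero, pr_zero, one_mul]
  | succ k ih =>
    rw [pr_succ, pr_succ, pr_succ, ih fun i j hi hj hij => h i j (by omega) (by omega) hij]
    have h1 : pr b k * a k = a k * pr b k :=
      pr_comm b (a k) k fun i hi => (h k i (by omega) (by omega) (by omega)).symm
    rw [mul_assoc, ← mul_assoc (pr b k), h1]
    simp only [mul_assoc]

theorem pr_swap (c : ℕ → R) (u v : R) (j k : ℕ) (hjk : j < k)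
    (hu : ∀ i, i < k → i ≠ j → c i * u = u * c i) (hv : ∀ i, i < k → i ≠ j → c i * v = v * c i)
    (hj : c j * u = v * c j) : pr c k * u = v * pr c k := by
  induction k with
  | zero => omega
  | succ k ih =>
    rw [pr_succ, mul_assoc]
    rcases Nat.lt_or_ge j k with h1 | h1
    · rw [hu k (by omega) (by omega), ← mul_assoc, ih h1 (fun i hi => hu i (by omega))
        (fun i hi => hv i (by omega)), mul_assoc]
    · have h2 : j = k := by omega
      subst h2
      rw [hj, ← mul_assoc, pr_comm c v j fun i hi => hv i (by omega) (by omega), mul_assoc]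

theorem pr_one (k : ℕ) : pr (fun _ => (1 : R)) k = 1 := by
  induction k with
  | zero => exact pr_zero _
  | succ k ih => rw [pr_succ, ih, mul_one]

end monoid

theorem pr_congr {R : Type} [Monoid R] (a b : ℕ → R) (k : ℕ) (h : ∀ i, i < k → a i = b i) :
    pr a k = pr b k := by
  induction k with
  | zero => rw [pr_zero, pr_zero]
  | succ k ih => rw [pr_succ, pr_succ, ih fun i hi => h i (by omega), h k (by omega)]

theorem det_pr {n : ℕ} (c : ℕ → Matrix (Fin n) (Fin n) ℂ) (M k : ℕ)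
    (h : ∀ i, i < k → (c i).det ^ M = 1) : (pr c k).det ^ M = 1 := by
  induction k with
  | zero => rw [pr_zero, Matrix.det_one, one_pow]
  | succ k ih =>
    rw [pr_succ, Matrix.det_mul, mul_pow, ih fun i hi => h i (by omega), h k (by omega), one_mul]

end TDE

open TDE in
theorem specTDE (hPRD : SpecPRD) (hCTA : SpecCTA) : SpecTDE := by
  intro p M L Y _ _ Y₁ H₀ _ _ n r e m r' Φ Yh _ _ f H0 Z A P ℓ ct τ hτ x
  classical
  obtain ⟨ha1, ha2⟩ := hCTA p M L Y₁ H₀ n r e m r' Φ f H0 Z A P ℓ ct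
  obtain ⟨-, -, -, -, -, -, hdec⟩ := hPRD p ct.pp Y₁ H₀ ct.wy
  have hτY : (τ : Y) ∉ Y₁ := fun h => hτ h
  have hn0 : n ≠ 0 := CT0.n0 ct
  set t : Y := (τ : Y) with ht
  have hinv : ∀ g : Y, r g * r g⁻¹ = 1 := fun g => by rw [← map_mul, mul_inv_cancel, map_one]
  have hinv' : ∀ g : Y, r g⁻¹ * r g = 1 := fun g => by rw [← map_mul, inv_mul_cancel, map_one]
  -- the conjugates of the first factor
  set ad : ℕ → Matrix (Fin m) (Fin m) ℂ → Matrix (Fin n) (Fin n) ℂ :=
    fun i X => r (t ^ i) * Φ X * r (t ^ i)⁻¹ with had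
  have had_mul : ∀ i X X', ad i X * ad i X' = ad i (X * X') := by
    intro i X X'
    show r (t ^ i) * Φ X * r (t ^ i)⁻¹ * (r (t ^ i) * Φ X' * r (t ^ i)⁻¹) = _
    calc r (t ^ i) * Φ X * r (t ^ i)⁻¹ * (r (t ^ i) * Φ X' * r (t ^ i)⁻¹)
        = r (t ^ i) * Φ X * (r (t ^ i)⁻¹ * r (t ^ i)) * Φ X' * r (t ^ i)⁻¹ := by
          simp only [mul_assoc]
      _ = r (t ^ i) * Φ (X * X') * r (t ^ i)⁻¹ := by
          rw [hinv', mul_one, map_mul]; simp only [mul_assoc]
  have had_one : ∀ i, ad i 1 = 1 := by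
    intro i
    show r (t ^ i) * Φ 1 * r (t ^ i)⁻¹ = 1
    rw [map_one, mul_one, hinv]
  have had_det : ∀ i X, (ad i X).det = X.det ^ e := by
    intro i X
    show (r (t ^ i) * Φ X * r (t ^ i)⁻¹).det = _
    rw [Matrix.det_mul, Matrix.det_mul, mul_comm (r (t ^ i)).det, mul_assoc, ← Matrix.det_mul,
      hinv, Matrix.det_one, mul_one, ct.phd]
  have hcomm0 : ∀ i k, 0 < k → k < p → ∀ X X', ad i X * ad (i + k) X' = ad (i + k) X' * ad i X := by
    intro i k hk hkp X X'
    have hz : t ^ k ∉ Y₁ := CTG.pow_not_mem ct.pp Y₁ ct.wy.idx hτY hk hkp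
    have h3 := ha2 (t ^ k) hz X X'
    have h5 : ad (i + k) X' = r (t ^ i) * (r (t ^ k) * Φ X' * r (t ^ k)⁻¹) * r (t ^ i)⁻¹ := by
      show r (t ^ (i + k)) * Φ X' * r (t ^ (i + k))⁻¹ = _
      have h6 : (t ^ (i + k))⁻¹ = (t ^ k)⁻¹ * (t ^ i)⁻¹ := by rw [pow_add, mul_inv_rev]
      rw [h6, pow_add, map_mul, map_mul]
      simp only [mul_assoc]
    rw [h5]
    show r (t ^ i) * Φ X * r (t ^ i)⁻¹ * _ = _ * (r (t ^ i) * Φ X * r (t ^ i)⁻¹)
    set W := r (t ^ k) * Φ X' * r (t ^ k)⁻¹ with hW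
    set V := Φ X with hV
    calc r (t ^ i) * V * r (t ^ i)⁻¹ * (r (t ^ i) * W * r (t ^ i)⁻¹)
        = r (t ^ i) * V * (r (t ^ i)⁻¹ * r (t ^ i)) * W * r (t ^ i)⁻¹ := by
          simp only [mul_assoc]
      _ = r (t ^ i) * (V * W) * r (t ^ i)⁻¹ := by
          rw [hinv', mul_one]; simp only [mul_assoc]
      _ = r (t ^ i) * (W * V) * r (t ^ i)⁻¹ := by rw [h3]
      _ = r (t ^ i) * W * (r (t ^ i)⁻¹ * r (t ^ i)) * V * r (t ^ i)⁻¹ := by
          rw [hinv', mul_one]; simp only [mul_assoc]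
      _ = r (t ^ i) * W * r (t ^ i)⁻¹ * (r (t ^ i) * V * r (t ^ i)⁻¹) := by
          simp only [mul_assoc]
  have hcomm : ∀ i j, i < p → j < p → i ≠ j → ∀ X X', ad i X * ad j X' = ad j X' * ad i X := by
    intro i j hi hj hij X X'
    rcases lt_or_gt_of_ne hij with h | h
    · have := hcomm0 i (j - i) (by omega) (by omega) X X'
      rwa [Nat.add_sub_cancel' h.le] at this
    · have := hcomm0 j (i - j) (by omega) (by omega) X' X
      rw [Nat.add_sub_cancel' h.le] at this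
      exact this.symm
  -- the lifted conjugates
  set B : ℕ → Y₁.subgroupOf P →* Matrix (Fin m) (Fin m) ℂ := fun i =>
    (A.comp ℓ).comp (MulAut.conjNormal (τ ^ i)⁻¹ : MulAut (Y₁.subgroupOf P)).toMonoidHom with hB
  set T : Y₁.subgroupOf P → Matrix (Fin n) (Fin n) ℂ := fun y => pr (fun i => ad i (B i y)) p
    with hT
  have hgoal : tp p (r.comp P.subtype) τ Φ (fun i => A (ℓ (cjt (Y₁.subgroupOf P) τ i x))) =
      T x := rfl
  rw [hgoal]
  have hTmul : ∀ y z, T (y * z) = T y * T z := by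
    intro y z
    show pr (fun i => ad i (B i (y * z))) p = _
    rw [pr_congr _ (fun i => ad i (B i y) * ad i (B i z)) p fun i _ => by
      rw [had_mul, map_mul]]
    exact pr_mul _ _ p fun i j hi hj hij => hcomm i j hi hj hij _ _
  have hTone : T 1 = 1 := by
    show pr (fun i => ad i (B i 1)) p = 1
    rw [pr_congr _ (fun _ => 1) p fun i _ => by rw [map_one, had_one]]
    exact pr_one p
  have hTinv : ∀ y, T y⁻¹ * T y = 1 := fun y => by rw [← hTmul, inv_mul_cancel, hTone]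
  have hTinv' : ∀ y, T y * T y⁻¹ = 1 := fun y => by rw [← hTmul, mul_inv_cancel, hTone]
  have hTpow : ∀ y (k : ℕ), T (y ^ k) = T y ^ k := by
    intro y k
    induction k with
    | zero => rw [pow_zero, pow_zero, hTone]
    | succ k ih => rw [pow_succ, pow_succ, hTmul, ih]
  -- the same action
  have hBinv : ∀ i y, B i y⁻¹ * B i y = 1 := fun i y => by
    rw [← map_mul, inv_mul_cancel, map_one]
  have hactT : ∀ y j, j < p → ∀ X, T y * ad j X = ad j (B j y * X * B j y⁻¹) * T y := by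
    intro y j hj X
    refine pr_swap _ _ _ j p hj (fun i hi hij => hcomm i j hi hj hij _ _)
      (fun i hi hij => hcomm i j hi hj hij _ _) ?_
    show ad j (B j y) * ad j X = ad j (B j y * X * B j y⁻¹) * ad j (B j y)
    rw [had_mul, had_mul]
    congr 1
    rw [mul_assoc, hBinv, mul_one]
  have hactr : ∀ (y : Y₁.subgroupOf P) j X, r ((y : P) : Y) * ad j X =
      ad j (B j y * X * B j y⁻¹) * r ((y : P) : Y) := by
    intro y j X
    set g : Y₁.subgroupOf P := cjt (Y₁.subgroupOf P) τ j y with hg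
    have hgv : ((g : P) : Y) = (t ^ j)⁻¹ * ((y : P) : Y) * t ^ j := by
      have h1 : ((g : Y₁.subgroupOf P) : P) = (τ ^ j)⁻¹ * (y : P) * ((τ ^ j)⁻¹)⁻¹ := by
        rw [hg]
        exact MulAut.conjNormal_apply _ _
      rw [h1, inv_inv]
      rfl
    have h2 := ha1 (ℓ g) X
    rw [ct.lf g] at h2
    have hBg : B j y = A (ℓ g) := rfl
    have hBg' : B j y⁻¹ = A (ℓ g)⁻¹ := by
      rw [← map_inv]
      have : (g⁻¹ : Y₁.subgroupOf P) = cjt (Y₁.subgroupOf P) τ j y⁻¹ := by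
        rw [hg]
        exact (map_inv (MulAut.conjNormal (τ ^ j)⁻¹ : MulAut (Y₁.subgroupOf P)) y).symm
      rw [this]
      rfl
    rw [hBg, hBg']
    have h3 : r ((y : P) : Y) = r (t ^ j) * r ((g : P) : Y) * r (t ^ j)⁻¹ := by
      rw [hgv, ← map_mul, ← map_mul]
      congr 1
      group
    show r ((y : P) : Y) * (r (t ^ j) * Φ X * r (t ^ j)⁻¹) =
      r (t ^ j) * Φ (A (ℓ g) * X * A (ℓ g)⁻¹) * r (t ^ j)⁻¹ * r ((y : P) : Y)
    rw [h3]
    calc r (t ^ j) * r ((g : P) : Y) * r (t ^ j)⁻¹ * (r (t ^ j) * Φ X * r (t ^ j)⁻¹)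
        = r (t ^ j) * r ((g : P) : Y) * (r (t ^ j)⁻¹ * r (t ^ j)) * Φ X * r (t ^ j)⁻¹ := by
          simp only [mul_assoc]
      _ = r (t ^ j) * (r ((g : P) : Y) * Φ X) * r (t ^ j)⁻¹ := by
          rw [hinv', mul_one]; simp only [mul_assoc]
      _ = r (t ^ j) * (Φ (A (ℓ g) * X * A (ℓ g)⁻¹) * r ((g : P) : Y)) * r (t ^ j)⁻¹ := by
          rw [h2]
      _ = r (t ^ j) * Φ (A (ℓ g) * X * A (ℓ g)⁻¹) * (r (t ^ j)⁻¹ * r (t ^ j)) *
            r ((g : P) : Y) * r (t ^ j)⁻¹ := by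
          rw [hinv', mul_one]; simp only [mul_assoc]
      _ = r (t ^ j) * Φ (A (ℓ g) * X * A (ℓ g)⁻¹) * r (t ^ j)⁻¹ *
            (r (t ^ j) * r ((g : P) : Y) * r (t ^ j)⁻¹) := by
          simp only [mul_assoc]
  -- the quotient commutes with everything
  set S : Matrix (Fin n) (Fin n) ℂ := T x⁻¹ * r ((x : P) : Y) with hS
  have hScomm : ∀ j, j < p → ∀ X, ad j X * S = S * ad j X := by
    intro j hj X
    have h1 := hactT x j hj X
    have h2 := hactr x j X
    set V := ad j (B j x * X * B j x⁻¹) with hV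
    have h3 : ad j X * T x⁻¹ = T x⁻¹ * V := by
      calc ad j X * T x⁻¹ = (T x⁻¹ * T x) * ad j X * T x⁻¹ := by rw [hTinv, one_mul]
        _ = T x⁻¹ * (T x * ad j X) * T x⁻¹ := by simp only [mul_assoc]
        _ = T x⁻¹ * (V * T x) * T x⁻¹ := by rw [h1]
        _ = T x⁻¹ * V * (T x * T x⁻¹) := by simp only [mul_assoc]
        _ = T x⁻¹ * V := by rw [hTinv', mul_one]
    calc ad j X * S = ad j X * T x⁻¹ * r ((x : P) : Y) := (mul_assoc _ _ _).symm
      _ = T x⁻¹ * (V * r ((x : P) : Y)) := by rw [h3, mul_assoc]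
      _ = T x⁻¹ * (r ((x : P) : Y) * ad j X) := by rw [h2]
      _ = S * ad j X := (mul_assoc _ _ _).symm
  obtain ⟨c, hc⟩ := ct.schN S fun h => by
    obtain ⟨g, hg, hh⟩ := hdec t hτY h h.2
    have h1 : (r.comp (Subgroup.normalClosure (H₀ : Set Y)).subtype) h =
        pr (fun i => ad i (r' ⟨⟨g i, ct.wy.le (hg i)⟩, hg i⟩)) p := by
      show r (h : Y) = _
      rw [hh, map_list_prod, List.map_map]
      unfold pr
      congr 1
      refine List.map_congr_left fun i _ => ?_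
      rw [Function.comp_apply, map_mul, map_mul]
      show _ = r (t ^ i) * Φ (r' ⟨⟨g i, ct.wy.le (hg i)⟩, hg i⟩) * r (t ^ i)⁻¹
      rw [ct.phi]
    rw [h1]
    exact (pr_comm _ S p fun i hi => hScomm i hi _).symm
  have hrx : r ((x : P) : Y) = c • T x := by
    calc r ((x : P) : Y) = (T x * T x⁻¹) * r ((x : P) : Y) := by rw [hTinv', one_mul]
      _ = T x * S := by rw [hS, mul_assoc]
      _ = c • T x := by rw [hc, Matrix.mul_smul, Matrix.mul_one]
  -- the number `c`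
  have hTdet : (T x).det ^ M = 1 := by
    refine det_pr _ M p fun i _ => ?_
    rw [had_det, ← pow_mul, mul_comm e M, pow_mul]
    have h1 : (B i x).det ^ M = 1 := ct.td.det _
    rw [h1, one_pow]
  have hc1 : c ^ (n * M) = 1 := by
    have h1 := ct.det ((x : P) : Y)
    rw [hrx, Matrix.det_smul, Fintype.card_fin, mul_pow, hTdet, mul_one, ← pow_mul] at h1
    exact h1
  obtain ⟨k, hk⟩ : ∃ k : ℕ, x ^ p ^ k = 1 := by
    refine ⟨(Nat.card Y).factorization p, ?_⟩
    apply Subtype.ext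
    rw [Subgroup.coe_pow, ← ct.syl]
    exact pow_card_eq_one'
  have hc2 : c ^ p ^ k = 1 := by
    have h1 : r ((x : P) : Y) ^ p ^ k = 1 := by
      rw [← map_pow]
      have h2 : ((x : P) : Y) ^ p ^ k = (((x ^ p ^ k : Y₁.subgroupOf P) : P) : Y) := rfl
      rw [h2, hk]
      exact map_one r
    rw [hrx, smul_pow, ← hTpow, hk, hTone] at h1
    have h3 := congrArg (fun W : Matrix (Fin n) (Fin n) ℂ => W ⟨0, Nat.pos_of_ne_zero hn0⟩
      ⟨0, Nat.pos_of_ne_zero hn0⟩) h1
    simpa using h3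
  have hcop : (n * M).Coprime (p ^ k) := by
    apply Nat.Coprime.pow_right
    apply Nat.Coprime.mul_left
    · exact ((Nat.Prime.coprime_iff_not_dvd ct.pp).2 ct.deg).symm
    · exact CT0.copM ct
  have hc3 : c = 1 := by
    have h1 : orderOf c ∣ n * M := orderOf_dvd_of_pow_eq_one hc1
    have h2 : orderOf c ∣ p ^ k := orderOf_dvd_of_pow_eq_one hc2
    have h3 : orderOf c ∣ 1 := by
      rw [← hcop]
      exact Nat.dvd_gcd h1 h2
    exact orderOf_eq_one_iff.1 (Nat.dvd_one.1 h3)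
  rw [hrx, hc3, one_smul]

end Pool.Agent.Lib.MP_1aae89_al.W5
end

section
/-!
# Module WRS: the wreath product step
-/
set_option autoImplicit false

namespace Pool.Agent.Lib.MP_1aae89_al.W5

open Pool.Agent.Lib.MP_1aae89_al Pool.Agent.Lib.MP_1aae89_al.BF Pool.Agent.Lib.MP_1aae89_al.W3
  Pool.Agent.Lib.MP_1aae89_al.W4 Finset
open Pool.Agent.Lib.MP1aae89 (Pex exists_pex)
open scoped Kronecker

namespace WRS

/-- the exponents do not depend on the choice of `L`, `s0` -/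
theorem exps (hPRM : SpecPRM) {p : ℕ} (hp : p.Prime) {L s0 L' s0' : ℕ} (hL : L ≠ 0)
    (hs : Pex p L s0) (hL' : L' ≠ 0) (hs' : Pex p L' s0') {X : Type} [Group X] (y : X)
    (h1 : y ^ L = 1) (h2 : y ^ L' = 1) (k : ℕ) : y ^ (1 + s0 * k) = y ^ (1 + s0' * k) := by
  obtain ⟨-, -, -, -, -, h6⟩ := hPRM p hp L s0 hL hs
  rw [pow_add, pow_add, pow_mul, pow_mul, h6 L' s0' hL' hs' y h1 h2]

/-- the order of `P ∩ Y₁` -/
theorem card_sub {p : ℕ} (hp : p.Prime) {Y : Type} [Group Y] [Finite Y] (Y₁ P : Subgroup Y)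
    [Y₁.Normal] (hi : Y₁.index = p) (hP : Nat.card P = p ^ (Nat.card Y).factorization p)
    (ι : Y₁.subgroupOf P →* Y₁) (hι : Function.Injective ι) :
    Nat.card (Y₁.subgroupOf P) = p ^ (Nat.card Y₁).factorization p := by
  have h1 : Nat.card (Y₁.subgroupOf P) ∣ p ^ (Nat.card Y).factorization p := by
    rw [← hP]
    exact Subgroup.card_subgroup_dvd_card _
  obtain ⟨j, -, hj⟩ := (Nat.dvd_prime_pow hp).1 h1
  have h2 := CT0.fac_le hp Y₁ P hi hP
  have h3 : Nat.card (Y₁.subgroupOf P) ∣ Nat.card Y₁ := by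
    have h4 : Nat.card (Y₁.subgroupOf P) = Nat.card ι.range :=
      Nat.card_congr (MonoidHom.ofInjective hι).toEquiv
    rw [h4]
    exact Subgroup.card_subgroup_dvd_card _
  have h5 : (Nat.card (Y₁.subgroupOf P)).factorization p ≤ (Nat.card Y₁).factorization p :=
    (Nat.factorization_le_iff_dvd Nat.card_pos.ne' Nat.card_pos.ne').2 h3 p
  have h6 : (Nat.card (Y₁.subgroupOf P)).factorization p = j := by
    rw [hj, hp.factorization_pow, Finsupp.single_eq_same]
  rw [hj]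
  congr 1
  omega

end WRS

open WRS in
theorem specWRS (hPRD : SpecPRD) (hPRM : SpecPRM) (hIRH : SpecIRH) (hIR1 : SpecIR1)
    (hDEC : SpecDEC) (hPHI : SpecPHI) (hEXT : SpecEXT) (hELL : SpecELL) (hWRT : SpecWRT) :
    SpecWRS := by
  intro p b hp hb Y _ _ Y₁ H₀ _ _ hwy hKN hgood b' hb' L s0 hL hYL hs P hP n r hr hpn hdet hfx K
    hK hy
  classical
  obtain ⟨-, -, hcomm, -, hdec, -, -⟩ := hPRD p hp Y₁ H₀ hwy
  have hH₀N : (H₀.subgroupOf Y₁).Normal := by
    refine ⟨fun y hy g => ?_⟩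
    rw [Subgroup.mem_subgroupOf] at hy ⊢
    exact hwy.n0 g g.2 y hy
  set N : Subgroup Y := Subgroup.normalClosure (H₀ : Set Y) with hN
  have hNn : N.Normal := Subgroup.normalClosure_normal
  have hn : n ≠ 0 := by rintro rfl; exact hpn (dvd_zero _)
  have hschN : Sch (r.comp N.subtype) := hIRH p hp N hwy.quo n r hr hpn
  have hsch1 : Sch (r.comp Y₁.subtype) := hIR1 p hp Y₁ hwy.idx n r hr hpn
  set r₁ : Y₁ →* Matrix (Fin n) (Fin n) ℂ := r.comp Y₁.subtype with hr₁
  -- the decomposition on `H₀`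
  have hLD : ∀ x ∈ H₀.subgroupOf Y₁, ∀ y ∈ (HC Y₁ H₀).subgroupOf Y₁, x * y = y * x := by
    intro x hx y hy
    exact Subtype.ext (hcomm x hx y hy)
  have hHCle : HC Y₁ H₀ ≤ Y₁ := (hPRD p hp Y₁ H₀ hwy).1
  have hschLD : Sch (r₁.comp (H₀.subgroupOf Y₁ ⊔ (HC Y₁ H₀).subgroupOf Y₁).subtype) := by
    intro T hT
    refine hschN T fun h => ?_
    obtain ⟨x, hx, y, hy, hxy⟩ := hdec h h.2
    have h1 := hT ⟨⟨x, hwy.le hx⟩, Subgroup.mem_sup_left (show (⟨x, hwy.le hx⟩ : Y₁) ∈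
      H₀.subgroupOf Y₁ from hx)⟩
    have h2 := hT ⟨⟨y, hHCle hy⟩, Subgroup.mem_sup_right (show (⟨y, hHCle hy⟩ : Y₁) ∈
      (HC Y₁ H₀).subgroupOf Y₁ from hy)⟩
    have h3 : T * r x = r x * T := h1
    have h4 : T * r y = r y * T := h2
    show T * r (h : Y) = r (h : Y) * T
    rw [hxy, map_mul, ← mul_assoc, h3, mul_assoc, h4, mul_assoc]
  obtain ⟨e, m, r', Q, Q', hn', hr', h1, h2, h3⟩ :=
    hDEC n r₁ hn (H₀.subgroupOf Y₁) ((HC Y₁ H₀).subgroupOf Y₁) hLD hschLD
  obtain ⟨Φ, hΦ1, hΦ2, hΦ3⟩ :=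
    hPHI n e m (r₁.comp (H₀.subgroupOf Y₁).subtype) r' Q Q' h1 h2 h3
  have hY1L : Nat.card Y₁ ∣ L := (Subgroup.card_subgroup_dvd_card Y₁).trans hYL
  obtain ⟨Yh, gY, fY, f, H0, Z, A, hTD⟩ := hEXT p hp L hL hY1L (H₀.subgroupOf Y₁) n e m hn' hpn
    r₁ hsch1 r' hr' Q Q' h1 h2 h3 fun y => hdet y
  -- the lifting of the Sylow subgroup
  let ι : Y₁.subgroupOf P →* Y₁ := (P.subtype.comp (Y₁.subgroupOf P).subtype).codRestrict Y₁
    fun x => x.2
  have hι : Function.Injective ι := by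
    intro x y hxy
    have h4 : ((ι x : Y₁) : Y) = ι y := by rw [hxy]
    exact Subtype.ext (Subtype.ext h4)
  obtain ⟨ℓ, hℓ, -⟩ := hELL p hp ι hι (card_sub hp Y₁ P hwy.idx hP ι hι) f hTD.surj hTD.ker
  -- change of the exponent
  set M := ordCompl[p] L with hM
  set L' := L * Nat.card Yh with hL'd
  have hL' : L' ≠ 0 := mul_ne_zero hL Nat.card_pos.ne'
  have hYhL' : Nat.card Yh ∣ L' := dvd_mul_left _ _
  have hYL' : Nat.card Y ∣ L' := hYL.trans (dvd_mul_right _ _)
  obtain ⟨s0', hs'⟩ := exists_pex hp hL'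
  have hML' : M ∣ ordCompl[p] L' := Nat.ordCompl_dvd_ordCompl_of_dvd (dvd_mul_right _ _) p
  have hpow : ∀ (y : Y) (N : ℕ), Nat.card Y ∣ N → y ^ N = 1 := by
    rintro y N ⟨k, rfl⟩
    rw [pow_mul, pow_card_eq_one', one_pow]
  have hexp : ∀ (y : Y) (k : ℕ), y ^ (1 + s0 * k) = y ^ (1 + s0' * k) := fun y k =>
    exps hPRM hp hL hs hL' hs' y (hpow y L hYL) (hpow y L' hYL') k
  have hfx' : FX p s0' b' (fun y => (r y).trace) := by
    intro t y
    have h4 := hfx t y
    rw [mul_assoc, hexp y, ← mul_assoc] at h4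
    exact h4
  have hct : CT p M L' Y₁ H₀ r r' Φ f H0 Z A P ℓ :=
    { pp := hp
      wy := hwy
      hL := hL'
      card := hYL'
      cardh := hYhL'
      mL := hML'
      sch := hr
      deg := hpn
      nem := hn'
      det := hdet
      schN := hschN
      sch' := hr'
      phi := fun l => hΦ1 l
      phd := hΦ2
      pht := hΦ3
      td := hTD
      syl := hP
      lf := fun x => by rw [hℓ x]; rfl }
  refine hWRT p M L' b Y₁ H₀ n r e m r' Φ f H0 Z A P ℓ hct hb hgood b' hb' s0' hs' hfx' K hK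
    (hKN K hK) ?_
  obtain ⟨y, hy⟩ := hy
  exact ⟨y, by rwa [hexp] at hy⟩

end Pool.Agent.Lib.MP_1aae89_al.W5
end
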