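import Pool.Agent.Lib.MP_1aae89_al.W5.SpecA
import Pool.Agent.Lib.MP_1aae89_al.W6.Q1D
import Pool.Agent.Lib.MP_1aae89_al.W5.SpecB
import Pool.Agent.Lib.MP_1aae89_al.W6.MCF
import Pool.Agent.Lib.MP_1aae89_al.W5.SC4
import Pool.Agent.Lib.MP_1aae89_al.W5.WRS
import Pool.Agent.Lib.MP_1aae89_al.W5.SPN
import Pool.Agent.Lib.MP_1aae89_al.HC.Top
import Pool.Agent.Lib.MP_1aae89_al.W4.All

section
/-!
# SYI: systems of idempotents for the representations of a `p`-group
-/
set_option autoImplicit false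

namespace Pool.Agent.Lib.MP_1aae89_al.W5

open Pool.Agent.Lib.MP_1aae89_al Pool.Agent.Lib.MP_1aae89_al.BF Pool.Agent.Lib.MP_1aae89_al.W3
  Pool.Agent.Lib.MP_1aae89_al.W4 Finset

namespace SYIM

/-! ### The idempotents of a matrix of order `p` -/

section

variable {n p : ℕ}

/-- `(1/p) ∑ ξ^i C^i` -/
noncomputable def EE (p : ℕ) (C : Matrix (Fin n) (Fin n) ℂ) (ξ : ℂ) : Matrix (Fin n) (Fin n) ℂ :=
  (p : ℂ)⁻¹ • ∑ i ∈ range p, ξ ^ i • C ^ i

theorem EE_comm (C : Matrix (Fin n) (Fin n) ℂ) (ξ : ℂ) : C * EE p C ξ = EE p C ξ * C := by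
  unfold EE
  rw [Matrix.mul_smul, Matrix.smul_mul, Matrix.mul_sum, Matrix.sum_mul]
  congr 1
  refine sum_congr rfl fun i _ => ?_
  rw [Matrix.mul_smul, Matrix.smul_mul, ← pow_succ, ← pow_succ']

theorem EE_shift {C : Matrix (Fin n) (Fin n) ℂ} (hC : C ^ p = 1) {ξ : ℂ} (hξ : ξ ^ p = 1) :
    ξ • (C * EE p C ξ) = EE p C ξ := by
  unfold EE
  rw [Matrix.mul_smul, smul_comm, Matrix.mul_sum, Finset.smul_sum]
  congr 1
  have h1 : ∀ i ∈ range p, ξ • (C * ξ ^ i • C ^ i) = ξ ^ (i + 1) • C ^ (i + 1) := by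
    intro i _
    rw [Matrix.mul_smul, smul_smul, ← pow_succ', ← pow_succ']
  rw [sum_congr rfl h1]
  have h2 := Finset.sum_range_succ' (fun i => ξ ^ i • C ^ i) p
  have h3 := Finset.sum_range_succ (fun i => ξ ^ i • C ^ i) p
  rw [hξ, hC] at h3
  rw [h3, pow_zero, pow_zero] at h2
  exact (add_right_cancel h2).symm

theorem EE_shift_pow {C : Matrix (Fin n) (Fin n) ℂ} (hC : C ^ p = 1) {ξ : ℂ} (hξ : ξ ^ p = 1)
    (i : ℕ) : (ξ ^ i • C ^ i) * EE p C ξ = EE p C ξ := by
  induction i with
  | zero => rw [pow_zero, pow_zero, one_smul, Matrix.one_mul]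
  | succ i ih =>
    calc (ξ ^ (i + 1) • C ^ (i + 1)) * EE p C ξ
        = (ξ ^ i • C ^ i) * (ξ • (C * EE p C ξ)) := by
          rw [Matrix.mul_smul, Matrix.smul_mul, Matrix.smul_mul, smul_smul, ← pow_succ', pow_succ C,
            Matrix.mul_assoc]
      _ = EE p C ξ := by rw [EE_shift hC hξ, ih]

theorem EE_idem {C : Matrix (Fin n) (Fin n) ℂ} (hp : p ≠ 0) (hC : C ^ p = 1) {ξ : ℂ}
    (hξ : ξ ^ p = 1) : EE p C ξ * EE p C ξ = EE p C ξ := by
  have hp' : (p : ℂ) ≠ 0 := by exact_mod_cast hp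
  have h1 : EE p C ξ * EE p C ξ =
      (p : ℂ)⁻¹ • ∑ i ∈ range p, (ξ ^ i • C ^ i) * EE p C ξ := by
    conv_lhs => rw [show EE p C ξ * EE p C ξ =
      ((p : ℂ)⁻¹ • ∑ i ∈ range p, ξ ^ i • C ^ i) * EE p C ξ from rfl]
    rw [Matrix.smul_mul, Matrix.sum_mul]
  rw [h1, sum_congr rfl fun i _ => EE_shift_pow hC hξ i, sum_const, card_range,
    ← Nat.cast_smul_eq_nsmul ℂ, smul_smul, inv_mul_cancel₀ hp', one_smul]

theorem EE_orth {C : Matrix (Fin n) (Fin n) ℂ} (hC : C ^ p = 1) {ξ ξ' : ℂ}
    (hξ : ξ ^ p = 1) (hξ' : ξ' ^ p = 1) (hne : ξ ≠ ξ') : EE p C ξ * EE p C ξ' = 0 := by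
  set X := EE p C ξ * EE p C ξ' with hX
  have h1 : ξ • (C * X) = X := by
    rw [hX, ← Matrix.mul_assoc, ← Matrix.smul_mul, EE_shift hC hξ]
  have h2 : ξ' • (C * X) = X := by
    rw [hX, ← Matrix.mul_assoc, EE_comm, Matrix.mul_assoc, ← Matrix.mul_smul, EE_shift hC hξ']
  have h3 : (ξ - ξ') • (C * X) = 0 := by rw [sub_smul, h1, h2, sub_self]
  have h4 : C * X = 0 := by
    rcases smul_eq_zero.1 h3 with h | h
    · exact absurd (sub_eq_zero.1 h) hne
    · exact h
  rw [← h1, h4, smul_zero]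

theorem EE_sum {C : Matrix (Fin n) (Fin n) ℂ} (hp : p ≠ 0) :
    ∑ ξ ∈ Polynomial.nthRootsFinset p (1 : ℂ), EE p C ξ = 1 := by
  have hp' : (p : ℂ) ≠ 0 := by exact_mod_cast hp
  have hp0 : 0 < p := Nat.pos_of_ne_zero hp
  have hζ := Complex.isPrimitiveRoot_exp p hp
  set ζ := Complex.exp (2 * Real.pi * Complex.I / p) with hζd
  unfold EE
  rw [← Finset.smul_sum, sum_comm]
  have h1 : ∀ i ∈ range p, ∑ ξ ∈ Polynomial.nthRootsFinset p (1 : ℂ), ξ ^ i • C ^ i =
      if i = 0 then (p : ℂ) • (1 : Matrix (Fin n) (Fin n) ℂ) else 0 := by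
    intro i hi
    rw [mem_range] at hi
    rw [← Finset.sum_smul]
    split_ifs with h
    · subst h
      simp only [pow_zero, sum_const, nsmul_eq_mul, mul_one]
      rw [hζ.card_nthRootsFinset]
    · have h2 : ζ ^ i * ∑ ξ ∈ Polynomial.nthRootsFinset p (1 : ℂ), ξ ^ i =
          ∑ ξ ∈ Polynomial.nthRootsFinset p (1 : ℂ), ξ ^ i := by
        rw [Finset.mul_sum]
        refine sum_nbij' (fun ξ => ζ * ξ) (fun ξ => ζ⁻¹ * ξ) ?_ ?_ ?_ ?_ ?_
        · intro ξ hξ
          rw [Polynomial.mem_nthRootsFinset hp0] at hξ ⊢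
          rw [mul_pow, hξ, hζ.pow_eq_one, mul_one]
        · intro ξ hξ
          rw [Polynomial.mem_nthRootsFinset hp0] at hξ ⊢
          rw [mul_pow, hξ, inv_pow, hζ.pow_eq_one, inv_one, mul_one]
        · intro ξ _
          exact inv_mul_cancel_left₀ (hζ.ne_zero hp) ξ
        · intro ξ _
          exact mul_inv_cancel_left₀ (hζ.ne_zero hp) ξ
        · intro ξ _
          rw [mul_pow]
      have h3 : ζ ^ i ≠ 1 := hζ.pow_ne_one_of_pos_of_lt h hi
      have h4 : (ζ ^ i - 1) * ∑ ξ ∈ Polynomial.nthRootsFinset p (1 : ℂ), ξ ^ i = 0 := by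
        rw [sub_mul, h2, one_mul, sub_self]
      rcases mul_eq_zero.1 h4 with h5 | h5
      · exact absurd (sub_eq_zero.1 h5) h3
      · rw [h5, zero_smul]
  rw [sum_congr rfl h1, sum_ite_eq' , if_pos (mem_range.2 hp0), smul_smul, inv_mul_cancel₀ hp',
    one_smul]

end

/-! ### Gluing -/

section

variable {P : Type} [Group P] {n : ℕ}

theorem commg (r : P →* Matrix (Fin n) (Fin n) ℂ) (x : P) (e : Matrix (Fin n) (Fin n) ℂ) :
    r x * e = e * r x ↔ r x * e * r x⁻¹ = e := by
  constructor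
  · intro h
    rw [h, Matrix.mul_assoc, mul_inv_r, Matrix.mul_one]
  · intro h
    calc r x * e = r x * e * r x⁻¹ * r x := by
          rw [Matrix.mul_assoc (r x * e), inv_mul_r, Matrix.mul_one]
      _ = e * r x := by rw [h]

theorem glue (r : P →* Matrix (Fin n) (Fin n) ℂ) {k k₂ : ℕ}
    {r₁ : P →* Matrix (Fin k) (Fin k) ℂ} {r₂ : P →* Matrix (Fin k₂) (Fin k₂) ℂ}
    {J : Matrix (Fin n) (Fin k) ℂ} {J' : Matrix (Fin k) (Fin n) ℂ}
    {K : Matrix (Fin n) (Fin k₂) ℂ} {K' : Matrix (Fin k₂) (Fin n) ℂ}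
    (h1 : J' * J = 1) (h2 : K' * K = 1) (h3 : J' * K = 0) (h4 : K' * J = 0)
    (h5 : J * J' + K * K' = 1)
    (hJ : ∀ x, r x * J = J * r₁ x) (hJ' : ∀ x, J' * r x = r₁ x * J')
    (hK : ∀ x, r x * K = K * r₂ x) (hK' : ∀ x, K' * r x = r₂ x * K')
    {A₁ : Finset (Matrix (Fin k) (Fin k) ℂ)} {A₂ : Finset (Matrix (Fin k₂) (Fin k₂) ℂ)}
    (hA₁ : SI r₁ A₁) (hA₂ : SI r₂ A₂)
    (ht₁ : ∀ e ∈ A₁, (∀ x, r₁ x * e = e * r₁ x) → e.trace = 1)
    (ht₂ : ∀ e ∈ A₂, (∀ x, r₂ x * e = e * r₂ x) → e.trace = 1) :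
    ∃ A : Finset (Matrix (Fin n) (Fin n) ℂ), SI r A ∧
      ∀ e ∈ A, (∀ x, r x * e = e * r x) → e.trace = 1 := by
  classical
  -- reconstruction
  have u1 : ∀ e : Matrix (Fin k) (Fin k) ℂ, J' * (J * e * J') * J = e := by
    intro e
    calc J' * (J * e * J') * J = (J' * J) * e * (J' * J) := by simp only [Matrix.mul_assoc]
      _ = e := by rw [h1, Matrix.one_mul, Matrix.mul_one]
  have u2 : ∀ e : Matrix (Fin k₂) (Fin k₂) ℂ, K' * (K * e * K') * K = e := by
    intro e
    calc K' * (K * e * K') * K = (K' * K) * e * (K' * K) := by simp only [Matrix.mul_assoc]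
      _ = e := by rw [h2, Matrix.one_mul, Matrix.mul_one]
  have m1 : ∀ e e' : Matrix (Fin k) (Fin k) ℂ, J * e * J' * (J * e' * J') = J * (e * e') * J' := by
    intro e e'
    calc J * e * J' * (J * e' * J') = J * e * (J' * J) * e' * J' := by
          simp only [Matrix.mul_assoc]
      _ = J * (e * e') * J' := by rw [h1, Matrix.mul_one]; simp only [Matrix.mul_assoc]
  have m2 : ∀ e e' : Matrix (Fin k₂) (Fin k₂) ℂ,
      K * e * K' * (K * e' * K') = K * (e * e') * K' := by
    intro e e'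
    calc K * e * K' * (K * e' * K') = K * e * (K' * K) * e' * K' := by
          simp only [Matrix.mul_assoc]
      _ = K * (e * e') * K' := by rw [h2, Matrix.mul_one]; simp only [Matrix.mul_assoc]
  have m3 : ∀ (e : Matrix (Fin k) (Fin k) ℂ) (e' : Matrix (Fin k₂) (Fin k₂) ℂ),
      J * e * J' * (K * e' * K') = 0 := by
    intro e e'
    calc J * e * J' * (K * e' * K') = J * e * (J' * K) * e' * K' := by
          simp only [Matrix.mul_assoc]
      _ = 0 := by rw [h3]; simp only [Matrix.mul_zero, Matrix.zero_mul]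
  have m4 : ∀ (e : Matrix (Fin k₂) (Fin k₂) ℂ) (e' : Matrix (Fin k) (Fin k) ℂ),
      K * e * K' * (J * e' * J') = 0 := by
    intro e e'
    calc K * e * K' * (J * e' * J') = K * e * (K' * J) * e' * J' := by
          simp only [Matrix.mul_assoc]
      _ = 0 := by rw [h4]; simp only [Matrix.mul_zero, Matrix.zero_mul]
  have c1 : ∀ (x : P) (e : Matrix (Fin k) (Fin k) ℂ),
      r x * (J * e * J') * r x⁻¹ = J * (r₁ x * e * r₁ x⁻¹) * J' := by
    intro x e
    calc r x * (J * e * J') * r x⁻¹ = (r x * J) * e * (J' * r x⁻¹) := by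
          simp only [Matrix.mul_assoc]
      _ = J * (r₁ x * e * r₁ x⁻¹) * J' := by rw [hJ, hJ']; simp only [Matrix.mul_assoc]
  have c2 : ∀ (x : P) (e : Matrix (Fin k₂) (Fin k₂) ℂ),
      r x * (K * e * K') * r x⁻¹ = K * (r₂ x * e * r₂ x⁻¹) * K' := by
    intro x e
    calc r x * (K * e * K') * r x⁻¹ = (r x * K) * e * (K' * r x⁻¹) := by
          simp only [Matrix.mul_assoc]
      _ = K * (r₂ x * e * r₂ x⁻¹) * K' := by rw [hK, hK']; simp only [Matrix.mul_assoc]
  have i1 : ∀ e e' : Matrix (Fin k) (Fin k) ℂ, J * e * J' = J * e' * J' → e = e' := by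
    intro e e' h
    rw [← u1 e, ← u1 e', h]
  have i2 : ∀ e e' : Matrix (Fin k₂) (Fin k₂) ℂ, K * e * K' = K * e' * K' → e = e' := by
    intro e e' h
    rw [← u2 e, ← u2 e', h]
  refine ⟨A₁.image (fun e => J * e * J') ∪ A₂.image (fun e => K * e * K'), ?_, ?_⟩
  · refine ⟨?_, ?_, ?_, ?_, ?_⟩
    · intro e he
      rcases mem_union.1 he with h | h
      · obtain ⟨e', he', rfl⟩ := mem_image.1 h
        intro h0
        apply hA₁.nz e' he'
        rw [← u1 e', h0, Matrix.mul_zero, Matrix.zero_mul]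
      · obtain ⟨e', he', rfl⟩ := mem_image.1 h
        intro h0
        apply hA₂.nz e' he'
        rw [← u2 e', h0, Matrix.mul_zero, Matrix.zero_mul]
    · intro e he
      rcases mem_union.1 he with h | h
      · obtain ⟨e', he', rfl⟩ := mem_image.1 h
        rw [m1, hA₁.idem e' he']
      · obtain ⟨e', he', rfl⟩ := mem_image.1 h
        rw [m2, hA₂.idem e' he']
    · intro e he e₂ he₂ hne
      rcases mem_union.1 he with h | h <;> rcases mem_union.1 he₂ with h' | h'
      · obtain ⟨a, ha, rfl⟩ := mem_image.1 h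
        obtain ⟨b, hb, rfl⟩ := mem_image.1 h'
        rw [m1, hA₁.orth a ha b hb (fun hab => hne (by rw [hab])), Matrix.mul_zero,
          Matrix.zero_mul]
      · obtain ⟨a, ha, rfl⟩ := mem_image.1 h
        obtain ⟨b, hb, rfl⟩ := mem_image.1 h'
        exact m3 a b
      · obtain ⟨a, ha, rfl⟩ := mem_image.1 h
        obtain ⟨b, hb, rfl⟩ := mem_image.1 h'
        exact m4 a b
      · obtain ⟨a, ha, rfl⟩ := mem_image.1 h
        obtain ⟨b, hb, rfl⟩ := mem_image.1 h'
        rw [m2, hA₂.orth a ha b hb (fun hab => hne (by rw [hab])), Matrix.mul_zero,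
          Matrix.zero_mul]
    · rw [sum_union]
      · rw [sum_image fun a _ b _ h => i1 a b h, sum_image fun a _ b _ h => i2 a b h,
          ← Matrix.sum_mul, ← Matrix.sum_mul, ← Matrix.mul_sum, ← Matrix.mul_sum, hA₁.sum, hA₂.sum,
          Matrix.mul_one, Matrix.mul_one, h5]
      · rw [disjoint_left]
        intro e h h'
        obtain ⟨a, ha, rfl⟩ := mem_image.1 h
        obtain ⟨b, hb, hab⟩ := mem_image.1 h'
        apply hA₁.nz a ha
        have h6 : J * (a * a) * J' = 0 := by
          rw [← m1]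
          calc J * a * J' * (J * a * J') = J * a * J' * (K * b * K') := by rw [hab]
            _ = 0 := m3 a b
        rw [hA₁.idem a ha] at h6
        rw [← u1 a, h6, Matrix.mul_zero, Matrix.zero_mul]
    · intro x e he
      rcases mem_union.1 he with h | h
      · obtain ⟨a, ha, rfl⟩ := mem_image.1 h
        rw [c1]
        exact mem_union_left _ (mem_image_of_mem _ (hA₁.conj x a ha))
      · obtain ⟨a, ha, rfl⟩ := mem_image.1 h
        rw [c2]
        exact mem_union_right _ (mem_image_of_mem _ (hA₂.conj x a ha))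
  · intro e he hc
    rcases mem_union.1 he with h | h
    · obtain ⟨a, ha, rfl⟩ := mem_image.1 h
      have h7 : ∀ x, r₁ x * a = a * r₁ x := by
        intro x
        have h8 := hc x
        calc r₁ x * a = J' * (r x * (J * a * J')) * J := by
              calc r₁ x * a = r₁ x * (J' * (J * a * J') * J) := by rw [u1]
                _ = (r₁ x * J') * (J * a * J') * J := by simp only [Matrix.mul_assoc]
                _ = J' * (r x * (J * a * J')) * J := by
                    rw [← hJ']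
                    simp only [Matrix.mul_assoc]
          _ = J' * (J * a * J' * r x) * J := by rw [h8]
          _ = (J' * (J * a * J') * J) * r₁ x := by
              simp only [Matrix.mul_assoc]
              rw [hJ]
          _ = a * r₁ x := by rw [u1]
      calc (J * a * J').trace = (J' * (J * a)).trace := Matrix.trace_mul_comm _ _
        _ = a.trace := by rw [← Matrix.mul_assoc, h1, Matrix.one_mul]
        _ = 1 := ht₁ a ha h7
    · obtain ⟨a, ha, rfl⟩ := mem_image.1 h
      have h7 : ∀ x, r₂ x * a = a * r₂ x := by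
        intro x
        have h8 := hc x
        calc r₂ x * a = K' * (r x * (K * a * K')) * K := by
              calc r₂ x * a = r₂ x * (K' * (K * a * K') * K) := by rw [u2]
                _ = (r₂ x * K') * (K * a * K') * K := by simp only [Matrix.mul_assoc]
                _ = K' * (r x * (K * a * K')) * K := by
                    rw [← hK']
                    simp only [Matrix.mul_assoc]
          _ = K' * (K * a * K' * r x) * K := by rw [h8]
          _ = (K' * (K * a * K') * K) * r₂ x := by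
              simp only [Matrix.mul_assoc]
              rw [hK]
          _ = a * r₂ x := by rw [u2]
      calc (K * a * K').trace = (K' * (K * a)).trace := Matrix.trace_mul_comm _ _
        _ = a.trace := by rw [← Matrix.mul_assoc, h2, Matrix.one_mul]
        _ = 1 := ht₂ a ha h7

end

section

variable {P : Type} [Group P] [Finite P] {n : ℕ}

/-- the irreducible case of degree at least two -/
theorem irred {p e : ℕ} (hp : p.Prime) (hP : Nat.card P = p ^ e)
    (r : P →* Matrix (Fin n) (Fin n) ℂ) (hr : Sch r) (hn : n ≠ 0) (hn1 : n ≠ 1) :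
    ∃ A : Finset (Matrix (Fin n) (Fin n) ℂ), SI r A ∧
      ∀ e ∈ A, (∀ x, r x * e = e * r x) → e.trace = 1 := by
  classical
  let _ := Fintype.ofFinite P
  obtain ⟨ω, hω1, hωp, hω⟩ := specNLI p hp e hP n r hr hn hn1
  obtain ⟨B, B', hB1, hB2, hB⟩ := equiv_of_trace (s := NLI.twr ω r) hr hn (fun g => by
    rw [NLI.twr_trace]
    exact hω g)
  have hBr : ∀ g, r g * B * r g⁻¹ = (((ω g)⁻¹ : ℂˣ) : ℂ) • B := by
    intro g
    have h1 : (((ω g : ℂˣ) : ℂ) • r g) * B = B * r g := hB g
    rw [Matrix.smul_mul] at h1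
    have h2 : r g * B = (((ω g)⁻¹ : ℂˣ) : ℂ) • (B * r g) := by
      rw [← h1, smul_smul, ← Units.val_mul, inv_mul_cancel, Units.val_one, one_smul]
    rw [h2, Matrix.smul_mul, Matrix.mul_assoc, mul_inv_r, Matrix.mul_one]
  -- powers
  have hpow : ∀ (g : P) (C : Matrix (Fin n) (Fin n) ℂ) (w : ℂ), r g * C * r g⁻¹ = w • C →
      ∀ i : ℕ, r g * C ^ i * r g⁻¹ = w ^ i • C ^ i := by
    intro g C w hC i
    induction i with
    | zero => rw [pow_zero, pow_zero, Matrix.mul_one, mul_inv_r, one_smul]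
    | succ i ih =>
      calc r g * C ^ (i + 1) * r g⁻¹ = (r g * C ^ i * r g⁻¹) * (r g * C * r g⁻¹) := by
            rw [pow_succ]
            calc r g * (C ^ i * C) * r g⁻¹ = r g * C ^ i * 1 * C * r g⁻¹ := by
                  rw [Matrix.mul_one]
                  simp only [Matrix.mul_assoc]
              _ = _ := by
                  rw [← inv_mul_r r g]
                  simp only [Matrix.mul_assoc]
        _ = w ^ (i + 1) • C ^ (i + 1) := by
            rw [ih, hC, Matrix.smul_mul, Matrix.mul_smul, smul_smul, ← pow_succ, ← pow_succ]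
  have hωp' : ∀ g, ((((ω g)⁻¹ : ℂˣ) : ℂ)) ^ p = 1 := by
    intro g
    have h1 : (ω ^ p) g = 1 := by rw [hωp]; rfl
    rw [Lin.pow_apply] at h1
    rw [← Units.val_pow_eq_pow_val, inv_pow, h1, inv_one, Units.val_one]
  -- `B ^ p` is a scalar
  obtain ⟨c, hc⟩ := hr (B ^ p) (fun g => by
    have h1 := hpow g B _ (hBr g) p
    rw [hωp', one_smul] at h1
    exact ((SYIM.commg r g (B ^ p)).2 h1).symm)
  have hc0 : c ≠ 0 := by
    intro h
    rw [h, zero_smul] at hc
    have h1 : B' ^ p * B ^ p = 1 := by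
      have h2 : ∀ i : ℕ, B' ^ i * B ^ i = 1 := by
        intro i
        induction i with
        | zero => rw [pow_zero, pow_zero, Matrix.mul_one]
        | succ i ih =>
          rw [pow_succ B', pow_succ' B, Matrix.mul_assoc, ← Matrix.mul_assoc B', hB1,
            Matrix.one_mul, ih]
      exact h2 p
    rw [hc, Matrix.mul_zero] at h1
    have h3 := congrArg Matrix.trace h1
    rw [Matrix.trace_zero, Matrix.trace_one, Fintype.card_fin] at h3
    exact hn (by exact_mod_cast h3.symm)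
  obtain ⟨d, hd⟩ := IsAlgClosed.exists_pow_nat_eq c⁻¹ hp.pos
  set C := d • B with hCd
  have hCp : C ^ p = 1 := by
    rw [hCd, smul_pow, hc, hd, smul_smul, inv_mul_cancel₀ hc0, one_smul]
  have hCr : ∀ g, r g * C * r g⁻¹ = (((ω g)⁻¹ : ℂˣ) : ℂ) • C := by
    intro g
    rw [hCd, Matrix.mul_smul, Matrix.smul_mul, hBr, smul_comm]
  have hconj : ∀ (g : P) (ξ : ℂ), r g * EE p C ξ * r g⁻¹ =
      EE p C (ξ * (((ω g)⁻¹ : ℂˣ) : ℂ)) := by
    intro g ξ
    unfold EE
    rw [Matrix.mul_smul, Matrix.smul_mul, Matrix.mul_sum, Matrix.sum_mul]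
    congr 1
    refine sum_congr rfl fun i _ => ?_
    rw [Matrix.mul_smul, Matrix.smul_mul, hpow g C _ (hCr g) i, smul_smul, mul_pow]
  set M := Polynomial.nthRootsFinset p (1 : ℂ) with hM
  have hMm : ∀ ξ : ℂ, ξ ∈ M ↔ ξ ^ p = 1 := fun ξ => Polynomial.mem_nthRootsFinset hp.pos 1
  set M₀ := M.filter (fun ξ => EE p C ξ ≠ 0) with hM₀
  have hM₀m : ∀ ξ ∈ M₀, ξ ^ p = 1 ∧ EE p C ξ ≠ 0 := by
    intro ξ hξ
    rw [hM₀, mem_filter, hMm] at hξ
    exact hξ
  have hinj : ∀ ξ ∈ M₀, ∀ ξ' ∈ M₀, EE p C ξ = EE p C ξ' → ξ = ξ' := by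
    intro ξ hξ ξ' hξ' h
    by_contra hne
    obtain ⟨h1, h2⟩ := hM₀m ξ hξ
    obtain ⟨h3, h4⟩ := hM₀m ξ' hξ'
    have h5 := EE_orth hCp h1 h3 hne
    rw [← h, EE_idem hp.ne_zero hCp h1] at h5
    exact h2 h5
  refine ⟨M₀.image (EE p C), ⟨?_, ?_, ?_, ?_, ?_⟩, ?_⟩
  · intro a ha
    obtain ⟨ξ, hξ, rfl⟩ := mem_image.1 ha
    exact (hM₀m ξ hξ).2
  · intro a ha
    obtain ⟨ξ, hξ, rfl⟩ := mem_image.1 ha
    exact EE_idem hp.ne_zero hCp (hM₀m ξ hξ).1
  · intro a ha b hb hne
    obtain ⟨ξ, hξ, rfl⟩ := mem_image.1 ha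
    obtain ⟨ξ', hξ', rfl⟩ := mem_image.1 hb
    exact EE_orth hCp (hM₀m ξ hξ).1 (hM₀m ξ' hξ').1 (fun h => hne (by rw [h]))
  · rw [sum_image hinj, hM₀, sum_filter_ne_zero]
    exact EE_sum hp.ne_zero
  · intro x a ha
    obtain ⟨ξ, hξ, rfl⟩ := mem_image.1 ha
    obtain ⟨h1, h2⟩ := hM₀m ξ hξ
    rw [hconj]
    apply mem_image_of_mem
    rw [hM₀, mem_filter, hMm]
    refine ⟨by rw [mul_pow, h1, hωp', mul_one], ?_⟩
    rw [← hconj]
    intro h3
    apply h2
    calc EE p C ξ = r x⁻¹ * (r x * EE p C ξ * r x⁻¹) * r x := by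
          calc EE p C ξ = (r x⁻¹ * r x) * EE p C ξ * (r x⁻¹ * r x) := by
                rw [inv_mul_r, Matrix.one_mul, Matrix.mul_one]
            _ = _ := by simp only [Matrix.mul_assoc]
      _ = 0 := by rw [h3, Matrix.mul_zero, Matrix.zero_mul]
  · intro a ha hfix
    exfalso
    obtain ⟨ξ, hξ, rfl⟩ := mem_image.1 ha
    obtain ⟨h1, h2⟩ := hM₀m ξ hξ
    obtain ⟨x, hx⟩ : ∃ x, ω x ≠ 1 := by
      by_contra hall
      push Not at hall
      exact hω1 (Lin.ext fun x => by rw [hall x, Lin.one_apply])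
    have h3 : r x * EE p C ξ * r x⁻¹ = EE p C ξ := (commg r x _).1 (hfix x)
    rw [hconj] at h3
    have h4 : ξ ≠ ξ * (((ω x)⁻¹ : ℂˣ) : ℂ) := by
      intro h5
      have hξ0 : ξ ≠ 0 := by
        rintro rfl
        rw [zero_pow hp.ne_zero] at h1
        exact zero_ne_one h1
      have h6 : (((ω x)⁻¹ : ℂˣ) : ℂ) = 1 := by
        have h7 : ξ * (((ω x)⁻¹ : ℂˣ) : ℂ) = ξ * 1 := by rw [← h5, mul_one]
        exact mul_left_cancel₀ hξ0 h7
      apply hx
      have h8 : (ω x)⁻¹ = 1 := Units.ext h6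
      exact inv_eq_one.1 h8
    have h5 := EE_orth hCp h1 (show (ξ * (((ω x)⁻¹ : ℂˣ) : ℂ)) ^ p = 1 by
      rw [mul_pow, h1, hωp', mul_one]) h4
    rw [h3, EE_idem hp.ne_zero hCp h1] at h5
    exact h2 h5

end

end SYIM

open SYIM in
theorem specSYI : SpecSYI := by
  intro p hp P _ _ e hP n
  let _ := Fintype.ofFinite P
  induction n using Nat.strong_induction_on with
  | _ n ih =>
    intro r
    by_cases hn : n = 0
    · subst hn
      refine ⟨∅, ⟨?_, ?_, ?_, ?_, ?_⟩, ?_⟩
      · intro a ha; exact absurd ha (notMem_empty _)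
      · intro a ha; exact absurd ha (notMem_empty _)
      · intro a ha; exact absurd ha (notMem_empty _)
      · rw [sum_empty]
        exact Subsingleton.elim _ _
      · intro _ a ha; exact absurd ha (notMem_empty _)
      · intro a ha; exact absurd ha (notMem_empty _)
    by_cases hr : Sch r
    · by_cases hn1 : n = 1
      · subst hn1
        refine ⟨{1}, ⟨?_, ?_, ?_, ?_, ?_⟩, ?_⟩
        · intro a ha
          rw [mem_singleton] at ha
          rw [ha]
          exact one_ne_zero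
        · intro a ha
          rw [mem_singleton] at ha
          rw [ha, Matrix.mul_one]
        · intro a ha b hb hne
          rw [mem_singleton] at ha hb
          exact absurd (ha.trans hb.symm) hne
        · rw [sum_singleton]
        · intro x a ha
          rw [mem_singleton] at ha ⊢
          rw [ha, Matrix.mul_one, mul_inv_r]
        · intro a ha _
          rw [mem_singleton] at ha
          rw [ha, Matrix.trace_one, Fintype.card_fin, Nat.cast_one]
      · exact irred hp hP r hr hn hn1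
    · obtain ⟨F, hF, hF0, hF1, hFc⟩ := exists_idem hn hr
      have hF2 : (1 - F) * (1 - F) = 1 - F := by
        rw [Matrix.mul_sub, Matrix.sub_mul, Matrix.sub_mul, Matrix.one_mul, Matrix.mul_one,
          Matrix.one_mul, hF, sub_self, sub_zero]
      obtain ⟨k, J, J', h1, h2⟩ := idem_factor F hF
      obtain ⟨k₂, K, K', h3, h4⟩ := idem_factor (1 - F) hF2
      have h5 := trace_fac h2
      have h6 := trace_fac h4
      have hk : k ≠ 0 := by
        rintro rfl
        apply hF0
        rw [h1, Nat.cast_zero] at h5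
        exact idem_trace_zero hF h5
      have hk2 : k₂ ≠ 0 := by
        rintro rfl
        apply hF1
        rw [h3, Nat.cast_zero] at h6
        exact (sub_eq_zero.1 (idem_trace_zero hF2 h6)).symm
      have hkk : n = k + k₂ := by
        rw [h1] at h5
        rw [h3, Matrix.trace_sub, Matrix.trace_one, Fintype.card_fin, h5] at h6
        have h7 : (n : ℂ) = ((k + k₂ : ℕ) : ℂ) := by
          push_cast
          linear_combination h6
        exact_mod_cast h7
      have hc1 : ∀ g, J * J' * r g = r g * (J * J') := fun g => by rw [h1, hFc]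
      have hc2 : ∀ g, K * K' * r g = r g * (K * K') := fun g => by
        rw [h3, Matrix.sub_mul, Matrix.mul_sub, Matrix.one_mul, Matrix.mul_one, hFc]
      obtain ⟨A₁, hA₁, ht₁⟩ := ih k (by omega) (compr r J J' h2 hc1)
      obtain ⟨A₂, hA₂, ht₂⟩ := ih k₂ (by omega) (compr r K K' h4 hc2)
      have h7 : J' * K = 0 := by
        calc J' * K = (J' * J) * J' * K * (K' * K) := by
              rw [h2, h4, Matrix.one_mul, Matrix.mul_one]
          _ = J' * ((J * J') * (K * K')) * K := by simp only [Matrix.mul_assoc]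
          _ = 0 := by
              rw [h1, h3, Matrix.mul_sub, Matrix.mul_one, hF, sub_self, Matrix.mul_zero,
                Matrix.zero_mul]
      have h8 : K' * J = 0 := by
        calc K' * J = (K' * K) * K' * J * (J' * J) := by
              rw [h2, h4, Matrix.one_mul, Matrix.mul_one]
          _ = K' * ((K * K') * (J * J')) * J := by simp only [Matrix.mul_assoc]
          _ = 0 := by
              rw [h1, h3, Matrix.sub_mul, Matrix.one_mul, hF, sub_self, Matrix.mul_zero,
                Matrix.zero_mul]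
      have h9 : J * J' + K * K' = 1 := by rw [h1, h3, add_sub_cancel]
      exact glue r h2 h4 h7 h8 h9 (compr_left r J J' h2 hc1) (compr_right r J J' h2 hc1)
        (compr_left r K K' h4 hc2) (compr_right r K K' h4 hc2) hA₁ hA₂ ht₁ ht₂

end Pool.Agent.Lib.MP_1aae89_al.W5
end

section
/-!
# SYS: only the fixed idempotents contribute modulo `p`
-/
set_option autoImplicit false

namespace Pool.Agent.Lib.MP_1aae89_al.W5

open Pool.Agent.Lib.MP_1aae89_al Pool.Agent.Lib.MP_1aae89_al.BF Pool.Agent.Lib.MP_1aae89_al.W3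
  Pool.Agent.Lib.MP_1aae89_al.W4 Finset

namespace SYSM

variable {P : Type} [Group P] {n : ℕ}

/-- the character of a stable part -/
noncomputable def cO (r : P →* Matrix (Fin n) (Fin n) ℂ) (O : Finset (Matrix (Fin n) (Fin n) ℂ))
    (x : P) : ℂ := ∑ e ∈ O, (r x * e).trace

theorem conj_conj (r : P →* Matrix (Fin n) (Fin n) ℂ) (x y : P) (e : Matrix (Fin n) (Fin n) ℂ) :
    r x * (r y * e * r y⁻¹) * r x⁻¹ = r (x * y) * e * r (x * y)⁻¹ := by
  rw [map_mul, _root_.mul_inv_rev, map_mul]
  simp only [Matrix.mul_assoc]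

theorem conj_inj (r : P →* Matrix (Fin n) (Fin n) ℂ) (x : P) {e e' : Matrix (Fin n) (Fin n) ℂ}
    (h : r x * e * r x⁻¹ = r x * e' * r x⁻¹) : e = e' := by
  have h1 : r x⁻¹ * (r x * e * r x⁻¹) * r x = r x⁻¹ * (r x * e' * r x⁻¹) * r x := by rw [h]
  have h2 : ∀ T : Matrix (Fin n) (Fin n) ℂ, r x⁻¹ * (r x * T * r x⁻¹) * r x = T := by
    intro T
    calc r x⁻¹ * (r x * T * r x⁻¹) * r x = (r x⁻¹ * r x) * T * (r x⁻¹ * r x) := by
          simp only [Matrix.mul_assoc]
      _ = T := by rw [inv_mul_r, Matrix.one_mul, Matrix.mul_one]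
  rwa [h2, h2] at h1

theorem comm_iff (r : P →* Matrix (Fin n) (Fin n) ℂ) (x : P) (e : Matrix (Fin n) (Fin n) ℂ) :
    r x * e = e * r x ↔ r x * e * r x⁻¹ = e := by
  constructor
  · intro h
    rw [h, Matrix.mul_assoc, mul_inv_r, Matrix.mul_one]
  · intro h
    calc r x * e = r x * e * r x⁻¹ * r x := by
          rw [Matrix.mul_assoc (r x * e), inv_mul_r, Matrix.mul_one]
      _ = e * r x := by rw [h]

/-- stable -/
def St (r : P →* Matrix (Fin n) (Fin n) ℂ) (O : Finset (Matrix (Fin n) (Fin n) ℂ)) : Prop :=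
  ∀ x, ∀ e ∈ O, r x * e * r x⁻¹ ∈ O

theorem cO_char {r : P →* Matrix (Fin n) (Fin n) ℂ} {A O : Finset (Matrix (Fin n) (Fin n) ℂ)}
    (hA : SI r A) (hO : O ⊆ A) (hs : St r O) : IsCharacter (cO r O) := by
  classical
  set F := ∑ e ∈ O, e with hF
  have hFF : F * F = F := by
    rw [hF, Matrix.sum_mul]
    refine sum_congr rfl fun e he => ?_
    rw [Matrix.mul_sum, Finset.sum_eq_single e]
    · exact hA.idem e (hO he)
    · intro e' he' hne
      exact hA.orth e (hO he) e' (hO he') hne.symm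
    · intro h
      exact absurd he h
  have hFc : ∀ g, r g * F * r g⁻¹ = F := by
    intro g
    rw [hF, Matrix.mul_sum, Matrix.sum_mul]
    refine sum_bij (fun e _ => r g * e * r g⁻¹) (fun e he => hs g e he) ?_ ?_ (fun e _ => rfl)
    · intro e _ e' _ h
      exact conj_inj r g h
    · intro e he
      refine ⟨r g⁻¹ * e * r g⁻¹⁻¹, hs g⁻¹ e he, ?_⟩
      rw [conj_conj, mul_inv_cancel, inv_one, map_one, Matrix.one_mul, Matrix.mul_one]
  obtain ⟨k, J, J', h1, h2⟩ := idem_factor F hFF
  have hc : ∀ g, J * J' * r g = r g * (J * J') := fun g => by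
    rw [h1]
    exact ((comm_iff r g F).2 (hFc g)).symm
  refine ⟨k, compr r J J' h2 hc, fun g => ?_⟩
  rw [compr_apply, Matrix.trace_mul_comm, ← Matrix.mul_assoc, h1, Matrix.trace_mul_comm]
  unfold cO
  rw [hF, Matrix.mul_sum, Matrix.trace_sum]

theorem cO_union {r : P →* Matrix (Fin n) (Fin n) ℂ} {O₁ O₂ : Finset (Matrix (Fin n) (Fin n) ℂ)}
    [DecidableEq (Matrix (Fin n) (Fin n) ℂ)]
    (h : Disjoint O₁ O₂) : cO r (O₁ ∪ O₂) = fun x => cO r O₁ x + cO r O₂ x := by
  funext x
  exact sum_union h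

/-- the trace vanishes off the stabilizers -/
theorem tr_zero {r : P →* Matrix (Fin n) (Fin n) ℂ} {A : Finset (Matrix (Fin n) (Fin n) ℂ)}
    (hA : SI r A) {e : Matrix (Fin n) (Fin n) ℂ} (he : e ∈ A) {x : P}
    (h : r x * e * r x⁻¹ ≠ e) : (r x * e).trace = 0 := by
  have h1 : e * (r x * e * r x⁻¹) = 0 := hA.orth e he _ (hA.conj x e he) (Ne.symm h)
  calc (r x * e).trace = (r x * (e * e)).trace := by rw [hA.idem e he]
    _ = (e * (r x * e)).trace := by rw [← Matrix.mul_assoc, Matrix.trace_mul_comm]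
    _ = (e * (r x * e * r x⁻¹) * r x).trace := by
        rw [Matrix.mul_assoc e, Matrix.mul_assoc (r x * e), inv_mul_r, Matrix.mul_one]
    _ = 0 := by rw [h1, Matrix.zero_mul, Matrix.trace_zero]

open Classical in
theorem dvd_dl {p q : ℕ} (hp : p.Prime) [Finite P] (hq : p ∣ q) (χ : P → ℂ) {ε : Lin P}
    (h1 : ε ≠ 1) (h2 : ε ^ p = 1) (h3 : ∀ x, χ x * (((ε x)⁻¹ : ℂˣ) : ℂ) = χ x) (k : Lin P) :
    p ∣ dl q χ k := by
  have : Fact p.Prime := ⟨hp⟩
  unfold dl
  have hq2 : ε ^ q = 1 := by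
    obtain ⟨c, rfl⟩ := hq
    rw [pow_mul, h2, one_pow]
  refine dvd_sum _ (fun l => l * ε) ?_ ?_ _ ?_ ?_
  · intro l hl
    rw [mem_filter] at hl ⊢
    refine ⟨mem_univ _, ?_⟩
    rw [mul_pow, hl.2, hq2, mul_one]
  · intro l _
    have h4 : ∀ j, (fun l : Lin P => l * ε)^[j] l = l * ε ^ j := by
      intro j
      induction j with
      | zero => simp
      | succ j ih => rw [Function.iterate_succ_apply', ih, pow_succ, mul_assoc]
    rw [h4, h2, mul_one]
  · intro l _
    let _ := Fintype.ofFinite P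
    rw [ml_eq, ml_eq]
    apply mlt_congr
    refine sum_congr rfl fun x _ => ?_
    rw [Lin.mul_apply, _root_.mul_inv_rev, Units.val_mul, ← mul_assoc, h3]
  · intro l _ h
    exact h1 (mul_eq_left.1 h)

open Classical in
theorem dl_lin [Finite P] (q : ℕ) (η₀ k : Lin P) :
    dl q (fun x => ((η₀ x : ℂˣ) : ℂ)) k = if η₀ ^ q = k then 1 else 0 := by
  unfold dl
  have h3 : ∀ μ : Lin P, ml (fun x => ((η₀ x : ℂˣ) : ℂ)) μ = if μ = η₀ then 1 else 0 := by
    intro μ
    let _ := Fintype.ofFinite P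
    have h := MUL.ml_lin η₀ μ
    by_cases h4 : μ = η₀
    · rw [if_pos h4] at h ⊢
      exact h
    · rw [if_neg h4] at h ⊢
      exact h
  rw [sum_congr rfl (fun μ _ => h3 μ), sum_ite_eq']
  by_cases h4 : η₀ ^ q = k
  · rw [if_pos h4, if_pos]
    rw [mem_filter]
    exact ⟨mem_univ _, h4⟩
  · rw [if_neg h4, if_neg]
    rw [mem_filter]
    exact fun h5 => h4 h5.2

theorem dl_empty [Finite P] {r : P →* Matrix (Fin n) (Fin n) ℂ}
    {A : Finset (Matrix (Fin n) (Fin n) ℂ)} (hA : SI r A) (q : ℕ) (k : Lin P) :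
    dl q (cO r ∅) k = 0 := by
  unfold dl
  refine sum_eq_zero fun μ _ => ?_
  have h2 : IsCharacter (cO r ∅) := cO_char hA (empty_subset _) (by
    intro x e he
    exact absurd he (notMem_empty _))
  let _ := Fintype.ofFinite P
  have h3 := ml_spec h2 μ
  have h4 : ∀ x : P, cO r ∅ x = 0 := fun x => sum_empty
  simp only [h4, zero_mul, sum_const_zero, mul_zero] at h3
  exact_mod_cast h3

theorem dl_add [Finite P] {χ θ : P → ℂ} (hχ : IsCharacter χ)
    (hθ : IsCharacter θ) (q : ℕ) (k : Lin P) :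
    dl q (fun x => χ x + θ x) k = dl q χ k + dl q θ k := by
  let _ := Fintype.ofFinite P
  exact MUL.dl_add hχ hθ q k

theorem eps [Finite P] {p e : ℕ} [hp : Fact p.Prime] (hP : Nat.card P = p ^ e) (Q : Subgroup P)
    (hQ : Q ≠ ⊤) : ∃ ε : Lin P, ε ≠ 1 ∧ ε ^ p = 1 ∧ ∀ r ∈ Q, ε r = 1 := by
  let _ := Fintype.ofFinite P
  exact exists_eps hP Q hQ

end SYSM

open SYSM

open Classical in
theorem specSYS : SpecSYS := by
  intro p hp P _ _ e0 hP n r A hA η hη q hq k
  have : Fact p.Prime := ⟨hp⟩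
  -- the claim for stable subsets
  have key : ∀ N : ℕ, ∀ O : Finset (Matrix (Fin n) (Fin n) ℂ), O.card ≤ N → O ⊆ A → St r O →
      dl q (cO r O) k ≡ (O.filter fun e => (∀ x, r x * e = e * r x) ∧ (η e) ^ q = k).card
        [MOD p] := by
    intro N
    induction N with
    | zero =>
      intro O hN _ _
      have hO : O = ∅ := card_eq_zero.1 (Nat.le_zero.1 hN)
      subst hO
      rw [filter_empty, card_empty, dl_empty hA]
    | succ N ih =>
      intro O hN hOA hs
      by_cases hO : O = ∅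
      · exact ih O (by rw [hO, card_empty]; exact Nat.zero_le _) hOA hs
      obtain ⟨e, he⟩ := nonempty_iff_ne_empty.2 hO
      set O₁ := O.filter (fun e' => ∃ x, e' = r x * e * r x⁻¹) with hO₁
      set O₂ := O.filter (fun e' => ¬ ∃ x, e' = r x * e * r x⁻¹) with hO₂
      have hU : O₁ ∪ O₂ = O := filter_union_filter_not_eq _ _
      have hD : Disjoint O₁ O₂ := disjoint_filter_filter_not _ _ _
      have he1 : e ∈ O₁ := by
        rw [hO₁, mem_filter]
        exact ⟨he, 1, by rw [inv_one, map_one, Matrix.one_mul, Matrix.mul_one]⟩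
      have hs1 : St r O₁ := by
        intro x e' he'
        rw [hO₁, mem_filter] at he' ⊢
        obtain ⟨h1, g, rfl⟩ := he'
        exact ⟨hs x _ h1, x * g, conj_conj r x g e⟩
      have hs2 : St r O₂ := by
        intro x e' he'
        rw [hO₂, mem_filter] at he' ⊢
        refine ⟨hs x _ he'.1, ?_⟩
        rintro ⟨g, hg⟩
        apply he'.2
        refine ⟨x⁻¹ * g, ?_⟩
        rw [← conj_conj, ← hg, conj_conj, inv_mul_cancel, inv_one, map_one, Matrix.one_mul,
          Matrix.mul_one]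
      have hO1A : O₁ ⊆ A := (filter_subset _ _).trans hOA
      have hO2A : O₂ ⊆ A := (filter_subset _ _).trans hOA
      have hc1 := cO_char hA hO1A hs1
      have hc2 := cO_char hA hO2A hs2
      have hcard : O₂.card ≤ N := by
        have h1 : O₂.card < O.card := by
          apply card_lt_card
          rw [ssubset_iff_of_subset (filter_subset _ _)]
          exact ⟨e, he, fun h => (disjoint_left.1 hD) he1 h⟩
        omega
      have hih := ih O₂ hcard hO2A hs2
      have hadd : dl q (cO r O) k = dl q (cO r O₁) k + dl q (cO r O₂) k := by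
        conv_lhs => rw [← hU, cO_union hD]
        exact dl_add hc1 hc2 q k
      have hfil : (O.filter fun e => (∀ x, r x * e = e * r x) ∧ (η e) ^ q = k).card =
          (O₁.filter fun e => (∀ x, r x * e = e * r x) ∧ (η e) ^ q = k).card +
          (O₂.filter fun e => (∀ x, r x * e = e * r x) ∧ (η e) ^ q = k).card := by
        conv_lhs => rw [← hU, filter_union]
        exact card_union_of_disjoint (disjoint_filter_filter hD)
      rw [hadd, hfil]
      refine Nat.ModEq.add ?_ hih
      by_cases hfix : ∀ x, r x * e = e * r x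
      · -- a fixed idempotent
        have hO1e : O₁ = {e} := by
          ext e'
          rw [hO₁, mem_filter, mem_singleton]
          constructor
          · rintro ⟨-, x, hx⟩
            rw [hx]
            exact (comm_iff r x e).1 (hfix x)
          · rintro rfl
            exact ⟨he, 1, by rw [inv_one, map_one, Matrix.one_mul, Matrix.mul_one]⟩
        obtain ⟨ht, hx⟩ := hη e (hOA he) hfix
        have h1 : cO r O₁ = fun x => ((η e x : ℂˣ) : ℂ) := by
          funext x
          unfold cO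
          rw [hO1e, sum_singleton, hx, Matrix.trace_smul, ht, smul_eq_mul, mul_one]
        rw [h1, hO1e, dl_lin]
        by_cases h4 : (η e) ^ q = k
        · rw [if_pos h4, filter_singleton, if_pos ⟨hfix, h4⟩, card_singleton]
        · rw [if_neg h4, filter_singleton, if_neg (fun h5 => h4 h5.2), card_empty]
      · -- a non trivial orbit
        have h0 : (O₁.filter fun e => (∀ x, r x * e = e * r x) ∧ (η e) ^ q = k) = ∅ := by
          rw [filter_eq_empty_iff]
          rintro e' he' ⟨h1, -⟩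
          rw [hO₁, mem_filter] at he'
          obtain ⟨-, g, hg⟩ := he'
          apply hfix
          have h2 : e = e' := by
            have h3 := (comm_iff r g⁻¹ e').1 (h1 g⁻¹)
            rw [hg, conj_conj, inv_mul_cancel, inv_one, map_one, Matrix.one_mul, Matrix.mul_one] at h3
            rw [hg]
            exact h3
          rw [h2]
          exact h1
        rw [h0, card_empty]
        apply (Nat.modEq_zero_iff_dvd).2
        -- the stabilizer
        let Q : Subgroup P :=
          { carrier := {g | r g * e * r g⁻¹ = e}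
            mul_mem' := by
              intro a b ha hb
              change r (a * b) * e * r (a * b)⁻¹ = e
              rw [← conj_conj, show r b * e * r b⁻¹ = e from hb]
              exact ha
            one_mem' := by
              change r 1 * e * r 1⁻¹ = e
              rw [inv_one, map_one, Matrix.one_mul, Matrix.mul_one]
            inv_mem' := by
              intro a ha
              change r a⁻¹ * e * r a⁻¹⁻¹ = e
              conv_lhs => rw [← (show r a * e * r a⁻¹ = e from ha)]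
              rw [conj_conj, inv_mul_cancel, inv_one, map_one, Matrix.one_mul, Matrix.mul_one] }
        have hQ : Q ≠ ⊤ := by
          intro h
          apply hfix
          intro x
          have hx : x ∈ Q := by rw [h]; exact Subgroup.mem_top x
          exact (comm_iff r x e).2 hx
        obtain ⟨ε, hε1, hε2, hε3⟩ := eps hP Q hQ
        refine dvd_dl hp hq _ hε1 hε2 ?_ k
        intro x
        by_cases hx : ε x = 1
        · rw [hx, inv_one, Units.val_one, mul_one]
        · have h1 : cO r O₁ x = 0 := by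
            unfold cO
            refine sum_eq_zero fun e' he' => ?_
            apply tr_zero hA (hO1A he')
            intro h2
            rw [hO₁, mem_filter] at he'
            obtain ⟨-, g, rfl⟩ := he'
            apply hx
            have h3 : g⁻¹ * x * g ∈ Q := by
              change r (g⁻¹ * x * g) * e * r (g⁻¹ * x * g)⁻¹ = e
              rw [mul_assoc g⁻¹ x g, ← conj_conj r g⁻¹ (x * g), ← conj_conj r x g, h2, conj_conj,
                inv_mul_cancel, inv_one, map_one, Matrix.one_mul, Matrix.mul_one]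
            have h4 := hε3 _ h3
            rw [map_mul, map_mul, map_inv, mul_comm, mul_inv_cancel_left] at h4
            exact h4
          rw [h1, zero_mul]
  have h1 := key A.card A le_rfl (Subset.refl _) hA.conj
  have h2 : cO r A = fun x => (r x).trace := by
    funext x
    unfold cO
    rw [← Matrix.trace_sum, ← Matrix.mul_sum, hA.sum, Matrix.mul_one]
  rw [h2] at h1
  exact h1

end Pool.Agent.Lib.MP_1aae89_al.W5
end

section
/-!
# Module TIY: the structure `TI`
-/
set_option autoImplicit false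

namespace Pool.Agent.Lib.MP_1aae89_al.W5

open Pool.Agent.Lib.MP_1aae89_al Pool.Agent.Lib.MP_1aae89_al.BF Pool.Agent.Lib.MP_1aae89_al.W3
  Pool.Agent.Lib.MP_1aae89_al.W4 Finset
open Pool.Agent.Lib.MP1aae89 (Pex)

/-- `tp` for a restriction -/
theorem TIY.tp_comp (p : ℕ) {Y : Type} [Group Y] {n m : ℕ} (r : Y →* Matrix (Fin n) (Fin n) ℂ)
    (P : Subgroup Y) (τ : P) (Φ : Matrix (Fin m) (Fin m) ℂ →ₐ[ℂ] Matrix (Fin n) (Fin n) ℂ) :
    tp p (r.comp P.subtype) τ Φ = tp p r (τ : Y) Φ := by
  funext X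
  unfold tp
  rfl

theorem specTIY (hCTA : SpecCTA) (hTDE : SpecTDE) (hCTG : SpecCTG) : SpecTIY := by
  intro p M L Y _ _ Y₁ H₀ _ _ n r e m r' Φ Yh _ _ f H0 Z A P ℓ ct τ hτ
  have hτY : (τ : Y) ∉ Y₁ := fun h => hτ h
  obtain ⟨ha1, ha2⟩ := hCTA p M L Y₁ H₀ n r e m r' Φ f H0 Z A P ℓ ct
  obtain ⟨hg1, hg2⟩ := hCTG p M L Y₁ H₀ n r e m r' Φ f H0 Z A P ℓ ct τ hτY
  have htd := hTDE p M L Y₁ H₀ n r e m r' Φ f H0 Z A P ℓ ct τ hτ
  refine
    { pp := ct.pp
      idx := ?_
      tau := hτ
      n0 := ?_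
      act := ?_
      com := ?_
      res := ?_
      gen := ?_
      tr := ?_
      trm := ?_ }
  · have h1 : Y₁.relIndex P ∣ p := by
      have := Subgroup.relIndex_dvd_index_of_normal Y₁ P
      rwa [ct.wy.idx] at this
    rcases (Nat.dvd_prime ct.pp).1 h1 with h2 | h2
    · exact absurd ((Subgroup.relIndex_eq_one.1 h2) τ.2) hτY
    · exact h2
  · rintro rfl
    exact ct.deg (dvd_zero p)
  · intro x X
    have h1 := ha1 (ℓ x) X
    have h2 := ct.lf x
    have h3 : r ((f (ℓ x) : Y₁) : Y) = (r.comp P.subtype) (x : P) := by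
      rw [h2]
      rfl
    rw [h3] at h1
    have h4 : (A.comp ℓ) x⁻¹ = A (ℓ x)⁻¹ := by rw [MonoidHom.comp_apply, map_inv]
    rw [h1, h4]
    rfl
  · intro z hz X X'
    exact ha2 (z : Y) (fun h => hz h) X X'
  · intro x
    exact htd x
  · intro X
    rw [TIY.tp_comp]
    exact hg1 X
  · intro X
    rw [TIY.tp_comp]
    exact hg2 X
  · intro X
    rw [ct.pht, ct.nem]
    push_cast
    ring

end Pool.Agent.Lib.MP_1aae89_al.W5
end

section
/-!
# W5, module WRT: the wreath product step in the context `CT`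
-/
set_option autoImplicit false

namespace Pool.Agent.Lib.MP_1aae89_al.W5

open Pool.Agent.Lib.MP_1aae89_al Pool.Agent.Lib.MP_1aae89_al.BF Pool.Agent.Lib.MP_1aae89_al.W3
  Pool.Agent.Lib.MP_1aae89_al.W4 Finset
open Pool.Agent.Lib.MP1aae89 (Pex)

namespace WRT

/-- a Sylow subgroup is not contained in a normal subgroup of index `p` -/
theorem exists_tau {p : ℕ} (hp : p.Prime) {Y : Type} [Group Y] [Finite Y] (Y₁ P : Subgroup Y)
    (hidx : Y₁.index = p) (hP : Nat.card P = p ^ (Nat.card Y).factorization p) :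
    ∃ τ : P, τ ∉ Y₁.subgroupOf P := by
  by_contra h
  push Not at h
  have hle : P ≤ Y₁ := fun x hx => h ⟨x, hx⟩
  have h1 : Nat.card P ∣ Nat.card Y₁ := Subgroup.card_dvd_of_le hle
  have h2 : Nat.card Y₁ * p = Nat.card Y := by rw [← hidx]; exact Subgroup.card_mul_index Y₁
  have hY1 : Nat.card Y₁ ≠ 0 := Nat.card_pos.ne'
  have h3 : (Nat.card Y).factorization p = (Nat.card Y₁).factorization p + 1 := by
    rw [← h2, Nat.factorization_mul hY1 hp.ne_zero, Finsupp.add_apply, hp.factorization_self]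
  rw [hP] at h1
  have h4 := (hp.pow_dvd_iff_le_factorization hY1).1 h1
  omega

theorem card_range {p : ℕ} (hp : p.Prime) {S G Yh : Type} [Group S] [Finite S] [Group G]
    [Finite G] [Group Yh] [Finite Yh] (f : Yh →* G) (hf : Function.Surjective f)
    (hker : (Nat.card f.ker).Coprime p) (ℓ : S →* Yh) (hℓ : Function.Injective ℓ)
    (hS : Nat.card S = p ^ (Nat.card G).factorization p) :
    Nat.card ℓ.range = p ^ (Nat.card Yh).factorization p := by
  have h1 : Nat.card Yh = Nat.card f.ker * Nat.card G := by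
    have h2 := Subgroup.card_mul_index f.ker
    rw [Subgroup.index_ker, MonoidHom.range_eq_top.2 hf, Subgroup.card_top] at h2
    exact h2.symm
  have h3 : Nat.card f.ker ≠ 0 := Nat.card_pos.ne'
  have h4 : Nat.card G ≠ 0 := Nat.card_pos.ne'
  have h5 : (Nat.card Yh).factorization p = (Nat.card G).factorization p := by
    rw [h1, Nat.factorization_mul h3 h4, Finsupp.add_apply, Nat.factorization_eq_zero_of_not_dvd,
      zero_add]
    intro h
    have h6 := Nat.dvd_gcd h dvd_rfl
    rw [hker.gcd_eq_one] at h6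
    exact hp.one_lt.ne' (Nat.dvd_one.1 h6)
  rw [h5, ← hS]
  exact (Nat.card_congr (MonoidHom.ofInjective hℓ).toEquiv).symm

end WRT

open WRT in
theorem specWRT (hPRD : SpecPRD) (hTIY : SpecTIY) (hDLW : SpecDLW) (hKEX : SpecKEX)
    (hNIN : SpecNIN) (hGCE : SpecGCE) (hLVL : W3.SpecLVL) (hSUG : W3.SpecSUG)
    (hPRM : W3.SpecPRM) (hQDL : W3.SpecQDL) : SpecWRT := by
  classical
  intro p M L b Y _ _ Y₁ H₀ _ _ _ n r e m r' Φ Yh _ _ f H0 Z A P ℓ ct hb hG b' hb' s0 hs fx K hK
    hKN hex
  have hp : p.Prime := ct.pp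
  have hb2 : 2 ≤ b' := hb.trans hb'
  obtain ⟨τ, hτ⟩ := exists_tau hp Y₁ P ct.wy.idx ct.syl
  have ti := hTIY p M L Y₁ H₀ n r e m r' Φ f H0 Z A P ℓ ct τ hτ
  have hq : p ∣ p ^ (b' - 1) := dvd_pow_self p (by omega)
  have hmod := hDLW p ((Nat.card Y).factorization p) ct.syl (Y₁.subgroupOf P) τ n m
    (r.comp P.subtype) (A.comp ℓ) Φ ti (p ^ (b' - 1)) hq (resL P K)
  -- numbers
  have hn0 : ¬ p ∣ n := ct.deg
  have he0 : e ≠ 0 := by
    intro h
    apply hn0
    rw [ct.nem, h, zero_mul]
    exact dvd_zero p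
  have hm0 : ¬ p ∣ m := by
    intro h
    apply hn0
    rw [ct.nem]
    exact dvd_mul_of_dvd_right h e
  -- levels
  have hfx1 : FX p s0 b' (fun y => ((r.comp Y₁.subtype) y).trace) := by
    intro t y
    exact fx t (y : Y)
  have hlvl := hLVL p hp L s0 ct.hL hs b' (by omega) ct.cardh (H₀.subgroupOf Y₁) n e m M he0 hm0
    ct.mL (r.comp Y₁.subtype) r' ct.sch' f H0 Z A ct.td hfx1
  have hfA : FX p s0 b' (fun y => (A y).trace) := hlvl.2.1
  -- the order of `P ∩ Y₁`
  have hcS : Nat.card (Y₁.subgroupOf P) = p ^ (Nat.card Y₁).factorization p := by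
    rw [PRJ.card_sub]
    exact W4.CNQ.card_inf hp P Y₁ ct.syl
  have hℓ : Function.Injective ℓ := by
    intro x y hxy
    have h1 := ct.lf x
    have h2 := ct.lf y
    rw [hxy, h2] at h1
    exact Subtype.ext (Subtype.ext h1.symm)
  -- the main claim
  have hmain : ∀ κ ∈ univ.filter (fun κ : Lin (Y₁.subgroupOf P) =>
      Vr p (Y₁.subgroupOf P) τ κ (resL P K)),
      p ∣ dl (p ^ (b' - 1)) (fun x => ((A.comp ℓ) x).trace) κ := by
    intro κ hκm
    have hκ : Vr p (Y₁.subgroupOf P) τ κ (resL P K) := (mem_filter.1 hκm).2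
    by_cases hκp : κ ^ p = 1
    · by_cases hd : dl (p ^ (b' - 1)) (fun x : Y₁.subgroupOf P => (A (ℓ x)).trace) κ = 0
      · have h0 : dl (p ^ (b' - 1)) (fun x => ((A.comp ℓ) x).trace) κ = 0 := hd
        rw [h0]
        exact dvd_zero p
      · obtain ⟨K', hK', hK'N, hK'ℓ⟩ := hKEX p M L Y₁ H₀ n r e m r' Φ f H0 Z A P ℓ ct τ hτ K hK hKN
          κ hκp hκ (p ^ (b' - 1)) hd
        have hne : ∃ y, (A (y ^ (1 + s0 * p ^ (b' - 1)))).trace ≠
            ((K' y : ℂˣ) : ℂ) * (A y).trace := by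
          by_contra hcon
          push Not at hcon
          obtain ⟨y, hy⟩ := hex
          exact hy (hNIN p M L Y₁ H₀ n r e m r' Φ f H0 Z A P ℓ ct τ hτ s0 hs (b' - 1) (by omega) K
            hKN κ hκ K' hK'N hK'ℓ hcon y)
        obtain ⟨h1, h2, h3, h4, h5, h6, h7⟩ := hPRD p hp Y₁ H₀ ct.wy
        have hcomm : ∀ x ∈ H₀.subgroupOf Y₁, ∀ y ∈ (HC Y₁ H₀).subgroupOf Y₁, x * y = y * x := by
          intro x hx y hy
          exact Subtype.ext (h3 x hx y hy)
        have hMp : M.Coprime p := by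
          have h8 : (ordCompl[p] L).Coprime p := (Nat.coprime_ordCompl hp ct.hL).symm
          exact h8.coprime_dvd_left ct.mL
        have hKD : ∀ y, f y ∈ (HC Y₁ H₀).subgroupOf Y₁ → K' y = 1 := by
          intro y hy
          apply hK'N y
          rw [h4]
          exact Subgroup.mem_sup_right hy
        have hcr := card_range hp f ct.td.surj ct.td.ker ℓ hℓ hcS
        have hg := hGCE p b hp hb (H₀.subgroupOf Y₁) ((HC Y₁ H₀).subgroupOf Y₁) hcomm hG n
          (r.comp Y₁.subtype) e m r' ct.sch' hm0 M hMp f H0 Z A ct.td b' hb' L s0 ct.hL ct.cardh hs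
          hfA K' hK' hKD hne ℓ.range hcr
        have hchar : IsCharacter (fun x : ℓ.range => (A x).trace) :=
          ⟨m, A.comp ℓ.range.subtype, fun _ => rfl⟩
        have hq2 := hQDL ℓ.rangeRestrict ℓ.rangeRestrict_surjective (p ^ (b' - 1))
          (fun x : ℓ.range => (A x).trace) hchar (resL ℓ.range K')
        have hκ2 : pb ℓ.rangeRestrict (resL ℓ.range K') = κ := by
          apply Lin.ext
          intro x
          rw [pb_apply, resL_apply]
          exact hK'ℓ x
        rw [hκ2] at hq2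
        have h9 : dl (p ^ (b' - 1)) (fun x => ((A.comp ℓ) x).trace) κ =
            dl (p ^ (b' - 1)) (fun x : ℓ.range => (A x).trace) (resL ℓ.range K') := hq2
        rw [h9]
        exact hg
    · have : Fintype (Y₁.subgroupOf P) := Fintype.ofFinite _
      have hpow : ∀ (t : ℕ) (x : Y₁.subgroupOf P),
          (fun x => ((A.comp ℓ) x).trace) (x ^ (1 + p ^ b' * t)) =
            (fun x => ((A.comp ℓ) x).trace) x := by
        intro t x
        have h1 := hfA t (ℓ x)
        have hyL : (ℓ x) ^ L = 1 := by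
          obtain ⟨c, hc⟩ := ct.cardh
          rw [hc, pow_mul, pow_card_eq_one', one_pow]
        have hyp : (ℓ x) ^ p ^ (Nat.card Y₁).factorization p = 1 := by
          rw [← map_pow, ← hcS, pow_card_eq_one', map_one]
        have hs1 := (hPRM p hp L s0 ct.hL hs).2.1 (ℓ x) _ hyL hyp
        have h2 : (ℓ x) ^ (1 + s0 * p ^ b' * t) = ℓ (x ^ (1 + p ^ b' * t)) := by
          rw [map_pow, pow_add, pow_add, pow_one, mul_assoc, pow_mul, hs1]
        show (A (ℓ (x ^ (1 + p ^ b' * t)))).trace = (A (ℓ x)).trace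
        rw [← h2]
        exact h1
      refine hSUG p hp _ hcS (fun x => ((A.comp ℓ) x).trace) b' b' hb2 (by omega) hpow κ ?_
      have h3 : b' + 1 - b' = 1 := by omega
      rw [h3, pow_one]
      exact hκp
  have hsum := Finset.dvd_sum hmain
  have h10 := (Nat.ModEq.dvd_iff hmod (dvd_refl p)).2 hsum
  exact h10

end Pool.Agent.Lib.MP_1aae89_al.W5
end

section
/-!
# Module WZS: the wreath product step for central extensions
-/
set_option autoImplicit false

namespace Pool.Agent.Lib.MP_1aae89_al.W5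

open Pool.Agent.Lib.MP_1aae89_al Pool.Agent.Lib.MP_1aae89_al.BF Pool.Agent.Lib.MP_1aae89_al.W3
  Pool.Agent.Lib.MP_1aae89_al.W4 Finset

theorem specWZS (hPRD : SpecPRD) (hCOM : SpecCOM) (hHCF : SpecHCF) (hWRS : SpecWRS)
    (hTWS : SpecTWS) : SpecWZS := by
  intro p b hp hb Z _ _ X₁ N₀ _ _ hwy hN hgood Y _ _ f hf hcen hker b' hb'
  obtain ⟨hwyY, hK⟩ := hCOM p hp f hf hcen hker X₁ N₀ hwy hN
  obtain ⟨-, h2, -⟩ := hPRD p hp (X₁.comap f) (N₀.comap f) hwyY
  have hnorm : ((HC (X₁.comap f) (N₀.comap f)).subgroupOf (X₁.comap f)).Normal := by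
    refine ⟨fun y hy g => ?_⟩
    rw [Subgroup.mem_subgroupOf] at hy ⊢
    exact h2 g g.2 y hy
  have hX : (X₁.comap f).Normal := inferInstance
  have h3 := hHCF p b hp f hf X₁ N₀ hwy hgood
  exact hTWS p b' hp (hb.trans hb') (hWRS p b hp hb (X₁.comap f) (N₀.comap f) hwyY hK h3 b' hb')

end Pool.Agent.Lib.MP_1aae89_al.W5
end

section
/-!
# Assembly of the modules of `W5`
-/
set_option autoImplicit false

namespace Pool.Agent.Lib.MP_1aae89_al.W5

theorem topDEC : SpecDEC := specDEC

theorem topMTR : SpecMTR := specMTR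

theorem topFXR : SpecFXR := specFXR W3.topISO

theorem topFXP : SpecFXP := specFXP topFXR W3.topGBD W3.topREC W3.topPWL W3.topPRM W3.topSU0

theorem topC4D : SpecC4D := specC4D topDEC topMTR topFXP

theorem topC4G : SpecC4G := specC4G W3.topREC W3.topGPG

theorem topC4I : SpecC4I := specC4I

theorem topCCI : SpecCCI := specCCI

theorem topCCN : SpecCCN := specCCN

theorem topCCQ : SpecCCQ := specCCQ

theorem topCCT : SpecCCT := specCCT

theorem topK4I : SpecK4I := specK4I topCCI topC4I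

theorem topD4I : SpecD4I := specD4I topK4I

theorem topCH4 : SpecCH4 := specCH4 topK4I topD4I

theorem topCOM : SpecCOM := specCOM

theorem topSPN : SpecSPN := specSPN

theorem topCTA : SpecCTA := specCTA topSPN

theorem topPRD : SpecPRD := specPRD

theorem topCTG : SpecCTG := specCTG topSPN topPRD topCTA topMTR

theorem topD4E : SpecD4E := specD4E

theorem topK4N : SpecK4N := specK4N topCCN topK4I

theorem topD4N : SpecD4N := specD4N topK4N topK4I

theorem topK4Q : SpecK4Q := specK4Q topCCQ topK4I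

theorem topD4Q : SpecD4Q := specD4Q topK4Q topK4I

theorem topD4S : SpecD4S := specD4S topK4I topD4I

theorem topDDE : SpecDDE := specDDE

theorem topDDI : SpecDDI := specDDI topCCI

theorem topDDN : SpecDDN := specDDN topCCN topCCI topDDI

theorem topDDQ : SpecDDQ := specDDQ topCCQ topCCI

theorem topDDS : SpecDDS := specDDS topCCI topDDI

theorem topDDT : SpecDDT := specDDT topCCT topCCI topDDI

theorem topDDX : SpecDDX := specDDX topCCI topDDI

theorem topGEX : SpecGEX := specGEX W3.topISO W3.topREC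

theorem topMAB : SpecMAB := specMAB W3.topGPG W3.topGBD

theorem topSDC : SpecSDC := specSDC

theorem topSSM : SpecSSM := specSSM

theorem topMI1 : SpecMI1 := specMI1 topDDT

theorem topMI2 : SpecMI2 := specMI2 W3.topREC W3.topISO topDDN topDDI topDDE topDDQ

theorem topMCC : SpecMCC := specMCC W3.topGPG W3.topGBD W4.topCFC W4.topGCF

theorem topSPL : SpecSPL := specSPL

theorem topHCF : SpecHCF := specHCF W3.topISO

theorem topIR1 : SpecIR1 := specIR1

theorem topIRH : SpecIRH := specIRH topIR1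

theorem topPHI : SpecPHI := specPHI

theorem topELL : SpecELL := specELL W3.topLIF

theorem topTDE : SpecTDE := specTDE topPRD topCTA

theorem topTIY : SpecTIY := specTIY topCTA topTDE topCTG

theorem topSYI : SpecSYI := specSYI

theorem topSYS : SpecSYS := specSYS

theorem topWSY : SpecWSY := specWSY

theorem topRK1 : SpecRK1 := specRK1

theorem topRKC : SpecRKC := specRKC

theorem topDLW : SpecDLW := specDLW topSYI topSYS topWSY topRK1 topRKC

theorem topPRJ : SpecPRJ := specPRJ topPRD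

theorem topKEX : SpecKEX := specKEX topPRJ

theorem topNIN : SpecNIN := specNIN topCTG W3.topGLA

theorem topGCE : SpecGCE := specGCE

theorem topWRT : SpecWRT := specWRT topPRD topTIY topDLW topKEX topNIN topGCE W3.topLVL W3.topSUG W3.topPRM W3.topQDL

theorem topWRS : SpecWRS := specWRS topPRD W3.topPRM topIRH topIR1 topDEC topPHI W3.topEXT topELL topWRT

theorem topWZS : SpecWZS := specWZS topPRD topCOM topHCF topWRS W3.topTWS

theorem topMI3 : SpecMI3 := specMI3 topMAB topDDN topDDS topMCC topSPL topDDQ topPRD topWZS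

theorem topDGO : SpecDGO := specDGO W3.topGPG topMI1 topMI2 topMI3

theorem topDG4 : SpecDG4 := specDG4 W3.topGPG topGEX topD4Q topD4N topD4I topD4E topMAB topSDC topSSM topD4S topC4I topC4D topC4G topCCI topDDI topDDX topDDE topDGO

theorem topFAC : SpecFAC := specFAC W4.topCYN

theorem topSYN : SpecSYN := specSYN

theorem topSE4 : SpecSE4 := specSE4 topFAC topK4I topD4I

theorem topSG4 : SpecSG4 := specSG4 topD4I topD4E topDG4

theorem topSC4 : SpecSC4 := specSC4 topC4I topC4G

theorem topFI4 : SpecFI4 := specFI4 W4.topCHG topSYN topSE4 topSG4 topSC4 W4.topSTV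

theorem topSER : SpecSER := specSER topSYN topFAC topCCI topDDI

theorem topSGO : SpecSGO := specSGO topDDI topDGO

theorem topFIN : SpecFIN := specFIN W4.topCHG W4.topSTV topSYN topSER topSGO

theorem topFXL : SpecFXL := specFXL W3.topLVF

theorem topFOK : SpecFOK := specFOK topFXL W4.topCYN

theorem topICM : SpecICM := specICM topCH4 topDG4 W3.topREC

end Pool.Agent.Lib.MP_1aae89_al.W5
end
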