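import Pool.Agent.Lib.MP_1aae89_al.W4.Defs

/-!
# Definitions for the wreath product reduction (MP_1aae89_al, Q1)
-/

set_option autoImplicit false

namespace Pool.Agent.Lib.MP_1aae89_al.W5

open Pool.Agent.Lib.MP_1aae89_al Pool.Agent.Lib.MP_1aae89_al.BF Pool.Agent.Lib.MP_1aae89_al.W3
  Pool.Agent.Lib.MP_1aae89_al.W4 Finset
open Pool.Agent.Lib.MP1aae89 (Pex)

/-! ## Tensor induction, for matrices -/

/-- a finite set of orthogonal idempotents with sum `1`, permuted by `r(P)` -/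
structure SI {P : Type} [Group P] {n : ℕ} (r : P →* Matrix (Fin n) (Fin n) ℂ)
    (A : Finset (Matrix (Fin n) (Fin n) ℂ)) : Prop where
  nz : ∀ e ∈ A, e ≠ 0
  idem : ∀ e ∈ A, e * e = e
  orth : ∀ e ∈ A, ∀ e' ∈ A, e ≠ e' → e * e' = 0
  sum : ∑ e ∈ A, e = 1
  conj : ∀ x, ∀ e ∈ A, r x * e * r x⁻¹ ∈ A

/-- `∏_{i<p} τ^i Φ(Y i) τ^(-i)` -/
noncomputable def tp (p : ℕ) {P : Type} [Group P] {n m : ℕ} (r : P →* Matrix (Fin n) (Fin n) ℂ)
    (τ : P) (Φ : Matrix (Fin m) (Fin m) ℂ →ₐ[ℂ] Matrix (Fin n) (Fin n) ℂ)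
    (Y : ℕ → Matrix (Fin m) (Fin m) ℂ) : Matrix (Fin n) (Fin n) ℂ :=
  ((List.range p).map fun i => r (τ ^ i) * Φ (Y i) * r (τ ^ i)⁻¹).prod

/-- `x ↦ τ^(-i) x τ^i` on a normal subgroup -/
def cjt {P : Type} [Group P] (P₁ : Subgroup P) [P₁.Normal] (τ : P) (i : ℕ) (x : P₁) : P₁ :=
  MulAut.conjNormal (τ ^ i)⁻¹ x

/-- the data of a tensor induced representation `r` of the group `P`: `P₁` normal of index `p`,
`τ ∉ P₁`, `ρ` a representation of `P₁`, `Φ : M_m(ℂ) → M_n(ℂ)` the first tensor factor -/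
structure TI (p : ℕ) {P : Type} [Group P] (P₁ : Subgroup P) [P₁.Normal] (τ : P) {n m : ℕ}
    (r : P →* Matrix (Fin n) (Fin n) ℂ) (ρ : P₁ →* Matrix (Fin m) (Fin m) ℂ)
    (Φ : Matrix (Fin m) (Fin m) ℂ →ₐ[ℂ] Matrix (Fin n) (Fin n) ℂ) : Prop where
  pp : p.Prime
  idx : P₁.index = p
  tau : τ ∉ P₁
  n0 : n ≠ 0
  act : ∀ (x : P₁) (X), r x * Φ X = Φ (ρ x * X * ρ x⁻¹) * r x
  com : ∀ z ∉ P₁, ∀ X Y, Φ X * (r z * Φ Y * r z⁻¹) = r z * Φ Y * r z⁻¹ * Φ X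
  res : ∀ x : P₁, r x = tp p r τ Φ fun i => ρ (cjt P₁ τ i x)
  gen : ∀ X, X ∈ Submodule.span ℂ (Set.range (tp p r τ Φ))
  tr : ∀ Y, (n : ℂ) ^ (p - 1) * (tp p r τ Φ Y).trace = ∏ i ∈ range p, (Φ (Y i)).trace
  trm : ∀ X, (m : ℂ) * (Φ X).trace = n * X.trace

/-- `κ ∘ Ver = k`, `Ver` the transfer from `P` to `P₁` -/
def Vr (p : ℕ) {P : Type} [Group P] (P₁ : Subgroup P) [P₁.Normal] (τ : P) (κ : Lin P₁)
    (k : Lin P) : Prop :=
  (∀ x : P₁, k x = ∏ i ∈ range p, κ (cjt P₁ τ i x)) ∧ ∀ h : τ ^ p ∈ P₁, k τ = κ ⟨τ ^ p, h⟩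

/-! ## The group theoretic situation -/

/-- `Y₁` is a normal subgroup of index `p` of `Y`, `H₀` is normal in `Y₁` and commutes with its
conjugates by the elements outside `Y₁`, and `Y` is a `p`-group modulo the normal closure of `H₀` -/
structure WY (p : ℕ) {Y : Type} [Group Y] (Y₁ H₀ : Subgroup Y) : Prop where
  norm : Y₁.Normal
  idx : Y₁.index = p
  le : H₀ ≤ Y₁
  n0 : ∀ x ∈ Y₁, ∀ y ∈ H₀, x * y * x⁻¹ ∈ H₀
  com : ∀ z ∉ Y₁, ∀ x ∈ H₀, ∀ y ∈ H₀, x * (z * y * z⁻¹) = z * y * z⁻¹ * x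
  quo : ∀ y, ∃ j : ℕ, y ^ p ^ j ∈ Subgroup.normalClosure (H₀ : Set Y)

/-- the subgroup generated by the conjugates of `H₀` by the elements outside `Y₁` -/
def HC {Y : Type} [Group Y] (Y₁ H₀ : Subgroup Y) : Subgroup Y :=
  Subgroup.closure {w | ∃ z ∉ Y₁, ∃ y ∈ H₀, w = z * y * z⁻¹}

/-- the context of the wreath product step: `r` an irreducible representation of `Y`, irreducible on
the normal closure of `H₀` and isotypic on `H₀` with constituent `r'`, `f : Yh → Y₁` the central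
extension of EXT with the extension `A` of `r'`, `P` a Sylow subgroup of `Y`, and
`ℓ : P ∩ Y₁ → Yh` a lifting -/
structure CT (p M L : ℕ) {Y : Type} [Group Y] [Finite Y] (Y₁ H₀ : Subgroup Y) [Y₁.Normal]
    [(H₀.subgroupOf Y₁).Normal] {n : ℕ} (r : Y →* Matrix (Fin n) (Fin n) ℂ) {e m : ℕ}
    (r' : H₀.subgroupOf Y₁ →* Matrix (Fin m) (Fin m) ℂ)
    (Φ : Matrix (Fin m) (Fin m) ℂ →ₐ[ℂ] Matrix (Fin n) (Fin n) ℂ)
    {Yh : Type} [Group Yh] [Finite Yh] (f : Yh →* Y₁) (H0 : Subgroup Yh)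
    (Z : Yh →* Matrix (Fin e) (Fin e) ℂ) (A : Yh →* Matrix (Fin m) (Fin m) ℂ) (P : Subgroup Y)
    (ℓ : Y₁.subgroupOf P →* Yh) : Prop where
  pp : p.Prime
  wy : WY p Y₁ H₀
  hL : L ≠ 0
  card : Nat.card Y ∣ L
  cardh : Nat.card Yh ∣ L
  mL : M ∣ ordCompl[p] L
  sch : Sch r
  deg : ¬ p ∣ n
  nem : n = e * m
  det : ∀ y, (r y).det ^ M = 1
  schN : Sch (r.comp (Subgroup.normalClosure (H₀ : Set Y)).subtype)
  sch' : Sch r'
  phi : ∀ l : H₀.subgroupOf Y₁, Φ (r' l) = r ((l : Y₁) : Y)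
  phd : ∀ X, (Φ X).det = X.det ^ e
  pht : ∀ X, (Φ X).trace = e * X.trace
  td : TD p M (H₀.subgroupOf Y₁) (r.comp Y₁.subtype) r' f H0 Z A
  syl : Nat.card P = p ^ (Nat.card Y).factorization p
  lf : ∀ x : Y₁.subgroupOf P, ((f (ℓ x) : Y₁) : Y) = ((x : P) : Y)

/-! ## The class of groups -/

/-- the conditions on the factors: `F` is a `p`-group, or has no element of order `p^b`, or has an
abelian Sylow `p`-subgroup with an automizer of order less than `p` -/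
def CC (p b : ℕ) (F : Type) [Group F] : Prop :=
  (∃ e : ℕ, Nat.card F = p ^ e) ∨ (∀ x : F, x ^ p ^ b = 1 → x ^ p ^ (b - 1) = 1) ∨
  ∃ Q : Subgroup F, Nat.card Q = p ^ (Nat.card F).factorization p ∧
    (∀ x ∈ Q, ∀ y ∈ Q, x * y = y * x) ∧
    Nat.card {g : F // ∀ x ∈ Q, g * x * g⁻¹ ∈ Q} < p * Nat.card {g : F // ∀ x ∈ Q, g * x * g⁻¹ = x}

/-- `X` has a subnormal series of length `n` whose factors satisfy `CC` -/
def DD (p b : ℕ) : ℕ → (X : Type) → [Group X] → Prop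
  | 0, X, _ => Subsingleton X
  | n + 1, X, _ => ∃ N : Subgroup X, ∃ _ : N.Normal, DD p b n N ∧ CC p b (X ⧸ N)

end Pool.Agent.Lib.MP_1aae89_al.W5
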