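import Pool.Agent.Lib.MP_1aae89_al.W5.SpecB
import Pool.Agent.Lib.MP_1aae89_al.W4.SpecB

/-!
# Definitions, part C: factors of series inside a group
-/

set_option autoImplicit false

namespace Pool.Agent.Lib.MP_1aae89_al.W5

open Pool.Agent.Lib.MP_1aae89_al Pool.Agent.Lib.MP_1aae89_al.BF Pool.Agent.Lib.MP_1aae89_al.W3
  Pool.Agent.Lib.MP_1aae89_al.W4 Finset
open Pool.Agent.Lib.MP1aae89 (Pex)

/-- all groups of smaller order with a series as in `DD` are good -/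
def IndG (p b : ℕ) (Z : Type) [Group Z] [Finite Z] : Prop :=
  ∀ (Z' : Type) [Group Z'] [Finite Z'], Nat.card Z' < Nat.card Z → ∀ n : ℕ, DD p b n Z' → Good p b Z'

/-- `IC` for all central `p'`-extensions of `Z` -/
def SurG (p b : ℕ) (Z : Type) [Group Z] [Finite Z] : Prop :=
  ∀ (Y : Type) [Group Y] [Finite Y] (f : Y →* Z), Function.Surjective f →
  (∀ y, f y = 1 → ∀ z, y * z = z * y) → (Nat.card f.ker).Coprime p → ∀ b' : ℕ, b ≤ b' → IC p b' Y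

/-- the conditions on a factor `B / A` of a series in `M`, `P` a Sylow `p`-subgroup of `M`: it is a
`p`-group, or it has no element of order `p^b`, or its Sylow `p`-subgroup `Q = (P ∩ B) A / A` is abelian
and is cyclic or has an automizer of order less than `p` in `B / A` -/
def Fac (p b : ℕ) {M : Type} [Group M] (P A B : Subgroup M) : Prop :=
  (∀ x ∈ B, ∃ j : ℕ, x ^ p ^ j ∈ A) ∨
  (∀ x ∈ B, x ^ p ^ b ∈ A → x ^ p ^ (b - 1) ∈ A) ∨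
  ((∀ x ∈ P ⊓ B, ∀ y ∈ P ⊓ B, x * y * x⁻¹ * y⁻¹ ∈ A) ∧
    ((∃ x₀ ∈ P ⊓ B, ∀ y ∈ P ⊓ B, ∃ j : ℕ, y * (x₀ ^ j)⁻¹ ∈ A) ∨
      Nat.card {g : M // g ∈ B ∧ ∀ x ∈ P ⊓ B, ∃ y ∈ P ⊓ B, g * x * g⁻¹ * y⁻¹ ∈ A} <
        p * Nat.card {g : M // g ∈ B ∧ ∀ x ∈ P ⊓ B, g * x * g⁻¹ * x⁻¹ ∈ A}))

/-- there is a series from `A` to `B`, each term normal in the next, with factors as in `Fac` -/
def Ser (p b : ℕ) {M : Type} [Group M] (P A B : Subgroup M) : Prop :=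
  ∃ (l : ℕ) (R : ℕ → Subgroup M), R 0 = A ∧ R l = B ∧ ∀ j < l, R j ≤ R (j + 1) ∧
    (∀ g ∈ R (j + 1), ∀ x ∈ R j, g * x * g⁻¹ ∈ R j) ∧ Fac p b P (R j) (R (j + 1))

end Pool.Agent.Lib.MP_1aae89_al.W5
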