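import Pool.Agent.Lib.MP_1aae89_al.W5.SpecC

/-!
# Definitions, part D: factors without characters of high level
-/

set_option autoImplicit false

namespace Pool.Agent.Lib.MP_1aae89_al.W5

open Pool.Agent.Lib.MP_1aae89_al Pool.Agent.Lib.MP_1aae89_al.BF Pool.Agent.Lib.MP_1aae89_al.W3
  Pool.Agent.Lib.MP_1aae89_al.W4 Finset
open Pool.Agent.Lib.MP1aae89 (Pex)

/-- for each central `p'`-extension of a subgroup of `p'`-index of `F`, all irreducible characters of
degree prime to `p` have level less than `b` -/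
def C4 (p b : ℕ) (F : Type) [Group F] [Finite F] : Prop :=
  ∀ (Y : Type) [Group Y] [Finite Y] (f : Y →* F), (∀ y, f y = 1 → ∀ z, y * z = z * y) →
  (Nat.card f.ker).Coprime p → ¬ p ∣ f.range.index → Fxd p b Y

/-- `F` has only the trivial normal subgroups -/
def Smp (F : Type) [Group F] : Prop := ∀ R : Subgroup F, R.Normal → R = ⊥ ∨ R = ⊤

/-- the conditions on the factors, with simple groups satisfying `C4` -/
def CC4 (p b : ℕ) (F : Type) [Group F] [Finite F] : Prop := CC p b F ∨ (Smp F ∧ C4 p b F)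

/-- `X` has a subnormal series of length `n` whose factors satisfy `CC4` -/
def D4 (p b : ℕ) : ℕ → (X : Type) → [Group X] → [Finite X] → Prop
  | 0, X, _, _ => Subsingleton X
  | n + 1, X, _, _ => ∃ N : Subgroup X, ∃ _ : N.Normal, D4 p b n N ∧ CC4 p b (X ⧸ N)

/-- the conditions on a factor `B / A` of a series in `M`: as in `Fac`, or `B / A` is simple and
satisfies `C4` -/
def Fac4 (p b : ℕ) {M : Type} [Group M] [Finite M] (P A B : Subgroup M) : Prop :=
  Fac p b P A B ∨ ∀ [(A.subgroupOf B).Normal], Smp (↥B ⧸ A.subgroupOf B) ∧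
    C4 p b (↥B ⧸ A.subgroupOf B)

/-- there is a series from `A` to `B`, each term normal in the next, with factors as in `Fac4` -/
def Ser4 (p b : ℕ) {M : Type} [Group M] [Finite M] (P A B : Subgroup M) : Prop :=
  ∃ (l : ℕ) (R : ℕ → Subgroup M), R 0 = A ∧ R l = B ∧ ∀ j < l, R j ≤ R (j + 1) ∧
    (∀ g ∈ R (j + 1), ∀ x ∈ R j, g * x * g⁻¹ ∈ R j) ∧ Fac4 p b P (R j) (R (j + 1))

end Pool.Agent.Lib.MP_1aae89_al.W5
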